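import Pool.Agent.H51.DG.KerN

/-!
# DG2 job KI: `KerN (1/2) n1 n1d`

For `τ > 0`, `log(1 - e^{-τ}) = log(e^τ - 1) - τ`, so
`n1 τ = 2 cosh(τ/2) log(e^τ-1) - τ e^{τ/2}` and (using `e^τ/(e^τ-1) = e^{τ/2}/(2 sinh(τ/2))`)
`n1' = sinh(τ/2) log(e^τ-1) + cosh(τ/2) e^{τ/2}/sinh(τ/2) - e^{τ/2} - (τ/2)e^{τ/2} = n1d`
(`e^{τ/2}(cosh - sinh)(τ/2) = 1`).
`n1d' = (1/2)cosh(τ/2) log(e^τ-1) + e^{τ/2}/2 - cosh(τ/2)/(2 sinh²(τ/2)) - e^{τ/2}/2
 - (τ/4) e^{τ/2} = n1/4 - 2 Lpp`.
`z1`, `near`, `far` as in job KH (`far`: `n1 τ = e^{τ/2} log(1-x) + e^{-τ/2}(τ + log(1-x))`,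
`x = e^{-τ}`, `|log(1-x)| ≤ 2x` for `0 ≤ x ≤ 1/2`; `n1d = (1/2)e^{τ/2} log(1-x)
 - (1/2) e^{-τ/2} log(e^τ-1) + 1/sinh(τ/2)`).
-/

set_option autoImplicit false
open Real Set MeasureTheory Filter Topology

namespace Pool.Agent.H51.DG

/-- `n1` in terms of `log (e^τ - 1)` -/
theorem KI_n1_eq {τ : ℝ} (h : 0 < τ) :
    n1 τ = Real.exp (τ / 2) * (Real.log (Real.exp τ - 1) - τ)
      + Real.exp (-τ / 2) * Real.log (Real.exp τ - 1) := by
  have h1 : 0 < Real.exp τ - 1 := by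
    have := Real.add_one_lt_exp h.ne'
    linarith
  have h2 : 1 - Real.exp (-τ) = (Real.exp τ - 1) * Real.exp (-τ) := by
    rw [sub_mul, ← Real.exp_add, add_neg_cancel, Real.exp_zero, one_mul]
  unfold n1
  rw [h2, Real.log_mul h1.ne' (Real.exp_pos _).ne', Real.log_exp]
  ring

theorem KI_log_near {τ : ℝ} (h : 0 < τ) (h1 : τ ≤ 1) :
    |Real.log (Real.exp τ - 1)| ≤ |Real.log τ| + 1 := by
  have a1 : τ ≤ Real.exp τ - 1 := by
    have := Real.add_one_le_exp τ
    linarith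
  have a2 : Real.exp τ - 1 ≤ 2 * τ := by
    have h3 := Real.abs_exp_sub_one_sub_id_le (x := τ) (by rw [abs_of_pos h]; exact h1)
    have h4 := (abs_le.mp h3).2
    nlinarith
  have a3 : Real.log τ ≤ Real.log (Real.exp τ - 1) := Real.log_le_log h a1
  have a4 : Real.log (Real.exp τ - 1) ≤ Real.log 2 + Real.log τ := by
    rw [← Real.log_mul two_ne_zero h.ne']
    exact Real.log_le_log (by linarith) a2
  have a5 : Real.log 2 ≤ 1 := by
    have := Real.log_two_lt_d9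
    linarith
  rw [abs_le]
  have b1 := le_abs_self (Real.log τ)
  have b2 := neg_abs_le (Real.log τ)
  constructor <;> linarith

theorem KI_sinh_near {s : ℝ} (h : 0 < s) (h1 : s ≤ 1) :
    s ≤ Real.sinh s ∧ Real.sinh s ≤ s + s ^ 3 := by
  have hs : s ≤ Real.sinh s := Real.self_le_sinh_iff.mpr h.le
  refine ⟨hs, ?_⟩
  have e1 := Real.exp_bound (x := s) (by rw [abs_of_pos h]; exact h1) (n := 3) (by norm_num)
  have e2 := Real.exp_bound (x := -s) (by rw [abs_neg, abs_of_pos h]; exact h1) (n := 3)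
    (by norm_num)
  rw [abs_of_pos h] at e1
  rw [abs_neg, abs_of_pos h] at e2
  have f1 := (abs_le.mp e1).2
  have f2 := (abs_le.mp e2).1
  simp only [Finset.sum_range_succ, Finset.sum_range_zero, Nat.factorial] at f1 f2
  norm_num at f1 f2
  rw [Real.sinh_eq]
  have h3 : 0 < s ^ 3 := pow_pos h 3
  nlinarith

theorem KI_log_far {τ : ℝ} (h : 1 ≤ τ) :
    |Real.log (1 - Real.exp (-τ))| ≤ 2 * Real.exp (-τ) ∧ Real.exp (-τ) ≤ 1 / 2 := by
  have h0 : Real.exp (-τ) ≤ 1 / 2 := by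
    have h1 : Real.exp (-τ) ≤ Real.exp (-1) := Real.exp_le_exp.mpr (by linarith)
    have h2 : Real.exp (-1) ≤ 1 / 2 := by
      rw [Real.exp_neg, ← one_div]
      have := Real.exp_one_gt_d9
      exact one_div_le_one_div_of_le (by norm_num) (by linarith)
    linarith
  refine ⟨?_, h0⟩
  have hx : 0 < Real.exp (-τ) := Real.exp_pos _
  set x := Real.exp (-τ) with hxd
  have h1 : 0 < 1 - x := by linarith
  have h2 := Real.one_sub_inv_le_log_of_pos h1
  have h3 : Real.log (1 - x) ≤ 0 := Real.log_nonpos h1.le (by linarith)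
  have h4 : -(2 * x) ≤ 1 - (1 - x)⁻¹ := by
    have h5 : (1 - x)⁻¹ ≤ 1 + 2 * x := by
      rw [inv_le_comm₀ h1 (by linarith), ← one_div, div_le_iff₀ (by linarith)]
      nlinarith
    linarith
  rw [abs_le]
  constructor <;> linarith

theorem KI_log_exp {τ : ℝ} (h : 0 < τ) :
    Real.log (Real.exp τ - 1) = τ + Real.log (1 - Real.exp (-τ)) := by
  have h1 : 0 < Real.exp τ - 1 := by
    have := Real.add_one_lt_exp h.ne'
    linarith
  have h2 : 1 - Real.exp (-τ) = (Real.exp τ - 1) * Real.exp (-τ) := by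
    rw [sub_mul, ← Real.exp_add, add_neg_cancel, Real.exp_zero, one_mul]
  rw [h2, Real.log_mul h1.ne' (Real.exp_pos _).ne', Real.log_exp]
  ring

theorem KI_d1 {τ : ℝ} (h : 0 < τ) : HasDerivAt n1 (n1d τ) τ := by
  have h1 : 0 < Real.exp τ - 1 := by
    have := Real.add_one_lt_exp h.ne'
    linarith
  have hL : HasDerivAt (fun t => Real.log (Real.exp t - 1)) (Real.exp τ / (Real.exp τ - 1)) τ :=
    ((Real.hasDerivAt_exp τ).sub_const 1).log h1.ne'
  have hE : HasDerivAt (fun t : ℝ => Real.exp (t / 2)) (Real.exp (τ / 2) * (1 / 2)) τ :=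
    ((hasDerivAt_id τ).div_const 2).exp
  have hE' : HasDerivAt (fun t : ℝ => Real.exp (-t / 2)) (Real.exp (-τ / 2) * (-1 / 2)) τ :=
    ((hasDerivAt_id τ).neg.div_const 2).exp
  have hf : HasDerivAt (fun t => Real.exp (t / 2) * (Real.log (Real.exp t - 1) - t)
      + Real.exp (-t / 2) * Real.log (Real.exp t - 1))
      (Real.exp (τ / 2) * (1 / 2) * (Real.log (Real.exp τ - 1) - τ)
        + Real.exp (τ / 2) * (Real.exp τ / (Real.exp τ - 1) - 1)
        + (Real.exp (-τ / 2) * (-1 / 2) * Real.log (Real.exp τ - 1)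
        + Real.exp (-τ / 2) * (Real.exp τ / (Real.exp τ - 1)))) τ :=
    (hE.mul (hL.sub (hasDerivAt_id τ))).add (hE'.mul hL)
  have hev : (fun t => Real.exp (t / 2) * (Real.log (Real.exp t - 1) - t)
      + Real.exp (-t / 2) * Real.log (Real.exp t - 1)) =ᶠ[𝓝 τ] n1 := by
    filter_upwards [lt_mem_nhds h] with t ht
    exact (KI_n1_eq ht).symm
  have hg := hf.congr_of_eventuallyEq hev.symm
  have hval : Real.exp (τ / 2) * (1 / 2) * (Real.log (Real.exp τ - 1) - τ)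
        + Real.exp (τ / 2) * (Real.exp τ / (Real.exp τ - 1) - 1)
        + (Real.exp (-τ / 2) * (-1 / 2) * Real.log (Real.exp τ - 1)
        + Real.exp (-τ / 2) * (Real.exp τ / (Real.exp τ - 1))) = n1d τ := by
    unfold n1d
    have e2 : Real.exp τ = Real.exp (τ / 2) ^ 2 := by
      rw [← Real.exp_nat_mul]
      congr 1
      push_cast
      ring
    have e3 : Real.exp (-τ / 2) = (Real.exp (τ / 2))⁻¹ := by
      rw [← Real.exp_neg]
      congr 1
      ring
    rw [Real.sinh_eq, ← neg_div, e3]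
    have hEp : 0 < Real.exp (τ / 2) := Real.exp_pos _
    rw [e2] at h1 ⊢
    set E := Real.exp (τ / 2) with hEd
    have h2 : E ^ 2 - 1 ≠ 0 := h1.ne'
    have h3 : E - E⁻¹ ≠ 0 := by
      intro h4
      apply h2
      have : E * (E - E⁻¹) = 0 := by rw [h4, mul_zero]
      rw [mul_sub, mul_inv_cancel₀ hEp.ne'] at this
      linarith
    field_simp
    ring
  rw [hval] at hg
  exact hg

theorem KI_d2 {τ : ℝ} (h : 0 < τ) :
    HasDerivAt n1d ((1 / 2) ^ 2 * n1 τ - 2 * Lpp τ) τ := by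
  have h1 : 0 < Real.exp τ - 1 := by
    have := Real.add_one_lt_exp h.ne'
    linarith
  have hs : 0 < Real.sinh (τ / 2) := Real.sinh_pos_iff.mpr (by linarith)
  have hL : HasDerivAt (fun t => Real.log (Real.exp t - 1)) (Real.exp τ / (Real.exp τ - 1)) τ :=
    ((Real.hasDerivAt_exp τ).sub_const 1).log h1.ne'
  have hE : HasDerivAt (fun t : ℝ => Real.exp (t / 2)) (Real.exp (τ / 2) * (1 / 2)) τ :=
    ((hasDerivAt_id τ).div_const 2).exp
  have hS : HasDerivAt (fun t : ℝ => Real.sinh (t / 2)) (Real.cosh (τ / 2) * (1 / 2)) τ :=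
    ((hasDerivAt_id τ).div_const 2).sinh
  have hI : HasDerivAt (fun t : ℝ => 1 / Real.sinh (t / 2))
      ((0 * Real.sinh (τ / 2) - 1 * (Real.cosh (τ / 2) * (1 / 2))) / Real.sinh (τ / 2) ^ 2) τ :=
    (hasDerivAt_const τ (1 : ℝ)).div hS hs.ne'
  have hT : HasDerivAt (fun t : ℝ => t / 2 * Real.exp (t / 2))
      (1 / 2 * Real.exp (τ / 2) + τ / 2 * (Real.exp (τ / 2) * (1 / 2))) τ :=
    ((hasDerivAt_id τ).div_const 2).mul hE
  have hf := ((hS.mul hL).add hI).sub hT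
  have hval : Real.cosh (τ / 2) * (1 / 2) * Real.log (Real.exp τ - 1)
        + Real.sinh (τ / 2) * (Real.exp τ / (Real.exp τ - 1))
        + (0 * Real.sinh (τ / 2) - 1 * (Real.cosh (τ / 2) * (1 / 2))) / Real.sinh (τ / 2) ^ 2
        - (1 / 2 * Real.exp (τ / 2) + τ / 2 * (Real.exp (τ / 2) * (1 / 2)))
        = (1 / 2) ^ 2 * n1 τ - 2 * Lpp τ := by
    rw [KI_n1_eq h]
    unfold Lpp
    have e2 : Real.exp τ = Real.exp (τ / 2) ^ 2 := by
      rw [← Real.exp_nat_mul]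
      congr 1
      push_cast
      ring
    have e3 : Real.exp (-τ / 2) = (Real.exp (τ / 2))⁻¹ := by
      rw [← Real.exp_neg]
      congr 1
      ring
    have e4 : Real.sinh (τ / 2) * (Real.exp τ / (Real.exp τ - 1)) = Real.exp (τ / 2) / 2 := by
      rw [Real.sinh_eq, ← neg_div, e3]
      have hEp : 0 < Real.exp (τ / 2) := Real.exp_pos _
      rw [e2] at h1 ⊢
      set E := Real.exp (τ / 2) with hEd
      have h2 : E ^ 2 - 1 ≠ 0 := h1.ne'
      field_simp
    rw [e4, e3, Real.cosh_eq, ← neg_div, e3]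
    field_simp
    ring
  have hfun : (fun t => Real.sinh (t / 2) * Real.log (Real.exp t - 1) + 1 / Real.sinh (t / 2)
      - t / 2 * Real.exp (t / 2)) = n1d := rfl
  rw [← hval]
  exact hf

theorem KI_z1 : Tendsto (fun τ => n1d τ - 2 / τ) (𝓝[>] 0) (𝓝 0) := by
  have h1 : Tendsto (fun τ : ℝ => τ * |Real.log τ| + τ) (𝓝[>] 0) (𝓝 0) := by
    have hc : Continuous (fun τ : ℝ => |τ * Real.log τ| + τ) :=
      (Real.continuous_mul_log.abs).add continuous_id
    have h2 : Tendsto (fun τ : ℝ => |τ * Real.log τ| + τ) (𝓝[>] 0) (𝓝 0) := by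
      have h3 := (hc.tendsto 0).mono_left (nhdsWithin_le_nhds (s := Set.Ioi 0))
      simpa using h3
    refine h2.congr' ?_
    filter_upwards [self_mem_nhdsWithin] with τ hτ
    rw [abs_mul, abs_of_pos (show (0 : ℝ) < τ from hτ)]
  have h2 : Tendsto (fun τ : ℝ => 2 * (τ * |Real.log τ| + τ) + (τ + τ / 2 * Real.exp (τ / 2)))
      (𝓝[>] 0) (𝓝 0) := by
    have h3 : Tendsto (fun τ : ℝ => τ + τ / 2 * Real.exp (τ / 2)) (𝓝[>] 0) (𝓝 0) := by
      have hc : Continuous (fun τ : ℝ => τ + τ / 2 * Real.exp (τ / 2)) := by fun_prop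
      have h4 := (hc.tendsto 0).mono_left (nhdsWithin_le_nhds (s := Set.Ioi 0))
      simpa using h4
    simpa using (h1.const_mul 2).add h3
  refine squeeze_zero_norm' ?_ h2
  have hmem : Set.Ioo (0 : ℝ) 1 ∈ 𝓝[>] (0 : ℝ) := Ioo_mem_nhdsGT one_pos
  filter_upwards [hmem] with τ hτ
  obtain ⟨h0, hle⟩ := hτ
  have hlog := KI_log_near h0 hle.le
  obtain ⟨s1, s2⟩ := KI_sinh_near (s := τ / 2) (by linarith) (by linarith)
  have hs : 0 < Real.sinh (τ / 2) := by linarith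
  have hb1 : |Real.sinh (τ / 2) * Real.log (Real.exp τ - 1)| ≤ 2 * (τ * |Real.log τ| + τ) := by
    rw [abs_mul, abs_of_pos hs]
    have h5 : Real.sinh (τ / 2) ≤ 2 * τ := by nlinarith [sq_nonneg τ]
    calc Real.sinh (τ / 2) * |Real.log (Real.exp τ - 1)| ≤ (2 * τ) * (|Real.log τ| + 1) :=
          mul_le_mul h5 hlog (abs_nonneg _) (by linarith)
      _ = _ := by ring
  have hb2 : |1 / Real.sinh (τ / 2) - 2 / τ| ≤ τ := by
    have h6 : 1 / Real.sinh (τ / 2) - 2 / τ = -((Real.sinh (τ / 2) - τ / 2) /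
        (τ / 2 * Real.sinh (τ / 2))) := by
      field_simp
      ring
    rw [h6, abs_neg, abs_of_nonneg (div_nonneg (by linarith) (by positivity)),
      div_le_iff₀ (by positivity)]
    have h7 : τ / 2 * (τ / 2) ≤ τ / 2 * Real.sinh (τ / 2) :=
      mul_le_mul_of_nonneg_left s1 (by linarith)
    have h8 : Real.sinh (τ / 2) - τ / 2 ≤ (τ / 2) ^ 3 := by linarith
    nlinarith [mul_le_mul_of_nonneg_left h7 h0.le, pow_pos h0 3]
  have hb3 : |τ / 2 * Real.exp (τ / 2)| = τ / 2 * Real.exp (τ / 2) :=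
    abs_of_pos (mul_pos (by linarith) (Real.exp_pos _))
  have hform : n1d τ - 2 / τ = Real.sinh (τ / 2) * Real.log (Real.exp τ - 1)
      + (1 / Real.sinh (τ / 2) - 2 / τ) - τ / 2 * Real.exp (τ / 2) := by
    unfold n1d
    ring
  rw [Real.norm_eq_abs, hform]
  calc |Real.sinh (τ / 2) * Real.log (Real.exp τ - 1) + (1 / Real.sinh (τ / 2) - 2 / τ)
        - τ / 2 * Real.exp (τ / 2)|
      ≤ |Real.sinh (τ / 2) * Real.log (Real.exp τ - 1) + (1 / Real.sinh (τ / 2) - 2 / τ)|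
        + |τ / 2 * Real.exp (τ / 2)| := abs_sub _ _
    _ ≤ |Real.sinh (τ / 2) * Real.log (Real.exp τ - 1)| + |1 / Real.sinh (τ / 2) - 2 / τ|
        + |τ / 2 * Real.exp (τ / 2)| := by
          have := abs_add_le (Real.sinh (τ / 2) * Real.log (Real.exp τ - 1))
            (1 / Real.sinh (τ / 2) - 2 / τ)
          linarith
    _ ≤ _ := by rw [hb3]; linarith

theorem KI_near {τ : ℝ} (h : 0 < τ) (h1 : τ ≤ 1) : |n1 τ| ≤ 5 * (1 + |Real.log τ|) := by
  rw [KI_n1_eq h]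
  have hlog := KI_log_near h h1
  have hE : Real.exp (τ / 2) ≤ 2 := by
    have h3 := Real.abs_exp_sub_one_sub_id_le (x := τ / 2)
      (by rw [abs_of_pos (by linarith)]; linarith)
    have h4 := (abs_le.mp h3).2
    nlinarith
  have hE0 : 0 < Real.exp (τ / 2) := Real.exp_pos _
  have hE' : Real.exp (-τ / 2) ≤ 1 := by
    rw [Real.exp_le_one_iff]
    linarith
  have hE0' : 0 < Real.exp (-τ / 2) := Real.exp_pos _
  have hL0 := abs_nonneg (Real.log (Real.exp τ - 1))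
  have c1 : |Real.exp (τ / 2) * (Real.log (Real.exp τ - 1) - τ)| ≤
      2 * (|Real.log (Real.exp τ - 1)| + 1) := by
    rw [abs_mul, abs_of_pos hE0]
    refine mul_le_mul hE ?_ (abs_nonneg _) (by norm_num)
    have := abs_sub (Real.log (Real.exp τ - 1)) τ
    rw [abs_of_pos h] at this
    linarith
  have c2 : |Real.exp (-τ / 2) * Real.log (Real.exp τ - 1)| ≤ |Real.log (Real.exp τ - 1)| := by
    rw [abs_mul, abs_of_pos hE0']
    calc Real.exp (-τ / 2) * |Real.log (Real.exp τ - 1)|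
        ≤ 1 * |Real.log (Real.exp τ - 1)| := mul_le_mul_of_nonneg_right hE' hL0
      _ = _ := one_mul _
  have := abs_add_le (Real.exp (τ / 2) * (Real.log (Real.exp τ - 1) - τ))
    (Real.exp (-τ / 2) * Real.log (Real.exp τ - 1))
  have hl0 := abs_nonneg (Real.log τ)
  linarith

theorem KI_far {τ : ℝ} (h : 1 ≤ τ) : |n1 τ| ≤ 6 ∧ |n1d τ| ≤ 6 := by
  have h0 : 0 < τ := by linarith
  obtain ⟨l1, l2⟩ := KI_log_far h
  have hx : 0 < Real.exp (-τ) := Real.exp_pos _
  have hE0 : 0 < Real.exp (τ / 2) := Real.exp_pos _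
  have hE0' : 0 < Real.exp (-τ / 2) := Real.exp_pos _
  have hE' : Real.exp (-τ / 2) ≤ 1 := by
    rw [Real.exp_le_one_iff]
    linarith
  have hmul : Real.exp (τ / 2) * Real.exp (-τ) = Real.exp (-τ / 2) := by
    rw [← Real.exp_add]
    congr 1
    ring
  have hmul2 : Real.exp (τ / 2) * Real.exp (-τ / 2) = 1 := by
    rw [← Real.exp_add, show τ / 2 + -τ / 2 = 0 by ring, Real.exp_zero]
  have hte : Real.exp (-τ / 2) * τ ≤ 2 := by
    have h3 : τ / 2 + 1 ≤ Real.exp (τ / 2) := Real.add_one_le_exp _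
    have h4 : Real.exp (-τ / 2) * τ ≤ Real.exp (-τ / 2) * (2 * Real.exp (τ / 2)) :=
      mul_le_mul_of_nonneg_left (by linarith) hE0'.le
    nlinarith
  have g1 : |Real.exp (τ / 2) * Real.log (1 - Real.exp (-τ))| ≤ 2 := by
    rw [abs_mul, abs_of_pos hE0]
    calc Real.exp (τ / 2) * |Real.log (1 - Real.exp (-τ))|
        ≤ Real.exp (τ / 2) * (2 * Real.exp (-τ)) := mul_le_mul_of_nonneg_left l1 hE0.le
      _ = 2 * Real.exp (-τ / 2) := by rw [← hmul]; ring
      _ ≤ 2 := by linarith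
  have g2 : |Real.exp (-τ / 2) * (τ + Real.log (1 - Real.exp (-τ)))| ≤ 3 := by
    rw [mul_add]
    have h5 : |Real.exp (-τ / 2) * Real.log (1 - Real.exp (-τ))| ≤ 1 := by
      rw [abs_mul, abs_of_pos hE0']
      calc Real.exp (-τ / 2) * |Real.log (1 - Real.exp (-τ))|
          ≤ 1 * (2 * Real.exp (-τ)) := mul_le_mul hE' l1 (abs_nonneg _) zero_le_one
        _ ≤ 1 := by linarith
    have h6 : |Real.exp (-τ / 2) * τ| ≤ 2 := by
      rw [abs_of_pos (mul_pos hE0' h0)]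
      exact hte
    have := abs_add_le (Real.exp (-τ / 2) * τ) (Real.exp (-τ / 2) *
      Real.log (1 - Real.exp (-τ)))
    linarith
  constructor
  · have e1 : n1 τ = Real.exp (τ / 2) * Real.log (1 - Real.exp (-τ)) +
        Real.exp (-τ / 2) * (τ + Real.log (1 - Real.exp (-τ))) := by
      unfold n1
      rw [KI_log_exp h0]
    rw [e1]
    have := abs_add_le (Real.exp (τ / 2) * Real.log (1 - Real.exp (-τ)))
      (Real.exp (-τ / 2) * (τ + Real.log (1 - Real.exp (-τ))))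
    linarith
  · have e1 : n1d τ = 1 / 2 * (Real.exp (τ / 2) * Real.log (1 - Real.exp (-τ)))
        - 1 / 2 * (Real.exp (-τ / 2) * (τ + Real.log (1 - Real.exp (-τ))))
        + 1 / Real.sinh (τ / 2) := by
      unfold n1d
      rw [KI_log_exp h0]
      generalize 1 / Real.sinh (τ / 2) = q
      rw [Real.sinh_eq, ← neg_div]
      ring
    have hs1 : 1 / 2 ≤ Real.sinh (τ / 2) := by
      have : τ / 2 ≤ Real.sinh (τ / 2) := Real.self_le_sinh_iff.mpr (by linarith)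
      linarith
    have hs2 : |1 / Real.sinh (τ / 2)| ≤ 2 := by
      rw [abs_of_pos (by positivity), div_le_iff₀ (by linarith)]
      linarith
    rw [e1]
    have i1 := abs_add_le (1 / 2 * (Real.exp (τ / 2) * Real.log (1 - Real.exp (-τ)))
        - 1 / 2 * (Real.exp (-τ / 2) * (τ + Real.log (1 - Real.exp (-τ)))))
        (1 / Real.sinh (τ / 2))
    have i2 := abs_sub (1 / 2 * (Real.exp (τ / 2) * Real.log (1 - Real.exp (-τ))))
        (1 / 2 * (Real.exp (-τ / 2) * (τ + Real.log (1 - Real.exp (-τ)))))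
    rw [abs_mul, abs_mul (1 / 2 : ℝ) (Real.exp (-τ / 2) * _),
      abs_of_pos (show (0 : ℝ) < 1 / 2 by norm_num)] at i2
    linarith

theorem n1_kerN : KerN (1 / 2) n1 n1d where
  d1 := fun _ h => KI_d1 h
  d2 := fun _ h => KI_d2 h
  z1 := KI_z1
  near := ⟨5, fun _ h h1 => KI_near h h1⟩
  far := ⟨6, fun _ h => KI_far h⟩

end Pool.Agent.H51.DG
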