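import Pool.Agent.H51.DG.KE

/-!
# DG2 job KF: `∫ ps = 0`

`ps τ = 48/c⁵ - 4/c³ - (5/8)/c`, `c = 2 cosh(τ/2)`.  Antiderivative: with `C = cosh(τ/2)`,
`S = sinh(τ/2)`, `D = arctan(S)`: `∫ dτ/C = 2 D`, `∫ dτ/C³ = S/C² + D`,
`∫ dτ/C⁵ = S/(2C⁴) + (3/4)(S/C² + D)` (check by differentiation: `d/dτ arctan(sinh(τ/2)) = 1/(2C)`,
`d/dτ (S/C²) = 1/(2C) - S²/C³ = -1/(2C) + 1/C³`,
`d/dτ (S/C⁴) = 1/(2C³) - 2 S²/C⁵ = -3/(2C³) + 2/C⁵`).
Then `ps = (48/32)/C⁵ - (4/8)/C³ - (5/16)/C` has the antiderivative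
`F = (3/4) S/C⁴ + (9/8)(S/C² + D) - (1/2)(S/C² + D) - (5/8) D = (3/4) S/C⁴ + (5/8) S/C²`
(the `arctan` terms cancel!).  So simply: `F τ = (3/4) S/C⁴ + (5/8) S/C²`, `F' = ps`, `F(0) = 0`,
`F → 0` at infinity; hence `∫_{Ioi 0} ps = 0`
(`MeasureTheory.integral_Ioi_of_hasDerivAt_of_tendsto`).
-/

set_option autoImplicit false
open Real Set MeasureTheory

namespace Pool.Agent.H51.DG

theorem KF_exp : Integrable (fun τ : ℝ => 60 * Real.exp (-|τ| / 2)) := by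
  have h1 : IntegrableOn (fun τ : ℝ => Real.exp (-|τ| / 2)) (Ioi 0) := by
    have h2 := integrableOn_exp_mul_Ioi (show (-(1 / 2) : ℝ) < 0 by norm_num) 0
    refine h2.congr_fun (fun τ hτ => ?_) measurableSet_Ioi
    have hτ' : (0 : ℝ) < τ := hτ
    show Real.exp (-(1 / 2) * τ) = Real.exp (-|τ| / 2)
    rw [abs_of_pos hτ']
    congr 1
    ring
  have h3 : IntegrableOn (fun τ : ℝ => Real.exp (-|τ| / 2)) (Iic 0) := by
    have h2 := integrableOn_exp_mul_Iic (show (0 : ℝ) < 1 / 2 by norm_num) 0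
    refine h2.congr_fun (fun τ hτ => ?_) measurableSet_Iic
    have hτ' : τ ≤ (0 : ℝ) := hτ
    show Real.exp (1 / 2 * τ) = Real.exp (-|τ| / 2)
    rw [abs_of_nonpos hτ']
    congr 1
    ring
  have h4 := h3.union h1
  rw [Iic_union_Ioi, integrableOn_univ] at h4
  exact h4.const_mul 60

theorem integrable_ps : Integrable ps := by
  refine KF_exp.mono' continuous_ps.aestronglyMeasurable ?_
  refine Filter.Eventually.of_forall fun τ => ?_
  rw [Real.norm_eq_abs]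
  exact abs_ps_le_exp τ

theorem integrable_ell : Integrable ell := by
  refine KF_exp.mono' continuous_ell.aestronglyMeasurable ?_
  refine Filter.Eventually.of_forall fun τ => ?_
  rw [Real.norm_eq_abs]
  exact abs_ell_le_exp τ

/-- the antiderivative of `ps` -/
noncomputable def KF_F (τ : ℝ) : ℝ :=
  3 / 4 * (Real.sinh (τ / 2) / Real.cosh (τ / 2) ^ 4) +
    5 / 8 * (Real.sinh (τ / 2) / Real.cosh (τ / 2) ^ 2)

theorem KF_deriv (τ : ℝ) : HasDerivAt KF_F (ps τ) τ := by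
  have hS : HasDerivAt (fun τ : ℝ => Real.sinh (τ / 2)) (Real.cosh (τ / 2) * (1 / 2)) τ :=
    ((hasDerivAt_id τ).div_const 2).sinh
  have hC : HasDerivAt (fun τ : ℝ => Real.cosh (τ / 2)) (Real.sinh (τ / 2) * (1 / 2)) τ :=
    ((hasDerivAt_id τ).div_const 2).cosh
  have hpos := Real.cosh_pos (τ / 2)
  have h1 := (hS.div (hC.pow 4) (pow_ne_zero 4 hpos.ne')).const_mul (3 / 4)
  have h2 := (hS.div (hC.pow 2) (pow_ne_zero 2 hpos.ne')).const_mul (5 / 8)
  refine (h1.add h2).congr_deriv ?_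
  have hsq := Real.cosh_sq (τ / 2)
  simp only [Pi.pow_apply]
  unfold ps
  generalize Real.cosh (τ / 2) = C at hpos hsq
  generalize Real.sinh (τ / 2) = S at hsq
  have hS2 : S ^ 2 = C ^ 2 - 1 := by linarith
  have hne : C ≠ 0 := hpos.ne'
  field_simp
  ring_nf
  rw [hS2]
  ring

theorem KF_zero : KF_F 0 = 0 := by
  unfold KF_F
  rw [zero_div, Real.sinh_zero]
  ring

theorem KF_bound (τ : ℝ) : |KF_F τ| ≤ 4 * Real.exp (-τ / 2) := by
  have hpos := Real.cosh_pos (τ / 2)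
  have h1 := Real.one_le_cosh (τ / 2)
  have h2 : |Real.sinh (τ / 2)| ≤ Real.cosh (τ / 2) := by
    rw [Real.abs_sinh, ← Real.cosh_abs]
    exact (Real.sinh_lt_cosh _).le
  have h3 : |Real.sinh (τ / 2) / Real.cosh (τ / 2) ^ 4| ≤ 1 / Real.cosh (τ / 2) := by
    rw [abs_div, abs_of_pos (pow_pos hpos 4), div_le_div_iff₀ (pow_pos hpos 4) hpos]
    have h4 : (1 : ℝ) ≤ Real.cosh (τ / 2) ^ 2 := one_le_pow₀ h1
    nlinarith [mul_le_mul_of_nonneg_right h2 hpos.le, sq_nonneg (Real.cosh (τ / 2))]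
  have h4 : |Real.sinh (τ / 2) / Real.cosh (τ / 2) ^ 2| ≤ 1 / Real.cosh (τ / 2) := by
    rw [abs_div, abs_of_pos (pow_pos hpos 2), div_le_div_iff₀ (pow_pos hpos 2) hpos]
    nlinarith [mul_le_mul_of_nonneg_right h2 hpos.le]
  have h5 : 1 / Real.cosh (τ / 2) ≤ 2 * Real.exp (-τ / 2) := by
    rw [div_le_iff₀ hpos]
    have h6 : Real.exp (τ / 2) / 2 ≤ Real.cosh (τ / 2) := by
      rw [Real.cosh_eq]
      have := Real.exp_pos (-(τ / 2))
      linarith
    have h7 : Real.exp (-τ / 2) * Real.exp (τ / 2) = 1 := by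
      rw [← Real.exp_add, show -τ / 2 + τ / 2 = 0 by ring, Real.exp_zero]
    have h8 := mul_le_mul_of_nonneg_left h6 (Real.exp_pos (-τ / 2)).le
    nlinarith
  unfold KF_F
  refine (abs_add_le _ _).trans ?_
  rw [abs_mul, abs_mul, abs_of_pos (show (0 : ℝ) < 3 / 4 by norm_num),
    abs_of_pos (show (0 : ℝ) < 5 / 8 by norm_num)]
  have h9 := Real.exp_pos (-τ / 2)
  linarith

theorem KF_tendsto : Filter.Tendsto KF_F Filter.atTop (nhds 0) := by
  have h1 : Filter.Tendsto (fun τ : ℝ => 4 * Real.exp (-(τ / 2))) Filter.atTop (nhds (4 * 0)) :=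
    (Real.tendsto_exp_neg_atTop_nhds_zero.comp
      (Filter.tendsto_id.atTop_div_const (by norm_num : (0 : ℝ) < 2))).const_mul 4
  rw [mul_zero] at h1
  refine squeeze_zero_norm (fun τ => ?_) h1
  rw [Real.norm_eq_abs, ← neg_div]
  exact KF_bound τ

theorem integral_Ioi_ps : ∫ τ in Ioi (0:ℝ), ps τ = 0 := by
  rw [integral_Ioi_of_hasDerivAt_of_tendsto' (fun τ _ => KF_deriv τ) integrable_ps.integrableOn
    KF_tendsto, KF_zero, sub_zero]

end Pool.Agent.H51.DG
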