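import Pool.Agent.H51.DG.Ker

/-!
# DG2 job KG: the kernels in exponential variables

`Y = e^{-r}`, `Z = e^{-s}`.  For `k3`, `l1k`: by symmetry in `(r,s)` assume `r < s` (so `Z < Y`),
`τ = s - r > 0`, `Z/Y = e^{-τ}`, `log(1-Z/Y) = log(1-e^{-τ})`, `log(1 - Y/Z) = log(e^τ - 1)`
(`Real.log_neg_eq_log`), and `YZ(Y+Z) = e^{-3(r+s)/2} (e^{τ/2}+e^{-τ/2})`,
`Y³ = e^{-3(r+s)/2} e^{3τ/2}`, `Z³ = e^{-3(r+s)/2} e^{-3τ/2}`.  For `rl0`: `z = e^{-s}`,
`τ = r - s`: `Y³ = e^{-3(r+s)/2} e^{-3τ/2}`, `z/Y = e^{τ}`, `Y + z = e^{-(r+s)/2} 2cosh(τ/2)`.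
-/

set_option autoImplicit false
open Real Set MeasureTheory

namespace Pool.Agent.H51.DG

theorem KG_k3 (r s : ℝ) :
    k3 (Real.exp (-r)) (Real.exp (-s)) = Real.exp (-(3 / 2 * (r + s))) * n3 (s - r) := by
  unfold k3 n3
  have e1 : Real.exp (-s) / Real.exp (-r) = Real.exp (-(s - r)) := by
    rw [← Real.exp_sub]; congr 1; ring
  have e2 : Real.exp (-r) / Real.exp (-s) = Real.exp (s - r) := by
    rw [← Real.exp_sub]; congr 1; ring
  have e3 : Real.log (1 - Real.exp (s - r)) = Real.log (Real.exp (s - r) - 1) := by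
    rw [← Real.log_neg_eq_log, neg_sub]
  rw [e1, e2, e3]
  have a1 : Real.exp (-r) * Real.exp (-s) * (Real.exp (-r) + Real.exp (-s)) =
      Real.exp (-(3 / 2 * (r + s))) * Real.exp ((s - r) / 2)
        + Real.exp (-(3 / 2 * (r + s))) * Real.exp (-(s - r) / 2) := by
    rw [mul_add]
    simp only [← Real.exp_add]
    congr 1 <;> (congr 1; ring)
  have a2 : Real.exp (-r) ^ 3 = Real.exp (-(3 / 2 * (r + s))) * Real.exp (3 * (s - r) / 2) := by
    rw [← Real.exp_nat_mul, ← Real.exp_add]; congr 1; push_cast; ring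
  have a3 : Real.exp (-s) ^ 3 = Real.exp (-(3 / 2 * (r + s))) * Real.exp (-3 * (s - r) / 2) := by
    rw [← Real.exp_nat_mul, ← Real.exp_add]; congr 1; push_cast; ring
  rw [a1, a2, a3]; ring

theorem KG_l1k (r s : ℝ) :
    l1k (Real.exp (-r)) (Real.exp (-s)) = Real.exp (-(1 / 2 * (r + s))) * n1 (s - r) := by
  unfold l1k n1
  have e1 : Real.exp (-s) / Real.exp (-r) = Real.exp (-(s - r)) := by
    rw [← Real.exp_sub]; congr 1; ring
  have e2 : Real.exp (-r) / Real.exp (-s) = Real.exp (s - r) := by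
    rw [← Real.exp_sub]; congr 1; ring
  have e3 : Real.log (1 - Real.exp (s - r)) = Real.log (Real.exp (s - r) - 1) := by
    rw [← Real.log_neg_eq_log, neg_sub]
  rw [e1, e2, e3]
  have a2 : Real.exp (-r) = Real.exp (-(1 / 2 * (r + s))) * Real.exp ((s - r) / 2) := by
    rw [← Real.exp_add]; congr 1; ring
  have a3 : Real.exp (-s) = Real.exp (-(1 / 2 * (r + s))) * Real.exp (-(s - r) / 2) := by
    rw [← Real.exp_add]; congr 1; ring
  rw [a2, a3]; ring

theorem KG_k3_comm (Y Z : ℝ) : k3 Y Z = k3 Z Y := by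
  unfold k3; ring

theorem KG_l1k_comm (Y Z : ℝ) : l1k Y Z = l1k Z Y := by
  unfold l1k; ring

theorem k3_exp {r s : ℝ} (h : r ≠ s) :
    k3 (Real.exp (-r)) (Real.exp (-s)) = Real.exp (-(3 / 2 * (r + s))) * n3 |r - s| := by
  rcases lt_or_gt_of_ne h with h1 | h1
  · rw [abs_of_neg (by linarith : r - s < 0), neg_sub, KG_k3]
  · rw [abs_of_pos (by linarith : 0 < r - s), KG_k3_comm, KG_k3, add_comm s r]

theorem l1k_exp {r s : ℝ} (h : r ≠ s) :
    l1k (Real.exp (-r)) (Real.exp (-s)) = Real.exp (-(1 / 2 * (r + s))) * n1 |r - s| := by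
  rcases lt_or_gt_of_ne h with h1 | h1
  · rw [abs_of_neg (by linarith : r - s < 0), neg_sub, KG_l1k]
  · rw [abs_of_pos (by linarith : 0 < r - s), KG_l1k_comm, KG_l1k, add_comm s r]

theorem rl0_exp (r s : ℝ) :
    rl0 (Real.exp (-r)) (Real.exp (-s)) = Real.exp (-(3 / 2 * (r + s))) * pp (r - s) := by
  unfold rl0 pp
  have e1 : Real.exp (-s) / Real.exp (-r) = Real.exp (r - s) := by
    rw [← Real.exp_sub]; congr 1; ring
  have e2 : Real.exp (-r) / Real.exp (-s) = Real.exp (-(r - s)) := by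
    rw [← Real.exp_sub]; congr 1; ring
  rw [e1, e2]
  obtain ⟨E, hE⟩ : ∃ E, E = Real.exp (-(1 / 2 * (r + s))) := ⟨_, rfl⟩
  have hE0 : 0 < E := by rw [hE]; exact Real.exp_pos _
  have hC0 : 0 < 2 * Real.cosh ((r - s) / 2) := by
    have := Real.cosh_pos ((r - s) / 2); linarith
  have b1 : Real.exp (-r) + Real.exp (-s) = E * (2 * Real.cosh ((r - s) / 2)) := by
    rw [Real.cosh_eq, hE]
    have : Real.exp (-(1 / 2 * (r + s))) *
        (2 * ((Real.exp ((r - s) / 2) + Real.exp (-((r - s) / 2))) / 2)) =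
        Real.exp (-(1 / 2 * (r + s))) * Real.exp (-((r - s) / 2))
          + Real.exp (-(1 / 2 * (r + s))) * Real.exp ((r - s) / 2) := by ring
    rw [this]
    simp only [← Real.exp_add]
    congr 1 <;> (congr 1; ring)
  have b2 : Real.exp (-r) * Real.exp (-s) = E ^ 2 := by
    rw [hE, ← Real.exp_nat_mul, ← Real.exp_add]; congr 1; push_cast; ring
  have b3 : Real.exp (-r) ^ 2 + Real.exp (-s) ^ 2
      = E ^ 2 * (Real.exp (r - s) + Real.exp (-(r - s))) := by
    rw [hE, mul_add, add_comm]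
    simp only [← Real.exp_nat_mul, ← Real.exp_add]
    congr 1 <;> (congr 1; push_cast; ring)
  have b4 : Real.exp (-r) ^ 3 = E ^ 3 * Real.exp (-3 * (r - s) / 2) := by
    rw [hE]; simp only [← Real.exp_nat_mul, ← Real.exp_add]; congr 1; push_cast; ring
  have b5 : Real.exp (-s) ^ 3 = E ^ 3 * Real.exp (3 * (r - s) / 2) := by
    rw [hE]; simp only [← Real.exp_nat_mul, ← Real.exp_add]; congr 1; push_cast; ring
  have b6 : Real.exp (-(3 / 2 * (r + s))) = E ^ 3 := by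
    rw [hE]; simp only [← Real.exp_nat_mul]; congr 1; push_cast; ring
  have b7 : Real.exp (-r) ^ 3 * Real.exp (-s) ^ 3 = E ^ 6 := by
    rw [← mul_pow, b2]; ring
  rw [b7, b1, b2, b3, b4, b5, b6]
  generalize 2 * Real.cosh ((r - s) / 2) = C at hC0 ⊢
  generalize Real.log (1 + Real.exp (r - s)) = L1
  generalize Real.log (1 + Real.exp (-(r - s))) = L2
  have hCne := hC0.ne'
  have hEne := hE0.ne'
  field_simp

theorem pp_neg (τ : ℝ) : pp (-τ) = pp τ := by
  unfold pp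
  have h1 : -3 * -τ / 2 = 3 * τ / 2 := by ring
  have h2 : 3 * -τ / 2 = -3 * τ / 2 := by ring
  have h3 : -τ / 2 = -(τ / 2) := by ring
  rw [h1, h2, h3, Real.cosh_neg, neg_neg]
  ring

end Pool.Agent.H51.DG
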