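import Pool.Agent.H51.DG.KerN

/-!
# DG2 job KJ: the regular kernel `pp`

With `c = 2 cosh(τ/2) = e^{τ/2} + e^{-τ/2}`, `log(1+e^τ) = τ/2 + log c`,
`log(1+e^{-τ}) = -τ/2 + log c`:
`pp τ = 2 cosh τ / c - 2 cosh(3τ/2) log c + τ sinh(3τ/2) + 4/c³`, `pp' = ppd`, and
`ppd' = (9/4) pp - ell` (checked numerically; put `x = e^{τ/2}`, clear denominators, the
coefficients of `log c` and of `τ` match, the rest is `field_simp; ring`).
Boundedness: `pp` is even, `ppd` is odd; for `τ ≥ 1`, `x = e^{-τ} ≤ 1/2`, `|log(1+x) - x| ≤ x²`: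
`pp τ = [(e^τ+e^{-τ})/c - e^{τ/2}] - e^{3τ/2}(log(1+x) - x) - e^{-3τ/2}(τ + log(1+x)) + 4/c³`,
all terms bounded; the same for `ppd`; on `[-1,1]` use continuity (or monotone bounds).
-/

set_option autoImplicit false
open Real Set MeasureTheory Filter Topology

namespace Pool.Agent.H51.DG

private theorem KJ_c_pos (τ : ℝ) : 0 < 2 * Real.cosh (τ / 2) := by positivity

private theorem KJ_log1 (τ : ℝ) :
    Real.log (1 + Real.exp τ) = τ / 2 + Real.log (2 * Real.cosh (τ / 2)) := by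
  have h : 1 + Real.exp τ = Real.exp (τ / 2) * (2 * Real.cosh (τ / 2)) := by
    rw [Real.cosh_eq]
    have h1 : Real.exp τ = Real.exp (τ / 2) * Real.exp (τ / 2) := by
      rw [← Real.exp_add]; ring_nf
    have h2 : Real.exp (τ / 2) * Real.exp (-(τ / 2)) = 1 := by
      rw [← Real.exp_add]; simp
    rw [h1]
    linear_combination -h2
  rw [h, Real.log_mul (Real.exp_pos _).ne' (KJ_c_pos τ).ne', Real.log_exp]

private theorem KJ_log2 (τ : ℝ) :
    Real.log (1 + Real.exp (-τ)) = -τ / 2 + Real.log (2 * Real.cosh (τ / 2)) := by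
  have h := KJ_log1 (-τ)
  have h2 : Real.cosh (-τ / 2) = Real.cosh (τ / 2) := by
    rw [neg_div, Real.cosh_neg]
  rw [h, h2]

private theorem KJ_pp_eq (τ : ℝ) :
    pp τ = 2 * Real.cosh τ / (2 * Real.cosh (τ / 2))
      - 2 * Real.cosh (3 * τ / 2) * Real.log (2 * Real.cosh (τ / 2))
      + τ * Real.sinh (3 * τ / 2) + 4 / (2 * Real.cosh (τ / 2)) ^ 3 := by
  unfold pp
  rw [KJ_log1, KJ_log2]
  have h1 : Real.exp (-3 * τ / 2) = Real.exp (-(3 * τ / 2)) := by ring_nf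
  rw [h1]
  have h2 : 2 * Real.cosh τ = Real.exp τ + Real.exp (-τ) := by rw [Real.cosh_eq]; ring
  rw [h2, Real.cosh_eq (3 * τ / 2), Real.sinh_eq (3 * τ / 2)]
  ring

private theorem KJ_dc (τ : ℝ) :
    HasDerivAt (fun t : ℝ => 2 * Real.cosh (t / 2)) (Real.sinh (τ / 2)) τ := by
  have h := (((hasDerivAt_id τ).div_const 2).cosh).const_mul 2
  refine h.congr_deriv ?_
  simp only [id]
  ring

private theorem KJ_dC (τ : ℝ) :
    HasDerivAt (fun t : ℝ => Real.cosh (t / 2)) (Real.sinh (τ / 2) / 2) τ := by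
  have h := (((hasDerivAt_id τ).div_const 2).cosh)
  refine h.congr_deriv ?_
  simp only [id]
  ring

private theorem KJ_ds (τ : ℝ) :
    HasDerivAt (fun t : ℝ => Real.sinh (t / 2)) (Real.cosh (τ / 2) / 2) τ := by
  have h := (((hasDerivAt_id τ).div_const 2).sinh)
  refine h.congr_deriv ?_
  simp only [id]
  ring

private theorem KJ_dC3 (τ : ℝ) :
    HasDerivAt (fun t : ℝ => Real.cosh (3 * t / 2)) (3 / 2 * Real.sinh (3 * τ / 2)) τ := by
  have h := ((((hasDerivAt_id τ).const_mul 3).div_const 2).cosh)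
  refine h.congr_deriv ?_
  simp only [id]
  ring

private theorem KJ_ds3 (τ : ℝ) :
    HasDerivAt (fun t : ℝ => Real.sinh (3 * t / 2)) (3 / 2 * Real.cosh (3 * τ / 2)) τ := by
  have h := ((((hasDerivAt_id τ).const_mul 3).div_const 2).sinh)
  refine h.congr_deriv ?_
  simp only [id]
  ring

theorem hasDerivAt_pp (τ : ℝ) : HasDerivAt pp (ppd τ) τ := by
  have hc : (2 * Real.cosh (τ / 2)) ≠ 0 := (KJ_c_pos τ).ne'
  have hC : Real.cosh (τ / 2) ≠ 0 := (Real.cosh_pos _).ne'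
  have h1 : HasDerivAt (fun t : ℝ => 2 * Real.cosh t / (2 * Real.cosh (t / 2))) _ τ :=
    ((Real.hasDerivAt_cosh τ).const_mul 2).div (KJ_dc τ) hc
  have h2 : HasDerivAt (fun t : ℝ => 2 * Real.cosh (3 * t / 2) *
      Real.log (2 * Real.cosh (t / 2))) _ τ :=
    ((KJ_dC3 τ).const_mul 2).mul ((KJ_dc τ).log hc)
  have h3 : HasDerivAt (fun t : ℝ => t * Real.sinh (3 * t / 2)) _ τ :=
    (hasDerivAt_id τ).mul (KJ_ds3 τ)
  have h4 : HasDerivAt (fun t : ℝ => 4 / (2 * Real.cosh (t / 2)) ^ 3) _ τ :=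
    (hasDerivAt_const τ (4 : ℝ)).div ((KJ_dc τ).pow 3) (pow_ne_zero 3 hc)
  have h := ((h1.sub h2).add h3).add h4
  have he : pp = fun t : ℝ => 2 * Real.cosh t / (2 * Real.cosh (t / 2))
      - 2 * Real.cosh (3 * t / 2) * Real.log (2 * Real.cosh (t / 2))
      + t * Real.sinh (3 * t / 2) + 4 / (2 * Real.cosh (t / 2)) ^ 3 := funext KJ_pp_eq
  rw [he]
  refine h.congr_deriv ?_
  unfold ppd
  simp only [id]
  field_simp
  ring

theorem hasDerivAt_ppd (τ : ℝ) : HasDerivAt ppd (9 / 4 * pp τ - ell τ) τ := by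
  have hc : (2 * Real.cosh (τ / 2)) ≠ 0 := (KJ_c_pos τ).ne'
  have hC : Real.cosh (τ / 2) ≠ 0 := (Real.cosh_pos _).ne'
  have h1 : HasDerivAt (fun t : ℝ => 2 * Real.sinh t / (2 * Real.cosh (t / 2))) _ τ :=
    ((Real.hasDerivAt_sinh τ).const_mul 2).div (KJ_dc τ) hc
  have h2 : HasDerivAt (fun t : ℝ => 2 * Real.cosh t * Real.sinh (t / 2) /
      (2 * Real.cosh (t / 2)) ^ 2) _ τ :=
    (((Real.hasDerivAt_cosh τ).const_mul 2).mul (KJ_ds τ)).div ((KJ_dc τ).pow 2)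
      (pow_ne_zero 2 hc)
  have h3 : HasDerivAt (fun t : ℝ => 3 * Real.sinh (3 * t / 2) *
      Real.log (2 * Real.cosh (t / 2))) _ τ :=
    ((KJ_ds3 τ).const_mul 3).mul ((KJ_dc τ).log hc)
  have h4 : HasDerivAt (fun t : ℝ => 2 * Real.cosh (3 * t / 2) * Real.sinh (t / 2) /
      (2 * Real.cosh (t / 2))) _ τ :=
    (((KJ_dC3 τ).const_mul 2).mul (KJ_ds τ)).div (KJ_dc τ) hc
  have h5 : HasDerivAt (fun t : ℝ => 3 / 2 * t * Real.cosh (3 * t / 2)) _ τ :=
    ((hasDerivAt_id τ).const_mul (3 / 2)).mul (KJ_dC3 τ)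
  have h6 : HasDerivAt (fun t : ℝ => 12 * Real.sinh (t / 2) / (2 * Real.cosh (t / 2)) ^ 4) _ τ :=
    ((KJ_ds τ).const_mul 12).div ((KJ_dc τ).pow 4) (pow_ne_zero 4 hc)
  have h := (((((h1.sub h2).sub h3).sub h4).add (KJ_ds3 τ)).add h5).sub h6
  have he : ppd = fun t : ℝ => 2 * Real.sinh t / (2 * Real.cosh (t / 2))
    - 2 * Real.cosh t * Real.sinh (t / 2) / (2 * Real.cosh (t / 2)) ^ 2
    - 3 * Real.sinh (3 * t / 2) * Real.log (2 * Real.cosh (t / 2))
    - 2 * Real.cosh (3 * t / 2) * Real.sinh (t / 2) / (2 * Real.cosh (t / 2))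
    + Real.sinh (3 * t / 2) + 3 / 2 * t * Real.cosh (3 * t / 2)
    - 12 * Real.sinh (t / 2) / (2 * Real.cosh (t / 2)) ^ 4 := by
    funext t
    rfl
  rw [he]
  refine h.congr_deriv ?_
  rw [KJ_pp_eq]
  unfold ell
  simp only [id, Pi.mul_apply]
  -- everything in terms of `C = cosh(τ/2)`, `S = sinh(τ/2)`
  have e1 : Real.cosh τ = 2 * Real.cosh (τ / 2) ^ 2 - 1 := by
    have := Real.cosh_two_mul (τ / 2)
    rw [show 2 * (τ / 2) = τ by ring] at this
    rw [this, Real.cosh_sq (τ / 2)]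
    ring
  have e2 : Real.sinh τ = 2 * Real.sinh (τ / 2) * Real.cosh (τ / 2) := by
    have := Real.sinh_two_mul (τ / 2)
    rw [show 2 * (τ / 2) = τ by ring] at this
    exact this
  have e3 : Real.cosh (3 * τ / 2) = 4 * Real.cosh (τ / 2) ^ 3 - 3 * Real.cosh (τ / 2) := by
    have := Real.cosh_three_mul (τ / 2)
    rw [show 3 * (τ / 2) = 3 * τ / 2 by ring] at this
    exact this
  have e4 : Real.sinh (3 * τ / 2) = 4 * Real.sinh (τ / 2) ^ 3 + 3 * Real.sinh (τ / 2) := by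
    have := Real.sinh_three_mul (τ / 2)
    rw [show 3 * (τ / 2) = 3 * τ / 2 by ring] at this
    exact this
  have e5 : Real.sinh (τ / 2) ^ 2 = Real.cosh (τ / 2) ^ 2 - 1 := Real.sinh_sq _
  rw [e1, e2, e3, e4]
  generalize Real.log (2 * Real.cosh (τ / 2)) = L
  generalize Real.cosh (τ / 2) = C at *
  generalize Real.sinh (τ / 2) = S at *
  field_simp
  linear_combination (1536 * C ^ 3 - 512 * C ^ 5 - 11776 * C ^ 7 + 2048 * C ^ 9
    - 12288 * C ^ 7 * (S ^ 2 + C ^ 2 - 1)) * e5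

private theorem KJ_pp_even (τ : ℝ) : pp (-τ) = pp τ := by
  rw [KJ_pp_eq, KJ_pp_eq]
  have h1 : Real.cosh (-τ / 2) = Real.cosh (τ / 2) := by rw [neg_div, Real.cosh_neg]
  have h2 : Real.cosh (3 * -τ / 2) = Real.cosh (3 * τ / 2) := by
    rw [show 3 * -τ / 2 = -(3 * τ / 2) by ring, Real.cosh_neg]
  have h3 : Real.sinh (3 * -τ / 2) = -Real.sinh (3 * τ / 2) := by
    rw [show 3 * -τ / 2 = -(3 * τ / 2) by ring, Real.sinh_neg]
  rw [h1, h2, h3, Real.cosh_neg]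
  ring

private theorem KJ_ppd_odd (τ : ℝ) : ppd (-τ) = -ppd τ := by
  unfold ppd
  have h1 : Real.cosh (-τ / 2) = Real.cosh (τ / 2) := by rw [neg_div, Real.cosh_neg]
  have h2 : Real.cosh (3 * -τ / 2) = Real.cosh (3 * τ / 2) := by
    rw [show 3 * -τ / 2 = -(3 * τ / 2) by ring, Real.cosh_neg]
  have h3 : Real.sinh (3 * -τ / 2) = -Real.sinh (3 * τ / 2) := by
    rw [show 3 * -τ / 2 = -(3 * τ / 2) by ring, Real.sinh_neg]
  have h4 : Real.sinh (-τ / 2) = -Real.sinh (τ / 2) := by rw [neg_div, Real.sinh_neg]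
  rw [h1, h2, h3, h4, Real.cosh_neg, Real.sinh_neg]
  ring

/-- for `τ ≥ 0` both functions in terms of `E = e^{τ/2}`, `y = E^{-2}`, `l = log (1+y)` -/
private theorem KJ_bound {τ : ℝ} (hτ : 0 ≤ τ) : |pp τ| ≤ 4 ∧ |ppd τ| ≤ 8 := by
  obtain ⟨E, hE⟩ : ∃ E, E = Real.exp (τ / 2) := ⟨_, rfl⟩
  obtain ⟨l, hl⟩ : ∃ l, l = Real.log (1 + Real.exp (-τ)) := ⟨_, rfl⟩
  have hE1 : 1 ≤ E := by rw [hE]; exact Real.one_le_exp (by linarith)
  have hE0 : 0 < E := by linarith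
  have hEi : Real.exp (-(τ / 2)) = E⁻¹ := by rw [hE, Real.exp_neg]
  have hE2 : Real.exp τ = E ^ 2 := by rw [hE, ← Real.exp_nat_mul]; congr 1; push_cast; ring
  have hE2i : Real.exp (-τ) = (E ^ 2)⁻¹ := by rw [Real.exp_neg, hE2]
  have hE3 : Real.exp (3 * τ / 2) = E ^ 3 := by
    rw [hE, ← Real.exp_nat_mul]; congr 1; push_cast; ring
  have hE3i : Real.exp (-(3 * τ / 2)) = (E ^ 3)⁻¹ := by rw [Real.exp_neg, hE3]
  obtain ⟨y, hy⟩ : ∃ y, y = (E ^ 2)⁻¹ := ⟨_, rfl⟩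
  have hy0 : 0 < y := by rw [hy]; positivity
  have hy1 : y ≤ 1 := by
    rw [hy]; exact inv_le_one_of_one_le₀ (one_le_pow₀ hE1)
  have hEy : E ^ 2 * y = 1 := by rw [hy]; field_simp
  have hL : Real.log (2 * Real.cosh (τ / 2)) = τ / 2 + l := by
    rw [hl, KJ_log2]; ring
  have hlE : l = Real.log (1 + y) := by rw [hl, hE2i, hy]
  have hl1 : l ≤ y := by
    rw [hlE]
    have := Real.log_le_sub_one_of_pos (show (0:ℝ) < 1 + y by linarith)
    linarith
  have hl2 : y - y ^ 2 ≤ l := by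
    rw [hlE]
    have h1 := Real.one_sub_inv_le_log_of_pos (show (0:ℝ) < 1 + y by linarith)
    have h2 : y - y ^ 2 ≤ 1 - (1 + y)⁻¹ := by
      have : 1 - (1 + y)⁻¹ = y / (1 + y) := by field_simp; ring
      rw [this, le_div_iff₀ (by linarith)]
      nlinarith [pow_pos hy0 3]
    linarith
  have hl0 : 0 ≤ l := by nlinarith
  -- the small term `E^{-3} (τ + l)`
  have hs0 : 0 ≤ (E ^ 3)⁻¹ * (τ + l) := by positivity
  have hs1 : (E ^ 3)⁻¹ * (τ + l) ≤ 1 := by
    rw [inv_mul_le_iff₀ (by positivity)]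
    have h1 : τ + 1 ≤ Real.exp τ := Real.add_one_le_exp τ
    rw [hE2] at h1
    nlinarith [mul_le_mul_of_nonneg_left hE1 (sq_nonneg E)]
  have hc : 2 * Real.cosh (τ / 2) = E * (1 + y) := by
    rw [Real.cosh_eq, hEi, ← hE, hy]
    field_simp
  have hs : Real.sinh (τ / 2) = E * (1 - y) / 2 := by
    rw [Real.sinh_eq, hEi, ← hE, hy]
    field_simp
  have hC1 : 2 * Real.cosh τ = E ^ 2 * (1 + y ^ 2) := by
    rw [Real.cosh_eq, hE2, hE2i, hy]
    field_simp
  have hS1 : 2 * Real.sinh τ = E ^ 2 * (1 - y ^ 2) := by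
    rw [Real.sinh_eq, hE2, hE2i, hy]
    field_simp
  have hC3 : Real.cosh (3 * τ / 2) = (E ^ 3 + (E ^ 3)⁻¹) / 2 := by
    rw [Real.cosh_eq, hE3, hE3i]
  have hS3 : Real.sinh (3 * τ / 2) = (E ^ 3 - (E ^ 3)⁻¹) / 2 := by
    rw [Real.sinh_eq, hE3, hE3i]
  have hc2 : 2 ≤ E * (1 + y) := by
    rw [← hc]
    have := Real.one_le_cosh (τ / 2)
    linarith
  have hq0 : 0 < 4 / (E * (1 + y)) ^ 3 := by positivity
  have hq1 : 4 / (E * (1 + y)) ^ 3 ≤ 1 / 2 := by
    rw [div_le_div_iff₀ (by positivity) (by norm_num)]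
    nlinarith [pow_le_pow_left₀ (by norm_num : (0:ℝ) ≤ 2) hc2 3]
  have hEi' : E * y ≤ 1 := by
    have : E * y ≤ E * E * y := by
      have := mul_le_mul_of_nonneg_left hE1 hE0.le
      nlinarith
    nlinarith
  have hEy0 : 0 < E * y := by positivity
  have hE3' : (E ^ 3)⁻¹ = E * y ^ 2 := by
    rw [hy]; field_simp
  constructor
  · have e : pp τ = E * ((1 + y ^ 2) / (1 + y) - 1) - E ^ 3 * (l - y) - (E ^ 3)⁻¹ * (τ + l)
        + 4 / (E * (1 + y)) ^ 3 := by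
      rw [KJ_pp_eq, hL, hC3, hS3, hc, hC1]
      have hE3y : E ^ 3 * y = E := by linear_combination E * hEy
      have h1 : E ^ 2 * (1 + y ^ 2) / (E * (1 + y)) = E * ((1 + y ^ 2) / (1 + y)) := by
        field_simp
      rw [h1]
      linear_combination (-1 : ℝ) * hE3y
    have h1 : |E * ((1 + y ^ 2) / (1 + y) - 1)| ≤ 1 := by
      have h2 : (1 + y ^ 2) / (1 + y) - 1 = -(y * (1 - y) / (1 + y)) := by
        field_simp; ring
      rw [h2, mul_neg, abs_neg, abs_of_nonneg (by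
        have : 0 ≤ 1 - y := by linarith
        positivity)]
      have h3 : y * (1 - y) / (1 + y) ≤ y := by
        rw [div_le_iff₀ (by linarith)]
        nlinarith
      calc E * (y * (1 - y) / (1 + y)) ≤ E * y := mul_le_mul_of_nonneg_left h3 hE0.le
        _ ≤ 1 := hEi'
    have h2 : |E ^ 3 * (l - y)| ≤ 1 := by
      rw [abs_of_nonpos (by
        have : l - y ≤ 0 := by linarith
        exact mul_nonpos_of_nonneg_of_nonpos (by positivity) this)]
      have h3 : E ^ 3 * (y - l) ≤ E ^ 3 * y ^ 2 :=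
        mul_le_mul_of_nonneg_left (by linarith) (by positivity)
      have h4 : E ^ 3 * y ^ 2 = E * y := by linear_combination (E * y) * hEy
      linarith
    rw [e, abs_le]
    rw [abs_le] at h1 h2
    constructor <;> linarith [h1.1, h1.2, h2.1, h2.2]
  · have e : ppd τ = E * (2 * (1 - y) - (1 / 2) * ((1 + y ^ 2) * (1 - y) / (1 + y) ^ 2) - 3 / 2)
        - 3 / 2 * (E ^ 3 * (l - y)) + 3 / 2 * ((E ^ 3)⁻¹ * (τ + l))
        - 3 / 2 * ((1 - y) / (1 + y)) * (4 / (E * (1 + y)) ^ 3) := by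
      unfold ppd
      rw [hL, hC3, hS3, hc, hC1, hS1, hs, hE3']
      have hE3y : E ^ 3 * y = E := by linear_combination E * hEy
      have h5 : -(2 * ((E ^ 3 + E * y ^ 2) / 2) * (E * (1 - y) / 2) / (E * (1 + y)))
          + (E ^ 3 - E * y ^ 2) / 2 = E * (1 - y) := by
        have h6 : 2 * ((E ^ 3 + E * y ^ 2) / 2) * (E * (1 - y) / 2) / (E * (1 + y))
            = (E ^ 3 + E * y ^ 2) * (1 - y) / (2 * (1 + y)) := by
          field_simp
        rw [h6]
        have h7 : (E ^ 3 + E * y ^ 2) * (1 - y) / (2 * (1 + y))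
            = (E ^ 3 - E * y ^ 2) / 2 - E * (1 - y) := by
          rw [div_eq_iff (by positivity)]
          linear_combination (-2 * E) * hEy
        rw [h7]
        ring
      have h8 : E ^ 2 * (1 - y ^ 2) / (E * (1 + y)) = E * (1 - y) := by
        rw [div_eq_iff (by positivity)]
        ring
      have h9 : E ^ 2 * (1 + y ^ 2) * (E * (1 - y) / 2) / (E * (1 + y)) ^ 2
          = E * ((1 / 2) * ((1 + y ^ 2) * (1 - y) / (1 + y) ^ 2)) := by
        field_simp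
      have h10 : 12 * (E * (1 - y) / 2) / (E * (1 + y)) ^ 4
          = 3 / 2 * ((1 - y) / (1 + y)) * (4 / (E * (1 + y)) ^ 3) := by
        field_simp
        ring
      rw [h8, h9, h10]
      linear_combination h5 - (3 / 2 : ℝ) * hE3y
    have hy1' : 0 ≤ 1 - y := by linarith
    have h1 : |E * (2 * (1 - y) - (1 / 2) * ((1 + y ^ 2) * (1 - y) / (1 + y) ^ 2) - 3 / 2)| ≤ 2 := by
      obtain ⟨q, hq⟩ : ∃ q, q = (1 + y ^ 2) * (1 - y) / (1 + y) ^ 2 := ⟨_, rfl⟩
      rw [← hq]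
      have hq1 : q ≤ 1 := by
        rw [hq, div_le_one (by positivity)]
        nlinarith [mul_nonneg hy0.le hy1', pow_pos hy0 3]
      have hq2 : 1 - 4 * y ≤ q := by
        rw [hq, le_div_iff₀ (by positivity)]
        nlinarith [mul_nonneg hy0.le hy1', pow_pos hy0 3, pow_pos hy0 2]
      have h2 : |2 * (1 - y) - (1 / 2) * q - 3 / 2| ≤ 2 * y := by
        rw [abs_le]
        constructor <;> linarith
      rw [abs_mul, abs_of_pos hE0]
      calc E * |2 * (1 - y) - (1 / 2) * q - 3 / 2| ≤ E * (2 * y) :=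
            mul_le_mul_of_nonneg_left h2 hE0.le
        _ ≤ 2 := by linarith
    have h2 : |E ^ 3 * (l - y)| ≤ 1 := by
      rw [abs_of_nonpos (by
        have : l - y ≤ 0 := by linarith
        exact mul_nonpos_of_nonneg_of_nonpos (by positivity) this)]
      have h3 : E ^ 3 * (y - l) ≤ E ^ 3 * y ^ 2 :=
        mul_le_mul_of_nonneg_left (by linarith) (by positivity)
      have h4 : E ^ 3 * y ^ 2 = E * y := by linear_combination (E * y) * hEy
      linarith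
    have h3 : 0 ≤ (1 - y) / (1 + y) := by positivity
    have h4 : (1 - y) / (1 + y) ≤ 1 := by
      rw [div_le_one (by linarith)]
      linarith
    have h5 : 0 ≤ (1 - y) / (1 + y) * (4 / (E * (1 + y)) ^ 3) := mul_nonneg h3 hq0.le
    have h6 : (1 - y) / (1 + y) * (4 / (E * (1 + y)) ^ 3) ≤ 1 := by
      calc (1 - y) / (1 + y) * (4 / (E * (1 + y)) ^ 3) ≤ 1 * (1 / 2) :=
            mul_le_mul h4 hq1 hq0.le (by norm_num)
        _ ≤ 1 := by norm_num
    rw [e, abs_le]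
    rw [abs_le] at h1 h2
    constructor <;> linarith [h1.1, h1.2, h2.1, h2.2]

theorem pp_bdd : ∃ K, ∀ τ, |pp τ| ≤ K ∧ |ppd τ| ≤ K := by
  refine ⟨8, fun τ => ?_⟩
  rcases le_total 0 τ with h | h
  · obtain ⟨h1, h2⟩ := KJ_bound h
    exact ⟨h1.trans (by norm_num), h2⟩
  · obtain ⟨h1, h2⟩ := KJ_bound (neg_nonneg.2 h)
    rw [KJ_pp_even] at h1
    rw [KJ_ppd_odd, abs_neg] at h2
    exact ⟨h1.trans (by norm_num), h2⟩

end Pool.Agent.H51.DG
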