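import Pool.Agent.H51.DG.NA
import Pool.Agent.H51.DG.KF
import Pool.Agent.H51.DG.KJ
import Pool.Agent.H51.DG.KG

/-!
# DG2 job ND: the cross formula on the line

`g = A' + (3/2) A`, `h = B' + (3/2) B`.  `∫∫ g(r) h(s) pp(r-s) dr ds = ∫ pp(τ) corr h g τ dτ`
(`r = s + τ`), `corr h g = -C'' + (9/4) C` with `C = corr B A` (expand, `corr_parts`), and
integrating by parts twice on `[-R,R]`, `R → ∞` (`pp, ppd` bounded, `C, C'` decaying):
`∫ (-C'' + (9/4) C) pp = ∫ C (-pp'' + (9/4) pp) = ∫ C ell`.  Finally `corr B A τ = corr A B (-τ)`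
and `ell` is even.
-/

set_option autoImplicit false
open Real Set MeasureTheory Filter Topology

namespace Pool.Agent.H51.DG

theorem ND_integrable_exp {κ : ℝ} (hκ : 0 < κ) :
    Integrable (fun r : ℝ => Real.exp (-(κ * |r|))) := by
  rw [← integrableOn_univ, ← Iic_union_Ioi (a := (0:ℝ))]
  refine IntegrableOn.union ?_ ?_
  · refine (integrableOn_exp_mul_Iic hκ 0).congr_fun (fun x hx => ?_) measurableSet_Iic
    have h0 : x ≤ 0 := hx
    simp only [abs_of_nonpos h0]
    ring_nf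
  · refine (integrableOn_exp_mul_Ioi (a := -κ) (by linarith) 0).congr_fun (fun x hx => ?_)
      measurableSet_Ioi
    have h0 : 0 < x := hx
    simp only [abs_of_pos h0]
    ring_nf

theorem ND_integrable_of_bd {f : ℝ → ℝ} (hf : Continuous f) {K κ : ℝ} (hκ : 0 < κ)
    (hb : ∀ r, |f r| ≤ K * Real.exp (-(κ * |r|))) : Integrable f :=
  Integrable.mono' ((ND_integrable_exp hκ).const_mul K) hf.aestronglyMeasurable
    (Eventually.of_forall fun r => by rw [Real.norm_eq_abs]; exact hb r)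

theorem ND_cont {A A' : ℝ → ℝ} (hA : Adm A A') : Continuous A :=
  continuous_iff_continuousAt.mpr fun r => (hA.d r).continuousAt

theorem ND_cont_g {A A' : ℝ → ℝ} (hA : Adm A A') : Continuous (fun r => A' r + 3 / 2 * A r) :=
  hA.c.add (continuous_const.mul (ND_cont hA))

theorem ND_int_g {A A' : ℝ → ℝ} (hA : Adm A A') : Integrable (fun r => A' r + 3 / 2 * A r) := by
  obtain ⟨K, κ, hκ, hb⟩ := hA.dec
  have h1 : Integrable A := ND_integrable_of_bd (ND_cont hA) hκ (fun r => (hb r).1)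
  have h2 : Integrable A' := ND_integrable_of_bd hA.c hκ (fun r => (hb r).2)
  exact h2.add (h1.const_mul (3 / 2))

theorem ND_cont_pp : Continuous pp :=
  continuous_iff_continuousAt.mpr fun r => (hasDerivAt_pp r).continuousAt

theorem ND_cont_ppd : Continuous ppd :=
  continuous_iff_continuousAt.mpr fun r => (hasDerivAt_ppd r).continuousAt

theorem integrable_prod_pp {A A' B B' : ℝ → ℝ} (hA : Adm A A') (hB : Adm B B') :
    Integrable (fun z : ℝ × ℝ =>
      (A' z.1 + 3 / 2 * A z.1) * (B' z.2 + 3 / 2 * B z.2) * pp (z.1 - z.2)) := by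
  obtain ⟨K, hK⟩ := pp_bdd
  have h1 : Integrable (fun z : ℝ × ℝ =>
      (A' z.1 + 3 / 2 * A z.1) * (B' z.2 + 3 / 2 * B z.2)) := (ND_int_g hA).mul_prod (ND_int_g hB)
  refine h1.mul_bdd (c := K) ?_ ?_
  · exact (ND_cont_pp.comp (continuous_fst.sub continuous_snd)).aestronglyMeasurable
  · exact Eventually.of_forall fun z => by
      rw [Real.norm_eq_abs]; exact (hK _).1

theorem ND_corr_g {A A' B B' : ℝ → ℝ} (hA : Adm A A') (hB : Adm B B') (τ : ℝ) :
    ∫ s, (A' (τ + s) + 3 / 2 * A (τ + s)) * (B' s + 3 / 2 * B s) =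
      corr B' A' τ + 9 / 4 * corr B A τ := by
  obtain ⟨i1, i2, i3, i4⟩ := hB.integrable_mul hA τ
  have hp := corr_parts hB hA τ
  have e : ∀ s, (A' (τ + s) + 3 / 2 * A (τ + s)) * (B' s + 3 / 2 * B s) =
      B' s * A' (s + τ) + (3 / 2 * (B' s * A (s + τ)) + (3 / 2 * (B s * A' (s + τ)) +
        9 / 4 * (B s * A (s + τ)))) := by
    intro s
    rw [add_comm τ s]
    ring
  have j1 : Integrable (fun s => 9 / 4 * (B s * A (s + τ))) := i1.const_mul _
  have j2 : Integrable (fun s => 3 / 2 * (B s * A' (s + τ))) := i2.const_mul _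
  have j3 : Integrable (fun s => 3 / 2 * (B' s * A (s + τ))) := i3.const_mul _
  have k2 : Integrable (fun s => 3 / 2 * (B s * A' (s + τ)) + 9 / 4 * (B s * A (s + τ))) :=
    j2.add j1
  have k3 : Integrable (fun s => 3 / 2 * (B' s * A (s + τ)) + (3 / 2 * (B s * A' (s + τ)) +
      9 / 4 * (B s * A (s + τ)))) := j3.add k2
  simp_rw [e]
  rw [integral_add i4 k3, integral_add j3 k2, integral_add j2 j1, integral_const_mul,
    integral_const_mul, integral_const_mul]
  unfold corr at *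
  rw [hp]
  ring

theorem ND_fubini {A A' B B' : ℝ → ℝ} (hA : Adm A A') (hB : Adm B B') :
    ∫ z : ℝ × ℝ, (A' z.1 + 3 / 2 * A z.1) * (B' z.2 + 3 / 2 * B z.2) * pp (z.1 - z.2) =
      ∫ τ, (corr B' A' τ + 9 / 4 * corr B A τ) * pp τ := by
  have hI := integrable_prod_pp hA hB
  have hmp : MeasurePreserving (fun z : ℝ × ℝ => (z.1 + z.2, z.2))
      ((volume : Measure ℝ).prod volume) ((volume : Measure ℝ).prod volume) :=
    measurePreserving_add_prod _ _
  have hI2 : Integrable (fun z : ℝ × ℝ =>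
      (A' (z.1 + z.2) + 3 / 2 * A (z.1 + z.2)) * (B' z.2 + 3 / 2 * B z.2) *
        pp (z.1 + z.2 - z.2)) ((volume : Measure ℝ).prod volume) :=
    hmp.integrable_comp_of_integrable hI
  have e1 : ∫ z : ℝ × ℝ, (A' z.1 + 3 / 2 * A z.1) * (B' z.2 + 3 / 2 * B z.2) * pp (z.1 - z.2) =
      ∫ z : ℝ × ℝ, (A' (z.1 + z.2) + 3 / 2 * A (z.1 + z.2)) * (B' z.2 + 3 / 2 * B z.2) *
        pp (z.1 + z.2 - z.2) ∂((volume : Measure ℝ).prod volume) := by
    have hm : AEStronglyMeasurable (fun z : ℝ × ℝ =>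
      (A' z.1 + 3 / 2 * A z.1) * (B' z.2 + 3 / 2 * B z.2) * pp (z.1 - z.2))
      (Measure.map (fun z : ℝ × ℝ => (z.1 + z.2, z.2)) ((volume : Measure ℝ).prod volume)) := by
      rw [hmp.map_eq]
      exact hI.aestronglyMeasurable
    have := integral_map hmp.measurable.aemeasurable hm
    rw [hmp.map_eq] at this
    exact this
  rw [e1, integral_prod _ hI2]
  refine integral_congr_ae (Eventually.of_forall fun τ => ?_)
  simp only [add_sub_cancel_right]
  rw [integral_mul_const, ND_corr_g hA hB τ]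

theorem ND_ell_neg (τ : ℝ) : ell (-τ) = ell τ := by
  unfold ell
  rw [neg_div, Real.cosh_neg]

theorem cross_formula {A A' B B' : ℝ → ℝ} (hA : Adm A A') (hB : Adm B B') :
    ∫ z : ℝ × ℝ, (A' z.1 + 3 / 2 * A z.1) * (B' z.2 + 3 / 2 * B z.2) * pp (z.1 - z.2) =
      ∫ τ, ell τ * corr A B τ := by
  rw [ND_fubini hA hB]
  obtain ⟨K, κ, hκ, hC⟩ := corr_decay hB hA
  obtain ⟨Kp, hKp⟩ := pp_bdd
  have d0 : ∀ τ, HasDerivAt (corr B A) (corr B A' τ) τ := hasDerivAt_corr hB hA
  have d1 : ∀ τ, HasDerivAt (corr B A') (-corr B' A' τ) τ := hasDerivAt_corr' hB hA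
  have c0 : Continuous (corr B A) := continuous_iff_continuousAt.mpr fun r => (d0 r).continuousAt
  have c1 : Continuous (corr B A') := continuous_iff_continuousAt.mpr fun r => (d1 r).continuousAt
  have c2 : Continuous (corr B' A') := continuous_corr'' hB hA
  have i0 : Integrable (corr B A) := ND_integrable_of_bd c0 hκ fun r => (hC r).1
  have i1 : Integrable (corr B A') := ND_integrable_of_bd c1 hκ fun r => (hC r).2.1
  have i2 : Integrable (corr B' A') := ND_integrable_of_bd c2 hκ fun r => (hC r).2.2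
  have bp : ∀ᵐ τ : ℝ, ‖pp τ‖ ≤ Kp := Eventually.of_forall fun τ => by
    rw [Real.norm_eq_abs]; exact (hKp τ).1
  have bpd : ∀ᵐ τ : ℝ, ‖ppd τ‖ ≤ Kp := Eventually.of_forall fun τ => by
    rw [Real.norm_eq_abs]; exact (hKp τ).2
  have j0 : Integrable (fun τ => corr B A τ * ppd τ) :=
    i0.mul_bdd ND_cont_ppd.aestronglyMeasurable bpd
  have j1 : Integrable (fun τ => corr B A' τ * pp τ) :=
    i1.mul_bdd ND_cont_pp.aestronglyMeasurable bp
  have j2 : Integrable (fun τ => (corr B' A' τ + 9 / 4 * corr B A τ) * pp τ) :=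
    (i2.add (i0.const_mul _)).mul_bdd ND_cont_pp.aestronglyMeasurable bp
  have j3 : Integrable (fun τ => ell τ * corr B A τ) := by
    refine integrable_ell.mul_bdd (c := K) c0.aestronglyMeasurable
      (Eventually.of_forall fun τ => ?_)
    rw [Real.norm_eq_abs]
    refine (hC τ).1.trans ?_
    have hK : 0 ≤ K := by
      have h := (abs_nonneg _).trans (hC 0).1
      simpa using h
    have h1 : Real.exp (-(κ * |τ|)) ≤ 1 :=
      Real.exp_le_one_iff.mpr (by have := mul_nonneg hκ.le (abs_nonneg τ); linarith)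
    calc K * Real.exp (-(κ * |τ|)) ≤ K * 1 := mul_le_mul_of_nonneg_left h1 hK
      _ = K := mul_one K
  have hF : ∀ τ, HasDerivAt (fun τ => corr B A τ * ppd τ - corr B A' τ * pp τ)
      ((corr B' A' τ + 9 / 4 * corr B A τ) * pp τ - ell τ * corr B A τ) τ := by
    intro τ
    have h := ((d0 τ).mul (hasDerivAt_ppd τ)).sub ((d1 τ).mul (hasDerivAt_pp τ))
    refine h.congr_deriv ?_
    ring
  have h0 := integral_eq_zero_of_hasDerivAt_of_integrable hF (j2.sub j3) (j0.sub j1)
  have h1 : ∫ τ, (corr B' A' τ + 9 / 4 * corr B A τ) * pp τ = ∫ τ, ell τ * corr B A τ := by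
    have := integral_sub j2 j3
    rw [h0] at this
    linarith
  rw [h1, ← integral_neg_eq_self (fun τ => ell τ * corr A B τ)]
  refine integral_congr_ae (Eventually.of_forall fun τ => ?_)
  simp only [ND_ell_neg, corr_swap]

end Pool.Agent.H51.DG
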