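import Pool.Agent.H51.DG.NC
import Pool.Agent.H51.DG.ND

/-!
# DG2 job NE: THE KEY LEMMA (negativity of the Hardy deficit form)

`A, B ≥ 0`, `C = corr A B ≥ 0`.  `∫ ell C ≤ ∫ ps C` (`ell ≤ ps`, `C ≥ 0`)
`= ∫_{Ioi 0} ps(τ) (C(τ) + C(-τ)) dτ = ∫_{Ioi 0} ps(τ) (C(τ)+C(-τ)-2C(0)) dτ`
(`∫_{Ioi 0} ps = 0`) `≤ ∫_{Ioi 0} |ps| (DD A + DD B)/2 ≤ ∫_{Ioi 0} Lpp (DD A + DD B)`
by `corr_second_diff` and `abs_ps_le`.
-/

set_option autoImplicit false
open Real Set MeasureTheory Filter Topology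

namespace Pool.Agent.H51.DG

theorem NE_corr_nonneg {A B : ℝ → ℝ} (pA : ∀ r, 0 ≤ A r) (pB : ∀ r, 0 ≤ B r) (τ : ℝ) :
    0 ≤ corr A B τ :=
  integral_nonneg fun r => mul_nonneg (pA r) (pB _)

theorem NE_corr_continuous {A A' B B' : ℝ → ℝ} (hA : Adm A A') (hB : Adm B B') :
    Continuous (corr A B) :=
  continuous_iff_continuousAt.2 fun τ => (hasDerivAt_corr hA hB τ).continuousAt

theorem NE_corr_bdd {A A' B B' : ℝ → ℝ} (hA : Adm A A') (hB : Adm B B') :
    ∃ K : ℝ, ∀ τ, |corr A B τ| ≤ K := by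
  obtain ⟨K, κ, hκ, h⟩ := corr_decay hA hB
  refine ⟨|K|, fun τ => ((h τ).1.trans ?_)⟩
  have h1 : Real.exp (-(κ * |τ|)) ≤ 1 :=
    Real.exp_le_one_iff.2 (neg_nonpos.2 (mul_nonneg hκ.le (abs_nonneg τ)))
  calc K * Real.exp (-(κ * |τ|)) ≤ |K| * Real.exp (-(κ * |τ|)) :=
        mul_le_mul_of_nonneg_right (le_abs_self K) (Real.exp_pos _).le
    _ ≤ |K| * 1 := mul_le_mul_of_nonneg_left h1 (abs_nonneg K)
    _ = |K| := mul_one _

theorem NE_integrable_mul {f C : ℝ → ℝ} (hf : Integrable f) (hC : Continuous C) {K : ℝ}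
    (hK : ∀ τ, |C τ| ≤ K) : Integrable (fun τ => f τ * C τ) :=
  hf.mul_bdd hC.aestronglyMeasurable (ae_of_all _ fun τ => hK τ)

theorem key_lemma {A A' B B' : ℝ → ℝ} (hA : Adm A A') (hB : Adm B B')
    (pA : ∀ r, 0 ≤ A r) (pB : ∀ r, 0 ≤ B r) :
    ∫ τ, ell τ * corr A B τ ≤
      (∫ τ in Ioi (0:ℝ), Lpp τ * DD A τ) + ∫ τ in Ioi (0:ℝ), Lpp τ * DD B τ := by
  have hCc := NE_corr_continuous hA hB
  obtain ⟨K, hK⟩ := NE_corr_bdd hA hB
  have i1 := NE_integrable_mul integrable_ell hCc hK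
  have i2 := NE_integrable_mul integrable_ps hCc hK
  have i3 : Integrable (fun τ => ps τ * corr A B (-τ)) :=
    NE_integrable_mul integrable_ps (hCc.comp continuous_neg) fun τ => hK (-τ)
  have i4 : Integrable (fun τ => ps τ * (2 * corr A B 0)) := integrable_ps.mul_const _
  have e0 : ∫ τ, ell τ * corr A B τ ≤ ∫ τ, ps τ * corr A B τ :=
    integral_mono i1 i2 fun τ => mul_le_mul_of_nonneg_right (ell_le_ps τ)
      (NE_corr_nonneg pA pB τ)
  have e1 : ∫ τ, ps τ * corr A B τ =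
      (∫ τ in Ioi (0:ℝ), ps τ * corr A B (-τ)) + ∫ τ in Ioi (0:ℝ), ps τ * corr A B τ := by
    rw [← intervalIntegral.integral_Iic_add_Ioi (b := (0:ℝ)) i2.integrableOn i2.integrableOn]
    congr 1
    have h := integral_comp_neg_Ioi (0:ℝ) (fun τ => ps τ * corr A B τ)
    rw [neg_zero] at h
    rw [← h]
    refine setIntegral_congr_fun measurableSet_Ioi fun τ _ => ?_
    simp only [ps_neg]
  have e2 : ∫ τ, ps τ * corr A B τ =
      ∫ τ in Ioi (0:ℝ), ps τ * (corr A B τ + corr A B (-τ) - 2 * corr A B 0) := by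
    have h0 : ∫ τ in Ioi (0:ℝ), ps τ * (2 * corr A B 0) = 0 := by
      rw [integral_mul_const, integral_Ioi_ps, zero_mul]
    have h5 : ∫ τ in Ioi (0:ℝ), ps τ * (corr A B τ + corr A B (-τ) - 2 * corr A B 0) =
        ((∫ τ in Ioi (0:ℝ), ps τ * corr A B (-τ)) + ∫ τ in Ioi (0:ℝ), ps τ * corr A B τ) -
          ∫ τ in Ioi (0:ℝ), ps τ * (2 * corr A B 0) := by
      have h6 : IntegrableOn (fun τ => ps τ * corr A B (-τ) + ps τ * corr A B τ) (Ioi (0:ℝ)) :=
        i3.integrableOn.add i2.integrableOn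
      rw [← integral_add i3.integrableOn i2.integrableOn, ← integral_sub h6 i4.integrableOn]
      refine setIntegral_congr_fun measurableSet_Ioi fun τ _ => ?_
      ring
    rw [h5, h0, sub_zero, e1]
  have j1 := integrableOn_Lpp_DD hA
  have j2 := integrableOn_Lpp_DD hB
  rw [← integral_add j1 j2]
  refine e0.trans (e2.le.trans ?_)
  refine setIntegral_mono_on ?_ (j1.add j2) measurableSet_Ioi fun τ hτ => ?_
  · have : Integrable (fun τ => ps τ * (corr A B τ + corr A B (-τ) - 2 * corr A B 0)) := by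
      have h := (i2.add i3).sub i4
      refine h.congr (ae_of_all _ fun τ => ?_)
      simp only [Pi.add_apply, Pi.sub_apply]
      ring
    exact this.integrableOn
  · have hτ0 : τ ≠ 0 := ne_of_gt hτ
    have h1 := abs_ps_le hτ0
    have h2 := corr_second_diff hA hB τ
    have h3 := Lpp_pos hτ0
    calc ps τ * (corr A B τ + corr A B (-τ) - 2 * corr A B 0)
        ≤ |ps τ * (corr A B τ + corr A B (-τ) - 2 * corr A B 0)| := le_abs_self _
      _ = |ps τ| * |corr A B τ + corr A B (-τ) - 2 * corr A B 0| := abs_mul _ _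
      _ ≤ (2 * Lpp τ) * ((DD A τ + DD B τ) / 2) :=
          mul_le_mul h1 h2 (abs_nonneg _) (by positivity)
      _ = Lpp τ * DD A τ + Lpp τ * DD B τ := by ring

end Pool.Agent.H51.DG
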