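import Pool.Agent.H51.DG.KerN

/-!
# DG2 job KH: `KerN (3/2) n3 n3d`

For `τ > 0`, `log(1 - e^{-τ}) = log(e^τ - 1) - τ`, so
`n3 τ = 2 cosh(τ/2) + 2 cosh(3τ/2) log(e^τ-1) - τ e^{3τ/2}` and (using
`e^τ/(e^τ-1) = e^{τ/2}/(2 sinh(τ/2))` and
`cosh(3τ/2) e^{τ/2}/sinh(τ/2) - e^{3τ/2} = cosh τ / sinh(τ/2)`) `n3' = n3d`.
-/

set_option autoImplicit false
open Real Set MeasureTheory Filter Topology

namespace Pool.Agent.H51.DG

/-- the exponentials in terms of `x = exp (τ/2)` -/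
lemma KH_x (τ : ℝ) : ∃ x : ℝ, 0 < x ∧ Real.exp (τ / 2) = x ∧ Real.exp (-τ / 2) = x⁻¹ ∧
    Real.exp (3 * τ / 2) = x ^ 3 ∧ Real.exp (-3 * τ / 2) = (x ^ 3)⁻¹ ∧ Real.exp τ = x ^ 2 ∧
    Real.exp (-τ) = (x ^ 2)⁻¹ ∧ Real.sinh (τ / 2) = (x - x⁻¹) / 2 ∧
    Real.cosh (τ / 2) = (x + x⁻¹) / 2 ∧ Real.sinh (3 * τ / 2) = (x ^ 3 - (x ^ 3)⁻¹) / 2 ∧
    Real.cosh (3 * τ / 2) = (x ^ 3 + (x ^ 3)⁻¹) / 2 ∧ Real.cosh τ = (x ^ 2 + (x ^ 2)⁻¹) / 2 ∧
    Real.sinh τ = (x ^ 2 - (x ^ 2)⁻¹) / 2 := by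
  have h1 : Real.exp (-τ / 2) = (Real.exp (τ / 2))⁻¹ := by
    rw [← Real.exp_neg]; congr 1; ring
  have h2 : Real.exp (3 * τ / 2) = (Real.exp (τ / 2)) ^ 3 := by
    rw [← Real.exp_nat_mul]; congr 1; push_cast; ring
  have h3 : Real.exp (-3 * τ / 2) = ((Real.exp (τ / 2)) ^ 3)⁻¹ := by
    rw [← h2, ← Real.exp_neg]; congr 1; ring
  have h4 : Real.exp τ = (Real.exp (τ / 2)) ^ 2 := by
    rw [← Real.exp_nat_mul]; congr 1; push_cast; ring
  have h5 : Real.exp (-τ) = ((Real.exp (τ / 2)) ^ 2)⁻¹ := by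
    rw [← h4, ← Real.exp_neg]
  refine ⟨Real.exp (τ / 2), Real.exp_pos _, rfl, h1, h2, h3, h4, h5, ?_, ?_, ?_, ?_, ?_, ?_⟩
  · rw [Real.sinh_eq, Real.exp_neg]
  · rw [Real.cosh_eq, Real.exp_neg]
  · rw [Real.sinh_eq, Real.exp_neg, h2]
  · rw [Real.cosh_eq, Real.exp_neg, h2]
  · rw [Real.cosh_eq, h5, h4]
  · rw [Real.sinh_eq, h5, h4]

lemma KH_pos {τ : ℝ} (h : 0 < τ) : 0 < Real.exp τ - 1 := by
  have := Real.one_lt_exp_iff.2 h
  linarith

lemma KH_log {τ : ℝ} (h : 0 < τ) :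
    Real.log (1 - Real.exp (-τ)) = Real.log (Real.exp τ - 1) - τ := by
  have h1 : 1 - Real.exp (-τ) = (Real.exp τ - 1) / Real.exp τ := by
    rw [Real.exp_neg]
    have := Real.exp_pos τ
    field_simp
  rw [h1, Real.log_div (KH_pos h).ne' (Real.exp_pos τ).ne', Real.log_exp]

lemma KH_d1 {τ : ℝ} (h : 0 < τ) : HasDerivAt n3 (n3d τ) τ := by
  have hpos := KH_pos h
  have hpos' : (1 - Real.exp (-τ)) ≠ 0 := by
    have : Real.exp (-τ) < 1 := by
      rw [← Real.exp_zero]; exact Real.exp_lt_exp.2 (by linarith)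
    linarith
  have e1 : HasDerivAt (fun τ : ℝ => Real.exp (τ / 2)) (Real.exp (τ / 2) * (1 / 2)) τ :=
    ((hasDerivAt_id τ).div_const 2).exp
  have e2 : HasDerivAt (fun τ : ℝ => Real.exp (-τ / 2)) (Real.exp (-τ / 2) * (-1 / 2)) τ :=
    ((hasDerivAt_id τ).neg.div_const 2).exp
  have e3 : HasDerivAt (fun τ : ℝ => Real.exp (3 * τ / 2)) (Real.exp (3 * τ / 2) * (3 * 1 / 2)) τ :=
    (((hasDerivAt_id τ).const_mul 3).div_const 2).exp
  have e4 : HasDerivAt (fun τ : ℝ => Real.exp (-3 * τ / 2))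
      (Real.exp (-3 * τ / 2) * (-3 * 1 / 2)) τ :=
    (((hasDerivAt_id τ).const_mul (-3)).div_const 2).exp
  have e5 : HasDerivAt (fun τ : ℝ => Real.log (1 - Real.exp (-τ)))
      ((-(Real.exp (-τ) * (-1))) / (1 - Real.exp (-τ))) τ :=
    (((hasDerivAt_id τ).neg.exp).const_sub 1).log hpos'
  have e6 : HasDerivAt (fun τ : ℝ => Real.log (Real.exp τ - 1))
      (Real.exp τ / (Real.exp τ - 1)) τ :=
    ((Real.hasDerivAt_exp τ).sub_const 1).log hpos.ne'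
  have e := ((e1.add e2).add (e3.mul e5)).add (e4.mul e6)
  refine (e.congr_deriv ?_)
  unfold n3d
  rw [KH_log h]
  obtain ⟨x, hx, a1, a2, a3, a4, a5, a6, a7, a8, a9, a10, a11, a12⟩ := KH_x τ
  have hx1 : 0 < x ^ 2 - 1 := by rw [← a5]; exact hpos
  have hx2 : (1 - (x ^ 2)⁻¹) ≠ 0 := by rw [← a6]; exact hpos'
  have hx3 : x ^ 2 - 1 ≠ 0 := hx1.ne'
  have b1 : (1 - (x ^ 2)⁻¹) = (x ^ 2 - 1) / x ^ 2 := by field_simp
  have b2 : (x - x⁻¹) / 2 = (x ^ 2 - 1) / (2 * x) := by field_simp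
  simp only [a1, a2, a3, a4, a5, a6, a7, a9, a11]
  generalize Real.log (x ^ 2 - 1) = L
  rw [b1, b2]
  field_simp
  ring

lemma KH_d2 {τ : ℝ} (h : 0 < τ) : HasDerivAt n3d ((3 / 2) ^ 2 * n3 τ - 2 * Lpp τ) τ := by
  have hpos := KH_pos h
  have hs : Real.sinh (τ / 2) ≠ 0 := by
    have := Real.sinh_pos_iff.2 (show (0:ℝ) < τ / 2 by linarith)
    exact this.ne'
  have e1 : HasDerivAt (fun τ : ℝ => Real.sinh (τ / 2)) (Real.cosh (τ / 2) * (1 / 2)) τ :=
    ((hasDerivAt_id τ).div_const 2).sinh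
  have e3 : HasDerivAt (fun τ : ℝ => Real.exp (3 * τ / 2)) (Real.exp (3 * τ / 2) * (3 * 1 / 2)) τ :=
    (((hasDerivAt_id τ).const_mul 3).div_const 2).exp
  have e4 : HasDerivAt (fun τ : ℝ => 3 * Real.sinh (3 * τ / 2))
      (3 * (Real.cosh (3 * τ / 2) * (3 * 1 / 2))) τ :=
    ((((hasDerivAt_id τ).const_mul 3).div_const 2).sinh).const_mul 3
  have e6 : HasDerivAt (fun τ : ℝ => Real.log (Real.exp τ - 1))
      (Real.exp τ / (Real.exp τ - 1)) τ :=
    ((Real.hasDerivAt_exp τ).sub_const 1).log hpos.ne'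
  have e7 : HasDerivAt (fun τ : ℝ => 3 / 2 * τ) (3 / 2 * 1) τ :=
    (hasDerivAt_id τ).const_mul (3 / 2)
  have e8 : HasDerivAt (fun τ : ℝ => Real.cosh τ) (Real.sinh τ) τ := Real.hasDerivAt_cosh τ
  have e := ((e1.add (e4.mul e6)).sub (e7.mul e3)).add (e8.div e1 hs)
  refine (e.congr_deriv ?_)
  unfold n3 Lpp
  rw [KH_log h]
  obtain ⟨x, hx, a1, a2, a3, a4, a5, a6, a7, a8, a9, a10, a11, a12⟩ := KH_x τ
  have hx1 : 0 < x ^ 2 - 1 := by rw [← a5]; exact hpos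
  have hx3 : x ^ 2 - 1 ≠ 0 := hx1.ne'
  have b2 : (x - x⁻¹) / 2 = (x ^ 2 - 1) / (2 * x) := by field_simp
  simp only [a1, a2, a3, a4, a5, a7, a8, a9, a10, a11, a12]
  generalize Real.log (x ^ 2 - 1) = L
  rw [b2]
  field_simp
  ring

lemma KH_sinh {s : ℝ} (h0 : 0 < s) (h1 : s ≤ 1) : |1 / Real.sinh s - 1 / s| ≤ s := by
  have a := Real.exp_bound (x := s) (by rw [abs_of_pos h0]; exact h1) (n := 3) (by norm_num)
  have b := Real.exp_bound (x := -s) (by rw [abs_neg, abs_of_pos h0]; exact h1) (n := 3)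
    (by norm_num)
  simp only [Finset.sum_range_succ, Finset.sum_range_zero, Nat.factorial] at a b
  rw [abs_neg] at b
  rw [abs_of_pos h0] at a b
  have a' := abs_le.1 a
  have b' := abs_le.1 b
  obtain ⟨a1, a2⟩ := a'
  obtain ⟨b1, b2⟩ := b'
  norm_num at a1 a2 b1 b2
  have hs1 : Real.sinh s - s ≤ s ^ 3 := by
    rw [Real.sinh_eq]
    have : 0 < s ^ 3 := by positivity
    nlinarith
  have hs2 : s ≤ Real.sinh s := Real.self_le_sinh_iff.2 h0.le
  have hs : 0 < Real.sinh s := by linarith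
  have e : 1 / Real.sinh s - 1 / s = -((Real.sinh s - s) / (s * Real.sinh s)) := by
    field_simp
    ring
  rw [e, abs_neg, abs_of_nonneg (div_nonneg (by linarith) (by positivity)),
    div_le_iff₀ (by positivity)]
  have : s * (s * s) ≤ s * (s * Real.sinh s) := by gcongr
  nlinarith

lemma KH_z1 : Tendsto (fun τ => n3d τ - 2 / τ) (𝓝[>] 0) (𝓝 0) := by
  -- a continuous majorant part
  let F : ℝ → ℝ := fun τ => Real.sinh (τ / 2)
    + 3 * ((Real.exp (τ / 2) ^ 4 + Real.exp (τ / 2) ^ 2 + 1) / (2 * Real.exp (τ / 2) ^ 3))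
      * ((Real.exp τ - 1) * Real.log (Real.exp τ - 1))
    - 3 / 2 * τ * Real.exp (3 * τ / 2) + 2 * Real.sinh (τ / 2)
  have hF : Continuous F := by
    have h1 : Continuous fun τ : ℝ => (Real.exp τ - 1) * Real.log (Real.exp τ - 1) :=
      Real.continuous_mul_log.comp (Real.continuous_exp.sub continuous_const)
    have h2 : Continuous fun τ : ℝ =>
        (Real.exp (τ / 2) ^ 4 + Real.exp (τ / 2) ^ 2 + 1) / (2 * Real.exp (τ / 2) ^ 3) := by
      refine Continuous.div (by fun_prop) (by fun_prop) (fun τ => ?_)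
      have := Real.exp_pos (τ / 2)
      positivity
    have h3 : Continuous fun τ : ℝ => Real.sinh (τ / 2) :=
      Real.continuous_sinh.comp (continuous_id.div_const 2)
    exact ((h3.add ((continuous_const.mul h2).mul h1)).sub (by fun_prop)).add
      (continuous_const.mul h3)
  have hF0 : F 0 = 0 := by
    simp only [F]
    simp
  have hF' : Tendsto F (𝓝[>] 0) (𝓝 0) := by
    have := hF.tendsto 0
    rw [hF0] at this
    exact this.mono_left nhdsWithin_le_nhds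
  -- the remaining part
  have hG : Tendsto (fun τ : ℝ => 1 / Real.sinh (τ / 2) - 2 / τ) (𝓝[>] 0) (𝓝 0) := by
    rw [tendsto_zero_iff_abs_tendsto_zero]
    have hid : Tendsto (fun τ : ℝ => τ / 2) (𝓝[>] 0) (𝓝 0) := by
      have : Tendsto (fun τ : ℝ => τ / 2) (𝓝 0) (𝓝 (0 / 2)) :=
        (continuous_id.div_const 2).tendsto 0
      rw [zero_div] at this
      exact this.mono_left nhdsWithin_le_nhds
    refine tendsto_of_tendsto_of_tendsto_of_le_of_le' tendsto_const_nhds hid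
      (Eventually.of_forall fun τ => abs_nonneg _) ?_
    have hIoo : Ioo (0:ℝ) 1 ∈ 𝓝[>] (0:ℝ) := Ioo_mem_nhdsGT one_pos
    filter_upwards [hIoo] with τ hτ
    have h := KH_sinh (s := τ / 2) (by linarith [hτ.1]) (by linarith [hτ.2])
    have e : 2 / τ = 1 / (τ / 2) := by
      have := hτ.1.ne'
      field_simp
    simp only [Function.comp]
    rw [e]
    exact h
  have hsum := hF'.add hG
  rw [add_zero] at hsum
  refine hsum.congr' ?_
  filter_upwards [self_mem_nhdsWithin] with τ hτ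
  have h : (0:ℝ) < τ := hτ
  have hpos := KH_pos h
  simp only [F, n3d]
  obtain ⟨x, hx, a1, a2, a3, a4, a5, a6, a7, a8, a9, a10, a11, a12⟩ := KH_x τ
  have hx1 : 0 < x ^ 2 - 1 := by rw [← a5]; exact hpos
  have hx3 : x ^ 2 - 1 ≠ 0 := hx1.ne'
  have b2 : (x - x⁻¹) / 2 = (x ^ 2 - 1) / (2 * x) := by field_simp
  simp only [a1, a3, a5, a7, a9, a11]
  generalize Real.log (x ^ 2 - 1) = L
  rw [b2]
  field_simp
  ring

lemma KH_near : ∃ K, ∀ τ, 0 < τ → τ ≤ 1 → |n3 τ| ≤ K * (1 + |Real.log τ|) := by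
  refine ⟨60, fun τ h0 h1 => ?_⟩
  have hpos := KH_pos h0
  have he := Real.abs_exp_sub_one_sub_id_le (x := τ) (by rw [abs_of_pos h0]; exact h1)
  have he' := abs_le.1 he
  have hlo : τ ≤ Real.exp τ - 1 := by
    have := Real.add_one_le_exp τ
    linarith
  have hhi : Real.exp τ - 1 ≤ 2 * τ := by nlinarith [he'.2]
  have l1 : Real.log τ ≤ Real.log (Real.exp τ - 1) := Real.log_le_log h0 hlo
  have l2 : Real.log (Real.exp τ - 1) ≤ Real.log 2 + Real.log τ := by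
    rw [← Real.log_mul (by norm_num) h0.ne']
    exact Real.log_le_log hpos hhi
  have l3 : Real.log 2 ≤ 1 := by
    have := Real.log_le_sub_one_of_pos (show (0:ℝ) < 2 by norm_num)
    linarith
  have hL : |Real.log (Real.exp τ - 1)| ≤ |Real.log τ| + 1 := by
    rw [abs_le]
    have m1 := neg_abs_le (Real.log τ)
    have m2 := le_abs_self (Real.log τ)
    constructor <;> linarith
  unfold n3
  rw [KH_log h0]
  set L := Real.log (Real.exp τ - 1) with hLdef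
  have g1 : Real.exp (τ / 2) ≤ 3 := by
    have : Real.exp (τ / 2) ≤ Real.exp 1 := Real.exp_le_exp.2 (by linarith)
    linarith [Real.exp_one_lt_d9]
  have g2 : Real.exp (-τ / 2) ≤ 1 := by
    rw [← Real.exp_zero]; exact Real.exp_le_exp.2 (by linarith)
  have g3 : Real.exp (3 * τ / 2) ≤ 9 := by
    have : Real.exp (3 * τ / 2) ≤ Real.exp 2 := Real.exp_le_exp.2 (by linarith)
    have e2 : Real.exp 2 = Real.exp 1 * Real.exp 1 := by rw [← Real.exp_add]; norm_num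
    nlinarith [Real.exp_one_lt_d9, Real.exp_pos 1]
  have g4 : Real.exp (-3 * τ / 2) ≤ 1 := by
    rw [← Real.exp_zero]; exact Real.exp_le_exp.2 (by linarith)
  have p1 := Real.exp_pos (τ / 2)
  have p2 := Real.exp_pos (-τ / 2)
  have p3 := Real.exp_pos (3 * τ / 2)
  have p4 := Real.exp_pos (-3 * τ / 2)
  have hLt : |L - τ| ≤ |Real.log τ| + 2 := by
    calc |L - τ| ≤ |L| + |τ| := abs_sub _ _
      _ ≤ (|Real.log τ| + 1) + 1 := by rw [abs_of_pos h0]; linarith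
      _ = _ := by ring
  have t1 : |Real.exp (3 * τ / 2) * (L - τ)| ≤ 9 * (|Real.log τ| + 2) := by
    rw [abs_mul, abs_of_pos p3]
    exact mul_le_mul g3 hLt (abs_nonneg _) (by norm_num)
  have t2 : |Real.exp (-3 * τ / 2) * L| ≤ 1 * (|Real.log τ| + 1) := by
    rw [abs_mul, abs_of_pos p4]
    exact mul_le_mul g4 hL (abs_nonneg _) (by norm_num)
  have hab := abs_nonneg (Real.log τ)
  have t1' := abs_le.1 t1
  have t2' := abs_le.1 t2
  rw [abs_le]
  constructor <;> linarith [t1'.1, t1'.2, t2'.1, t2'.2]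

lemma KH_logv {v : ℝ} (h0 : 0 ≤ v) (h1 : v ≤ 1 / 2) : |v + Real.log (1 - v)| ≤ 2 * v ^ 2 := by
  have h := Real.abs_log_sub_add_sum_range_le (x := v) (by rw [abs_of_nonneg h0]; linarith) 1
  simp only [Finset.sum_range_one] at h
  norm_num at h
  rw [abs_of_nonneg h0] at h
  refine h.trans ?_
  rw [div_le_iff₀ (by linarith)]
  nlinarith [sq_nonneg v]

lemma KH_far : ∃ K, ∀ τ, 1 ≤ τ → |n3 τ| ≤ K ∧ |n3d τ| ≤ K := by
  refine ⟨20, fun τ h1 => ?_⟩
  have h0 : 0 < τ := by linarith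
  have hpos := KH_pos h0
  obtain ⟨x, hx, a1, a2, a3, a4, a5, a6, a7, a8, a9, a10, a11, a12⟩ := KH_x τ
  set y : ℝ := x⁻¹ with hy
  have hy0 : 0 < y := inv_pos.2 hx
  have hxy : x = y⁻¹ := by rw [hy, inv_inv]
  have hy2 : y ^ 2 = Real.exp (-τ) := by rw [a6, hy, inv_pow]
  have hyh : y ^ 2 ≤ 1 / 2 := by
    rw [hy2, Real.exp_neg]
    have : 2 ≤ Real.exp τ := by linarith [Real.add_one_le_exp τ]
    rw [one_div]
    exact inv_anti₀ (by norm_num) this
  have hy1 : y ≤ 1 := by nlinarith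
  have hτ : Real.log (Real.exp τ - 1) = τ + Real.log (1 - y ^ 2) := by
    rw [hy2, KH_log h0]; ring
  set l : ℝ := Real.log (1 - y ^ 2) with hl
  have b1 : |y ^ 2 + l| ≤ 2 * (y ^ 2) ^ 2 := KH_logv (by positivity) hyh
  have b2 : |l| ≤ 1 := by
    have := abs_le.1 b1
    rw [abs_le]
    constructor <;> nlinarith [this.1, this.2, sq_nonneg (y ^ 2), sq_nonneg y]
  have b3 : y ^ 2 * τ ≤ 1 := by
    rw [hy2, Real.exp_neg]
    have := Real.exp_pos τ
    rw [inv_mul_le_iff₀ this]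
    linarith [Real.add_one_le_exp τ]
  have c1 : |(y ^ 3)⁻¹ * (y ^ 2 + l)| ≤ 2 := by
    rw [abs_mul, abs_of_pos (by positivity : (0:ℝ) < (y ^ 3)⁻¹)]
    rw [inv_mul_le_iff₀ (by positivity)]
    refine b1.trans ?_
    have : 0 ≤ y ^ 3 := by positivity
    nlinarith
  have c2 : |y ^ 3 * (τ + l)| ≤ 2 := by
    rw [abs_mul, abs_of_pos (by positivity : (0:ℝ) < y ^ 3)]
    have q1 : |τ + l| ≤ τ + 1 := by
      calc |τ + l| ≤ |τ| + |l| := abs_add_le _ _
        _ ≤ τ + 1 := by rw [abs_of_pos h0]; linarith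
    calc y ^ 3 * |τ + l| ≤ y ^ 3 * (τ + 1) := by gcongr
      _ = y * (y ^ 2 * τ) + y ^ 3 := by ring
      _ ≤ 1 * 1 + 1 := by
        gcongr
        exact pow_le_one₀ hy0.le hy1
      _ = 2 := by norm_num
  have c1' := abs_le.1 c1
  have c2' := abs_le.1 c2
  constructor
  · have e : n3 τ = (y ^ 3)⁻¹ * (y ^ 2 + l) + y + y ^ 3 * (τ + l) := by
      unfold n3
      rw [hτ, KH_log h0, hτ, a1, a2, a3, a4, hxy]
      field_simp
      ring
    rw [e, abs_le]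
    constructor <;> linarith [c1'.1, c1'.2, c2'.1, c2'.2]
  · have hy12 : 0 < 1 - y ^ 2 := by linarith
    have hy12' : 1 - y ^ 2 ≠ 0 := hy12.ne'
    have e : n3d τ = 3 / 2 * ((y ^ 3)⁻¹ * (y ^ 2 + l)) - y / 2 - 3 / 2 * (y ^ 3 * (τ + l))
        + (y + y ^ 3) / (1 - y ^ 2) := by
      unfold n3d
      have b2 : (y⁻¹ - y) / 2 = (1 - y ^ 2) / (2 * y) := by field_simp
      rw [hτ, a7, a9, a3, a11, hxy, b2]
      field_simp
      ring
    have c3 : (y + y ^ 3) / (1 - y ^ 2) ≤ 4 := by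
      rw [div_le_iff₀ hy12]
      have : y ^ 3 ≤ 1 := pow_le_one₀ hy0.le hy1
      linarith
    have c4 : 0 ≤ (y + y ^ 3) / (1 - y ^ 2) := by positivity
    rw [e, abs_le]
    constructor <;> linarith [c1'.1, c1'.2, c2'.1, c2'.2]

theorem n3_kerN : KerN (3 / 2) n3 n3d where
  d1 := fun _ h => KH_d1 h
  d2 := fun _ h => KH_d2 h
  z1 := KH_z1
  near := KH_near
  far := KH_far

end Pool.Agent.H51.DG
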