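import Pool.Agent.H51.DG.NF
import Pool.Agent.H51.DG.NE
import Pool.Agent.H51.DG.KG
import Pool.Agent.H51.DG.KH
import Pool.Agent.H51.DG.KI

/-!
# DG2 job NG: the forms in difference form, and the line form is nonpositive

By `integral_th`, `ct_th`, `k3_exp` (off the diagonal, a null set) and
`Amd m b r + m * Am m b r = e^{-mr} b(th r) thd r`:
`b(th r) b(th s) k3(e^{-r},e^{-s}) thd r thd s = (Amd+3/2 Am)(r) (Amd + 3/2 Am)(s) n3|r-s|`.
Then `KerN.diff_formula` with `n3_kerN`, `n1_kerN`, `cross_formula` and `key_lemma`.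
`form_l1k_nonpos`: `= -2 ∫ Lpp DD ≤ 0` (`Lpp ≥ 0`, `DD ≥ 0`).
-/

set_option autoImplicit false
open Real Set MeasureTheory Filter Topology

namespace Pool.Agent.H51.DG

theorem NG_Am_eq (m : ℝ) (b : ℝ → ℝ) (r : ℝ) :
    Amd m b r + m * Am m b r = Real.exp (-(m * r)) * (b (th r) * thd r) := by
  unfold Amd; ring

theorem NG_diag_null : (volume : Measure (ℝ × ℝ)) {z | z.1 = z.2} = 0 := by
  rw [Measure.volume_eq_prod,
    Measure.measure_prod_null (measurableSet_eq_fun measurable_fst measurable_snd)]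
  refine ae_of_all _ fun x => ?_
  have : (Prod.mk x ⁻¹' {z : ℝ × ℝ | z.1 = z.2}) = {x} := by
    ext y; simp [eq_comm]
  change volume (Prod.mk x ⁻¹' {z : ℝ × ℝ | z.1 = z.2}) = 0
  rw [this]; simp

theorem NG_diag_ae : ∀ᵐ z : ℝ × ℝ, z.1 ≠ z.2 := by
  rw [ae_iff]
  simpa using NG_diag_null

theorem NG_Lpp_nonneg {τ : ℝ} : 0 ≤ Lpp τ := by
  unfold Lpp
  positivity

theorem NG_exp_split (m r s : ℝ) :
    Real.exp (-(m * (r + s))) = Real.exp (-(m * r)) * Real.exp (-(m * s)) := by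
  rw [← Real.exp_add]; congr 1; ring

/-- general conversion of a form to the logarithmic variables -/
theorem NG_conv {m : ℝ} {p q : ℝ → ℝ} {K : ℝ → ℝ → ℝ} {k : ℝ → ℝ → ℝ}
    (h : ∀ r s, r ≠ s → K (Real.exp (-r)) (Real.exp (-s)) =
      Real.exp (-(m * (r + s))) * k r s) :
    (fun z : ℝ × ℝ => (fun z : ℝ × ℝ => p z.1 * q z.2 * K (ct z.1) (ct z.2)) (th z.1, th z.2) *
      (thd z.1 * thd z.2)) =ᵐ[volume] fun z : ℝ × ℝ =>
      (Amd m p z.1 + m * Am m p z.1) * (Amd m q z.2 + m * Am m q z.2) * k z.1 z.2 := by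
  filter_upwards [NG_diag_ae] with z hz
  simp only [ct_th, h z.1 z.2 hz, NG_Am_eq, NG_exp_split]
  ring

theorem form_k3 {b : ℝ → ℝ} (hb : Bd b) : FInt b b k3 ∧ form b b k3 = - N3 b := by
  have hA : Adm (Am (3 / 2) b) (Amd (3 / 2) b) := adm_Am hb (by norm_num)
  have hc := NG_conv (m := 3 / 2) (p := b) (q := b) (K := k3) (k := fun r s => n3 |r - s|)
    (fun r s hrs => k3_exp hrs)
  constructor
  · unfold FInt
    rw [integrableOn_th_iff, integrable_congr hc]
    exact n3_kerN.integrable_prod hA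
  · unfold form N3
    rw [integral_th, integral_congr_ae hc, n3_kerN.diff_formula hA]
    ring

theorem form_l1k {b : ℝ → ℝ} (hb : Bd b) : FInt b b l1k ∧ form b b l1k ≤ 0 := by
  have hA : Adm (Am (1 / 2) b) (Amd (1 / 2) b) := adm_Am hb (by norm_num)
  have hc := NG_conv (m := 1 / 2) (p := b) (q := b) (K := l1k) (k := fun r s => n1 |r - s|)
    (fun r s hrs => l1k_exp hrs)
  constructor
  · unfold FInt
    rw [integrableOn_th_iff, integrable_congr hc]
    exact n1_kerN.integrable_prod hA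
  · unfold form
    rw [integral_th, integral_congr_ae hc, n1_kerN.diff_formula hA]
    have : 0 ≤ ∫ τ in Ioi (0:ℝ), Lpp τ * DD (Am (1 / 2) b) τ :=
      setIntegral_nonneg measurableSet_Ioi fun τ _ => mul_nonneg NG_Lpp_nonneg (DD_nonneg _ _)
    linarith

theorem form_rl0 {p q : ℝ → ℝ} (hp : Bd p) (hq : Bd q) : FInt p q rl0 ∧
    form p q rl0 = ∫ τ, ell τ * corr (Am (3 / 2) p) (Am (3 / 2) q) τ := by
  have hA : Adm (Am (3 / 2) p) (Amd (3 / 2) p) := adm_Am hp (by norm_num)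
  have hB : Adm (Am (3 / 2) q) (Amd (3 / 2) q) := adm_Am hq (by norm_num)
  have hc := NG_conv (m := 3 / 2) (p := p) (q := q) (K := rl0) (k := fun r s => pp (r - s))
    (fun r s _ => rl0_exp r s)
  constructor
  · unfold FInt
    rw [integrableOn_th_iff, integrable_congr hc]
    exact integrable_prod_pp hA hB
  · unfold form
    rw [integral_th, integral_congr_ae hc, cross_formula hA hB]

theorem N3_nonneg (b : ℝ → ℝ) : 0 ≤ N3 b := by
  unfold N3
  have : 0 ≤ ∫ τ in Ioi (0:ℝ), Lpp τ * DD (Am (3 / 2) b) τ :=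
    setIntegral_nonneg measurableSet_Ioi fun τ _ => mul_nonneg NG_Lpp_nonneg (DD_nonneg _ _)
  linarith

theorem line_form_nonpos {p q : ℝ → ℝ} (hp : Bd p) (hq : Bd q) :
    form p p k3 + form q q k3 + 2 * form p q rl0 ≤ 0 := by
  have hA : Adm (Am (3 / 2) p) (Amd (3 / 2) p) := adm_Am hp (by norm_num)
  have hB : Adm (Am (3 / 2) q) (Amd (3 / 2) q) := adm_Am hq (by norm_num)
  rw [(form_k3 hp).2, (form_k3 hq).2, (form_rl0 hp hq).2]
  have h := key_lemma hA hB (Am_nonneg hp (3 / 2)) (Am_nonneg hq (3 / 2))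
  unfold N3
  linarith

end Pool.Agent.H51.DG
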