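import Pool.Agent.H51.DG.St2

/-!
# DG2 job SA: the Hilbert transform of a Lipschitz function

`0 ≤ cos(s/2)/sin(s/2) ≤ 2/s` on `(0,π]` (`tan t ≥ t`), so the integrand of `HT W x` is bounded by
`4K`.  Log-Lipschitz bound (`0 < h = |x-y| ≤ 1`): for `s ≤ h` both integrands are bounded by `4K`
(total `8 K h`); for `s ≥ h` their difference is `≤ 2 K h * 2/s` (total `4 K h log(π/h)`); divide by
`2π`.  `UU W` has the derivative `HT W x` (fundamental theorem, `HT W` is continuous).
-/

set_option autoImplicit false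
open Real Set MeasureTheory Filter Topology

namespace Pool.Agent.H51.DG

private theorem SA_nonneg {K : ℝ} {W : ℝ → ℝ} (h : Lip K W) : 0 ≤ K := by
  have h1 := h 0 1
  have h2 := abs_nonneg (W 0 - W 1)
  have h3 : |(0:ℝ) - 1| = 1 := by norm_num
  rw [h3, mul_one] at h1
  linarith

theorem Lip.continuous {K : ℝ} {W : ℝ → ℝ} (h : Lip K W) : Continuous W := by
  have hK := SA_nonneg h
  have : LipschitzWith (Real.toNNReal K) W := by
    apply LipschitzWith.of_dist_le_mul
    intro x y
    rw [Real.dist_eq, Real.dist_eq, Real.coe_toNNReal K hK]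
    exact h x y
  exact this.continuous

theorem Lip.nonneg {K : ℝ} {W : ℝ → ℝ} (h : Lip K W) : 0 ≤ K := SA_nonneg h

theorem cot_le {s : ℝ} (h0 : 0 < s) (h1 : s ≤ π) :
    0 ≤ Real.cos (s / 2) / Real.sin (s / 2) ∧ Real.cos (s / 2) / Real.sin (s / 2) ≤ 2 / s := by
  have hs : 0 < Real.sin (s / 2) := Real.sin_pos_of_pos_of_lt_pi (by linarith) (by linarith [Real.pi_pos])
  have hc : 0 ≤ Real.cos (s / 2) := Real.cos_nonneg_of_neg_pi_div_two_le_of_le (by linarith [Real.pi_pos])
    (by linarith)
  refine ⟨div_nonneg hc hs.le, ?_⟩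
  rw [div_le_div_iff₀ hs h0]
  rcases h1.lt_or_eq with h2 | h2
  · have h3 := Real.lt_tan (x := s / 2) (by linarith) (by linarith)
    have hc' : 0 < Real.cos (s / 2) := Real.cos_pos_of_mem_Ioo ⟨by linarith [Real.pi_pos], by linarith⟩
    rw [Real.tan_eq_sin_div_cos, lt_div_iff₀ hc'] at h3
    nlinarith
  · have : Real.cos (s / 2) = 0 := by rw [h2]; exact Real.cos_pi_div_two
    rw [this]
    nlinarith

theorem HT_integrand_bound {K : ℝ} {W : ℝ → ℝ} (h : Lip K W) (x : ℝ) {s : ℝ} (h0 : 0 < s)
    (h1 : s ≤ π) :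
    |(W (x - s) - W (x + s)) * (Real.cos (s / 2) / Real.sin (s / 2))| ≤ 4 * K := by
  obtain ⟨hc0, hc1⟩ := cot_le h0 h1
  have hK := h.nonneg
  rw [abs_mul, abs_of_nonneg hc0]
  have h2 : |W (x - s) - W (x + s)| ≤ K * (2 * s) := by
    have := h (x - s) (x + s)
    have e : |x - s - (x + s)| = 2 * s := by
      rw [show x - s - (x + s) = -(2 * s) by ring, abs_neg, abs_of_pos (by linarith)]
    rwa [e] at this
  calc |W (x - s) - W (x + s)| * (Real.cos (s / 2) / Real.sin (s / 2))
      ≤ (K * (2 * s)) * (2 / s) := mul_le_mul h2 hc1 hc0 (by positivity)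
    _ = 4 * K := by field_simp; ring

private theorem SA_meas {K : ℝ} {W : ℝ → ℝ} (h : Lip K W) (x : ℝ) :
    Measurable (fun s => (W (x - s) - W (x + s)) * (Real.cos (s / 2) / Real.sin (s / 2))) := by
  have hW : Measurable W := h.continuous.measurable
  refine Measurable.mul (Measurable.sub ?_ ?_) (Measurable.div ?_ ?_)
  · exact hW.comp (by fun_prop)
  · exact hW.comp (by fun_prop)
  · exact (by fun_prop : Continuous fun s : ℝ => Real.cos (s / 2)).measurable
  · exact (by fun_prop : Continuous fun s : ℝ => Real.sin (s / 2)).measurable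

theorem HT_integrable {K : ℝ} {W : ℝ → ℝ} (h : Lip K W) (x : ℝ) :
    IntervalIntegrable (fun s => (W (x - s) - W (x + s)) * (Real.cos (s / 2) / Real.sin (s / 2)))
      volume 0 π := by
  rw [intervalIntegrable_iff_integrableOn_Ioc_of_le Real.pi_pos.le]
  refine MeasureTheory.Measure.integrableOn_of_bounded (M := 4 * K) (by simp)
    (SA_meas h x).aestronglyMeasurable ?_
  rw [MeasureTheory.ae_restrict_iff' measurableSet_Ioc]
  exact Filter.Eventually.of_forall fun s hs => by
    rw [Real.norm_eq_abs]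
    exact HT_integrand_bound h x hs.1 hs.2

theorem abs_HT_le {K : ℝ} {W : ℝ → ℝ} (h : Lip K W) (x : ℝ) : |HT W x| ≤ 2 * K := by
  unfold HT
  have h1 : |∫ s in (0:ℝ)..π, (W (x - s) - W (x + s)) * (Real.cos (s / 2) / Real.sin (s / 2))| ≤
      4 * K * |π - 0| := by
    have := intervalIntegral.norm_integral_le_of_norm_le_const (a := (0:ℝ)) (b := π) (C := 4 * K)
      (f := fun s => (W (x - s) - W (x + s)) * (Real.cos (s / 2) / Real.sin (s / 2))) ?_
    · rwa [Real.norm_eq_abs] at this
    · intro s hs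
      rw [Set.uIoc_of_le Real.pi_pos.le] at hs
      rw [Real.norm_eq_abs]
      exact HT_integrand_bound h x hs.1 hs.2
  rw [sub_zero, abs_of_pos Real.pi_pos] at h1
  rw [abs_mul, abs_of_pos (by positivity : (0:ℝ) < 1 / (2 * π))]
  calc 1 / (2 * π) * _ ≤ 1 / (2 * π) * (4 * K * π) := by
        apply mul_le_mul_of_nonneg_left h1 (by positivity)
    _ = 2 * K := by field_simp; ring

theorem HT_logLip {K : ℝ} {W : ℝ → ℝ} (h : Lip K W) {x y : ℝ} (h0 : 0 < |x - y|)
    (h1 : |x - y| ≤ 1) :
    |HT W x - HT W y| ≤ 4 * K * |x - y| * (1 + |Real.log (|x - y|)|) := by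
  have hK := h.nonneg
  set d := |x - y| with hd
  set f : ℝ → ℝ := fun s => (W (x - s) - W (x + s)) * (Real.cos (s / 2) / Real.sin (s / 2)) with hf
  set g : ℝ → ℝ := fun s => (W (y - s) - W (y + s)) * (Real.cos (s / 2) / Real.sin (s / 2)) with hg
  have hfi : IntervalIntegrable f volume 0 π := HT_integrable h x
  have hgi : IntervalIntegrable g volume 0 π := HT_integrable h y
  have hpi := Real.pi_gt_three
  have hdpi : d ≤ π := by linarith
  have hfg : IntervalIntegrable (fun s => f s - g s) volume 0 π := hfi.sub hgi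
  have e1 : HT W x - HT W y = 1 / (2 * π) * ((∫ s in (0:ℝ)..d, (f s - g s)) +
      ∫ s in d..π, (f s - g s)) := by
    rw [intervalIntegral.integral_add_adjacent_intervals
      (hfg.mono_set (by rw [Set.uIcc_of_le h0.le, Set.uIcc_of_le Real.pi_pos.le]; exact Icc_subset_Icc le_rfl hdpi))
      (hfg.mono_set (by rw [Set.uIcc_of_le hdpi, Set.uIcc_of_le Real.pi_pos.le]; exact Icc_subset_Icc h0.le le_rfl)),
      intervalIntegral.integral_sub hfi hgi]
    unfold HT
    ring
  have b1 : |∫ s in (0:ℝ)..d, (f s - g s)| ≤ 8 * K * d := by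
    have := intervalIntegral.norm_integral_le_of_norm_le_const (a := (0:ℝ)) (b := d) (C := 8 * K)
      (f := fun s => f s - g s) ?_
    · rwa [Real.norm_eq_abs, sub_zero, abs_of_pos h0] at this
    · intro s hs
      rw [Set.uIoc_of_le h0.le] at hs
      rw [Real.norm_eq_abs]
      have a1 : |f s| ≤ 4 * K := HT_integrand_bound h x hs.1 (hs.2.trans hdpi)
      have a2 : |g s| ≤ 4 * K := HT_integrand_bound h y hs.1 (hs.2.trans hdpi)
      have a3 := abs_sub (f s) (g s)
      linarith
  have b2 : |∫ s in d..π, (f s - g s)| ≤ 4 * K * d * (Real.log π - Real.log d) := by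
    have hint : ∫ s in d..π, (4 * K * d) * s⁻¹ = 4 * K * d * (Real.log π - Real.log d) := by
      rw [intervalIntegral.integral_const_mul, integral_inv_of_pos h0 Real.pi_pos,
        Real.log_div Real.pi_pos.ne' h0.ne']
    rw [← hint, ← Real.norm_eq_abs]
    apply intervalIntegral.norm_integral_le_of_norm_le hdpi
    · refine Filter.Eventually.of_forall fun s hs => ?_
      have hs0 : 0 < s := h0.trans hs.1
      obtain ⟨hc0, hc1⟩ := cot_le hs0 hs.2
      rw [Real.norm_eq_abs]
      have e2 : f s - g s = ((W (x - s) - W (y - s)) - (W (x + s) - W (y + s))) *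
          (Real.cos (s / 2) / Real.sin (s / 2)) := by
        rw [hf, hg]; ring
      rw [e2, abs_mul, abs_of_nonneg hc0]
      have c1 : |W (x - s) - W (y - s)| ≤ K * d := by
        have := h (x - s) (y - s)
        rwa [show x - s - (y - s) = x - y by ring] at this
      have c2 : |W (x + s) - W (y + s)| ≤ K * d := by
        have := h (x + s) (y + s)
        rwa [show x + s - (y + s) = x - y by ring] at this
      have c3 := abs_sub (W (x - s) - W (y - s)) (W (x + s) - W (y + s))
      calc _ ≤ (2 * K * d) * (2 / s) := by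
            apply mul_le_mul _ hc1 hc0 (by positivity)
            linarith
        _ = 4 * K * d * s⁻¹ := by field_simp; ring
    · apply ContinuousOn.intervalIntegrable
      intro s hs
      rw [Set.uIcc_of_le hdpi] at hs
      have hs0 : s ≠ 0 := (h0.trans_le hs.1).ne'
      exact (ContinuousAt.mul continuousAt_const (continuousAt_inv₀ hs0)).continuousWithinAt
  have hlogd : Real.log d ≤ 0 := Real.log_nonpos h0.le h1
  have habs : |Real.log d| = -Real.log d := abs_of_nonpos hlogd
  have hlogpi : Real.log π ≤ π - 1 := Real.log_le_sub_one_of_pos Real.pi_pos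
  rw [e1, abs_mul, abs_of_pos (by positivity : (0:ℝ) < 1 / (2 * π)), habs]
  have b3 := abs_add_le (∫ s in (0:ℝ)..d, (f s - g s)) (∫ s in d..π, (f s - g s))
  have hKd : 0 ≤ K * d := mul_nonneg hK h0.le
  rw [one_div, inv_mul_le_iff₀ (by positivity)]
  have hpi4 := Real.pi_lt_d2
  have b4 : 8 * K * d + 4 * K * d * (Real.log π - Real.log d) ≤
      2 * π * (4 * K * d * (1 + -Real.log d)) := by
    have k1 : 0 ≤ K * d * (8 * π - 8 - 4 * Real.log π) := by
      apply mul_nonneg hKd
      linarith
    have k2 : 0 ≤ K * d * ((8 * π - 4) * (-Real.log d)) := by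
      apply mul_nonneg hKd
      apply mul_nonneg <;> linarith
    nlinarith
  linarith

theorem continuous_HT {K : ℝ} {W : ℝ → ℝ} (h : Lip K W) : Continuous (HT W) := by
  have h1 : Continuous fun x => ∫ s in (0:ℝ)..π,
      (W (x - s) - W (x + s)) * (Real.cos (s / 2) / Real.sin (s / 2)) := by
    apply intervalIntegral.continuous_of_dominated_interval (bound := fun _ => 4 * K)
    · intro x
      exact (SA_meas h x).aestronglyMeasurable
    · intro x
      refine Filter.Eventually.of_forall fun s hs => ?_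
      rw [Set.uIoc_of_le Real.pi_pos.le] at hs
      rw [Real.norm_eq_abs]
      exact HT_integrand_bound h x hs.1 hs.2
    · exact intervalIntegrable_const
    · refine Filter.Eventually.of_forall fun s hs => ?_
      have hW := h.continuous
      fun_prop
  unfold HT
  exact continuous_const.mul h1

theorem hasDerivAt_UU {K : ℝ} {W : ℝ → ℝ} (h : Lip K W) (x : ℝ) :
    HasDerivAt (UU W) (HT W x) x := by
  have hc := continuous_HT h
  unfold UU
  exact intervalIntegral.integral_hasDerivAt_right (hc.intervalIntegrable _ _)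
    (hc.stronglyMeasurableAtFilter _ _) hc.continuousAt

private theorem SA_mono {t r : ℝ} (h0 : 0 < t) (h1 : t ≤ r) (h2 : r ≤ 1) :
    t * (1 + |Real.log t|) ≤ r * (1 + |Real.log r|) := by
  have hr : 0 < r := h0.trans_le h1
  have l1 : Real.log t ≤ 0 := Real.log_nonpos h0.le (h1.trans h2)
  have l2 : Real.log r ≤ 0 := Real.log_nonpos hr.le h2
  rw [abs_of_nonpos l1, abs_of_nonpos l2]
  have l3 : Real.log (r / t) ≤ r / t - 1 := Real.log_le_sub_one_of_pos (by positivity)
  rw [Real.log_div hr.ne' h0.ne'] at l3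
  have l4 : t * (Real.log r - Real.log t) ≤ t * (r / t - 1) := mul_le_mul_of_nonneg_left l3 h0.le
  have l5 : t * (r / t - 1) = r - t := by field_simp
  rw [l5] at l4
  nlinarith [mul_nonneg (sub_nonneg.mpr h1) (neg_nonneg.mpr l2)]

/-- near the base zero: `|UU W x - x HT W x| ≤ ∫_0^x |HT W y - HT W x| dy` -/
theorem UU_near {K : ℝ} {W : ℝ → ℝ} (h : Lip K W) {x : ℝ} (h0 : 0 < |x|) (h1 : |x| ≤ 1) :
    |UU W x - x * HT W x| ≤ 8 * K * x ^ 2 * (1 + |Real.log (|x|)|) := by
  have hc := continuous_HT h
  have hK := h.nonneg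
  have e1 : UU W x - x * HT W x = ∫ y in (0:ℝ)..x, (HT W y - HT W x) := by
    rw [intervalIntegral.integral_sub (hc.intervalIntegrable _ _) intervalIntegrable_const,
      intervalIntegral.integral_const]
    unfold UU
    simp [smul_eq_mul]
  have hlog : Real.log (|x|) ≤ 0 := Real.log_nonpos h0.le h1
  have habs : |Real.log (|x|)| = -Real.log (|x|) := abs_of_nonpos hlog
  have hC : 0 ≤ 4 * K * |x| * (1 + |Real.log (|x|)|) := by positivity
  rw [e1]
  have b1 := intervalIntegral.norm_integral_le_of_norm_le_const (a := (0:ℝ)) (b := x)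
    (C := 4 * K * |x| * (1 + |Real.log (|x|)|)) (f := fun y => HT W y - HT W x) ?_
  · rw [Real.norm_eq_abs, sub_zero] at b1
    have hx2 : |x| * |x| = x ^ 2 := by rw [← abs_mul, ← sq, abs_of_nonneg (sq_nonneg x)]
    have e2 : 4 * K * |x| * (1 + |Real.log (|x|)|) * |x| =
        4 * K * x ^ 2 * (1 + |Real.log (|x|)|) := by rw [← hx2]; ring
    rw [e2] at b1
    have : 0 ≤ K * x ^ 2 * (1 + |Real.log (|x|)|) := by positivity
    linarith
  · intro y hy
    rw [Real.norm_eq_abs]
    by_cases hyx : y = x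
    · rw [hyx, sub_self, abs_zero]; exact hC
    · have hd0 : 0 < |y - x| := abs_pos.mpr (sub_ne_zero.mpr hyx)
      have hd1 : |y - x| ≤ |x| := by
        rcases le_total 0 x with hx | hx
        · rw [Set.uIoc_of_le hx] at hy
          rw [abs_of_nonneg hx, abs_le]
          constructor <;> linarith [hy.1, hy.2]
        · rw [Set.uIoc_of_ge hx] at hy
          rw [abs_of_nonpos hx, abs_le]
          constructor <;> linarith [hy.1, hy.2]
      have b2 := HT_logLip h hd0 (hd1.trans h1)
      have b3 := SA_mono hd0 hd1 h1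
      have : |y - x| * (1 + |Real.log (|y - x|)|) ≤ |x| * (1 + |Real.log (|x|)|) := b3
      calc |HT W y - HT W x| ≤ 4 * K * |y - x| * (1 + |Real.log (|y - x|)|) := b2
        _ = 4 * K * (|y - x| * (1 + |Real.log (|y - x|)|)) := by ring
        _ ≤ 4 * K * (|x| * (1 + |Real.log (|x|)|)) := mul_le_mul_of_nonneg_left this (by positivity)
        _ = _ := by ring

end Pool.Agent.H51.DG
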