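import Pool.Agent.H51.DG.St2

/-!
# DG2 job SF: folding of integrals

`(0,2π)²` is, up to a null set (`x = π` or `y = π`), the disjoint union of `(0,π)²`,
`(π,2π)×(0,π)`, `(0,π)×(π,2π)`, `(π,2π)²`; substitute `x ↦ 2π - x` and/or `y ↦ 2π - y`
(measure preserving, `MeasurePreserving.setIntegral_preimage_emb` etc.).
-/

set_option autoImplicit false
open Real Set MeasureTheory Filter Topology

namespace Pool.Agent.H51.DG

/-- folding along a measure preserving map -/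
private theorem SF_gen {X : Type*} [MeasurableSpace X] {μ : Measure X} {R : X → X}
    (h1 : MeasurePreserving R μ μ) (h2 : MeasurableEmbedding R) {S S1 S2 : Set X}
    (hS : S =ᵐ[μ] (S1 ∪ S2 : Set X)) (hd : Disjoint S1 S2) (hm : MeasurableSet S2)
    (hR : R ⁻¹' S2 = S1) {f : X → ℝ} (hf : IntegrableOn f S μ) :
    IntegrableOn (fun z => f z + f (R z)) S1 μ ∧
    ∫ z in S, f z ∂μ = ∫ z in S1, (f z + f (R z)) ∂μ := by
  have hf' : IntegrableOn f (S1 ∪ S2) μ := hf.congr_set_ae hS.symm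
  have i1 : IntegrableOn f S1 μ := hf'.mono_set subset_union_left
  have i2 : IntegrableOn f S2 μ := hf'.mono_set subset_union_right
  have i3 : IntegrableOn (f ∘ R) S1 μ := by
    rw [← hR]
    exact (h1.integrableOn_comp_preimage h2).2 i2
  refine ⟨i1.add i3, ?_⟩
  have e1 : ∫ z in S, f z ∂μ = (∫ z in S1, f z ∂μ) + ∫ z in S2, f z ∂μ := by
    rw [setIntegral_congr_set hS, setIntegral_union hd hm i1 i2]
  have e2 : ∫ z in S1, f (R z) ∂μ = ∫ z in S2, f z ∂μ := by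
    rw [← hR]
    exact h1.setIntegral_preimage_emb h2 f S2
  rw [e1, ← e2]
  exact (integral_add i1 i3).symm

private theorem SF_mp : MeasurePreserving (fun x : ℝ => 2 * π - x) volume volume :=
  Measure.measurePreserving_sub_left volume (2 * π)

private theorem SF_me : MeasurableEmbedding (fun x : ℝ => 2 * π - x) :=
  (MeasurableEquiv.subLeft (2 * π)).measurableEmbedding

private theorem SF_pre : (fun x : ℝ => 2 * π - x) ⁻¹' Ioo π (2 * π) = Ioo 0 π := by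
  ext x
  constructor
  · rintro ⟨h1, h2⟩
    exact ⟨by linarith, by linarith⟩
  · rintro ⟨h1, h2⟩
    exact ⟨by linarith, by linarith⟩

private theorem SF_disj : Disjoint (Ioo (0:ℝ) π) (Ioo π (2 * π)) :=
  Set.disjoint_left.2 fun _ h1 h2 => absurd (h1.2.trans h2.1) (lt_irrefl _)

private theorem SF_ae : (Ioo (0:ℝ) (2 * π)) =ᵐ[volume] (Ioo (0:ℝ) π ∪ Ioo π (2 * π) : Set ℝ) := by
  have hpi := Real.pi_pos
  have h1 : Ioo (0:ℝ) (2 * π) = Ioo 0 π ∪ Ico π (2 * π) :=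
    (Ioo_union_Ico_eq_Ioo hpi (by linarith)).symm
  rw [h1]
  exact (ae_eq_refl _).union Ioo_ae_eq_Ico.symm

theorem fold_integral {h : ℝ → ℝ → ℝ} (hi : IntegrableOn (fun z : ℝ × ℝ => h z.1 z.2) Sq2) :
    IntegrableOn (fun z : ℝ × ℝ => fold4 h z.1 z.2) Sq1 ∧
    ∫ z in Sq2, h z.1 z.2 = ∫ z in Sq1, fold4 h z.1 z.2 := by
  -- first coordinate
  have a1 : MeasurePreserving (Prod.map (fun x : ℝ => 2 * π - x) (id : ℝ → ℝ)) volume volume :=
    SF_mp.prod (MeasurePreserving.id volume)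
  have a2 : MeasurableEmbedding (Prod.map (fun x : ℝ => 2 * π - x) (id : ℝ → ℝ)) :=
    SF_me.prodMap MeasurableEmbedding.id
  have a3 : Sq2 =ᵐ[volume] ((Ioo (0:ℝ) π ×ˢ Ioo (0:ℝ) (2 * π)) ∪
      (Ioo π (2 * π) ×ˢ Ioo (0:ℝ) (2 * π)) : Set (ℝ × ℝ)) := by
    rw [← Set.union_prod]
    exact Measure.set_prod_ae_eq SF_ae (ae_eq_refl _)
  have a4 : Disjoint (Ioo (0:ℝ) π ×ˢ Ioo (0:ℝ) (2 * π)) (Ioo π (2 * π) ×ˢ Ioo (0:ℝ) (2 * π)) :=
    Set.disjoint_prod.2 (Or.inl SF_disj)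
  have a5 : Prod.map (fun x : ℝ => 2 * π - x) (id : ℝ → ℝ) ⁻¹'
      (Ioo π (2 * π) ×ˢ Ioo (0:ℝ) (2 * π)) = Ioo (0:ℝ) π ×ˢ Ioo (0:ℝ) (2 * π) := by
    rw [Set.preimage_prod_map_prod, SF_pre, Set.preimage_id]
  obtain ⟨b1, b2⟩ := SF_gen a1 a2 a3 a4 (measurableSet_Ioo.prod measurableSet_Ioo) a5 hi
  -- second coordinate
  have c1 : MeasurePreserving (Prod.map (id : ℝ → ℝ) (fun x : ℝ => 2 * π - x)) volume volume :=
    (MeasurePreserving.id volume).prod SF_mp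
  have c2 : MeasurableEmbedding (Prod.map (id : ℝ → ℝ) (fun x : ℝ => 2 * π - x)) :=
    MeasurableEmbedding.id.prodMap SF_me
  have c3 : (Ioo (0:ℝ) π ×ˢ Ioo (0:ℝ) (2 * π) : Set (ℝ × ℝ)) =ᵐ[volume]
      ((Ioo (0:ℝ) π ×ˢ Ioo (0:ℝ) π) ∪ (Ioo (0:ℝ) π ×ˢ Ioo π (2 * π)) : Set (ℝ × ℝ)) := by
    rw [← Set.prod_union]
    exact Measure.set_prod_ae_eq (ae_eq_refl _) SF_ae
  have c4 : Disjoint (Ioo (0:ℝ) π ×ˢ Ioo (0:ℝ) π) (Ioo (0:ℝ) π ×ˢ Ioo π (2 * π)) :=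
    Set.disjoint_prod.2 (Or.inr SF_disj)
  have c5 : Prod.map (id : ℝ → ℝ) (fun x : ℝ => 2 * π - x) ⁻¹'
      (Ioo (0:ℝ) π ×ˢ Ioo π (2 * π)) = Ioo (0:ℝ) π ×ˢ Ioo (0:ℝ) π := by
    rw [Set.preimage_prod_map_prod, SF_pre, Set.preimage_id]
  obtain ⟨d1, d2⟩ := SF_gen c1 c2 c3 c4 (measurableSet_Ioo.prod measurableSet_Ioo) c5 b1
  have e : ∀ z : ℝ × ℝ, (h z.1 z.2 + h (2 * π - z.1) z.2) +
      (h z.1 (2 * π - z.2) + h (2 * π - z.1) (2 * π - z.2)) = fold4 h z.1 z.2 := by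
    intro z
    unfold fold4
    ring
  have e' : (fun z : ℝ × ℝ => fold4 h z.1 z.2) = fun z : ℝ × ℝ =>
      (h z.1 z.2 + h (2 * π - z.1) z.2) +
      (h z.1 (2 * π - z.2) + h (2 * π - z.1) (2 * π - z.2)) := (funext e).symm
  rw [e']
  exact ⟨d1, b2.trans d2⟩

theorem fold_interval {f : ℝ → ℝ} (hf : IntervalIntegrable f volume 0 (2 * π)) :
    IntervalIntegrable (fun x => f x + f (2 * π - x)) volume 0 π ∧
    ∫ x in (0:ℝ)..(2 * π), f x = ∫ x in (0:ℝ)..π, (f x + f (2 * π - x)) := by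
  have hpi := Real.pi_pos
  have h2pi : (0:ℝ) ≤ 2 * π := by linarith
  rw [intervalIntegrable_iff_integrableOn_Ioo_of_le h2pi] at hf
  obtain ⟨h1, h2⟩ := SF_gen SF_mp SF_me SF_ae SF_disj measurableSet_Ioo SF_pre hf
  rw [intervalIntegrable_iff_integrableOn_Ioo_of_le hpi.le,
    intervalIntegral.integral_of_le h2pi, intervalIntegral.integral_of_le hpi.le,
    integral_Ioc_eq_integral_Ioo, integral_Ioc_eq_integral_Ioo]
  exact ⟨h1, h2⟩

/-- integrals of products over the square -/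
theorem prod_Sq1 {f g : ℝ → ℝ} (hf : IntegrableOn f (Ioo (0:ℝ) π)) (hg : IntegrableOn g (Ioo (0:ℝ) π)) :
    IntegrableOn (fun z : ℝ × ℝ => f z.1 * g z.2) Sq1 ∧
    ∫ z in Sq1, f z.1 * g z.2 = (∫ x in (0:ℝ)..π, f x) * ∫ x in (0:ℝ)..π, g x := by
  have hpi := Real.pi_pos
  constructor
  · unfold Sq1
    rw [IntegrableOn, Measure.volume_eq_prod, ← Measure.prod_restrict]
    exact Integrable.mul_prod hf hg
  · rw [intervalIntegral.integral_of_le hpi.le, intervalIntegral.integral_of_le hpi.le,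
      integral_Ioc_eq_integral_Ioo, integral_Ioc_eq_integral_Ioo]
    exact setIntegral_prod_mul f g _ _

/-- the diagonal and the lines `x = l`, `y = l` are null sets -/
theorem ae_off (l : ℝ) :
    ∀ᵐ z : ℝ × ℝ ∂(volume.restrict Sq1), z ∈ Sq1 ∧ z.1 ≠ z.2 ∧ z.1 ≠ l ∧ z.2 ≠ l := by
  have hne : ∀ᵐ x : ℝ, x ≠ l := compl_mem_ae_iff.2 (measure_singleton l)
  have h1 : ∀ᵐ z : ℝ × ℝ, z.1 ≠ l :=
    (Measure.quasiMeasurePreserving_fst (μ := (volume : Measure ℝ))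
      (ν := (volume : Measure ℝ))).ae hne
  have h2 : ∀ᵐ z : ℝ × ℝ, z.2 ≠ l :=
    (Measure.quasiMeasurePreserving_snd (μ := (volume : Measure ℝ))
      (ν := (volume : Measure ℝ))).ae hne
  have h3 : ∀ᵐ z : ℝ × ℝ, z.1 ≠ z.2 := by
    have hm : MeasurableSet {z : ℝ × ℝ | z.1 = z.2} :=
      measurableSet_eq_fun measurable_fst measurable_snd
    have h4 : (volume : Measure (ℝ × ℝ)) {z : ℝ × ℝ | z.1 = z.2} = 0 := by
      rw [Measure.volume_eq_prod, Measure.measure_prod_null hm]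
      refine Filter.Eventually.of_forall fun x => ?_
      have h5 : Prod.mk x ⁻¹' {z : ℝ × ℝ | z.1 = z.2} = {x} := by
        ext y
        exact ⟨fun h => (h : x = y).symm, fun h => ((h : y = x).symm : x = y)⟩
      show volume (Prod.mk x ⁻¹' {z : ℝ × ℝ | z.1 = z.2}) = 0
      rw [h5]
      exact measure_singleton x
    exact compl_mem_ae_iff.2 h4
  have hmS : MeasurableSet Sq1 := measurableSet_Ioo.prod measurableSet_Ioo
  filter_upwards [ae_restrict_mem hmS, ae_restrict_of_ae h1, ae_restrict_of_ae h2,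
    ae_restrict_of_ae h3] with z g0 g1 g2 g3
  exact ⟨g0, g3, g1, g2⟩

end Pool.Agent.H51.DG
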