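import Pool.Agent.H51.DG.Ker

/-!
# DG2 job KD: R-near kernel with the energy kernel, bound of `psi`

`rnk Y z + Y + z + ek Y z - rl0 Y z = (4Yz-2)/(Y+z) - Y log(1+z/Y) - z log(1+Y/z)
   + 4 [(Yz-1)(1+Y²)(1+z²) - Y³z³]/(Y+z)³` (algebra); the logarithms are `≥ 0`.
If `Yz ≤ 1` the last bracket is `≤ 0`.  If `Yz ≥ 1` the bracket is
`Yz + Y³z + Yz³ - 1 - Y² - z² - Y²z² ≤ Yz (1+Y²+z²)` and
`(Y+z)³ ≥ (Y+z)(Y²+z²+2) ≥ (Y+z)(1+Y²+z²)`, so it contributes `≤ 4Yz/(Y+z)`.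

`psi Y ≤ 1 + Y`: for `Y ≥ 1` use `log(1+s) ≤ s`, `s = 1/Y²`: `psi Y ≤ (Y+1/Y)/2 ≤ Y`; for `Y ≤ 1`
use `log(1+s) ≤ √s` (`s ≥ 0`; e.g. `log(1+s) = 2 log √(1+s) ≤ ...` or from
`1 + s ≤ exp √s`, since `exp x ≥ 1 + x + x²/2 + x³/6 ≥ 1 + x²` for all `x ≥ 0`).
-/

set_option autoImplicit false
open Real Set MeasureTheory

namespace Pool.Agent.H51.DG

theorem rnk_ek_le {Y z : ℝ} (hY : 0 < Y) (hz : 0 < z) :
    rnk Y z + Y + z + ek Y z ≤ rl0 Y z + 8 * (Y * z / (Y + z)) := by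
  have hs : 0 < Y + z := by linarith
  have hL1 : 0 ≤ Real.log (1 + z / Y) := by
    apply Real.log_nonneg
    have : 0 < z / Y := by positivity
    linarith
  have hL2 : 0 ≤ Real.log (1 + Y / z) := by
    apply Real.log_nonneg
    have : 0 < Y / z := by positivity
    linarith
  have hYL : 0 ≤ Y * Real.log (1 + z / Y) := mul_nonneg hY.le hL1
  have hzL : 0 ≤ z * Real.log (1 + Y / z) := mul_nonneg hz.le hL2
  have key : rl0 Y z + 8 * (Y * z / (Y + z)) - (rnk Y z + Y + z + ek Y z) =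
      Y * Real.log (1 + z / Y) + z * Real.log (1 + Y / z) +
        (12 * Y ^ 2 * z ^ 2 + 6 * Y ^ 2 + 6 * z ^ 2 + 4) / (Y + z) ^ 3 := by
    unfold rl0 rnk ek
    generalize Real.log (1 + z / Y) = L1
    generalize Real.log (1 + Y / z) = L2
    field_simp
    ring
  have hq : 0 ≤ (12 * Y ^ 2 * z ^ 2 + 6 * Y ^ 2 + 6 * z ^ 2 + 4) / (Y + z) ^ 3 := by
    positivity
  linarith

theorem psi_nonneg {Y : ℝ} (hY : 0 ≤ Y) : 0 ≤ psi Y := by
  unfold psi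
  have hL : 0 ≤ Real.log (1 + 1 / Y ^ 2) := by
    apply Real.log_nonneg
    have : 0 ≤ 1 / Y ^ 2 := by positivity
    linarith
  have : 0 ≤ Y * (1 + Y ^ 2) := by positivity
  have := mul_nonneg this hL
  linarith

theorem KD_exp {t : ℝ} (ht : 0 ≤ t) : 1 + t ^ 2 ≤ Real.exp t := by
  have h := Real.sum_le_exp_of_nonneg ht 4
  simp only [Finset.sum_range_succ, Finset.sum_range_zero, Nat.factorial] at h
  norm_num at h
  nlinarith [mul_nonneg ht (sq_nonneg (t - 3 / 2)), h, ht]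

theorem KD_log {Y : ℝ} (hY : 0 < Y) : Real.log (1 + 1 / Y ^ 2) ≤ 1 / Y := by
  have ht : 0 < 1 / Y := by positivity
  have h2 : 1 + 1 / Y ^ 2 ≤ Real.exp (1 / Y) := by
    have e1 : 1 / Y ^ 2 = (1 / Y) ^ 2 := by field_simp
    rw [e1]
    exact KD_exp ht.le
  have hpos : 0 < 1 + 1 / Y ^ 2 := by positivity
  calc Real.log (1 + 1 / Y ^ 2) ≤ Real.log (Real.exp (1 / Y)) := Real.log_le_log hpos h2
    _ = 1 / Y := Real.log_exp _

theorem psi_le {Y : ℝ} (hY : 0 ≤ Y) : psi Y ≤ 1 + Y := by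
  rcases hY.eq_or_lt with h0 | hpos
  · subst h0
    simp [psi]
  have hpp : 0 ≤ Y * (1 + Y ^ 2) := by positivity
  rcases le_total Y 1 with h1 | h1
  · have hl := mul_le_mul_of_nonneg_left (KD_log hpos) hpp
    have he : Y * (1 + Y ^ 2) * (1 / Y) = 1 + Y ^ 2 := by field_simp
    rw [he] at hl
    unfold psi
    nlinarith
  · have hl0 : Real.log (1 + 1 / Y ^ 2) ≤ 1 / Y ^ 2 := by
      have h3 : (0:ℝ) < 1 + 1 / Y ^ 2 := by positivity
      have := Real.log_le_sub_one_of_pos h3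
      linarith
    have hl := mul_le_mul_of_nonneg_left hl0 hpp
    have he : Y * (1 + Y ^ 2) * (1 / Y ^ 2) = 1 / Y + Y := by field_simp
    rw [he] at hl
    have h4 : 1 / Y ≤ 1 := by
      rw [div_le_one hpos]
      exact h1
    unfold psi
    linarith

end Pool.Agent.H51.DG
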