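import Pool.Agent.H51.DG.SA

/-!
# DG2 job SB: the logarithmic kernel

`UU W x = (1/2π) ∫_0^x ∫_0^π (W(t-s) - W(t+s)) cot(s/2) ds dt = (1/2π) ∫_0^π cot(s/2) h(s) ds`
(Fubini, bounded integrand), with `Z(y) = ∫_0^y W`,
`h(s) = ∫_0^x (W(t-s) - W(t+s)) dt = Z(x-s) - Z(-s) - Z(x+s) + Z(s)`, `h(0) = 0`,
`h'(s) = -W(x-s) + W(-s) - W(x+s) + W(s)`.  Integrate by parts with `2 log sin(s/2)`
(derivative `cot(s/2)`) on `[ε,π]`, `ε → 0` (`|h(s)| ≤ C s`, `s log s → 0`; `log sin(π/2) = 0`):
`∫_0^π cot(s/2) h = 2 ∫_0^π log(sin(s/2)) (W(x-s) + W(x+s)) ds - 2 ∫_0^π log(sin(s/2)) (W(-s)+W(s)) ds`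
and by periodicity `∫_0^π log(sin(s/2)) (W(x-s)+W(x+s)) ds = ∫_0^{2π} W(y) log|sin((x-y)/2)| dy`
(`sin((2π-s)/2) = sin(s/2)`; `y = x - s` on `(0,2π)`, shift by periods).
Only continuity of `W` and the Lipschitz bound for Fubini are used.
-/

set_option autoImplicit false
open Real Set MeasureTheory Filter Topology

namespace Pool.Agent.H51.DG

/-- `log sin` is integrable (all translates), with periodic integrand -/
theorem log_sin_integrable (x a b : ℝ) :
    IntervalIntegrable (fun y => Real.log (Real.sin ((x - y) / 2))) volume a b := by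
  have h1 : IntervalIntegrable (fun u => (Real.log ∘ Real.sin) (2⁻¹ * u)) volume (x - a)
      (x - b) := by
    have h2 := (intervalIntegrable_log_sin (a := (x - a) / 2) (b := (x - b) / 2)).comp_mul_left
      (c := 2⁻¹)
    have e1 : (x - a) / 2 / 2⁻¹ = x - a := by field_simp
    have e2 : (x - b) / 2 / 2⁻¹ = x - b := by field_simp
    rw [e1, e2] at h2
    exact h2
  have h3 := h1.comp_sub_left x
  have e1 : x - (x - a) = a := by ring
  have e2 : x - (x - b) = b := by ring
  rw [e1, e2] at h3
  refine h3.congr ?_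
  intro y _
  show Real.log (Real.sin (2⁻¹ * (x - y))) = Real.log (Real.sin ((x - y) / 2))
  congr 2
  ring

/-- the logarithmic kernel -/
private noncomputable def SB_L (s : ℝ) : ℝ := Real.log (Real.sin (s / 2))

private theorem SB_L_int (a b : ℝ) : IntervalIntegrable SB_L volume a b := by
  have h := (log_sin_integrable 0 (-a) (-b)).comp_sub_left 0
  have e1 : (0 : ℝ) - -a = a := by ring
  have e2 : (0 : ℝ) - -b = b := by ring
  rw [e1, e2] at h
  refine h.congr ?_
  intro y _
  show Real.log (Real.sin ((0 - (0 - y)) / 2)) = Real.log (Real.sin (y / 2))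
  congr 2
  ring

private theorem SB_L_neg (s : ℝ) : SB_L (-s) = SB_L s := by
  show Real.log (Real.sin (-s / 2)) = Real.log (Real.sin (s / 2))
  have e : -s / 2 = -(s / 2) := by ring
  rw [e, Real.sin_neg, Real.log_neg_eq_log]

private theorem SB_L_per (s : ℝ) : SB_L (s + 2 * π) = SB_L s := by
  show Real.log (Real.sin ((s + 2 * π) / 2)) = Real.log (Real.sin (s / 2))
  have e : (s + 2 * π) / 2 = s / 2 + π := by ring
  rw [e, Real.sin_add_pi, Real.log_neg_eq_log]

private theorem SB_L_deriv {s : ℝ} (h0 : 0 < s) (h1 : s < 2 * π) :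
    HasDerivAt SB_L (Real.cos (s / 2) / Real.sin (s / 2) / 2) s := by
  have hs : 0 < Real.sin (s / 2) := Real.sin_pos_of_pos_of_lt_pi (by linarith) (by linarith)
  have h2 : HasDerivAt (fun t : ℝ => Real.sin (t / 2)) (Real.cos (s / 2) * (1 / 2)) s :=
    ((hasDerivAt_id s).div_const 2).sin
  have h3 := h2.log hs.ne'
  have e : Real.cos (s / 2) * (1 / 2) / Real.sin (s / 2) =
      Real.cos (s / 2) / Real.sin (s / 2) / 2 := by ring
  rw [← e]
  exact h3

private theorem SB_L_bound {s : ℝ} (h0 : 0 ≤ s) (h1 : s ≤ π) :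
    |s * SB_L s| ≤ π * |Real.sin (s / 2) * Real.log (Real.sin (s / 2))| := by
  have hpi := Real.pi_pos
  have hs : 0 ≤ Real.sin (s / 2) := Real.sin_nonneg_of_nonneg_of_le_pi (by linarith) (by linarith)
  have h2 : s ≤ π * Real.sin (s / 2) := by
    have h3 := Real.mul_le_sin (x := s / 2) (by linarith) (by linarith)
    have h4 : 2 / π * (s / 2) = s / π := by ring
    rw [h4, div_le_iff₀ hpi] at h3
    linarith
  rw [abs_mul, abs_mul, abs_of_nonneg h0, abs_of_nonneg hs, ← mul_assoc]
  exact mul_le_mul_of_nonneg_right h2 (abs_nonneg _)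

/-- the inner integral -/
private noncomputable def SB_h (W : ℝ → ℝ) (x s : ℝ) : ℝ :=
  ∫ t in (0:ℝ)..x, (W (t - s) - W (t + s))

private theorem SB_h_bound {W : ℝ → ℝ} {K : ℝ} (hK : Lip K W) (x s : ℝ) :
    |SB_h W x s| ≤ 2 * K * |s| * |x| := by
  have h := intervalIntegral.norm_integral_le_of_norm_le_const (a := (0:ℝ)) (b := x)
    (f := fun t => W (t - s) - W (t + s)) (C := 2 * K * |s|) (by
      intro t _
      have h1 := hK (t - s) (t + s)
      have h2 : |t - s - (t + s)| = 2 * |s| := by
        have e : t - s - (t + s) = -(2 * s) := by ring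
        rw [e, abs_neg, abs_mul, abs_of_pos (by norm_num : (0:ℝ) < 2)]
      rw [h2] at h1
      rw [Real.norm_eq_abs]
      linarith)
  rw [Real.norm_eq_abs, sub_zero] at h
  exact h

private theorem SB_Z {W : ℝ → ℝ} (hW : Continuous W) (s : ℝ) :
    HasDerivAt (fun u => ∫ y in (0:ℝ)..u, W y) (W s) s :=
  intervalIntegral.integral_hasDerivAt_right (hW.intervalIntegrable _ _)
    hW.stronglyMeasurable.stronglyMeasurableAtFilter hW.continuousAt

private theorem SB_h_eq {W : ℝ → ℝ} (hW : Continuous W) (x s : ℝ) :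
    SB_h W x s = (∫ y in (0:ℝ)..(x - s), W y) - (∫ y in (0:ℝ)..(-s), W y) -
      ((∫ y in (0:ℝ)..(x + s), W y) - ∫ y in (0:ℝ)..s, W y) := by
  have i1 : ∀ a b : ℝ, IntervalIntegrable W volume a b := fun a b => hW.intervalIntegrable a b
  have h1 : IntervalIntegrable (fun t => W (t - s)) volume 0 x :=
    (hW.comp (continuous_id.sub continuous_const)).intervalIntegrable _ _
  have h2 : IntervalIntegrable (fun t => W (t + s)) volume 0 x :=
    (hW.comp (continuous_id.add continuous_const)).intervalIntegrable _ _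
  unfold SB_h
  rw [intervalIntegral.integral_sub h1 h2, intervalIntegral.integral_comp_sub_right (fun y => W y) s,
    intervalIntegral.integral_comp_add_right (fun y => W y) s, zero_sub, zero_add,
    intervalIntegral.integral_interval_sub_left (i1 _ _) (i1 _ _),
    intervalIntegral.integral_interval_sub_left (i1 _ _) (i1 _ _)]

private theorem SB_h_deriv {W : ℝ → ℝ} (hW : Continuous W) (x s : ℝ) :
    HasDerivAt (SB_h W x) (-W (x - s) + W (-s) - W (x + s) + W s) s := by
  have h1 : HasDerivAt (fun s : ℝ => ∫ y in (0:ℝ)..(x - s), W y) (W (x - s) * (0 - 1)) s :=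
    (SB_Z hW (x - s)).comp s ((hasDerivAt_const s x).sub (hasDerivAt_id s))
  have h2 : HasDerivAt (fun s : ℝ => ∫ y in (0:ℝ)..(-s), W y) (W (-s) * (-1)) s :=
    (SB_Z hW (-s)).comp s (hasDerivAt_id s).neg
  have h3 : HasDerivAt (fun s : ℝ => ∫ y in (0:ℝ)..(x + s), W y) (W (x + s) * (0 + 1)) s :=
    (SB_Z hW (x + s)).comp s ((hasDerivAt_const s x).add (hasDerivAt_id s))
  have h4 := (h1.sub h2).sub (h3.sub (SB_Z hW s))
  have e : W (x - s) * (0 - 1) - W (-s) * (-1) - (W (x + s) * (0 + 1) - W s) =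
      -W (x - s) + W (-s) - W (x + s) + W s := by ring
  rw [e] at h4
  have e2 : SB_h W x = fun s => (∫ y in (0:ℝ)..(x - s), W y) - (∫ y in (0:ℝ)..(-s), W y) -
      ((∫ y in (0:ℝ)..(x + s), W y) - ∫ y in (0:ℝ)..s, W y) := funext (SB_h_eq hW x)
  rw [e2]
  exact h4

private theorem SB_h_cont {W : ℝ → ℝ} (hW : Continuous W) (x : ℝ) : Continuous (SB_h W x) :=
  continuous_iff_continuousAt.2 fun s => (SB_h_deriv hW x s).continuousAt

private theorem SB_kh_int {W : ℝ → ℝ} {K : ℝ} (hK : Lip K W) (x : ℝ) :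
    IntervalIntegrable (fun s => (Real.cos (s / 2) / Real.sin (s / 2)) * SB_h W x s) volume
      0 π := by
  have hpi := Real.pi_pos
  rw [intervalIntegrable_iff_integrableOn_Ioc_of_le hpi.le]
  refine Measure.integrableOn_of_bounded (M := 4 * K * |x|) (by simp) ?_ ?_
  · refine Measurable.aestronglyMeasurable ?_
    have := (SB_h_cont hK.continuous x).measurable
    fun_prop
  · refine (ae_restrict_iff' measurableSet_Ioc).2 (Filter.Eventually.of_forall ?_)
    intro s hs
    obtain ⟨h1, h2⟩ := cot_le hs.1 hs.2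
    have h3 := SB_h_bound hK x s
    have hK0 := hK.nonneg
    rw [abs_of_pos hs.1] at h3
    rw [Real.norm_eq_abs, abs_mul, abs_of_nonneg h1]
    have h4 : (2 / s) * (2 * K * s * |x|) = 4 * K * |x| := by
      have := hs.1.ne'
      field_simp
      ring
    rw [← h4]
    have := hs.1
    exact mul_le_mul h2 h3 (abs_nonneg _) (by positivity)

/-- integration by parts -/
private theorem SB_parts {W : ℝ → ℝ} {K : ℝ} (hK : Lip K W) (x : ℝ) :
    ∫ s in (0:ℝ)..π, (Real.cos (s / 2) / Real.sin (s / 2)) * SB_h W x s =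
      ∫ s in (0:ℝ)..π, 2 * SB_L s * (W (x - s) - W (-s) + W (x + s) - W s) := by
  have hpi := Real.pi_pos
  have hW := hK.continuous
  have hcont' : Continuous fun s => W (x - s) - W (-s) + W (x + s) - W s := by fun_prop
  have hint2 : IntervalIntegrable
      (fun s => 2 * SB_L s * (W (x - s) - W (-s) + W (x + s) - W s)) volume 0 π :=
    ((SB_L_int 0 π).const_mul 2).mul_continuousOn hcont'.continuousOn
  have hint1 := SB_kh_int hK x
  have hG : ∫ s in (0:ℝ)..π, ((Real.cos (s / 2) / Real.sin (s / 2)) * SB_h W x s -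
      2 * SB_L s * (W (x - s) - W (-s) + W (x + s) - W s)) =
      2 * SB_L π * SB_h W x π - 2 * SB_L 0 * SB_h W x 0 := by
    refine intervalIntegral.integral_eq_sub_of_hasDerivAt_of_le hpi.le
      (f := fun s => 2 * SB_L s * SB_h W x s) ?_ ?_ (hint1.sub hint2)
    · intro s hs
      rcases eq_or_lt_of_le hs.1 with h0 | h0
      · rw [← h0]
        have hz : (2 * SB_L 0 * SB_h W x 0 : ℝ) = 0 := by
          have : SB_L 0 = 0 := by simp [SB_L]
          rw [this]
          ring
        show Tendsto _ _ (𝓝 (2 * SB_L 0 * SB_h W x 0))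
        rw [hz]
        have hlim : Tendsto (fun s : ℝ => 4 * K * |x| *
            (π * |Real.sin (s / 2) * Real.log (Real.sin (s / 2))|)) (𝓝[Icc 0 π] 0) (𝓝 0) := by
          have hc : Continuous fun s : ℝ => 4 * K * |x| *
              (π * |Real.sin (s / 2) * Real.log (Real.sin (s / 2))|) := by
            have h5 : Continuous fun s : ℝ => Real.sin (s / 2) * Real.log (Real.sin (s / 2)) :=
              Real.continuous_mul_log.comp (by fun_prop)
            exact continuous_const.mul (continuous_const.mul h5.abs)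
          have h6 := (hc.tendsto 0).mono_left (nhdsWithin_le_nhds (s := Icc 0 π))
          simpa using h6
        refine squeeze_zero_norm' ?_ hlim
        refine eventually_nhdsWithin_of_forall ?_
        intro u hu
        have h3 := SB_h_bound hK x u
        have h4 := SB_L_bound hu.1 hu.2
        have hK0 := hK.nonneg
        rw [Real.norm_eq_abs, abs_mul, abs_mul, abs_of_pos (by norm_num : (0:ℝ) < 2)]
        rw [abs_mul] at h4
        calc 2 * |SB_L u| * |SB_h W x u| ≤ 2 * |SB_L u| * (2 * K * |u| * |x|) :=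
              mul_le_mul_of_nonneg_left h3 (by positivity)
          _ = 4 * K * |x| * (|u| * |SB_L u|) := by ring
          _ ≤ 4 * K * |x| * (π * |Real.sin (u / 2) * Real.log (Real.sin (u / 2))|) :=
              mul_le_mul_of_nonneg_left h4 (by positivity)
      · have h1 := (SB_L_deriv h0 (by linarith [hs.2])).continuousAt
        have h2 := (SB_h_cont hW x).continuousAt (x := s)
        exact ((continuousAt_const.mul h1).mul h2).continuousWithinAt
    · intro s hs
      have h1 := SB_L_deriv hs.1 (by linarith [hs.2])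
      have h2 := SB_h_deriv hW x s
      have h3 := (h1.const_mul 2).mul h2
      have e : 2 * (Real.cos (s / 2) / Real.sin (s / 2) / 2) * SB_h W x s +
          2 * SB_L s * (-W (x - s) + W (-s) - W (x + s) + W s) =
          (Real.cos (s / 2) / Real.sin (s / 2)) * SB_h W x s -
          2 * SB_L s * (W (x - s) - W (-s) + W (x + s) - W s) := by ring
      rw [← e]
      exact h3
  rw [intervalIntegral.integral_sub hint1 hint2] at hG
  have h7 : SB_L π = 0 := by
    show Real.log (Real.sin (π / 2)) = 0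
    rw [Real.sin_pi_div_two, Real.log_one]
  have h8 : SB_L 0 = 0 := by simp [SB_L]
  rw [h7, h8] at hG
  linarith

/-- Fubini -/
private theorem SB_fubini {W : ℝ → ℝ} {K : ℝ} (hK : Lip K W) (x : ℝ) :
    UU W x = 1 / (2 * π) *
      ∫ s in (0:ℝ)..π, (Real.cos (s / 2) / Real.sin (s / 2)) * SB_h W x s := by
  have hpi := Real.pi_pos
  have hW := hK.continuous
  have hint : Integrable (Function.uncurry fun t s : ℝ =>
      (W (t - s) - W (t + s)) * (Real.cos (s / 2) / Real.sin (s / 2)))
      ((volume.restrict (uIoc 0 x)).prod (volume.restrict (Ioc 0 π))) := by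
    rw [Measure.prod_restrict]
    refine Measure.integrableOn_of_bounded (M := 4 * K) ?_ ?_ ?_
    · rw [← lt_top_iff_ne_top, Measure.prod_prod]
      refine ENNReal.mul_lt_top ?_ ?_
      · rw [uIoc, Real.volume_Ioc]
        exact ENNReal.ofReal_lt_top
      · rw [Real.volume_Ioc]
        exact ENNReal.ofReal_lt_top
    · refine Measurable.aestronglyMeasurable ?_
      have := hW.measurable
      have h1 : Measurable fun q : ℝ × ℝ => W (q.1 - q.2) :=
        this.comp (measurable_fst.sub measurable_snd)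
      have h2 : Measurable fun q : ℝ × ℝ => W (q.1 + q.2) :=
        this.comp (measurable_fst.add measurable_snd)
      have h3 : Measurable fun q : ℝ × ℝ => Real.cos (q.2 / 2) / Real.sin (q.2 / 2) := by
        fun_prop
      exact (h1.sub h2).mul h3
    · refine (ae_restrict_iff' (measurableSet_uIoc.prod measurableSet_Ioc)).2
        (Filter.Eventually.of_forall ?_)
      rintro ⟨t, s⟩ ⟨-, hs⟩
      exact HT_integrand_bound hK t hs.1 hs.2
  have h1 : UU W x = (if (0:ℝ) ≤ x then (1:ℝ) else -1) • ∫ t in uIoc 0 x, (1 / (2 * π)) *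
      ∫ s in Ioc 0 π, (W (t - s) - W (t + s)) * (Real.cos (s / 2) / Real.sin (s / 2)) := by
    unfold UU
    rw [intervalIntegral.intervalIntegral_eq_integral_uIoc]
    congr 1
    refine integral_congr_ae (Filter.Eventually.of_forall ?_)
    intro t
    show HT W t = _
    unfold HT
    rw [intervalIntegral.integral_of_le hpi.le]
  have h2 : ∀ s, (Real.cos (s / 2) / Real.sin (s / 2)) * SB_h W x s =
      (if (0:ℝ) ≤ x then (1:ℝ) else -1) *
      ∫ t in uIoc 0 x, (W (t - s) - W (t + s)) * (Real.cos (s / 2) / Real.sin (s / 2)) := by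
    intro s
    unfold SB_h
    rw [intervalIntegral.intervalIntegral_eq_integral_uIoc, integral_mul_const, smul_eq_mul]
    ring
  rw [h1, integral_const_mul, integral_integral_swap hint, intervalIntegral.integral_of_le hpi.le,
    smul_eq_mul]
  have h3 : ∫ s in Ioc 0 π, (Real.cos (s / 2) / Real.sin (s / 2)) * SB_h W x s =
      ∫ s in Ioc 0 π, (if (0:ℝ) ≤ x then (1:ℝ) else -1) *
      ∫ t in uIoc 0 x, (W (t - s) - W (t + s)) * (Real.cos (s / 2) / Real.sin (s / 2)) :=
    integral_congr_ae (Filter.Eventually.of_forall h2)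
  rw [h3, integral_const_mul]
  ring

private theorem SB_prod_int {W : ℝ → ℝ} (hW : Continuous W) (x a b : ℝ) :
    IntervalIntegrable (fun y => W y * SB_L (x - y)) volume a b :=
  (log_sin_integrable x a b).continuousOn_mul hW.continuousOn

/-- periodicity -/
private theorem SB_per {W : ℝ → ℝ} (hp : Function.Periodic W (2 * π)) (hW : Continuous W)
    (x : ℝ) : ∫ s in (0:ℝ)..π, SB_L s * (W (x - s) + W (x + s)) =
      ∫ y in (0:ℝ)..(2 * π), W y * SB_L (x - y) := by
  have hper : Function.Periodic (fun y => W y * SB_L (x - y)) (2 * π) := by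
    intro y
    show W (y + 2 * π) * SB_L (x - (y + 2 * π)) = W y * SB_L (x - y)
    have e : SB_L (x - (y + 2 * π)) = SB_L (x - y) := by
      rw [← SB_L_per (x - (y + 2 * π))]
      congr 1
      ring
    rw [hp y, e]
  have h1 := hper.intervalIntegral_add_eq 0 (x - π)
  rw [zero_add] at h1
  have e1 : x - π + 2 * π = x + π := by ring
  rw [e1] at h1
  have h2 : ∫ y in (x - π)..(x + π), W y * SB_L (x - y) =
      (∫ y in (x - π)..x, W y * SB_L (x - y)) + ∫ y in x..(x + π), W y * SB_L (x - y) :=
    (intervalIntegral.integral_add_adjacent_intervals (SB_prod_int hW x _ _)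
      (SB_prod_int hW x _ _)).symm
  have h3 : ∫ s in (0:ℝ)..π, SB_L s * W (x + s) = ∫ y in x..(x + π), W y * SB_L (x - y) := by
    have h4 := intervalIntegral.integral_comp_add_left (a := (0:ℝ)) (b := π)
      (fun y => W y * SB_L (x - y)) x
    rw [add_zero] at h4
    rw [← h4]
    refine intervalIntegral.integral_congr fun s _ => ?_
    show SB_L s * W (x + s) = W (x + s) * SB_L (x - (x + s))
    have e : x - (x + s) = -s := by ring
    rw [e, SB_L_neg, mul_comm]
  have h5 : ∫ s in (0:ℝ)..π, SB_L s * W (x - s) = ∫ y in (x - π)..x, W y * SB_L (x - y) := by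
    have h4 := intervalIntegral.integral_comp_sub_left (a := (0:ℝ)) (b := π)
      (fun y => W y * SB_L (x - y)) x
    rw [sub_zero] at h4
    rw [← h4]
    refine intervalIntegral.integral_congr fun s _ => ?_
    show SB_L s * W (x - s) = W (x - s) * SB_L (x - (x - s))
    have e : x - (x - s) = s := by ring
    rw [e, mul_comm]
  have i1 : IntervalIntegrable (fun s => SB_L s * W (x - s)) volume 0 π :=
    (SB_L_int 0 π).mul_continuousOn (by fun_prop)
  have i2 : IntervalIntegrable (fun s => SB_L s * W (x + s)) volume 0 π :=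
    (SB_L_int 0 π).mul_continuousOn (by fun_prop)
  have h6 : ∫ s in (0:ℝ)..π, SB_L s * (W (x - s) + W (x + s)) =
      (∫ s in (0:ℝ)..π, SB_L s * W (x - s)) + ∫ s in (0:ℝ)..π, SB_L s * W (x + s) := by
    rw [← intervalIntegral.integral_add i1 i2]
    refine intervalIntegral.integral_congr fun s _ => ?_
    show SB_L s * (W (x - s) + W (x + s)) = SB_L s * W (x - s) + SB_L s * W (x + s)
    ring
  rw [h6, h3, h5, h1, h2]

theorem log_kernel {W : ℝ → ℝ} {K : ℝ} (hp : Function.Periodic W (2 * π)) (hK : Lip K W)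
    (x : ℝ) :
    UU W x = 1 / π * ∫ y in (0:ℝ)..(2 * π),
      W y * (Real.log (Real.sin ((x - y) / 2)) - Real.log (Real.sin (y / 2))) := by
  have hpi := Real.pi_pos
  have hW := hK.continuous
  have i1 : IntervalIntegrable (fun s => SB_L s * (W (x - s) + W (x + s))) volume 0 π :=
    (SB_L_int 0 π).mul_continuousOn (by fun_prop)
  have i2 : IntervalIntegrable (fun s => SB_L s * (W (0 - s) + W (0 + s))) volume 0 π :=
    (SB_L_int 0 π).mul_continuousOn (by fun_prop)
  have h1 : ∫ s in (0:ℝ)..π, 2 * SB_L s * (W (x - s) - W (-s) + W (x + s) - W s) =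
      2 * ((∫ s in (0:ℝ)..π, SB_L s * (W (x - s) + W (x + s))) -
        ∫ s in (0:ℝ)..π, SB_L s * (W (0 - s) + W (0 + s))) := by
    rw [← intervalIntegral.integral_sub i1 i2, ← intervalIntegral.integral_const_mul]
    refine intervalIntegral.integral_congr fun s _ => ?_
    show 2 * SB_L s * (W (x - s) - W (-s) + W (x + s) - W s) =
      2 * (SB_L s * (W (x - s) + W (x + s)) - SB_L s * (W (0 - s) + W (0 + s)))
    rw [zero_sub, zero_add]
    ring
  have h2 : ∫ y in (0:ℝ)..(2 * π),
      W y * (Real.log (Real.sin ((x - y) / 2)) - Real.log (Real.sin (y / 2))) =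
      (∫ y in (0:ℝ)..(2 * π), W y * SB_L (x - y)) - ∫ y in (0:ℝ)..(2 * π), W y * SB_L (0 - y) := by
    rw [← intervalIntegral.integral_sub (SB_prod_int hW x _ _) (SB_prod_int hW 0 _ _)]
    refine intervalIntegral.integral_congr fun y _ => ?_
    show W y * (SB_L (x - y) - SB_L y) = W y * SB_L (x - y) - W y * SB_L (0 - y)
    rw [zero_sub, SB_L_neg]
    ring
  rw [SB_fubini hK x, SB_parts hK x, h1, h2, SB_per hp hW x, SB_per hp hW 0]
  field_simp

end Pool.Agent.H51.DG
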