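import Pool.Agent.H51.DG.Ker

/-!
# DG2: one-dimensional kernels of the difference formula (definitions)
-/

set_option autoImplicit false
open Real Set MeasureTheory Filter Topology

namespace Pool.Agent.H51.DG

/-- derivative of `n3` on `τ > 0` -/
noncomputable def n3d (τ : ℝ) : ℝ :=
  Real.sinh (τ / 2) + 3 * Real.sinh (3 * τ / 2) * Real.log (Real.exp τ - 1)
    - 3 / 2 * τ * Real.exp (3 * τ / 2) + Real.cosh τ / Real.sinh (τ / 2)

/-- derivative of `n1` on `τ > 0` -/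
noncomputable def n1d (τ : ℝ) : ℝ :=
  Real.sinh (τ / 2) * Real.log (Real.exp τ - 1) + 1 / Real.sinh (τ / 2)
    - τ / 2 * Real.exp (τ / 2)

/-- derivative of `pp` -/
noncomputable def ppd (τ : ℝ) : ℝ :=
  2 * Real.sinh τ / (2 * Real.cosh (τ / 2))
    - 2 * Real.cosh τ * Real.sinh (τ / 2) / (2 * Real.cosh (τ / 2)) ^ 2
    - 3 * Real.sinh (3 * τ / 2) * Real.log (2 * Real.cosh (τ / 2))
    - 2 * Real.cosh (3 * τ / 2) * Real.sinh (τ / 2) / (2 * Real.cosh (τ / 2))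
    + Real.sinh (3 * τ / 2) + 3 / 2 * τ * Real.cosh (3 * τ / 2)
    - 12 * Real.sinh (τ / 2) / (2 * Real.cosh (τ / 2)) ^ 4

/-- kernels for which the difference formula holds -/
structure KerN (m : ℝ) (n n' : ℝ → ℝ) : Prop where
  d1 : ∀ τ, 0 < τ → HasDerivAt n (n' τ) τ
  d2 : ∀ τ, 0 < τ → HasDerivAt n' (m ^ 2 * n τ - 2 * Lpp τ) τ
  z1 : Tendsto (fun τ => n' τ - 2 / τ) (𝓝[>] 0) (𝓝 0)
  near : ∃ K, ∀ τ, 0 < τ → τ ≤ 1 → |n τ| ≤ K * (1 + |Real.log τ|)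
  far : ∃ K, ∀ τ, 1 ≤ τ → |n τ| ≤ K ∧ |n' τ| ≤ K

/-- exponentially decaying `C^1` functions -/
structure Adm (A A' : ℝ → ℝ) : Prop where
  d : ∀ r, HasDerivAt A (A' r) r
  c : Continuous A'
  dec : ∃ K κ : ℝ, 0 < κ ∧ ∀ r, |A r| ≤ K * Real.exp (-(κ * |r|)) ∧
    |A' r| ≤ K * Real.exp (-(κ * |r|))

noncomputable def corr (A B : ℝ → ℝ) (τ : ℝ) : ℝ := ∫ r, A r * B (r + τ)

/-- squared norm of the difference -/
noncomputable def DD (A : ℝ → ℝ) (τ : ℝ) : ℝ := ∫ r, (A (r + τ) - A r) ^ 2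

end Pool.Agent.H51.DG
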