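import Pool.Agent.H51.DG.KE
import Pool.Agent.H51.DG.KerN

/-!
# DG2 job NB: one-dimensional integration by parts with the singular kernel

Let `KerN m n n'`, `C` twice differentiable with `C' (0) = 0`, `C, C', C''` bounded by
`K e^{-κ|τ|}`, `C''` continuous.  On `[ε, R]`:
`∫ (-C'' + m² C) n = [-C' n + C n'] + ∫ C (-n'' + m² n) = [-C' n + C n'] + 2 ∫ C Lpp`
(antiderivative: `(-C' n + C n')' = -C'' n + C n'' = -C'' n + m² C n - 2 C Lpp`).
`R → ∞`: boundary terms vanish.  At `ε`: `C'(ε) n(ε) - C(ε) n'(ε)`, and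
`∫_ε^∞ Lpp = 1/(2 sinh(ε/2))` (antiderivative `-1/(2 sinh(τ/2))`), so
`∫_ε^∞ (-C''+m²C) n = C'(ε) n(ε) - C(ε)(n'(ε) - 2/ε) + 2 (C(0)-C(ε))/ε
   + 2 C(0) (1/(2 sinh(ε/2)) - 1/ε) - 2 ∫_ε^∞ (C(0)-C) Lpp`
and all terms but the last tend to `0` as `ε → 0+`: `|C'(ε)| ≤ K ε`, `|C(0)-C(ε)| ≤ K ε²`,
`|n(ε)| ≤ K(1+|log ε|)`.  Both integrands are integrable on `(0,∞)`
(`Lpp ≤ 2/τ²` near `0`, `Lpp ≤ 2e^{-τ/2}` for `τ ≥ 1`).
-/

set_option autoImplicit false
open Real Set MeasureTheory Filter Topology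

namespace Pool.Agent.H51.DG

theorem KerN.integrableOn {m : ℝ} {n n' : ℝ → ℝ} (hn : KerN m n n') {f : ℝ → ℝ}
    (hf : Continuous f) {K κ : ℝ} (hκ : 0 < κ) (hd : ∀ τ, |f τ| ≤ K * Real.exp (-(κ * |τ|))) :
    IntegrableOn (fun τ => f τ * n τ) (Ioi 0) := by
  have hnc : ContinuousOn n (Ioi 0) := fun τ hτ =>
    (hn.d1 τ hτ).continuousAt.continuousWithinAt
  have hfn : ContinuousOn (fun τ => f τ * n τ) (Ioi 0) := hf.continuousOn.mul hnc
  have hsplit : Ioi (0:ℝ) = Ioc 0 1 ∪ Ioi 1 := by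
    rw [Ioc_union_Ioi_eq_Ioi]; norm_num
  have hK0 : 0 ≤ K := by
    have h := hd 0
    have h2 : (0:ℝ) ≤ K * Real.exp (-(κ * |0|)) := le_trans (abs_nonneg _) h
    simpa using h2
  have hfK : ∀ τ, |f τ| ≤ K := by
    intro τ
    refine (hd τ).trans ?_
    have : Real.exp (-(κ * |τ|)) ≤ 1 := by
      rw [Real.exp_le_one_iff]
      have := mul_nonneg hκ.le (abs_nonneg τ)
      linarith
    nlinarith
  obtain ⟨K1, hK1⟩ := hn.near
  obtain ⟨K2, hK2⟩ := hn.far
  rw [hsplit]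
  refine IntegrableOn.union ?_ ?_
  · have hg : IntegrableOn (fun τ : ℝ => K * (K1 * (1 + |Real.log τ|))) (Ioc 0 1) := by
      have h1 : IntegrableOn (fun τ : ℝ => |Real.log τ|) (Ioc 0 1) := by
        have h := (intervalIntegral.intervalIntegrable_log' (a := 0) (b := 1)).1
        exact h.abs
      have h0 : IntegrableOn (fun _ : ℝ => (1:ℝ)) (Ioc 0 1) :=
        integrableOn_const measure_Ioc_lt_top.ne
      exact ((h0.add h1).const_mul K1).const_mul K
    refine Integrable.mono' hg ?_ ?_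
    · exact (hfn.mono (fun x hx => hx.1)).aestronglyMeasurable measurableSet_Ioc
    · refine (ae_restrict_iff' measurableSet_Ioc).2 (Eventually.of_forall ?_)
      intro τ hτ
      rw [Real.norm_eq_abs, abs_mul]
      exact mul_le_mul (hfK τ) (hK1 τ hτ.1 hτ.2) (abs_nonneg _) hK0
  · have hg : IntegrableOn (fun τ : ℝ => K * K2 * Real.exp (-κ * τ)) (Ioi 1) :=
      (exp_neg_integrableOn_Ioi 1 hκ).const_mul _
    refine Integrable.mono' hg ?_ ?_
    · exact (hfn.mono (fun x (hx : 1 < x) => lt_trans one_pos hx)).aestronglyMeasurable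
        measurableSet_Ioi
    · refine (ae_restrict_iff' measurableSet_Ioi).2 (Eventually.of_forall ?_)
      intro τ hτ
      have hτ1 : (1:ℝ) < τ := hτ
      rw [Real.norm_eq_abs, abs_mul]
      have h1 := hd τ
      rw [abs_of_pos (lt_trans one_pos hτ1)] at h1
      have h2 := (hK2 τ hτ1.le).1
      calc |f τ| * |n τ| ≤ (K * Real.exp (-(κ * τ))) * K2 :=
            mul_le_mul h1 h2 (abs_nonneg _) (mul_nonneg hK0 (Real.exp_pos _).le)
        _ = K * K2 * Real.exp (-κ * τ) := by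
            rw [show -(κ * τ) = -κ * τ by ring]; ring

/-- `1/x - 1/sinh x → 0` in the form used below -/
theorem NB_inv_sinh : Tendsto (fun τ : ℝ => 2 / τ - 1 / Real.sinh (τ / 2)) (𝓝[>] 0) (𝓝 0) := by
  have hcosh : Tendsto (fun τ : ℝ => (Real.cosh (τ / 2) - 1) / (τ / 2)) (𝓝[>] 0) (𝓝 0) := by
    have hd : HasDerivAt Real.cosh 0 0 := by
      have := Real.hasDerivAt_cosh 0
      rwa [Real.sinh_zero] at this
    have hs := hd.tendsto_slope
    have h1 : Tendsto (fun τ : ℝ => τ / 2) (𝓝[>] 0) (𝓝[≠] 0) := by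
      rw [tendsto_nhdsWithin_iff]
      refine ⟨?_, ?_⟩
      · have : Tendsto (fun τ : ℝ => τ / 2) (𝓝 0) (𝓝 (0 / 2)) :=
          (continuous_id.div_const 2).tendsto 0
        rw [zero_div] at this
        exact this.mono_left nhdsWithin_le_nhds
      · filter_upwards [self_mem_nhdsWithin] with τ hτ
        have hτ0 : (0:ℝ) < τ := hτ
        exact (half_pos hτ0).ne'
    have h2 := hs.comp h1
    refine h2.congr ?_
    intro τ
    simp only [Function.comp, slope_def_field, Real.cosh_zero, sub_zero]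
  refine squeeze_zero' ?_ ?_ hcosh
  · filter_upwards [self_mem_nhdsWithin] with τ hτ
    have hτ0 : (0:ℝ) < τ / 2 := half_pos hτ
    have h1 : τ / 2 ≤ Real.sinh (τ / 2) := Real.self_le_sinh_iff.2 hτ0.le
    have h2 : 1 / Real.sinh (τ / 2) ≤ 1 / (τ / 2) := one_div_le_one_div_of_le hτ0 h1
    have h3 : 1 / (τ / 2) = 2 / τ := by rw [one_div_div]
    linarith
  · filter_upwards [self_mem_nhdsWithin] with τ hτ
    have hτ0 : (0:ℝ) < τ / 2 := half_pos hτ
    set x := τ / 2 with hx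
    have h1 : x ≤ Real.sinh x := Real.self_le_sinh_iff.2 hτ0.le
    have hsp : 0 < Real.sinh x := lt_of_lt_of_le hτ0 h1
    have hmv : Real.sinh x ≤ x * Real.cosh x := by
      obtain ⟨c, hc, hc2⟩ := exists_deriv_eq_slope Real.sinh hτ0
        Real.continuous_sinh.continuousOn Real.differentiable_sinh.differentiableOn
      rw [Real.deriv_sinh, Real.sinh_zero, sub_zero, sub_zero] at hc2
      have h3 : Real.cosh c ≤ Real.cosh x := by
        rw [Real.cosh_le_cosh, abs_of_pos hc.1, abs_of_pos hτ0]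
        exact hc.2.le
      rw [hc2, div_le_iff₀ hτ0] at h3
      linarith
    have h4 : 2 / τ = 1 / x := by rw [hx, one_div_div]
    rw [h4]
    have h5 : 1 / x - 1 / Real.sinh x = (Real.sinh x - x) / (x * Real.sinh x) := by
      field_simp
    rw [h5, div_le_div_iff₀ (mul_pos hτ0 hsp) hτ0]
    have hc1 : 1 ≤ Real.cosh x := Real.one_le_cosh x
    have h6 : Real.sinh x - x ≤ x * (Real.cosh x - 1) := by linarith
    calc (Real.sinh x - x) * x ≤ (x * (Real.cosh x - 1)) * x :=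
          mul_le_mul_of_nonneg_right h6 hτ0.le
      _ = (Real.cosh x - 1) * (x * x) := by ring
      _ ≤ (Real.cosh x - 1) * (x * Real.sinh x) :=
          mul_le_mul_of_nonneg_left (mul_le_mul_of_nonneg_left h1 hτ0.le) (by linarith)

theorem NB_hasDerivAt_inv_sinh {τ : ℝ} (hτ : 0 < τ) :
    HasDerivAt (fun τ : ℝ => 1 / Real.sinh (τ / 2)) (-(2 * Lpp τ)) τ := by
  have hs : Real.sinh (τ / 2) ≠ 0 := (Real.sinh_pos_iff.2 (half_pos hτ)).ne'
  have h1 : HasDerivAt (fun τ : ℝ => Real.sinh (τ / 2)) (Real.cosh (τ / 2) * (1 / 2)) τ :=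
    ((hasDerivAt_id τ).div_const 2).sinh
  have h2 := h1.inv hs
  have h3 : HasDerivAt (fun τ : ℝ => 1 / Real.sinh (τ / 2))
      (-(Real.cosh (τ / 2) * (1 / 2)) / Real.sinh (τ / 2) ^ 2) τ := by
    refine h2.congr_of_eventuallyEq (Eventually.of_forall ?_)
    intro y
    simp only [one_div, Pi.inv_apply]
  have h4 : (-(Real.cosh (τ / 2) * (1 / 2)) / Real.sinh (τ / 2) ^ 2) = -(2 * Lpp τ) := by
    unfold Lpp
    field_simp
    ring
  rw [h4] at h3
  exact h3

theorem NB_near {C C' C'' : ℝ → ℝ}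
    (h1 : ∀ τ, HasDerivAt C (C' τ) τ) (h2 : ∀ τ, HasDerivAt C' (C'' τ) τ)
    (h0 : C' 0 = 0) {K : ℝ} (hK0 : 0 ≤ K) (hd : ∀ τ, |C'' τ| ≤ K) {τ : ℝ} (hτ : 0 ≤ τ) :
    |C' τ| ≤ K * τ ∧ |C 0 - C τ| ≤ K * τ ^ 2 := by
  have hA : ∀ s : ℝ, 0 ≤ s → |C' s| ≤ K * s := by
    intro s hs
    have h := norm_image_sub_le_of_norm_deriv_le_segment' (f := C') (f' := C'') (C := K)
      (a := 0) (b := s) (fun x _ => (h2 x).hasDerivWithinAt)
      (fun x _ => by rw [Real.norm_eq_abs]; exact hd x) s (right_mem_Icc.2 hs)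
    rw [h0, sub_zero, sub_zero, Real.norm_eq_abs] at h
    exact h
  refine ⟨hA τ hτ, ?_⟩
  have h := norm_image_sub_le_of_norm_deriv_le_segment' (f := C) (f' := C') (C := K * τ)
    (a := 0) (b := τ) (fun x _ => (h1 x).hasDerivWithinAt)
    (fun x hx => by
      rw [Real.norm_eq_abs]
      exact (hA x hx.1).trans (mul_le_mul_of_nonneg_left hx.2.le hK0)) τ (right_mem_Icc.2 hτ)
  rw [sub_zero, Real.norm_eq_abs, abs_sub_comm] at h
  calc |C 0 - C τ| ≤ K * τ * τ := h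
    _ = K * τ ^ 2 := by ring

theorem KerN.by_parts {m : ℝ} {n n' : ℝ → ℝ} (hn : KerN m n n') {C C' C'' : ℝ → ℝ}
    (h1 : ∀ τ, HasDerivAt C (C' τ) τ) (h2 : ∀ τ, HasDerivAt C' (C'' τ) τ)
    (hc : Continuous C'') (h0 : C' 0 = 0) {K κ : ℝ} (hκ : 0 < κ)
    (hd : ∀ τ, |C τ| ≤ K * Real.exp (-(κ * |τ|)) ∧ |C' τ| ≤ K * Real.exp (-(κ * |τ|)) ∧
      |C'' τ| ≤ K * Real.exp (-(κ * |τ|))) :
    IntegrableOn (fun τ => (C 0 - C τ) * Lpp τ) (Ioi 0) ∧
    ∫ τ in Ioi (0:ℝ), (-C'' τ + m ^ 2 * C τ) * n τ =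
      - 2 * ∫ τ in Ioi (0:ℝ), (C 0 - C τ) * Lpp τ := by
  have hCc : Continuous C := continuous_iff_continuousAt.2 (fun τ => (h1 τ).continuousAt)
  have hC'c : Continuous C' := continuous_iff_continuousAt.2 (fun τ => (h2 τ).continuousAt)
  have hK0 : 0 ≤ K := by
    have h := (hd 0).1
    have h2 : (0:ℝ) ≤ K * Real.exp (-(κ * |0|)) := le_trans (abs_nonneg _) h
    simpa using h2
  have hexp1 : ∀ τ : ℝ, Real.exp (-(κ * |τ|)) ≤ 1 := by
    intro τ
    rw [Real.exp_le_one_iff]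
    have := mul_nonneg hκ.le (abs_nonneg τ)
    linarith
  have hKb : ∀ τ : ℝ, K * Real.exp (-(κ * |τ|)) ≤ K := by
    intro τ
    have := hexp1 τ
    nlinarith
  have hCK : ∀ τ, |C τ| ≤ K := fun τ => (hd τ).1.trans (hKb τ)
  have hC'K : ∀ τ, |C' τ| ≤ K := fun τ => (hd τ).2.1.trans (hKb τ)
  have hC''K : ∀ τ, |C'' τ| ≤ K := fun τ => (hd τ).2.2.trans (hKb τ)
  have hnear : ∀ τ : ℝ, 0 ≤ τ → |C' τ| ≤ K * τ ∧ |C 0 - C τ| ≤ K * τ ^ 2 := fun τ hτ =>
    NB_near h1 h2 h0 hK0 hC''K hτ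
  have hLpos : ∀ τ : ℝ, 0 < τ → 0 < Lpp τ := fun τ hτ => Lpp_pos hτ.ne'
  -- integrability of the second integrand
  have hI2 : IntegrableOn (fun τ => (C 0 - C τ) * Lpp τ) (Ioi 0) := by
    have hcont : ContinuousOn (fun τ => (C 0 - C τ) * Lpp τ) (Ioi 0) :=
      (continuousOn_const.sub hCc.continuousOn).mul continuousOn_Lpp
    have hsplit : Ioi (0:ℝ) = Ioc 0 1 ∪ Ioi 1 := by
      rw [Ioc_union_Ioi_eq_Ioi]; norm_num
    rw [hsplit]
    refine IntegrableOn.union ?_ ?_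
    · have hg : IntegrableOn (fun _ : ℝ => 2 * K) (Ioc 0 1) :=
        integrableOn_const measure_Ioc_lt_top.ne
      refine Integrable.mono' hg ?_ ?_
      · exact (hcont.mono (fun x hx => hx.1)).aestronglyMeasurable measurableSet_Ioc
      · refine (ae_restrict_iff' measurableSet_Ioc).2 (Eventually.of_forall ?_)
        intro τ hτ
        have hτ0 : 0 < τ := hτ.1
        rw [Real.norm_eq_abs, abs_mul, abs_of_pos (hLpos τ hτ0)]
        have h3 := (hnear τ hτ0.le).2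
        have h4 := Lpp_le_near hτ0 (by linarith [hτ.2] : τ ≤ 2)
        calc |C 0 - C τ| * Lpp τ ≤ (K * τ ^ 2) * (2 / τ ^ 2) :=
              mul_le_mul h3 h4 (hLpos τ hτ0).le (by positivity)
          _ = 2 * K := by field_simp
    · have hg : IntegrableOn (fun τ : ℝ => (2 * K) * (2 * Real.exp (-(1/2) * τ))) (Ioi 1) :=
        ((exp_neg_integrableOn_Ioi 1 (by norm_num : (0:ℝ) < 1/2)).const_mul 2).const_mul _
      refine Integrable.mono' hg ?_ ?_
      · exact (hcont.mono (fun x (hx : 1 < x) => lt_trans one_pos hx)).aestronglyMeasurable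
          measurableSet_Ioi
      · refine (ae_restrict_iff' measurableSet_Ioi).2 (Eventually.of_forall ?_)
        intro τ hτ
        have hτ1 : (1:ℝ) < τ := hτ
        have hτ0 : 0 < τ := by linarith
        rw [Real.norm_eq_abs, abs_mul, abs_of_pos (hLpos τ hτ0)]
        have h3 : |C 0 - C τ| ≤ 2 * K := by
          have := abs_sub (C 0) (C τ)
          have h5 := hCK 0
          have h6 := hCK τ
          linarith
        have h4 := Lpp_le_far hτ1.le
        have h5 : Real.exp (-τ / 2) = Real.exp (-(1/2) * τ) := by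
          congr 1; ring
        rw [h5] at h4
        exact mul_le_mul h3 h4 (hLpos τ hτ0).le (by linarith)
  -- integrability of the first integrand
  have hI1 : IntegrableOn (fun τ => (-C'' τ + m ^ 2 * C τ) * n τ) (Ioi 0) := by
    refine KerN.integrableOn hn (f := fun τ => -C'' τ + m ^ 2 * C τ)
      (K := K + m ^ 2 * K) (κ := κ) ?_ hκ ?_
    · exact hc.neg.add (continuous_const.mul hCc)
    · intro τ
      calc |-C'' τ + m ^ 2 * C τ| ≤ |-C'' τ| + |m ^ 2 * C τ| := abs_add_le _ _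
        _ = |C'' τ| + m ^ 2 * |C τ| := by
            rw [abs_neg, abs_mul, abs_of_nonneg (sq_nonneg m)]
        _ ≤ K * Real.exp (-(κ * |τ|)) + m ^ 2 * (K * Real.exp (-(κ * |τ|))) :=
            add_le_add (hd τ).2.2 (mul_le_mul_of_nonneg_left (hd τ).1 (sq_nonneg m))
        _ = (K + m ^ 2 * K) * Real.exp (-(κ * |τ|)) := by ring
  refine ⟨hI2, ?_⟩
  -- the antiderivative
  set H : ℝ → ℝ := fun τ => -C' τ * n τ + C τ * n' τ - C 0 * (1 / Real.sinh (τ / 2)) with hH
  have hHd : ∀ τ : ℝ, 0 < τ → HasDerivAt H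
      ((-C'' τ + m ^ 2 * C τ) * n τ + 2 * ((C 0 - C τ) * Lpp τ)) τ := by
    intro τ hτ
    have a1 := (h2 τ).neg.mul (hn.d1 τ hτ)
    have a2 := (h1 τ).mul (hn.d2 τ hτ)
    have a3 := (NB_hasDerivAt_inv_sinh hτ).const_mul (C 0)
    have a4 := (a1.add a2).sub a3
    have a5 : HasDerivAt H (((-C'' τ) * n τ + (-C' τ) * n' τ) +
        (C' τ * n' τ + C τ * (m ^ 2 * n τ - 2 * Lpp τ)) - C 0 * (-(2 * Lpp τ))) τ := by
      refine a4.congr_of_eventuallyEq (Eventually.of_forall ?_)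
      intro y
      simp [hH]
    have a6 : ((-C'' τ) * n τ + (-C' τ) * n' τ) +
        (C' τ * n' τ + C τ * (m ^ 2 * n τ - 2 * Lpp τ)) - C 0 * (-(2 * Lpp τ)) =
        (-C'' τ + m ^ 2 * C τ) * n τ + 2 * ((C 0 - C τ) * Lpp τ) := by ring
    rw [a6] at a5
    exact a5
  have hexpT : Tendsto (fun τ : ℝ => K * Real.exp (-(κ * |τ|))) atTop (𝓝 0) := by
    have b1 : Tendsto (fun τ : ℝ => κ * |τ|) atTop atTop :=
      (tendsto_abs_atTop_atTop).const_mul_atTop hκ
    have b2 : Tendsto (fun τ : ℝ => Real.exp (-(κ * |τ|))) atTop (𝓝 0) :=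
      Real.tendsto_exp_neg_atTop_nhds_zero.comp b1
    have b3 := b2.const_mul K
    rwa [mul_zero] at b3
  have hHtop : Tendsto H atTop (𝓝 0) := by
    obtain ⟨K2, hK2⟩ := hn.far
    have c1 : Tendsto (fun τ => -C' τ * n τ) atTop (𝓝 0) := by
      have e1 : Tendsto (fun τ : ℝ => (K * Real.exp (-(κ * |τ|))) * K2) atTop (𝓝 0) := by
        have := hexpT.mul_const K2
        rwa [zero_mul] at this
      refine squeeze_zero_norm' ?_ e1
      filter_upwards [eventually_ge_atTop (1:ℝ)] with τ hτ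
      rw [Real.norm_eq_abs, abs_mul, abs_neg]
      exact mul_le_mul (hd τ).2.1 (hK2 τ hτ).1 (abs_nonneg _)
        (mul_nonneg hK0 (Real.exp_pos _).le)
    have c2 : Tendsto (fun τ => C τ * n' τ) atTop (𝓝 0) := by
      have e1 : Tendsto (fun τ : ℝ => (K * Real.exp (-(κ * |τ|))) * K2) atTop (𝓝 0) := by
        have := hexpT.mul_const K2
        rwa [zero_mul] at this
      refine squeeze_zero_norm' ?_ e1
      filter_upwards [eventually_ge_atTop (1:ℝ)] with τ hτ
      rw [Real.norm_eq_abs, abs_mul]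
      exact mul_le_mul (hd τ).1 (hK2 τ hτ).2 (abs_nonneg _)
        (mul_nonneg hK0 (Real.exp_pos _).le)
    have c3 : Tendsto (fun τ : ℝ => C 0 * (1 / Real.sinh (τ / 2))) atTop (𝓝 0) := by
      have e1 : Tendsto (fun τ : ℝ => Real.sinh (τ / 2)) atTop atTop := by
        have e0 : Tendsto (fun τ : ℝ => τ / 2) atTop atTop :=
          tendsto_id.atTop_div_const (by norm_num)
        refine tendsto_atTop_mono' atTop ?_ e0
        filter_upwards [eventually_ge_atTop (0:ℝ)] with τ hτ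
        exact Real.self_le_sinh_iff.2 (by linarith)
      have e2 : Tendsto (fun τ : ℝ => 1 / Real.sinh (τ / 2)) atTop (𝓝 0) :=
        Tendsto.div_atTop tendsto_const_nhds e1
      have e3 := e2.const_mul (C 0)
      rwa [mul_zero] at e3
    have c4 := (c1.add c2).sub c3
    simpa [hH] using c4
  have hH0 : Tendsto H (𝓝[>] 0) (𝓝 0) := by
    obtain ⟨K1, hK1⟩ := hn.near
    have c1 : Tendsto (fun τ => -C' τ * n τ) (𝓝[>] 0) (𝓝 0) := by
      have e1 : Tendsto (fun τ : ℝ => K * (K1 * (τ + |τ * Real.log τ|))) (𝓝[>] 0) (𝓝 0) := by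
        have f1 : Tendsto (fun τ : ℝ => K * (K1 * (τ + |τ * Real.log τ|))) (𝓝 0)
            (𝓝 (K * (K1 * (0 + |0 * Real.log 0|)))) := by
          have f2 : Continuous (fun τ : ℝ => K * (K1 * (τ + |τ * Real.log τ|))) :=
            continuous_const.mul (continuous_const.mul
              (continuous_id.add (Real.continuous_mul_log.abs)))
          exact f2.tendsto 0
        have f3 : K * (K1 * (0 + |0 * Real.log 0|)) = 0 := by simp
        rw [f3] at f1
        exact f1.mono_left nhdsWithin_le_nhds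
      refine squeeze_zero_norm' ?_ e1
      have hev : ∀ᶠ τ : ℝ in 𝓝[>] 0, τ ∈ Ioo (0:ℝ) 1 := Ioo_mem_nhdsGT one_pos
      filter_upwards [hev] with τ hτ
      rw [Real.norm_eq_abs, abs_mul, abs_neg]
      calc |C' τ| * |n τ| ≤ (K * τ) * (K1 * (1 + |Real.log τ|)) :=
            mul_le_mul (hnear τ hτ.1.le).1 (hK1 τ hτ.1 hτ.2.le) (abs_nonneg _)
              (mul_nonneg hK0 hτ.1.le)
        _ = K * (K1 * (τ + |τ * Real.log τ|)) := by
            rw [abs_mul, abs_of_pos hτ.1]; ring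
    have c2 : Tendsto (fun τ => C τ * (n' τ - 2 / τ)) (𝓝[>] 0) (𝓝 0) := by
      have e1 : Tendsto C (𝓝[>] 0) (𝓝 (C 0)) := (hCc.tendsto 0).mono_left nhdsWithin_le_nhds
      have e2 := e1.mul hn.z1
      rwa [mul_zero] at e2
    have c3 : Tendsto (fun τ => 2 * ((C τ - C 0) / τ)) (𝓝[>] 0) (𝓝 0) := by
      have e1 : Tendsto (fun τ : ℝ => 2 * (K * τ)) (𝓝[>] 0) (𝓝 0) := by
        have f1 : Tendsto (fun τ : ℝ => 2 * (K * τ)) (𝓝 0) (𝓝 (2 * (K * 0))) :=
          (continuous_const.mul (continuous_const.mul continuous_id)).tendsto 0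
        rw [mul_zero, mul_zero] at f1
        exact f1.mono_left nhdsWithin_le_nhds
      refine squeeze_zero_norm' ?_ e1
      filter_upwards [self_mem_nhdsWithin] with τ hτ
      have hτ0 : (0:ℝ) < τ := hτ
      rw [Real.norm_eq_abs, abs_mul, abs_div, abs_of_pos hτ0, abs_of_pos (by norm_num : (0:ℝ) < 2)]
      refine mul_le_mul_of_nonneg_left ?_ (by norm_num)
      rw [div_le_iff₀ hτ0, abs_sub_comm]
      calc |C 0 - C τ| ≤ K * τ ^ 2 := (hnear τ hτ0.le).2
        _ = K * τ * τ := by ring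
    have c4 : Tendsto (fun τ => C 0 * (2 / τ - 1 / Real.sinh (τ / 2))) (𝓝[>] 0) (𝓝 0) := by
      have e2 := NB_inv_sinh.const_mul (C 0)
      rwa [mul_zero] at e2
    have c5 := ((c1.add c2).add c3).add c4
    rw [add_zero, add_zero, add_zero] at c5
    refine c5.congr' ?_
    filter_upwards [self_mem_nhdsWithin] with τ hτ
    have hτ0 : (0:ℝ) < τ := hτ
    simp only [hH]
    field_simp
    ring
  -- fundamental theorem
  set G : ℝ → ℝ := fun τ => if 0 < τ then H τ else 0 with hG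
  have hGcont : ContinuousWithinAt G (Ici 0) 0 := by
    have hG0 : G 0 = 0 := by simp [hG]
    have e1 : Tendsto G (𝓝[>] 0) (𝓝 (G 0)) := by
      rw [hG0]
      refine hH0.congr' ?_
      filter_upwards [self_mem_nhdsWithin] with τ hτ
      have hτ0 : (0:ℝ) < τ := hτ
      simp [hG, hτ0]
    have e2 : ContinuousWithinAt G (Ioi 0) 0 := e1
    exact continuousWithinAt_Ioi_iff_Ici.1 e2
  have hGd : ∀ τ ∈ Ioi (0:ℝ), HasDerivAt G
      ((-C'' τ + m ^ 2 * C τ) * n τ + 2 * ((C 0 - C τ) * Lpp τ)) τ := by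
    intro τ hτ
    refine (hHd τ hτ).congr_of_eventuallyEq ?_
    filter_upwards [Ioi_mem_nhds (show (0:ℝ) < τ from hτ)] with y hy
    have hy0 : (0:ℝ) < y := hy
    simp [hG, hy0]
  have hGtop : Tendsto G atTop (𝓝 0) := by
    refine hHtop.congr' ?_
    filter_upwards [eventually_gt_atTop (0:ℝ)] with τ hτ
    simp [hG, hτ]
  have hI : IntegrableOn (fun τ => (-C'' τ + m ^ 2 * C τ) * n τ +
      2 * ((C 0 - C τ) * Lpp τ)) (Ioi 0) := hI1.add (hI2.const_mul 2)
  have hFTC := integral_Ioi_of_hasDerivAt_of_tendsto hGcont hGd hI hGtop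
  have hG0 : G 0 = 0 := by simp [hG]
  rw [hG0, sub_zero, integral_add hI1 (hI2.const_mul 2), integral_const_mul] at hFTC
  linarith

end Pool.Agent.H51.DG
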