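import Pool.Agent.H51.DG.NA
import Pool.Agent.H51.DG.NB

/-!
# DG2 job NC: the difference formula on the line

`g = A' + m A` is continuous and exponentially decaying, `G τ = corr g g τ = -C'' + m² C` with
`C = corr A A` (expand, `corr A' A τ + corr A A' τ = 0` by `corr_parts`; `C'' = -corr A' A'`).
`∫∫ g(r) g(s) n|r-s| dr ds = ∫ G(τ) n|τ| dτ` (Fubini for the product measure, substitution
`r = s + τ`, i.e. the measure preserving shear `(s,τ) ↦ (s+τ,s)`; integrability from
`KerN.integrableOn` applied on both half lines and the exponential decay) `= 2 ∫_{Ioi 0} G n`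
(`G` is even) `= -4 ∫_{Ioi 0} (C(0)-C) Lpp = -2 ∫_{Ioi 0} Lpp DD A` by `KerN.by_parts`, `DD_eq`.
-/

set_option autoImplicit false
open Real Set MeasureTheory Filter Topology

namespace Pool.Agent.H51.DG

theorem integrableOn_Lpp_DD {A A' : ℝ → ℝ} (hA : Adm A A') :
    IntegrableOn (fun τ => Lpp τ * DD A τ) (Ioi 0) := by
  obtain ⟨K, hK⟩ := DD_le hA
  have hK0 : 0 ≤ K := (DD_nonneg A 0).trans (hK 0).2
  have hmeas : AEStronglyMeasurable (fun τ => Lpp τ * DD A τ) (volume.restrict (Ioi (0:ℝ))) :=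
    (continuousOn_Lpp.mul (continuous_DD hA).continuousOn).aestronglyMeasurable measurableSet_Ioi
  have hu : Ioi (0:ℝ) = Ioc 0 1 ∪ Ioi 1 := (Ioc_union_Ioi_eq_Ioi zero_le_one).symm
  rw [hu]
  refine IntegrableOn.union ?_ ?_
  · have h1 : IntegrableOn (fun _ : ℝ => 2 * K) (Ioc 0 1) := integrableOn_const (by simp)
    refine Integrable.mono' h1 (hmeas.mono_measure (Measure.restrict_mono
      (by rw [hu]; exact subset_union_left) le_rfl)) ?_
    refine (ae_restrict_iff' measurableSet_Ioc).2 (Eventually.of_forall fun τ hτ => ?_)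
    rw [Real.norm_eq_abs, abs_mul, abs_of_nonneg (DD_nonneg A τ),
      abs_of_pos (Lpp_pos hτ.1.ne')]
    have h2 := Lpp_le_near hτ.1 (hτ.2.trans one_le_two)
    have h3 := (hK τ).1
    have hτ2 : 0 < τ ^ 2 := pow_pos hτ.1 2
    calc Lpp τ * DD A τ ≤ (2 / τ ^ 2) * (K * τ ^ 2) :=
          mul_le_mul h2 h3 (DD_nonneg A τ) (by positivity)
      _ = 2 * K := by
          rw [mul_comm K (τ ^ 2), ← mul_assoc, div_mul_cancel₀ _ hτ2.ne']
  · have h1 : IntegrableOn (fun τ : ℝ => 2 * K * Real.exp (-(1 / 2) * τ)) (Ioi 1) :=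
      (integrableOn_exp_mul_Ioi (by norm_num) 1).const_mul (2 * K)
    refine Integrable.mono' h1 (hmeas.mono_measure (Measure.restrict_mono
      (by rw [hu]; exact subset_union_right) le_rfl)) ?_
    refine (ae_restrict_iff' measurableSet_Ioi).2 (Eventually.of_forall fun τ hτ => ?_)
    have hτ1 : (1:ℝ) < τ := hτ
    rw [Real.norm_eq_abs, abs_mul, abs_of_nonneg (DD_nonneg A τ),
      abs_of_pos (Lpp_pos (by linarith))]
    have h2 := Lpp_le_far hτ1.le
    have h3 := (hK τ).2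
    have h4 : -τ / 2 = -(1 / 2) * τ := by ring
    rw [h4] at h2
    calc Lpp τ * DD A τ ≤ (2 * Real.exp (-(1 / 2) * τ)) * K :=
          mul_le_mul h2 h3 (DD_nonneg A τ) (by positivity)
      _ = 2 * K * Real.exp (-(1 / 2) * τ) := by ring

theorem NC_abs {f : ℝ → ℝ} (hf : IntegrableOn f (Ioi 0)) : Integrable (fun τ : ℝ => f |τ|) := by
  have h1 : IntegrableOn (fun τ : ℝ => f |τ|) (Ioi 0) := by
    refine hf.congr_fun (fun τ hτ => ?_) measurableSet_Ioi
    show f τ = f |τ|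
    rw [abs_of_pos hτ]
  have h2 : IntegrableOn (fun τ : ℝ => f |τ|) (Iic 0) := by
    rw [← Measure.map_neg_eq_self (volume : Measure ℝ)]
    have m : MeasurableEmbedding fun x : ℝ => -x := (Homeomorph.neg ℝ).measurableEmbedding
    rw [m.integrableOn_map_iff]
    simp_rw [Function.comp_def, abs_neg, neg_preimage, neg_Iic, neg_zero]
    rw [integrableOn_Ici_iff_integrableOn_Ioi]
    exact h1
  have h3 := h2.union h1
  rwa [Iic_union_Ioi, integrableOn_univ] at h3

/-- the function `A' + m A` -/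
theorem NC_g {A A' : ℝ → ℝ} (hA : Adm A A') (m : ℝ) : ∃ K κ : ℝ, 0 < κ ∧
    NA_E K κ (fun r => A' r + m * A r) := by
  obtain ⟨K, κ, hκ, h1, h2, -, -⟩ := NA_common hA hA
  refine ⟨K + |m| * K, κ, hκ, h2.1.add (continuous_const.mul h1.1), fun r => ?_⟩
  have h3 := abs_add_le (A' r) (m * A r)
  rw [abs_mul] at h3
  have h4 := mul_le_mul_of_nonneg_left (h1.2 r) (abs_nonneg m)
  have h5 := h2.2 r
  show |A' r + m * A r| ≤ (K + |m| * K) * Real.exp (-(κ * |r|))
  nlinarith

/-- the integrand in the variables `(s, τ)`, `r = s + τ` -/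
theorem NC_int {m : ℝ} {n n' : ℝ → ℝ} (hn : KerN m n n') {g : ℝ → ℝ} {K κ : ℝ} (hκ : 0 < κ)
    (hg : NA_E K κ g) :
    Integrable (fun z : ℝ × ℝ => g z.1 * g (z.1 + z.2) * n |z.2|) := by
  have hκ2 : 0 < κ / 2 := half_pos hκ
  have h1 : IntegrableOn (fun τ => Real.exp (-((κ / 2) * |τ|)) * n τ) (Ioi 0) := by
    refine KerN.integrableOn hn ?_ (K := 1) hκ2 fun τ => ?_
    · exact Real.continuous_exp.comp (continuous_const.mul continuous_abs).neg
    · rw [abs_of_pos (Real.exp_pos _), one_mul]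
  have h2 : Integrable (fun τ : ℝ => Real.exp (-((κ / 2) * |τ|)) * n |τ|) := by
    have h3 := NC_abs h1
    refine h3.congr (Eventually.of_forall fun τ => ?_)
    show Real.exp (-((κ / 2) * |(|τ|)|)) * n |τ| = _
    rw [abs_abs]
  have h3 : Integrable (fun z : ℝ × ℝ => Real.exp (-((κ / 2) * |z.1|)) *
      (Real.exp (-((κ / 2) * |z.2|)) * n |z.2|)) := (NA_int_exp hκ2).mul_prod h2
  have hcont : Continuous (fun z : ℝ × ℝ => g z.1 * g (z.1 + z.2) *
      (Real.exp ((κ / 2) * |z.1|) * Real.exp ((κ / 2) * |z.2|))) := by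
    have c1 := hg.1.comp continuous_fst (X := ℝ × ℝ)
    have c2 := hg.1.comp (continuous_fst.add continuous_snd) (X := ℝ × ℝ)
    have c3 : Continuous (fun z : ℝ × ℝ => Real.exp ((κ / 2) * |z.1|)) :=
      Real.continuous_exp.comp (continuous_const.mul (continuous_abs.comp continuous_fst))
    have c4 : Continuous (fun z : ℝ × ℝ => Real.exp ((κ / 2) * |z.2|)) :=
      Real.continuous_exp.comp (continuous_const.mul (continuous_abs.comp continuous_snd))
    exact (c1.mul c2).mul (c3.mul c4)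
  have h4 := h3.bdd_mul (c := K ^ 2) hcont.aestronglyMeasurable
    (Eventually.of_forall fun z => by
      have hK := NA_E_nonneg hg
      rw [Real.norm_eq_abs, abs_mul, abs_mul, abs_of_pos (mul_pos (Real.exp_pos _)
        (Real.exp_pos _))]
      have e1 := hg.2 z.1
      have e2 := hg.2 (z.1 + z.2)
      have e3 : |z.2| ≤ |z.1| + |z.1 + z.2| := by
        have h5 := abs_sub (z.1 + z.2) z.1
        have h6 : z.1 + z.2 - z.1 = z.2 := by ring
        rw [h6] at h5
        linarith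
      have e4 : Real.exp (-(κ * |z.1|)) * Real.exp (-(κ * |z.1 + z.2|)) *
          (Real.exp ((κ / 2) * |z.1|) * Real.exp ((κ / 2) * |z.2|)) ≤ 1 := by
        rw [← Real.exp_add, ← Real.exp_add, ← Real.exp_add, Real.exp_le_one_iff]
        have h6 := mul_le_mul_of_nonneg_left e3 hκ.le
        have h7 := mul_nonneg hκ.le (abs_nonneg (z.1 + z.2))
        nlinarith
      calc |g z.1| * |g (z.1 + z.2)| * (Real.exp ((κ / 2) * |z.1|) * Real.exp ((κ / 2) * |z.2|))
          ≤ (K * Real.exp (-(κ * |z.1|))) * (K * Real.exp (-(κ * |z.1 + z.2|))) *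
            (Real.exp ((κ / 2) * |z.1|) * Real.exp ((κ / 2) * |z.2|)) := by
            refine mul_le_mul_of_nonneg_right ?_ (by positivity)
            exact mul_le_mul e1 e2 (abs_nonneg _) (mul_nonneg hK (Real.exp_pos _).le)
        _ = K ^ 2 * (Real.exp (-(κ * |z.1|)) * Real.exp (-(κ * |z.1 + z.2|)) *
            (Real.exp ((κ / 2) * |z.1|) * Real.exp ((κ / 2) * |z.2|))) := by ring
        _ ≤ K ^ 2 * 1 := mul_le_mul_of_nonneg_left e4 (by positivity)
        _ = K ^ 2 := mul_one _)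
  refine h4.congr (Eventually.of_forall fun z => ?_)
  show g z.1 * g (z.1 + z.2) * (Real.exp ((κ / 2) * |z.1|) * Real.exp ((κ / 2) * |z.2|)) *
    (Real.exp (-((κ / 2) * |z.1|)) * (Real.exp (-((κ / 2) * |z.2|)) * n |z.2|)) = _
  rw [Real.exp_neg, Real.exp_neg]
  have p1 := (Real.exp_pos ((κ / 2) * |z.1|)).ne'
  have p2 := (Real.exp_pos ((κ / 2) * |z.2|)).ne'
  field_simp

theorem NC_shear (g n : ℝ → ℝ) :
    (fun z : ℝ × ℝ => g z.1 * g (z.1 + z.2) * n |z.2|) =
      (fun z : ℝ × ℝ => g z.1 * g z.2 * n |z.1 - z.2|) ∘ (fun z : ℝ × ℝ => (z.1, z.1 + z.2)) := by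
  funext z
  show g z.1 * g (z.1 + z.2) * n |z.2| = g z.1 * g (z.1 + z.2) * n |z.1 - (z.1 + z.2)|
  have h : z.1 - (z.1 + z.2) = -z.2 := by ring
  rw [h, abs_neg]

theorem NC_mp : MeasurePreserving (fun z : ℝ × ℝ => (z.1, z.1 + z.2)) volume volume :=
  measurePreserving_prod_add volume volume

theorem NC_emb : MeasurableEmbedding (fun z : ℝ × ℝ => (z.1, z.1 + z.2)) :=
  (MeasurableEquiv.shearAddRight ℝ).measurableEmbedding

theorem KerN.integrable_prod {m : ℝ} {n n' : ℝ → ℝ} (hn : KerN m n n') {A A' : ℝ → ℝ}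
    (hA : Adm A A') :
    Integrable (fun z : ℝ × ℝ =>
      (A' z.1 + m * A z.1) * (A' z.2 + m * A z.2) * n |z.1 - z.2|) := by
  obtain ⟨K, κ, hκ, hg⟩ := NC_g hA m
  have h1 := NC_int hn hκ hg
  rw [NC_shear (fun r => A' r + m * A r) n, NC_mp.integrable_comp_emb NC_emb] at h1
  exact h1

theorem NC_corr {A A' : ℝ → ℝ} (hA : Adm A A') (m τ : ℝ) :
    corr (fun r => A' r + m * A r) (fun r => A' r + m * A r) τ =
      corr A' A' τ + m ^ 2 * corr A A τ := by
  obtain ⟨i1, i2, i3, i4⟩ := Adm.integrable_mul hA hA τ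
  have h1 := corr_parts hA hA τ
  unfold corr at h1 ⊢
  have j1 : Integrable (fun r => m ^ 2 * (A r * A (r + τ))) := i1.const_mul _
  have j2 : Integrable (fun r => m * (A r * A' (r + τ))) := i2.const_mul _
  have j3 : Integrable (fun r => m * (A' r * A (r + τ))) := i3.const_mul _
  have e : (fun r => (A' r + m * A r) * (A' (r + τ) + m * A (r + τ))) = fun r =>
      (A' r * A' (r + τ) + m ^ 2 * (A r * A (r + τ))) +
        (m * (A r * A' (r + τ)) + m * (A' r * A (r + τ))) := by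
    funext r
    ring
  have j4 : Integrable (fun r => A' r * A' (r + τ) + m ^ 2 * (A r * A (r + τ))) := i4.add j1
  have j5 : Integrable (fun r => m * (A r * A' (r + τ)) + m * (A' r * A (r + τ))) := j2.add j3
  rw [e, integral_add j4 j5, integral_add i4 j1, integral_add j2 j3, integral_const_mul,
    integral_const_mul, integral_const_mul, h1]
  ring

theorem KerN.diff_formula {m : ℝ} {n n' : ℝ → ℝ} (hn : KerN m n n') {A A' : ℝ → ℝ}
    (hA : Adm A A') :
    ∫ z : ℝ × ℝ, (A' z.1 + m * A z.1) * (A' z.2 + m * A z.2) * n |z.1 - z.2| =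
      - 2 * ∫ τ in Ioi (0:ℝ), Lpp τ * DD A τ := by
  obtain ⟨K, κ, hκ, hg⟩ := NC_g hA m
  obtain ⟨g, hgd⟩ : ∃ g : ℝ → ℝ, g = fun r => A' r + m * A r := ⟨_, rfl⟩
  rw [← hgd] at hg
  have hint := NC_int hn hκ hg
  have e1 : (fun z : ℝ × ℝ => (A' z.1 + m * A z.1) * (A' z.2 + m * A z.2) * n |z.1 - z.2|) =
      fun z : ℝ × ℝ => g z.1 * g z.2 * n |z.1 - z.2| := by
    rw [hgd]
  have e2 : ∫ z : ℝ × ℝ, g z.1 * g z.2 * n |z.1 - z.2| =
      ∫ z : ℝ × ℝ, g z.1 * g (z.1 + z.2) * n |z.2| := by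
    rw [NC_shear g n]
    exact (NC_mp.integral_comp NC_emb (fun z : ℝ × ℝ => g z.1 * g z.2 * n |z.1 - z.2|)).symm
  have e3 : ∫ z : ℝ × ℝ, g z.1 * g (z.1 + z.2) * n |z.2| = ∫ τ : ℝ, corr g g τ * n |τ| := by
    have h1 := integral_prod_symm (μ := (volume : Measure ℝ)) (ν := (volume : Measure ℝ))
      (fun z : ℝ × ℝ => g z.1 * g (z.1 + z.2) * n |z.2|) hint
    rw [Measure.volume_eq_prod, h1]
    refine integral_congr_ae (Eventually.of_forall fun τ => ?_)
    exact integral_mul_const (n |τ|) (fun x => g x * g (x + τ))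
  have hev : ∀ τ, corr g g τ = corr g g |τ| := by
    intro τ
    rcases abs_choice τ with h | h
    · rw [h]
    · rw [h, corr_swap]
  have e4 : ∫ τ : ℝ, corr g g τ * n |τ| = 2 * ∫ τ in Ioi (0:ℝ), corr g g τ * n τ := by
    rw [← integral_comp_abs]
    refine integral_congr_ae (Eventually.of_forall fun τ => ?_)
    show corr g g τ * n |τ| = corr g g |τ| * n |τ|
    rw [← hev]
  obtain ⟨K1, κ1, hκ1, hdec⟩ := corr_decay hA hA
  have hd0 : corr A A' 0 = 0 := by
    have h3 := corr_parts hA hA 0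
    have h4 := corr_swap A A' 0
    rw [neg_zero] at h4
    linarith
  have key := KerN.by_parts hn (C := corr A A) (C' := corr A A') (C'' := fun τ => -corr A' A' τ)
    (hasDerivAt_corr hA hA) (hasDerivAt_corr' hA hA) (continuous_corr'' hA hA).neg hd0 hκ1
    (fun τ => ⟨(hdec τ).1, (hdec τ).2.1, by rw [abs_neg]; exact (hdec τ).2.2⟩)
  have e5 : ∫ τ in Ioi (0:ℝ), corr g g τ * n τ =
      - 2 * ∫ τ in Ioi (0:ℝ), (corr A A 0 - corr A A τ) * Lpp τ := by
    rw [← key.2]
    refine integral_congr_ae (Eventually.of_forall fun τ => ?_)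
    show corr g g τ * n τ = (- -corr A' A' τ + m ^ 2 * corr A A τ) * n τ
    rw [hgd, NC_corr hA, neg_neg]
  have e6 : ∫ τ in Ioi (0:ℝ), Lpp τ * DD A τ =
      2 * ∫ τ in Ioi (0:ℝ), (corr A A 0 - corr A A τ) * Lpp τ := by
    rw [← integral_const_mul]
    refine integral_congr_ae (Eventually.of_forall fun τ => ?_)
    show Lpp τ * DD A τ = 2 * ((corr A A 0 - corr A A τ) * Lpp τ)
    rw [DD_eq hA]
    ring
  rw [e1, e2, e3, e4, e5, e6]
  ring

end Pool.Agent.H51.DG
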