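import Pool.Agent.H51.DG.NF
import Pool.Agent.H51.DG.NC

/-!
# DG2 job CA: coercivity of `N3`, part 1

`N3 b ≥ 2 ∫_{(1,2]} Lpp DD ≥ (1/4) ∫_{(1,2]} DD` (`Lpp_ge`, integrability
`integrableOn_Lpp_DD (adm_Am hb _)`), so a lower bound `d` of `DD (Am (3/2) b)` on `[1,2]` gives
`d ≤ 4 N3 b`.

`N3_short`: `b` vanishes on `(l,π)`, `l ≤ π/2`, `M = ∫_0^π b`.  For `r ≥ r1 := log tan(l/2)`
(`th r ≥ l`) `MMb b r = M`, so for `τ ∈ [1,2]`
`DD ≥ ∫_{r1}^∞ M² e^{-3r} (1 - e^{-3τ/2})² dr ≥ (M²/3) (1/tan(l/2))³ (1 - e^{-3/2})²`, and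
`tan(l/2) ≤ 2l/π` for `0 ≤ l/2 ≤ π/4` (convexity), `(π/2)³/3 * 0.60 = 0.77`: `M² ≤ 8 l³ N3 b`.

`N3_near`: `x0 = th (log 2) = 2 arctan 2` (`ct x0 = 1/2`), `Mn = ∫_0^{x0} b`, `Mf = ∫_{x0}^π b`.
If `Mf ≤ Mn`, then for `r ∈ [log 2, 1 + log 2]`, `τ ∈ [1,2]`:
`Am(r) - Am(r+τ) ≥ e^{-3r/2}(Mn - e^{-3/2}(Mn+Mf)) ≥ e^{-3r/2} Mn (1 - 2e^{-3/2}) ≥ 0.55 e^{-3r/2} Mn`
(monotonicity of `MMb b`), so `DD ≥ 0.3 Mn² ∫ e^{-3r} = 0.3 Mn² (1-e^{-3})/24 ≥ 0.0118 Mn²`, and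
`M ≤ 2 Mn`: `M² ≤ 2000 N3 b`.
-/

set_option autoImplicit false
open Real Set MeasureTheory Filter Topology

namespace Pool.Agent.H51.DG

theorem N3_ge {b : ℝ → ℝ} (hb : Bd b) {d : ℝ}
    (h : ∀ τ ∈ Icc (1:ℝ) 2, d ≤ DD (Am (3 / 2) b) τ) : d ≤ 4 * N3 b := by
  have hA := adm_Am hb (m := 3 / 2) (by norm_num)
  have hI := integrableOn_Lpp_DD hA
  have hsub : Ioc (1:ℝ) 2 ⊆ Ioi (0:ℝ) := fun τ hτ => lt_trans zero_lt_one hτ.1
  have h1 : ∫ τ in Ioc (1:ℝ) 2, Lpp τ * DD (Am (3 / 2) b) τ ≤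
      ∫ τ in Ioi (0:ℝ), Lpp τ * DD (Am (3 / 2) b) τ := by
    refine setIntegral_mono_set hI ?_ (LE.le.eventuallyLE hsub)
    refine (ae_restrict_iff' measurableSet_Ioi).2 (Eventually.of_forall fun τ hτ => ?_)
    exact mul_nonneg (Lpp_pos (ne_of_gt hτ)).le (DD_nonneg _ _)
  have h2 : ∫ _ in Ioc (1:ℝ) 2, 1 / 8 * d ≤ ∫ τ in Ioc (1:ℝ) 2, Lpp τ * DD (Am (3 / 2) b) τ := by
    refine setIntegral_mono_on (integrableOn_const (by simp)) (hI.mono_set hsub)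
      measurableSet_Ioc fun τ hτ => ?_
    have h3 := Lpp_ge (lt_trans zero_lt_one hτ.1) hτ.2
    have h4 := h τ ⟨hτ.1.le, hτ.2⟩
    have h5 := DD_nonneg (Am (3 / 2) b) τ
    nlinarith
  have h3 : ∫ _ in Ioc (1:ℝ) 2, 1 / 8 * d = 1 / 8 * d := by
    rw [setIntegral_const]
    norm_num
  unfold N3
  linarith

/-- lower bound of `DD` from a lower bound of the differences on a half line -/
theorem CA_DD_ge {A A' : ℝ → ℝ} (hA : Adm A A') {c r₁ τ : ℝ} (hc : 0 ≤ c)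
    (h : ∀ r, r₁ < r → c * Real.exp (-(3 / 2 * r)) ≤ A r - A (r + τ)) :
    c ^ 2 * Real.exp (-(3 * r₁)) / 3 ≤ DD A τ := by
  have hI := (NA_diff hA hA τ).1
  have e0 : (fun r => (A (r + τ) - A r) * (A (r + τ) - A r)) = fun r => (A (r + τ) - A r) ^ 2 := by
    funext r
    ring
  rw [e0] at hI
  have h1 : ∫ r in Ioi r₁, (A (r + τ) - A r) ^ 2 ≤ DD A τ := by
    unfold DD
    exact setIntegral_le_integral hI (Eventually.of_forall fun r => sq_nonneg _)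
  have h2 : ∫ r in Ioi r₁, c ^ 2 * Real.exp (-3 * r) ≤ ∫ r in Ioi r₁, (A (r + τ) - A r) ^ 2 := by
    refine setIntegral_mono_on ((integrableOn_exp_mul_Ioi (by norm_num) _).const_mul _)
      hI.integrableOn measurableSet_Ioi fun r hr => ?_
    have h3 := h r hr
    have h4 : 0 ≤ c * Real.exp (-(3 / 2 * r)) := mul_nonneg hc (Real.exp_pos _).le
    have h5 : (c * Real.exp (-(3 / 2 * r))) ^ 2 ≤ (A r - A (r + τ)) ^ 2 :=
      pow_le_pow_left₀ h4 h3 2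
    have h6 : Real.exp (-3 * r) = Real.exp (-(3 / 2 * r)) ^ 2 := by
      rw [← Real.exp_nat_mul]
      congr 1
      push_cast
      ring
    rw [h6]
    calc c ^ 2 * Real.exp (-(3 / 2 * r)) ^ 2 = (c * Real.exp (-(3 / 2 * r))) ^ 2 := by ring
      _ ≤ (A r - A (r + τ)) ^ 2 := h5
      _ = (A (r + τ) - A r) ^ 2 := by ring
  have h3 : ∫ r in Ioi r₁, c ^ 2 * Real.exp (-3 * r) = c ^ 2 * Real.exp (-(3 * r₁)) / 3 := by
    rw [integral_const_mul, integral_exp_mul_Ioi (by norm_num)]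
    have e : (-3 * r₁ : ℝ) = -(3 * r₁) := by ring
    rw [e]
    ring
  linarith

theorem CA_exp_three_half : Real.exp (-(3 / 2 : ℝ)) ≤ 1 / 4 := by
  have h0 : (4:ℝ) ≤ Real.exp (3 / 2) := by
    by_contra hlt
    push Not at hlt
    have h1 : Real.exp (3 / 2) ^ 2 < 4 ^ 2 := pow_lt_pow_left₀ hlt (Real.exp_pos _).le (by norm_num)
    have h2 : Real.exp (3 / 2) ^ 2 = Real.exp 1 ^ 3 := by
      rw [← Real.exp_nat_mul, ← Real.exp_nat_mul]
      congr 1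
      norm_num
    have h3 : (2.7:ℝ) ^ 3 ≤ Real.exp 1 ^ 3 := by
      have := Real.exp_one_gt_d9
      exact pow_le_pow_left₀ (by norm_num) (by linarith) 3
    rw [h2] at h1
    norm_num at h1 h3
    linarith
  rw [Real.exp_neg]
  have h1 : (Real.exp (3 / 2))⁻¹ ≤ 4⁻¹ := inv_anti₀ (by norm_num) h0
  linarith

theorem CA_MMb_mono {b : ℝ → ℝ} (hb : Bd b) {r s : ℝ} (h : r ≤ s) : MMb b r ≤ MMb b s := by
  have hth : th r ≤ th s := by
    unfold th
    have := Real.arctan_mono (Real.exp_le_exp.2 h)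
    linarith
  have h1 : MMb b s - MMb b r = ∫ x in (th r)..(th s), b x := by
    unfold MMb
    exact intervalIntegral.integral_interval_sub_left (hb.c.intervalIntegrable _ _)
      (hb.c.intervalIntegrable _ _)
  have h2 : 0 ≤ ∫ x in (th r)..(th s), b x :=
    intervalIntegral.integral_nonneg hth fun x hx =>
      hb.nn x ⟨(th_mem r).1.le.trans hx.1, hx.2.trans (th_mem s).2.le⟩
  linarith

theorem CA_MMb_le {b : ℝ → ℝ} (hb : Bd b) (r : ℝ) : MMb b r ≤ ∫ x in (0:ℝ)..π, b x := by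
  have h1 : (∫ x in (0:ℝ)..π, b x) - MMb b r = ∫ x in (th r)..π, b x := by
    unfold MMb
    exact intervalIntegral.integral_interval_sub_left (hb.c.intervalIntegrable _ _)
      (hb.c.intervalIntegrable _ _)
  have h2 : 0 ≤ ∫ x in (th r)..π, b x :=
    intervalIntegral.integral_nonneg (th_mem r).2.le fun x hx =>
      hb.nn x ⟨(th_mem r).1.le.trans hx.1, hx.2⟩
  linarith

/-- comparison of `Am r` and `Am (r + τ)` -/
theorem CA_Am_diff {b : ℝ → ℝ} (hb : Bd b) {P Q r τ : ℝ} (hQ0 : 0 ≤ Q) (hτ : 1 ≤ τ)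
    (hP : P ≤ MMb b r) (hQ : MMb b (r + τ) ≤ Q) :
    (P - 1 / 4 * Q) * Real.exp (-(3 / 2 * r)) ≤ Am (3 / 2) b r - Am (3 / 2) b (r + τ) := by
  have h1 : Real.exp (-(3 / 2 * (r + τ))) ≤ 1 / 4 * Real.exp (-(3 / 2 * r)) := by
    have e : -(3 / 2 * (r + τ)) = -(3 / 2 * τ) + -(3 / 2 * r) := by ring
    rw [e, Real.exp_add]
    refine mul_le_mul_of_nonneg_right ?_ (Real.exp_pos _).le
    refine (Real.exp_le_exp.2 ?_).trans CA_exp_three_half
    linarith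
  unfold Am
  have h2 := Real.exp_pos (-(3 / 2 * r))
  have h3 := Real.exp_pos (-(3 / 2 * (r + τ)))
  have h4 : Real.exp (-(3 / 2 * (r + τ))) * MMb b (r + τ) ≤
      (1 / 4 * Real.exp (-(3 / 2 * r))) * Q :=
    (mul_le_mul_of_nonneg_left hQ h3.le).trans (mul_le_mul_of_nonneg_right h1 hQ0)
  have h5 : Real.exp (-(3 / 2 * r)) * P ≤ Real.exp (-(3 / 2 * r)) * MMb b r :=
    mul_le_mul_of_nonneg_left hP h2.le
  nlinarith

theorem CA_tan_le {l : ℝ} (h0 : 0 < l) (h1 : l ≤ π / 2) :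
    Real.tan (l / 2) ^ 3 ≤ 3 / 8 * l ^ 3 := by
  have hpi := Real.pi_pos
  have hc : Real.sqrt 2 / 2 ≤ Real.cos (l / 2) := by
    rw [← Real.cos_pi_div_four]
    exact Real.cos_le_cos_of_nonneg_of_le_pi (by linarith) (by linarith) (by linarith)
  have hs : Real.sin (l / 2) ≤ l / 2 := Real.sin_le (by linarith)
  have hs0 : 0 < Real.sin (l / 2) := Real.sin_pos_of_pos_of_lt_pi (by linarith) (by linarith)
  have h2 : (1.4:ℝ) ≤ Real.sqrt 2 := by
    rw [show (1.4:ℝ) = Real.sqrt (1.4 ^ 2) from (Real.sqrt_sq (by norm_num)).symm]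
    exact Real.sqrt_le_sqrt (by norm_num)
  have hc2 : (0.7:ℝ) ≤ Real.cos (l / 2) := by linarith
  have hc0 : 0 < Real.cos (l / 2) := by linarith
  have h3 : Real.tan (l / 2) ≤ l / 1.4 := by
    rw [Real.tan_eq_sin_div_cos, div_le_div_iff₀ hc0 (by norm_num)]
    nlinarith
  have h4 : 0 ≤ Real.tan (l / 2) := by
    rw [Real.tan_eq_sin_div_cos]
    positivity
  have h5 : Real.tan (l / 2) ^ 3 ≤ (l / 1.4) ^ 3 := pow_le_pow_left₀ h4 h3 3
  have h6 : (l / 1.4) ^ 3 = l ^ 3 * (1 / 1.4) ^ 3 := by ring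
  have h7 : 0 ≤ l ^ 3 := by positivity
  have h8 : ((1:ℝ) / 1.4) ^ 3 ≤ 3 / 8 := by norm_num
  nlinarith

theorem N3_short {b : ℝ → ℝ} (hb : Bd b) {l : ℝ} (h0 : 0 < l) (h1 : l ≤ π / 2)
    (hs : ∀ x, l ≤ x → x ≤ π → b x = 0) :
    (∫ x in (0:ℝ)..π, b x) ^ 2 ≤ 8 * l ^ 3 * N3 b := by
  have hpi := Real.pi_pos
  set M := ∫ x in (0:ℝ)..π, b x with hM
  have hM0 : 0 ≤ M := intervalIntegral.integral_nonneg hpi.le fun x hx => hb.nn x hx
  set T := Real.tan (l / 2) with hT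
  have hT0 : 0 < T := Real.tan_pos_of_pos_of_lt_pi_div_two (by linarith) (by linarith)
  have hMM : ∀ r, Real.log T < r → M ≤ MMb b r := by
    intro r hr
    have hl : l ≤ th r := by
      have h2 : T ≤ Real.exp r := by
        rw [← Real.exp_log hT0]
        exact Real.exp_le_exp.2 hr.le
      have h3 := Real.arctan_mono h2
      rw [hT, Real.arctan_tan (by linarith) (by linarith)] at h3
      unfold th
      linarith
    have h2 : M - MMb b r = ∫ x in (th r)..π, b x := by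
      rw [hM]
      unfold MMb
      exact intervalIntegral.integral_interval_sub_left (hb.c.intervalIntegrable _ _)
        (hb.c.intervalIntegrable _ _)
    have h3 : ∫ x in (th r)..π, b x = 0 := by
      rw [intervalIntegral.integral_congr (g := fun _ => (0:ℝ))]
      · simp
      · intro x hx
        rw [uIcc_of_le (th_mem r).2.le] at hx
        exact hs x (hl.trans hx.1) hx.2
    linarith
  have hkey : (3 / 4 * M) ^ 2 * Real.exp (-(3 * Real.log T)) / 3 ≤ 4 * N3 b := by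
    refine N3_ge hb fun τ hτ => ?_
    refine CA_DD_ge (adm_Am hb (by norm_num)) (by positivity) fun r hr => ?_
    have h3 := CA_Am_diff hb (P := M) (Q := M) hM0 hτ.1 (hMM r hr) (CA_MMb_le hb _)
    have e : M - 1 / 4 * M = 3 / 4 * M := by ring
    rwa [e] at h3
  have hexp : Real.exp (-(3 * Real.log T)) = (T ^ 3)⁻¹ := by
    rw [Real.exp_neg]
    congr 1
    rw [show (3:ℝ) * Real.log T = ((3:ℕ):ℝ) * Real.log T by norm_num, Real.exp_nat_mul,
      Real.exp_log hT0]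
  rw [hexp] at hkey
  have hT3 : 0 < T ^ 3 := by positivity
  have h4 : (3 / 4 * M) ^ 2 / 3 ≤ 4 * N3 b * T ^ 3 := by
    have h5 := mul_le_mul_of_nonneg_right hkey hT3.le
    have e : (3 / 4 * M) ^ 2 * (T ^ 3)⁻¹ / 3 * T ^ 3 = (3 / 4 * M) ^ 2 / 3 := by
      field_simp
    rwa [e] at h5
  have hN : 0 ≤ N3 b := by
    have h5 := N3_ge hb (d := 0) fun τ _ => DD_nonneg _ _
    linarith
  have h6 := CA_tan_le h0 h1
  rw [← hT] at h6
  have h7 : N3 b * T ^ 3 ≤ N3 b * (3 / 8 * l ^ 3) := mul_le_mul_of_nonneg_left h6 hN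
  nlinarith

theorem N3_near {b : ℝ → ℝ} (hb : Bd b)
    (h : ∫ x in (th (Real.log 2))..π, b x ≤ ∫ x in (0:ℝ)..(th (Real.log 2)), b x) :
    (∫ x in (0:ℝ)..π, b x) ^ 2 ≤ 2000 * N3 b := by
  have hpi := Real.pi_pos
  set M := ∫ x in (0:ℝ)..π, b x with hM
  have hM0 : 0 ≤ M := intervalIntegral.integral_nonneg hpi.le fun x hx => hb.nn x hx
  have h2 : M - MMb b (Real.log 2) = ∫ x in (th (Real.log 2))..π, b x := by
    rw [hM]
    unfold MMb
    exact intervalIntegral.integral_interval_sub_left (hb.c.intervalIntegrable _ _)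
      (hb.c.intervalIntegrable _ _)
  have h3 : M ≤ 2 * MMb b (Real.log 2) := by
    have h4 : MMb b (Real.log 2) = ∫ x in (0:ℝ)..(th (Real.log 2)), b x := rfl
    linarith
  have hn0 := NF_MMb_nonneg hb (Real.log 2)
  have hkey : (1 / 4 * M) ^ 2 * Real.exp (-(3 * Real.log 2)) / 3 ≤ 4 * N3 b := by
    refine N3_ge hb fun τ hτ => ?_
    refine CA_DD_ge (adm_Am hb (by norm_num)) (by positivity) fun r hr => ?_
    have h5 := CA_Am_diff hb (P := 1 / 2 * M) (Q := M) (r := r) hM0 hτ.1 ?_ (CA_MMb_le hb _)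
    · have e : 1 / 2 * M - 1 / 4 * M = 1 / 4 * M := by ring
      rwa [e] at h5
    · have h6 := CA_MMb_mono hb hr.le
      linarith
  have hexp : Real.exp (-(3 * Real.log 2)) = 1 / 8 := by
    rw [Real.exp_neg, show (3:ℝ) * Real.log 2 = ((3:ℕ):ℝ) * Real.log 2 by norm_num,
      Real.exp_nat_mul, Real.exp_log (by norm_num)]
    norm_num
  rw [hexp] at hkey
  nlinarith

end Pool.Agent.H51.DG
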