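import Pool.Agent.H51.DG.St2

/-!
# DG2 job SEv: evaluation of the kernel `SS` on the blocks

`0 < x, y < π`, `Y = ct x`, `Z = ct y` (`ct` is decreasing and positive on `(0,π)`).
`sin((x-y)/2) = sin(x/2) sin(y/2) (Z - Y)`, `cos((x-y)/2) = sin(x/2) sin(y/2)(1 + YZ)`,
`sin(x/2)^{-2} = 1 + Y²`, so `ct(x-y) = (1+YZ)/(Z-Y)`,
`log sin((x-y)/2) - log sin(y/2) = log|Z-Y| + log sin(x/2) = log|Z - Y| - log(1+Y²)/2
 = log|1 - Z/Y| - log(1+1/Y²)/2`, `ph x = (1+Y²)/4`, `dph x = -Y(1+Y²)/4`.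
For the reflected point `2π - x` (near zone, `z = ct x`): `ct(2π-x) = -ct x`,
`sin((2π-x)/2) = sin(x/2)`, `sin((2π-x-y)/2) = sin((x+y)/2) = sin(x/2) sin(y/2) (Y+Z)`,
`cos((2π-x-y)/2) = -cos((x+y)/2) = sin(x/2) sin(y/2)(1 - YZ)`, `Phi l (2π-x) = ph x`,
`dPhi l (2π-x) = -dph x = z(1+z²)/4`, `sg = 1` (`2π - x > π ≥ l`).
Flat zone `l < y < π`: `Phi = 1/4`, `dPhi = 0` (`2π - y > π`), `sg = 1`.
All seven formulas were checked numerically.
-/

set_option autoImplicit false
open Real Set MeasureTheory Filter Topology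

namespace Pool.Agent.H51.DG

theorem SEv_sin {x : ℝ} (h0 : 0 < x) (h1 : x < 2 * π) : 0 < Real.sin (x / 2) :=
  Real.sin_pos_of_pos_of_lt_pi (by linarith) (by linarith)

theorem SEv_cos {x : ℝ} (h0 : 0 < x) (h1 : x < π) : 0 < Real.cos (x / 2) :=
  Real.cos_pos_of_mem_Ioo ⟨by linarith, by linarith⟩

theorem ct_pos {x : ℝ} (h0 : 0 < x) (h1 : x < π) : 0 < ct x :=
  div_pos (SEv_cos h0 h1) (SEv_sin h0 (by linarith [Real.pi_pos]))

theorem ct_lt {x y : ℝ} (h0 : 0 < x) (h1 : x < y) (h2 : y < 2 * π) : ct y < ct x := by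
  have hx := SEv_sin h0 (by linarith)
  have hy := SEv_sin (by linarith) h2
  unfold ct
  rw [div_lt_div_iff₀ hy hx]
  have h := SEv_sin (x := y - x) (by linarith) (by linarith)
  have e : Real.sin ((y - x) / 2) = Real.sin (y / 2) * Real.cos (x / 2)
      - Real.cos (y / 2) * Real.sin (x / 2) := by
    rw [sub_div, Real.sin_sub]
  rw [e] at h
  linarith

theorem SEv_logsin (x y : ℝ) : Real.log (Real.sin ((y - x) / 2)) =
    Real.log (Real.sin ((x - y) / 2)) := by
  have e : (y - x) / 2 = -((x - y) / 2) := by ring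
  rw [e, Real.sin_neg, Real.log_neg_eq_log]

theorem SEv_ct_neg (x : ℝ) : ct (-x) = -ct x := by
  unfold ct
  rw [neg_div, Real.cos_neg, Real.sin_neg, div_neg]

theorem SS_symm (l x y : ℝ) : SS l x y = SS l y x := by
  unfold SS
  rw [SEv_logsin x y, show y - x = -(x - y) by ring, SEv_ct_neg]
  ring

theorem SEv_sin_sub {x y : ℝ} (hx : Real.sin (x / 2) ≠ 0) (hy : Real.sin (y / 2) ≠ 0) :
    Real.sin ((x - y) / 2) = Real.sin (x / 2) * Real.sin (y / 2) * (ct y - ct x) := by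
  rw [sub_div, Real.sin_sub]
  unfold ct
  field_simp

theorem SEv_ct_sub {x y : ℝ} (hx : Real.sin (x / 2) ≠ 0) (hy : Real.sin (y / 2) ≠ 0) :
    ct (x - y) = (1 + ct x * ct y) / (ct y - ct x) := by
  have h1 : Real.cos ((x - y) / 2) =
      Real.sin (x / 2) * Real.sin (y / 2) * (1 + ct x * ct y) := by
    rw [sub_div, Real.cos_sub]
    unfold ct
    field_simp
    ring
  have h2 : ct (x - y) = Real.cos ((x - y) / 2) / Real.sin ((x - y) / 2) := rfl
  rw [h2, h1, SEv_sin_sub hx hy, mul_div_mul_left _ _ (mul_ne_zero hx hy)]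

theorem SEv_sin_add {x y : ℝ} (hx : Real.sin (x / 2) ≠ 0) (hy : Real.sin (y / 2) ≠ 0) :
    Real.sin ((2 * π - x - y) / 2) =
      Real.sin (x / 2) * Real.sin (y / 2) * (ct x + ct y) := by
  have e : (2 * π - x - y) / 2 = π - (x / 2 + y / 2) := by ring
  rw [e, Real.sin_pi_sub, Real.sin_add]
  unfold ct
  field_simp
  ring

theorem SEv_ct_add {x y : ℝ} (hx : Real.sin (x / 2) ≠ 0) (hy : Real.sin (y / 2) ≠ 0) :
    ct (2 * π - x - y) = (1 - ct x * ct y) / (ct x + ct y) := by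
  have h1 : Real.cos ((2 * π - x - y) / 2) =
      Real.sin (x / 2) * Real.sin (y / 2) * (1 - ct x * ct y) := by
    have e : (2 * π - x - y) / 2 = π - (x / 2 + y / 2) := by ring
    rw [e, Real.cos_pi_sub, Real.cos_add]
    unfold ct
    field_simp
    ring
  have h2 : ct (2 * π - x - y) =
      Real.cos ((2 * π - x - y) / 2) / Real.sin ((2 * π - x - y) / 2) := rfl
  rw [h2, h1, SEv_sin_add hx hy, mul_div_mul_left _ _ (mul_ne_zero hx hy)]

theorem SEv_sq {x : ℝ} (hx : Real.sin (x / 2) ≠ 0) :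
    1 / Real.sin (x / 2) ^ 2 = 1 + ct x ^ 2 := by
  have h := Real.sin_sq_add_cos_sq (x / 2)
  unfold ct
  field_simp
  linarith

theorem SEv_ph {x : ℝ} (h0 : 0 < x) (h1 : x < π) : ph x = (1 + ct x ^ 2) / 4 := by
  have hs := (SEv_sin h0 (by linarith)).ne'
  unfold ph
  rw [if_pos h1.le, ← SEv_sq hs]
  field_simp

theorem SEv_dph {x : ℝ} (h0 : 0 < x) (h1 : x < π) :
    dph x = -(ct x * (1 + ct x ^ 2)) / 4 := by
  have hs := (SEv_sin h0 (by linarith)).ne'
  unfold dph
  rw [if_pos h1.le, ← SEv_sq hs]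
  unfold ct
  field_simp

theorem SEv_ph_far {x : ℝ} (h1 : x < π) : ph (2 * π - x) = 1 / 4 := by
  unfold ph
  rw [if_neg (by linarith)]

theorem SEv_dph_far {x : ℝ} (h1 : x < π) : dph (2 * π - x) = 0 := by
  unfold dph
  rw [if_neg (by linarith)]

/-- `log (sin (x/2)) + log (ct x)` -/
theorem SEv_log {x : ℝ} (h0 : 0 < x) (h1 : x < π) :
    Real.log (Real.sin (x / 2)) = -Real.log (1 + 1 / ct x ^ 2) / 2 - Real.log (ct x) := by
  have hs := SEv_sin h0 (by linarith)
  have hc := ct_pos h0 h1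
  have e : 1 + 1 / ct x ^ 2 = (Real.sin (x / 2) * ct x)⁻¹ ^ 2 := by
    have h2 := SEv_sq hs.ne'
    have h3 : (Real.sin (x / 2) * ct x)⁻¹ ^ 2 = 1 / Real.sin (x / 2) ^ 2 * (1 / ct x ^ 2) := by
      field_simp
    rw [h3, h2]
    field_simp
    ring
  rw [e, Real.log_pow, Real.log_inv, Real.log_mul hs.ne' hc.ne']
  push_cast
  ring

theorem SEv_logsub {Y Z : ℝ} (hY : 0 < Y) (hne : Y ≠ Z) :
    Real.log (Z - Y) = Real.log (1 - Z / Y) + Real.log Y := by
  have h1 : 1 - Z / Y ≠ 0 := by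
    intro h
    apply hne
    have : Z / Y = 1 := by linarith
    rw [div_eq_one_iff_eq hY.ne'] at this
    exact this.symm
  rw [← Real.log_mul h1 hY.ne', show (1 - Z / Y) * Y = -(Z - Y) by field_simp; ring,
    Real.log_neg_eq_log]

theorem SEv_logadd {Y Z : ℝ} (hY : 0 < Y) (hZ : 0 < Z) :
    Real.log (Z + Y) = Real.log (1 + Z / Y) + Real.log Y := by
  have h1 : 0 < 1 + Z / Y := by positivity
  rw [← Real.log_mul h1.ne' hY.ne', show (1 + Z / Y) * Y = Z + Y by field_simp; ring]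

theorem SEv_ct_ne {x y : ℝ} (hx : 0 < x) (hy : 0 < y) (hxp : x < 2 * π) (hyp : y < 2 * π)
    (hxy : x ≠ y) : ct x ≠ ct y := by
  rcases lt_or_gt_of_ne hxy with h | h
  · exact (ct_lt hx h hyp).ne'
  · exact (ct_lt hy h hxp).ne

/-- the common logarithm identity, `x ≠ y` -/
theorem SEv_L {x y : ℝ} (hx : 0 < x) (hy : 0 < y) (hxp : x < π) (hyp : y < π) (hxy : x ≠ y) :
    Real.log (Real.sin ((x - y) / 2)) - Real.log (Real.sin (y / 2)) =
      Real.log (1 - ct y / ct x) - Real.log (1 + 1 / ct x ^ 2) / 2 := by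
  have hsx := SEv_sin hx (by linarith)
  have hsy := SEv_sin hy (by linarith)
  have hne := SEv_ct_ne hx hy (by linarith) (by linarith) hxy
  have h1 : ct y - ct x ≠ 0 := fun h => hne (by linarith)
  rw [SEv_sin_sub hsx.ne' hsy.ne', Real.log_mul (mul_ne_zero hsx.ne' hsy.ne') h1,
    Real.log_mul hsx.ne' hsy.ne', SEv_logsub (ct_pos hx hxp) hne, SEv_log hx hxp]
  ring

/-- the common logarithm identity for the sum -/
theorem SEv_LA {x y : ℝ} (hx : 0 < x) (hy : 0 < y) (hxp : x < π) (hyp : y < π) :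
    Real.log (Real.sin ((2 * π - x - y) / 2)) - Real.log (Real.sin (y / 2)) =
      Real.log (1 + ct y / ct x) - Real.log (1 + 1 / ct x ^ 2) / 2 := by
  have hsx := SEv_sin hx (by linarith)
  have hsy := SEv_sin hy (by linarith)
  have hcx := ct_pos hx hxp
  have hcy := ct_pos hy hyp
  have h1 : ct y + ct x ≠ 0 := by positivity
  rw [SEv_sin_add hsx.ne' hsy.ne', add_comm (ct x), Real.log_mul (mul_ne_zero hsx.ne' hsy.ne') h1,
    Real.log_mul hsx.ne' hsy.ne', SEv_logadd hcx hcy, SEv_log hx hxp]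
  ring

theorem SEv_half (x : ℝ) : Real.sin ((2 * π - x) / 2) = Real.sin (x / 2) := by
  rw [show (2 * π - x) / 2 = π - x / 2 by ring, Real.sin_pi_sub]

/-- R-R -/
theorem SS_RR {l x y : ℝ} (hl : l ≤ π) (hx : 0 < x) (hy : 0 < y) (hxl : x < l) (hyl : y < l)
    (hxy : x ≠ y) :
    8 * π * SS l x y = k3 (ct x) (ct y) + l1k (ct x) (ct y) + chi (ct x) + chi (ct y) := by
  have hxp : x < π := by linarith
  have hyp : y < π := by linarith
  have hsx := SEv_sin hx (by linarith)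
  have hsy := SEv_sin hy (by linarith)
  have hne := SEv_ct_ne hx hy (by linarith) (by linarith) hxy
  have h1 := SEv_L hx hy hxp hyp hxy
  have h2 := SEv_L hy hx hyp hxp hxy.symm
  rw [SEv_logsin x y] at h2
  have e1 : Phi l x = (1 + ct x ^ 2) / 4 := by
    unfold Phi dst
    rw [if_pos hxl, SEv_ph hx hxp]
  have e2 : Phi l y = (1 + ct y ^ 2) / 4 := by
    unfold Phi dst
    rw [if_pos hyl, SEv_ph hy hyp]
  have e3 : dPhi l x = -(ct x * (1 + ct x ^ 2)) / 4 := by
    unfold dPhi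
    rw [if_pos hxl, SEv_dph hx hxp]
  have e4 : dPhi l y = -(ct y * (1 + ct y ^ 2)) / 4 := by
    unfold dPhi
    rw [if_pos hyl, SEv_dph hy hyp]
  have e5 : sg l x = -1 := if_pos hxl
  have e6 : sg l y = -1 := if_pos hyl
  have h3 : ct y - ct x ≠ 0 := fun h => hne (by linarith)
  unfold SS
  rw [h1, h2, e1, e2, e3, e4, e5, e6, SEv_ct_sub hsx.ne' hsy.ne']
  unfold k3 l1k chi psi
  field_simp
  ring

/-- flat-flat -/
theorem SS_FF {l x y : ℝ} (hl : 0 < l) (hx : l < x) (hy : l < y) (hxp : x < π) (hyp : y < π) :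
    SS l x y = 0 := by
  have e1 : Phi l x = 1 / 4 := by
    unfold Phi dst
    rw [if_neg (by linarith), SEv_ph_far hxp]
  have e2 : Phi l y = 1 / 4 := by
    unfold Phi dst
    rw [if_neg (by linarith), SEv_ph_far hyp]
  have e3 : dPhi l x = 0 := by
    unfold dPhi
    rw [if_neg (by linarith), SEv_dph_far hxp, neg_zero]
  have e4 : dPhi l y = 0 := by
    unfold dPhi
    rw [if_neg (by linarith), SEv_dph_far hyp, neg_zero]
  have e5 : sg l x = 1 := if_neg (by linarith)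
  have e6 : sg l y = 1 := if_neg (by linarith)
  unfold SS
  rw [e1, e2, e3, e4, e5, e6]
  ring

/-- R-flat -/
theorem SS_RF {l x y : ℝ} (hl : l ≤ π) (hx : 0 < x) (hxl : x < l) (hy : l < y) (hyp : y < π) :
    8 * π * SS l x y = rfk (ct x) (ct y) + psi (ct x) := by
  have hxp : x < π := by linarith
  have hy0 : 0 < y := by linarith
  have hxy : x ≠ y := by
    rintro rfl
    linarith
  have hsx := SEv_sin hx (by linarith)
  have hsy := SEv_sin hy0 (by linarith)
  have hne := SEv_ct_ne hx hy0 (by linarith) (by linarith) hxy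
  have h1 := SEv_L hx hy0 hxp hyp hxy
  have e1 : Phi l x = (1 + ct x ^ 2) / 4 := by
    unfold Phi dst
    rw [if_pos hxl, SEv_ph hx hxp]
  have e2 : Phi l y = 1 / 4 := by
    unfold Phi dst
    rw [if_neg (by linarith), SEv_ph_far hyp]
  have e3 : dPhi l x = -(ct x * (1 + ct x ^ 2)) / 4 := by
    unfold dPhi
    rw [if_pos hxl, SEv_dph hx hxp]
  have e4 : dPhi l y = 0 := by
    unfold dPhi
    rw [if_neg (by linarith), SEv_dph_far hyp, neg_zero]
  have e5 : sg l x = -1 := if_pos hxl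
  have e6 : sg l y = 1 := if_neg (by linarith)
  have h3 : ct y - ct x ≠ 0 := fun h => hne (by linarith)
  have h4 : ct x - ct y ≠ 0 := fun h => hne (by linarith)
  have h5 : (1 + ct x * ct y) / (ct y - ct x) = -((1 + ct x * ct y) / (ct x - ct y)) := by
    rw [← div_neg, neg_sub]
  unfold SS
  rw [h1, e1, e2, e3, e4, e5, e6, SEv_ct_sub hsx.ne' hsy.ne', h5]
  unfold rfk psi
  field_simp
  ring

/-- near-R (`2π - x` near, `y` in R) -/
theorem SS_NR {l x y : ℝ} (hl : l ≤ π) (hx : 0 < x) (hxp : x < π) (hy : 0 < y) (hyl : y < l) :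
    8 * π * SS l (2 * π - x) y = rnk (ct y) (ct x) + psi (ct y) + psi (ct x) := by
  have hyp : y < π := by linarith
  have hsx := SEv_sin hx (by linarith)
  have hsy := SEv_sin hy (by linarith)
  have hcx := ct_pos hx hxp
  have hcy := ct_pos hy hyp
  have h1 := SEv_LA hx hy hxp hyp
  have h2 := SEv_LA hy hx hyp hxp
  rw [show 2 * π - y - x = 2 * π - x - y by ring] at h2
  have e1 : Phi l (2 * π - x) = (1 + ct x ^ 2) / 4 := by
    unfold Phi dst
    rw [if_neg (by linarith), sub_sub_cancel, SEv_ph hx hxp]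
  have e2 : Phi l y = (1 + ct y ^ 2) / 4 := by
    unfold Phi dst
    rw [if_pos hyl, SEv_ph hy hyp]
  have e3 : dPhi l (2 * π - x) = ct x * (1 + ct x ^ 2) / 4 := by
    unfold dPhi
    rw [if_neg (by linarith), sub_sub_cancel, SEv_dph hx hxp]
    ring
  have e4 : dPhi l y = -(ct y * (1 + ct y ^ 2)) / 4 := by
    unfold dPhi
    rw [if_pos hyl, SEv_dph hy hyp]
  have e5 : sg l (2 * π - x) = 1 := if_neg (by linarith)
  have e6 : sg l y = -1 := if_pos hyl
  unfold SS
  rw [SEv_half, h1, h2, e1, e2, e3, e4, e5, e6, SEv_ct_add hsx.ne' hsy.ne']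
  unfold rnk psi
  field_simp
  ring

/-- near-flat (`2π - x` near, `y` flat) -/
theorem SS_NF {l x y : ℝ} (hl : 0 < l) (hlp : l ≤ π) (hx : 0 < x) (hxp : x < π) (hy : l < y)
    (hyp : y < π) :
    8 * π * SS l (2 * π - x) y = gk (ct y) (ct x) + chi (ct x) := by
  have hy0 : 0 < y := by linarith
  have hsx := SEv_sin hx (by linarith)
  have hsy := SEv_sin hy0 (by linarith)
  have hcx := ct_pos hx hxp
  have hcy := ct_pos hy0 hyp
  have h1 := SEv_LA hx hy0 hxp hyp
  have e1 : Phi l (2 * π - x) = (1 + ct x ^ 2) / 4 := by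
    unfold Phi dst
    rw [if_neg (by linarith), sub_sub_cancel, SEv_ph hx hxp]
  have e2 : Phi l y = 1 / 4 := by
    unfold Phi dst
    rw [if_neg (by linarith), SEv_ph_far hyp]
  have e3 : dPhi l (2 * π - x) = ct x * (1 + ct x ^ 2) / 4 := by
    unfold dPhi
    rw [if_neg (by linarith), sub_sub_cancel, SEv_dph hx hxp]
    ring
  have e4 : dPhi l y = 0 := by
    unfold dPhi
    rw [if_neg (by linarith), SEv_dph_far hyp, neg_zero]
  have e5 : sg l (2 * π - x) = 1 := if_neg (by linarith)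
  have e6 : sg l y = 1 := if_neg (by linarith)
  unfold SS
  rw [h1, e1, e2, e3, e4, e5, e6, SEv_ct_add hsx.ne' hsy.ne']
  unfold gk chi psi
  field_simp
  ring

/-- near-near -/
theorem SS_NN {l x y : ℝ} (hl : 0 < l) (hlp : l ≤ π) (hx : 0 < x) (hxp : x < π) (hy : 0 < y)
    (hyp : y < π) (hxy : x ≠ y) :
    8 * π * SS l (2 * π - x) (2 * π - y) =
      k3 (ct x) (ct y) + l1k (ct x) (ct y) + chi (ct x) + chi (ct y) := by
  have hsx := SEv_sin hx (by linarith)
  have hsy := SEv_sin hy (by linarith)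
  have hne := SEv_ct_ne hx hy (by linarith) (by linarith) hxy
  have h1 := SEv_L hx hy hxp hyp hxy
  have h2 := SEv_L hy hx hyp hxp hxy.symm
  rw [SEv_logsin x y] at h2
  have e1 : Phi l (2 * π - x) = (1 + ct x ^ 2) / 4 := by
    unfold Phi dst
    rw [if_neg (by linarith), sub_sub_cancel, SEv_ph hx hxp]
  have e2 : Phi l (2 * π - y) = (1 + ct y ^ 2) / 4 := by
    unfold Phi dst
    rw [if_neg (by linarith), sub_sub_cancel, SEv_ph hy hyp]
  have e3 : dPhi l (2 * π - x) = ct x * (1 + ct x ^ 2) / 4 := by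
    unfold dPhi
    rw [if_neg (by linarith), sub_sub_cancel, SEv_dph hx hxp]
    ring
  have e4 : dPhi l (2 * π - y) = ct y * (1 + ct y ^ 2) / 4 := by
    unfold dPhi
    rw [if_neg (by linarith), sub_sub_cancel, SEv_dph hy hyp]
    ring
  have e5 : sg l (2 * π - x) = 1 := if_neg (by linarith)
  have e6 : sg l (2 * π - y) = 1 := if_neg (by linarith)
  have h3 : ct y - ct x ≠ 0 := fun h => hne (by linarith)
  have e7 : 2 * π - x - (2 * π - y) = -(x - y) := by ring
  unfold SS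
  rw [e7, SEv_ct_neg, show -(x - y) = y - x by ring, SEv_logsin x y, SEv_half, SEv_half, h1, h2,
    e1, e2, e3, e4, e5, e6, SEv_ct_sub hsx.ne' hsy.ne']
  unfold k3 l1k chi psi
  field_simp
  ring

end Pool.Agent.H51.DG
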