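import Pool.Agent.H51.DG.St2

/-!
# DG2 job SN: the cut-off functions `Wn W n = cut n · W`

`cut n x = max 0 (min 1 (n |2 sin(x/2)| - 1))`: `2π`-periodic, values in `[0,1]`, `= 0` if
`|2 sin(x/2)| ≤ 1/n` (in particular if `|x| ≤ 1/n`), `= 1` if `|2 sin(x/2)| ≥ 2/n`, and
`|cut n x - cut n y| ≤ n |x - y|` (`|2 sin(x/2)|` is `1`-Lipschitz).
Lipschitz bound `(1+π) K`: let `|2 sin(x/2)| ≤ |2 sin(y/2)|` (otherwise exchange), write
`Wn x - Wn y = (cut x - cut y) W x + cut y (W x - W y)`.  If `cut x ≠ cut y` then `|2 sin(x/2)| < 2/n`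
(otherwise both are `1`), and `|W x| ≤ K dist(x, 2πℤ) ≤ K (π/2) |2 sin(x/2)| ≤ π K/n`
(`W` vanishes on `2πℤ`; `sin(d/2) ≥ d/π` for `0 ≤ d ≤ π`), so `|(cut x - cut y) W x| ≤ π K |x - y|`.
Convergence: if `sin(x/2) ≠ 0` then `cut n x = 1` for large `n`; if `sin(x/2) = 0` then `W x = 0`
(`W 0 ≤ 0`, `W (2π) ≥ 0`, periodicity).
-/

set_option autoImplicit false
open Real Set MeasureTheory Filter Topology

namespace Pool.Agent.H51.DG

theorem cut_mem (n : ℕ) (x : ℝ) : 0 ≤ cut n x ∧ cut n x ≤ 1 := by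
  unfold cut
  exact ⟨le_max_left _ _, max_le zero_le_one (min_le_left _ _)⟩

theorem abs_Wn_le (W : ℝ → ℝ) (n : ℕ) (x : ℝ) : |Wn W n x| ≤ |W x| := by
  obtain ⟨h0, h1⟩ := cut_mem n x
  unfold Wn
  rw [abs_mul, abs_of_nonneg h0]
  exact mul_le_of_le_one_left (abs_nonneg _) h1

private theorem SN_cut_per (n : ℕ) (x : ℝ) : cut n (x + 2 * π) = cut n x := by
  unfold cut
  have : Real.sin ((x + 2 * π) / 2) = -Real.sin (x / 2) := by
    rw [show (x + 2 * π) / 2 = x / 2 + π by ring, Real.sin_add_pi]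
  rw [this, mul_neg, abs_neg]

theorem Wn_nrm {W : ℝ → ℝ} {l : ℝ} (h : Nrm W l) (n : ℕ) : Nrm (Wn W n) l := by
  refine ⟨?_, h.l0, h.l1, ?_, ?_⟩
  · intro x
    unfold Wn
    rw [SN_cut_per, h.per x]
  · intro x hx
    exact mul_nonpos_of_nonneg_of_nonpos (cut_mem n x).1 (h.neg x hx)
  · intro x hx
    exact mul_nonneg (cut_mem n x).1 (h.pos x hx)

private theorem SN_W0 {W : ℝ → ℝ} {l : ℝ} (h : Nrm W l) : W 0 = 0 := by
  have h1 := h.neg 0 ⟨le_rfl, h.l0.le⟩
  have h2 := h.pos (2 * π) ⟨h.l1.le, le_rfl⟩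
  have h3 := h.per 0
  rw [zero_add] at h3
  rw [h3] at h2
  exact le_antisymm h1 h2

private theorem SN_shift {W : ℝ → ℝ} {l : ℝ} (h : Nrm W l) (k : ℤ) (x : ℝ) :
    W (x - k * (2 * π)) = W x :=
  (h.per.int_mul k).sub_eq x

private theorem SN_bound {W : ℝ → ℝ} {l K : ℝ} (h : Nrm W l) (hK : Lip K W) (hK0 : 0 ≤ K)
    (x : ℝ) : |W x| ≤ K * (π / 2) * |2 * Real.sin (x / 2)| := by
  have hpi := Real.pi_pos
  set k : ℤ := round (x / (2 * π)) with hk
  have h1 : |x - k * (2 * π)| ≤ π := by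
    have h2 := abs_sub_round (x / (2 * π))
    have h3 : x - k * (2 * π) = (x / (2 * π) - k) * (2 * π) := by
      field_simp
    rw [h3, abs_mul, abs_of_pos (by positivity : (0:ℝ) < 2 * π)]
    calc |x / (2 * π) - k| * (2 * π) ≤ 1 / 2 * (2 * π) :=
          mul_le_mul_of_nonneg_right h2 (by positivity)
      _ = π := by ring
  set y := x - k * (2 * π) with hy
  have h2 : |W x| ≤ K * |y| := by
    have h3 := hK y 0
    rw [SN_W0 h, sub_zero, sub_zero, SN_shift h] at h3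
    exact h3
  have h3 : |2 * Real.sin (x / 2)| = 2 * Real.sin (|y| / 2) := by
    have h4 : Real.sin (y / 2) = (-1) ^ k * Real.sin (x / 2) := by
      rw [hy, show (x - k * (2 * π)) / 2 = x / 2 - k * π by ring, Real.sin_sub_int_mul_pi]
    have h5 : |Real.sin (y / 2)| = |Real.sin (x / 2)| := by
      rw [h4, abs_mul, abs_zpow, abs_neg, abs_one, one_zpow, one_mul]
    have h6 : Real.sin (|y| / 2) = |Real.sin (y / 2)| := by
      rcases le_total 0 y with hy0 | hy0
      · rw [abs_of_nonneg hy0, abs_of_nonneg]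
        apply Real.sin_nonneg_of_nonneg_of_le_pi (by linarith)
        rw [abs_of_nonneg hy0] at h1
        linarith
      · rw [abs_of_nonpos hy0, neg_div, Real.sin_neg, abs_of_nonpos]
        apply Real.sin_nonpos_of_nonpos_of_neg_pi_le (by linarith)
        rw [abs_of_nonpos hy0] at h1
        linarith
    rw [h6, h5, abs_mul, abs_of_pos (by norm_num : (0:ℝ) < 2)]
  have h4 := Real.mul_le_sin (x := |y| / 2) (by positivity) (by linarith)
  have h5 : |y| ≤ π / 2 * (2 * Real.sin (|y| / 2)) := by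
    have h6 : π * (2 / π * (|y| / 2)) ≤ π * Real.sin (|y| / 2) :=
      mul_le_mul_of_nonneg_left h4 hpi.le
    have h7 : π * (2 / π * (|y| / 2)) = |y| := by field_simp
    linarith
  rw [h3]
  calc |W x| ≤ K * |y| := h2
    _ ≤ K * (π / 2 * (2 * Real.sin (|y| / 2))) := mul_le_mul_of_nonneg_left h5 hK0
    _ = K * (π / 2) * (2 * Real.sin (|y| / 2)) := by ring

private theorem SN_sin_lip (x y : ℝ) :
    |(|2 * Real.sin (x / 2)| - |2 * Real.sin (y / 2)|)| ≤ |x - y| := by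
  have h1 := abs_abs_sub_abs_le_abs_sub (2 * Real.sin (x / 2)) (2 * Real.sin (y / 2))
  have h2 : |Real.sin (x / 2) - Real.sin (y / 2)| ≤ |x / 2 - y / 2| := by
    have := Real.lipschitzWith_sin.dist_le_mul (x / 2) (y / 2)
    rw [Real.dist_eq, Real.dist_eq] at this
    simpa using this
  have h3 : |2 * Real.sin (x / 2) - 2 * Real.sin (y / 2)| =
      2 * |Real.sin (x / 2) - Real.sin (y / 2)| := by
    rw [← mul_sub, abs_mul, abs_of_pos (by norm_num : (0:ℝ) < 2)]
  have h4 : |x / 2 - y / 2| = |x - y| / 2 := by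
    rw [← sub_div, abs_div, abs_of_pos (by norm_num : (0:ℝ) < 2)]
  linarith

private theorem SN_cut_lip (n : ℕ) (x y : ℝ) : |cut n x - cut n y| ≤ n * |x - y| := by
  unfold cut
  have h1 := abs_max_sub_max_le_max 0 (min 1 (n * |2 * Real.sin (x / 2)| - 1)) 0
    (min 1 (n * |2 * Real.sin (y / 2)| - 1))
  have h2 := abs_min_sub_min_le_max 1 (n * |2 * Real.sin (x / 2)| - 1) 1
    (n * |2 * Real.sin (y / 2)| - 1)
  rw [sub_self, abs_zero] at h1 h2
  refine h1.trans (max_le (by positivity) (h2.trans (max_le (by positivity) ?_)))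
  have h3 : (n : ℝ) * |2 * Real.sin (x / 2)| - 1 - (n * |2 * Real.sin (y / 2)| - 1) =
      n * (|2 * Real.sin (x / 2)| - |2 * Real.sin (y / 2)|) := by ring
  rw [h3, abs_mul, abs_of_nonneg (Nat.cast_nonneg n)]
  exact mul_le_mul_of_nonneg_left (SN_sin_lip x y) (Nat.cast_nonneg n)

private theorem SN_cut_one {n : ℕ} {x : ℝ} (h : 2 ≤ n * |2 * Real.sin (x / 2)|) :
    cut n x = 1 := by
  unfold cut
  rw [min_eq_left (by linarith), max_eq_right zero_le_one]

private theorem SN_main {W : ℝ → ℝ} {l K : ℝ} (h : Nrm W l) (hK : Lip K W) (hK0 : 0 ≤ K) (n : ℕ)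
    {x y : ℝ} (hxy : |2 * Real.sin (x / 2)| ≤ |2 * Real.sin (y / 2)|) :
    |Wn W n x - Wn W n y| ≤ (1 + π) * K * |x - y| := by
  have hpi := Real.pi_pos
  have h1 : Wn W n x - Wn W n y = (cut n x - cut n y) * W x + cut n y * (W x - W y) := by
    unfold Wn; ring
  have h2 : |cut n y * (W x - W y)| ≤ K * |x - y| := by
    rw [abs_mul, abs_of_nonneg (cut_mem n y).1]
    calc cut n y * |W x - W y| ≤ 1 * |W x - W y| :=
          mul_le_mul_of_nonneg_right (cut_mem n y).2 (abs_nonneg _)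
      _ ≤ K * |x - y| := by rw [one_mul]; exact hK x y
  have h3 : |(cut n x - cut n y) * W x| ≤ π * K * |x - y| := by
    by_cases hc : 2 ≤ n * |2 * Real.sin (x / 2)|
    · have hc' : 2 ≤ n * |2 * Real.sin (y / 2)| :=
        hc.trans (mul_le_mul_of_nonneg_left hxy (Nat.cast_nonneg n))
      rw [SN_cut_one hc, SN_cut_one hc', sub_self, zero_mul, abs_zero]
      positivity
    · push Not at hc
      rw [abs_mul]
      have h4 := SN_bound h hK hK0 x
      calc |cut n x - cut n y| * |W x| ≤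
            (n * |x - y|) * (K * (π / 2) * |2 * Real.sin (x / 2)|) :=
            mul_le_mul (SN_cut_lip n x y) h4 (abs_nonneg _) (by positivity)
        _ = (K * (π / 2) * |x - y|) * (n * |2 * Real.sin (x / 2)|) := by ring
        _ ≤ (K * (π / 2) * |x - y|) * 2 := mul_le_mul_of_nonneg_left hc.le (by positivity)
        _ = π * K * |x - y| := by ring
  rw [h1]
  calc |(cut n x - cut n y) * W x + cut n y * (W x - W y)| ≤ π * K * |x - y| + K * |x - y| :=
        (abs_add_le _ _).trans (add_le_add h3 h2)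
    _ = (1 + π) * K * |x - y| := by ring

theorem Wn_lip {W : ℝ → ℝ} {l K : ℝ} (h : Nrm W l) (hK : Lip K W) (n : ℕ) :
    Lip ((1 + π) * K) (Wn W n) := by
  have hK0 : 0 ≤ K := by
    have := hK 0 1
    rw [zero_sub, abs_neg, abs_one, mul_one] at this
    exact (abs_nonneg _).trans this
  intro x y
  rcases le_total |2 * Real.sin (x / 2)| |2 * Real.sin (y / 2)| with hxy | hxy
  · exact SN_main h hK hK0 n hxy
  · rw [abs_sub_comm, abs_sub_comm x y]
    exact SN_main h hK hK0 n hxy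

theorem Wn_van {W : ℝ → ℝ} {l K : ℝ} (h : Nrm W l) (hK : Lip K W) {n : ℕ} (hn : 1 ≤ n) :
    Van (Wn W n) l := by
  have hn' : (0:ℝ) < n := by exact_mod_cast hn
  refine { toNrm := Wn_nrm h n, lip := ⟨_, Wn_lip h hK n⟩, van := ⟨1 / n, by positivity, ?_⟩ }
  intro x hx
  have h1 := SN_sin_lip x 0
  rw [zero_div, Real.sin_zero, mul_zero, abs_zero, sub_zero, sub_zero, abs_abs] at h1
  have h2 : (n:ℝ) * |2 * Real.sin (x / 2)| ≤ 1 := by
    calc (n:ℝ) * |2 * Real.sin (x / 2)| ≤ n * (1 / n) :=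
          mul_le_mul_of_nonneg_left (h1.trans hx) hn'.le
      _ = 1 := by field_simp
  have h3 : cut n x = 0 := by
    unfold cut
    rw [max_eq_left]
    exact (min_le_right _ _).trans (by linarith)
  unfold Wn
  rw [h3, zero_mul]

theorem Wn_tendsto {W : ℝ → ℝ} {l : ℝ} (h : Nrm W l) (x : ℝ) :
    Tendsto (fun n : ℕ => Wn W n x) atTop (𝓝 (W x)) := by
  by_cases hs : Real.sin (x / 2) = 0
  · obtain ⟨k, hk⟩ := Real.sin_eq_zero_iff.1 hs
    have h1 : W x = 0 := by
      rw [← SN_shift h k x, show x - k * (2 * π) = 0 by linarith, SN_W0 h]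
    have h2 : (fun n : ℕ => Wn W n x) = fun _ => W x := by
      funext n
      unfold Wn
      rw [h1, mul_zero]
    rw [h2]
    exact tendsto_const_nhds
  · have hp : 0 < |2 * Real.sin (x / 2)| := abs_pos.2 (mul_ne_zero two_ne_zero hs)
    refine tendsto_const_nhds.congr' ?_
    filter_upwards [eventually_ge_atTop ⌈2 / |2 * Real.sin (x / 2)|⌉₊] with n hn
    have h1 : 2 / |2 * Real.sin (x / 2)| ≤ n := (Nat.le_ceil _).trans (by exact_mod_cast hn)
    unfold Wn
    rw [SN_cut_one ((div_le_iff₀ hp).1 h1), one_mul]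

end Pool.Agent.H51.DG
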