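import Pool.Agent.H51.DG.St

/-!
# DG2 job RF: reflection `W ↦ -W(-·)`, `l ↦ 2π - l`

`HT (rf W) x = (1/2π) ∫_0^π (-W(-(x-s)) + W(-(x+s))) cot(s/2) = HT W (-x)` (`-(x-s) = -x+s`,
`-(x+s) = -x-s`).  `UU (rf W) x = ∫_0^x HT W (-y) dy = -UU W (-x)`.
All integrals over `(0,2π)`: substitute `x ↦ 2π - x` and use periodicity (`HT W` is periodic, and
`UU W (x + 2π) = UU W x` since `∫_0^{2π} HT W = 0`, `UU_per`; this is Fubini: `∫_0^{2π} W(x-s) dx` does
not depend on `s`; integrability by the Lipschitz bound).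
For `x ≠ l`: `dst (2π-l) (2π-x) = dst l x`, `ds2 (2π-l)(2π-x) = ds2 l x`,
`Phi (2π-l)(2π-x) = Phi l x`, `dPhi (2π-l)(2π-x) = -dPhi l x`, `sg (2π-l)(2π-x) = -sg l x`.
-/

set_option autoImplicit false
open Real Set MeasureTheory Filter Topology

namespace Pool.Agent.H51.DG

noncomputable def rf (W : ℝ → ℝ) (x : ℝ) : ℝ := -W (-x)

theorem rf_rf (W : ℝ → ℝ) : rf (rf W) = W := by
  funext x
  simp [rf]

private theorem RF_shift {W : ℝ → ℝ} (h : Function.Periodic W (2 * π)) (x : ℝ) :
    W (-(2 * π - x)) = W x := by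
  have := h (-(2 * π - x))
  rw [← this]
  congr 1
  ring

theorem Nrm.rf {W : ℝ → ℝ} {l : ℝ} (h : Nrm W l) : Nrm (rf W) (2 * π - l) := by
  refine ⟨?_, by linarith [h.l1], by linarith [h.l0], ?_, ?_⟩
  · intro x
    show -W (-(x + 2 * π)) = -W (-x)
    have := h.per (-(x + 2 * π))
    rw [← this]
    congr 2
    ring
  · intro x hx
    show -W (-x) ≤ 0
    have h1 := RF_shift h.per (2 * π - x)
    have h2 := h.pos (2 * π - x) ⟨by linarith [hx.2], by linarith [hx.1]⟩
    rw [show -(2 * π - (2 * π - x)) = -x by ring] at h1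
    rw [h1]
    linarith
  · intro x hx
    show 0 ≤ -W (-x)
    have h1 := RF_shift h.per (2 * π - x)
    have h2 := h.neg (2 * π - x) ⟨by linarith [hx.2], by linarith [hx.1]⟩
    rw [show -(2 * π - (2 * π - x)) = -x by ring] at h1
    rw [h1]
    linarith

theorem Lip.rf {K : ℝ} {W : ℝ → ℝ} (h : Lip K W) : Lip K (rf W) := by
  intro x y
  show |-W (-x) - -W (-y)| ≤ K * |x - y|
  have h1 := h (-y) (-x)
  rw [show -y - -x = x - y by ring] at h1
  rw [show -W (-x) - -W (-y) = W (-y) - W (-x) by ring]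
  exact h1

theorem HT_rf (W : ℝ → ℝ) (x : ℝ) : HT (rf W) x = HT W (-x) := by
  unfold HT
  congr 1
  apply intervalIntegral.integral_congr
  intro s _
  show (-W (-(x - s)) - -W (-(x + s))) * (Real.cos (s / 2) / Real.sin (s / 2))
    = (W (-x - s) - W (-x + s)) * (Real.cos (s / 2) / Real.sin (s / 2))
  rw [show -(x - s) = -x + s by ring, show -(x + s) = -x - s by ring]
  ring

theorem UU_rf (W : ℝ → ℝ) (x : ℝ) : UU (rf W) x = -UU W (-x) := by
  unfold UU
  have h1 : (∫ y in (0:ℝ)..x, HT (Pool.Agent.H51.DG.rf W) y) = ∫ y in (0:ℝ)..x, HT W (-y) := by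
    apply intervalIntegral.integral_congr
    intro y _
    exact HT_rf W y
  rw [h1, intervalIntegral.integral_comp_neg (fun y => HT W y), neg_zero,
    intervalIntegral.integral_symm]

theorem HT_per {W : ℝ → ℝ} (h : Function.Periodic W (2 * π)) : Function.Periodic (HT W) (2 * π) := by
  intro x
  unfold HT
  congr 1
  apply intervalIntegral.integral_congr
  intro s _
  show (W (x + 2 * π - s) - W (x + 2 * π + s)) * (Real.cos (s / 2) / Real.sin (s / 2))
    = (W (x - s) - W (x + s)) * (Real.cos (s / 2) / Real.sin (s / 2))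
  rw [show x + 2 * π - s = (x - s) + 2 * π by ring, show x + 2 * π + s = (x + s) + 2 * π by ring,
    h (x - s), h (x + s)]

private theorem RF_cont {K : ℝ} {W : ℝ → ℝ} (hK : Lip K W) : Continuous W := by
  have hL : LipschitzWith (Real.toNNReal K) W := by
    apply LipschitzWith.of_dist_le_mul
    intro x y
    rw [Real.dist_eq, Real.dist_eq]
    exact (hK x y).trans (mul_le_mul_of_nonneg_right (Real.le_coe_toNNReal K) (abs_nonneg _))
  exact hL.continuous

private theorem RF_K {K : ℝ} {W : ℝ → ℝ} (hK : Lip K W) : 0 ≤ K := by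
  have h := hK 1 0
  have h1 := abs_nonneg (W 1 - W 0)
  rw [show |(1:ℝ) - 0| = 1 by norm_num] at h
  linarith

/-- the integrand of `HT` is integrable on rectangles -/
private theorem RF_int {K : ℝ} {W : ℝ → ℝ} (hK : Lip K W) (a b : ℝ) :
    Integrable (fun p : ℝ × ℝ => (W (p.1 - p.2) - W (p.1 + p.2)) *
      (Real.cos (p.2 / 2) / Real.sin (p.2 / 2)))
      ((volume.restrict (Ioc a b)).prod (volume.restrict (Ioc (0:ℝ) π))) := by
  have hc := RF_cont hK
  refine Integrable.mono' (g := fun _ => 2 * K * π) (integrable_const _) ?_ ?_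
  · apply Measurable.aestronglyMeasurable
    apply Measurable.mul
    · exact (by fun_prop : Continuous fun p : ℝ × ℝ => W (p.1 - p.2) - W (p.1 + p.2)).measurable
    · exact Measurable.div (by fun_prop) (by fun_prop)
  · rw [Measure.prod_restrict]
    apply ae_restrict_of_forall_mem (measurableSet_Ioc.prod measurableSet_Ioc)
    rintro ⟨x, s⟩ ⟨-, hs⟩
    have hs0 : 0 < s := hs.1
    have hs1 : s ≤ π := hs.2
    show ‖(W (x - s) - W (x + s)) * (Real.cos (s / 2) / Real.sin (s / 2))‖ ≤ 2 * K * π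
    have h1 : |W (x - s) - W (x + s)| ≤ K * (2 * s) := by
      have := hK (x - s) (x + s)
      rw [show x - s - (x + s) = -(2 * s) by ring, abs_neg, abs_of_pos (by linarith : 0 < 2 * s)] at this
      exact this
    have h2 : s / π ≤ Real.sin (s / 2) := by
      have := Real.mul_le_sin (x := s / 2) (by linarith) (by linarith)
      calc s / π = 2 / π * (s / 2) := by ring
        _ ≤ _ := this
    have h3 : 0 < s / π := div_pos hs0 Real.pi_pos
    have h4 : |Real.cos (s / 2) / Real.sin (s / 2)| ≤ π / s := by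
      rw [abs_div, abs_of_pos (lt_of_lt_of_le h3 h2)]
      calc |Real.cos (s / 2)| / Real.sin (s / 2) ≤ 1 / (s / π) :=
            div_le_div₀ (by norm_num) (Real.abs_cos_le_one _) h3 h2
        _ = π / s := by rw [one_div_div]
    rw [Real.norm_eq_abs, abs_mul]
    calc |W (x - s) - W (x + s)| * |Real.cos (s / 2) / Real.sin (s / 2)|
        ≤ (K * (2 * s)) * (π / s) :=
          mul_le_mul h1 h4 (abs_nonneg _) (by have := RF_K hK; positivity)
      _ = 2 * K * π := by field_simp

private theorem RF_HTint {K : ℝ} {W : ℝ → ℝ} (hK : Lip K W) (a b : ℝ) :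
    IntervalIntegrable (HT W) volume a b := by
  have key : ∀ a b : ℝ, IntegrableOn (HT W) (Ioc a b) volume := by
    intro a b
    have h := (RF_int hK a b).integral_prod_left.const_mul (1 / (2 * π))
    refine h.congr (Filter.Eventually.of_forall fun x => ?_)
    show 1 / (2 * π) * (∫ s in Ioc (0:ℝ) π, (W (x - s) - W (x + s)) *
      (Real.cos (s / 2) / Real.sin (s / 2))) = HT W x
    unfold HT
    rw [intervalIntegral.integral_of_le Real.pi_pos.le]
  exact ⟨key a b, key b a⟩

private theorem RF_HTzero {K : ℝ} {W : ℝ → ℝ} (h : Function.Periodic W (2 * π)) (hK : Lip K W) :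
    ∫ x in (0:ℝ)..(2 * π), HT W x = 0 := by
  have h2π : (0:ℝ) ≤ 2 * π := by positivity
  have h1 : (∫ x in (0:ℝ)..(2 * π), HT W x) = 1 / (2 * π) * ∫ x in Ioc (0:ℝ) (2 * π),
      ∫ s in Ioc (0:ℝ) π, (W (x - s) - W (x + s)) * (Real.cos (s / 2) / Real.sin (s / 2)) := by
    rw [intervalIntegral.integral_of_le h2π, ← integral_const_mul]
    congr 1
    funext x
    unfold HT
    rw [intervalIntegral.integral_of_le Real.pi_pos.le]
  rw [h1, integral_integral_swap (RF_int hK 0 (2 * π))]
  have h3 : ∀ s : ℝ, (∫ x in Ioc (0:ℝ) (2 * π), (W (x - s) - W (x + s)) *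
      (Real.cos (s / 2) / Real.sin (s / 2))) = 0 := by
    intro s
    have hc := RF_cont hK
    rw [← intervalIntegral.integral_of_le h2π, intervalIntegral.integral_mul_const,
      intervalIntegral.integral_sub]
    · rw [intervalIntegral.integral_comp_sub_right (fun x => W x),
        intervalIntegral.integral_comp_add_right (fun x => W x)]
      have e1 := h.intervalIntegral_add_eq (0 - s) (0 + s)
      rw [show 0 - s + 2 * π = 2 * π - s by ring, show 0 + s + 2 * π = 2 * π + s by ring] at e1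
      rw [e1, sub_self, zero_mul]
    · exact (by fun_prop : Continuous fun x : ℝ => W (x - s)).intervalIntegrable _ _
    · exact (by fun_prop : Continuous fun x : ℝ => W (x + s)).intervalIntegrable _ _
  simp only [h3, integral_zero, mul_zero]

theorem UU_per {W : ℝ → ℝ} (h : Function.Periodic W (2 * π)) {K : ℝ} (hK : Lip K W) :
    Function.Periodic (UU W) (2 * π) := by
  intro x
  unfold UU
  rw [← intervalIntegral.integral_add_adjacent_intervals (RF_HTint hK 0 x)
    (RF_HTint hK x (x + 2 * π))]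
  have e1 := (HT_per h).intervalIntegral_add_eq x 0
  rw [zero_add, RF_HTzero h hK] at e1
  rw [e1, add_zero]

private theorem RF_main {f g : ℝ → ℝ} {l : ℝ}
    (h : ∀ x, x ≠ l → f (2 * π - x) = g x) :
    ∫ x in (0:ℝ)..(2 * π), f x = ∫ x in (0:ℝ)..(2 * π), g x := by
  have h1 := intervalIntegral.integral_comp_sub_left (a := 0) (b := 2 * π) f (2 * π)
  rw [sub_self, sub_zero] at h1
  rw [← h1]
  apply intervalIntegral.integral_congr_ae
  have h2 : ∀ᵐ x : ℝ, x ≠ l := by
    have : ({l} : Set ℝ)ᶜ ∈ ae (volume : Measure ℝ) := compl_mem_ae_iff.2 (measure_singleton l)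
    exact this
  filter_upwards [h2] with x hx _
  exact h x hx

theorem Ma_rf {W : ℝ → ℝ} (h : Function.Periodic W (2 * π)) : Ma (rf W) = Ma W := by
  unfold Ma
  apply RF_main (l := 0)
  intro x _
  show |-W (-(2 * π - x))| = |W x|
  rw [RF_shift h, abs_neg]

theorem mn_rf (l : ℝ) : mn (2 * π - l) = mn l := by
  unfold mn
  rw [sub_sub_cancel, min_comm]

private theorem RF_dst {l x : ℝ} (hx : x ≠ l) : dst (2 * π - l) (2 * π - x) = dst l x := by
  unfold dst
  rcases lt_or_gt_of_ne hx with h | h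
  · rw [if_neg (by linarith), if_pos h, sub_sub_cancel]
  · rw [if_pos (by linarith), if_neg (by linarith)]

private theorem RF_ds2 {l x : ℝ} (hx : x ≠ l) : ds2 (2 * π - l) (2 * π - x) = ds2 l x := by
  unfold ds2
  rcases lt_or_gt_of_ne hx with h | h
  · rw [if_neg (by linarith), if_pos h]
    ring
  · rw [if_pos (by linarith), if_neg (by linarith)]
    ring

private theorem RF_dPhi {l x : ℝ} (hx : x ≠ l) : dPhi (2 * π - l) (2 * π - x) = -dPhi l x := by
  unfold dPhi
  rcases lt_or_gt_of_ne hx with h | h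
  · rw [if_neg (by linarith), if_pos h, sub_sub_cancel]
  · rw [if_pos (by linarith), if_neg (by linarith), neg_neg]

private theorem RF_sg {l x : ℝ} (hx : x ≠ l) : sg (2 * π - l) (2 * π - x) = -sg l x := by
  unfold sg
  rcases lt_or_gt_of_ne hx with h | h
  · rw [if_neg (by linarith), if_pos h, neg_neg]
  · rw [if_pos (by linarith), if_neg (by linarith)]

theorem QQ_rf {W : ℝ → ℝ} {l : ℝ} (h : Nrm W l) : QQ (rf W) (2 * π - l) = QQ W l := by
  unfold QQ
  apply RF_main (l := l)
  intro x hx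
  show |-W (-(2 * π - x))| * vp (dst (2 * π - l) (2 * π - x)) = |W x| * vp (dst l x)
  rw [RF_shift h.per, abs_neg, RF_dst hx]

theorem AA_rf {W : ℝ → ℝ} {l : ℝ} (h : Nrm W l) : AA (rf W) (2 * π - l) = AA W l := by
  unfold AA
  apply RF_main (l := l)
  intro x hx
  show |-W (-(2 * π - x))| * vp (ds2 (2 * π - l) (2 * π - x)) = |W x| * vp (ds2 l x)
  rw [RF_shift h.per, abs_neg, RF_ds2 hx]

theorem FF_rf {W : ℝ → ℝ} {l : ℝ} (h : Nrm W l) {K : ℝ} (hK : Lip K W) :
    FF (rf W) (2 * π - l) = FF W l := by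
  unfold FF
  apply RF_main (l := l)
  intro x hx
  show |-W (-(2 * π - x))| * (2 * HT (Pool.Agent.H51.DG.rf W) (2 * π - x) *
      Phi (2 * π - l) (2 * π - x)
    + UU (Pool.Agent.H51.DG.rf W) (2 * π - x) * dPhi (2 * π - l) (2 * π - x))
    = |W x| * (2 * HT W x * Phi l x + UU W x * dPhi l x)
  rw [HT_rf, UU_rf, RF_shift h.per, RF_shift (HT_per h.per), RF_shift (UU_per h.per hK),
    RF_dPhi hx, abs_neg]
  unfold Phi
  rw [RF_dst hx]
  ring

private theorem RF_HTneg (f : ℝ → ℝ) (x : ℝ) : HT (fun y => -f y) x = -HT f x := by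
  unfold HT
  rw [← mul_neg, ← intervalIntegral.integral_neg]
  congr 1
  apply intervalIntegral.integral_congr
  intro s _
  ring

theorem E2_rf {W : ℝ → ℝ} {l : ℝ} (h : Nrm W l) (hs : ContDiff ℝ 2 W) :
    E2 (rf W) (2 * π - l) = E2 W l := by
  have hd : ∀ x, deriv (Pool.Agent.H51.DG.rf W) x = deriv W (-x) := by
    intro x
    have e : Pool.Agent.H51.DG.rf W = fun y => -W (-y) := rfl
    rw [e, deriv.fun_neg, deriv_comp_neg, neg_neg]
  have hd2 : deriv (Pool.Agent.H51.DG.rf W) =
      fun y => -(Pool.Agent.H51.DG.rf (deriv W)) y := by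
    funext x
    rw [hd]
    simp [Pool.Agent.H51.DG.rf]
  have hper : Function.Periodic (deriv W) (2 * π) := by
    intro x
    have e : (fun y => W (y + 2 * π)) = W := funext h.per
    have := deriv_comp_add_const W (2 * π) x
    rw [e] at this
    exact this.symm
  unfold E2
  congr 1
  apply RF_main (l := l)
  intro x hx
  have h1 : HT (deriv (Pool.Agent.H51.DG.rf W)) (2 * π - x) = -HT (deriv W) x := by
    rw [hd2, RF_HTneg, HT_rf, RF_shift (HT_per hper)]
  rw [RF_sg hx, hd, h1, RF_shift hper]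
  ring

end Pool.Agent.H51.DG
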