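import Pool.Agent.H51.DG.SA
import Pool.Agent.H51.DG.RF

/-!
# DG2 job SO: the integrand of `FF`

`FF_bound`.  For `0 < x ≤ 1`, `x < l`: `Phi = 1/(4 sin²(x/2))`, `dPhi = -Phi ct x`, so
`2 HT Phi + UU dPhi = Phi (2 HT W x - UU W x ct x)`; `|UU W x - x HT W x| ≤ 8 K x² (1+|log x|)`
(`UU_near`), `|2/x - ct x| ≤ x` on `(0,1]` and `|UU W x| ≤ 2 K x` give
`|2 HT - UU ct x| ≤ 2 |HT - UU/x| + |UU||2/x - ct x| ≤ 18 K x (1+|log x|)`, `|W x| ≤ K x` (`W 0 = 0`),
`Phi ≤ π²/(4x²)` (`sin(x/2) ≥ x/π`).  For `x ≥ 1`, `x < l`, everything is bounded: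
`Phi ≤ 1/(4 sin²(1/2))` etc. (`ph`, `dph` bounded for `ξ ≥ 1`), `|HT| ≤ 2K`, `|UU W x| ≤ 2K·2π`,
`|W x| ≤ K x`.  For `x ≥ l` use the same at `2π - x`: `Phi l x = ph (2π-x)`,
`dPhi l x = -dph (2π-x)`, `UU W x = -∫_x^{2π} HT W` (`UU_per`), or apply the case `x < l` to `rf W`,
`2π - l`, `2π - x` (`HT_rf`, `UU_rf`; the identities of the RF file; `x = l` has `W l = 0`).
-/

set_option autoImplicit false
open Real Set MeasureTheory Filter Topology

namespace Pool.Agent.H51.DG

private theorem SO_UU {K : ℝ} {W : ℝ → ℝ} (h : Lip K W) {x : ℝ} (h0 : 0 ≤ x) :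
    |UU W x| ≤ 2 * K * x := by
  unfold UU
  have := intervalIntegral.norm_integral_le_of_norm_le_const (a := (0:ℝ)) (b := x) (C := 2 * K)
    (f := fun y => HT W y) ?_
  · rwa [Real.norm_eq_abs, sub_zero, abs_of_nonneg h0] at this
  · intro y _
    rw [Real.norm_eq_abs]
    exact abs_HT_le h y

private theorem SO_cot {x : ℝ} (h0 : 0 < x) (h1 : x ≤ 1) :
    |2 / x - Real.cos (x / 2) / Real.sin (x / 2)| ≤ x := by
  have hpi := Real.pi_gt_three
  have hs : 0 < Real.sin (x / 2) :=
    Real.sin_pos_of_pos_of_lt_pi (by linarith) (by linarith)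
  have hs1 : Real.sin (x / 2) ≤ x / 2 := Real.sin_le (by linarith)
  have hc1 : 1 - (x / 2) ^ 2 / 2 ≤ Real.cos (x / 2) := Real.one_sub_sq_div_two_le_cos
  obtain ⟨hc0, hc2⟩ := cot_le h0 (by linarith)
  rw [abs_of_nonneg (by linarith)]
  have h3 : 2 / x - x ≤ Real.cos (x / 2) / Real.sin (x / 2) := by
    rw [le_div_iff₀ hs]
    have h4 : 2 / x - x = (2 - x ^ 2) / x := by field_simp
    rw [h4, div_mul_eq_mul_div, div_le_iff₀ h0]
    have h5 : 0 ≤ 2 - x ^ 2 := by nlinarith
    have h6 : (2 - x ^ 2) * Real.sin (x / 2) ≤ (2 - x ^ 2) * (x / 2) :=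
      mul_le_mul_of_nonneg_left hs1 h5
    have h7 : (1 - (x / 2) ^ 2 / 2) * x ≤ Real.cos (x / 2) * x :=
      mul_le_mul_of_nonneg_right hc1 h0.le
    have h8 : (2 - x ^ 2) * (x / 2) ≤ (1 - (x / 2) ^ 2 / 2) * x := by
      nlinarith [pow_pos h0 3]
    linarith
  linarith

private theorem SO_sin {x : ℝ} (h0 : 0 < x) (h1 : x ≤ π) : x / π ≤ Real.sin (x / 2) := by
  have := Real.mul_le_sin (x := x / 2) (by linarith) (by linarith)
  calc x / π = 2 / π * (x / 2) := by ring
    _ ≤ _ := this

private theorem SO_core {K : ℝ} {W : ℝ → ℝ} (h : Lip K W) (hW : W 0 = 0) {x : ℝ} (h0 : 0 < x)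
    (h1 : x < 2 * π) :
    |W x| * |2 * HT W x * ph x + UU W x * dph x| ≤ 200 * K ^ 2 * (1 + |Real.log x|) := by
  have hK := h.nonneg
  have hpi3 := Real.pi_gt_three
  have hpi4 := Real.pi_lt_d2
  have hlog : 0 ≤ |Real.log x| := abs_nonneg _
  have hWx : |W x| ≤ K * x := by
    have := h x 0
    rwa [hW, sub_zero, sub_zero, abs_of_pos h0] at this
  have hHT := abs_HT_le h x
  have hUU := SO_UU h h0.le
  by_cases hxp : x ≤ π
  · have hsx := SO_sin h0 hxp
    have hxpi : 0 < x / π := div_pos h0 Real.pi_pos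
    have hs : 0 < Real.sin (x / 2) := lt_of_lt_of_le hxpi hsx
    set s := Real.sin (x / 2) with hsdef
    set c := Real.cos (x / 2) with hcdef
    have hphx : ph x = 1 / (4 * s ^ 2) := by unfold ph; rw [if_pos hxp]
    have hdphx : dph x = -(c / (4 * s ^ 3)) := by unfold dph; rw [if_pos hxp]
    have hph1 : 1 / (4 * s ^ 2) ≤ π ^ 2 / (4 * x ^ 2) := by
      rw [div_le_div_iff₀ (by positivity) (by positivity)]
      have : x ≤ s * π := by rwa [div_le_iff₀ Real.pi_pos] at hsx
      have h2 : x ^ 2 ≤ (s * π) ^ 2 := by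
        apply pow_le_pow_left₀ h0.le this
      nlinarith
    have hT : 2 * HT W x * ph x + UU W x * dph x =
        1 / (4 * s ^ 2) * (2 * HT W x - UU W x * (c / s)) := by
      rw [hphx, hdphx]
      field_simp
      ring
    rw [hT, abs_mul, abs_of_pos (by positivity : (0:ℝ) < 1 / (4 * s ^ 2))]
    by_cases hx1 : x ≤ 1
    · have hn := UU_near h (x := x) (by rwa [abs_of_pos h0]) (by rwa [abs_of_pos h0])
      rw [abs_of_pos h0] at hn
      have hcot := SO_cot h0 hx1
      have e1 : 2 * HT W x - UU W x * (c / s) =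
          -(2 / x * (UU W x - x * HT W x)) + UU W x * (2 / x - c / s) := by
        field_simp
        ring
      have b1 : |2 * HT W x - UU W x * (c / s)| ≤ 18 * K * x * (1 + |Real.log x|) := by
        rw [e1]
        refine (abs_add_le _ _).trans ?_
        rw [abs_neg, abs_mul, abs_mul, abs_of_pos (by positivity : (0:ℝ) < 2 / x)]
        have c1 : 2 / x * |UU W x - x * HT W x| ≤ 16 * K * x * (1 + |Real.log x|) := by
          calc 2 / x * |UU W x - x * HT W x| ≤ 2 / x * (8 * K * x ^ 2 * (1 + |Real.log x|)) :=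
                mul_le_mul_of_nonneg_left hn (by positivity)
            _ = _ := by field_simp; ring
        have c2 : |UU W x| * |2 / x - c / s| ≤ (2 * K * x) * x :=
          mul_le_mul hUU hcot (abs_nonneg _) (by positivity)
        have c3 : (2 * K * x) * x ≤ 2 * K * x * (1 + |Real.log x|) := by
          apply mul_le_mul_of_nonneg_left _ (by positivity)
          linarith
        linarith
      have hpi2 : π ^ 2 ≤ 10 := by nlinarith
      calc |W x| * (1 / (4 * s ^ 2) * |2 * HT W x - UU W x * (c / s)|)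
          ≤ (K * x) * (π ^ 2 / (4 * x ^ 2) * (18 * K * x * (1 + |Real.log x|))) := by
            apply mul_le_mul hWx _ (by positivity) (by positivity)
            apply mul_le_mul hph1 b1 (by positivity) (by positivity)
        _ = π ^ 2 * (18 / 4 * K ^ 2 * (1 + |Real.log x|)) := by
            field_simp
        _ ≤ 10 * (18 / 4 * K ^ 2 * (1 + |Real.log x|)) := by
            apply mul_le_mul_of_nonneg_right hpi2 (by positivity)
        _ ≤ _ := by
            have : 0 ≤ K ^ 2 * (1 + |Real.log x|) := by positivity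
            linarith
    · push Not at hx1
      have hps : 1 / π ≤ s := by
        refine le_trans ?_ hsx
        apply div_le_div_of_nonneg_right hx1.le Real.pi_pos.le
      have hinv : 1 / s ≤ π := by
        rw [div_le_iff₀ hs]
        rw [div_le_iff₀ Real.pi_pos] at hps
        linarith
      have hc : |c| ≤ 1 := Real.abs_cos_le_one _
      have hcs : |c / s| ≤ π := by
        rw [abs_div, abs_of_pos hs]
        calc |c| / s ≤ 1 / s := div_le_div_of_nonneg_right hc hs.le
          _ ≤ π := hinv
      have b1 : |2 * HT W x - UU W x * (c / s)| ≤ 4 * K + 2 * K * π * π := by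
        refine (abs_sub _ _).trans ?_
        rw [abs_mul, abs_mul, abs_of_pos (by norm_num : (0:ℝ) < 2)]
        have c2 : |UU W x| * |c / s| ≤ (2 * K * π) * π := by
          apply mul_le_mul _ hcs (abs_nonneg _) (by positivity)
          refine hUU.trans ?_
          apply mul_le_mul_of_nonneg_left hxp (by positivity)
        linarith
      have b2 : 1 / (4 * s ^ 2) ≤ π ^ 2 / 4 := by
        have : 1 / (4 * s ^ 2) = (1 / s) ^ 2 / 4 := by field_simp
        rw [this]
        have h5 : (1 / s) ^ 2 ≤ π ^ 2 := pow_le_pow_left₀ (by positivity) hinv 2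
        linarith
      have hpi2 : π ^ 2 ≤ 10 := by nlinarith
      have b3 : 4 * K + 2 * K * π * π ≤ 24 * K := by nlinarith
      have b4 : |W x| ≤ K * 3.15 := by
        refine hWx.trans (mul_le_mul_of_nonneg_left (by linarith) hK)
      calc |W x| * (1 / (4 * s ^ 2) * |2 * HT W x - UU W x * (c / s)|)
          ≤ (K * 3.15) * ((10 / 4) * (24 * K)) := by
            apply mul_le_mul b4 _ (by positivity) (by positivity)
            apply mul_le_mul (b2.trans (by linarith)) (b1.trans b3) (by positivity) (by positivity)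
        _ ≤ 200 * K ^ 2 * 1 := by nlinarith [sq_nonneg K]
        _ ≤ _ := by
            apply mul_le_mul_of_nonneg_left _ (by positivity)
            linarith
  · have hphx : ph x = 1 / 4 := by unfold ph; rw [if_neg hxp]
    have hdphx : dph x = 0 := by unfold dph; rw [if_neg hxp]
    rw [hphx, hdphx, mul_zero, add_zero]
    have b1 : |2 * HT W x * (1 / 4)| ≤ K := by
      rw [abs_mul, abs_mul, abs_of_pos (by norm_num : (0:ℝ) < 2),
        abs_of_pos (by norm_num : (0:ℝ) < 1 / 4)]
      linarith
    have b4 : |W x| ≤ K * 7 := by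
      refine hWx.trans (mul_le_mul_of_nonneg_left (by linarith) hK)
    calc |W x| * |2 * HT W x * (1 / 4)| ≤ (K * 7) * K :=
          mul_le_mul b4 b1 (abs_nonneg _) (by positivity)
      _ ≤ 200 * K ^ 2 * 1 := by nlinarith [sq_nonneg K]
      _ ≤ _ := by
          apply mul_le_mul_of_nonneg_left _ (by positivity)
          linarith

theorem FF_bound : ∃ C : ℝ, 0 ≤ C ∧ ∀ (W : ℝ → ℝ) (l K : ℝ), Nrm W l → Lip K W →
    ∀ x ∈ Ioo (0:ℝ) (2 * π),
      |(|W x| * (2 * HT W x * Phi l x + UU W x * dPhi l x))| ≤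
        C * K ^ 2 * (1 + |Real.log x| + |Real.log (2 * π - x)|) := by
  refine ⟨200, by norm_num, ?_⟩
  intro W l K hN hL x hx
  have hK := hL.nonneg
  have hpi := Real.pi_pos
  have hW0 : W 0 = 0 := by
    have h1 := hN.neg 0 ⟨le_rfl, hN.l0.le⟩
    have h2 := hN.pos (2 * π) ⟨hN.l1.le, le_rfl⟩
    have h3 := hN.per 0
    rw [zero_add] at h3
    linarith
  have hl1 : 0 ≤ |Real.log x| := abs_nonneg _
  have hl2 : 0 ≤ |Real.log (2 * π - x)| := abs_nonneg _
  rw [abs_mul, abs_abs]
  by_cases hxl : x < l
  · have h1 := SO_core hL hW0 hx.1 hx.2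
    have e1 : Phi l x = ph x := by unfold Phi dst; rw [if_pos hxl]
    have e2 : dPhi l x = dph x := by unfold dPhi; rw [if_pos hxl]
    rw [e1, e2]
    refine h1.trans ?_
    apply mul_le_mul_of_nonneg_left _ (by positivity)
    linarith
  · have hL' := hL.rf
    have hW0' : rf W 0 = 0 := by
      unfold rf; rw [neg_zero, hW0, neg_zero]
    have h1 := SO_core hL' hW0' (x := 2 * π - x) (by linarith [hx.2]) (by linarith [hx.1])
    have e1 : Phi l x = ph (2 * π - x) := by unfold Phi dst; rw [if_neg hxl]
    have e2 : dPhi l x = -dph (2 * π - x) := by unfold dPhi; rw [if_neg hxl]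
    have e3 : HT (rf W) (2 * π - x) = HT W x := by
      rw [HT_rf]
      have := HT_per hN.per (-(2 * π - x))
      rw [← this]
      congr 1
      ring
    have e4 : UU (rf W) (2 * π - x) = -UU W x := by
      rw [UU_rf]
      have := UU_per hN.per hL (-(2 * π - x))
      rw [← this]
      congr 2
      ring
    have e5 : |rf W (2 * π - x)| = |W x| := by
      unfold rf
      rw [abs_neg]
      have := hN.per (-(2 * π - x))
      rw [← this]
      congr 2
      ring
    rw [e3, e4, e5] at h1
    rw [e1, e2]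
    have e6 : 2 * HT W x * ph (2 * π - x) + UU W x * -dph (2 * π - x) =
        2 * HT W x * ph (2 * π - x) + -UU W x * dph (2 * π - x) := by ring
    rw [e6]
    refine h1.trans ?_
    apply mul_le_mul_of_nonneg_left _ (by positivity)
    linarith

theorem FF_bound_integrable (C : ℝ) :
    IntervalIntegrable (fun x : ℝ => C * (1 + |Real.log x| + |Real.log (2 * π - x)|)) volume 0
      (2 * π) := by
  apply IntervalIntegrable.const_mul
  have h1 : IntervalIntegrable (fun x : ℝ => Real.log x) volume 0 (2 * π) :=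
    intervalIntegral.intervalIntegrable_log'
  have h2 : IntervalIntegrable (fun x : ℝ => Real.log (2 * π - x)) volume 0 (2 * π) := by
    have := h1.comp_sub_left (2 * π)
    rw [sub_zero, sub_self] at this
    exact this.symm
  exact (intervalIntegrable_const.add h1.abs).add h2.abs

private theorem SO_meas_ph : Measurable ph := by
  unfold ph
  apply Measurable.ite measurableSet_Iic _ measurable_const
  exact Measurable.div measurable_const
    ((by fun_prop : Continuous fun x : ℝ => 4 * Real.sin (x / 2) ^ 2).measurable)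

private theorem SO_meas_dph : Measurable dph := by
  unfold dph
  apply Measurable.ite measurableSet_Iic _ measurable_const
  exact (Measurable.div (by fun_prop : Continuous fun x : ℝ => Real.cos (x / 2)).measurable
    ((by fun_prop : Continuous fun x : ℝ => 4 * Real.sin (x / 2) ^ 3).measurable)).neg

private theorem SO_meas_vp : Measurable vp := by
  unfold vp
  apply Measurable.ite measurableSet_Iic _ measurable_const
  exact Measurable.div measurable_const
    ((by fun_prop : Continuous fun x : ℝ => 2 * Real.sin (x / 2)).measurable)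

private theorem SO_meas_dst (l : ℝ) : Measurable (dst l) := by
  unfold dst
  apply Measurable.ite measurableSet_Iio measurable_id
  fun_prop

private theorem SO_meas_ds2 (l : ℝ) : Measurable (ds2 l) := by
  unfold ds2
  apply Measurable.ite measurableSet_Iio
  · fun_prop
  · fun_prop

theorem measurable_Phi (l : ℝ) : Measurable (Phi l) ∧ Measurable (dPhi l) ∧
    Measurable (fun x => vp (dst l x)) ∧ Measurable (fun x => vp (ds2 l x)) := by
  refine ⟨SO_meas_ph.comp (SO_meas_dst l), ?_, SO_meas_vp.comp (SO_meas_dst l),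
    SO_meas_vp.comp (SO_meas_ds2 l)⟩
  unfold dPhi
  apply Measurable.ite measurableSet_Iio SO_meas_dph
  exact (SO_meas_dph.comp (by fun_prop : Measurable fun x : ℝ => 2 * π - x)).neg

theorem FF_integrable {W : ℝ → ℝ} {l K : ℝ} (h : Nrm W l) (hK : Lip K W) :
    IntervalIntegrable (fun x => |W x| * (2 * HT W x * Phi l x + UU W x * dPhi l x)) volume 0
      (2 * π) := by
  obtain ⟨C, hC, hb⟩ := FF_bound
  have hpi := Real.pi_pos
  have h1 := FF_bound_integrable (C * K ^ 2)
  have hle : (0:ℝ) ≤ 2 * π := by linarith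
  rw [intervalIntegrable_iff_integrableOn_Ioo_of_le hle] at h1 ⊢
  have hWm : Measurable W := hK.continuous.measurable
  have hHm : Measurable (HT W) := (continuous_HT hK).measurable
  have hUm : Measurable (UU W) :=
    (continuous_iff_continuousAt.2 fun x => (hasDerivAt_UU hK x).continuousAt).measurable
  obtain ⟨hP, hdP, -, -⟩ := measurable_Phi l
  have hm : Measurable (fun x => |W x| * (2 * HT W x * Phi l x + UU W x * dPhi l x)) := by
    apply Measurable.mul
    · exact continuous_abs.measurable.comp hWm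
    · exact ((measurable_const.mul hHm).mul hP).add (hUm.mul hdP)
  refine MeasureTheory.Integrable.mono' h1 hm.aestronglyMeasurable ?_
  rw [MeasureTheory.ae_restrict_iff' measurableSet_Ioo]
  refine Filter.Eventually.of_forall fun x hx => ?_
  rw [Real.norm_eq_abs]
  exact hb W l K h hK x hx

end Pool.Agent.H51.DG
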