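import Pool.Agent.H51.DG.SC

/-!
# DG2 job SG: kernel form of `E2`

`Nrm W l`, `W` is Lipschitz, `W 0 = W l = W (2π) = 0`.  `SE l x y = 0` unless `x < l < y` or
`y < l < x` (up to null sets).  For `x ∈ (0,l)`, `y ∈ (l,2π)`, with `u = y - x ∈ (0,2π)`:
`|sin((x-y)/2)| ≥ min(u, 2π-u)/π`, `1/|sin|^k ≤ π^k (1/u^k + 1/(2π-u)^k)`, `u = (l-x) + (y-l)`,
`2π - u = x + (2π - y)`, `|W x| ≤ K min(x, l-x)`, `|W y| ≤ K min(y-l, 2π-y)`; so
`|W x||W y||SE| ≤ C (st/(s+t)^3 + s't'/(s'+t')^3) ≤ C (1/(s+t) + 1/(s'+t'))`, integrable on a square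
(`1/(s+t) ≤ 1/(2 √(s t)) = (1/2) s^{-1/2} t^{-1/2}`).

`E2_kernel`: by `HT_fubini` with `V = W'` (Lipschitz, periodic), `F = sg W'` (periodic extension of
it: `F x = 0` where ...; or `F x = sgn-periodic * W' x` with the periodic sign `sg l (toIco x)`; `F`
is bounded and measurable), where the hypothesis `hint` holds since
`(F x V y - F y V x) ct(x-y) = (sg x - sg y) W'(x) W'(y) ct(x-y)`, and `1/|x-y|`-type singularities
at the corners are integrable as above:
`E2 = -2/(4π) ∫∫ (sg x - sg y) W'(x) W'(y) ct(x-y) = (2/π) ∫_0^l ∫_l^{2π} W'(x) W'(y) ct(x-y) dy dx`.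
For fixed `x ∈ (0,l)`, `y ↦ W(y) ct(x-y)` is `C^1` on `[l,2π]`, so
`∫_l^{2π} W'(y) ct(x-y) dy = -(1/2) ∫_l^{2π} W(y)/sin((x-y)/2)^2 dy` (`W(l) = W(2π) = 0`).  Fubini
(`|W'(x)||W(y)|/sin² ≤ C t/(s+t)² + ...`, integrable), then for fixed `y ∈ (l,2π)`
`∫_0^l W'(x)/sin((x-y)/2)^2 dx = ∫_0^l W(x) cos((x-y)/2)/sin((x-y)/2)^3 dx`.  So
`E2 = -(1/π) ∫_0^l∫_l^{2π} W(x)W(y) cos/sin^3 = (1/π) ∫∫ |W x||W y| cos/sin^3`, which is
`∫∫_{(0,2π)²} |W||W| SE` (`SE` is symmetric: `sg y - sg x` and `cos/sin^3` are both antisymmetric).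
-/

set_option autoImplicit false
open Real Set MeasureTheory Filter Topology

namespace Pool.Agent.H51.DG

/-- the two one-dimensional measures -/
noncomputable def SG_mu (l : ℝ) : Measure ℝ := volume.restrict (Ioo (0:ℝ) l)
noncomputable def SG_nu (l : ℝ) : Measure ℝ := volume.restrict (Ioo l (2 * π))

instance (l : ℝ) : SFinite (SG_mu l) := by unfold SG_mu; infer_instance
instance (l : ℝ) : SFinite (SG_nu l) := by unfold SG_nu; infer_instance

theorem SG_res {l : ℝ} (h0 : 0 < l) (h1 : l < 2 * π) :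
    (volume : Measure ℝ).restrict (Ioo (0:ℝ) (2 * π)) = SG_mu l + SG_nu l := by
  have hU : Ioo (0:ℝ) (2 * π) = Ioo (0:ℝ) l ∪ Ico l (2 * π) :=
    (Ioo_union_Ico_eq_Ioo h0 h1.le).symm
  have hd : Disjoint (Ioo (0:ℝ) l) (Ico l (2 * π)) := by
    rw [Set.disjoint_left]
    intro x hx hy
    exact absurd hx.2 (not_lt.2 hy.1)
  unfold SG_mu SG_nu
  rw [hU, Measure.restrict_union hd measurableSet_Ico,
    Measure.restrict_congr_set (Ioo_ae_eq_Ico (μ := (volume : Measure ℝ)) (a := l) (b := 2 * π))]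

theorem SG_prod_eq (l : ℝ) : (SG_mu l).prod (SG_nu l) =
    (volume : Measure (ℝ × ℝ)).restrict (Ioo (0:ℝ) l ×ˢ Ioo l (2 * π)) := by
  unfold SG_mu SG_nu
  rw [Measure.volume_eq_prod, Measure.prod_restrict]

theorem SG_sq2 {l : ℝ} (h0 : 0 < l) (h1 : l < 2 * π) :
    (volume : Measure (ℝ × ℝ)).restrict Sq2 =
      ((SG_mu l).prod (SG_mu l) + (SG_mu l).prod (SG_nu l)) +
        ((SG_nu l).prod (SG_mu l) + (SG_nu l).prod (SG_nu l)) := by
  have h : (volume : Measure (ℝ × ℝ)).restrict Sq2 =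
      ((volume : Measure ℝ).restrict (Ioo (0:ℝ) (2 * π))).prod
        ((volume : Measure ℝ).restrict (Ioo (0:ℝ) (2 * π))) := by
    unfold Sq2
    rw [Measure.volume_eq_prod, Measure.prod_restrict]
  rw [h, SG_res h0 h1, Measure.add_prod, Measure.prod_add, Measure.prod_add]

theorem SG_split {l : ℝ} (h0 : 0 < l) (h1 : l < 2 * π) {g : ℝ × ℝ → ℝ}
    (hsym : ∀ x y, g (x, y) = g (y, x))
    (hz1 : ∀ x ∈ Ioo (0:ℝ) l, ∀ y ∈ Ioo (0:ℝ) l, g (x, y) = 0)
    (hz2 : ∀ x ∈ Ioo l (2 * π), ∀ y ∈ Ioo l (2 * π), g (x, y) = 0)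
    (hi : Integrable g ((SG_mu l).prod (SG_nu l))) :
    IntegrableOn g Sq2 ∧ ∫ z in Sq2, g z = 2 * ∫ z, g z ∂((SG_mu l).prod (SG_nu l)) := by
  have hm1 : (SG_mu l).prod (SG_mu l) =
      (volume : Measure (ℝ × ℝ)).restrict (Ioo (0:ℝ) l ×ˢ Ioo (0:ℝ) l) := by
    unfold SG_mu
    rw [Measure.volume_eq_prod, Measure.prod_restrict]
  have hm2 : (SG_nu l).prod (SG_nu l) =
      (volume : Measure (ℝ × ℝ)).restrict (Ioo l (2 * π) ×ˢ Ioo l (2 * π)) := by
    unfold SG_nu
    rw [Measure.volume_eq_prod, Measure.prod_restrict]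
  have e1 : g =ᵐ[(SG_mu l).prod (SG_mu l)] fun _ => (0:ℝ) := by
    rw [hm1]
    refine (ae_restrict_iff' (measurableSet_Ioo.prod measurableSet_Ioo)).2
      (Filter.Eventually.of_forall ?_)
    rintro ⟨x, y⟩ hz
    exact hz1 x hz.1 y hz.2
  have e2 : g =ᵐ[(SG_nu l).prod (SG_nu l)] fun _ => (0:ℝ) := by
    rw [hm2]
    refine (ae_restrict_iff' (measurableSet_Ioo.prod measurableSet_Ioo)).2
      (Filter.Eventually.of_forall ?_)
    rintro ⟨x, y⟩ hz
    exact hz2 x hz.1 y hz.2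
  have hswap : (fun z : ℝ × ℝ => g z.swap) = g := by
    funext z
    obtain ⟨x, y⟩ := z
    exact (hsym y x)
  have i1 : Integrable g ((SG_mu l).prod (SG_mu l)) :=
    (integrable_congr e1).2 (integrable_zero _ _ _)
  have i2 : Integrable g ((SG_nu l).prod (SG_nu l)) :=
    (integrable_congr e2).2 (integrable_zero _ _ _)
  have i3 : Integrable g ((SG_nu l).prod (SG_mu l)) := by
    have h := hi.swap
    have h2 : g ∘ Prod.swap = g := hswap
    rwa [h2] at h
  have j1 : ∫ z, g z ∂((SG_mu l).prod (SG_mu l)) = 0 := by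
    rw [integral_congr_ae e1, integral_zero]
  have j2 : ∫ z, g z ∂((SG_nu l).prod (SG_nu l)) = 0 := by
    rw [integral_congr_ae e2, integral_zero]
  have j3 : ∫ z, g z ∂((SG_nu l).prod (SG_mu l)) = ∫ z, g z ∂((SG_mu l).prod (SG_nu l)) := by
    rw [← integral_prod_swap (μ := SG_mu l) (ν := SG_nu l) g]
    have h2 : ∀ z : ℝ × ℝ, g z.swap = g z := fun z => congrFun hswap z
    simp_rw [h2]
  constructor
  · unfold IntegrableOn
    rw [SG_sq2 h0 h1]
    exact (i1.add_measure hi).add_measure (i3.add_measure i2)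
  · rw [SG_sq2 h0 h1, integral_add_measure (i1.add_measure hi) (i3.add_measure i2),
      integral_add_measure i1 hi, integral_add_measure i3 i2, j1, j2, j3]
    ring

/-- the bounding function -/
noncomputable def SG_H (z : ℝ × ℝ) : ℝ := 1 / (z.2 - z.1) + 1 / (2 * π - (z.2 - z.1))

theorem SG_amgm {s t : ℝ} (hs : 0 < s) (ht : 0 < t) :
    1 / (s + t) ≤ (Real.sqrt s)⁻¹ * (Real.sqrt t)⁻¹ := by
  have a := Real.sqrt_pos.2 hs
  have b := Real.sqrt_pos.2 ht
  have ea := Real.sq_sqrt hs.le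
  have eb := Real.sq_sqrt ht.le
  rw [← mul_inv, ← one_div, div_le_div_iff₀ (by positivity) (by positivity)]
  nlinarith [sq_nonneg (Real.sqrt s - Real.sqrt t), mul_pos a b]

theorem SG_sqrt_int (c : ℝ) : IntervalIntegrable (fun x : ℝ => (Real.sqrt x)⁻¹) volume 0 c := by
  have h := intervalIntegral.intervalIntegrable_rpow' (a := 0) (b := c) (r := -(1/2)) (by norm_num)
  have h0 : IntervalIntegrable (fun x : ℝ => |x ^ (-(1/2) : ℝ)|) volume 0 c := h.abs
  rcases le_total 0 c with hc | hc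
  · refine h.congr (fun x hx => ?_)
    rw [uIoc_of_le hc] at hx
    show x ^ (-(1/2) : ℝ) = (Real.sqrt x)⁻¹
    rw [Real.rpow_neg hx.1.le, Real.sqrt_eq_rpow]
  · have h1 : IntervalIntegrable (fun _ : ℝ => (0:ℝ)) volume 0 c := intervalIntegrable_const
    refine h1.congr (fun x hx => ?_)
    rw [uIoc_of_ge hc] at hx
    show (0:ℝ) = (Real.sqrt x)⁻¹
    rw [Real.sqrt_eq_zero_of_nonpos hx.2, inv_zero]

theorem SG_ioo {f : ℝ → ℝ} {a b : ℝ} (hab : a ≤ b) (h : IntervalIntegrable f volume a b) :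
    Integrable f (volume.restrict (Ioo a b)) := by
  rw [intervalIntegrable_iff_integrableOn_Ioo_of_le hab] at h
  exact h

theorem SG_H_int {l : ℝ} (h0 : 0 < l) (h1 : l < 2 * π) :
    Integrable SG_H ((SG_mu l).prod (SG_nu l)) := by
  have a1 : Integrable (fun x : ℝ => (Real.sqrt (l - x))⁻¹) (SG_mu l) := by
    unfold SG_mu
    refine SG_ioo h0.le ?_
    have h := (SG_sqrt_int l).comp_sub_left l
    rw [sub_zero, sub_self] at h
    exact h.symm
  have a2 : Integrable (fun x : ℝ => (Real.sqrt x)⁻¹) (SG_mu l) := by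
    unfold SG_mu
    exact SG_ioo h0.le (SG_sqrt_int l)
  have b1 : Integrable (fun y : ℝ => (Real.sqrt (y - l))⁻¹) (SG_nu l) := by
    unfold SG_nu
    refine SG_ioo h1.le ?_
    have h := (SG_sqrt_int (2 * π - l)).comp_sub_right l
    rw [zero_add, sub_add_cancel] at h
    exact h
  have b2 : Integrable (fun y : ℝ => (Real.sqrt (2 * π - y))⁻¹) (SG_nu l) := by
    unfold SG_nu
    refine SG_ioo h1.le ?_
    have h := (SG_sqrt_int (2 * π - l)).comp_sub_left (2 * π)
    rw [sub_zero, sub_sub_cancel] at h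
    exact h.symm
  have c := (a1.mul_prod b1).add (a2.mul_prod b2)
  refine Integrable.mono' c ?_ ?_
  · have : Measurable SG_H := by
      unfold SG_H
      fun_prop
    exact this.aestronglyMeasurable
  · rw [SG_prod_eq]
    refine (ae_restrict_iff' (measurableSet_Ioo.prod measurableSet_Ioo)).2
      (Filter.Eventually.of_forall ?_)
    rintro ⟨x, y⟩ ⟨⟨hx0, hx1⟩, ⟨hy0, hy1⟩⟩
    have p1 : 0 < y - x := by
      have e1 : x < l := hx1
      have e2 : l < y := hy0
      linarith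
    have p2 : 0 < 2 * π - (y - x) := by
      have e1 : 0 < x := hx0
      have e2 : y < 2 * π := hy1
      linarith
    have q1 := SG_amgm (s := l - x) (t := y - l) (sub_pos.2 hx1) (sub_pos.2 hy0)
    have q2 := SG_amgm (s := x) (t := 2 * π - y) hx0 (sub_pos.2 hy1)
    have r1 : l - x + (y - l) = y - x := by ring
    have r2 : x + (2 * π - y) = 2 * π - (y - x) := by ring
    rw [r1] at q1
    rw [r2] at q2
    show ‖1 / (y - x) + 1 / (2 * π - (y - x))‖ ≤
      (Real.sqrt (l - x))⁻¹ * (Real.sqrt (y - l))⁻¹ + (Real.sqrt x)⁻¹ * (Real.sqrt (2 * π - y))⁻¹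
    rw [Real.norm_eq_abs, abs_of_pos (by positivity)]
    exact add_le_add q1 q2

/-- `m = min u (2π-u)` -/
theorem SG_sin {u : ℝ} (h0 : 0 < u) (h1 : u < 2 * π) :
    0 < min u (2 * π - u) ∧ min u (2 * π - u) / π ≤ Real.sin (u / 2) := by
  have hp := Real.pi_pos
  refine ⟨lt_min h0 (by linarith), ?_⟩
  rcases le_total u π with h | h
  · have h2 : 2 / π * (u / 2) ≤ Real.sin (u / 2) := Real.mul_le_sin (by linarith) (by linarith)
    have h3 : 2 / π * (u / 2) = u / π := by ring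
    rw [h3] at h2
    refine le_trans ?_ h2
    exact div_le_div_of_nonneg_right (min_le_left _ _) hp.le
  · have h2 : 2 / π * (π - u / 2) ≤ Real.sin (π - u / 2) :=
      Real.mul_le_sin (by linarith) (by linarith)
    rw [Real.sin_pi_sub] at h2
    have h3 : 2 / π * (π - u / 2) = (2 * π - u) / π := by
      field_simp
    rw [h3] at h2
    refine le_trans ?_ h2
    exact div_le_div_of_nonneg_right (min_le_right _ _) hp.le

theorem SG_min_le {u : ℝ} (h0 : 0 < u) (h1 : u < 2 * π) :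
    1 / min u (2 * π - u) ≤ 1 / u + 1 / (2 * π - u) := by
  have h2 : 0 < 2 * π - u := by linarith
  have p1 : 0 < 1 / u := by positivity
  have p2 : 0 < 1 / (2 * π - u) := by positivity
  rcases min_choice u (2 * π - u) with h | h
  · rw [h]; linarith
  · rw [h]; linarith

theorem SG_pt {W : ℝ → ℝ} {l K : ℝ} (h : Nrm W l) (_hK : Lip K W) :
    W 0 = 0 ∧ W l = 0 ∧ W (2 * π) = 0 := by
  have hp := Real.pi_pos
  have e : W (2 * π) = W 0 := by
    have := h.per 0
    rwa [zero_add] at this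
  have a1 : W 0 ≤ 0 := h.neg 0 ⟨le_rfl, h.l0.le⟩
  have a2 : 0 ≤ W (2 * π) := h.pos (2 * π) ⟨h.l1.le, le_rfl⟩
  have a3 : W l ≤ 0 := h.neg l ⟨h.l0.le, le_rfl⟩
  have a4 : 0 ≤ W l := h.pos l ⟨le_rfl, h.l1.le⟩
  refine ⟨by linarith, by linarith, by linarith⟩

/-- pointwise bounds on the rectangle -/
theorem SG_bnd {W : ℝ → ℝ} {l K x y : ℝ} (h : Nrm W l) (hK : Lip K W) (hx : x ∈ Ioo (0:ℝ) l)
    (hy : y ∈ Ioo l (2 * π)) :
    |W x| ≤ K * min (y - x) (2 * π - (y - x)) ∧ |W y| ≤ K * min (y - x) (2 * π - (y - x)) := by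
  obtain ⟨w0, wl, wp⟩ := SG_pt h hK
  have hK0 := hK.nonneg
  have ax : |W x| ≤ K * x := by
    have := hK x 0
    rwa [w0, sub_zero, sub_zero, abs_of_pos hx.1] at this
  have ax2 : |W x| ≤ K * (l - x) := by
    have := hK x l
    rw [wl, sub_zero, abs_sub_comm, abs_of_pos (sub_pos.2 hx.2)] at this
    exact this
  have ay : |W y| ≤ K * (2 * π - y) := by
    have := hK y (2 * π)
    rw [wp, sub_zero, abs_sub_comm, abs_of_pos (sub_pos.2 hy.2)] at this
    exact this
  have ay2 : |W y| ≤ K * (y - l) := by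
    have := hK y l
    rwa [wl, sub_zero, abs_of_pos (sub_pos.2 hy.1)] at this
  have b1 := hx.1
  have b2 := hx.2
  have b3 := hy.1
  have b4 := hy.2
  rcases min_choice (y - x) (2 * π - (y - x)) with hm | hm
  · rw [hm]
    constructor
    · exact ax2.trans (mul_le_mul_of_nonneg_left (by linarith) hK0)
    · exact ay2.trans (mul_le_mul_of_nonneg_left (by linarith) hK0)
  · rw [hm]
    constructor
    · exact ax.trans (mul_le_mul_of_nonneg_left (by linarith) hK0)
    · exact ay.trans (mul_le_mul_of_nonneg_left (by linarith) hK0)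

theorem SG_key {l : ℝ} (h0 : 0 < l) (h1 : l < 2 * π) {g : ℝ × ℝ → ℝ} (hm : Measurable g) {C : ℝ}
    (hC : 0 ≤ C) (hb : ∀ x ∈ Ioo (0:ℝ) l, ∀ y ∈ Ioo l (2 * π),
      |g (x, y)| ≤ C * (1 / min (y - x) (2 * π - (y - x)))) :
    Integrable g ((SG_mu l).prod (SG_nu l)) := by
  refine Integrable.mono' ((SG_H_int h0 h1).const_mul C) hm.aestronglyMeasurable ?_
  rw [SG_prod_eq]
  refine (ae_restrict_iff' (measurableSet_Ioo.prod measurableSet_Ioo)).2
    (Filter.Eventually.of_forall ?_)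
  rintro ⟨x, y⟩ ⟨hx, hy⟩
  have b1 : 0 < x := hx.1
  have b2 : x < l := hx.2
  have b3 : l < y := hy.1
  have b4 : y < 2 * π := hy.2
  refine (hb x hx y hy).trans (mul_le_mul_of_nonneg_left ?_ hC)
  exact SG_min_le (by linarith) (by linarith)

theorem SG_sin_xy {l x y : ℝ} (hx : x ∈ Ioo (0:ℝ) l) (hy : y ∈ Ioo l (2 * π)) :
    0 < min (y - x) (2 * π - (y - x)) ∧
    min (y - x) (2 * π - (y - x)) / π ≤ |Real.sin ((x - y) / 2)| ∧
    Real.sin ((x - y) / 2) ≠ 0 := by
  have b1 := hx.1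
  have b2 := hx.2
  have b3 := hy.1
  have b4 := hy.2
  obtain ⟨h1, h2⟩ := SG_sin (u := y - x) (by linarith) (by linarith)
  have e : Real.sin ((x - y) / 2) = -Real.sin ((y - x) / 2) := by
    rw [← Real.sin_neg]
    congr 1
    ring
  have h3 : 0 < Real.sin ((y - x) / 2) := lt_of_lt_of_le (div_pos h1 Real.pi_pos) h2
  refine ⟨h1, ?_, ?_⟩
  · rw [e, abs_neg, abs_of_pos h3]
    exact h2
  · rw [e]
    exact neg_ne_zero.2 h3.ne'

theorem SG_inv_le {m a : ℝ} (hm : 0 < m) (h : m / π ≤ a) : a⁻¹ ≤ π * (1 / m) := by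
  have hp := Real.pi_pos
  have h1 : 0 < m / π := div_pos hm hp
  calc a⁻¹ ≤ (m / π)⁻¹ := inv_anti₀ h1 h
    _ = π * (1 / m) := by rw [inv_div]; ring

theorem SG_sgx {l x : ℝ} (hx : x ∈ Ioo (0:ℝ) l) : sg l x = -1 := by
  unfold sg
  rw [if_pos hx.2]

theorem SG_sgy {l y : ℝ} (hy : y ∈ Ioo l (2 * π)) : sg l y = 1 := by
  unfold sg
  rw [if_neg (not_lt.2 hy.1.le)]

theorem SG_sg_meas (l : ℝ) : Measurable (sg l) := by
  unfold sg
  exact Measurable.ite measurableSet_Iio measurable_const measurable_const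

theorem SG_f_meas {W : ℝ → ℝ} (hc : Continuous W) (l : ℝ) :
    Measurable (fun z : ℝ × ℝ => |W z.1| * |W z.2| * SE l z.1 z.2) := by
  have m1 : Measurable (fun z : ℝ × ℝ => |W z.1| * |W z.2|) := by
    have c : Continuous (fun z : ℝ × ℝ => |W z.1| * |W z.2|) := by fun_prop
    exact c.measurable
  have m2 : Measurable (fun z : ℝ × ℝ => SE l z.1 z.2) := by
    unfold SE
    have s1 : Measurable (fun z : ℝ × ℝ => sg l z.1) := (SG_sg_meas l).comp measurable_fst
    have s2 : Measurable (fun z : ℝ × ℝ => sg l z.2) := (SG_sg_meas l).comp measurable_snd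
    have s3 : Measurable (fun z : ℝ × ℝ => Real.cos ((z.1 - z.2) / 2)) := by fun_prop
    have s4 : Measurable (fun z : ℝ × ℝ => Real.sin ((z.1 - z.2) / 2) ^ 3) := by fun_prop
    exact ((measurable_const.mul (s2.sub s1)).mul (s3.div s4))
  exact m1.mul m2

theorem SG_f_sym (W : ℝ → ℝ) (l x y : ℝ) :
    |W x| * |W y| * SE l x y = |W y| * |W x| * SE l y x := by
  unfold SE
  have e1 : (y - x) / 2 = -((x - y) / 2) := by ring
  rw [e1, Real.cos_neg, Real.sin_neg]
  have e2 : Real.cos ((x - y) / 2) / (-Real.sin ((x - y) / 2)) ^ 3 =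
      -(Real.cos ((x - y) / 2) / Real.sin ((x - y) / 2) ^ 3) := by
    rw [Odd.neg_pow (by decide), div_neg]
  rw [e2]
  ring

theorem SG_f_int {W : ℝ → ℝ} {l K : ℝ} (h : Nrm W l) (hK : Lip K W) :
    Integrable (fun z : ℝ × ℝ => |W z.1| * |W z.2| * SE l z.1 z.2)
      ((SG_mu l).prod (SG_nu l)) := by
  have hp := Real.pi_pos
  refine SG_key h.l0 h.l1 (SG_f_meas hK.continuous l) (C := 1 / (2 * π) * (K ^ 2 * π ^ 3))
    (by positivity) ?_
  intro x hx y hy
  obtain ⟨hm, hs, hne⟩ := SG_sin_xy hx hy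
  obtain ⟨bx, by'⟩ := SG_bnd h hK hx hy
  have hK0 := hK.nonneg
  set m := min (y - x) (2 * π - (y - x)) with hmdef
  set a := |Real.sin ((x - y) / 2)| with ha
  have ha0 : 0 < a := lt_of_lt_of_le (div_pos hm hp) hs
  have hinv := SG_inv_le hm hs
  show |(|W x| * |W y| * SE l x y)| ≤ 1 / (2 * π) * (K ^ 2 * π ^ 3) * (1 / m)
  have hSE : |SE l x y| ≤ 1 / (2 * π) * (a⁻¹) ^ 3 := by
    unfold SE
    rw [SG_sgx hx, SG_sgy hy]
    have e : 1 / (4 * π) * ((1:ℝ) - -1) * (Real.cos ((x - y) / 2) / Real.sin ((x - y) / 2) ^ 3) =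
        1 / (2 * π) * (Real.cos ((x - y) / 2) / Real.sin ((x - y) / 2) ^ 3) := by
      field_simp
      ring
    rw [e, abs_mul, abs_of_pos (by positivity : (0:ℝ) < 1 / (2 * π))]
    refine mul_le_mul_of_nonneg_left ?_ (by positivity)
    rw [abs_div, abs_pow, ← ha, inv_pow, ← one_div]
    exact div_le_div_of_nonneg_right (Real.abs_cos_le_one _) (by positivity)
  rw [abs_mul, abs_mul, abs_abs, abs_abs]
  calc |W x| * |W y| * |SE l x y| ≤ (K * m) * (K * m) * (1 / (2 * π) * (a⁻¹) ^ 3) := by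
        refine mul_le_mul (mul_le_mul bx by' (abs_nonneg _) (by positivity)) hSE (abs_nonneg _)
          (by positivity)
    _ ≤ (K * m) * (K * m) * (1 / (2 * π) * (π * (1 / m)) ^ 3) := by
        refine mul_le_mul_of_nonneg_left (mul_le_mul_of_nonneg_left ?_ (by positivity))
          (by positivity)
        exact pow_le_pow_left₀ (by positivity) hinv 3
    _ = 1 / (2 * π) * (K ^ 2 * π ^ 3) * (1 / m) := by
        field_simp

theorem SG_f_split {W : ℝ → ℝ} {l K : ℝ} (h : Nrm W l) (hK : Lip K W) :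
    IntegrableOn (fun z : ℝ × ℝ => |W z.1| * |W z.2| * SE l z.1 z.2) Sq2 ∧
    ∫ z in Sq2, |W z.1| * |W z.2| * SE l z.1 z.2 =
      2 * ∫ z, |W z.1| * |W z.2| * SE l z.1 z.2 ∂((SG_mu l).prod (SG_nu l)) := by
  refine SG_split h.l0 h.l1 (g := fun z : ℝ × ℝ => |W z.1| * |W z.2| * SE l z.1 z.2)
    (fun x y => SG_f_sym W l x y) ?_ ?_ (SG_f_int h hK)
  · intro x hx y hy
    show |W x| * |W y| * SE l x y = 0
    unfold SE
    rw [SG_sgx hx, SG_sgx hy]
    ring
  · intro x hx y hy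
    show |W x| * |W y| * SE l x y = 0
    unfold SE
    rw [SG_sgy hx, SG_sgy hy]
    ring

theorem SE_integrable {W : ℝ → ℝ} {l K : ℝ} (h : Nrm W l) (hK : Lip K W) :
    IntegrableOn (fun z : ℝ × ℝ => |W z.1| * |W z.2| * SE l z.1 z.2) Sq2 :=
  (SG_f_split h hK).1

/-- periodic representative -/
noncomputable def SG_P (x : ℝ) : ℝ := 2 * π * Int.fract (x / (2 * π))

theorem SG_P_eq {x : ℝ} (hx : x ∈ Ioo (0:ℝ) (2 * π)) : SG_P x = x := by
  have h2p := SC_two_pi_pos
  unfold SG_P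
  have h : Int.fract (x / (2 * π)) = x / (2 * π) := by
    rw [Int.fract_eq_self]
    exact ⟨div_nonneg hx.1.le h2p.le, (div_lt_one h2p).2 hx.2⟩
  rw [h]
  field_simp

theorem SG_P_per (x : ℝ) : SG_P (x + 2 * π) = SG_P x := by
  have h2p := SC_two_pi_pos
  unfold SG_P
  have h : (x + 2 * π) / (2 * π) = x / (2 * π) + 1 := by
    field_simp
  rw [h, Int.fract_add_one]

theorem SG_P_meas : Measurable SG_P := by
  unfold SG_P
  exact measurable_const.mul (measurable_fract.comp (measurable_id.div_const _))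

theorem SG_abs_sg (l x : ℝ) : |sg l x| = 1 := by
  unfold sg
  split_ifs <;> norm_num

theorem SG_ct_deriv {c : ℝ} (hc : Real.sin (c / 2) ≠ 0) :
    HasDerivAt ct (-(1 / 2) * (1 / Real.sin (c / 2) ^ 2)) c := by
  have h1 : HasDerivAt (fun z : ℝ => Real.cos (z / 2)) (-Real.sin (c / 2) * (1 / 2)) c :=
    ((hasDerivAt_id c).div_const 2).cos
  have h2 : HasDerivAt (fun z : ℝ => Real.sin (z / 2)) (Real.cos (c / 2) * (1 / 2)) c :=
    ((hasDerivAt_id c).div_const 2).sin
  have h3 := h1.div h2 hc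
  have h4 : (-Real.sin (c / 2) * (1 / 2) * Real.sin (c / 2) -
      Real.cos (c / 2) * (Real.cos (c / 2) * (1 / 2))) / Real.sin (c / 2) ^ 2 =
      -(1 / 2) * (1 / Real.sin (c / 2) ^ 2) := by
    have h5 := Real.sin_sq_add_cos_sq (c / 2)
    have h6 : -Real.sin (c / 2) * (1 / 2) * Real.sin (c / 2) -
      Real.cos (c / 2) * (Real.cos (c / 2) * (1 / 2)) = -(1 / 2) := by
      linear_combination (-(1 / 2) : ℝ) * h5
    rw [h6]
    ring
  rw [h4] at h3
  exact h3

theorem SG_isq_deriv {c : ℝ} (hc : Real.sin (c / 2) ≠ 0) :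
    HasDerivAt (fun z : ℝ => 1 / Real.sin (z / 2) ^ 2)
      (-(Real.cos (c / 2) / Real.sin (c / 2) ^ 3)) c := by
  have h2 : HasDerivAt (fun z : ℝ => Real.sin (z / 2)) (Real.cos (c / 2) * (1 / 2)) c :=
    ((hasDerivAt_id c).div_const 2).sin
  have h3 := (h2.pow 2).inv (pow_ne_zero 2 hc)
  have h4 : HasDerivAt (fun z : ℝ => 1 / Real.sin (z / 2) ^ 2)
      (-((2:ℕ) * Real.sin (c / 2) ^ (2 - 1) * (Real.cos (c / 2) * (1 / 2))) /
        (Real.sin (c / 2) ^ 2) ^ 2) c := by
    refine h3.congr_of_eventuallyEq (Eventually.of_forall ?_)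
    intro z
    simp [one_div]
  have h5 : -((2:ℕ) * Real.sin (c / 2) ^ (2 - 1) * (Real.cos (c / 2) * (1 / 2))) /
        (Real.sin (c / 2) ^ 2) ^ 2 = -(Real.cos (c / 2) / Real.sin (c / 2) ^ 3) := by
    norm_num
    field_simp
  rw [h5] at h4
  exact h4

/-- first integration by parts -/
theorem SG_parts1 {W : ℝ → ℝ} {l K : ℝ} (h : Nrm W l) (hK : Lip K W) (hd : Differentiable ℝ W)
    (hc : Continuous (deriv W)) {x : ℝ} (hx : x ∈ Ioo (0:ℝ) l) :
    ∫ y in l..(2 * π), deriv W y * ct (x - y) =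
      -(1 / 2) * ∫ y in l..(2 * π), W y * (1 / Real.sin ((x - y) / 2) ^ 2) := by
  obtain ⟨w0, wl, wp⟩ := SG_pt h hK
  have hWc := hK.continuous
  have hp := Real.pi_pos
  have hne : ∀ y ∈ Icc l (2 * π), Real.sin ((x - y) / 2) ≠ 0 := by
    intro y hy
    have h1 : 0 < Real.sin ((y - x) / 2) := by
      apply Real.sin_pos_of_pos_of_lt_pi
      · linarith [hx.2, hy.1]
      · linarith [hx.1, hy.2]
    have e : Real.sin ((x - y) / 2) = -Real.sin ((y - x) / 2) := by
      rw [← Real.sin_neg]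
      congr 1
      ring
    rw [e]
    exact neg_ne_zero.2 h1.ne'
  have hct : ContinuousOn (fun y => ct (x - y)) (Icc l (2 * π)) := by
    unfold ct
    refine ContinuousOn.div ?_ ?_ hne
    · exact (by fun_prop : Continuous fun y : ℝ => Real.cos ((x - y) / 2)).continuousOn
    · exact (by fun_prop : Continuous fun y : ℝ => Real.sin ((x - y) / 2)).continuousOn
  have hsq : ContinuousOn (fun y => 1 / Real.sin ((x - y) / 2) ^ 2) (Icc l (2 * π)) := by
    refine ContinuousOn.div continuousOn_const ?_ (fun y hy => pow_ne_zero 2 (hne y hy))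
    exact (by fun_prop : Continuous fun y : ℝ => Real.sin ((x - y) / 2) ^ 2).continuousOn
  have i1 : IntervalIntegrable (fun y => deriv W y * ct (x - y)) volume l (2 * π) := by
    apply ContinuousOn.intervalIntegrable
    rw [uIcc_of_le h.l1.le]
    exact hc.continuousOn.mul hct
  have i2 : IntervalIntegrable (fun y => W y * (1 / Real.sin ((x - y) / 2) ^ 2)) volume
      l (2 * π) := by
    apply ContinuousOn.intervalIntegrable
    rw [uIcc_of_le h.l1.le]
    exact hWc.continuousOn.mul hsq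
  have i3 := i1.add (i2.const_mul (1 / 2))
  have hder : ∀ y ∈ uIcc l (2 * π), HasDerivAt (fun y => W y * ct (x - y))
      (deriv W y * ct (x - y) + 1 / 2 * (W y * (1 / Real.sin ((x - y) / 2) ^ 2))) y := by
    intro y hy
    rw [uIcc_of_le h.l1.le] at hy
    have d1 : HasDerivAt (fun y : ℝ => x - y) (-1) y := by
      simpa using (hasDerivAt_id y).const_sub x
    have d2 := (SG_ct_deriv (hne y hy)).comp y d1
    have d3 := (hd y).hasDerivAt.mul d2
    have e : deriv W y * ct (x - y) + 1 / 2 * (W y * (1 / Real.sin ((x - y) / 2) ^ 2)) =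
        deriv W y * ct (x - y) + W y * (-(1 / 2) * (1 / Real.sin ((x - y) / 2) ^ 2) * -1) := by
      ring
    rw [e]
    exact d3
  have hF := intervalIntegral.integral_eq_sub_of_hasDerivAt hder i3
  rw [wl, wp, zero_mul, zero_mul, sub_zero,
    intervalIntegral.integral_add i1 (i2.const_mul (1 / 2)),
    intervalIntegral.integral_const_mul] at hF
  linarith

/-- second integration by parts -/
theorem SG_parts2 {W : ℝ → ℝ} {l K : ℝ} (h : Nrm W l) (hK : Lip K W) (hd : Differentiable ℝ W)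
    (hc : Continuous (deriv W)) {y : ℝ} (hy : y ∈ Ioo l (2 * π)) :
    ∫ x in (0:ℝ)..l, deriv W x * (1 / Real.sin ((x - y) / 2) ^ 2) =
      ∫ x in (0:ℝ)..l, W x * (Real.cos ((x - y) / 2) / Real.sin ((x - y) / 2) ^ 3) := by
  obtain ⟨w0, wl, wp⟩ := SG_pt h hK
  have hWc := hK.continuous
  have hp := Real.pi_pos
  have hne : ∀ x ∈ Icc (0:ℝ) l, Real.sin ((x - y) / 2) ≠ 0 := by
    intro x hx
    have h1 : 0 < Real.sin ((y - x) / 2) := by
      apply Real.sin_pos_of_pos_of_lt_pi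
      · linarith [hx.2, hy.1]
      · linarith [hx.1, hy.2]
    have e : Real.sin ((x - y) / 2) = -Real.sin ((y - x) / 2) := by
      rw [← Real.sin_neg]
      congr 1
      ring
    rw [e]
    exact neg_ne_zero.2 h1.ne'
  have hcb : ContinuousOn (fun x => Real.cos ((x - y) / 2) / Real.sin ((x - y) / 2) ^ 3)
      (Icc (0:ℝ) l) := by
    refine ContinuousOn.div ?_ ?_ (fun x hx => pow_ne_zero 3 (hne x hx))
    · exact (by fun_prop : Continuous fun x : ℝ => Real.cos ((x - y) / 2)).continuousOn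
    · exact (by fun_prop : Continuous fun x : ℝ => Real.sin ((x - y) / 2) ^ 3).continuousOn
  have hsq : ContinuousOn (fun x => 1 / Real.sin ((x - y) / 2) ^ 2) (Icc (0:ℝ) l) := by
    refine ContinuousOn.div continuousOn_const ?_ (fun x hx => pow_ne_zero 2 (hne x hx))
    exact (by fun_prop : Continuous fun x : ℝ => Real.sin ((x - y) / 2) ^ 2).continuousOn
  have i1 : IntervalIntegrable (fun x => deriv W x * (1 / Real.sin ((x - y) / 2) ^ 2)) volume
      0 l := by
    apply ContinuousOn.intervalIntegrable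
    rw [uIcc_of_le h.l0.le]
    exact hc.continuousOn.mul hsq
  have i2 : IntervalIntegrable (fun x => W x * (Real.cos ((x - y) / 2) /
      Real.sin ((x - y) / 2) ^ 3)) volume 0 l := by
    apply ContinuousOn.intervalIntegrable
    rw [uIcc_of_le h.l0.le]
    exact hWc.continuousOn.mul hcb
  have i3 := i1.sub i2
  have hder : ∀ x ∈ uIcc (0:ℝ) l, HasDerivAt (fun x => W x * (1 / Real.sin ((x - y) / 2) ^ 2))
      (deriv W x * (1 / Real.sin ((x - y) / 2) ^ 2) -
        W x * (Real.cos ((x - y) / 2) / Real.sin ((x - y) / 2) ^ 3)) x := by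
    intro x hx
    rw [uIcc_of_le h.l0.le] at hx
    have d1 : HasDerivAt (fun x : ℝ => x - y) 1 x := (hasDerivAt_id x).sub_const y
    have d2 := (SG_isq_deriv (hne x hx)).comp x d1
    have d3 := (hd x).hasDerivAt.mul d2
    have e : deriv W x * (1 / Real.sin ((x - y) / 2) ^ 2) -
        W x * (Real.cos ((x - y) / 2) / Real.sin ((x - y) / 2) ^ 3) =
        deriv W x * (1 / Real.sin ((x - y) / 2) ^ 2) +
        W x * (-(Real.cos ((x - y) / 2) / Real.sin ((x - y) / 2) ^ 3) * 1) := by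
      ring
    rw [e]
    exact d3
  have hF := intervalIntegral.integral_eq_sub_of_hasDerivAt hder i3
  rw [w0, wl, zero_mul, zero_mul, sub_zero, intervalIntegral.integral_sub i1 i2] at hF
  linarith

theorem SG_nu_eq {l : ℝ} (h1 : l < 2 * π) (f : ℝ → ℝ) :
    ∫ y, f y ∂(SG_nu l) = ∫ y in l..(2 * π), f y := by
  unfold SG_nu
  rw [intervalIntegral.integral_of_le h1.le, integral_Ioc_eq_integral_Ioo]

theorem SG_mu_eq {l : ℝ} (h0 : 0 < l) (f : ℝ → ℝ) :
    ∫ y, f y ∂(SG_mu l) = ∫ y in (0:ℝ)..l, f y := by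
  unfold SG_mu
  rw [intervalIntegral.integral_of_le h0.le, integral_Ioc_eq_integral_Ioo]

theorem SG_double {W : ℝ → ℝ} {l K K' : ℝ} (h : Nrm W l) (hK : Lip K W)
    (hd : Differentiable ℝ W) (hc : Continuous (deriv W)) (hb : ∀ x, |deriv W x| ≤ K') :
    Integrable (fun z : ℝ × ℝ => deriv W z.1 * deriv W z.2 * ct (z.1 - z.2))
      ((SG_mu l).prod (SG_nu l)) ∧
    ∫ z, deriv W z.1 * deriv W z.2 * ct (z.1 - z.2) ∂((SG_mu l).prod (SG_nu l)) =
      -(1 / 2) * ∫ z, W z.1 * W z.2 * (Real.cos ((z.1 - z.2) / 2) /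
        Real.sin ((z.1 - z.2) / 2) ^ 3) ∂((SG_mu l).prod (SG_nu l)) := by
  have hp := Real.pi_pos
  have hWc := hK.continuous
  have hK0 := hK.nonneg
  have hK'0 : 0 ≤ K' := (abs_nonneg _).trans (hb 0)
  have mW1 : Measurable (fun z : ℝ × ℝ => W z.1) := hWc.measurable.comp measurable_fst
  have mW2 : Measurable (fun z : ℝ × ℝ => W z.2) := hWc.measurable.comp measurable_snd
  have mV1 : Measurable (fun z : ℝ × ℝ => deriv W z.1) := hc.measurable.comp measurable_fst
  have mV2 : Measurable (fun z : ℝ × ℝ => deriv W z.2) := hc.measurable.comp measurable_snd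
  have mct : Measurable (fun z : ℝ × ℝ => ct (z.1 - z.2)) :=
    SC_ct_meas.comp (measurable_fst.sub measurable_snd)
  have msq : Measurable (fun z : ℝ × ℝ => 1 / Real.sin ((z.1 - z.2) / 2) ^ 2) := by fun_prop
  have mcb : Measurable (fun z : ℝ × ℝ => Real.cos ((z.1 - z.2) / 2) /
      Real.sin ((z.1 - z.2) / 2) ^ 3) := by fun_prop
  -- integrability of the three integrands
  have I1 : Integrable (fun z : ℝ × ℝ => deriv W z.1 * deriv W z.2 * ct (z.1 - z.2))
      ((SG_mu l).prod (SG_nu l)) := by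
    refine SG_key h.l0 h.l1 ((mV1.mul mV2).mul mct) (C := K' * K' * π) (by positivity) ?_
    intro x hx y hy
    obtain ⟨hm, hs, hne⟩ := SG_sin_xy hx hy
    have hinv := SG_inv_le hm hs
    show |deriv W x * deriv W y * ct (x - y)| ≤ _
    rw [abs_mul, abs_mul]
    have h1 : |ct (x - y)| ≤ |Real.sin ((x - y) / 2)|⁻¹ := by
      unfold ct
      rw [abs_div, ← one_div]
      exact div_le_div_of_nonneg_right (Real.abs_cos_le_one _) (abs_nonneg _)
    calc |deriv W x| * |deriv W y| * |ct (x - y)|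
        ≤ (K' * K') * (π * (1 / min (y - x) (2 * π - (y - x)))) := by
          refine mul_le_mul (mul_le_mul (hb x) (hb y) (abs_nonneg _) hK'0) (h1.trans hinv)
            (abs_nonneg _) (by positivity)
      _ = K' * K' * π * (1 / min (y - x) (2 * π - (y - x))) := by ring
  have I2 : Integrable (fun z : ℝ × ℝ => deriv W z.1 * W z.2 *
      (1 / Real.sin ((z.1 - z.2) / 2) ^ 2)) ((SG_mu l).prod (SG_nu l)) := by
    refine SG_key h.l0 h.l1 ((mV1.mul mW2).mul msq) (C := K' * K * π ^ 2) (by positivity) ?_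
    intro x hx y hy
    obtain ⟨hm, hs, hne⟩ := SG_sin_xy hx hy
    obtain ⟨bx, by'⟩ := SG_bnd h hK hx hy
    have hinv := SG_inv_le hm hs
    show |deriv W x * W y * (1 / Real.sin ((x - y) / 2) ^ 2)| ≤ _
    set m := min (y - x) (2 * π - (y - x)) with hmdef
    have e : |1 / Real.sin ((x - y) / 2) ^ 2| = (|Real.sin ((x - y) / 2)|⁻¹) ^ 2 := by
      rw [abs_div, abs_one, abs_pow, one_div, inv_pow]
    rw [abs_mul, abs_mul, e]
    have ha0 : 0 ≤ |Real.sin ((x - y) / 2)|⁻¹ := by positivity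
    calc |deriv W x| * |W y| * (|Real.sin ((x - y) / 2)|⁻¹) ^ 2
        ≤ (K' * (K * m)) * (π * (1 / m)) ^ 2 := by
          refine mul_le_mul (mul_le_mul (hb x) by' (abs_nonneg _) hK'0)
            (pow_le_pow_left₀ ha0 hinv 2) (by positivity) (by positivity)
      _ = K' * K * π ^ 2 * (1 / m) := by field_simp
  have I3 : Integrable (fun z : ℝ × ℝ => W z.1 * W z.2 * (Real.cos ((z.1 - z.2) / 2) /
      Real.sin ((z.1 - z.2) / 2) ^ 3)) ((SG_mu l).prod (SG_nu l)) := by
    refine SG_key h.l0 h.l1 ((mW1.mul mW2).mul mcb) (C := K * K * π ^ 3) (by positivity) ?_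
    intro x hx y hy
    obtain ⟨hm, hs, hne⟩ := SG_sin_xy hx hy
    obtain ⟨bx, by'⟩ := SG_bnd h hK hx hy
    have hinv := SG_inv_le hm hs
    show |W x * W y * (Real.cos ((x - y) / 2) / Real.sin ((x - y) / 2) ^ 3)| ≤ _
    set m := min (y - x) (2 * π - (y - x)) with hmdef
    have ha0 : 0 ≤ |Real.sin ((x - y) / 2)|⁻¹ := by positivity
    have e : |Real.cos ((x - y) / 2) / Real.sin ((x - y) / 2) ^ 3| ≤
        (|Real.sin ((x - y) / 2)|⁻¹) ^ 3 := by
      rw [abs_div, abs_pow, inv_pow, ← one_div]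
      exact div_le_div_of_nonneg_right (Real.abs_cos_le_one _) (by positivity)
    rw [abs_mul, abs_mul]
    calc |W x| * |W y| * |Real.cos ((x - y) / 2) / Real.sin ((x - y) / 2) ^ 3|
        ≤ ((K * m) * (K * m)) * (π * (1 / m)) ^ 3 := by
          refine mul_le_mul (mul_le_mul bx by' (abs_nonneg _) (by positivity))
            (e.trans (pow_le_pow_left₀ ha0 hinv 3)) (abs_nonneg _) (by positivity)
      _ = K * K * π ^ 3 * (1 / m) := by field_simp
  refine ⟨I1, ?_⟩
  -- step 1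
  have s1 : ∫ z, deriv W z.1 * deriv W z.2 * ct (z.1 - z.2) ∂((SG_mu l).prod (SG_nu l)) =
      -(1 / 2) * ∫ z, deriv W z.1 * W z.2 * (1 / Real.sin ((z.1 - z.2) / 2) ^ 2)
        ∂((SG_mu l).prod (SG_nu l)) := by
    rw [integral_prod _ I1, integral_prod _ I2, ← integral_const_mul]
    unfold SG_mu
    refine setIntegral_congr_fun measurableSet_Ioo (fun x hx => ?_)
    show ∫ y, deriv W x * deriv W y * ct (x - y) ∂(SG_nu l) =
      -(1 / 2) * ∫ y, deriv W x * W y * (1 / Real.sin ((x - y) / 2) ^ 2) ∂(SG_nu l)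
    have e1 : ∫ y, deriv W x * deriv W y * ct (x - y) ∂(SG_nu l) =
        deriv W x * ∫ y in l..(2 * π), deriv W y * ct (x - y) := by
      rw [SG_nu_eq h.l1, ← intervalIntegral.integral_const_mul]
      congr 1
      funext y
      ring
    have e2 : ∫ y, deriv W x * W y * (1 / Real.sin ((x - y) / 2) ^ 2) ∂(SG_nu l) =
        deriv W x * ∫ y in l..(2 * π), W y * (1 / Real.sin ((x - y) / 2) ^ 2) := by
      rw [SG_nu_eq h.l1, ← intervalIntegral.integral_const_mul]
      congr 1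
      funext y
      ring
    rw [e1, e2, SG_parts1 h hK hd hc hx]
    ring
  have s2 : ∫ z, deriv W z.1 * W z.2 * (1 / Real.sin ((z.1 - z.2) / 2) ^ 2)
        ∂((SG_mu l).prod (SG_nu l)) =
      ∫ z, W z.1 * W z.2 * (Real.cos ((z.1 - z.2) / 2) /
        Real.sin ((z.1 - z.2) / 2) ^ 3) ∂((SG_mu l).prod (SG_nu l)) := by
    rw [integral_prod_symm _ I2, integral_prod_symm _ I3]
    unfold SG_nu
    refine setIntegral_congr_fun measurableSet_Ioo (fun y hy => ?_)
    show ∫ x, deriv W x * W y * (1 / Real.sin ((x - y) / 2) ^ 2) ∂(SG_mu l) =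
      ∫ x, W x * W y * (Real.cos ((x - y) / 2) / Real.sin ((x - y) / 2) ^ 3) ∂(SG_mu l)
    have e1 : ∫ x, deriv W x * W y * (1 / Real.sin ((x - y) / 2) ^ 2) ∂(SG_mu l) =
        W y * ∫ x in (0:ℝ)..l, deriv W x * (1 / Real.sin ((x - y) / 2) ^ 2) := by
      rw [SG_mu_eq h.l0, ← intervalIntegral.integral_const_mul]
      congr 1
      funext x
      ring
    have e2 : ∫ x, W x * W y * (Real.cos ((x - y) / 2) / Real.sin ((x - y) / 2) ^ 3) ∂(SG_mu l) =
        W y * ∫ x in (0:ℝ)..l, W x * (Real.cos ((x - y) / 2) / Real.sin ((x - y) / 2) ^ 3) := by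
      rw [SG_mu_eq h.l0, ← intervalIntegral.integral_const_mul]
      congr 1
      funext x
      ring
    rw [e1, e2, SG_parts2 h hK hd hc hy]
  rw [s1, s2]

theorem E2_kernel {W : ℝ → ℝ} {l : ℝ} (h : Nrm W l) (hs : ContDiff ℝ 2 W) :
    E2 W l = ∫ z in Sq2, |W z.1| * |W z.2| * SE l z.1 z.2 := by
  have hp := Real.pi_pos
  have h2p := SC_two_pi_pos
  have hd : Differentiable ℝ W := hs.differentiable (by norm_num)
  have hV1 : ContDiff ℝ 1 (deriv W) := by
    have e12 : ((1 : WithTop ℕ∞) + 1) = 2 := one_add_one_eq_two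
    have h2 : ContDiff ℝ ((1 : WithTop ℕ∞) + 1) W := by
      rw [e12]
      exact hs
    exact ((contDiff_succ_iff_deriv (n := 1) (f := W)).1 h2).2.2
  have hc : Continuous (deriv W) := hV1.continuous
  have hVd : Differentiable ℝ (deriv W) := hV1.differentiable (by norm_num)
  have hVc : Continuous (deriv (deriv W)) := hV1.continuous_deriv (le_refl _)
  have pV : Function.Periodic (deriv W) (2 * π) := by
    intro x
    have e : (fun y => W (y + 2 * π)) = W := by
      funext y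
      exact h.per y
    have h1 := deriv_comp_add_const W (2 * π) x
    rw [e] at h1
    exact h1.symm
  have pV' : Function.Periodic (deriv (deriv W)) (2 * π) := by
    intro x
    have e : (fun y => deriv W (y + 2 * π)) = deriv W := by
      funext y
      exact pV y
    have h1 := deriv_comp_add_const (deriv W) (2 * π) x
    rw [e] at h1
    exact h1.symm
  obtain ⟨B, hB⟩ := SC_bdd pV hc
  obtain ⟨B2, hB2⟩ := SC_bdd pV' hVc
  have hB0 : 0 ≤ B := (abs_nonneg _).trans (hB 0)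
  have lipOf : ∀ (f : ℝ → ℝ) (C : ℝ), Differentiable ℝ f → (∀ x, |deriv f x| ≤ C) → Lip C f := by
    intro f C hf hC x y
    have h1 := Convex.norm_image_sub_le_of_norm_deriv_le (f := f) (C := C) (s := univ)
      (x := y) (y := x) (fun z _ => hf z) (fun z _ => by rw [Real.norm_eq_abs]; exact hC z)
      convex_univ (mem_univ _) (mem_univ _)
    rw [Real.norm_eq_abs, Real.norm_eq_abs] at h1
    exact h1
  have hK : Lip B W := lipOf W B hd hB
  have hKV : Lip B2 (deriv W) := lipOf (deriv W) B2 hVd hB2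
  obtain ⟨I1, D1⟩ := SG_double h hK hd hc hB
  -- the periodic function F
  set F : ℝ → ℝ := fun x => sg l (SG_P x) * deriv W x with hF
  have mF : Measurable F := ((SG_sg_meas l).comp SG_P_meas).mul hc.measurable
  have bF : ∀ x, |F x| ≤ B := by
    intro x
    show |sg l (SG_P x) * deriv W x| ≤ B
    rw [abs_mul, SG_abs_sg, one_mul]
    exact hB x
  have pF : Function.Periodic F (2 * π) := by
    intro x
    show sg l (SG_P (x + 2 * π)) * deriv W (x + 2 * π) = sg l (SG_P x) * deriv W x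
    rw [SG_P_per, pV]
  have Fx : ∀ x ∈ Ioo (0:ℝ) l, F x = -deriv W x := by
    intro x hx
    show sg l (SG_P x) * deriv W x = _
    rw [SG_P_eq ⟨hx.1, hx.2.trans h.l1⟩, SG_sgx hx]
    ring
  have Fy : ∀ y ∈ Ioo l (2 * π), F y = deriv W y := by
    intro y hy
    show sg l (SG_P y) * deriv W y = _
    rw [SG_P_eq ⟨h.l0.trans hy.1, hy.2⟩, SG_sgy hy]
    ring
  set g : ℝ × ℝ → ℝ := fun z => (F z.1 * deriv W z.2 - F z.2 * deriv W z.1) * ct (z.1 - z.2)
    with hg
  have gmn : g =ᵐ[(SG_mu l).prod (SG_nu l)]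
      fun z => -2 * (deriv W z.1 * deriv W z.2 * ct (z.1 - z.2)) := by
    rw [SG_prod_eq]
    refine (ae_restrict_iff' (measurableSet_Ioo.prod measurableSet_Ioo)).2
      (Filter.Eventually.of_forall ?_)
    rintro ⟨x, y⟩ ⟨hx, hy⟩
    show (F x * deriv W y - F y * deriv W x) * ct (x - y) =
      -2 * (deriv W x * deriv W y * ct (x - y))
    rw [Fx x hx, Fy y hy]
    ring
  have hgi : Integrable g ((SG_mu l).prod (SG_nu l)) :=
    (integrable_congr gmn).2 (I1.const_mul (-2))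
  have hsplit := SG_split h.l0 h.l1 (g := g) (by
      intro x y
      show (F x * deriv W y - F y * deriv W x) * ct (x - y) =
        (F y * deriv W x - F x * deriv W y) * ct (y - x)
      rw [← neg_sub x y, SC_ct_neg]
      ring) (by
      intro x hx y hy
      show (F x * deriv W y - F y * deriv W x) * ct (x - y) = 0
      rw [Fx x hx, Fx y hy]
      ring) (by
      intro x hx y hy
      show (F x * deriv W y - F y * deriv W x) * ct (x - y) = 0
      rw [Fy x hx, Fy y hy]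
      ring) hgi
  have hfub := HT_fubini mF bF pF pV hKV hsplit.1
  have hE : ∫ x in (0:ℝ)..(2 * π), sg l x * deriv W x * HT (deriv W) x =
      ∫ x in (0:ℝ)..(2 * π), F x * HT (deriv W) x := by
    rw [intervalIntegral.integral_of_le h2p.le, intervalIntegral.integral_of_le h2p.le,
      integral_Ioc_eq_integral_Ioo, integral_Ioc_eq_integral_Ioo]
    refine setIntegral_congr_fun measurableSet_Ioo (fun x hx => ?_)
    show sg l x * deriv W x * HT (deriv W) x = sg l (SG_P x) * deriv W x * HT (deriv W) x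
    rw [SG_P_eq hx]
  have hfin : ∫ z, |W z.1| * |W z.2| * SE l z.1 z.2 ∂((SG_mu l).prod (SG_nu l)) =
      -(1 / (2 * π)) * ∫ z, W z.1 * W z.2 * (Real.cos ((z.1 - z.2) / 2) /
        Real.sin ((z.1 - z.2) / 2) ^ 3) ∂((SG_mu l).prod (SG_nu l)) := by
    rw [← integral_const_mul, SG_prod_eq]
    refine setIntegral_congr_fun (measurableSet_Ioo.prod measurableSet_Ioo) ?_
    rintro ⟨x, y⟩ ⟨hx, hy⟩
    show |W x| * |W y| * SE l x y = -(1 / (2 * π)) * (W x * W y * (Real.cos ((x - y) / 2) /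
        Real.sin ((x - y) / 2) ^ 3))
    have e1 : |W x| = -W x := abs_of_nonpos (h.neg x ⟨hx.1.le, hx.2.le⟩)
    have e2 : |W y| = W y := abs_of_nonneg (h.pos y ⟨hy.1.le, hy.2.le⟩)
    have hx' : x ∈ Ioo (0:ℝ) l := hx
    have hy' : y ∈ Ioo l (2 * π) := hy
    unfold SE
    rw [e1, e2, SG_sgx hx', SG_sgy hy']
    have e3 : 1 / (4 * π) * ((1:ℝ) - -1) = 1 / (2 * π) := by
      field_simp
      ring
    rw [e3]
    ring
  have hgint : ∫ z, g z ∂((SG_mu l).prod (SG_nu l)) =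
      -2 * ∫ z, deriv W z.1 * deriv W z.2 * ct (z.1 - z.2) ∂((SG_mu l).prod (SG_nu l)) := by
    rw [integral_congr_ae gmn, integral_const_mul]
  have hgsq : ∫ z in Sq2, (F z.1 * deriv W z.2 - F z.2 * deriv W z.1) * ct (z.1 - z.2) =
      2 * ∫ z, g z ∂((SG_mu l).prod (SG_nu l)) := hsplit.2
  unfold E2
  rw [hE, hfub, hgsq, hgint, D1, (SG_f_split h hK).2, hfin]
  field_simp
  ring

end Pool.Agent.H51.DG
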