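import Pool.Agent.H51.DG.Ker

/-!
# DG2 job KB: elementary facts on `gk y z = (z+z^3)(log(1+y/z) - y/(y+z))`

With `r = y/z ≥ 0`, `h(r) = log(1+r) - r/(1+r)`, `h(0)=0`, `h'(r) = r/(1+r)^2 ∈ [0, r]`: `h` is
nonnegative, nondecreasing, `h(r) ≤ r^2/2` and `h(r) ≤ log(1+r) ≤ r`.
For `z ≥ 1`: `z + z^3 ≤ 2z^3`; if `y ≤ z` then `2z^3 * (y/z)^2/2 = z y^2`; if `y > z`,
`2 z^3 (y/z) = 2 z^2 y ≤ 2 z y^2`.  For `z ≤ 1`: `z + z^3 ≤ 2z`, `2z * (y/z) = 2y`.
-/

set_option autoImplicit false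
open Real Set MeasureTheory

namespace Pool.Agent.H51.DG

/-- `h r = log (1+r) - r/(1+r)` -/
theorem KB_bounds {r : ℝ} (hr : 0 ≤ r) :
    0 ≤ Real.log (1 + r) - r / (1 + r) ∧ Real.log (1 + r) - r / (1 + r) ≤ r ^ 2 ∧
      Real.log (1 + r) - r / (1 + r) ≤ r := by
  have h1 : 0 < 1 + r := by linarith
  have h2 := Real.one_sub_inv_le_log_of_pos h1
  have h3 : r / (1 + r) = 1 - (1 + r)⁻¹ := by field_simp; ring
  have h4 := Real.log_le_sub_one_of_pos h1
  have h5 : 0 ≤ r / (1 + r) := div_nonneg hr h1.le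
  have h6 : r - r / (1 + r) ≤ r ^ 2 := by
    have : r - r / (1 + r) = r ^ 2 / (1 + r) := by field_simp; ring
    rw [this]
    exact div_le_self (sq_nonneg r) (by linarith)
  refine ⟨by rw [h3]; linarith, by linarith, by linarith⟩

theorem KB_mono {r s : ℝ} (hr : 0 ≤ r) (hrs : r ≤ s) :
    Real.log (1 + r) - r / (1 + r) ≤ Real.log (1 + s) - s / (1 + s) := by
  have h1 : 0 < 1 + r := by linarith
  have h2 : 0 < 1 + s := by linarith
  have h3 := Real.one_sub_inv_le_log_of_pos (div_pos h2 h1)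
  rw [Real.log_div h2.ne' h1.ne'] at h3
  have h4 : s / (1 + s) - r / (1 + r) ≤ 1 - ((1 + s) / (1 + r))⁻¹ := by
    have e1 : s / (1 + s) - r / (1 + r) = (s - r) / ((1 + r) * (1 + s)) := by field_simp; ring
    have e2 : 1 - ((1 + s) / (1 + r))⁻¹ = (s - r) / (1 + s) := by field_simp; ring
    rw [e1, e2]
    apply div_le_div_of_nonneg_left (by linarith) h2
    nlinarith
  linarith

theorem KB_gk {y z : ℝ} (hz : 0 < z) (hy : 0 ≤ y) :
    gk y z = (z + z ^ 3) * (Real.log (1 + y / z) - (y / z) / (1 + y / z)) := by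
  unfold gk
  have h1 : y / (y + z) = (y / z) / (1 + y / z) := by
    have : y + z ≠ 0 := by positivity
    have : z + y ≠ 0 := by positivity
    field_simp
    ring
  rw [h1]

theorem gk_nonneg {y z : ℝ} (hy : 0 ≤ y) (hz : 0 < z) : 0 ≤ gk y z := by
  rw [KB_gk hz hy]
  exact mul_nonneg (by positivity) (KB_bounds (by positivity)).1

theorem gk_mono {y y' z : ℝ} (hy : 0 ≤ y) (hyy : y ≤ y') (hz : 0 < z) : gk y z ≤ gk y' z := by
  rw [KB_gk hz hy, KB_gk hz (hy.trans hyy)]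
  exact mul_le_mul_of_nonneg_left (KB_mono (by positivity) (by gcongr)) (by positivity)

theorem gk_le_big {y z : ℝ} (hy : 0 ≤ y) (hz : 1 ≤ z) : gk y z ≤ 2 * z * y ^ 2 := by
  have hz0 : 0 < z := by linarith
  rw [KB_gk hz0 hy]
  have hb := KB_bounds (r := y / z) (by positivity)
  have h1 : z + z ^ 3 ≤ 2 * z ^ 3 := by nlinarith [sq_nonneg (z - 1), mul_pos hz0 hz0]
  calc (z + z ^ 3) * (Real.log (1 + y / z) - (y / z) / (1 + y / z))
      ≤ (2 * z ^ 3) * (y / z) ^ 2 := mul_le_mul h1 hb.2.1 hb.1 (by positivity)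
    _ = 2 * z * y ^ 2 := by field_simp

theorem gk_le_small {y z : ℝ} (hy : 0 ≤ y) (hz : 0 < z) (hz1 : z ≤ 1) : gk y z ≤ 2 * y := by
  rw [KB_gk hz hy]
  have hb := KB_bounds (r := y / z) (by positivity)
  have h1 : z + z ^ 3 ≤ 2 * z := by nlinarith [sq_nonneg z, mul_nonneg hz.le (sub_nonneg.2 hz1)]
  calc (z + z ^ 3) * (Real.log (1 + y / z) - (y / z) / (1 + y / z))
      ≤ (2 * z) * (y / z) := mul_le_mul h1 hb.2.2 hb.1 (by positivity)
    _ = 2 * y := by field_simp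

end Pool.Agent.H51.DG
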