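import Pool.Agent.H51.DG.SEw
import Pool.Agent.H51.DG.KB
import Pool.Agent.H51.DG.KD
import Pool.Agent.H51.DG.SF
import Pool.Agent.H51.DG.SA

/-!
# DG2 job SJ: integrability and decomposition of the simple functionals

`bR W = max (-W) 0`, `bF W = max W 0`, `bN W = W (-·)` are continuous if `W` is;
`W x = bF - bR`, `W (2π-x) = bN` on `[0,π]` (`eq_parts`, `refl_parts`), so by `fold_interval`
`∫_0^{2π} W = ∫_0^π nu W` and `Ma W = ∫ bR + ∫ bF + ∫ bN` (`abs_parts`).
`QQ`: `dst l x = x` for `x < l ≤ π` (`vp x = 1/(2 sin(x/2))`), `dst l (2π - x) = x`,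
`dst l x = 2π - x > π` for `l < x < π` (`vp = 1/2`); `bR ≤ K x`, `bN ≤ K x` (`W 0 = 0`) and
`x / (2 sin (x/2)) ≤ π/2` give integrability.
`alA_bound`: `|chi Y| ≤ 1 + Y` for `Y > 0` (`psi_nonneg`, `psi_le`), `|W (±x)| ≤ K x`,
`x ct x ≤ 2` (`cot_le`), and with `y = ct l ≥ 0`: `gk y (ct x) ≤ 2 (ct x) y^2 + 2 y`.
(`alA W l`, `al0 W` are measurable: `ct`, `psi`, `gk`, `chi` are compositions of measurable functions.)
-/

set_option autoImplicit false
open Real Set MeasureTheory Filter Topology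

namespace Pool.Agent.H51.DG

theorem Van.continuous {W : ℝ → ℝ} {l : ℝ} (h : Van W l) : Continuous W := by
  obtain ⟨K, hK⟩ := h.lip
  exact hK.continuous

theorem Nrm.zero {W : ℝ → ℝ} {l : ℝ} (h : Nrm W l) : W 0 = 0 ∧ W l = 0 := by
  have h2 : W (2 * π) = W 0 := by
    have := h.per 0
    rwa [zero_add] at this
  refine ⟨le_antisymm (h.neg 0 ⟨le_rfl, h.l0.le⟩) ?_,
    le_antisymm (h.neg l ⟨h.l0.le, le_rfl⟩) (h.pos l ⟨le_rfl, h.l1.le⟩)⟩
  rw [← h2]
  exact h.pos _ ⟨h.l1.le, le_rfl⟩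

theorem continuous_parts {W : ℝ → ℝ} (h : Continuous W) :
    Continuous (bR W) ∧ Continuous (bF W) ∧ Continuous (bN W) ∧ Continuous (nu W) := by
  have h1 : Continuous (bR W) := h.neg.max continuous_const
  have h2 : Continuous (bF W) := h.max continuous_const
  have h3 : Continuous (bN W) := h.comp continuous_neg
  exact ⟨h1, h2, h3, (h2.add h3).sub h1⟩

theorem Van.bd_bR {W : ℝ → ℝ} {l : ℝ} (h : Van W l) : Bd (bR W) := by
  obtain ⟨δ, hδ, hz⟩ := h.van
  refine ⟨(continuous_parts h.continuous).1, fun x _ => bR_nonneg W x, δ, hδ, fun x h0 h1 => ?_⟩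
  have := hz x (by rwa [abs_of_nonneg h0])
  simp [bR, this]

theorem Van.bd_bF {W : ℝ → ℝ} {l : ℝ} (h : Van W l) : Bd (bF W) := by
  obtain ⟨δ, hδ, hz⟩ := h.van
  refine ⟨(continuous_parts h.continuous).2.1, fun x _ => bF_nonneg W x, δ, hδ, fun x h0 h1 => ?_⟩
  have := hz x (by rwa [abs_of_nonneg h0])
  simp [bF, this]

theorem Van.bd_bN {W : ℝ → ℝ} {l : ℝ} (h : Van W l) (hl : l ≤ π) : Bd (bN W) := by
  obtain ⟨δ, hδ, hz⟩ := h.van
  refine ⟨(continuous_parts h.continuous).2.2.1,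
    fun x hx => bN_nonneg h.toNrm hl hx.1 hx.2, δ, hδ, fun x h0 h1 => ?_⟩
  have := hz (-x) (by rwa [abs_neg, abs_of_nonneg h0])
  simp [bN, this]

theorem int_nu {W : ℝ → ℝ} {l : ℝ} (h : Nrm W l) (hl : l ≤ π) (hc : Continuous W) :
    ∫ x in (0:ℝ)..(2 * π), W x = ∫ x in (0:ℝ)..π, nu W x := by
  rw [(fold_interval (hc.intervalIntegrable 0 (2 * π))).2]
  refine intervalIntegral.integral_congr fun x hx => ?_
  rw [uIcc_of_le Real.pi_pos.le] at hx
  show W x + W (2 * π - x) = nu W x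
  rw [(refl_parts h hl hx.1 hx.2).1, eq_parts W x]
  unfold nu
  ring

theorem Ma_parts {W : ℝ → ℝ} {l : ℝ} (h : Nrm W l) (hl : l ≤ π) (hc : Continuous W) :
    Ma W = (∫ x in (0:ℝ)..π, bR W x) + (∫ x in (0:ℝ)..π, bF W x) + ∫ x in (0:ℝ)..π, bN W x := by
  obtain ⟨c1, c2, c3, _⟩ := continuous_parts hc
  unfold Ma
  rw [(fold_interval (f := fun x => |W x|) (hc.abs.intervalIntegrable 0 (2 * π))).2,
    ← intervalIntegral.integral_add (c1.intervalIntegrable _ _) (c2.intervalIntegrable _ _),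
    ← intervalIntegral.integral_add (f := fun x => bR W x + bF W x)
      ((c1.add c2).intervalIntegrable _ _) (c3.intervalIntegrable _ _)]
  refine intervalIntegral.integral_congr fun x hx => ?_
  rw [uIcc_of_le Real.pi_pos.le] at hx
  show |W x| + |W (2 * π - x)| = bR W x + bF W x + bN W x
  rw [(refl_parts h hl hx.1 hx.2).2, abs_parts W x]

/-- `|W x| ≤ K x` and `|W x| ≤ K (2π - x)` -/
theorem SJ_abs_le {W : ℝ → ℝ} {l K : ℝ} (h : Nrm W l) (hK : Lip K W) {x : ℝ} (h0 : 0 ≤ x) :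
    |W x| ≤ K * x ∧ |W (-x)| ≤ K * x := by
  have h1 := hK x 0
  have h2 := hK (-x) 0
  rw [h.zero.1, sub_zero, sub_zero, abs_of_nonneg h0] at h1
  rw [h.zero.1, sub_zero, sub_zero, abs_neg, abs_of_nonneg h0] at h2
  exact ⟨h1, h2⟩

theorem SJ_abs_le2 {W : ℝ → ℝ} {l K : ℝ} (h : Nrm W l) (hK : Lip K W) {x : ℝ} (h0 : x ≤ 2 * π) :
    |W x| ≤ K * (2 * π - x) := by
  have h1 := (SJ_abs_le h hK (x := 2 * π - x) (by linarith)).2
  have h2 : W (-(2 * π - x)) = W x := by
    rw [show -(2 * π - x) = x - 2 * π by ring]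
    exact h.per.sub_eq x
  rwa [h2] at h1

theorem SJ_sin_ge {x : ℝ} (h0 : 0 ≤ x) (h1 : x ≤ π) : x / π ≤ Real.sin (x / 2) := by
  have h2 := Real.mul_le_sin (x := x / 2) (by linarith) (by linarith)
  have h3 : 2 / π * (x / 2) = x / π := by ring
  linarith

theorem SJ_vp_le {x : ℝ} (h0 : 0 < x) : x * vp x ≤ π * (1 + x) := by
  unfold vp
  have hp := Real.pi_pos
  split_ifs with h
  · have h1 := SJ_sin_ge h0.le h
    have h2 : 0 < Real.sin (x / 2) := lt_of_lt_of_le (by positivity) h1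
    rw [mul_one_div, div_le_iff₀ (by positivity)]
    have h3 : x ≤ π * Real.sin (x / 2) := by
      rw [div_le_iff₀ hp] at h1; linarith
    nlinarith [mul_pos hp h2, mul_pos (mul_pos hp h2) h0]
  · nlinarith [Real.pi_gt_three]

theorem SJ_vp_nonneg {x : ℝ} (h0 : 0 ≤ x) : 0 ≤ vp x := by
  unfold vp
  split_ifs with h
  · have : 0 ≤ Real.sin (x / 2) := Real.sin_nonneg_of_nonneg_of_le_pi (by linarith) (by linarith)
    positivity
  · norm_num

theorem SJ_meas_vp : Measurable vp := by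
  unfold vp
  refine Measurable.ite (measurableSet_le measurable_id measurable_const) ?_ measurable_const
  fun_prop

theorem SJ_meas_dst (l : ℝ) : Measurable (dst l) := by
  unfold dst
  exact Measurable.ite (measurableSet_lt measurable_id measurable_const) measurable_id
    (by fun_prop)

theorem QQ_integrable {W : ℝ → ℝ} {l K : ℝ} (h : Nrm W l) (hK : Lip K W) :
    IntervalIntegrable (fun x => |W x| * vp (dst l x)) volume 0 (2 * π) := by
  have hp := Real.pi_pos
  have hK0 := hK.nonneg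
  rw [intervalIntegrable_iff_integrableOn_Ioo_of_le (by positivity)]
  have hfin : IntegrableOn (fun _ : ℝ => K * (π * (1 + 2 * π))) (Ioo (0:ℝ) (2 * π)) :=
    integrableOn_const measure_Ioo_lt_top.ne
  refine Integrable.mono' hfin ?_ ?_
  · exact ((hK.continuous.abs.measurable).mul
      (SJ_meas_vp.comp (SJ_meas_dst l))).aestronglyMeasurable
  · refine (ae_restrict_iff' measurableSet_Ioo).2 (Eventually.of_forall fun x hx => ?_)
    have hd : |W x| ≤ K * dst l x ∧ 0 < dst l x ∧ dst l x ≤ 2 * π := by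
      unfold dst
      split_ifs with h1
      · exact ⟨(SJ_abs_le h hK hx.1.le).1, hx.1, hx.2.le⟩
      · exact ⟨SJ_abs_le2 h hK hx.2.le, by linarith [hx.2], by linarith [hx.1]⟩
    have hv := SJ_vp_nonneg hd.2.1.le
    have hv2 := SJ_vp_le hd.2.1
    rw [Real.norm_eq_abs, abs_mul, abs_abs, abs_of_nonneg hv]
    calc |W x| * vp (dst l x) ≤ K * dst l x * vp (dst l x) := by
          exact mul_le_mul_of_nonneg_right hd.1 hv
      _ = K * (dst l x * vp (dst l x)) := by ring
      _ ≤ K * (π * (1 + dst l x)) := mul_le_mul_of_nonneg_left hv2 hK0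
      _ ≤ K * (π * (1 + 2 * π)) := by gcongr; exact hd.2.2

theorem SJ_half {f : ℝ → ℝ} {K : ℝ} (hf : Continuous f) (hb : ∀ x ∈ Ioo (0:ℝ) π, |f x| ≤ K * x) :
    IntervalIntegrable (fun x => f x * (1 / (2 * Real.sin (x / 2)))) volume 0 π := by
  have hp := Real.pi_pos
  have hK0 : 0 ≤ K := by
    have := hb 1 ⟨one_pos, by linarith [Real.pi_gt_three]⟩
    linarith [abs_nonneg (f 1)]
  rw [intervalIntegrable_iff_integrableOn_Ioo_of_le hp.le]
  have hfin : IntegrableOn (fun _ : ℝ => K * π) (Ioo (0:ℝ) π) := integrableOn_const (by simp)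
  refine Integrable.mono' hfin ?_ ?_
  · refine (hf.measurable.mul ?_).aestronglyMeasurable
    fun_prop
  · refine (ae_restrict_iff' measurableSet_Ioo).2 (Eventually.of_forall fun x hx => ?_)
    have h1 := SJ_sin_ge hx.1.le hx.2.le
    have h2 : 0 < Real.sin (x / 2) := lt_of_lt_of_le (div_pos hx.1 hp) h1
    rw [Real.norm_eq_abs, abs_mul, abs_of_nonneg (show 0 ≤ 1 / (2 * Real.sin (x / 2)) by positivity),
      mul_one_div, div_le_iff₀ (by positivity)]
    have h3 : x ≤ π * Real.sin (x / 2) := by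
      rw [div_le_iff₀ hp] at h1; linarith
    calc |f x| ≤ K * x := hb x hx
      _ ≤ K * (π * Real.sin (x / 2)) := by gcongr
      _ ≤ K * π * (2 * Real.sin (x / 2)) := by nlinarith [mul_nonneg hK0 (mul_pos hp h2).le]

theorem QQ_parts {W : ℝ → ℝ} {l K : ℝ} (h : Nrm W l) (hl : l ≤ π) (hK : Lip K W) :
    IntervalIntegrable (fun x => bR W x * (1 / (2 * Real.sin (x / 2)))) volume 0 π ∧
    IntervalIntegrable (fun x => bN W x * (1 / (2 * Real.sin (x / 2)))) volume 0 π ∧
    QQ W l = (∫ x in (0:ℝ)..π, bR W x * (1 / (2 * Real.sin (x / 2))))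
      + (∫ x in (0:ℝ)..π, bN W x * (1 / (2 * Real.sin (x / 2))))
      + (∫ x in (0:ℝ)..π, bF W x) / 2 := by
  have hp := Real.pi_pos
  obtain ⟨c1, c2, c3, _⟩ := continuous_parts hK.continuous
  have i1 := SJ_half c1 (K := K) (fun x hx => by
    have h1 := (SJ_abs_le h hK hx.1.le).1
    rw [abs_of_nonneg (bR_nonneg W x)]
    linarith [abs_parts W x, bF_nonneg W x])
  have i2 := SJ_half c3 (K := K) (fun x hx => (SJ_abs_le h hK hx.1.le).2)
  refine ⟨i1, i2, ?_⟩
  unfold QQ
  rw [(fold_interval (QQ_integrable h hK)).2, ← intervalIntegral.integral_add i1 i2,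
    ← intervalIntegral.integral_div,
    ← intervalIntegral.integral_add (i1.add i2) ((c2.div_const 2).intervalIntegrable _ _)]
  refine intervalIntegral.integral_congr_ae ?_
  have hne : ∀ᵐ x : ℝ, x ≠ l ∧ x ≠ π := by
    have h1 : ∀ᵐ x : ℝ, x ≠ l := by simp [ae_iff, measure_singleton]
    have h2 : ∀ᵐ x : ℝ, x ≠ π := by simp [ae_iff, measure_singleton]
    filter_upwards [h1, h2] with x a b using ⟨a, b⟩
  filter_upwards [hne] with x hx1 hx
  rw [uIoc_of_le hp.le] at hx
  have hxp : x < π := lt_of_le_of_ne hx.2 hx1.2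
  have e1 : |W (2 * π - x)| = bN W x := (refl_parts h hl hx.1.le hx.2).2
  have e2 : vp (dst l (2 * π - x)) = 1 / (2 * Real.sin (x / 2)) := by
    unfold dst
    rw [if_neg (by linarith), show 2 * π - (2 * π - x) = x by ring]
    exact if_pos hx.2
  show |W x| * vp (dst l x) + |W (2 * π - x)| * vp (dst l (2 * π - x)) = _
  rw [e1, e2]
  rcases lt_or_gt_of_ne hx1.1 with hlt | hgt
  · have e3 : vp (dst l x) = 1 / (2 * Real.sin (x / 2)) := by
      unfold dst
      rw [if_pos hlt]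
      exact if_pos hx.2
    have e4 := bF_zero h hx.1.le hlt.le
    rw [e3, abs_parts W x, e4]
    ring
  · have e3 : vp (dst l x) = 1 / 2 := by
      unfold dst
      rw [if_neg (by linarith)]
      exact if_neg (by linarith)
    have e4 := bR_zero h hgt.le (by linarith)
    rw [e3, abs_parts W x, e4]
    ring

theorem SJ_chi {Y : ℝ} (hY : 0 < Y) : |chi Y| ≤ 1 + Y := by
  unfold chi
  have h1 := psi_nonneg hY.le
  have h2 := psi_le hY.le
  rw [abs_le]
  constructor <;> linarith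

theorem SJ_gk {y z : ℝ} (hy : 0 ≤ y) (hz : 0 < z) : |gk y z| ≤ 2 * z * y ^ 2 + 2 * y := by
  rw [abs_of_nonneg (gk_nonneg hy hz)]
  rcases le_total 1 z with h | h
  · have := gk_le_big hy h
    linarith
  · have h1 := gk_le_small hy hz h
    have : 0 ≤ 2 * z * y ^ 2 := by positivity
    linarith

theorem alA_bound {l : ℝ} (hl0 : 0 < l) (hl : l ≤ π) : ∃ C : ℝ, 0 ≤ C ∧ ∀ (W : ℝ → ℝ) (K : ℝ),
    Nrm W l → Lip K W → ∀ x ∈ Ioo (0:ℝ) π, |alA W l x| ≤ C * K ∧ |al0 W x| ≤ C * K := by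
  have hp := Real.pi_pos
  have hy : 0 ≤ ct l := (cot_le hl0 hl).1
  set y := ct l with hydef
  refine ⟨2 * (π + 2) + (4 * y ^ 2 + 2 * y * π), by positivity, fun W K h hK x hx => ?_⟩
  have hK0 := hK.nonneg
  have hz : 0 < ct x := ct_pos hx.1 hx.2
  have hzx : x * ct x ≤ 2 := by
    have h1 := (cot_le hx.1 hx.2.le).2
    have h2 : ct x ≤ 2 / x := h1
    rw [le_div_iff₀ hx.1] at h2
    linarith
  have hR : bR W x ≤ K * x := by
    have h1 := (SJ_abs_le h hK hx.1.le).1
    linarith [abs_parts W x, bF_nonneg W x]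
  have hN : bN W x ≤ K * x := (le_abs_self _).trans (SJ_abs_le h hK hx.1.le).2
  have hR0 := bR_nonneg W x
  have hN0 := bN_nonneg h hl hx.1.le hx.2.le
  have hchi := SJ_chi hz
  have hg := SJ_gk hy hz
  have hxp := hx.2.le
  have hx0 := hx.1.le
  have b1 : ∀ {b : ℝ}, 0 ≤ b → b ≤ K * x → b * |chi (ct x)| ≤ (π + 2) * K := by
    intro b hb0 hb
    calc b * |chi (ct x)| ≤ K * x * (1 + ct x) := by gcongr
      _ = K * (x + x * ct x) := by ring
      _ ≤ K * (π + 2) := by gcongr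
      _ = (π + 2) * K := by ring
  have b2 : bN W x * |gk y (ct x)| ≤ (4 * y ^ 2 + 2 * y * π) * K := by
    calc bN W x * |gk y (ct x)| ≤ K * x * (2 * ct x * y ^ 2 + 2 * y) := by gcongr
      _ = K * (2 * (x * ct x) * y ^ 2 + 2 * y * x) := by ring
      _ ≤ K * (2 * 2 * y ^ 2 + 2 * y * π) := by gcongr
      _ = (4 * y ^ 2 + 2 * y * π) * K := by ring
  have h4 : 1 / (4 * π) ≤ 1 := by
    rw [div_le_one (by positivity)]; linarith [Real.pi_gt_three]
  have h40 : 0 ≤ 1 / (4 * π) := by positivity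
  have r1 := b1 hR0 hR
  have r2 := b1 hN0 hN
  have c0 : 0 ≤ (4 * y ^ 2 + 2 * y * π) * K := by positivity
  constructor
  · unfold alA
    rw [abs_mul, abs_of_nonneg h40]
    have t1 : |bR W x * chi (ct x) - bN W x * (chi (ct x) + gk (ct l) (ct x))| ≤
        bR W x * |chi (ct x)| + (bN W x * |chi (ct x)| + bN W x * |gk y (ct x)|) := by
      refine (abs_sub _ _).trans ?_
      rw [abs_mul, abs_of_nonneg hR0, abs_mul, abs_of_nonneg hN0]
      gcongr
      rw [← mul_add]
      gcongr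
      exact abs_add_le _ _
    have t2 : |bR W x * chi (ct x) - bN W x * (chi (ct x) + gk (ct l) (ct x))| ≤
        (2 * (π + 2) + (4 * y ^ 2 + 2 * y * π)) * K := by
      refine t1.trans ?_
      linarith
    calc 1 / (4 * π) * |bR W x * chi (ct x) - bN W x * (chi (ct x) + gk (ct l) (ct x))|
        ≤ 1 * |bR W x * chi (ct x) - bN W x * (chi (ct x) + gk (ct l) (ct x))| := by gcongr
      _ ≤ _ := by rw [one_mul]; exact t2
  · unfold al0
    rw [abs_mul, abs_of_nonneg h40]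
    have t1 : |(bR W x - bN W x) * chi (ct x)| ≤ bR W x * |chi (ct x)| + bN W x * |chi (ct x)| := by
      rw [abs_mul, ← add_mul]
      gcongr
      refine (abs_sub _ _).trans ?_
      rw [abs_of_nonneg hR0, abs_of_nonneg hN0]
    have t2 : |(bR W x - bN W x) * chi (ct x)| ≤ (2 * (π + 2) + (4 * y ^ 2 + 2 * y * π)) * K := by
      refine t1.trans ?_
      linarith
    calc 1 / (4 * π) * |(bR W x - bN W x) * chi (ct x)|
        ≤ 1 * |(bR W x - bN W x) * chi (ct x)| := by gcongr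
      _ ≤ _ := by rw [one_mul]; exact t2

theorem SJ_meas_ct : Measurable ct := by
  unfold ct
  fun_prop

theorem SJ_meas_chi : Measurable chi := by
  unfold chi psi
  fun_prop

theorem SJ_meas_gk (y : ℝ) : Measurable (gk y) := by
  unfold gk
  fun_prop

theorem alA_integrable {W : ℝ → ℝ} {l K : ℝ} (h : Nrm W l) (hl : l ≤ π) (hK : Lip K W) :
    IntegrableOn (alA W l) (Ioo (0:ℝ) π) ∧ IntegrableOn (al0 W) (Ioo (0:ℝ) π) := by
  obtain ⟨C, hC, hb⟩ := alA_bound h.l0 hl
  obtain ⟨c1, c2, c3, _⟩ := continuous_parts hK.continuous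
  have m1 := c1.measurable
  have m3 := c3.measurable
  have mc : Measurable (fun x => chi (ct x)) := SJ_meas_chi.comp SJ_meas_ct
  have mg : Measurable (fun x => gk (ct l) (ct x)) := (SJ_meas_gk _).comp SJ_meas_ct
  have hfin : IntegrableOn (fun _ : ℝ => C * K) (Ioo (0:ℝ) π) := integrableOn_const (by simp)
  constructor
  · refine Integrable.mono' hfin ?_ ?_
    · exact (((m1.mul mc).sub (m3.mul (mc.add mg))).const_mul _).aestronglyMeasurable
    · refine (ae_restrict_iff' measurableSet_Ioo).2 (Eventually.of_forall fun x hx => ?_)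
      exact (hb W K h hK x hx).1
  · refine Integrable.mono' hfin ?_ ?_
    · exact (((m1.sub m3).mul mc).const_mul _).aestronglyMeasurable
    · refine (ae_restrict_iff' measurableSet_Ioo).2 (Eventually.of_forall fun x hx => ?_)
      exact (hb W K h hK x hx).2

end Pool.Agent.H51.DG
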