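import Pool.Agent.H51.DG.SO
import Pool.Agent.H51.DG.SN
import Pool.Agent.H51.DG.SJ
import Pool.Agent.H51.DG.SG

/-!
# DG2 job SP: passage to the limit

`HT_tendsto`: dominated convergence with the bound `4K` (`HT_integrand_bound`); `UU_tendsto`: dominated
by `2K` (`abs_HT_le`).  `FF_tendsto`: dominated by `FF_bound`.  The rest: `V n = Wn W n`, dominated by
the integrands of `W` (`abs_Wn_le`), `|W|` bounded, `QQ_integrable`, `SE_integrable`.
`mult_tendsto`: `|∫_0^π alA (Wn) | ≤ π C (1+π) K` (`alA_bound`), `∫_0^{2π} Wn → ∫_0^{2π} W = 0`.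
-/

set_option autoImplicit false
open Real Set MeasureTheory Filter Topology

namespace Pool.Agent.H51.DG

theorem HT_tendsto {V : ℕ → ℝ → ℝ} {W : ℝ → ℝ} {K : ℝ} (hn : ∀ n, Lip K (V n))
    (ht : ∀ x, Tendsto (fun n => V n x) atTop (𝓝 (W x))) (x : ℝ) :
    Tendsto (fun n => HT (V n) x) atTop (𝓝 (HT W x)) := by
  unfold HT
  refine Tendsto.const_mul _ ?_
  refine intervalIntegral.tendsto_integral_filter_of_dominated_convergence (fun _ => 4 * K) ?_ ?_
    intervalIntegrable_const ?_
  · exact Filter.Eventually.of_forall fun n =>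
      (intervalIntegrable_iff.1 (HT_integrable (hn n) x)).aestronglyMeasurable
  · refine Filter.Eventually.of_forall fun n => Filter.Eventually.of_forall fun s hs => ?_
    rw [Set.uIoc_of_le Real.pi_pos.le] at hs
    rw [Real.norm_eq_abs]
    exact HT_integrand_bound (hn n) x hs.1 hs.2
  · refine Filter.Eventually.of_forall fun s _ => ?_
    exact ((ht (x - s)).sub (ht (x + s))).mul_const _

theorem UU_tendsto {V : ℕ → ℝ → ℝ} {W : ℝ → ℝ} {K : ℝ} (hn : ∀ n, Lip K (V n))
    (ht : ∀ x, Tendsto (fun n => V n x) atTop (𝓝 (W x))) (x : ℝ) :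
    Tendsto (fun n => UU (V n) x) atTop (𝓝 (UU W x)) := by
  unfold UU
  refine intervalIntegral.tendsto_integral_filter_of_dominated_convergence (fun _ => 2 * K) ?_ ?_
    intervalIntegrable_const ?_
  · exact Filter.Eventually.of_forall fun n => (continuous_HT (hn n)).aestronglyMeasurable
  · refine Filter.Eventually.of_forall fun n => Filter.Eventually.of_forall fun s _ => ?_
    rw [Real.norm_eq_abs]
    exact abs_HT_le (hn n) s
  · exact Filter.Eventually.of_forall fun s _ => HT_tendsto hn ht s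

private theorem SP_ae_ne (a : ℝ) : ∀ᵐ x : ℝ, x ≠ a := by
  have : ({a} : Set ℝ)ᶜ ∈ ae (volume : Measure ℝ) := compl_mem_ae_iff.2 (measure_singleton a)
  exact this

theorem FF_tendsto {V : ℕ → ℝ → ℝ} {W : ℝ → ℝ} {l K : ℝ} (hn : ∀ n, Nrm (V n) l)
    (hK : ∀ n, Lip K (V n)) (ht : ∀ x, Tendsto (fun n => V n x) atTop (𝓝 (W x))) :
    Tendsto (fun n => FF (V n) l) atTop (𝓝 (FF W l)) := by
  obtain ⟨C, -, hC⟩ := FF_bound
  unfold FF
  refine intervalIntegral.tendsto_integral_filter_of_dominated_convergence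
    (fun x : ℝ => (C * K ^ 2) * (1 + |Real.log x| + |Real.log (2 * π - x)|)) ?_ ?_
    (FF_bound_integrable _) ?_
  · exact Filter.Eventually.of_forall fun n =>
      (intervalIntegrable_iff.1 (FF_integrable (hn n) (hK n))).aestronglyMeasurable
  · refine Filter.Eventually.of_forall fun n => ?_
    filter_upwards [SP_ae_ne (2 * π)] with x hx hx2
    rw [Set.uIoc_of_le (by positivity)] at hx2
    rw [Real.norm_eq_abs]
    exact hC (V n) l K (hn n) (hK n) x ⟨hx2.1, lt_of_le_of_ne hx2.2 hx⟩
  · refine Filter.Eventually.of_forall fun x _ => ?_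
    exact (ht x).abs.mul ((((HT_tendsto hK ht x).const_mul 2).mul_const _).add
      ((UU_tendsto hK ht x).mul_const _))

theorem SE_tendsto {W : ℝ → ℝ} {l K : ℝ} (h : Nrm W l) (hK : Lip K W) :
    Tendsto (fun n => ∫ z in Sq2, |Wn W n z.1| * |Wn W n z.2| * SE l z.1 z.2) atTop
      (𝓝 (∫ z in Sq2, |W z.1| * |W z.2| * SE l z.1 z.2)) := by
  refine tendsto_integral_of_dominated_convergence
    (fun z : ℝ × ℝ => ‖|W z.1| * |W z.2| * SE l z.1 z.2‖) ?_ (SE_integrable h hK).norm ?_ ?_
  · exact fun n => (SE_integrable (Wn_nrm h n) (Wn_lip h hK n)).aestronglyMeasurable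
  · refine fun n => Filter.Eventually.of_forall fun z => ?_
    simp only [norm_mul, Real.norm_eq_abs, abs_abs]
    have h1 := abs_Wn_le W n z.1
    have h2 := abs_Wn_le W n z.2
    gcongr
  · refine Filter.Eventually.of_forall fun z => ?_
    exact ((Wn_tendsto h z.1).abs.mul (Wn_tendsto h z.2).abs).mul_const _

theorem Ma_tendsto {W : ℝ → ℝ} {l K : ℝ} (h : Nrm W l) (hK : Lip K W) :
    Tendsto (fun n => Ma (Wn W n)) atTop (𝓝 (Ma W)) := by
  unfold Ma
  refine intervalIntegral.tendsto_integral_filter_of_dominated_convergence (fun x => |W x|) ?_ ?_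
    (hK.continuous.abs.intervalIntegrable _ _) ?_
  · exact Filter.Eventually.of_forall fun n =>
      ((Wn_lip h hK n).continuous.abs).aestronglyMeasurable
  · refine Filter.Eventually.of_forall fun n => Filter.Eventually.of_forall fun x _ => ?_
    rw [Real.norm_eq_abs, abs_abs]
    exact abs_Wn_le W n x
  · exact Filter.Eventually.of_forall fun x _ => (Wn_tendsto h x).abs

theorem QQ_tendsto {W : ℝ → ℝ} {l K : ℝ} (h : Nrm W l) (hK : Lip K W) :
    Tendsto (fun n => QQ (Wn W n) l) atTop (𝓝 (QQ W l)) := by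
  unfold QQ
  refine intervalIntegral.tendsto_integral_filter_of_dominated_convergence
    (fun x => ‖|W x| * vp (dst l x)‖) ?_ ?_ (QQ_integrable h hK).norm ?_
  · exact Filter.Eventually.of_forall fun n =>
      (intervalIntegrable_iff.1 (QQ_integrable (Wn_nrm h n) (Wn_lip h hK n))).aestronglyMeasurable
  · refine Filter.Eventually.of_forall fun n => Filter.Eventually.of_forall fun x _ => ?_
    simp only [norm_mul, Real.norm_eq_abs, abs_abs]
    have h1 := abs_Wn_le W n x
    gcongr
  · exact Filter.Eventually.of_forall fun x _ => (Wn_tendsto h x).abs.mul_const _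

theorem parts_tendsto {W : ℝ → ℝ} {l K : ℝ} (h : Nrm W l) (hK : Lip K W) :
    Tendsto (fun n => ∫ x in (0:ℝ)..π, bR (Wn W n) x) atTop (𝓝 (∫ x in (0:ℝ)..π, bR W x)) ∧
    Tendsto (fun n => ∫ x in (0:ℝ)..π, bF (Wn W n) x) atTop (𝓝 (∫ x in (0:ℝ)..π, bF W x)) ∧
    Tendsto (fun n => ∫ x in (0:ℝ)..π, bN (Wn W n) x) atTop (𝓝 (∫ x in (0:ℝ)..π, bN W x)) := by
  have hc := hK.continuous
  have hcn : ∀ n, Continuous (Wn W n) := fun n => (Wn_lip h hK n).continuous
  refine ⟨?_, ?_, ?_⟩
  · refine intervalIntegral.tendsto_integral_filter_of_dominated_convergence (fun x => |W x|) ?_ ?_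
      (hc.abs.intervalIntegrable _ _) ?_
    · exact Filter.Eventually.of_forall fun n => (continuous_parts (hcn n)).1.aestronglyMeasurable
    · refine Filter.Eventually.of_forall fun n => Filter.Eventually.of_forall fun x _ => ?_
      rw [Real.norm_eq_abs, abs_of_nonneg (bR_nonneg _ _)]
      have h1 := abs_parts (Wn W n) x
      have h2 := bF_nonneg (Wn W n) x
      have h3 := abs_Wn_le W n x
      linarith
    · refine Filter.Eventually.of_forall fun x _ => ?_
      unfold bR
      exact (Wn_tendsto h x).neg.max tendsto_const_nhds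
  · refine intervalIntegral.tendsto_integral_filter_of_dominated_convergence (fun x => |W x|) ?_ ?_
      (hc.abs.intervalIntegrable _ _) ?_
    · exact Filter.Eventually.of_forall fun n => (continuous_parts (hcn n)).2.1.aestronglyMeasurable
    · refine Filter.Eventually.of_forall fun n => Filter.Eventually.of_forall fun x _ => ?_
      rw [Real.norm_eq_abs, abs_of_nonneg (bF_nonneg _ _)]
      have h1 := abs_parts (Wn W n) x
      have h2 := bR_nonneg (Wn W n) x
      have h3 := abs_Wn_le W n x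
      linarith
    · refine Filter.Eventually.of_forall fun x _ => ?_
      unfold bF
      exact (Wn_tendsto h x).max tendsto_const_nhds
  · refine intervalIntegral.tendsto_integral_filter_of_dominated_convergence (fun x => |W (-x)|)
      ?_ ?_ ((hc.comp continuous_neg).abs.intervalIntegrable _ _) ?_
    · exact Filter.Eventually.of_forall fun n =>
        (continuous_parts (hcn n)).2.2.1.aestronglyMeasurable
    · refine Filter.Eventually.of_forall fun n => Filter.Eventually.of_forall fun x _ => ?_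
      rw [Real.norm_eq_abs]
      exact abs_Wn_le W n (-x)
    · exact Filter.Eventually.of_forall fun x _ => Wn_tendsto h (-x)

private theorem SP_int_tendsto {W : ℝ → ℝ} {l K : ℝ} (h : Nrm W l) (hK : Lip K W) :
    Tendsto (fun n => ∫ x in (0:ℝ)..(2 * π), Wn W n x) atTop
      (𝓝 (∫ x in (0:ℝ)..(2 * π), W x)) := by
  refine intervalIntegral.tendsto_integral_filter_of_dominated_convergence (fun x => |W x|) ?_ ?_
    (hK.continuous.abs.intervalIntegrable _ _) ?_
  · exact Filter.Eventually.of_forall fun n => ((Wn_lip h hK n).continuous).aestronglyMeasurable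
  · refine Filter.Eventually.of_forall fun n => Filter.Eventually.of_forall fun x _ => ?_
    rw [Real.norm_eq_abs]
    exact abs_Wn_le W n x
  · exact Filter.Eventually.of_forall fun x _ => Wn_tendsto h x

private theorem SP_squeeze {a b : ℕ → ℝ} {M : ℝ} (ha : Tendsto a atTop (𝓝 0))
    (hb : ∀ n, |b n| ≤ M) : Tendsto (fun n => a n * b n) atTop (𝓝 0) := by
  have h1 : Tendsto (fun n => |a n| * M) atTop (𝓝 0) := by
    simpa using (ha.abs.mul_const M)
  refine squeeze_zero_norm (fun n => ?_) h1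
  rw [norm_mul, Real.norm_eq_abs, Real.norm_eq_abs]
  exact mul_le_mul_of_nonneg_left (hb n) (abs_nonneg _)

private theorem SP_int_bound {f : ℝ → ℝ} {M : ℝ} (hf : ∀ x ∈ Ioo (0:ℝ) π, |f x| ≤ M) :
    |∫ x in (0:ℝ)..π, f x| ≤ M * |π - 0| := by
  rw [← Real.norm_eq_abs]
  refine intervalIntegral.norm_integral_le_of_norm_le_const_ae ?_
  filter_upwards [SP_ae_ne π] with x hx hx2
  rw [Set.uIoc_of_le Real.pi_pos.le] at hx2
  rw [Real.norm_eq_abs]
  exact hf x ⟨hx2.1, lt_of_le_of_ne hx2.2 hx⟩

theorem mult_tendsto {W : ℝ → ℝ} {l K : ℝ} (h : Nrm W l) (hl : l ≤ π) (hK : Lip K W)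
    (h0 : ∫ x in (0:ℝ)..(2 * π), W x = 0) :
    Tendsto (fun n => (∫ x in (0:ℝ)..(2 * π), Wn W n x) * ∫ x in (0:ℝ)..π, alA (Wn W n) l x) atTop
      (𝓝 0) ∧
    Tendsto (fun n => (∫ x in (0:ℝ)..(2 * π), Wn W n x) * ∫ x in (0:ℝ)..π, al0 (Wn W n) x) atTop
      (𝓝 0) := by
  obtain ⟨C, -, hC⟩ := alA_bound h.l0 hl
  have h1 := SP_int_tendsto h hK
  rw [h0] at h1
  refine ⟨SP_squeeze h1 (M := C * ((1 + π) * K) * |π - 0|) fun n => ?_,
    SP_squeeze h1 (M := C * ((1 + π) * K) * |π - 0|) fun n => ?_⟩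
  · exact SP_int_bound fun x hx => (hC (Wn W n) _ (Wn_nrm h n) (Wn_lip h hK n) x hx).1
  · exact SP_int_bound fun x hx => (hC (Wn W n) _ (Wn_nrm h n) (Wn_lip h hK n) x hx).2

end Pool.Agent.H51.DG
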