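import Pool.Agent.H51.DG.Frm

/-!
# DG2 job NF: change of variables `x = th r = 2 arctan(e^r)`, admissibility of `Am`

`th : ℝ → (0,π)` is a strictly increasing `C^1` bijection with derivative `thd`, `ct (th r) = e^{-r}`.
`adm_Am`: `MMb b` is `C^1` with derivative `b (th r) thd r`; it vanishes for `th r ≤ δ`, i.e. for
`r ≤ log tan(δ/2)` (or: as `th r → 0`, for all `r ≤ -R`), it is bounded by `π sup_{[0,π]} |b|`;
`thd r ≤ 2 e^{-r}` for `r ≥ 0`, `≤ 1` always.  So `|Am|, |Amd| ≤ K e^{-m|r|}`.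
Product change of variables: `∫_{(0,π)²} F = ∫_{ℝ²} F(th r, th s) thd r thd s`, e.g. by
`MeasureTheory.integral_image_eq_integral_abs_det_fderiv_smul` or by applying the one-dimensional
formula (`integral_image_eq_integral_abs_deriv_smul`) twice together with
`integral_prod`/`Measure.map`: the map `th` transports the measure `thd r dr` to Lebesgue measure
on `(0,π)`, hence `Prod.map th th` transports the product measures (`Measure.map_prod_map`).
-/

set_option autoImplicit false
open Real Set MeasureTheory Filter Topology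

namespace Pool.Agent.H51.DG

theorem th_mem (r : ℝ) : th r ∈ Ioo (0:ℝ) π := by
  have h1 : 0 < Real.arctan (Real.exp r) := Real.arctan_pos.2 (Real.exp_pos r)
  have h2 : Real.arctan (Real.exp r) < π / 2 := Real.arctan_lt_pi_div_two _
  constructor
  · show 0 < 2 * Real.arctan (Real.exp r)
    linarith
  · show 2 * Real.arctan (Real.exp r) < π
    linarith

theorem hasDerivAt_th (r : ℝ) : HasDerivAt th (thd r) r := by
  have h := ((Real.hasDerivAt_exp r).arctan).const_mul 2
  have e : thd r = 2 * (1 / (1 + Real.exp r ^ 2) * Real.exp r) := by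
    unfold thd
    ring
  rw [e]
  exact h

theorem ct_th (r : ℝ) : ct (th r) = Real.exp (-r) := by
  unfold ct th
  have e : 2 * Real.arctan (Real.exp r) / 2 = Real.arctan (Real.exp r) := by ring
  rw [e, Real.cos_arctan, Real.sin_arctan, Real.exp_neg]
  have h1 : 0 < Real.sqrt (1 + Real.exp r ^ 2) := Real.sqrt_pos.2 (by positivity)
  have h2 := Real.exp_pos r
  field_simp

theorem NF_thd_pos (r : ℝ) : 0 < thd r := by
  unfold thd
  have h2 := Real.exp_pos r
  positivity

theorem NF_thd_le (r : ℝ) : thd r ≤ 1 := by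
  unfold thd
  have h2 := Real.exp_pos r
  rw [div_le_one (by positivity)]
  nlinarith [sq_nonneg (Real.exp r - 1)]

theorem NF_cont_th : Continuous th := by
  unfold th
  exact continuous_const.mul (Real.continuous_arctan.comp Real.continuous_exp)

theorem NF_cont_thd : Continuous thd := by
  unfold thd
  refine Continuous.div (by fun_prop) (by fun_prop) (fun r => ?_)
  have h2 := Real.exp_pos r
  positivity

theorem NF_hasDerivAt_MMb {b : ℝ → ℝ} (hb : Bd b) (r : ℝ) :
    HasDerivAt (MMb b) (b (th r) * thd r) r := by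
  have h1 : HasDerivAt (fun u => ∫ x in (0:ℝ)..u, b x) (b (th r)) (th r) :=
    intervalIntegral.integral_hasDerivAt_right (hb.c.intervalIntegrable _ _)
      (hb.c.stronglyMeasurableAtFilter _ _) hb.c.continuousAt
  exact h1.comp r (hasDerivAt_th r)

theorem NF_cont_MMb {b : ℝ → ℝ} (hb : Bd b) : Continuous (MMb b) :=
  continuous_iff_continuousAt.2 fun r => (NF_hasDerivAt_MMb hb r).continuousAt

theorem NF_MMb_nonneg {b : ℝ → ℝ} (hb : Bd b) (r : ℝ) : 0 ≤ MMb b r := by
  unfold MMb
  refine intervalIntegral.integral_nonneg (th_mem r).1.le fun x hx => hb.nn x ⟨hx.1, ?_⟩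
  exact hx.2.trans (th_mem r).2.le

theorem NF_bound {b : ℝ → ℝ} (hb : Bd b) :
    ∃ B : ℝ, 0 ≤ B ∧ ∀ x ∈ Icc (0:ℝ) π, b x ≤ B := by
  obtain ⟨B, hB⟩ := isCompact_Icc.exists_bound_of_continuousOn (f := b) (s := Icc (0:ℝ) π)
    hb.c.continuousOn
  refine ⟨max B 0, le_max_right _ _, fun x hx => ?_⟩
  have h1 := hB x hx
  rw [Real.norm_eq_abs] at h1
  exact (le_abs_self _).trans (h1.trans (le_max_left _ _))

theorem NF_MMb_le {b : ℝ → ℝ} (hb : Bd b) {B : ℝ} (hB0 : 0 ≤ B)
    (hB : ∀ x ∈ Icc (0:ℝ) π, b x ≤ B) (r : ℝ) : MMb b r ≤ B * π := by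
  have h1 : MMb b r ≤ ∫ _ in (0:ℝ)..(th r), B := by
    unfold MMb
    refine intervalIntegral.integral_mono_on (th_mem r).1.le (hb.c.intervalIntegrable _ _)
      (continuous_const.intervalIntegrable _ _) fun x hx => hB x ⟨hx.1, hx.2.trans (th_mem r).2.le⟩
  rw [intervalIntegral.integral_const, smul_eq_mul] at h1
  have h2 := (th_mem r).2
  have h3 := (th_mem r).1
  nlinarith

theorem NF_small {b : ℝ → ℝ} (hb : Bd b) :
    ∃ R : ℝ, 0 ≤ R ∧ ∀ r, r ≤ -R → b (th r) = 0 ∧ MMb b r = 0 := by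
  obtain ⟨δ, hδ, hz⟩ := hb.z
  have ht : Tendsto th atBot (𝓝 0) := by
    have h1 : Tendsto (fun r => Real.arctan (Real.exp r)) atBot (𝓝 (Real.arctan 0)) :=
      (Real.continuous_arctan.tendsto 0).comp Real.tendsto_exp_atBot
    have h2 := h1.const_mul 2
    rw [Real.arctan_zero, mul_zero] at h2
    exact h2
  have h1 : ∀ᶠ r in atBot, th r < δ := (tendsto_order.1 ht).2 δ hδ
  obtain ⟨R₀, hR₀⟩ := eventually_atBot.1 h1
  refine ⟨max (-R₀) 0, le_max_right _ _, fun r hr => ?_⟩
  have h2 : r ≤ R₀ := by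
    have := le_max_left (-R₀) 0
    linarith
  have h3 := hR₀ r h2
  refine ⟨hz _ (th_mem r).1.le h3.le, ?_⟩
  unfold MMb
  have h4 : ∫ x in (0:ℝ)..(th r), b x = ∫ x in (0:ℝ)..(th r), (0:ℝ) := by
    refine intervalIntegral.integral_congr fun x hx => ?_
    rw [uIcc_of_le (th_mem r).1.le] at hx
    exact hz x hx.1 (hx.2.trans h3.le)
  rw [h4]
  simp

theorem Am_nonneg {b : ℝ → ℝ} (hb : Bd b) (m r : ℝ) : 0 ≤ Am m b r :=
  mul_nonneg (Real.exp_pos _).le (NF_MMb_nonneg hb r)

theorem adm_Am {b : ℝ → ℝ} (hb : Bd b) {m : ℝ} (hm : 0 < m) : Adm (Am m b) (Amd m b) := by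
  obtain ⟨B, hB0, hB⟩ := NF_bound hb
  obtain ⟨R, hR, hz⟩ := NF_small hb
  have hcA : Continuous (Am m b) := by
    unfold Am
    exact (Real.continuous_exp.comp (by fun_prop)).mul (NF_cont_MMb hb)
  refine ⟨fun r => ?_, ?_, ?_⟩
  · have h1 : HasDerivAt (fun r : ℝ => Real.exp (-(m * r))) (Real.exp (-(m * r)) * (-m)) r := by
      have h2 : HasDerivAt (fun r : ℝ => -(m * r)) (-m) r := by
        have h4 := ((hasDerivAt_id r).const_mul m).neg
        rw [mul_one] at h4
        exact h4
      exact h2.exp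
    have h3 := h1.mul (NF_hasDerivAt_MMb hb r)
    have e : Amd m b r = Real.exp (-(m * r)) * (-m) * MMb b r
        + Real.exp (-(m * r)) * (b (th r) * thd r) := by
      unfold Amd Am
      ring
    rw [e]
    exact h3
  · unfold Amd
    exact ((Real.continuous_exp.comp (by fun_prop)).mul
      ((hb.c.comp NF_cont_th).mul NF_cont_thd)).sub (continuous_const.mul hcA)
  · -- the key bound for `exp (-(m r))`
    have key : ∀ r, -R < r → Real.exp (-(m * r)) ≤ Real.exp (2 * m * R) * Real.exp (-(m * |r|)) := by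
      intro r hr
      rw [← Real.exp_add]
      apply Real.exp_le_exp.2
      have h1 : |r| ≤ r + 2 * R := by
        rw [abs_le]
        constructor <;> linarith
      nlinarith
    have hEpos : 0 < Real.exp (2 * m * R) := Real.exp_pos _
    have hA : ∀ r, |Am m b r| ≤ Real.exp (2 * m * R) * (B * π) * Real.exp (-(m * |r|)) := by
      intro r
      rw [abs_of_nonneg (Am_nonneg hb m r)]
      by_cases hr : r ≤ -R
      · have h1 : Am m b r = 0 := by
          unfold Am
          rw [(hz r hr).2, mul_zero]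
        rw [h1]
        have := Real.pi_pos
        positivity
      · push Not at hr
        have h1 := key r hr
        have h2 := NF_MMb_le hb hB0 hB r
        have h3 := NF_MMb_nonneg hb r
        calc Am m b r = Real.exp (-(m * r)) * MMb b r := rfl
          _ ≤ (Real.exp (2 * m * R) * Real.exp (-(m * |r|))) * (B * π) :=
              mul_le_mul h1 h2 h3 (by positivity)
          _ = _ := by ring
    refine ⟨Real.exp (2 * m * R) * (B * π) + Real.exp (2 * m * R) * B
      + m * (Real.exp (2 * m * R) * (B * π)), m, hm, fun r => ⟨?_, ?_⟩⟩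
    · refine (hA r).trans ?_
      have h1 : 0 ≤ (Real.exp (2 * m * R) * B + m * (Real.exp (2 * m * R) * (B * π)))
          * Real.exp (-(m * |r|)) := by
        have := Real.pi_pos
        positivity
      nlinarith
    · have h0 := hA r
      have hbt : |Real.exp (-(m * r)) * (b (th r) * thd r)|
          ≤ Real.exp (2 * m * R) * B * Real.exp (-(m * |r|)) := by
        by_cases hr : r ≤ -R
        · rw [(hz r hr).1, zero_mul, mul_zero, abs_zero]
          positivity
        · push Not at hr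
          have h1 := key r hr
          have h2 : 0 ≤ b (th r) := hb.nn _ ⟨(th_mem r).1.le, (th_mem r).2.le⟩
          have h3 : b (th r) ≤ B := hB _ ⟨(th_mem r).1.le, (th_mem r).2.le⟩
          have h4 := NF_thd_pos r
          have h5 := NF_thd_le r
          rw [abs_of_nonneg (mul_nonneg (Real.exp_pos _).le (mul_nonneg h2 h4.le))]
          calc Real.exp (-(m * r)) * (b (th r) * thd r)
              ≤ (Real.exp (2 * m * R) * Real.exp (-(m * |r|))) * (B * 1) :=
                mul_le_mul h1 (mul_le_mul h3 h5 h4.le hB0) (mul_nonneg h2 h4.le) (by positivity)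
            _ = _ := by ring
      have h6 : |Amd m b r| ≤ |Real.exp (-(m * r)) * (b (th r) * thd r)| + |m * Am m b r| := by
        unfold Amd
        exact abs_sub _ _
      rw [abs_mul m, abs_of_pos hm] at h6
      have h7 : m * |Am m b r| ≤ m * (Real.exp (2 * m * R) * (B * π) * Real.exp (-(m * |r|))) :=
        mul_le_mul_of_nonneg_left h0 hm.le
      have h8 : 0 ≤ Real.exp (2 * m * R) * (B * π) * Real.exp (-(m * |r|)) := by
        have := Real.pi_pos
        positivity
      nlinarith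

theorem NF_inj : Function.Injective th := by
  intro r s h
  have h1 : Real.arctan (Real.exp r) = Real.arctan (Real.exp s) := by
    have : 2 * Real.arctan (Real.exp r) = 2 * Real.arctan (Real.exp s) := h
    linarith
  exact Real.exp_injective (Real.arctan_injective h1)

theorem NF_range {x : ℝ} (hx : x ∈ Ioo (0:ℝ) π) : ∃ r, th r = x := by
  have h1 : 0 < Real.tan (x / 2) := Real.tan_pos_of_pos_of_lt_pi_div_two (by linarith [hx.1])
    (by linarith [hx.2])
  refine ⟨Real.log (Real.tan (x / 2)), ?_⟩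
  unfold th
  rw [Real.exp_log h1, Real.arctan_tan (by linarith [hx.1, Real.pi_pos]) (by linarith [hx.2])]
  ring

theorem NF_image : (Prod.map th th) '' (univ : Set (ℝ × ℝ)) = Ioo (0:ℝ) π ×ˢ Ioo (0:ℝ) π := by
  ext ⟨x, y⟩
  constructor
  · rintro ⟨⟨r, s⟩, -, h⟩
    have h1 : th r = x := congrArg Prod.fst h
    have h2 : th s = y := congrArg Prod.snd h
    rw [← h1, ← h2]
    exact ⟨th_mem r, th_mem s⟩
  · rintro ⟨hx, hy⟩
    obtain ⟨r, hr⟩ := NF_range hx
    obtain ⟨s, hs⟩ := NF_range hy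
    exact ⟨(r, s), mem_univ _, by
      show (th r, th s) = (x, y)
      rw [hr, hs]⟩

noncomputable def NF_fd (z : ℝ × ℝ) : ℝ × ℝ →L[ℝ] ℝ × ℝ :=
  (ContinuousLinearMap.toSpanSingleton ℝ (thd z.1)).prodMap
    (ContinuousLinearMap.toSpanSingleton ℝ (thd z.2))

theorem NF_hfd (z : ℝ × ℝ) : HasFDerivAt (Prod.map th th) (NF_fd z) z :=
  HasFDerivAt.prodMap z (hasDerivAt_th z.1).hasFDerivAt (hasDerivAt_th z.2).hasFDerivAt

theorem NF_det (z : ℝ × ℝ) : |(NF_fd z).det| = thd z.1 * thd z.2 := by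
  have h : (NF_fd z).det = thd z.1 * thd z.2 := by
    have e : ((NF_fd z : ℝ × ℝ →L[ℝ] ℝ × ℝ) : ℝ × ℝ →ₗ[ℝ] ℝ × ℝ)
        = LinearMap.prodMap
          ((ContinuousLinearMap.toSpanSingleton ℝ (thd z.1) : ℝ →L[ℝ] ℝ) : ℝ →ₗ[ℝ] ℝ)
          ((ContinuousLinearMap.toSpanSingleton ℝ (thd z.2) : ℝ →L[ℝ] ℝ) : ℝ →ₗ[ℝ] ℝ) := rfl
    rw [ContinuousLinearMap.det, e, LinearMap.det_prodMap, LinearMap.det_ring, LinearMap.det_ring]
    simp
  rw [h, abs_of_pos (mul_pos (NF_thd_pos _) (NF_thd_pos _))]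

theorem integrableOn_th_iff (F : ℝ × ℝ → ℝ) :
    IntegrableOn F (Ioo (0:ℝ) π ×ˢ Ioo (0:ℝ) π) ↔
      Integrable (fun z : ℝ × ℝ => F (th z.1, th z.2) * (thd z.1 * thd z.2)) := by
  rw [← NF_image, integrableOn_image_iff_integrableOn_abs_det_fderiv_smul volume
    MeasurableSet.univ (fun z _ => (NF_hfd z).hasFDerivWithinAt)
    (NF_inj.prodMap NF_inj).injOn F, integrableOn_univ]
  have e : (fun z : ℝ × ℝ => |(NF_fd z).det| • F (Prod.map th th z))
      = fun z : ℝ × ℝ => F (th z.1, th z.2) * (thd z.1 * thd z.2) := by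
    funext z
    rw [NF_det, smul_eq_mul, mul_comm]
    rfl
  rw [e]

theorem integral_th (F : ℝ × ℝ → ℝ) :
    ∫ z in (Ioo (0:ℝ) π ×ˢ Ioo (0:ℝ) π), F z =
      ∫ z : ℝ × ℝ, F (th z.1, th z.2) * (thd z.1 * thd z.2) := by
  rw [← NF_image, integral_image_eq_integral_abs_det_fderiv_smul volume
    MeasurableSet.univ (fun z _ => (NF_hfd z).hasFDerivWithinAt)
    (NF_inj.prodMap NF_inj).injOn F, setIntegral_univ]
  have e : (fun z : ℝ × ℝ => |(NF_fd z).det| • F (Prod.map th th z))
      = fun z : ℝ × ℝ => F (th z.1, th z.2) * (thd z.1 * thd z.2) := by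
    funext z
    rw [NF_det, smul_eq_mul, mul_comm]
    rfl
  rw [e]

end Pool.Agent.H51.DG
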