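import Pool.Agent.H51.DG.SA

/-!
# DG2 job SC: Fubini for `∫ F · HT V`

`∫_0^{2π} F HT V = (1/2π) ∫_0^{2π} ∫_0^π F(x) (V(x-s) - V(x+s)) cot(s/2) ds dx`; the integrand is
bounded by `4KB` (`HT_integrand_bound`), so Fubini gives
`(1/2π) ∫_0^π cot(s/2) [∫_0^{2π} F(x) V(x-s) dx - ∫_0^{2π} F(x) V(x+s) dx] ds`, and by periodicity the
second inner integral is `∫_0^{2π} F(x-s) V(x) dx`.  With
`T(x,y) = (F(x)V(y) - F(y)V(x)) ct(x-y)` (symmetric, `2π`-periodic in both variables) this is
`(1/2π) ∫_0^π ∫_0^{2π} T(x,x-s) dx ds`.  Since `T(x, x+s)`, shifted, equals `T(x, x-s)` by symmetry,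
it is half of `∫_{-π}^{π} ∫_0^{2π} T(x,x-s) dx ds = ∫∫_{(0,2π)²} T` (substitution `y = x - s` and
periodicity in `y`; Fubini with `hint`).
`HT_fubini_lip`: if `F` is Lipschitz and bounded then
`|T(x,y)| ≤ |F(x)-F(y)||V(y)||ct| + |F(y)||V(y)-V(x)||ct|` is bounded near the diagonal and near
the corners (use `|ct(x-y)| ≤ π/dist(x-y, 2πℤ)` and the periodicity of `F`, `V`).
-/

set_option autoImplicit false
open Real Set MeasureTheory Filter Topology

namespace Pool.Agent.H51.DG

theorem SC_two_pi_pos : (0:ℝ) < 2 * π := by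
  have := Real.pi_pos
  linarith

theorem SC_restrict : (volume : Measure (ℝ × ℝ)).restrict Sq2 =
    (volume.restrict (Ioc (0:ℝ) (2 * π))).prod (volume.restrict (Ioc (0:ℝ) (2 * π))) := by
  unfold Sq2
  rw [Measure.volume_eq_prod, ← Measure.prod_restrict,
    Measure.restrict_congr_set (Ioo_ae_eq_Ioc (μ := (volume : Measure ℝ)))]

theorem SC_shift {f : ℝ → ℝ} (hf : Function.Periodic f (2 * π)) (s : ℝ) :
    ∫ x in (0:ℝ)..(2 * π), f (x + s) = ∫ x in (0:ℝ)..(2 * π), f x := by
  rw [intervalIntegral.integral_comp_add_right, zero_add, add_comm (2 * π) s]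
  have h := hf.intervalIntegral_add_eq s 0
  rw [zero_add] at h
  exact h

theorem SC_refl {f : ℝ → ℝ} (hf : Function.Periodic f (2 * π)) (x : ℝ) :
    ∫ s in (0:ℝ)..(2 * π), f (x - s) = ∫ y in (0:ℝ)..(2 * π), f y := by
  rw [intervalIntegral.integral_comp_sub_left, sub_zero]
  have h := hf.intervalIntegral_add_eq (x - 2 * π) 0
  rw [zero_add, sub_add_cancel] at h
  exact h

theorem SC_ii_iff {f : ℝ → ℝ} : Integrable f (volume.restrict (Ioc (0:ℝ) (2 * π))) ↔
    IntervalIntegrable f volume 0 (2 * π) :=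
  (intervalIntegrable_iff_integrableOn_Ioc_of_le SC_two_pi_pos.le).symm

theorem SC_int_eq (f : ℝ → ℝ) : ∫ x, f x ∂(volume.restrict (Ioc (0:ℝ) (2 * π))) =
    ∫ x in (0:ℝ)..(2 * π), f x :=
  (intervalIntegral.integral_of_le SC_two_pi_pos.le).symm

theorem SC_ii_refl {f : ℝ → ℝ} (hf : Function.Periodic f (2 * π))
    (hi : IntervalIntegrable f volume 0 (2 * π)) (x : ℝ) :
    IntervalIntegrable (fun s => f (x - s)) volume 0 (2 * π) := by
  have h1 := hf.intervalIntegrable₀ SC_two_pi_pos.ne' hi x (x - 2 * π)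
  have h2 := h1.comp_sub_left x
  have e1 : x - x = 0 := sub_self x
  have e2 : x - (x - 2 * π) = 2 * π := by ring
  rw [e1, e2] at h2
  exact h2

theorem SC_integrable {T : ℝ → ℝ → ℝ} (hm : Measurable (Function.uncurry T))
    (hp : ∀ x, Function.Periodic (T x) (2 * π))
    (hi : Integrable (Function.uncurry T)
      ((volume.restrict (Ioc (0:ℝ) (2 * π))).prod (volume.restrict (Ioc (0:ℝ) (2 * π))))) :
    Integrable (Function.uncurry fun x s => T x (x - s))
      ((volume.restrict (Ioc (0:ℝ) (2 * π))).prod (volume.restrict (Ioc (0:ℝ) (2 * π)))) := by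
  have hm' : Measurable (Function.uncurry fun x s => T x (x - s)) := by
    have h1 : Measurable (fun z : ℝ × ℝ => (z.1, z.1 - z.2)) := by fun_prop
    exact hm.comp h1
  rw [integrable_prod_iff hm'.aestronglyMeasurable]
  constructor
  · filter_upwards [hi.prod_right_ae] with x hx
    rw [SC_ii_iff]
    exact SC_ii_refl (hp x) (SC_ii_iff.1 hx) x
  · refine hi.integral_norm_prod_left.congr (Filter.Eventually.of_forall fun x => ?_)
    show ∫ y, ‖T x y‖ ∂(volume.restrict (Ioc (0:ℝ) (2 * π))) =
      ∫ s, ‖T x (x - s)‖ ∂(volume.restrict (Ioc (0:ℝ) (2 * π)))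
    rw [SC_int_eq, SC_int_eq]
    have h2 : Function.Periodic (fun y => ‖T x y‖) (2 * π) := fun y => by
      show ‖T x (y + 2 * π)‖ = ‖T x y‖
      rw [hp x y]
    exact (SC_refl h2 x).symm

theorem SC_swap {T : ℝ → ℝ → ℝ} (hm : Measurable (Function.uncurry T))
    (hp : ∀ x, Function.Periodic (T x) (2 * π))
    (hi : Integrable (Function.uncurry T)
      ((volume.restrict (Ioc (0:ℝ) (2 * π))).prod (volume.restrict (Ioc (0:ℝ) (2 * π))))) :
    ∫ z, Function.uncurry T z
      ∂((volume.restrict (Ioc (0:ℝ) (2 * π))).prod (volume.restrict (Ioc (0:ℝ) (2 * π)))) =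
    ∫ s in (0:ℝ)..(2 * π), ∫ x in (0:ℝ)..(2 * π), T x (x - s) := by
  rw [integral_prod _ hi]
  have h1 : ∀ x, ∫ y, Function.uncurry T (x, y) ∂(volume.restrict (Ioc (0:ℝ) (2 * π))) =
      ∫ s, T x (x - s) ∂(volume.restrict (Ioc (0:ℝ) (2 * π))) := by
    intro x
    rw [SC_int_eq, SC_int_eq]
    exact (SC_refl (hp x) x).symm
  simp_rw [h1]
  rw [integral_integral_swap (SC_integrable hm hp hi), SC_int_eq]
  refine intervalIntegral.integral_congr fun s _ => ?_
  exact SC_int_eq _

theorem SC_ct_per : Function.Periodic ct (2 * π) := by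
  intro x
  unfold ct
  have e : (x + 2 * π) / 2 = x / 2 + π := by ring
  rw [e, Real.cos_add_pi, Real.sin_add_pi, neg_div_neg_eq]

theorem SC_ct_neg (x : ℝ) : ct (-x) = -ct x := by
  unfold ct
  rw [neg_div, Real.cos_neg, Real.sin_neg, div_neg]

theorem SC_ct_meas : Measurable ct := by
  unfold ct
  fun_prop

theorem SC_bdd_ii {f : ℝ → ℝ} (hf : Measurable f) {C : ℝ} (hb : ∀ x, |f x| ≤ C) (a b : ℝ) :
    IntervalIntegrable f volume a b := by
  rw [intervalIntegrable_iff]
  refine Measure.integrableOn_of_bounded (M := C) ?_ hf.aestronglyMeasurable ?_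
  · rw [uIoc, Real.volume_Ioc]
    exact ENNReal.ofReal_ne_top
  · exact Filter.Eventually.of_forall fun x => hb x

theorem SC_bdd {V : ℝ → ℝ} (pV : Function.Periodic V (2 * π)) (cV : Continuous V) :
    ∃ C, ∀ x, |V x| ≤ C := by
  obtain ⟨C, hC⟩ := (isCompact_Icc (a := (0:ℝ)) (b := 2 * π)).exists_bound_of_continuousOn
    cV.continuousOn
  refine ⟨C, fun x => ?_⟩
  obtain ⟨y, hy, hxy⟩ := pV.exists_mem_Ico₀ SC_two_pi_pos x
  rw [hxy, ← Real.norm_eq_abs]
  exact hC y ⟨hy.1, hy.2.le⟩

theorem HT_fubini {F V : ℝ → ℝ} {K B : ℝ} (hF : Measurable F) (bF : ∀ x, |F x| ≤ B)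
    (pF : Function.Periodic F (2 * π)) (pV : Function.Periodic V (2 * π)) (hV : Lip K V)
    (hint : IntegrableOn (fun z : ℝ × ℝ => (F z.1 * V z.2 - F z.2 * V z.1) * ct (z.1 - z.2)) Sq2) :
    ∫ x in (0:ℝ)..(2 * π), F x * HT V x =
      1 / (4 * π) * ∫ z in Sq2, (F z.1 * V z.2 - F z.2 * V z.1) * ct (z.1 - z.2) := by
  have hp := Real.pi_pos
  have h2p := SC_two_pi_pos
  have cV := hV.continuous
  have hK := hV.nonneg
  have mV := cV.measurable
  have hB : 0 ≤ B := (abs_nonneg _).trans (bF 0)
  obtain ⟨CV, hCV⟩ := SC_bdd pV cV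
  have hCV0 : 0 ≤ CV := (abs_nonneg _).trans (hCV 0)
  set T : ℝ → ℝ → ℝ := fun x y => (F x * V y - F y * V x) * ct (x - y) with hT
  have mct := SC_ct_meas
  have hTm : Measurable (Function.uncurry T) := by
    have h1 : Measurable (fun z : ℝ × ℝ => F z.1) := hF.comp measurable_fst
    have h2 : Measurable (fun z : ℝ × ℝ => F z.2) := hF.comp measurable_snd
    have h3 : Measurable (fun z : ℝ × ℝ => V z.1) := mV.comp measurable_fst
    have h4 : Measurable (fun z : ℝ × ℝ => V z.2) := mV.comp measurable_snd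
    have h5 : Measurable (fun z : ℝ × ℝ => ct (z.1 - z.2)) :=
      mct.comp (measurable_fst.sub measurable_snd)
    exact ((h1.mul h4).sub (h2.mul h3)).mul h5
  have hTp : ∀ x, Function.Periodic (T x) (2 * π) := by
    intro x y
    show (F x * V (y + 2 * π) - F (y + 2 * π) * V x) * ct (x - (y + 2 * π)) =
      (F x * V y - F y * V x) * ct (x - y)
    rw [pV y, pF y]
    have e : x - y = (x - (y + 2 * π)) + 2 * π := by ring
    rw [e, SC_ct_per]
  have hTs : ∀ x y, T x y = T y x := by
    intro x y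
    show (F x * V y - F y * V x) * ct (x - y) = (F y * V x - F x * V y) * ct (y - x)
    rw [← neg_sub x y, SC_ct_neg]
    ring
  have hTi : Integrable (Function.uncurry T)
      ((volume.restrict (Ioc (0:ℝ) (2 * π))).prod (volume.restrict (Ioc (0:ℝ) (2 * π)))) := by
    rw [← SC_restrict]
    exact hint
  have hsw := SC_swap hTm hTp hTi
  have hRi := (SC_integrable hTm hTp hTi).integral_prod_right
  set R : ℝ → ℝ := fun s => ∫ x in (0:ℝ)..(2 * π), T x (x - s) with hR
  have hRii : IntervalIntegrable R volume 0 (2 * π) := by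
    rw [← SC_ii_iff]
    refine hRi.congr (Filter.Eventually.of_forall fun s => ?_)
    exact SC_int_eq _
  have hRp : Function.Periodic R (2 * π) := by
    intro s
    refine intervalIntegral.integral_congr fun x _ => ?_
    show T x (x - (s + 2 * π)) = T x (x - s)
    have e : x - s = (x - (s + 2 * π)) + 2 * π := by ring
    rw [e, hTp x]
  have hRe : ∀ s, R (-s) = R s := by
    intro s
    show ∫ x in (0:ℝ)..(2 * π), T x (x - -s) = ∫ x in (0:ℝ)..(2 * π), T x (x - s)
    have h1 : Function.Periodic (fun x => T x (x - s)) (2 * π) := by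
      intro x
      show T (x + 2 * π) (x + 2 * π - s) = T x (x - s)
      have e : x + 2 * π - s = (x - s) + 2 * π := by ring
      rw [e, hTp (x + 2 * π), hTs, hTp (x - s), hTs]
    rw [← SC_shift h1 s]
    refine intervalIntegral.integral_congr fun x _ => ?_
    show T x (x - -s) = T (x + s) (x + s - s)
    rw [hTs, sub_neg_eq_add, add_sub_cancel_right]
  have hR2 : ∫ s in (0:ℝ)..(2 * π), R s = 2 * ∫ s in (0:ℝ)..π, R s := by
    have hii := hRp.intervalIntegrable₀ h2p.ne' hRii
    have h1 := hRp.intervalIntegral_add_eq (-π) 0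
    rw [zero_add] at h1
    have e : -π + 2 * π = π := by ring
    rw [e] at h1
    rw [← h1, ← intervalIntegral.integral_add_adjacent_intervals (hii (-π) 0) (hii 0 π)]
    have h2 : ∫ s in (0:ℝ)..π, R (-s) = ∫ s in (-π)..(-0), R s :=
      intervalIntegral.integral_comp_neg R
    rw [neg_zero] at h2
    rw [← h2]
    simp_rw [hRe]
    ring
  -- the left side
  have hG : ∀ s, ∫ x in (0:ℝ)..(2 * π), F x * ((V (x - s) - V (x + s)) * ct s) = R s := by
    intro s
    have i1 : IntervalIntegrable (fun x => F x * V (x - s)) volume 0 (2 * π) := by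
      refine SC_bdd_ii (hF.mul (mV.comp (measurable_id.sub_const s))) (C := B * CV) ?_ _ _
      intro x
      rw [Pi.mul_apply, abs_mul]
      exact mul_le_mul (bF x) (hCV _) (abs_nonneg _) hB
    have i2 : IntervalIntegrable (fun x => F x * V (x + s)) volume 0 (2 * π) := by
      refine SC_bdd_ii (hF.mul (mV.comp (measurable_id.add_const s))) (C := B * CV) ?_ _ _
      intro x
      rw [Pi.mul_apply, abs_mul]
      exact mul_le_mul (bF x) (hCV _) (abs_nonneg _) hB
    have i3 : IntervalIntegrable (fun x => F (x - s) * V x) volume 0 (2 * π) := by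
      refine SC_bdd_ii ((hF.comp (measurable_id.sub_const s)).mul mV) (C := B * CV) ?_ _ _
      intro x
      rw [Pi.mul_apply, abs_mul]
      exact mul_le_mul (bF _) (hCV _) (abs_nonneg _) hB
    have e1 : ∫ x in (0:ℝ)..(2 * π), F x * ((V (x - s) - V (x + s)) * ct s) =
        ((∫ x in (0:ℝ)..(2 * π), F x * V (x - s)) - ∫ x in (0:ℝ)..(2 * π), F x * V (x + s)) *
          ct s := by
      rw [← intervalIntegral.integral_sub i1 i2, ← intervalIntegral.integral_mul_const]
      refine intervalIntegral.integral_congr fun x _ => ?_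
      show F x * ((V (x - s) - V (x + s)) * ct s) =
        (F x * V (x - s) - F x * V (x + s)) * ct s
      ring
    have e2 : R s =
        ((∫ x in (0:ℝ)..(2 * π), F x * V (x - s)) - ∫ x in (0:ℝ)..(2 * π), F (x - s) * V x) *
          ct s := by
      rw [← intervalIntegral.integral_sub i1 i3, ← intervalIntegral.integral_mul_const]
      refine intervalIntegral.integral_congr fun x _ => ?_
      show (F x * V (x - s) - F (x - s) * V x) * ct (x - (x - s)) =
        (F x * V (x - s) - F (x - s) * V x) * ct s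
      rw [sub_sub_cancel]
    have hk : Function.Periodic (fun x => F (x - s) * V x) (2 * π) := by
      intro x
      show F (x + 2 * π - s) * V (x + 2 * π) = F (x - s) * V x
      have e : x + 2 * π - s = (x - s) + 2 * π := by ring
      rw [e, pF, pV]
    have e3 : (∫ x in (0:ℝ)..(2 * π), F x * V (x + s)) =
        ∫ x in (0:ℝ)..(2 * π), F (x - s) * V x := by
      rw [← SC_shift hk s]
      refine intervalIntegral.integral_congr fun x _ => ?_
      show F x * V (x + s) = F (x + s - s) * V (x + s)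
      rw [add_sub_cancel_right]
    rw [e1, e2, e3]
  have hL : ∫ x in (0:ℝ)..(2 * π), F x * HT V x = 1 / (2 * π) * ∫ s in (0:ℝ)..π, R s := by
    have e1 : ∫ x in (0:ℝ)..(2 * π), F x * HT V x =
        1 / (2 * π) * ∫ x in (0:ℝ)..(2 * π), ∫ s in (0:ℝ)..π,
          F x * ((V (x - s) - V (x + s)) * ct s) := by
      rw [← intervalIntegral.integral_const_mul]
      refine intervalIntegral.integral_congr fun x _ => ?_
      show F x * (1 / (2 * π) * ∫ s in (0:ℝ)..π, (V (x - s) - V (x + s)) * ct s) =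
        1 / (2 * π) * ∫ s in (0:ℝ)..π, F x * ((V (x - s) - V (x + s)) * ct s)
      rw [intervalIntegral.integral_const_mul]
      ring
    rw [e1]
    congr 1
    rw [intervalIntegral_intervalIntegral_swap]
    · exact intervalIntegral.integral_congr fun s _ => hG s
    · have hm : Measurable (Function.uncurry fun x s =>
          F x * ((V (x - s) - V (x + s)) * ct s)) := by
        have h1 : Measurable (fun z : ℝ × ℝ => F z.1) := hF.comp measurable_fst
        have h2 : Measurable (fun z : ℝ × ℝ => V (z.1 - z.2)) :=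
          mV.comp (measurable_fst.sub measurable_snd)
        have h3 : Measurable (fun z : ℝ × ℝ => V (z.1 + z.2)) :=
          mV.comp (measurable_fst.add measurable_snd)
        have h4 : Measurable (fun z : ℝ × ℝ => ct z.2) := mct.comp measurable_snd
        exact h1.mul ((h2.sub h3).mul h4)
      refine Measure.integrableOn_of_bounded (M := B * (4 * K)) ?_ hm.aestronglyMeasurable ?_
      · rw [Measure.volume_eq_prod, Measure.prod_prod, uIoc_of_le h2p.le, uIoc_of_le hp.le,
          Real.volume_Ioc, Real.volume_Ioc]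
        exact ENNReal.mul_ne_top ENNReal.ofReal_ne_top ENNReal.ofReal_ne_top
      · refine (ae_restrict_iff' (measurableSet_uIoc.prod measurableSet_uIoc)).2
          (Filter.Eventually.of_forall fun z hz => ?_)
        have hz2 := hz.2
        rw [uIoc_of_le hp.le] at hz2
        show ‖F z.1 * ((V (z.1 - z.2) - V (z.1 + z.2)) * ct z.2)‖ ≤ B * (4 * K)
        rw [Real.norm_eq_abs, abs_mul]
        exact mul_le_mul (bF _) (HT_integrand_bound hV z.1 hz2.1 hz2.2) (abs_nonneg _) hB
  have hfin : ∫ z in Sq2, (F z.1 * V z.2 - F z.2 * V z.1) * ct (z.1 - z.2) =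
      ∫ s in (0:ℝ)..(2 * π), R s := by
    rw [SC_restrict]
    exact hsw
  rw [hL, hfin, hR2]
  field_simp
  ring

theorem SC_ct_bound {u : ℝ} (h : |u| ≤ π) : |u| * |ct u| ≤ 2 := by
  rcases lt_trichotomy u 0 with h0 | h0 | h0
  · rw [abs_of_neg h0] at h ⊢
    have h1 := cot_le (s := -u) (by linarith) h
    have h2 : ct (-u) = -ct u := SC_ct_neg u
    have h3 : |ct u| = ct (-u) := by
      rw [h2, abs_of_nonpos]
      have : 0 ≤ ct (-u) := h1.1
      linarith
    rw [h3]
    have h4 : ct (-u) ≤ 2 / (-u) := h1.2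
    rw [le_div_iff₀ (by linarith)] at h4
    linarith
  · rw [h0]
    simp
  · rw [abs_of_pos h0] at h ⊢
    have h1 := cot_le h0 h
    have h3 : |ct u| = ct u := abs_of_nonneg h1.1
    rw [h3]
    have h4 : ct u ≤ 2 / u := h1.2
    rw [le_div_iff₀ h0] at h4
    linarith

theorem HT_fubini_lip {F V : ℝ → ℝ} {K K' : ℝ} (hF : Lip K' F)
    (pF : Function.Periodic F (2 * π)) (pV : Function.Periodic V (2 * π)) (hV : Lip K V) :
    IntegrableOn (fun z : ℝ × ℝ => (F z.1 * V z.2 - F z.2 * V z.1) * ct (z.1 - z.2)) Sq2 := by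
  have hp := Real.pi_pos
  have h2p := SC_two_pi_pos
  have cV := hV.continuous
  have cF := hF.continuous
  have hK := hV.nonneg
  have hK' := hF.nonneg
  have mV := cV.measurable
  have mF := cF.measurable
  have mct := SC_ct_meas
  obtain ⟨CV, hCV⟩ := SC_bdd pV cV
  have hCV0 : 0 ≤ CV := (abs_nonneg _).trans (hCV 0)
  obtain ⟨CF, hCF⟩ := SC_bdd pF cF
  have hCF0 : 0 ≤ CF := (abs_nonneg _).trans (hCF 0)
  have hN : ∀ x y, |F x * V y - F y * V x| ≤ (K' * CV + CF * K) * |x - y| := by
    intro x y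
    have e : F x * V y - F y * V x = (F x - F y) * V y + F y * (V y - V x) := by ring
    rw [e]
    refine (abs_add_le _ _).trans ?_
    rw [abs_mul, abs_mul]
    have h1 : |F x - F y| * |V y| ≤ (K' * |x - y|) * CV :=
      mul_le_mul (hF x y) (hCV y) (abs_nonneg _) (by positivity)
    have h2 : |F y| * |V y - V x| ≤ CF * (K * |y - x|) :=
      mul_le_mul (hCF y) (hV y x) (abs_nonneg _) hCF0
    rw [abs_sub_comm y x] at h2
    linarith
  have hC0 : 0 ≤ K' * CV + CF * K := by positivity
  have hbd : ∀ x y, |x - y| ≤ π → |(F x * V y - F y * V x) * ct (x - y)| ≤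
      2 * (K' * CV + CF * K) := by
    intro x y hxy
    rw [abs_mul]
    calc |F x * V y - F y * V x| * |ct (x - y)|
        ≤ ((K' * CV + CF * K) * |x - y|) * |ct (x - y)| :=
          mul_le_mul_of_nonneg_right (hN x y) (abs_nonneg _)
      _ = (K' * CV + CF * K) * (|x - y| * |ct (x - y)|) := by ring
      _ ≤ (K' * CV + CF * K) * 2 := mul_le_mul_of_nonneg_left (SC_ct_bound hxy) hC0
      _ = 2 * (K' * CV + CF * K) := by ring
  have hm : Measurable (fun z : ℝ × ℝ => (F z.1 * V z.2 - F z.2 * V z.1) * ct (z.1 - z.2)) := by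
    have h1 : Measurable (fun z : ℝ × ℝ => F z.1) := mF.comp measurable_fst
    have h2 : Measurable (fun z : ℝ × ℝ => F z.2) := mF.comp measurable_snd
    have h3 : Measurable (fun z : ℝ × ℝ => V z.1) := mV.comp measurable_fst
    have h4 : Measurable (fun z : ℝ × ℝ => V z.2) := mV.comp measurable_snd
    have h5 : Measurable (fun z : ℝ × ℝ => ct (z.1 - z.2)) :=
      mct.comp (measurable_fst.sub measurable_snd)
    exact ((h1.mul h4).sub (h2.mul h3)).mul h5
  refine Measure.integrableOn_of_bounded (M := 2 * (K' * CV + CF * K)) ?_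
    hm.aestronglyMeasurable ?_
  · unfold Sq2
    rw [Measure.volume_eq_prod, Measure.prod_prod, Real.volume_Ioo]
    exact ENNReal.mul_ne_top ENNReal.ofReal_ne_top ENNReal.ofReal_ne_top
  · refine (ae_restrict_iff' (measurableSet_Ioo.prod measurableSet_Ioo)).2
      (Filter.Eventually.of_forall fun z hz => ?_)
    obtain ⟨⟨hx0, hx1⟩, ⟨hy0, hy1⟩⟩ := hz
    rw [Real.norm_eq_abs]
    rcases le_or_gt |z.1 - z.2| π with h | h
    · exact hbd _ _ h
    · rcases lt_abs.1 h with h' | h'
      · have h1 := hbd z.1 (z.2 + 2 * π) (by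
          rw [abs_le]
          constructor <;> linarith)
        have e : z.1 - z.2 = (z.1 - (z.2 + 2 * π)) + 2 * π := by ring
        rw [pV, pF] at h1
        rw [e, SC_ct_per]
        exact h1
      · have h1 := hbd (z.1 + 2 * π) z.2 (by
          rw [abs_le]
          constructor <;> linarith)
        have e : z.1 + 2 * π - z.2 = (z.1 - z.2) + 2 * π := by ring
        rw [pV, pF, e, SC_ct_per] at h1
        exact h1

end Pool.Agent.H51.DG
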