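import Mathlib

/-!
# Project DG2 (MP_64e98b_an, periodic De Gregorio model): basic definitions and the interface
between the local theory (helper45, helper58) and the a priori estimate (helper51).

* `HT f` is the periodic Hilbert transform in its absolutely convergent form for Lipschitz
  functions, `HT f x = (1/2π) ∫_0^π (f (x-s) - f (x+s)) cot(s/2) ds`; its Fourier coefficients are
  `-i sgn(k) f^(k)`.
* `Sol a b w u`: `w`, `u` form a smooth solution on the open time interval `(a,b)`, with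
  `∂ₓ u = HT w` and `u` of mean zero.
* `H1 f = ∫_0^{2π} f² + ∫_0^{2π} (f')²`.
* `APriori w0 T`: a bound `N` for `H1 (w t)`, `0 ≤ t < b ≤ T`, valid for all smooth solutions on
  `(a,b)`, `a < 0`, with initial value `w0`.

Local theory (file `Local.lean`, to be proved by helper45 and helper58):
  `global_of_apriori : smooth and periodic w0, APriori w0 T for every T > 0  →  for every T > 0
   there is a smooth solution on [0,T] in the format of the frozen statement S04879/S04880`.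
A priori estimate (helper51):
  `apriori : Good w0 → ∀ T > 0, APriori w0 T`.
-/

set_option autoImplicit false
open Real Set MeasureTheory

namespace Pool.Agent.H51.DG

/-- periodic Hilbert transform, absolutely convergent form -/
noncomputable def HT (f : ℝ → ℝ) (x : ℝ) : ℝ :=
  (1 / (2 * π)) * ∫ s in (0:ℝ)..π, (f (x - s) - f (x + s)) * (Real.cos (s / 2) / Real.sin (s / 2))

/-- `w`, `u` is a smooth solution of the periodic De Gregorio model on the time interval `(a,b)`;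
`u` is normalised to have mean zero -/
structure Sol (a b : ℝ) (w u : ℝ × ℝ → ℝ) : Prop where
  sw : ContDiffOn ℝ ((⊤ : ℕ∞) : WithTop ℕ∞) w (Ioo a b ×ˢ (univ : Set ℝ))
  su : ContDiffOn ℝ ((⊤ : ℕ∞) : WithTop ℕ∞) u (Ioo a b ×ˢ (univ : Set ℝ))
  pw : ∀ t ∈ Ioo a b, ∀ x : ℝ, w (t, x + 2 * π) = w (t, x)
  pu : ∀ t ∈ Ioo a b, ∀ x : ℝ, u (t, x + 2 * π) = u (t, x)
  hu : ∀ t ∈ Ioo a b, ∀ x : ℝ, deriv (fun y : ℝ => u (t, y)) x = HT (fun y : ℝ => w (t, y)) x
  mu : ∀ t ∈ Ioo a b, ∫ x in (0:ℝ)..(2 * π), u (t, x) = 0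
  pde : ∀ t ∈ Ioo a b, ∀ x : ℝ,
    deriv (fun s : ℝ => w (s, x)) t + u (t, x) * deriv (fun y : ℝ => w (t, y)) x =
      w (t, x) * deriv (fun y : ℝ => u (t, y)) x

/-- square of the `H^1` norm over one period -/
noncomputable def H1 (f : ℝ → ℝ) : ℝ :=
  (∫ x in (0:ℝ)..(2 * π), (f x) ^ 2) + ∫ x in (0:ℝ)..(2 * π), (deriv f x) ^ 2

/-- a priori bound of the `H^1` norm up to time `T` for smooth solutions with initial value `w0` -/
def APriori (w0 : ℝ → ℝ) (T : ℝ) : Prop :=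
  ∃ N : ℝ, ∀ (a b : ℝ) (w u : ℝ × ℝ → ℝ), a < 0 → 0 < b → b ≤ T → Sol a b w u →
    (∀ x : ℝ, w (0, x) = w0 x) → ∀ t ∈ Ico (0:ℝ) b, H1 (fun x => w (t, x)) ≤ N

/-- the class of initial data: smooth, 2π-periodic, mean zero, at most two sign changes per period:
`w0 ≤ 0` on `[e,c]` and `w0 ≥ 0` on `[c,e+2π]` (zeros inside the arcs are allowed) -/
structure Good (w0 : ℝ → ℝ) (e c : ℝ) : Prop where
  smooth : ContDiff ℝ ((⊤ : ℕ∞) : WithTop ℕ∞) w0
  per : Function.Periodic w0 (2 * π)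
  mean : ∫ x in (0:ℝ)..(2 * π), w0 x = 0
  hec : e < c
  hce : c < e + 2 * π
  neg : ∀ x ∈ Icc e c, w0 x ≤ 0
  pos : ∀ x ∈ Icc c (e + 2 * π), 0 ≤ w0 x

/-- the conclusion in the format of the frozen statement S04879 / S04880 -/
def GlobalSmooth (ω₀ : ℝ → ℝ) : Prop :=
  ∀ T : ℝ, 0 < T →
    ∃ ω u : ℝ × ℝ → ℝ,
      ContDiff ℝ ((⊤ : ℕ∞) : WithTop ℕ∞) ω ∧
      ContDiff ℝ ((⊤ : ℕ∞) : WithTop ℕ∞) u ∧
      (∀ t x : ℝ, ω (t, x + 2 * π) = ω (t, x)) ∧
      (∀ t x : ℝ, u (t, x + 2 * π) = u (t, x)) ∧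
      (∀ x : ℝ, ω (0, x) = ω₀ x) ∧
      (∀ t ∈ Set.Icc (0 : ℝ) T, ∀ k : ℤ,
        (∫ x in (0 : ℝ)..(2 * π),
            ((deriv (fun y : ℝ => u (t, y)) x : ℝ) : ℂ) *
              Complex.exp (-(k : ℂ) * (x : ℂ) * Complex.I)) =
          -Complex.I * ((Int.sign k : ℤ) : ℂ) *
            ∫ x in (0 : ℝ)..(2 * π),
              ((ω (t, x) : ℝ) : ℂ) * Complex.exp (-(k : ℂ) * (x : ℂ) * Complex.I)) ∧
      (∀ t ∈ Set.Icc (0 : ℝ) T, ∀ x : ℝ,
        deriv (fun s : ℝ => ω (s, x)) t + u (t, x) * deriv (fun y : ℝ => ω (t, y)) x =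
          ω (t, x) * deriv (fun y : ℝ => u (t, y)) x)

end Pool.Agent.H51.DG
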