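import Pool.Agent.H51.DG.Frm

/-!
# DG2: static functionals of a normalised function (definitions)

Base zero at `0`, the other zero at `l`; `W ≤ 0` on `[0,l]` (arc R), `W ≥ 0` on `[l,2π]` (arc L).
`dst l x` is the distance of `x ∈ (0,2π)` to the zero `0 ~ 2π` along the arc of `x`,
`ds2 l x` the distance to the zero `l` along the arc.
-/

set_option autoImplicit false
open Real Set MeasureTheory Filter Topology

namespace Pool.Agent.H51.DG

/-- weight `φ` -/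
noncomputable def ph (ξ : ℝ) : ℝ := if ξ ≤ π then 1 / (4 * Real.sin (ξ / 2) ^ 2) else 1 / 4

/-- derivative of `φ` -/
noncomputable def dph (ξ : ℝ) : ℝ :=
  if ξ ≤ π then -(Real.cos (ξ / 2) / (4 * Real.sin (ξ / 2) ^ 3)) else 0

/-- `V' = √φ` -/
noncomputable def vp (ξ : ℝ) : ℝ := if ξ ≤ π then 1 / (2 * Real.sin (ξ / 2)) else 1 / 2

/-- `V` -/
noncomputable def VV (ξ : ℝ) : ℝ := if ξ ≤ π then Real.log (Real.tan (ξ / 4)) else (ξ - π) / 2

noncomputable def dst (l x : ℝ) : ℝ := if x < l then x else 2 * π - x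

noncomputable def ds2 (l x : ℝ) : ℝ := if x < l then l - x else x - l

noncomputable def Phi (l x : ℝ) : ℝ := ph (dst l x)

noncomputable def dPhi (l x : ℝ) : ℝ := if x < l then dph x else -dph (2 * π - x)

/-- sign of `W` -/
noncomputable def sg (l x : ℝ) : ℝ := if x < l then -1 else 1

/-- velocity relative to the base zero -/
noncomputable def UU (W : ℝ → ℝ) (x : ℝ) : ℝ := ∫ y in (0:ℝ)..x, HT W y

noncomputable def FF (W : ℝ → ℝ) (l : ℝ) : ℝ :=
  ∫ x in (0:ℝ)..(2 * π), |W x| * (2 * HT W x * Phi l x + UU W x * dPhi l x)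

noncomputable def E2 (W : ℝ → ℝ) (l : ℝ) : ℝ :=
  -2 * ∫ x in (0:ℝ)..(2 * π), sg l x * deriv W x * HT (deriv W) x

noncomputable def Ma (W : ℝ → ℝ) : ℝ := ∫ x in (0:ℝ)..(2 * π), |W x|

noncomputable def QQ (W : ℝ → ℝ) (l : ℝ) : ℝ := ∫ x in (0:ℝ)..(2 * π), |W x| * vp (dst l x)

noncomputable def AA (W : ℝ → ℝ) (l : ℝ) : ℝ := ∫ x in (0:ℝ)..(2 * π), |W x| * vp (ds2 l x)

/-- length of the shorter arc -/
noncomputable def mn (l : ℝ) : ℝ := min l (2 * π - l)

/-- energy with both Hardy terms subtracted -/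
noncomputable def GG (W : ℝ → ℝ) (l : ℝ) : ℝ :=
  ∫ x in (0:ℝ)..(2 * π), ((deriv W x) ^ 2 / |W x| - |W x| * (ph (dst l x) + ph (ds2 l x)))

/-- normalised sign structure -/
structure Nrm (W : ℝ → ℝ) (l : ℝ) : Prop where
  per : Function.Periodic W (2 * π)
  l0 : 0 < l
  l1 : l < 2 * π
  neg : ∀ x ∈ Icc (0:ℝ) l, W x ≤ 0
  pos : ∀ x ∈ Icc l (2 * π), 0 ≤ W x

/-- Lipschitz bound in elementary form -/
def Lip (K : ℝ) (W : ℝ → ℝ) : Prop := ∀ x y, |W x - W y| ≤ K * |x - y|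

/-- normalised Lipschitz functions vanishing near `0` -/
structure Van (W : ℝ → ℝ) (l : ℝ) : Prop extends Nrm W l where
  lip : ∃ K, Lip K W
  van : ∃ δ : ℝ, 0 < δ ∧ ∀ x, |x| ≤ δ → W x = 0

end Pool.Agent.H51.DG
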