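import Pool.Agent.H51.DG.HE

/-!
# DG2 job HH: Hardy deficit, note 1390, section 2

`D_i = ∫ qq ≥ 0` (`HArc.qq_nonneg`), so by `D_le` each `D_i ≤ EG`, `0 ≤ EG`.  `m = mn l ≤ 2h` on every half
arc (`mn l ≤ l`, `mn l ≤ 2π - l`), `m ≤ π`.  `AA`: `AA_le_split`, `HArc.half_Q` for `w2`, `w3`, `Ma_split` (all
four masses are `≥ 0`).  `∫ (W')²`: `H1_split`, `half_H1` for the four half arcs (masses `≤ Ma`).
-/

set_option autoImplicit false
open Real Set MeasureTheory Filter Topology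

namespace Pool.Agent.H51.DG

theorem HH_mass {a : ℝ → ℝ} {h : ℝ} (H : HArc a h) : 0 ≤ ∫ t in (0:ℝ)..h, a t := by
  refine intervalIntegral.integral_nonneg H.h0.le fun x hx => H.nn x ⟨hx.1, ?_⟩
  have := hx.2
  have := H.h0
  linarith

theorem HH_def {a : ℝ → ℝ} {h : ℝ} (H : HArc a h) : 0 ≤ ∫ t in (0:ℝ)..h, qq a t :=
  intervalIntegral.integral_nonneg H.h0.le fun _ hx => H.qq_nonneg hx.1 hx.2

theorem HH_sq {x y X Y m C : ℝ} (hx : 0 ≤ x) (hy : 0 ≤ y) (hX : x ≤ X) (hY : y ≤ Y) (hm : 0 < m)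
    (hC : 0 < C) : C * (x / m ^ 2 + y) ^ 2 / m ≤ C * (X / m ^ 2 + Y) ^ 2 / m := by
  have h1 : x / m ^ 2 + y ≤ X / m ^ 2 + Y :=
    add_le_add (div_le_div_of_nonneg_right hX (by positivity)) hY
  have h2 : 0 ≤ x / m ^ 2 + y := by positivity
  have h3 : (x / m ^ 2 + y) ^ 2 ≤ (X / m ^ 2 + Y) ^ 2 := pow_le_pow_left₀ h2 h1 2
  exact div_le_div_of_nonneg_right (mul_le_mul_of_nonneg_left h3 hC.le) hm.le

theorem EG_bounds : ∃ C : ℝ, 0 < C ∧ ∀ (W : ℝ → ℝ) (l : ℝ), Nrm W l → ContDiff ℝ 2 W →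
    0 ≤ EG W l ∧ AA W l ≤ C * (Ma W / mn l + mn l * EG W l) ∧
    ∫ x in (0:ℝ)..(2 * π), (deriv W x) ^ 2 ≤ C * (Ma W / mn l ^ 2 + EG W l) ^ 2 / mn l := by
  obtain ⟨C1, hC1, hH⟩ := half_H1
  refine ⟨9 * π + 4 * C1, by positivity, fun W l h hs => ?_⟩
  obtain ⟨A1, A2, A3, A4⟩ := harcs h hs
  have l0 := h.l0
  have l1 := h.l1
  have hm : 0 < mn l := lt_min l0 (by linarith)
  have hml : mn l ≤ l := min_le_left _ _
  have hmr : mn l ≤ 2 * π - l := min_le_right _ _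
  have hmp : mn l ≤ π := by linarith
  have e1 : mn l ≤ 2 * (l / 2) := by linarith
  have e2 : mn l ≤ 2 * ((2 * π - l) / 2) := by linarith
  have m1 := HH_mass A1
  have m2 := HH_mass A2
  have m3 := HH_mass A3
  have m4 := HH_mass A4
  have d1 := HH_def A1
  have d2 := HH_def A2
  have d3 := HH_def A3
  have d4 := HH_def A4
  have hD := D_le h hs
  have hM := Ma_split h hs.continuous
  have hA := AA_le_split h hs
  have hS := H1_split h hs
  have q2 := A2.half_Q hm e1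
  have q3 := A3.half_Q hm e2
  have s1 := hH _ _ _ A1 hm e1 hmp
  have s2 := hH _ _ _ A2 hm e1 hmp
  have s3 := hH _ _ _ A3 hm e2 hmp
  have s4 := hH _ _ _ A4 hm e2 hmp
  generalize (∫ t in (0:ℝ)..(l / 2), w1 W t) = M1 at *
  generalize (∫ t in (0:ℝ)..(l / 2), w2 W l t) = M2 at *
  generalize (∫ t in (0:ℝ)..((2 * π - l) / 2), w3 W l t) = M3 at *
  generalize (∫ t in (0:ℝ)..((2 * π - l) / 2), w4 W t) = M4 at *
  generalize (∫ t in (0:ℝ)..(l / 2), qq (w1 W) t) = D1 at *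
  generalize (∫ t in (0:ℝ)..(l / 2), qq (w2 W l) t) = D2 at *
  generalize (∫ t in (0:ℝ)..((2 * π - l) / 2), qq (w3 W l) t) = D3 at *
  generalize (∫ t in (0:ℝ)..((2 * π - l) / 2), qq (w4 W) t) = D4 at *
  generalize hG : EG W l = G at *
  generalize hMM : Ma W = M at *
  generalize mn l = m at *
  have hG0 : 0 ≤ G := by linarith
  have hM0 : 0 ≤ M := by linarith
  have hpi := Real.pi_pos
  refine ⟨hG0, ?_, ?_⟩
  · have f1 : π / m * (M1 + M4) ≤ 9 * π * (M1 + M4) / m := by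
      rw [div_mul_eq_mul_div]
      refine div_le_div_of_nonneg_right ?_ hm.le
      nlinarith [mul_nonneg hpi.le (add_nonneg m1 m4)]
    have f2 : AA W l ≤ 9 * π * (M1 + M4) / m + 9 * π * M2 / m + 9 * π * M3 / m + m * (D2 + D3) := by
      nlinarith [hA, q2, q3, f1]
    have f3 : 9 * π * (M1 + M4) / m + 9 * π * M2 / m + 9 * π * M3 / m = 9 * π * (M / m) := by
      rw [hM]; ring
    have f4 : m * (D2 + D3) ≤ m * G := mul_le_mul_of_nonneg_left (by linarith) hm.le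
    have f5 : 0 ≤ M / m := by positivity
    have f6 : 0 ≤ m * G := by positivity
    have f7 : (1:ℝ) ≤ 9 * π := by nlinarith [Real.pi_gt_three]
    have f8 : (9 * π) * (M / m) + m * G ≤ (9 * π + 4 * C1) * (M / m + m * G) := by
      have g1 : 0 ≤ 4 * C1 * (M / m + m * G) := by positivity
      have g2 : m * G ≤ 9 * π * (m * G) := by nlinarith
      nlinarith
    linarith [f2, f3, f4, f8]
  · have t1 := s1.trans (HH_sq m1 d1 (by linarith : M1 ≤ M) (by linarith : D1 ≤ G) hm hC1)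
    have t2 := s2.trans (HH_sq m2 d2 (by linarith : M2 ≤ M) (by linarith : D2 ≤ G) hm hC1)
    have t3 := s3.trans (HH_sq m3 d3 (by linarith : M3 ≤ M) (by linarith : D3 ≤ G) hm hC1)
    have t4 := s4.trans (HH_sq m4 d4 (by linarith : M4 ≤ M) (by linarith : D4 ≤ G) hm hC1)
    have g0 : 0 ≤ (M / m ^ 2 + G) ^ 2 / m := by positivity
    have g1 : C1 * (M / m ^ 2 + G) ^ 2 / m = C1 * ((M / m ^ 2 + G) ^ 2 / m) := by ring
    have g2 : (9 * π + 4 * C1) * (M / m ^ 2 + G) ^ 2 / m =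
        9 * π * ((M / m ^ 2 + G) ^ 2 / m) + 4 * (C1 * ((M / m ^ 2 + G) ^ 2 / m)) := by ring
    have g3 : 0 ≤ 9 * π * ((M / m ^ 2 + G) ^ 2 / m) := by positivity
    rw [hS, g2]
    rw [g1] at t1 t2 t3 t4
    linarith

end Pool.Agent.H51.DG
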