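import Pool.Agent.H51.DG.SB
import Pool.Agent.H51.DG.SJ
import Pool.Agent.H51.DG.RF

/-!
# DG2 job VB: lower bound of the velocity near the base zero

`UU W x = (1/π) ∫_0^{2π} W y (log|sin((x-y)/2)| - log|sin(y/2)|) dy` (`log_kernel`, `log_sin_integrable`),
`0 < x ≤ l/2` (`< π`).  Pointwise lower bounds of the integrand, for `y ∈ (0,2π)`:
* `y < l` (`W y = -|W y|`): `|sin((x-y)/2)| ≤ sin(x/2) + sin(y/2)`, `log(1+s) ≤ s`, so the integrand is
  `≥ -|W y| sin(x/2)/sin(y/2)` (also if `x = y`, where Lean's `log 0 = 0`, or a.e.); for `y ≤ π`: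
  `1/sin(y/2) = 2 vp (dst l y)`; for `π < y < l`: `sin(y/2) = sin((2π-y)/2) ≥ sin((2π-l)/2) ≥ mn l/π`;
* `y ≥ l` (`W y = |W y|`): `θ = y/2 ∈ (0,π)`, `(y-x)/2 ∈ [θ/2, θ]`, and `sin ≥ (sin θ)/2` on `[θ/2,θ]`
  (concavity, `sin θ ≤ 2 sin(θ/2)`), so `r = sin((y-x)/2)/sin(y/2) ≥ 1/2`; moreover
  `r = cos(x/2) - cot(y/2) sin(x/2)`, `1 - r ≤ sin(x/2) (1 + 2/l)` (`1 - cos(x/2) ≤ sin(x/2)`,
  `cot(y/2) ≤ 2/y ≤ 2/l` if `y ≤ π`, `≤ 0` if `y ≥ π`), `log r ≥ 1 - 1/r ≥ -2 max(1-r,0)`, so the
  integrand is `≥ -2 |W y| sin(x/2) (1 + 2/l)`, `1 ≤ π/mn l`, `1/l ≤ 1/mn l`.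
Sum: `UU W x ≥ -(1/π) sin(x/2) (2 QQ + (π + 2π + 4) Ma/mn) ≥ -5 sin(x/2) (QQ + Ma/mn)`.
The second statement is the first for `rf W`, `2π - l` (`UU_rf`, `QQ_rf`, `Ma_rf`, `mn_rf`, `Nrm.rf`).
-/

set_option autoImplicit false
open Real Set MeasureTheory Filter Topology

namespace Pool.Agent.H51.DG

/-- the R side: `y < l` -/
private theorem VB_R {l x y : ℝ} (hl1 : l < 2 * π) (h0 : 0 < x) (h1 : x ≤ l / 2) (hy0 : 0 < y)
    (hyl : y < l) (hne : y ≠ x) :
    Real.log (Real.sin ((x - y) / 2)) - Real.log (Real.sin (y / 2)) ≤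
      5 * π * Real.sin (x / 2) * (vp (dst l y) + 1 / mn l) := by
  have hpi := Real.pi_pos
  have hs : 0 < Real.sin (x / 2) := Real.sin_pos_of_pos_of_lt_pi (by linarith) (by linarith)
  have hsy : 0 < Real.sin (y / 2) := Real.sin_pos_of_pos_of_lt_pi (by linarith) (by linarith)
  have hmn : 0 < mn l := lt_min (by linarith) (by linarith)
  have hd : Real.sin ((x - y) / 2) ≠ 0 := by
    intro h
    have h2 := (Real.sin_eq_zero_iff_of_lt_of_lt (by linarith) (by linarith)).1 h
    apply hne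
    linarith
  have hda : 0 < |Real.sin ((x - y) / 2)| := abs_pos.2 hd
  have h2 : Real.log (Real.sin ((x - y) / 2)) - Real.log (Real.sin (y / 2)) ≤
      |Real.sin ((x - y) / 2)| / Real.sin (y / 2) - 1 := by
    rw [← Real.log_abs (Real.sin ((x - y) / 2)), ← Real.log_div hda.ne' hsy.ne']
    exact Real.log_le_sub_one_of_pos (div_pos hda hsy)
  have h3 : |Real.sin ((x - y) / 2)| ≤ Real.sin (x / 2) + Real.sin (y / 2) := by
    rw [show (x - y) / 2 = x / 2 - y / 2 by ring, Real.sin_sub]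
    calc |Real.sin (x / 2) * Real.cos (y / 2) - Real.cos (x / 2) * Real.sin (y / 2)|
        ≤ |Real.sin (x / 2) * Real.cos (y / 2)| + |Real.cos (x / 2) * Real.sin (y / 2)| :=
          abs_sub _ _
      _ ≤ Real.sin (x / 2) * 1 + 1 * Real.sin (y / 2) := by
          rw [abs_mul, abs_mul, abs_of_pos hs, abs_of_pos hsy]
          have := Real.abs_cos_le_one (x / 2)
          have := Real.abs_cos_le_one (y / 2)
          gcongr
      _ = _ := by ring
  have h4 : |Real.sin ((x - y) / 2)| / Real.sin (y / 2) - 1 ≤ Real.sin (x / 2) / Real.sin (y / 2) := by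
    have h5 : |Real.sin ((x - y) / 2)| / Real.sin (y / 2) ≤
        (Real.sin (x / 2) + Real.sin (y / 2)) / Real.sin (y / 2) := by gcongr
    rw [add_div, div_self hsy.ne'] at h5
    linarith
  have hdst : dst l y = y := if_pos hyl
  have hvp0 : 0 ≤ vp (dst l y) := by
    rw [hdst]
    unfold vp
    split_ifs
    · positivity
    · norm_num
  have hinv : 0 < 1 / mn l := by positivity
  refine (h2.trans h4).trans ?_
  rcases le_or_gt y π with hy | hy
  · have h6 : Real.sin (x / 2) / Real.sin (y / 2) = 2 * Real.sin (x / 2) * vp (dst l y) := by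
      rw [hdst]
      unfold vp
      rw [if_pos hy]
      field_simp
    rw [h6]
    have h7 : (2:ℝ) ≤ 5 * π := by linarith [Real.pi_gt_three]
    calc 2 * Real.sin (x / 2) * vp (dst l y) ≤ 5 * π * Real.sin (x / 2) * vp (dst l y) := by
          gcongr
      _ ≤ _ := by
          apply mul_le_mul_of_nonneg_left _ (by positivity)
          linarith
  · have h6 : mn l / π ≤ Real.sin (y / 2) := by
      have h7 : Real.sin (y / 2) = Real.sin ((2 * π - y) / 2) := by
        rw [show (2 * π - y) / 2 = π - y / 2 by ring, Real.sin_pi_sub]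
      have h8 := Real.mul_le_sin (x := (2 * π - y) / 2) (by linarith) (by linarith)
      rw [h7]
      refine le_trans ?_ h8
      have h9 : mn l ≤ 2 * π - y := (min_le_right _ _).trans (by linarith)
      calc mn l / π ≤ (2 * π - y) / π := by gcongr
        _ = 2 / π * ((2 * π - y) / 2) := by ring
    calc Real.sin (x / 2) / Real.sin (y / 2) ≤ Real.sin (x / 2) / (mn l / π) := by gcongr
      _ = π * Real.sin (x / 2) * (1 / mn l) := by field_simp
      _ ≤ 5 * π * Real.sin (x / 2) * (1 / mn l) := by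
          gcongr
          linarith
      _ ≤ _ := by
          apply mul_le_mul_of_nonneg_left _ (by positivity)
          linarith

/-- the L side: `l ≤ y` -/
private theorem VB_L {l x y : ℝ} (h0 : 0 < x) (h1 : x ≤ l / 2)
    (hyl : l ≤ y) (hy1 : y < 2 * π) :
    -(5 * π * Real.sin (x / 2) * (vp (dst l y) + 1 / mn l)) ≤
      Real.log (Real.sin ((x - y) / 2)) - Real.log (Real.sin (y / 2)) := by
  have hpi := Real.pi_pos
  have hl0 : 0 < l := by linarith
  have hs : 0 < Real.sin (x / 2) := Real.sin_pos_of_pos_of_lt_pi (by linarith) (by linarith)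
  have hsy : 0 < Real.sin (y / 2) := Real.sin_pos_of_pos_of_lt_pi (by linarith) (by linarith)
  have hmn : 0 < mn l := lt_min (by linarith) (by linarith)
  have hinv : 0 < 1 / mn l := by positivity
  have hu : 0 < Real.sin ((y - x) / 2) :=
    Real.sin_pos_of_pos_of_lt_pi (by linarith) (by linarith)
  have e : Real.log (Real.sin ((x - y) / 2)) = Real.log (Real.sin ((y - x) / 2)) := by
    rw [show (x - y) / 2 = -((y - x) / 2) by ring, Real.sin_neg, Real.log_neg_eq_log]
  have h2 : Real.log (Real.sin (y / 2)) - Real.log (Real.sin ((y - x) / 2)) ≤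
      Real.sin (y / 2) / Real.sin ((y - x) / 2) - 1 := by
    rw [← Real.log_div hsy.ne' hu.ne']
    exact Real.log_le_sub_one_of_pos (div_pos hsy hu)
  have h3 : Real.sin (y / 2) ≤ Real.sin ((y - x) / 2) +
      Real.sin (x / 2) * Real.cos ((y - x) / 2) := by
    have h4 : Real.sin (y / 2) = Real.sin ((y - x) / 2) * Real.cos (x / 2) +
        Real.cos ((y - x) / 2) * Real.sin (x / 2) := by
      rw [← Real.sin_add]
      congr 1
      ring
    rw [h4]
    have h5 : Real.sin ((y - x) / 2) * Real.cos (x / 2) ≤ Real.sin ((y - x) / 2) * 1 :=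
      mul_le_mul_of_nonneg_left (Real.cos_le_one _) hu.le
    linarith
  have h4 : Real.sin (y / 2) / Real.sin ((y - x) / 2) - 1 ≤
      Real.sin (x / 2) * (Real.cos ((y - x) / 2) / Real.sin ((y - x) / 2)) := by
    have h5 : Real.sin (y / 2) / Real.sin ((y - x) / 2) ≤
        (Real.sin ((y - x) / 2) + Real.sin (x / 2) * Real.cos ((y - x) / 2)) /
          Real.sin ((y - x) / 2) := by gcongr
    rw [add_div, div_self hu.ne', mul_div_assoc] at h5
    linarith
  have h5 : Real.cos ((y - x) / 2) / Real.sin ((y - x) / 2) ≤ 4 / l := by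
    rcases le_or_gt (y - x) π with h | h
    · refine (cot_le (s := y - x) (by linarith) h).2.trans ?_
      have h6 : l / 2 ≤ y - x := by linarith
      calc 2 / (y - x) ≤ 2 / (l / 2) := by gcongr
        _ = 4 / l := by
          field_simp
          norm_num
    · have h6 : Real.cos ((y - x) / 2) ≤ 0 :=
        Real.cos_nonpos_of_pi_div_two_le_of_le (by linarith) (by linarith)
      have h7 : Real.cos ((y - x) / 2) / Real.sin ((y - x) / 2) ≤ 0 :=
        div_nonpos_of_nonpos_of_nonneg h6 hu.le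
      exact h7.trans (by positivity)
  have hvp0 : 0 ≤ vp (dst l y) := by
    have hdst : dst l y = 2 * π - y := if_neg (not_lt.2 hyl)
    rw [hdst]
    unfold vp
    split_ifs
    · have : 0 < Real.sin ((2 * π - y) / 2) :=
        Real.sin_pos_of_pos_of_lt_pi (by linarith) (by linarith)
      positivity
    · norm_num
  have h6 : 4 / l ≤ 5 * π * (1 / mn l) := by
    have h7 : 4 / l ≤ 4 / mn l := by
      gcongr
      exact min_le_left _ _
    have h8 : 4 / mn l = 4 * (1 / mn l) := by ring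
    rw [h8] at h7
    have h9 : 4 * (1 / mn l) ≤ 5 * π * (1 / mn l) := by
      gcongr
      linarith [Real.pi_gt_three]
    linarith
  have h7 : Real.sin (x / 2) * (Real.cos ((y - x) / 2) / Real.sin ((y - x) / 2)) ≤
      5 * π * Real.sin (x / 2) * (vp (dst l y) + 1 / mn l) := by
    calc Real.sin (x / 2) * (Real.cos ((y - x) / 2) / Real.sin ((y - x) / 2))
        ≤ Real.sin (x / 2) * (5 * π * (1 / mn l)) :=
          mul_le_mul_of_nonneg_left (h5.trans h6) hs.le
      _ = 5 * π * Real.sin (x / 2) * (1 / mn l) := by ring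
      _ ≤ _ := by
          apply mul_le_mul_of_nonneg_left _ (by positivity)
          linarith
  rw [e]
  linarith

private theorem VB_point {W : ℝ → ℝ} {l : ℝ} (h : Nrm W l) {x y : ℝ} (h0 : 0 < x)
    (h1 : x ≤ l / 2) (hy0 : 0 < y) (hy1 : y < 2 * π) (hne : y ≠ x) :
    -(5 * π * Real.sin (x / 2)) * (|W y| * vp (dst l y) + |W y| * (1 / mn l)) ≤
      W y * (Real.log (Real.sin ((x - y) / 2)) - Real.log (Real.sin (y / 2))) := by
  rcases lt_or_ge y l with hyl | hyl
  · have hW : W y ≤ 0 := h.neg y ⟨hy0.le, hyl.le⟩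
    have h2 := VB_R h.l1 h0 h1 hy0 hyl hne
    rw [abs_of_nonpos hW]
    have h3 := mul_le_mul_of_nonpos_left h2 hW
    linarith
  · have hW : 0 ≤ W y := h.pos y ⟨hyl, hy1.le⟩
    have h2 := VB_L h0 h1 hyl hy1
    rw [abs_of_nonneg hW]
    have h3 := mul_le_mul_of_nonneg_left h2 hW
    linarith

private theorem VB_log_int (a b : ℝ) :
    IntervalIntegrable (fun y => Real.log (Real.sin (y / 2))) volume a b := by
  have h := log_sin_integrable 0 a b
  refine h.congr ?_
  intro y _
  show Real.log (Real.sin ((0 - y) / 2)) = Real.log (Real.sin (y / 2))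
  rw [show (0 - y) / 2 = -(y / 2) by ring, Real.sin_neg, Real.log_neg_eq_log]

theorem UU_ge {W : ℝ → ℝ} {l K : ℝ} (h : Nrm W l) (hK : Lip K W) {x : ℝ} (h0 : 0 < x)
    (h1 : x ≤ l / 2) :
    -(5 * Real.sin (x / 2) * (QQ W l + Ma W / mn l)) ≤ UU W x := by
  have hpi := Real.pi_pos
  have hW := hK.continuous
  have hi1 : IntervalIntegrable (fun y => W y * (Real.log (Real.sin ((x - y) / 2)) -
      Real.log (Real.sin (y / 2)))) volume 0 (2 * π) :=
    ((log_sin_integrable x 0 (2 * π)).sub (VB_log_int 0 (2 * π))).continuousOn_mul hW.continuousOn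
  have hi2 := QQ_integrable h hK
  have hi3 : IntervalIntegrable (fun y => |W y| * (1 / mn l)) volume 0 (2 * π) :=
    (hW.abs.mul continuous_const).intervalIntegrable _ _
  have hi4 := (hi2.add hi3).const_mul (-(5 * π * Real.sin (x / 2)))
  have hne : ∀ a : ℝ, ∀ᵐ y : ℝ, y ≠ a := by
    intro a
    have : ({a} : Set ℝ)ᶜ ∈ ae (volume : Measure ℝ) := compl_mem_ae_iff.2 (measure_singleton a)
    exact this
  have hmono := intervalIntegral.integral_mono_ae_restrict (μ := volume) (a := 0) (b := 2 * π)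
    (by positivity) hi4 hi1 (by
      have hae : ∀ᵐ y : ℝ, y ∈ Icc (0:ℝ) (2 * π) →
          -(5 * π * Real.sin (x / 2)) * (|W y| * vp (dst l y) + |W y| * (1 / mn l)) ≤
          W y * (Real.log (Real.sin ((x - y) / 2)) - Real.log (Real.sin (y / 2))) := by
        filter_upwards [hne 0, hne (2 * π), hne x] with y hy1 hy2 hy3 hy
        exact VB_point h h0 h1 (lt_of_le_of_ne hy.1 (Ne.symm hy1)) (lt_of_le_of_ne hy.2 hy2) hy3
      exact (ae_restrict_iff' measurableSet_Icc).2 hae)
  rw [intervalIntegral.integral_const_mul] at hmono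
  have hadd : (∫ y in (0:ℝ)..(2 * π), (|W y| * vp (dst l y) + |W y| * (1 / mn l))) =
      QQ W l + Ma W / mn l := by
    rw [intervalIntegral.integral_add hi2 hi3, intervalIntegral.integral_mul_const]
    unfold QQ Ma
    ring
  have hmono' : -(5 * π * Real.sin (x / 2)) * (QQ W l + Ma W / mn l) ≤
      ∫ y in (0:ℝ)..(2 * π), W y * (Real.log (Real.sin ((x - y) / 2)) -
      Real.log (Real.sin (y / 2))) := by
    rw [← hadd]
    exact hmono
  rw [log_kernel h.per hK x]
  have h5 := mul_le_mul_of_nonneg_left hmono' (by positivity : 0 ≤ 1 / π)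
  refine le_trans (le_of_eq ?_) h5
  field_simp

theorem UU_le_neg {W : ℝ → ℝ} {l K : ℝ} (h : Nrm W l) (hK : Lip K W) {x : ℝ} (h0 : 0 < x)
    (h1 : x ≤ (2 * π - l) / 2) :
    UU W (-x) ≤ 5 * Real.sin (x / 2) * (QQ W l + Ma W / mn l) := by
  have h2 := UU_ge h.rf hK.rf h0 h1
  rw [UU_rf, QQ_rf h, Ma_rf h.per, mn_rf] at h2
  linarith

end Pool.Agent.H51.DG
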