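import Pool.Agent.H51.DG.SB
import Pool.Agent.H51.DG.SJ
import Pool.Agent.H51.DG.RF

/-!
# DG2 job VC: the relative velocity of the two zeros

`UU W l = (1/π) ∫_0^{2π} W y (log|sin((l-y)/2)| - log|sin(y/2)|) dy` (`log_kernel`).  Pointwise:
* `y < l` (`W y = -|W y|`): `sin((l-y)/2) ≤ sin(l/2) + sin(y/2)` (all in `(0,π)`), so the integrand is
  `≥ -|W y| sin(l/2)/sin(y/2) ≥ -|W y| (l/2)/sin(y/2)`; if `y ≤ π` then `1/sin(y/2) = 2 vp (dst l y)`;
  if `π < y < l` then `sin(y/2) = sin((2π-y)/2) ≥ sin((l-y)/2)` and `1/sin((l-y)/2) = 2 vp (ds2 l y)`;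
  so it is `≥ -l |W y| (vp (dst l y) + vp (ds2 l y))` (`vp ≥ 0`);
* `y > l` (`W y = |W y|`): `sin(y/2)/sin((y-l)/2) = cos(l/2) + cot((y-l)/2) sin(l/2)
  ≤ 1 + (l/2) max (cot((y-l)/2)) 0 ≤ 1 + l vp (ds2 l y)`, `log(1+s) ≤ s`, so the integrand is
  `≥ -l |W y| vp (ds2 l y)`.
Hence `UU W l ≥ -(1/π) l (QQ + 2 AA) ≥ -l (QQ + AA)`.  The second inequality is the first for `rf W`,
`2π - l`: `UU (rf W) (2π-l) = -UU W (l - 2π) = -UU W l` (`UU_rf`, `UU_per`, `QQ_rf`, `AA_rf`).
`AA_integrable`: as `QQ_integrable`: `|W y| ≤ K |y-l|`, `x/(2 sin(x/2)) ≤ π/2` on `(0,π]`, `vp = 1/2`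
beyond; measurability of `vp (ds2 l ·)` from the definition.
-/

set_option autoImplicit false
open Real Set MeasureTheory Filter Topology

namespace Pool.Agent.H51.DG

private theorem VC_vp_meas : Measurable vp := by
  unfold vp
  refine Measurable.ite measurableSet_Iic ?_ measurable_const
  fun_prop

private theorem VC_ds2_meas (l : ℝ) : Measurable (ds2 l) := by
  unfold ds2
  exact Measurable.ite measurableSet_Iio (by fun_prop) (by fun_prop)

private theorem VC_ds2_abs (l x : ℝ) : ds2 l x = |x - l| := by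
  unfold ds2
  split_ifs with h
  · rw [abs_of_neg (by linarith)]; ring
  · rw [abs_of_nonneg (by linarith)]

private theorem VC_vp_nonneg {ξ : ℝ} (h0 : 0 ≤ ξ) : 0 ≤ vp ξ := by
  unfold vp
  split_ifs with h
  · have := Real.sin_nonneg_of_nonneg_of_le_pi (x := ξ / 2) (by linarith) (by linarith [Real.pi_pos])
    positivity
  · norm_num

private theorem VC_mul_vp {ξ : ℝ} (h0 : 0 ≤ ξ) (h1 : ξ ≤ 2 * π) : ξ * vp ξ ≤ π := by
  have hpi := Real.pi_pos
  unfold vp
  split_ifs with h
  · rcases h0.eq_or_lt with h2 | h2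
    · rw [← h2]; simp [hpi.le]
    · have h3 := Real.mul_le_sin (x := ξ / 2) (by linarith) (by linarith)
      have h4 : 2 / π * (ξ / 2) = ξ / π := by ring
      rw [h4, div_le_iff₀ hpi] at h3
      have h5 : 0 < Real.sin (ξ / 2) :=
        Real.sin_pos_of_pos_of_lt_pi (by linarith) (by linarith)
      rw [mul_one_div, div_le_iff₀ (by positivity)]
      nlinarith
  · linarith

private theorem VC_dst_nonneg {l x : ℝ} (h0 : 0 ≤ x) (h1 : x ≤ 2 * π) : 0 ≤ dst l x := by
  unfold dst
  split_ifs with h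
  · exact h0
  · linarith

theorem AA_integrable {W : ℝ → ℝ} {l K : ℝ} (h : Nrm W l) (hK : Lip K W) :
    IntervalIntegrable (fun x => |W x| * vp (ds2 l x)) volume 0 (2 * π) := by
  have hpi := Real.pi_pos
  have hK0 := hK.nonneg
  rw [intervalIntegrable_iff_integrableOn_Ioc_of_le (by linarith)]
  refine Measure.integrableOn_of_bounded (M := K * π)
    (by rw [Real.volume_Ioc]; exact ENNReal.ofReal_ne_top) ?_ ?_
  · have h1 : Measurable fun x => vp (ds2 l x) := VC_vp_meas.comp (VC_ds2_meas l)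
    have h2 : Measurable W := hK.continuous.measurable
    exact (h2.abs.mul h1).aestronglyMeasurable
  · refine (ae_restrict_iff' measurableSet_Ioc).2 (Filter.Eventually.of_forall ?_)
    intro x hx
    have h3 : |W x| ≤ K * |x - l| := by
      have h4 := hK x l
      rwa [h.zero.2, sub_zero] at h4
    have h5 : |x - l| ≤ 2 * π := by
      rw [abs_le]
      constructor <;> linarith [hx.1, hx.2, h.l0, h.l1]
    have h6 := VC_mul_vp (abs_nonneg (x - l)) h5
    have h7 := VC_vp_nonneg (abs_nonneg (x - l))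
    rw [Real.norm_eq_abs, VC_ds2_abs, abs_mul, abs_abs, abs_of_nonneg h7]
    calc |W x| * vp |x - l| ≤ (K * |x - l|) * vp |x - l| := mul_le_mul_of_nonneg_right h3 h7
      _ = K * (|x - l| * vp |x - l|) := by ring
      _ ≤ K * π := mul_le_mul_of_nonneg_left h6 hK0

/-- `y < l` -/
private theorem VC_log1 {l y : ℝ} (h0 : 0 < y) (h1 : y < l) (h2 : l < 2 * π) :
    Real.log (Real.sin ((l - y) / 2)) - Real.log (Real.sin (y / 2)) ≤ l * vp y := by
  have hpi := Real.pi_pos
  have s1 : 0 < Real.sin ((l - y) / 2) :=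
    Real.sin_pos_of_pos_of_lt_pi (by linarith) (by linarith)
  have s2 : 0 < Real.sin (y / 2) := Real.sin_pos_of_pos_of_lt_pi (by linarith) (by linarith)
  have s3 : 0 < Real.sin (l / 2) := Real.sin_pos_of_pos_of_lt_pi (by linarith) (by linarith)
  rcases le_or_gt y π with h3 | h3
  · rw [← Real.log_div s1.ne' s2.ne']
    have h4 : Real.sin ((l - y) / 2) ≤ Real.sin (l / 2) + Real.sin (y / 2) := by
      rw [show (l - y) / 2 = l / 2 - y / 2 by ring, Real.sin_sub]
      have c1 := Real.cos_le_one (y / 2)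
      have c2 := Real.neg_one_le_cos (l / 2)
      nlinarith
    have h5 : Real.sin (l / 2) ≤ l / 2 := Real.sin_le (by linarith)
    have h6 := Real.log_le_sub_one_of_pos (div_pos s1 s2)
    have h7 : vp y = 1 / (2 * Real.sin (y / 2)) := by unfold vp; rw [if_pos h3]
    rw [h7]
    refine h6.trans ?_
    rw [mul_one_div, div_sub_one s2.ne', div_le_div_iff₀ s2 (by positivity)]
    nlinarith
  · have h4 : Real.sin ((l - y) / 2) ≤ Real.sin (y / 2) := by
      rw [← Real.sin_pi_sub (y / 2)]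
      apply Real.sin_le_sin_of_le_of_le_pi_div_two <;> linarith
    have h5 := Real.log_le_log s1 h4
    have h6 := mul_nonneg (h0.trans h1).le (VC_vp_nonneg h0.le)
    linarith

/-- `y > l` -/
private theorem VC_log2 {l y : ℝ} (h0 : 0 < l) (h1 : l < y) (h2 : y < 2 * π) :
    Real.log (Real.sin (y / 2)) - Real.log (Real.sin ((l - y) / 2)) ≤ l * vp (y - l) := by
  have hpi := Real.pi_pos
  have s1 : 0 < Real.sin ((y - l) / 2) :=
    Real.sin_pos_of_pos_of_lt_pi (by linarith) (by linarith)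
  have s2 : 0 < Real.sin (y / 2) := Real.sin_pos_of_pos_of_lt_pi (by linarith) (by linarith)
  have s3 : 0 < Real.sin (l / 2) := Real.sin_pos_of_pos_of_lt_pi (by linarith) (by linarith)
  have e1 : Real.log (Real.sin ((l - y) / 2)) = Real.log (Real.sin ((y - l) / 2)) := by
    rw [show (l - y) / 2 = -((y - l) / 2) by ring, Real.sin_neg, Real.log_neg_eq_log]
  rw [e1, ← Real.log_div s2.ne' s1.ne']
  refine (Real.log_le_sub_one_of_pos (div_pos s2 s1)).trans ?_
  have e2 : Real.sin (y / 2) = Real.sin ((y - l) / 2) * Real.cos (l / 2) +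
      Real.cos ((y - l) / 2) * Real.sin (l / 2) := by
    rw [← Real.sin_add]
    congr 1
    ring
  have c1 := Real.cos_le_one (l / 2)
  have c2 := Real.cos_le_one ((y - l) / 2)
  have h5 : Real.sin (l / 2) ≤ l / 2 := Real.sin_le (by linarith)
  rcases le_or_gt (y - l) π with h3 | h3
  · have h7 : vp (y - l) = 1 / (2 * Real.sin ((y - l) / 2)) := by unfold vp; rw [if_pos h3]
    rw [h7, mul_one_div, div_sub_one s1.ne', div_le_div_iff₀ s1 (by positivity), e2]
    nlinarith [mul_nonneg s1.le (sub_nonneg.2 c1), mul_nonneg s3.le (sub_nonneg.2 c2)]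
  · have c3 : Real.cos ((y - l) / 2) ≤ 0 :=
      Real.cos_nonpos_of_pi_div_two_le_of_le (by linarith) (by linarith)
    have h6 := mul_nonneg h0.le (VC_vp_nonneg (ξ := y - l) (by linarith))
    refine le_trans ?_ h6
    rw [sub_nonpos, div_le_one s1, e2]
    nlinarith [mul_nonneg s1.le (sub_nonneg.2 c1), mul_nonneg s3.le (neg_nonneg.2 c3)]

private theorem VC_pt {W : ℝ → ℝ} {l : ℝ} (h : Nrm W l) {y : ℝ} (h0 : 0 < y) (h1 : y < 2 * π) :
    -(l * (|W y| * vp (dst l y) + |W y| * vp (ds2 l y))) ≤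
      W y * (Real.log (Real.sin ((l - y) / 2)) - Real.log (Real.sin (y / 2))) := by
  have hl0 := h.l0
  have n1 : 0 ≤ |W y| * vp (dst l y) := mul_nonneg (abs_nonneg _) (VC_vp_nonneg (VC_dst_nonneg h0.le h1.le))
  have n2 : 0 ≤ |W y| * vp (ds2 l y) := by
    rw [VC_ds2_abs]
    exact mul_nonneg (abs_nonneg _) (VC_vp_nonneg (abs_nonneg _))
  rcases lt_trichotomy y l with hy | hy | hy
  · have h2 := h.neg y ⟨h0.le, hy.le⟩
    have h3 := VC_log1 h0 hy h.l1
    have h4 : dst l y = y := by unfold dst; rw [if_pos hy]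
    have h5 := mul_le_mul_of_nonneg_left h3 (neg_nonneg.2 h2)
    have h6 : |W y| * vp (dst l y) = -W y * vp y := by rw [h4, abs_of_nonpos h2]
    have h7 := mul_nonneg hl0.le n2
    rw [h6]
    nlinarith
  · rw [hy, h.zero.2]
    simp
  · have h2 := h.pos y ⟨hy.le, h1.le⟩
    have h3 := VC_log2 hl0 hy h1
    have h4 : ds2 l y = y - l := by unfold ds2; rw [if_neg (not_lt.2 hy.le)]
    have h5 := mul_le_mul_of_nonneg_left h3 h2
    have h6 : |W y| * vp (ds2 l y) = W y * vp (y - l) := by rw [h4, abs_of_nonneg h2]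
    have h7 := mul_nonneg hl0.le n1
    rw [h6]
    nlinarith

theorem UU_l_ge {W : ℝ → ℝ} {l K : ℝ} (h : Nrm W l) (hK : Lip K W) :
    -(l * (QQ W l + AA W l)) ≤ UU W l := by
  have hpi := Real.pi_pos
  have hpi3 := Real.pi_gt_three
  have h2pi : (0:ℝ) ≤ 2 * π := by linarith
  have iQ := QQ_integrable h hK
  have iA := AA_integrable h hK
  have iL : IntervalIntegrable (fun y => W y *
      (Real.log (Real.sin ((l - y) / 2)) - Real.log (Real.sin (y / 2)))) volume 0 (2 * π) := by
    have i1 := log_sin_integrable l 0 (2 * π)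
    have i2 : IntervalIntegrable (fun y => Real.log (Real.sin (y / 2))) volume 0 (2 * π) := by
      refine (log_sin_integrable 0 0 (2 * π)).congr ?_
      intro y _
      show Real.log (Real.sin ((0 - y) / 2)) = Real.log (Real.sin (y / 2))
      rw [show (0 - y) / 2 = -(y / 2) by ring, Real.sin_neg, Real.log_neg_eq_log]
    exact (i1.sub i2).continuousOn_mul hK.continuous.continuousOn
  have h1 : ∫ y in (0:ℝ)..(2 * π), -(l * (|W y| * vp (dst l y) + |W y| * vp (ds2 l y))) ≤
      ∫ y in (0:ℝ)..(2 * π), W y *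
        (Real.log (Real.sin ((l - y) / 2)) - Real.log (Real.sin (y / 2))) := by
    refine intervalIntegral.integral_mono_on_of_le_Ioo h2pi ((iQ.add iA).const_mul l).neg iL ?_
    intro y hy
    exact VC_pt h hy.1 hy.2
  have h2 : ∫ y in (0:ℝ)..(2 * π), -(l * (|W y| * vp (dst l y) + |W y| * vp (ds2 l y))) =
      -(l * (QQ W l + AA W l)) := by
    rw [intervalIntegral.integral_neg, intervalIntegral.integral_const_mul,
      intervalIntegral.integral_add iQ iA]
    rfl
  rw [h2] at h1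
  have hQ : 0 ≤ QQ W l := intervalIntegral.integral_nonneg h2pi fun y hy =>
    mul_nonneg (abs_nonneg _) (VC_vp_nonneg (VC_dst_nonneg hy.1 hy.2))
  have hA : 0 ≤ AA W l := intervalIntegral.integral_nonneg h2pi fun y _ => by
    rw [VC_ds2_abs]
    exact mul_nonneg (abs_nonneg _) (VC_vp_nonneg (abs_nonneg _))
  have hS : 0 ≤ l * (QQ W l + AA W l) := mul_nonneg h.l0.le (add_nonneg hQ hA)
  rw [log_kernel h.per hK l]
  have h3 : 1 / π * -(l * (QQ W l + AA W l)) ≤ 1 / π * ∫ y in (0:ℝ)..(2 * π), W y *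
        (Real.log (Real.sin ((l - y) / 2)) - Real.log (Real.sin (y / 2))) :=
    mul_le_mul_of_nonneg_left h1 (by positivity)
  refine le_trans ?_ h3
  have h4 : 1 / π ≤ 1 := by rw [div_le_one hpi]; linarith
  nlinarith

theorem UU_l_le {W : ℝ → ℝ} {l K : ℝ} (h : Nrm W l) (hK : Lip K W) :
    UU W l ≤ (2 * π - l) * (QQ W l + AA W l) := by
  have h1 := UU_l_ge h.rf hK.rf
  rw [UU_rf] at h1
  have h2 : UU W (-(2 * π - l)) = UU W l := by
    rw [← UU_per h.per hK (-(2 * π - l))]
    congr 1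
    ring
  rw [h2, QQ_rf h, AA_rf h] at h1
  linarith

end Pool.Agent.H51.DG
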