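import Pool.Agent.H51.DG.VA
import Pool.Agent.H51.DG.VB
import Pool.Agent.H51.DG.VC

/-! DG2: velocity bounds, note 1390, section 1.8 (C)-(F): see VA (`HT_zero_le`, `Ma_growth`), VB (`UU_ge`,
`UU_le_neg`), VC (`UU_l_ge`, `UU_l_le`). -/
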