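import Pool.Agent.H51.DG.SB
import Pool.Agent.H51.DG.SC

/-!
# DG2 job SD: kernel form of `FF` for functions vanishing near `0`

`W` vanishes on `|x| ≤ δ`.  Let `F` be the `2π`-periodic function equal to `|W x| Phi l x` on
`(0,2π)` (and `0` at the multiples of `2π`; define it e.g. by `toIocMod` or by
`F x = |W x| * (if W x ≤ 0 then 1 else 1) * ...`; simplest: `F x = max (-W x) 0 * pR x + max (W x) 0 * pL x`
with `pR, pL` Lipschitz periodic functions that agree with `ph x` resp. `ph (2π-x)` on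
`[δ, 2π-δ]`).  `F` is Lipschitz (at `l` it vanishes).  `W y = sg l y |W y|` on `(0,2π)`.
`∫ |W| 2 Phi HT W = 2 ∫ F HT W = (1/2π) ∫∫ (F(x)W(y) - F(y)W(x)) ct(x-y)` by `HT_fubini`,
`HT_fubini_lip`; `∫ |W| UU dPhi = (1/π) ∫∫ |W x| dPhi l x W y (log sin((x-y)/2) - log sin(y/2))` by
`log_kernel` (Fubini, `|W| dPhi` bounded, log integrable on the square), and then symmetrise
(swap `x,y`; `log (sin ((y-x)/2)) = log (sin ((x-y)/2))` since `Real.log (-t) = Real.log t`).
The integrand of `FF` splits: both parts are integrable (`|W| Phi`, `|W| dPhi` bounded measurable,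
`HT W`, `UU W` continuous).
-/

set_option autoImplicit false
open Real Set MeasureTheory Filter Topology

namespace Pool.Agent.H51.DG

/-- bounded Lipschitz periodic functions -/
structure SD_BL (f : ℝ → ℝ) : Prop where
  lip : ∃ K, Lip K f
  bd : ∃ B, ∀ x, |f x| ≤ B
  per : Function.Periodic f (2 * π)

theorem SD_Lip_nonneg {K : ℝ} {f : ℝ → ℝ} (h : Lip K f) : 0 ≤ K := by
  have := h 1 0
  have h1 := abs_nonneg (f 1 - f 0)
  norm_num at this
  linarith

theorem SD_BL.const (c : ℝ) : SD_BL (fun _ => c) :=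
  ⟨⟨0, fun x y => by simp⟩, ⟨|c|, fun _ => le_rfl⟩, fun _ => rfl⟩

theorem SD_BL.add {f g : ℝ → ℝ} (hf : SD_BL f) (hg : SD_BL g) : SD_BL (fun x => f x + g x) := by
  obtain ⟨⟨K, hK⟩, ⟨B, hB⟩, pf⟩ := hf
  obtain ⟨⟨K', hK'⟩, ⟨B', hB'⟩, pg⟩ := hg
  refine ⟨⟨K + K', fun x y => ?_⟩, ⟨B + B', fun x => ?_⟩, fun x => ?_⟩
  · have h1 : f x + g x - (f y + g y) = (f x - f y) + (g x - g y) := by ring
    show |f x + g x - (f y + g y)| ≤ _
    rw [h1]
    refine (abs_add_le _ _).trans ?_
    have := hK x y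
    have := hK' x y
    linarith
  · refine (abs_add_le _ _).trans ?_
    have := hB x
    have := hB' x
    linarith
  · show f (x + 2 * π) + g (x + 2 * π) = f x + g x
    rw [pf, pg]

theorem SD_BL.mul {f g : ℝ → ℝ} (hf : SD_BL f) (hg : SD_BL g) : SD_BL (fun x => f x * g x) := by
  obtain ⟨⟨K, hK⟩, ⟨B, hB⟩, pf⟩ := hf
  obtain ⟨⟨K', hK'⟩, ⟨B', hB'⟩, pg⟩ := hg
  refine ⟨⟨B * K' + B' * K, fun x y => ?_⟩, ⟨B * B', fun x => ?_⟩, fun x => ?_⟩
  · have h1 : f x * g x - (f y * g y) = f x * (g x - g y) + g y * (f x - f y) := by ring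
    show |f x * g x - (f y * g y)| ≤ _
    rw [h1]
    refine (abs_add_le _ _).trans ?_
    rw [abs_mul, abs_mul, add_mul, mul_assoc, mul_assoc]
    have hB0 : 0 ≤ B := (abs_nonneg _).trans (hB x)
    have hB0' : 0 ≤ B' := (abs_nonneg _).trans (hB' x)
    exact add_le_add (mul_le_mul (hB x) (hK' x y) (abs_nonneg _) hB0)
      (mul_le_mul (hB' y) (hK x y) (abs_nonneg _) hB0')
  · rw [abs_mul]
    exact mul_le_mul (hB x) (hB' x) (abs_nonneg _) ((abs_nonneg _).trans (hB x))
  · show f (x + 2 * π) * g (x + 2 * π) = f x * g x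
    rw [pf, pg]

theorem SD_BL.maxc {f : ℝ → ℝ} (hf : SD_BL f) (c : ℝ) : SD_BL (fun x => max (f x) c) := by
  obtain ⟨⟨K, hK⟩, ⟨B, hB⟩, pf⟩ := hf
  refine ⟨⟨K, fun x y => ?_⟩, ⟨max B |c|, fun x => ?_⟩, fun x => ?_⟩
  · exact (abs_max_sub_max_le_abs _ _ _).trans (hK x y)
  · exact abs_max_le_max_abs_abs.trans (max_le_max (hB x) le_rfl)
  · show max (f (x + 2 * π)) c = max (f x) c
    rw [pf]

theorem SD_BL.inv {f : ℝ → ℝ} (hf : SD_BL f) {c : ℝ} (hc : 0 < c) (h : ∀ x, c ≤ f x) :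
    SD_BL (fun x => (f x)⁻¹) := by
  obtain ⟨⟨K, hK⟩, ⟨B, hB⟩, pf⟩ := hf
  refine ⟨⟨K / c ^ 2, fun x y => ?_⟩, ⟨c⁻¹, fun x => ?_⟩, fun x => ?_⟩
  · have hx : 0 < f x := hc.trans_le (h x)
    have hy : 0 < f y := hc.trans_le (h y)
    have h1 : (f x)⁻¹ - (f y)⁻¹ = (f y - f x) / (f x * f y) := by
      field_simp
    show |(f x)⁻¹ - (f y)⁻¹| ≤ _
    rw [h1, abs_div, abs_sub_comm (f y), abs_of_pos (mul_pos hx hy), div_mul_eq_mul_div]
    have h2 : c ^ 2 ≤ f x * f y := by
      rw [sq]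
      exact mul_le_mul (h x) (h y) hc.le hx.le
    exact div_le_div₀ ((abs_nonneg _).trans (hK x y)) (hK x y) (by positivity) h2
  · have hx : 0 < f x := hc.trans_le (h x)
    show |(f x)⁻¹| ≤ c⁻¹
    rw [abs_of_pos (inv_pos.2 hx)]
    exact inv_anti₀ hc (h x)
  · show (f (x + 2 * π))⁻¹ = (f x)⁻¹
    rw [pf]

theorem SD_BL.negsin : SD_BL (fun x => -Real.sin x) := by
  refine ⟨⟨1, fun x y => ?_⟩, ⟨1, fun x => ?_⟩, fun x => ?_⟩
  · have := Real.lipschitzWith_sin.dist_le_mul x y
    rw [Real.dist_eq, Real.dist_eq] at this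
    show |-Real.sin x - -Real.sin y| ≤ 1 * |x - y|
    rw [neg_sub_neg, abs_sub_comm]
    simpa using this
  · show |-Real.sin x| ≤ 1
    rw [abs_neg]
    exact Real.abs_sin_le_one x
  · show -Real.sin (x + 2 * π) = -Real.sin x
    rw [Real.sin_add_two_pi]

theorem SD_BL.abssin : SD_BL (fun x => |Real.sin (x / 2)|) := by
  refine ⟨⟨1 / 2, fun x y => ?_⟩, ⟨1, fun x => ?_⟩, fun x => ?_⟩
  · have := Real.lipschitzWith_sin.dist_le_mul (x / 2) (y / 2)
    rw [Real.dist_eq, Real.dist_eq] at this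
    refine (abs_abs_sub_abs_le _ _).trans (this.trans (le_of_eq ?_))
    rw [← sub_div, abs_div, abs_of_pos (two_pos : (0:ℝ) < 2)]
    simp
    ring
  · show |(|Real.sin (x / 2)|)| ≤ 1
    rw [abs_abs]
    exact Real.abs_sin_le_one _
  · show |Real.sin ((x + 2 * π) / 2)| = |Real.sin (x / 2)|
    rw [show (x + 2 * π) / 2 = x / 2 + π by ring, Real.sin_add_pi, abs_neg]

theorem SD_BL.abscos : SD_BL (fun x => |Real.cos (x / 2)|) := by
  refine ⟨⟨1 / 2, fun x y => ?_⟩, ⟨1, fun x => ?_⟩, fun x => ?_⟩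
  · have := Real.lipschitzWith_cos.dist_le_mul (x / 2) (y / 2)
    rw [Real.dist_eq, Real.dist_eq] at this
    refine (abs_abs_sub_abs_le _ _).trans (this.trans (le_of_eq ?_))
    rw [← sub_div, abs_div, abs_of_pos (two_pos : (0:ℝ) < 2)]
    simp
    ring
  · show |(|Real.cos (x / 2)|)| ≤ 1
    rw [abs_abs]
    exact Real.abs_cos_le_one _
  · show |Real.cos ((x + 2 * π) / 2)| = |Real.cos (x / 2)|
    rw [show (x + 2 * π) / 2 = x / 2 + π by ring, Real.cos_add_pi, abs_neg]

theorem SD_BL.neg {f : ℝ → ℝ} (hf : SD_BL f) : SD_BL (fun x => -f x) := by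
  have h := (SD_BL.const (-1)).mul hf
  simpa using h

theorem SD_BL_W {W : ℝ → ℝ} (hp : Function.Periodic W (2 * π)) (hL : ∃ K, Lip K W) : SD_BL W := by
  refine ⟨hL, ?_, hp⟩
  obtain ⟨K, hK⟩ := hL
  have hK0 := SD_Lip_nonneg hK
  refine ⟨|W 0| + K * (2 * π), fun x => ?_⟩
  obtain ⟨y, hy, hxy⟩ := hp.exists_mem_Ico₀ Real.two_pi_pos x
  rw [hxy]
  have h1 : W y = W 0 + (W y - W 0) := by ring
  rw [h1]
  refine (abs_add_le _ _).trans ?_
  have h2 := hK y 0
  have h3 : |y - 0| ≤ 2 * π := by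
    rw [sub_zero, abs_of_nonneg hy.1]
    exact hy.2.le
  have h4 : K * |y - 0| ≤ K * (2 * π) := mul_le_mul_of_nonneg_left h3 hK0
  linarith

/-- points where a function vanishing near `0` is nonzero -/
theorem SD_sin_ge {W : ℝ → ℝ} (hp : Function.Periodic W (2 * π)) {δ : ℝ} (h0 : 0 < δ)
    (hv : ∀ x, |x| ≤ δ → W x = 0) {x : ℝ} (hx0 : 0 < x) (hx1 : x < 2 * π) (hW : W x ≠ 0) :
    Real.sin (δ / 2) ≤ Real.sin (x / 2) := by
  have hpi : (3:ℝ) < π := Real.pi_gt_three
  have a1 : δ < x := by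
    by_contra hc
    push Not at hc
    exact hW (hv x (by rw [abs_of_pos hx0]; exact hc))
  have a2 : x < 2 * π - δ := by
    by_contra hc
    push Not at hc
    apply hW
    have h2 : W (x - 2 * π) = W x := by
      have := hp (x - 2 * π)
      rw [← this]
      congr 1
      ring
    rw [← h2]
    apply hv
    rw [abs_of_neg (by linarith)]
    linarith
  rcases le_or_gt x π with hx | hx
  · exact Real.sin_le_sin_of_le_of_le_pi_div_two (by linarith) (by linarith) (by linarith)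
  · rw [← Real.sin_pi_sub (x / 2)]
    exact Real.sin_le_sin_of_le_of_le_pi_div_two (by linarith) (by linarith) (by linarith)

theorem SD_periodic_log : Function.Periodic (fun t => |Real.log (Real.sin (t / 2))|) (2 * π) := by
  intro t
  show |Real.log (Real.sin ((t + 2 * π) / 2))| = |Real.log (Real.sin (t / 2))|
  rw [show (t + 2 * π) / 2 = t / 2 + π by ring, Real.sin_add_pi, Real.log_neg_eq_log]

theorem SD_Sq2 : (volume.restrict Sq2 : Measure (ℝ × ℝ)) =
    (volume.restrict (Ioo (0:ℝ) (2 * π))).prod (volume.restrict (Ioo (0:ℝ) (2 * π))) := by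
  rw [Measure.prod_restrict, ← Measure.volume_eq_prod]
  rfl

/-- the logarithmic kernel is integrable on the square -/
theorem SD_log_sq : IntegrableOn (fun z : ℝ × ℝ => Real.log (Real.sin ((z.1 - z.2) / 2))) Sq2 := by
  show Integrable _ (volume.restrict Sq2)
  rw [SD_Sq2]
  have hm : Measurable (fun z : ℝ × ℝ => Real.log (Real.sin ((z.1 - z.2) / 2))) := by fun_prop
  rw [integrable_prod_iff hm.aestronglyMeasurable]
  refine ⟨Eventually.of_forall fun x => ?_, ?_⟩
  · have := log_sin_integrable x 0 (2 * π)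
    rw [intervalIntegrable_iff_integrableOn_Ioo_of_le Real.two_pi_pos.le] at this
    exact this
  · have hc : ∀ x : ℝ, ∫ y in Ioo (0:ℝ) (2 * π), ‖Real.log (Real.sin ((x - y) / 2))‖ =
        ∫ t in (0:ℝ)..(2 * π), |Real.log (Real.sin (t / 2))| := by
      intro x
      rw [← integral_Ioc_eq_integral_Ioo, ← intervalIntegral.integral_of_le Real.two_pi_pos.le]
      have h1 := intervalIntegral.integral_comp_sub_left (a := 0) (b := 2 * π)
        (fun t => |Real.log (Real.sin (t / 2))|) x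
      have h2 := SD_periodic_log.intervalIntegral_add_eq (x - 2 * π) 0
      rw [sub_zero, ← sub_add_cancel x (2 * π)] at h1
      rw [sub_add_cancel x (2 * π)] at h1
      rw [show x - 2 * π + 2 * π = x by ring, zero_add] at h2
      rw [← h2, ← h1]
      rfl
    refine (integrable_const (∫ t in (0:ℝ)..(2 * π), |Real.log (Real.sin (t / 2))|)).congr ?_
    refine Eventually.of_forall fun x => ?_
    exact (hc x).symm

theorem SD_log_snd : IntegrableOn (fun z : ℝ × ℝ => Real.log (Real.sin (z.2 / 2))) Sq2 := by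
  show Integrable _ (volume.restrict Sq2)
  rw [SD_Sq2]
  have h := log_sin_integrable 0 0 (2 * π)
  rw [intervalIntegrable_iff_integrableOn_Ioo_of_le Real.two_pi_pos.le] at h
  have h' : Integrable (fun y : ℝ => Real.log (Real.sin (y / 2)))
      (volume.restrict (Ioo (0:ℝ) (2 * π))) := by
    refine h.congr (Eventually.of_forall fun y => ?_)
    show Real.log (Real.sin ((0 - y) / 2)) = Real.log (Real.sin (y / 2))
    rw [show (0 - y) / 2 = -(y / 2) by ring, Real.sin_neg, Real.log_neg_eq_log]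
  exact h'.comp_snd _

theorem SD_meas_dPhi (l : ℝ) : Measurable (dPhi l) := by
  have h1 : Measurable dph := by
    unfold dph
    refine Measurable.ite measurableSet_Iic ?_ measurable_const
    fun_prop
  unfold dPhi
  refine Measurable.ite measurableSet_Iio h1 ?_
  exact (h1.comp (measurable_const.sub measurable_id)).neg

theorem SD_dph_bound {ξ s : ℝ} (hs : 0 < s) (h : s ≤ Real.sin (ξ / 2)) :
    |dph ξ| ≤ 1 / (4 * s ^ 3) := by
  unfold dph
  split_ifs
  · have h1 : 0 < Real.sin (ξ / 2) := hs.trans_le h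
    have h2 : (0:ℝ) < 4 * Real.sin (ξ / 2) ^ 3 := by positivity
    rw [abs_neg, abs_div, abs_of_pos h2]
    exact div_le_div₀ zero_le_one (Real.abs_cos_le_one _) (by positivity) (by gcongr)
  · rw [abs_zero]; positivity

theorem FF_kernel {W : ℝ → ℝ} {l : ℝ} (h : Van W l) (hl : l ≤ π) :
    IntegrableOn (fun z : ℝ × ℝ => |W z.1| * |W z.2| * SS l z.1 z.2) Sq2 ∧
    FF W l = ∫ z in Sq2, |W z.1| * |W z.2| * SS l z.1 z.2 := by
  obtain ⟨K, hK⟩ := h.lip
  have hpi : (3:ℝ) < π := Real.pi_gt_three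
  have hp := h.per
  have hWc : Continuous W := Lip.continuous hK
  have hBW := SD_BL_W hp h.lip
  obtain ⟨δ0, hδ0, hv0⟩ := h.van
  obtain ⟨δ, hδd⟩ : ∃ δ, δ = min δ0 1 := ⟨_, rfl⟩
  have hδ : 0 < δ := by rw [hδd]; exact lt_min hδ0 one_pos
  have hδ1 : δ ≤ 1 := by rw [hδd]; exact min_le_right _ _
  have hv : ∀ x, |x| ≤ δ → W x = 0 := fun x hx =>
    hv0 x (hx.trans (by rw [hδd]; exact min_le_left _ _))
  obtain ⟨s0, hs0d⟩ : ∃ s, s = Real.sin (δ / 2) := ⟨_, rfl⟩
  have hs0 : 0 < s0 := by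
    rw [hs0d]; exact Real.sin_pos_of_pos_of_lt_pi (by linarith) (by linarith)
  have hsin : ∀ x, 0 < x → x < 2 * π → W x ≠ 0 → s0 ≤ Real.sin (x / 2) := fun x a b c =>
    hs0d ▸ SD_sin_ge hp hδ hv a b c
  -- the Lipschitz version of `|W| Phi`
  obtain ⟨m, hmd⟩ : ∃ m : ℝ → ℝ, m = fun x => (max |Real.sin (x / 2)| s0)⁻¹ := ⟨_, rfl⟩
  have hm : SD_BL m := by
    rw [hmd]; exact (SD_BL.abssin.maxc s0).inv hs0 (fun x => le_max_right _ _)
  have hmx : ∀ x, 0 < x → x < 2 * π → W x ≠ 0 → m x = (Real.sin (x / 2))⁻¹ := by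
    intro x a b c
    have := hsin x a b c
    rw [hmd]
    show (max |Real.sin (x / 2)| s0)⁻¹ = _
    rw [abs_of_pos (hs0.trans_le this), max_eq_left this]
  obtain ⟨F, hFd⟩ : ∃ F : ℝ → ℝ, F = fun x => max (-W x) 0 * (1 / 4 * (m x * m x)) +
      max (W x) 0 * (1 / 4 + max (-Real.sin x) 0 * (|Real.cos (x / 2)| *
        (1 / 8 * (m x * (m x * m x))))) := ⟨_, rfl⟩
  have hF : SD_BL F := by
    rw [hFd]
    exact ((hBW.neg.maxc 0).mul ((SD_BL.const _).mul (hm.mul hm))).add
      ((hBW.maxc 0).mul ((SD_BL.const _).add ((SD_BL.negsin.maxc 0).mul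
        (SD_BL.abscos.mul ((SD_BL.const _).mul (hm.mul (hm.mul hm)))))))
  have hFx : ∀ x ∈ Ioo (0:ℝ) (2 * π), F x = |W x| * Phi l x := by
    intro x hx
    rw [hFd]
    show max (-W x) 0 * (1 / 4 * (m x * m x)) +
      max (W x) 0 * (1 / 4 + max (-Real.sin x) 0 * (|Real.cos (x / 2)| *
        (1 / 8 * (m x * (m x * m x))))) = _
    by_cases hW : W x = 0
    · rw [hW]; simp
    · have hs := hsin x hx.1 hx.2 hW
      have hs' : 0 < Real.sin (x / 2) := hs0.trans_le hs
      rw [hmx x hx.1 hx.2 hW]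
      rcases lt_or_ge x l with hxl | hxl
      · have hneg : W x < 0 := lt_of_le_of_ne (h.neg x ⟨hx.1.le, hxl.le⟩) hW
        rw [max_eq_left (by linarith : 0 ≤ -W x), max_eq_right hneg.le, abs_of_neg hneg]
        unfold Phi dst ph
        rw [if_pos hxl, if_pos (by linarith)]
        field_simp
        ring
      · have hpos : 0 < W x := lt_of_le_of_ne (h.pos x ⟨hxl, hx.2.le⟩) (Ne.symm hW)
        rw [max_eq_right (by linarith : -W x ≤ 0), max_eq_left hpos.le, abs_of_pos hpos]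
        unfold Phi dst ph
        rw [if_neg (not_lt.2 hxl)]
        rcases le_or_gt (2 * π - x) π with h2 | h2
        · rw [if_pos h2]
          have e1 : Real.sin ((2 * π - x) / 2) = Real.sin (x / 2) := by
            rw [show (2 * π - x) / 2 = π - x / 2 by ring, Real.sin_pi_sub]
          have e2 : Real.cos (x / 2) ≤ 0 :=
            Real.cos_nonpos_of_pi_div_two_le_of_le (by linarith) (by linarith [hx.2])
          have e3 : Real.sin x = 2 * Real.sin (x / 2) * Real.cos (x / 2) := by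
            rw [← Real.sin_two_mul]
            congr 1
            ring
          have e4 : 0 ≤ -Real.sin x := by
            rw [e3]
            have := mul_nonneg hs'.le (neg_nonneg.2 e2)
            linarith
          rw [e1, max_eq_left e4, e3, abs_of_nonpos e2]
          have e5 := Real.sin_sq_add_cos_sq (x / 2)
          field_simp
          linear_combination (8 * W x) * e5
        · rw [if_neg (not_le.2 h2)]
          have e4 : -Real.sin x ≤ 0 := by
            have := Real.sin_nonneg_of_nonneg_of_le_pi hx.1.le (by linarith)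
            linarith
          rw [max_eq_right e4]
          ring
  have hWsg : ∀ x ∈ Ioo (0:ℝ) (2 * π), W x = sg l x * |W x| := by
    intro x hx
    unfold sg
    split_ifs with hxl
    · rw [abs_of_nonpos (h.neg x ⟨hx.1.le, hxl.le⟩)]; ring
    · rw [abs_of_nonneg (h.pos x ⟨not_lt.1 hxl, hx.2.le⟩)]; ring
  obtain ⟨B, hB⟩ := hBW.bd
  have hB0 : 0 ≤ B := (abs_nonneg _).trans (hB 0)
  -- the function `|W| dPhi`
  obtain ⟨P, hPd⟩ : ∃ P : ℝ → ℝ, P = fun x => |W x| * dPhi l x := ⟨_, rfl⟩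
  have hPm : Measurable P := by
    rw [hPd]
    exact hWc.abs.measurable.mul (SD_meas_dPhi l)
  have hPb : ∀ x ∈ Ioo (0:ℝ) (2 * π), |P x| ≤ B * (1 / (4 * s0 ^ 3)) := by
    intro x hx
    have hr : 0 ≤ B * (1 / (4 * s0 ^ 3)) := by positivity
    rw [hPd]
    show |(|W x| * dPhi l x)| ≤ _
    by_cases hW : W x = 0
    · rw [hW]; simpa using hr
    · have hs := hsin x hx.1 hx.2 hW
      rw [abs_mul, abs_abs]
      refine mul_le_mul (hB x) ?_ (abs_nonneg _) hB0
      unfold dPhi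
      split_ifs
      · exact SD_dph_bound hs0 hs
      · rw [abs_neg]
        refine SD_dph_bound hs0 ?_
        rw [show (2 * π - x) / 2 = π - x / 2 by ring, Real.sin_pi_sub]
        exact hs
  -- the logarithmic part
  obtain ⟨G, hGd⟩ : ∃ G : ℝ × ℝ → ℝ, G = fun z => (P z.1 * W z.2) *
      (Real.log (Real.sin ((z.1 - z.2) / 2)) - Real.log (Real.sin (z.2 / 2))) := ⟨_, rfl⟩
  have hms : MeasurableSet Sq2 := measurableSet_Ioo.prod measurableSet_Ioo
  have hG : IntegrableOn G Sq2 := by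
    rw [hGd]
    refine Integrable.bdd_mul (c := B * (1 / (4 * s0 ^ 3)) * B) (SD_log_sq.sub SD_log_snd)
      (((hPm.comp measurable_fst).mul (hWc.measurable.comp measurable_snd)).aestronglyMeasurable)
      ?_
    refine ae_restrict_of_forall_mem hms fun z hz => ?_
    rw [Real.norm_eq_abs, abs_mul]
    exact mul_le_mul (hPb _ hz.1) (hB _) (abs_nonneg _) (by positivity)
  have hGs : IntegrableOn (fun z : ℝ × ℝ => G z.swap) Sq2 := by
    have h1 : Integrable G (volume.restrict Sq2) := hG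
    rw [SD_Sq2] at h1
    have h2 := h1.swap
    show Integrable _ (volume.restrict Sq2)
    rw [SD_Sq2]
    exact h2
  have hGsw : ∫ z in Sq2, G z.swap = ∫ z in Sq2, G z := by
    rw [SD_Sq2]
    exact integral_prod_swap G
  have hI2 : ∫ x in Ioo (0:ℝ) (2 * π), P x * UU W x = 1 / π * ∫ z in Sq2, G z := by
    have h1 : Integrable G (volume.restrict Sq2) := hG
    rw [SD_Sq2] at h1 ⊢
    rw [integral_prod _ h1, ← integral_const_mul]
    refine setIntegral_congr_fun measurableSet_Ioo fun x _ => ?_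
    show P x * UU W x = 1 / π * ∫ y in Ioo (0:ℝ) (2 * π), G (x, y)
    rw [log_kernel hp hK x, intervalIntegral.integral_of_le Real.two_pi_pos.le,
      integral_Ioc_eq_integral_Ioo, mul_left_comm, ← integral_const_mul]
    congr 1
    refine setIntegral_congr_fun measurableSet_Ioo fun y _ => ?_
    rw [hGd]
    show P x * (W y * _) = (P x * W y) * _
    ring
  -- the Hilbert transform part
  obtain ⟨K', hK'⟩ := hF.lip
  obtain ⟨B', hB'⟩ := hF.bd
  have hT : IntegrableOn (fun z : ℝ × ℝ => (F z.1 * W z.2 - F z.2 * W z.1) * ct (z.1 - z.2)) Sq2 :=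
    HT_fubini_lip hK' hF.per hp hK
  have hI1 := HT_fubini (Lip.continuous hK').measurable hB' hF.per hp hK hT
  -- pointwise identity
  have hpt : ∀ z ∈ Sq2, |W z.1| * |W z.2| * SS l z.1 z.2 =
      1 / (2 * π) * ((F z.1 * W z.2 - F z.2 * W z.1) * ct (z.1 - z.2) + (G z + G z.swap)) := by
    intro z hz
    rw [hFx _ hz.1, hFx _ hz.2, hGd, hPd]
    show _ = 1 / (2 * π) * ((|W z.1| * Phi l z.1 * W z.2 - |W z.2| * Phi l z.2 * W z.1) *
      ct (z.1 - z.2) + ((|W z.1| * dPhi l z.1 * W z.2) *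
      (Real.log (Real.sin ((z.1 - z.2) / 2)) - Real.log (Real.sin (z.2 / 2))) +
      (|W z.2| * dPhi l z.2 * W z.1) *
      (Real.log (Real.sin ((z.2 - z.1) / 2)) - Real.log (Real.sin (z.1 / 2)))))
    have e1 : Real.log (Real.sin ((z.2 - z.1) / 2)) = Real.log (Real.sin ((z.1 - z.2) / 2)) := by
      rw [show (z.2 - z.1) / 2 = -((z.1 - z.2) / 2) by ring, Real.sin_neg, Real.log_neg_eq_log]
    have w1 := hWsg _ hz.1
    have w2 := hWsg _ hz.2
    rw [e1]
    unfold SS
    generalize Real.log (Real.sin ((z.1 - z.2) / 2)) = L12 at *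
    generalize Real.log (Real.sin (z.1 / 2)) = L1 at *
    generalize Real.log (Real.sin (z.2 / 2)) = L2 at *
    generalize ct (z.1 - z.2) = c at *
    generalize |W z.1| = a1 at *
    generalize |W z.2| = a2 at *
    rw [w1, w2]
    ring
  have hInt : IntegrableOn (fun z : ℝ × ℝ => 1 / (2 * π) *
      ((F z.1 * W z.2 - F z.2 * W z.1) * ct (z.1 - z.2) + (G z + G z.swap))) Sq2 :=
    (hT.add (hG.add hGs)).const_mul _
  refine ⟨hInt.congr_fun (fun z hz => (hpt z hz).symm) hms, ?_⟩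
  have hadd : IntegrableOn (fun z : ℝ × ℝ => G z + G z.swap) Sq2 := hG.add hGs
  rw [setIntegral_congr_fun hms hpt, integral_const_mul, integral_add hT hadd,
    integral_add hG hGs, hGsw]
  -- the functional
  have hUc : Continuous (UU W) := continuous_iff_continuousAt.2 fun x =>
    (hasDerivAt_UU hK x).continuousAt
  have i1 : IntegrableOn (fun x => F x * HT W x) (Ioo (0:ℝ) (2 * π)) := by
    have hc : Continuous (fun x => F x * HT W x) := (Lip.continuous hK').mul (continuous_HT hK)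
    exact (hc.integrableOn_Icc).mono_set Ioo_subset_Icc_self
  have i2 : IntegrableOn (fun x => P x * UU W x) (Ioo (0:ℝ) (2 * π)) := by
    refine Integrable.bdd_mul (c := B * (1 / (4 * s0 ^ 3)))
      ((hUc.integrableOn_Icc).mono_set Ioo_subset_Icc_self) hPm.aestronglyMeasurable ?_
    exact ae_restrict_of_forall_mem measurableSet_Ioo fun x hx => hPb x hx
  have hFF : FF W l = 2 * (∫ x in Ioo (0:ℝ) (2 * π), F x * HT W x) +
      ∫ x in Ioo (0:ℝ) (2 * π), P x * UU W x := by
    unfold FF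
    rw [intervalIntegral.integral_of_le Real.two_pi_pos.le, integral_Ioc_eq_integral_Ioo,
      ← integral_const_mul, ← integral_add (i1.const_mul 2) i2]
    refine setIntegral_congr_fun measurableSet_Ioo fun x hx => ?_
    show |W x| * (2 * HT W x * Phi l x + UU W x * dPhi l x) = 2 * (F x * HT W x) + P x * UU W x
    rw [hFx x hx, hPd]
    ring
  rw [intervalIntegral.integral_of_le Real.two_pi_pos.le, integral_Ioc_eq_integral_Ioo] at hI1
  rw [hFF, hI1, hI2]
  have : (π:ℝ) ≠ 0 := Real.pi_ne_zero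
  field_simp
  ring

end Pool.Agent.H51.DG
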