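import Pool.Agent.H51.DG.SH
import Pool.Agent.H51.DG.SJ
import Pool.Agent.H51.DG.SD
import Pool.Agent.H51.DG.SG
import Pool.Agent.H51.DG.NG

/-!
# DG2 job SL: assembly of certificate (B)

As in SK (same steps): `FF W l + ∫_{Sq2} |W||W| SE = ∫_{Sq1} fold4 (|W||W| (SS + SE))` (`FF_kernel`,
`SE_integrable`, `fold_integral`), `(∫_0^{2π} W) ∫_0^π al0 = ∫_{Sq1} (al0 x nu y + al0 y nu x)/2`.
Integrate `cert_B`:
`8π (FF + ∫ SE + μ ∫ al0) ≤ form bR bR (k3 + l1k) + form bN bN (k3 + l1k) + 2 form bR bN rl0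
  + 16 form bR bN (Yz/(Y+z)) + 2 form bF bN gk ≤ 16 form bR bN (Yz/(Y+z)) + 2 form bF bN gk`
by `line_form_nonpos` and `form_l1k`.  Now `Yz/(Y+z) ≤ z`, `z = ct y ≤ 1/sin(y/2) = 2 · 1/(2 sin(y/2))`:
`form bR bN (Yz/(Y+z)) ≤ 2 (∫ bR) (∫ bN/(2 sin)) ≤ 2 Ma QQ` (`QQ_parts`, `Ma_parts`); and for `x > l`
(`bF x = 0` otherwise) `ct x ≤ ct l ≤ 2/l` (`ct_lt`, `cot_le`),
`gk (ct x) z ≤ 2 z (2/l)^2 + 2 (2/l)` (`gk_le_big`, `gk_le_small`), so
`form bF bN gk ≤ (8/l²) Ma (2 QQ) + (4/l) Ma²`.  Finally `1 ≤ π²/l²`, `1/l ≤ π/l²`: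
the total is `≤ (1/8π)(32 π² + 32) Ma QQ/l² + (1/8π) 8π Ma²/l² ≤ 14 Ma QQ/l² + Ma²/l²`.
-/

set_option autoImplicit false
open Real Set MeasureTheory Filter Topology

namespace Pool.Agent.H51.DG

/-- integrable on the square with a given integral -/
def SL_has (f : ℝ × ℝ → ℝ) (I : ℝ) : Prop := IntegrableOn f Sq1 ∧ ∫ z in Sq1, f z = I

theorem SL_add {f g : ℝ × ℝ → ℝ} {I J : ℝ} (hf : SL_has f I) (hg : SL_has g J) :
    SL_has (fun z => f z + g z) (I + J) := by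
  refine ⟨hf.1.add hg.1, ?_⟩
  rw [integral_add hf.1 hg.1, hf.2, hg.2]

theorem SL_mul {f : ℝ × ℝ → ℝ} {I : ℝ} (c : ℝ) (hf : SL_has f I) :
    SL_has (fun z => c * f z) (c * I) := by
  refine ⟨hf.1.const_mul c, ?_⟩
  rw [integral_const_mul, hf.2]

theorem SL_prod {f g : ℝ → ℝ} (hf : IntegrableOn f (Ioo (0:ℝ) π))
    (hg : IntegrableOn g (Ioo (0:ℝ) π)) :
    SL_has (fun z => f z.1 * g z.2) ((∫ x in (0:ℝ)..π, f x) * ∫ x in (0:ℝ)..π, g x) :=
  prod_Sq1 hf hg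

theorem SL_cont {f : ℝ → ℝ} (hf : Continuous f) : IntegrableOn f (Ioo (0:ℝ) π) :=
  (hf.integrableOn_Icc (a := 0) (b := π)).mono_set Ioo_subset_Icc_self

theorem SL_rl0_comm (Y z : ℝ) : rl0 Y z = rl0 z Y := by
  unfold rl0
  rw [add_comm z Y]
  ring

/-- the cotangent against `1 / (2 sin)` -/
theorem SL_ct {x : ℝ} (h0 : 0 < x) (h1 : x < π) :
    ct x ≤ 2 * (1 / (2 * Real.sin (x / 2))) ∧ 0 ≤ 1 / (2 * Real.sin (x / 2)) := by
  have hs : 0 < Real.sin (x / 2) := SEv_sin h0 (by linarith [Real.pi_pos])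
  refine ⟨?_, by positivity⟩
  have e : 2 * (1 / (2 * Real.sin (x / 2))) = 1 / Real.sin (x / 2) := by
    field_simp
  rw [e]
  unfold ct
  exact div_le_div_of_nonneg_right (Real.cos_le_one _) hs.le

theorem SL_harm {X Y : ℝ} (hX : 0 < X) (hY : 0 < Y) : X * Y / (X + Y) ≤ Y := by
  rw [div_le_iff₀ (by positivity)]
  nlinarith

/-- the first mixed term -/
theorem SL_t2 {p q R X Y v : ℝ} (hp : 0 ≤ p) (hq : 0 ≤ q) (hX : 0 < X) (hY : 0 < Y)
    (hv : Y ≤ 2 * v) :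
    p * q * (R + 8 * (X * Y / (X + Y))) ≤ p * q * R + 16 * (p * (q * v)) := by
  have h1 := SL_harm hX hY
  have h2 : 8 * (X * Y / (X + Y)) ≤ 16 * v := by linarith
  have h3 := mul_le_mul_of_nonneg_left h2 (mul_nonneg hp hq)
  linarith

/-- the second mixed term -/
theorem SL_t3 {W : ℝ → ℝ} {l x y : ℝ} (h : Nrm W l) (hl : l ≤ π) (hx : x ∈ Ioo (0:ℝ) π)
    (hy : y ∈ Ioo (0:ℝ) π) :
    bF W x * bN W y * gk (ct x) (ct y) ≤
      16 / l ^ 2 * (bF W x * (bN W y * (1 / (2 * Real.sin (y / 2)))))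
        + 4 / l * (bF W x * bN W y) := by
  have hl0 := h.l0
  rcases le_or_gt x l with h1 | h1
  · rw [bF_zero h hx.1.le h1]
    simp
  · have hf := bF_nonneg W x
    have hn := bN_nonneg h hl hy.1.le hy.2.le
    have hX := ct_pos hx.1 hx.2
    have hY := ct_pos hy.1 hy.2
    obtain ⟨hv, hv0⟩ := SL_ct hy.1 hy.2
    set v : ℝ := 1 / (2 * Real.sin (y / 2)) with hvd
    have hXl : ct x ≤ 2 / l := by
      have h2 := (cot_le hx.1 hx.2.le).2
      have h3 : 2 / x ≤ 2 / l := div_le_div_of_nonneg_left (by norm_num) hl0 h1.le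
      exact (show ct x ≤ 2 / x from h2).trans h3
    have key : gk (ct x) (ct y) ≤ 16 / l ^ 2 * v + 4 / l := by
      rcases le_total 1 (ct y) with h2 | h2
      · have h3 := gk_le_big hX.le h2
        have h4 : ct x ^ 2 ≤ (2 / l) ^ 2 := pow_le_pow_left₀ hX.le hXl 2
        have h5 : 2 * ct y * ct x ^ 2 ≤ 2 * (2 * v) * (2 / l) ^ 2 :=
          mul_le_mul (by linarith) h4 (by positivity) (by positivity)
        have h6 : 2 * (2 * v) * (2 / l) ^ 2 = 16 / l ^ 2 * v := by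
          rw [div_pow]
          ring
        have h7 : 0 ≤ 4 / l := by positivity
        linarith
      · have h3 := gk_le_small hX.le hY h2
        have h4 : 2 * (2 / l) = 4 / l := by ring
        have h5 : 0 ≤ 16 / l ^ 2 * v := mul_nonneg (by positivity) hv0
        linarith
    have h8 := mul_le_mul_of_nonneg_left key (mul_nonneg hf hn)
    calc bF W x * bN W y * gk (ct x) (ct y)
        ≤ bF W x * bN W y * (16 / l ^ 2 * v + 4 / l) := h8
      _ = 16 / l ^ 2 * (bF W x * (bN W y * v)) + 4 / l * (bF W x * bN W y) := by ring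

/-- the final arithmetic -/
theorem SL_num {L R F N Nv Q M l T : ℝ} (hl0 : 0 < l) (hl : l ≤ π) (hR : 0 ≤ R) (hF : 0 ≤ F)
    (hN : 0 ≤ N) (hNv : 0 ≤ Nv) (hM : M = R + F + N) (hQ : Nv ≤ Q) (hT : T ≤ 0)
    (h : 8 * π * L ≤ T + (16 * (R * Nv) + 16 * (Nv * R)) + (16 / l ^ 2 * (F * Nv)
      + 16 / l ^ 2 * (Nv * F)) + (4 / l * (F * N) + 4 / l * (N * F))) :
    L ≤ 14 * (M + Q) * M / l ^ 2 := by
  have hpi := Real.pi_pos
  have hpi3 := Real.pi_gt_three
  have hl2 : 0 < l ^ 2 := by positivity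
  have hM0 : 0 ≤ M := by rw [hM]; positivity
  have hQ0 : 0 ≤ Q := hNv.trans hQ
  have hRM : R ≤ M := by rw [hM]; linarith
  have hFM : F ≤ M := by rw [hM]; linarith
  have hNM : N ≤ M := by rw [hM]; linarith
  have e1 : R * Nv ≤ M * Q := mul_le_mul hRM hQ hNv hM0
  have e2 : F * Nv ≤ M * Q := mul_le_mul hFM hQ hNv hM0
  have e3 : F * N ≤ M * M := mul_le_mul hFM hNM hN hM0
  have hMQ : 0 ≤ M * Q := mul_nonneg hM0 hQ0
  have hMM : 0 ≤ M * M := mul_nonneg hM0 hM0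
  -- 32 ≤ 32 π² / l²
  have g1 : 32 * (M * Q) ≤ 32 * π ^ 2 / l ^ 2 * (M * Q) := by
    refine mul_le_mul_of_nonneg_right ?_ hMQ
    rw [le_div_iff₀ hl2]
    have : l ^ 2 ≤ π ^ 2 := pow_le_pow_left₀ hl0.le hl 2
    linarith
  have g2 : 8 / l * (M * M) ≤ 8 * π / l ^ 2 * (M * M) := by
    refine mul_le_mul_of_nonneg_right ?_ hMM
    rw [div_le_div_iff₀ hl0 hl2]
    nlinarith
  have h1 : 8 * π * L ≤ 32 * (M * Q) + 32 / l ^ 2 * (M * Q) + 8 / l * (M * M) := by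
    have a1 : 16 / l ^ 2 * (F * Nv) ≤ 16 / l ^ 2 * (M * Q) :=
      mul_le_mul_of_nonneg_left e2 (by positivity)
    have a2 : 4 / l * (F * N) ≤ 4 / l * (M * M) := mul_le_mul_of_nonneg_left e3 (by positivity)
    have a3 : 16 / l ^ 2 * (Nv * F) = 16 / l ^ 2 * (F * Nv) := by ring
    have a4 : 4 / l * (N * F) = 4 / l * (F * N) := by ring
    have a5 : 32 / l ^ 2 * (M * Q) = 2 * (16 / l ^ 2 * (M * Q)) := by ring
    have a6 : 8 / l * (M * M) = 2 * (4 / l * (M * M)) := by ring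
    rw [a3, a4] at h
    rw [a5, a6]
    linarith
  have h2 : 8 * π * L ≤ (32 * π ^ 2 + 32) / l ^ 2 * (M * Q) + 8 * π / l ^ 2 * (M * M) := by
    have : (32 * π ^ 2 + 32) / l ^ 2 * (M * Q) =
        32 * π ^ 2 / l ^ 2 * (M * Q) + 32 / l ^ 2 * (M * Q) := by ring
    linarith
  have h3 : (32 * π ^ 2 + 32) / l ^ 2 * (M * Q) ≤ 8 * π * (14 * (M * Q) / l ^ 2) := by
    have e : 8 * π * (14 * (M * Q) / l ^ 2) = (112 * π) / l ^ 2 * (M * Q) := by ring
    rw [e]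
    refine mul_le_mul_of_nonneg_right (div_le_div_of_nonneg_right ?_ hl2.le) hMQ
    -- 32 π² + 32 ≤ 112 π
    have hp4 : π < 3.15 := Real.pi_lt_d2
    nlinarith
  have h4 : 8 * π / l ^ 2 * (M * M) ≤ 8 * π * (14 * (M * M) / l ^ 2) := by
    have e : 8 * π * (14 * (M * M) / l ^ 2) = 14 * (8 * π / l ^ 2 * (M * M)) := by ring
    rw [e]
    have : 0 ≤ 8 * π / l ^ 2 * (M * M) := mul_nonneg (by positivity) hMM
    linarith
  have h5 : 8 * π * L ≤ 8 * π * (14 * (M + Q) * M / l ^ 2) := by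
    have e : 8 * π * (14 * (M + Q) * M / l ^ 2) =
        8 * π * (14 * (M * Q) / l ^ 2) + 8 * π * (14 * (M * M) / l ^ 2) := by ring
    rw [e]
    linarith
  exact le_of_mul_le_mul_left h5 (by positivity)

theorem asm_B {W : ℝ → ℝ} {l : ℝ} (h : Van W l) (hl : l ≤ π) :
    FF W l + (∫ z in Sq2, |W z.1| * |W z.2| * SE l z.1 z.2)
      + (∫ x in (0:ℝ)..(2 * π), W x) * (∫ x in (0:ℝ)..π, al0 W x) ≤
    14 * (Ma W + QQ W l) * Ma W / l ^ 2 := by
  have hN : Nrm W l := h.toNrm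
  obtain ⟨K, hK⟩ := h.lip
  have hc : Continuous W := h.continuous
  obtain ⟨cR, cF, cN, cnu⟩ := continuous_parts hc
  have hpi := Real.pi_pos
  have bdR := h.bd_bR
  have bdN := h.bd_bN hl
  obtain ⟨qR, qN, qq⟩ := QQ_parts hN hl hK
  have iNv : IntegrableOn (fun x => bN W x * (1 / (2 * Real.sin (x / 2)))) (Ioo (0:ℝ) π) :=
    (intervalIntegrable_iff_integrableOn_Ioo_of_le hpi.le).1 qN
  have iR := SL_cont cR
  have iF := SL_cont cF
  have iN := SL_cont cN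
  have inu := SL_cont cnu
  have ial := (alA_integrable hN hl hK).2
  -- the left hand side as an integral over the square
  obtain ⟨hS1, hS2⟩ := FF_kernel h hl
  have hE1 := SE_integrable hN hK
  have hsum : IntegrableOn (fun z : ℝ × ℝ =>
      (fun s t => |W s| * |W t| * (SS l s t + SE l s t)) z.1 z.2) Sq2 := by
    have := hS1.add hE1
    refine this.congr (Filter.Eventually.of_forall fun z => ?_)
    simp only [Pi.add_apply]
    ring
  have hsum2 : ∫ z in Sq2, (fun s t => |W s| * |W t| * (SS l s t + SE l s t)) z.1 z.2 =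
      FF W l + ∫ z in Sq2, |W z.1| * |W z.2| * SE l z.1 z.2 := by
    rw [hS2, ← integral_add hS1 hE1]
    refine integral_congr_ae (Filter.Eventually.of_forall fun z => ?_)
    simp only
    ring
  obtain ⟨hf1, hf2⟩ := fold_integral (h := fun s t => |W s| * |W t| * (SS l s t + SE l s t)) hsum
  have hA : SL_has (fun z => fold4 (fun s t => |W s| * |W t| * (SS l s t + SE l s t)) z.1 z.2)
      (FF W l + ∫ z in Sq2, |W z.1| * |W z.2| * SE l z.1 z.2) := ⟨hf1, by rw [← hf2, hsum2]⟩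
  have hB := SL_mul (1 / 2) (SL_add (SL_prod ial inu) (SL_prod inu ial))
  have hL := SL_mul (8 * π) (SL_add hA hB)
  -- the right hand side
  have hR1 : SL_has (fun z => bR W z.1 * bR W z.2 * k3 (ct z.1) (ct z.2))
      (form (bR W) (bR W) k3) := ⟨(form_k3 bdR).1, rfl⟩
  have hR2 : SL_has (fun z => bN W z.1 * bN W z.2 * k3 (ct z.1) (ct z.2))
      (form (bN W) (bN W) k3) := ⟨(form_k3 bdN).1, rfl⟩
  have hR3 : SL_has (fun z => bR W z.1 * bR W z.2 * l1k (ct z.1) (ct z.2))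
      (form (bR W) (bR W) l1k) := ⟨(form_l1k bdR).1, rfl⟩
  have hR4 : SL_has (fun z => bN W z.1 * bN W z.2 * l1k (ct z.1) (ct z.2))
      (form (bN W) (bN W) l1k) := ⟨(form_l1k bdN).1, rfl⟩
  have hR5 : SL_has (fun z => bR W z.1 * bN W z.2 * rl0 (ct z.1) (ct z.2))
      (form (bR W) (bN W) rl0) := ⟨(form_rl0 bdR bdN).1, rfl⟩
  have hR6 : SL_has (fun z => bN W z.1 * bR W z.2 * rl0 (ct z.1) (ct z.2))
      (form (bN W) (bR W) rl0) := ⟨(form_rl0 bdN bdR).1, rfl⟩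
  have hT := SL_add (SL_add (SL_add (SL_add (SL_add hR1 hR2) hR3) hR4) hR5) hR6
  have hU1 := SL_add (SL_mul 16 (SL_prod iR iNv)) (SL_mul 16 (SL_prod iNv iR))
  have hU2 := SL_add (SL_mul (16 / l ^ 2) (SL_prod iF iNv)) (SL_mul (16 / l ^ 2) (SL_prod iNv iF))
  have hU3 := SL_add (SL_mul (4 / l) (SL_prod iF iN)) (SL_mul (4 / l) (SL_prod iN iF))
  have hR := SL_add (SL_add (SL_add hT hU1) hU2) hU3
  -- comparison
  have hmain := integral_mono_ae hL.1 hR.1 (by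
    filter_upwards [ae_off l] with z hz
    obtain ⟨⟨hx, hy⟩, hxy, hxl, hyl⟩ := hz
    have c := cert_B hN hl hx hy hxy hxl hyl
    have hX := ct_pos hx.1 hx.2
    have hY := ct_pos hy.1 hy.2
    have ha := bR_nonneg W z.1
    have hb := bR_nonneg W z.2
    have hm := bN_nonneg hN hl hx.1.le hx.2.le
    have hn := bN_nonneg hN hl hy.1.le hy.2.le
    have t1 := SL_t2 (R := rl0 (ct z.1) (ct z.2)) ha hn hX hY (SL_ct hy.1 hy.2).1
    have t2 := SL_t2 (R := rl0 (ct z.2) (ct z.1)) hb hm hY hX (SL_ct hx.1 hx.2).1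
    have t3 := SL_t3 hN hl hx hy
    have t4 := SL_t3 hN hl hy hx
    rw [SL_rl0_comm (ct z.2) (ct z.1)] at t2 c
    linarith)
  rw [hL.2, hR.2] at hmain
  have hl1 := line_form_nonpos bdR bdN
  have hl2 := line_form_nonpos bdN bdR
  have hl3 := (form_l1k bdR).2
  have hl4 := (form_l1k bdN).2
  have nR : 0 ≤ ∫ x in (0:ℝ)..π, bR W x :=
    intervalIntegral.integral_nonneg hpi.le fun x _ => bR_nonneg W x
  have nF : 0 ≤ ∫ x in (0:ℝ)..π, bF W x :=
    intervalIntegral.integral_nonneg hpi.le fun x _ => bF_nonneg W x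
  have nN : 0 ≤ ∫ x in (0:ℝ)..π, bN W x :=
    intervalIntegral.integral_nonneg hpi.le fun x hx => bN_nonneg hN hl hx.1 hx.2
  have nv : ∀ x ∈ Icc (0:ℝ) π, 0 ≤ 1 / (2 * Real.sin (x / 2)) := fun x hx => by
    have : 0 ≤ Real.sin (x / 2) := Real.sin_nonneg_of_nonneg_of_le_pi (by linarith [hx.1])
      (by linarith [hx.2])
    positivity
  have nNv : 0 ≤ ∫ x in (0:ℝ)..π, bN W x * (1 / (2 * Real.sin (x / 2))) :=
    intervalIntegral.integral_nonneg hpi.le fun x hx =>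
      mul_nonneg (bN_nonneg hN hl hx.1 hx.2) (nv x hx)
  have nRv : 0 ≤ ∫ x in (0:ℝ)..π, bR W x * (1 / (2 * Real.sin (x / 2))) :=
    intervalIntegral.integral_nonneg hpi.le fun x hx =>
      mul_nonneg (bR_nonneg W x) (nv x hx)
  have hmu := int_nu hN hl hc
  refine SL_num hN.l0 hl nR nF nN nNv (Ma_parts hN hl hc) (by rw [qq]; linarith) ?_ (le_trans
    (le_of_eq ?_) hmain)
  · linarith
  · rw [hmu]
    ring

end Pool.Agent.H51.DG
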