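import Pool.Agent.H51.DG.CA

/-!
# DG2 job CB: coercivity of `N3`, part 2

`Q_b = ∫_0^π b/(2 sin(x/2)) ≤ 3 √(N3 b) + 3 M`, `M = ∫_0^π b`.
With `T = tan(x/2)`: `1/(2 sin(x/2)) = √(1+T²)/(2T) ≤ (1/T + 1)/2`.  For `x ≥ π/2` (`T ≥ 1`) the
integrand is `≤ b`.  For `x ≤ π/2`: `∫_0^{π/2} b/T dx = ∫_{r<0} b(th r) thd r e^{-r} dr
= MMb b 0 + ∫_{r<0} MMb b r e^{-r} dr` (integration by parts; `MMb b = 0` near `-∞`)
`= MMb b 0 + I`, `I = ∫_{r<0} A(r) e^{r/2} dr`, `A = Am (3/2) b`.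
For `τ ∈ [1,2]`: `∫_{r<0} A(r+τ) e^{r/2} dr = e^{-τ/2} ∫_{r<τ} A(r) e^{r/2} dr
≤ e^{-1/2} (I + ∫_0^∞ M e^{-r} dr) = e^{-1/2}(I + M)` (`A(r) ≤ M e^{-3r/2}`), and
`∫_{r<0} (A(r)-A(r+τ)) e^{r/2} ≤ √(DD A τ) * (∫_{r<0} e^r)^{1/2} = √(DD A τ)`.
So `(1-e^{-1/2}) I - e^{-1/2} M ≤ √(DD A τ)` for all `τ ∈ [1,2]`, and `N3_ge` gives
`(1-e^{-1/2}) I - e^{-1/2} M ≤ 2 √(N3 b)`: `I ≤ 5.1 √(N3 b) + 1.55 M`, and
`Q_b ≤ M + (M + I)/2 + M/2 ≤ 3 √(N3 b) + 3 M`.
-/

set_option autoImplicit false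
open Real Set MeasureTheory Filter Topology

namespace Pool.Agent.H51.DG

theorem CB_arctan_le {x : ℝ} (hx : 0 < x) : Real.arctan x ≤ x := by
  have h1 : 0 < Real.arctan x := by
    have := Real.arctan_strictMono hx
    simpa using this
  have h2 := Real.lt_tan h1 (Real.arctan_lt_pi_div_two x)
  rw [Real.tan_arctan] at h2
  exact h2.le

theorem CB_r0 {δ : ℝ} (hδ : 0 < δ) : ∃ r0 : ℝ, r0 ≤ 0 ∧ ∀ r, r ≤ r0 → th r ≤ δ := by
  refine ⟨min 0 (Real.log (δ / 2)), min_le_left _ _, ?_⟩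
  intro r hr
  have h1 : r ≤ Real.log (δ / 2) := hr.trans (min_le_right _ _)
  have h2 : Real.exp r ≤ δ / 2 := by
    have := Real.exp_le_exp.mpr h1
    rwa [Real.exp_log (by positivity)] at this
  have h3 := CB_arctan_le (Real.exp_pos r)
  unfold th
  linarith

theorem CB_ii {b : ℝ → ℝ} (hb : Bd b) (x y : ℝ) : IntervalIntegrable b volume x y :=
  hb.c.intervalIntegrable x y

theorem CB_hasDerivAt_MMb {b : ℝ → ℝ} (hb : Bd b) (r : ℝ) :
    HasDerivAt (MMb b) (b (th r) * thd r) r := by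
  have h1 : HasDerivAt (fun u => ∫ x in (0:ℝ)..u, b x) (b (th r)) (th r) :=
    intervalIntegral.integral_hasDerivAt_right (CB_ii hb _ _)
      (hb.c.stronglyMeasurableAtFilter _ _) hb.c.continuousAt
  exact h1.comp r (hasDerivAt_th r)

theorem CB_continuous_thd : Continuous thd := by
  unfold thd
  refine Continuous.div (by fun_prop) (by fun_prop) ?_
  intro x
  positivity

theorem CB_continuous_th : Continuous th := by
  unfold th
  fun_prop

theorem CB_continuous_MMb {b : ℝ → ℝ} (hb : Bd b) : Continuous (MMb b) :=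
  continuous_iff_continuousAt.mpr fun r => (CB_hasDerivAt_MMb hb r).continuousAt

theorem CB_MMb_nonneg {b : ℝ → ℝ} (hb : Bd b) (r : ℝ) : 0 ≤ MMb b r := by
  unfold MMb
  have h := th_mem r
  refine intervalIntegral.integral_nonneg h.1.le ?_
  intro x hx
  exact hb.nn x ⟨hx.1, hx.2.trans h.2.le⟩

theorem CB_MMb_le {b : ℝ → ℝ} (hb : Bd b) (r : ℝ) : MMb b r ≤ ∫ x in (0:ℝ)..π, b x := by
  have h := th_mem r
  have h1 : (∫ x in (0:ℝ)..(th r), b x) + (∫ x in (th r)..π, b x) = ∫ x in (0:ℝ)..π, b x :=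
    intervalIntegral.integral_add_adjacent_intervals (CB_ii hb _ _) (CB_ii hb _ _)
  have h2 : 0 ≤ ∫ x in (th r)..π, b x := by
    refine intervalIntegral.integral_nonneg h.2.le ?_
    intro x hx
    exact hb.nn x ⟨h.1.le.trans hx.1, hx.2⟩
  unfold MMb
  linarith

theorem CB_MMb_zero {b : ℝ → ℝ} {δ : ℝ} (hz : ∀ x, 0 ≤ x → x ≤ δ → b x = 0) {r : ℝ}
    (hr : th r ≤ δ) : MMb b r = 0 := by
  have h := th_mem r
  unfold MMb
  have : ∫ x in (0:ℝ)..(th r), b x = ∫ x in (0:ℝ)..(th r), (0:ℝ) := by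
    refine intervalIntegral.integral_congr ?_
    intro x hx
    rw [uIcc_of_le h.1.le] at hx
    exact hz x hx.1 (hx.2.trans hr)
  rw [this]
  simp

/-- the function `E` -/
noncomputable def CBE (b : ℝ → ℝ) (r : ℝ) : ℝ := Real.exp (-r) * MMb b r

theorem CB_E_nonneg {b : ℝ → ℝ} (hb : Bd b) (r : ℝ) : 0 ≤ CBE b r :=
  mul_nonneg (Real.exp_pos _).le (CB_MMb_nonneg hb r)

theorem CB_E_cont {b : ℝ → ℝ} (hb : Bd b) : Continuous (CBE b) := by
  unfold CBE
  have := CB_continuous_MMb hb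
  fun_prop

theorem CB_E_ii {b : ℝ → ℝ} (hb : Bd b) (x y : ℝ) : IntervalIntegrable (CBE b) volume x y :=
  (CB_E_cont hb).intervalIntegrable x y

theorem CB_E_deriv {b : ℝ → ℝ} (hb : Bd b) (r : ℝ) :
    HasDerivAt (CBE b) (-CBE b r + (b (th r) * ct (th r)) * thd r) r := by
  have h1 : HasDerivAt (fun r : ℝ => Real.exp (-r)) (Real.exp (-r) * (-1)) r := by
    have := (hasDerivAt_id r).neg.exp
    simpa using this
  have h2 := h1.mul (CB_hasDerivAt_MMb hb r)
  refine h2.congr_deriv ?_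
  rw [ct_th]
  unfold CBE
  ring

theorem CB_sin_pos {x : ℝ} (h0 : 0 < x) (h1 : x ≤ π) : 0 < Real.sin (x / 2) :=
  Real.sin_pos_of_pos_of_lt_pi (by linarith) (by linarith [Real.pi_pos])

theorem CB_bct_cont {b : ℝ → ℝ} (hb : Bd b) {x y : ℝ} (hx : 0 < x) (hy : y ≤ π) :
    ContinuousOn (fun t => b t * ct t) (Icc x y) := by
  refine hb.c.continuousOn.mul ?_
  unfold ct
  refine ContinuousOn.div (by fun_prop) (by fun_prop) ?_
  intro t ht
  exact (CB_sin_pos (hx.trans_le ht.1) (ht.2.trans hy)).ne'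

theorem CB_F_cont {b : ℝ → ℝ} (hb : Bd b) {x y : ℝ} (hx : 0 < x) (hy : y ≤ π) :
    ContinuousOn (fun t => b t * (1 / (2 * Real.sin (t / 2)))) (Icc x y) := by
  refine hb.c.continuousOn.mul ?_
  refine ContinuousOn.div (by fun_prop) (by fun_prop) ?_
  intro t ht
  have := (CB_sin_pos (hx.trans_le ht.1) (ht.2.trans hy))
  positivity

theorem CB_th_mono {r s : ℝ} (h : r ≤ s) : th r ≤ th s := by
  unfold th
  have := Real.arctan_strictMono.monotone (Real.exp_le_exp.mpr h)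
  linarith

theorem CB_th_zero : th 0 = π / 2 := by
  unfold th
  rw [Real.exp_zero, Real.arctan_one]
  ring

/-- integration by parts -/
theorem CB_parts {b : ℝ → ℝ} (hb : Bd b) {r0 : ℝ} (h0 : r0 ≤ 0) (hz : MMb b r0 = 0) :
    ∫ x in (th r0)..(π / 2), b x * ct x = MMb b 0 + ∫ r in r0..0, CBE b r := by
  have himg : th '' uIcc r0 0 ⊆ Icc (th r0) (th 0) := by
    rintro _ ⟨r, hr, rfl⟩
    rw [uIcc_of_le h0] at hr
    exact ⟨CB_th_mono hr.1, CB_th_mono hr.2⟩
  have h1 := intervalIntegral.integral_comp_mul_deriv' (a := r0) (b := 0) (f := th) (f' := thd)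
    (g := fun t => b t * ct t) (fun x _ => hasDerivAt_th x) CB_continuous_thd.continuousOn
    ((CB_bct_cont hb (th_mem r0).1 (th_mem 0).2.le).mono himg)
  rw [CB_th_zero] at h1
  rw [← h1]
  have hcont : ContinuousOn (fun r => (b (th r) * ct (th r)) * thd r) (uIcc r0 0) := by
    have e : (fun r => (b (th r) * ct (th r)) * thd r) =
        fun r => (b (th r) * Real.exp (-r)) * thd r := by
      funext r
      rw [ct_th]
    rw [e]
    have h2 := CB_continuous_th
    have h3 := CB_continuous_thd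
    have h4 := hb.c
    exact Continuous.continuousOn (by fun_prop)
  have hint : IntervalIntegrable (fun r => (b (th r) * ct (th r)) * thd r) volume r0 0 :=
    hcont.intervalIntegrable
  have h2 : ∫ r in r0..0, (-CBE b r + (b (th r) * ct (th r)) * thd r) = CBE b 0 - CBE b r0 :=
    intervalIntegral.integral_eq_sub_of_hasDerivAt (fun x _ => CB_E_deriv hb x)
      ((CB_E_ii hb _ _).neg.add hint)
  have h3 : ∫ r in r0..0, (-CBE b r + (b (th r) * ct (th r)) * thd r) =
      (∫ r in r0..0, -CBE b r) + ∫ r in r0..0, (b (th r) * ct (th r)) * thd r :=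
    intervalIntegral.integral_add (CB_E_ii hb _ _).neg hint
  rw [intervalIntegral.integral_neg] at h3
  have h4 : CBE b 0 = MMb b 0 := by
    unfold CBE
    simp
  have h5 : CBE b r0 = 0 := by
    unfold CBE
    rw [hz, mul_zero]
  have h6 : (∫ x in r0..0, ((fun t => b t * ct t) ∘ th) x * thd x) =
      ∫ r in r0..0, (b (th r) * ct (th r)) * thd r := rfl
  rw [h6]
  linarith

/-- pointwise bound, near -/
theorem CB_pt1 {x : ℝ} (h0 : 0 < x) (h1 : x ≤ π) :
    1 / (2 * Real.sin (x / 2)) ≤ (1 + ct x) / 2 := by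
  have hs := CB_sin_pos h0 h1
  have hc : 0 ≤ Real.cos (x / 2) :=
    Real.cos_nonneg_of_neg_pi_div_two_le_of_le (by linarith [Real.pi_pos]) (by linarith)
  unfold ct
  have e : (1 + Real.cos (x / 2) / Real.sin (x / 2)) / 2 =
      (Real.sin (x / 2) + Real.cos (x / 2)) / (2 * Real.sin (x / 2)) := by
    field_simp
  rw [e]
  refine div_le_div_of_nonneg_right ?_ (by positivity)
  have h2 := Real.sin_sq_add_cos_sq (x / 2)
  nlinarith [mul_nonneg hs.le hc]

/-- pointwise bound, far -/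
theorem CB_pt2 {x : ℝ} (h0 : π / 2 ≤ x) (h1 : x ≤ π) :
    1 / (2 * Real.sin (x / 2)) ≤ 1 := by
  have hp := Real.pi_pos
  have hs := CB_sin_pos (by linarith) h1
  rw [div_le_one (by positivity)]
  have h2 := Real.sin_sq_add_cos_sq (x / 2)
  have h3 : Real.sin (π / 4) ≤ Real.sin (x / 2) :=
    Real.sin_le_sin_of_le_of_le_pi_div_two (by linarith) (by linarith) (by linarith)
  rw [Real.sin_pi_div_four] at h3
  have h4 : (1:ℝ) ≤ Real.sqrt 2 := by
    rw [show (1:ℝ) = Real.sqrt 1 by simp]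
    exact Real.sqrt_le_sqrt (by norm_num)
  linarith

/-- `Q ≤ M + I/2` -/
theorem CB_step1 {b : ℝ → ℝ} (hb : Bd b) {r0 δ : ℝ} (h0 : r0 ≤ 0)
    (hz : ∀ x, 0 ≤ x → x ≤ δ → b x = 0) (hr : th r0 ≤ δ) :
    ∫ x in (0:ℝ)..π, b x * (1 / (2 * Real.sin (x / 2))) ≤
      (∫ x in (0:ℝ)..π, b x) + (∫ r in r0..0, CBE b r) / 2 := by
  have hp := Real.pi_pos
  have ht := th_mem r0
  have ht2 : th r0 ≤ π / 2 := by
    rw [← CB_th_zero]
    exact CB_th_mono h0
  have hMz : MMb b r0 = 0 := CB_MMb_zero hz hr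
  have hparts := CB_parts hb h0 hMz
  have hEq : EqOn (fun x => b x * (1 / (2 * Real.sin (x / 2)))) (fun _ => (0:ℝ))
      (uIcc 0 (th r0)) := by
    intro x hx
    rw [uIcc_of_le ht.1.le] at hx
    show b x * _ = 0
    rw [hz x hx.1 (hx.2.trans hr), zero_mul]
  have i1 : IntervalIntegrable (fun x => b x * (1 / (2 * Real.sin (x / 2)))) volume 0 (th r0) := by
    refine IntervalIntegrable.congr (f := fun _ => (0:ℝ)) ?_ intervalIntegrable_const
    intro x hx
    exact (hEq (uIoc_subset_uIcc hx)).symm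
  have i2 : IntervalIntegrable (fun x => b x * (1 / (2 * Real.sin (x / 2)))) volume
      (th r0) (π / 2) := by
    refine ContinuousOn.intervalIntegrable ?_
    rw [uIcc_of_le ht2]
    exact CB_F_cont hb ht.1 (by linarith)
  have i3 : IntervalIntegrable (fun x => b x * (1 / (2 * Real.sin (x / 2)))) volume
      (π / 2) π := by
    refine ContinuousOn.intervalIntegrable ?_
    rw [uIcc_of_le (by linarith)]
    exact CB_F_cont hb (by linarith) le_rfl
  have e1 : (∫ x in (0:ℝ)..π, b x * (1 / (2 * Real.sin (x / 2)))) =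
      (∫ x in (0:ℝ)..(th r0), b x * (1 / (2 * Real.sin (x / 2)))) +
      ((∫ x in (th r0)..(π / 2), b x * (1 / (2 * Real.sin (x / 2)))) +
       ∫ x in (π / 2)..π, b x * (1 / (2 * Real.sin (x / 2)))) := by
    rw [intervalIntegral.integral_add_adjacent_intervals i2 i3,
      intervalIntegral.integral_add_adjacent_intervals i1 (i2.trans i3)]
  have e2 : (∫ x in (0:ℝ)..(th r0), b x * (1 / (2 * Real.sin (x / 2)))) = 0 := by
    rw [intervalIntegral.integral_congr hEq]
    simp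
  have ibct : IntervalIntegrable (fun x => b x * ct x) volume (th r0) (π / 2) := by
    refine ContinuousOn.intervalIntegrable ?_
    rw [uIcc_of_le ht2]
    exact CB_bct_cont hb ht.1 (by linarith)
  have e3 : (∫ x in (th r0)..(π / 2), b x * (1 / (2 * Real.sin (x / 2)))) ≤
      ∫ x in (th r0)..(π / 2), (1 / 2 * b x + 1 / 2 * (b x * ct x)) := by
    refine intervalIntegral.integral_mono_on ht2 i2
      (((CB_ii hb _ _).const_mul _).add (ibct.const_mul _)) ?_
    intro x hx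
    have hx0 : 0 < x := ht.1.trans_le hx.1
    have h3 := CB_pt1 hx0 (by linarith [hx.2])
    have h4 := mul_le_mul_of_nonneg_left h3 (hb.nn x ⟨hx0.le, by linarith [hx.2]⟩)
    calc b x * (1 / (2 * Real.sin (x / 2))) ≤ b x * ((1 + ct x) / 2) := h4
      _ = 1 / 2 * b x + 1 / 2 * (b x * ct x) := by ring
  have e4 : (∫ x in (th r0)..(π / 2), (1 / 2 * b x + 1 / 2 * (b x * ct x))) =
      1 / 2 * (∫ x in (th r0)..(π / 2), b x) + 1 / 2 * ∫ x in (th r0)..(π / 2), b x * ct x := by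
    rw [intervalIntegral.integral_add ((CB_ii hb _ _).const_mul _) (ibct.const_mul _),
      intervalIntegral.integral_const_mul, intervalIntegral.integral_const_mul]
  have e5 : (∫ x in (π / 2)..π, b x * (1 / (2 * Real.sin (x / 2)))) ≤
      ∫ x in (π / 2)..π, b x := by
    refine intervalIntegral.integral_mono_on (by linarith) i3 (CB_ii hb _ _) ?_
    intro x hx
    have h3 := CB_pt2 hx.1 hx.2
    have h4 := mul_le_mul_of_nonneg_left h3 (hb.nn x ⟨by linarith [hx.1], hx.2⟩)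
    linarith
  have e6 : (∫ x in (0:ℝ)..(th r0), b x) + (∫ x in (th r0)..(π / 2), b x) = MMb b 0 := by
    unfold MMb
    rw [CB_th_zero]
    exact intervalIntegral.integral_add_adjacent_intervals (CB_ii hb _ _) (CB_ii hb _ _)
  have e7 : (∫ x in (0:ℝ)..(th r0), b x) = 0 := hMz
  have e8 : MMb b 0 + (∫ x in (π / 2)..π, b x) = ∫ x in (0:ℝ)..π, b x := by
    unfold MMb
    rw [CB_th_zero]
    exact intervalIntegral.integral_add_adjacent_intervals (CB_ii hb _ _) (CB_ii hb _ _)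
  rw [e1, e2]
  rw [e4, hparts] at e3
  linarith

theorem CB_diff_int {b : ℝ → ℝ} (hb : Bd b) (τ : ℝ) :
    Integrable (fun r => (Am (3 / 2) b (r + τ) - Am (3 / 2) b r) ^ 2) := by
  have hA := adm_Am hb (m := 3 / 2) (by norm_num)
  have h1 := (hA.integrable_mul hA τ).1
  have h2 := (hA.integrable_mul hA 0).1
  have h2' : Integrable (fun r => Am (3 / 2) b r * Am (3 / 2) b r) := by simpa using h2
  have h3 := h2'.comp_add_right τ
  have h4 := (h3.sub (h1.const_mul 2)).add h2'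
  refine h4.congr (Filter.Eventually.of_forall fun r => ?_)
  simp only [Pi.add_apply, Pi.sub_apply]
  ring

theorem CB_Am_cont {b : ℝ → ℝ} (hb : Bd b) : Continuous (Am (3 / 2) b) := by
  unfold Am
  have := CB_continuous_MMb hb
  fun_prop

theorem CB_AmE (b : ℝ → ℝ) (r : ℝ) : Am (3 / 2) b r * Real.exp (r / 2) = CBE b r := by
  unfold Am CBE
  have : Real.exp (-r) = Real.exp (-(3 / 2 * r)) * Real.exp (r / 2) := by
    rw [← Real.exp_add]
    ring_nf
  rw [this]
  ring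

theorem CB_AmE' (b : ℝ → ℝ) (r τ : ℝ) :
    Am (3 / 2) b (r + τ) * Real.exp (r / 2) = Real.exp (-τ / 2) * CBE b (r + τ) := by
  rw [← CB_AmE b (r + τ)]
  have : Real.exp (r / 2) = Real.exp (-τ / 2) * Real.exp ((r + τ) / 2) := by
    rw [← Real.exp_add]
    ring_nf
  rw [this]
  ring

/-- the weighted difference integral -/
theorem CB_X_sq {b : ℝ → ℝ} (hb : Bd b) {r1 : ℝ} (h1 : r1 ≤ 0) (τ : ℝ) :
    (∫ r in r1..0, (Am (3 / 2) b r - Am (3 / 2) b (r + τ)) * Real.exp (r / 2)) ^ 2 ≤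
      DD (Am (3 / 2) b) τ := by
  have hAc := CB_Am_cont hb
  have hc1 : Continuous (fun r => (Am (3 / 2) b r - Am (3 / 2) b (r + τ)) * Real.exp (r / 2)) := by
    fun_prop
  have hc2 : Continuous (fun r => (Am (3 / 2) b (r + τ) - Am (3 / 2) b r) ^ 2) := by
    fun_prop
  generalize hX : (∫ r in r1..0, (Am (3 / 2) b r - Am (3 / 2) b (r + τ)) * Real.exp (r / 2)) = X
  have h2 : (∫ r in r1..0, ((2 * X) * ((Am (3 / 2) b r - Am (3 / 2) b (r + τ)) *
      Real.exp (r / 2)) - X ^ 2 * Real.exp r)) ≤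
      ∫ r in r1..0, (Am (3 / 2) b (r + τ) - Am (3 / 2) b r) ^ 2 := by
    refine intervalIntegral.integral_mono_on h1 ?_ (hc2.intervalIntegrable _ _) ?_
    · exact Continuous.intervalIntegrable (by fun_prop) _ _
    · intro r _
      have e : Real.exp r = Real.exp (r / 2) ^ 2 := by
        rw [← Real.exp_nat_mul]
        congr 1
        push_cast
        ring
      rw [e]
      nlinarith [sq_nonneg ((Am (3 / 2) b r - Am (3 / 2) b (r + τ)) - X * Real.exp (r / 2))]
  have h3 : (∫ r in r1..0, ((2 * X) * ((Am (3 / 2) b r - Am (3 / 2) b (r + τ)) *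
      Real.exp (r / 2)) - X ^ 2 * Real.exp r)) = 2 * X * X - X ^ 2 * (1 - Real.exp r1) := by
    rw [intervalIntegral.integral_sub, intervalIntegral.integral_const_mul,
      intervalIntegral.integral_const_mul, hX, integral_exp, Real.exp_zero]
    · exact Continuous.intervalIntegrable (by fun_prop) _ _
    · exact Continuous.intervalIntegrable (by fun_prop) _ _
  have h4 : (∫ r in r1..0, (Am (3 / 2) b (r + τ) - Am (3 / 2) b r) ^ 2) ≤
      DD (Am (3 / 2) b) τ := by
    rw [intervalIntegral.integral_of_le h1]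
    unfold DD
    exact MeasureTheory.setIntegral_le_integral (CB_diff_int hb τ)
      (Filter.Eventually.of_forall fun r => sq_nonneg _)
  have h5 := Real.exp_pos r1
  have h6 : 0 ≤ X ^ 2 * Real.exp r1 := by positivity
  nlinarith

/-- lower bound of the weighted difference integral -/
theorem CB_X_ge {b : ℝ → ℝ} (hb : Bd b) {r0 : ℝ} (h0 : r0 ≤ 0)
    (hz : ∀ r, r ≤ r0 → MMb b r = 0) {τ : ℝ} (hτ : τ ∈ Icc (1:ℝ) 2) :
    (∫ r in r0..0, CBE b r) - Real.exp (-(1 / 2)) *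
      ((∫ r in r0..0, CBE b r) + ∫ x in (0:ℝ)..π, b x) ≤
    ∫ r in (r0 - 2)..0, (Am (3 / 2) b r - Am (3 / 2) b (r + τ)) * Real.exp (r / 2) := by
  have hAc := CB_Am_cont hb
  have hEc := CB_E_cont hb
  generalize hM : (∫ x in (0:ℝ)..π, b x) = M
  have hM0 : 0 ≤ M := by
    rw [← hM]
    exact intervalIntegral.integral_nonneg Real.pi_pos.le fun x hx => hb.nn x hx
  have hI0 : 0 ≤ ∫ r in r0..0, CBE b r :=
    intervalIntegral.integral_nonneg h0 fun x _ => CB_E_nonneg hb x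
  have e0 : ∀ s, s ≤ r0 → ∫ r in s..0, CBE b r = ∫ r in r0..0, CBE b r := by
    intro s hs
    have e1 : (∫ r in s..r0, CBE b r) + (∫ r in r0..0, CBE b r) = ∫ r in s..0, CBE b r :=
      intervalIntegral.integral_add_adjacent_intervals (CB_E_ii hb _ _) (CB_E_ii hb _ _)
    have e2 : (∫ r in s..r0, CBE b r) = ∫ r in s..r0, (0:ℝ) := by
      refine intervalIntegral.integral_congr ?_
      intro r hr
      rw [uIcc_of_le hs] at hr
      show CBE b r = 0
      unfold CBE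
      rw [hz r hr.2, mul_zero]
    rw [← e1, e2]
    simp
  have e1 : (∫ r in (r0 - 2)..0, (Am (3 / 2) b r - Am (3 / 2) b (r + τ)) * Real.exp (r / 2)) =
      (∫ r in (r0 - 2)..0, CBE b r) -
        Real.exp (-τ / 2) * ∫ r in (r0 - 2)..0, CBE b (r + τ) := by
    have e2 : (∫ r in (r0 - 2)..0, (Am (3 / 2) b r - Am (3 / 2) b (r + τ)) * Real.exp (r / 2)) =
        ∫ r in (r0 - 2)..0, (CBE b r - Real.exp (-τ / 2) * CBE b (r + τ)) := by
      refine intervalIntegral.integral_congr ?_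
      intro r _
      show (Am (3 / 2) b r - Am (3 / 2) b (r + τ)) * Real.exp (r / 2) =
        CBE b r - Real.exp (-τ / 2) * CBE b (r + τ)
      rw [sub_mul, CB_AmE, CB_AmE']
    rw [e2, intervalIntegral.integral_sub, intervalIntegral.integral_const_mul]
    · exact CB_E_ii hb _ _
    · exact Continuous.intervalIntegrable (by fun_prop) _ _
  have e3 : (∫ r in (r0 - 2)..0, CBE b (r + τ)) = ∫ r in (r0 - 2 + τ)..(0 + τ), CBE b r :=
    intervalIntegral.integral_comp_add_right (CBE b) τ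
  have e4 : (∫ r in (r0 - 2 + τ)..0, CBE b r) + (∫ r in (0:ℝ)..τ, CBE b r) =
      ∫ r in (r0 - 2 + τ)..τ, CBE b r :=
    intervalIntegral.integral_add_adjacent_intervals (CB_E_ii hb _ _) (CB_E_ii hb _ _)
  have e5 : (∫ r in (0:ℝ)..τ, CBE b r) ≤ M := by
    have hτ0 : (0:ℝ) ≤ τ := by linarith [hτ.1]
    have f1 : (∫ r in (0:ℝ)..τ, CBE b r) ≤ ∫ r in (0:ℝ)..τ, M * Real.exp (-r) := by
      refine intervalIntegral.integral_mono_on hτ0 (CB_E_ii hb _ _)
        (Continuous.intervalIntegrable (by fun_prop) _ _) ?_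
      intro r _
      unfold CBE
      have := CB_MMb_le hb r
      rw [hM] at this
      nlinarith [Real.exp_pos (-r)]
    have f2 : (∫ r in (0:ℝ)..τ, M * Real.exp (-r)) = M * (1 - Real.exp (-τ)) := by
      rw [intervalIntegral.integral_const_mul]
      congr 1
      have f3 : (∫ r in (0:ℝ)..τ, Real.exp (-r)) = (-Real.exp (-τ)) - (-Real.exp (-0)) := by
        refine intervalIntegral.integral_eq_sub_of_hasDerivAt (f := fun r => -Real.exp (-r)) ?_
          (Continuous.intervalIntegrable (by fun_prop) _ _)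
        intro x _
        have h : HasDerivAt (fun r : ℝ => Real.exp (-r)) (Real.exp (-x) * (-1)) x := by
          have := (hasDerivAt_id x).neg.exp
          simpa using this
        have h' : HasDerivAt (fun r : ℝ => -Real.exp (-r)) (-(Real.exp (-x) * (-1))) x := h.neg
        refine h'.congr_deriv ?_
        ring
      rw [f3]
      simp
      ring
    have f4 := Real.exp_pos (-τ)
    nlinarith
  rw [e1, e3, zero_add, ← e4, e0 (r0 - 2) (by linarith), e0 (r0 - 2 + τ) (by linarith [hτ.2])]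
  have h7 : Real.exp (-τ / 2) ≤ Real.exp (-(1 / 2)) := Real.exp_le_exp.mpr (by linarith [hτ.1])
  have h8 := Real.exp_pos (-τ / 2)
  have h9 : Real.exp (-τ / 2) * ((∫ r in r0..0, CBE b r) + ∫ r in (0:ℝ)..τ, CBE b r) ≤
      Real.exp (-τ / 2) * ((∫ r in r0..0, CBE b r) + M) :=
    mul_le_mul_of_nonneg_left (by linarith) h8.le
  have h10 : Real.exp (-τ / 2) * ((∫ r in r0..0, CBE b r) + M) ≤
      Real.exp (-(1 / 2)) * ((∫ r in r0..0, CBE b r) + M) :=
    mul_le_mul_of_nonneg_right h7 (by linarith)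
  linarith

theorem CB_q : Real.exp (-(1 / 2)) ≤ 8 / 13 := by
  have h1 := Real.quadratic_le_exp_of_nonneg (x := 1 / 2) (by norm_num)
  rw [Real.exp_neg]
  have h2 : (13:ℝ) / 8 ≤ Real.exp (1 / 2) := by
    refine le_trans ?_ h1
    norm_num
  calc (Real.exp (1 / 2))⁻¹ ≤ ((13:ℝ) / 8)⁻¹ := inv_anti₀ (by norm_num) h2
    _ = 8 / 13 := by norm_num

theorem Q_le {b : ℝ → ℝ} (hb : Bd b) :
    ∫ x in (0:ℝ)..π, b x * (1 / (2 * Real.sin (x / 2))) ≤
      3 * Real.sqrt (N3 b) + 3 * ∫ x in (0:ℝ)..π, b x := by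
  obtain ⟨δ, hδ, hz⟩ := hb.z
  obtain ⟨r0, h0, hr0⟩ := CB_r0 hδ
  have hMz : ∀ r, r ≤ r0 → MMb b r = 0 := fun r hr => CB_MMb_zero hz (hr0 r hr)
  have hs1 := CB_step1 hb h0 hz (hr0 r0 le_rfl)
  have hge := fun τ (hτ : τ ∈ Icc (1:ℝ) 2) => CB_X_ge hb h0 hMz hτ
  have hsq := fun τ => CB_X_sq hb (r1 := r0 - 2) (by linarith) τ
  have hM0 : 0 ≤ ∫ x in (0:ℝ)..π, b x :=
    intervalIntegral.integral_nonneg Real.pi_pos.le fun x hx => hb.nn x hx
  have hI0 : 0 ≤ ∫ r in r0..0, CBE b r :=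
    intervalIntegral.integral_nonneg h0 fun x _ => CB_E_nonneg hb x
  generalize (∫ x in (0:ℝ)..π, b x) = M at *
  generalize (∫ r in r0..0, CBE b r) = I at *
  have hq := CB_q
  have hq0 := Real.exp_pos (-(1 / 2) : ℝ)
  have hJ : I - Real.exp (-(1 / 2)) * (I + M) ≤ 2 * Real.sqrt (N3 b) := by
    rcases le_or_gt (I - Real.exp (-(1 / 2)) * (I + M)) 0 with h | h
    · exact h.trans (by positivity)
    · have h1 : ∀ τ ∈ Icc (1:ℝ) 2,
          (I - Real.exp (-(1 / 2)) * (I + M)) ^ 2 ≤ DD (Am (3 / 2) b) τ := by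
        intro τ hτ
        refine le_trans ?_ (hsq τ)
        exact pow_le_pow_left₀ h.le (hge τ hτ) 2
      have h2 := N3_ge hb h1
      have h3 : ((I - Real.exp (-(1 / 2)) * (I + M)) / 2) ^ 2 ≤ N3 b := by
        rw [div_pow]
        linarith
      have h4 := Real.le_sqrt_of_sq_le h3
      linarith
  have h5 : Real.exp (-(1 / 2)) * (I + M) ≤ 8 / 13 * (I + M) :=
    mul_le_mul_of_nonneg_right hq (by linarith)
  have h6 := Real.sqrt_nonneg (N3 b)
  linarith

end Pool.Agent.H51.DG
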