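import Pool.Agent.H51.DG.SK
import Pool.Agent.H51.DG.CA
import Pool.Agent.H51.DG.CB

/-!
# DG2 job SM: coercivity for functions vanishing near `0`

`E = 8π (-(FF + μ ∫ alA))`.  By `asm_A`, `N3 (bR W), N3 (bN W) ≥ 0` and the product term is `≥ 0`, so
each of them is `≤ E`, in particular `0 ≤ E`.
* `Van.short`: `N3_short` with `bR W = 0` on `[l,π]`: `(∫ bR)² ≤ 8 l³ E`.
* `Van.long`: `x0 = th (log 2)`.  If `∫_{x0}^π bR ≤ ∫_0^{x0} bR` then `(∫ bR)² ≤ 2000 E` (`N3_near`).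
  Otherwise `∫ bR ≤ 2 ∫_{x0}^π bR`, so `(∫ bR)(∫ bF) ≤ E`.  If `∫_{x0}^π bN ≤ ∫_0^{x0} bN` then
  `(∫ bN)² ≤ 2000 E`; if `∫ bF ≤ ∫ bN` then `(∫ bN + ∫ bF)² ≤ 4 (∫ bN)² ≤ 8000 E`, if `∫ bN ≤ ∫ bF` then
  `(∫ bR)(∫ bN + ∫ bF) ≤ 2 (∫ bR)(∫ bF) ≤ 2 E`.  Otherwise `∫ bN ≤ 2 ∫_{x0}^π bN` and
  `(∫ bR)(∫ bN + ∫ bF) ≤ 2 (∫_{x0}^π bR) (2 ∫_{x0}^π bN + ∫ bF) ≤ 2 E`.  (`min(a,b)² ≤ a b`.)
* `Van.Qb`: `QQ_parts` and `Q_le` for `bR W`, `bN W`, `√(N3) ≤ √E`, `Ma_parts`.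
-/

set_option autoImplicit false
open Real Set MeasureTheory Filter Topology

namespace Pool.Agent.H51.DG

/-- the (nonnegative) deficit with the multiplier term -/
noncomputable def EE (W : ℝ → ℝ) (l : ℝ) : ℝ :=
  8 * π * (-(FF W l + (∫ x in (0:ℝ)..(2 * π), W x) * ∫ x in (0:ℝ)..π, alA W l x))

theorem SM_th_mem : (0:ℝ) ≤ th (Real.log 2) ∧ th (Real.log 2) ≤ π := by
  unfold th
  have h1 : 0 < Real.arctan (Real.exp (Real.log 2)) := by
    have := Real.arctan_strictMono (Real.exp_pos (Real.log 2))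
    simpa using this
  have h2 := Real.arctan_lt_pi_div_two (Real.exp (Real.log 2))
  constructor
  · linarith
  · linarith

theorem SM_int_nonneg {b : ℝ → ℝ} (hb : Bd b) {x y : ℝ} (h0 : 0 ≤ x) (hxy : x ≤ y) (h1 : y ≤ π) :
    0 ≤ ∫ t in x..y, b t :=
  intervalIntegral.integral_nonneg hxy fun t ht => hb.nn t ⟨h0.trans ht.1, ht.2.trans h1⟩

/-- the three consequences of `asm_A` -/
theorem SM_main {W : ℝ → ℝ} {l : ℝ} (h : Van W l) (hl : l ≤ π) :
    N3 (bR W) ≤ EE W l ∧ N3 (bN W) ≤ EE W l ∧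
    2 * ((∫ x in (th (Real.log 2))..π, bR W x)
        * ((∫ x in (th (Real.log 2))..π, bN W x) + ∫ x in (0:ℝ)..π, bF W x)) ≤ EE W l := by
  have hA := asm_A h hl
  have h1 := N3_nonneg (bR W)
  have h2 := N3_nonneg (bN W)
  obtain ⟨t0, t1⟩ := SM_th_mem
  have h3 := SM_int_nonneg h.bd_bR t0 t1 le_rfl
  have h4 := SM_int_nonneg (h.bd_bN hl) t0 t1 le_rfl
  have h5 := SM_int_nonneg h.bd_bF le_rfl Real.pi_pos.le le_rfl
  have h6 := mul_nonneg h3 (add_nonneg h4 h5)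
  have h7 : EE W l = 8 * π * (-(FF W l + (∫ x in (0:ℝ)..(2 * π), W x) *
    ∫ x in (0:ℝ)..π, alA W l x)) := rfl
  rw [← h7] at hA
  refine ⟨?_, ?_, ?_⟩ <;> linarith

theorem Van.EE_nonneg {W : ℝ → ℝ} {l : ℝ} (h : Van W l) (hl : l ≤ π) : 0 ≤ EE W l :=
  (N3_nonneg _).trans (SM_main h hl).1

theorem Van.short {W : ℝ → ℝ} {l : ℝ} (h : Van W l) (hl : l ≤ π / 2) :
    (∫ x in (0:ℝ)..π, bR W x) ^ 2 ≤ 8 * l ^ 3 * EE W l := by
  have hpi := Real.pi_pos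
  have hl' : l ≤ π := by linarith
  refine (N3_short h.bd_bR h.l0 hl ?_).trans ?_
  · intro x hx hx1
    unfold bR
    exact max_eq_right (by have := h.pos x ⟨hx, by linarith⟩; linarith)
  · have h1 := h.l0
    exact mul_le_mul_of_nonneg_left (SM_main h hl').1 (by positivity)

theorem SM_split {b : ℝ → ℝ} (hb : Bd b) :
    (∫ x in (0:ℝ)..(th (Real.log 2)), b x) + (∫ x in (th (Real.log 2))..π, b x) =
      ∫ x in (0:ℝ)..π, b x :=
  intervalIntegral.integral_add_adjacent_intervals (hb.c.intervalIntegrable _ _)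
    (hb.c.intervalIntegrable _ _)

theorem Van.long {W : ℝ → ℝ} {l : ℝ} (h : Van W l) (hl : l ≤ π) :
    (min (∫ x in (0:ℝ)..π, bR W x) ((∫ x in (0:ℝ)..π, bF W x) + ∫ x in (0:ℝ)..π, bN W x)) ^ 2 ≤
      8000 * EE W l := by
  obtain ⟨hR, hN, hP⟩ := SM_main h hl
  have hE := h.EE_nonneg hl
  obtain ⟨t0, t1⟩ := SM_th_mem
  have bR' := h.bd_bR
  have bN' := h.bd_bN hl
  have bF' := h.bd_bF
  have r1 := SM_int_nonneg bR' t0 t1 le_rfl
  have n1 := SM_int_nonneg bN' t0 t1 le_rfl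
  have r0 := SM_int_nonneg bR' le_rfl t0 t1
  have n0 := SM_int_nonneg bN' le_rfl t0 t1
  have f1 := SM_int_nonneg bF' le_rfl Real.pi_pos.le le_rfl
  have sR := SM_split bR'
  have sN := SM_split bN'
  have nR := N3_near bR'
  have nN := N3_near bN'
  generalize N3 (bR W) = NR at *
  generalize N3 (bN W) = NN at *
  generalize (∫ x in (0:ℝ)..π, bR W x) = R at *
  generalize (∫ x in (0:ℝ)..π, bN W x) = N at *
  generalize (∫ x in (0:ℝ)..π, bF W x) = F at *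
  generalize (∫ x in (th (Real.log 2))..π, bR W x) = R1 at *
  generalize (∫ x in (th (Real.log 2))..π, bN W x) = N1 at *
  generalize (∫ x in (0:ℝ)..(th (Real.log 2)), bR W x) = R0 at *
  generalize (∫ x in (0:ℝ)..(th (Real.log 2)), bN W x) = N0 at *
  generalize EE W l = E at *
  have hm0 : 0 ≤ min R (F + N) := le_min (by linarith) (by linarith)
  have hm1 : min R (F + N) ≤ R := min_le_left _ _
  have hm2 : min R (F + N) ≤ F + N := min_le_right _ _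
  generalize min R (F + N) = m at *
  rcases le_or_gt R1 R0 with c1 | c1
  · have h1 := nR c1
    have h2 : m ^ 2 ≤ R ^ 2 := pow_le_pow_left₀ hm0 hm1 2
    linarith
  · -- `R ≤ 2 R1`
    have hR2 : R ≤ 2 * R1 := by linarith
    have hmm : m ^ 2 ≤ R * (F + N) := by
      rw [sq]
      exact mul_le_mul hm1 hm2 hm0 (by linarith)
    rcases le_or_gt N1 N0 with c2 | c2
    · have h1 := nN c2
      rcases le_or_gt F N with c3 | c3
      · have h2 : m ^ 2 ≤ (2 * N) ^ 2 := pow_le_pow_left₀ hm0 (by linarith) 2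
        nlinarith
      · have h2 : R * (F + N) ≤ R * (2 * F) := mul_le_mul_of_nonneg_left (by linarith) (by linarith)
        have h3 : R * (2 * F) ≤ (2 * R1) * (2 * F) := mul_le_mul_of_nonneg_right hR2 (by linarith)
        have h4 : 0 ≤ R1 * N1 := mul_nonneg r1 n1
        nlinarith
    · have hN2 : N ≤ 2 * N1 := by linarith
      have h2 : R * (F + N) ≤ (2 * R1) * (F + N) := mul_le_mul_of_nonneg_right hR2 (by linarith)
      have h3 : (2 * R1) * (F + N) ≤ (2 * R1) * (F + 2 * N1) :=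
        mul_le_mul_of_nonneg_left (by linarith) (by linarith)
      have h4 : 0 ≤ R1 * F := mul_nonneg r1 f1
      nlinarith

theorem Van.Qb {W : ℝ → ℝ} {l : ℝ} (h : Van W l) (hl : l ≤ π) :
    QQ W l ≤ 6 * Real.sqrt (EE W l) + 3 * Ma W := by
  obtain ⟨K, hK⟩ := h.lip
  obtain ⟨hR, hN, _⟩ := SM_main h hl
  obtain ⟨-, -, hQ⟩ := QQ_parts h.toNrm hl hK
  have q1 := Q_le h.bd_bR
  have q2 := Q_le (h.bd_bN hl)
  have f1 := SM_int_nonneg h.bd_bF le_rfl Real.pi_pos.le le_rfl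
  have s1 := Real.sqrt_le_sqrt hR
  have s2 := Real.sqrt_le_sqrt hN
  rw [hQ, Ma_parts h.toNrm hl h.continuous]
  linarith

end Pool.Agent.H51.DG
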