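import Pool.Agent.H51.DG.SP
import Pool.Agent.H51.DG.SM
import Pool.Agent.H51.DG.SL

/-!
# DG2 job SQ: the static inequalities

Case `l ≤ π`: apply `Van.short`, `Van.long`, `Van.Qb`, `asm_B` to `Wn W n`, `n ≥ 1`, and let `n → ∞`
(`EE (Wn W n) l → 8π (-FF W l)`; `ge_of_tendsto`, `le_of_tendsto`).  As `∫ W = 0`:
`∫ bR = ∫ bF + ∫ bN = Ma W / 2` (`int_nu`, `Ma_parts`, `nu = bF + bN - bR`).  So with `D = -FF W l ≥ 0`:
`l ≤ π/2`: `Ma²/4 ≤ 64 π l³ D`; `π/2 ≤ l ≤ π`: `Ma²/4 ≤ 64000 π D`, `1 ≤ (l/(π/2))³ = 8 l³/π³`;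
`QQ ≤ 6 √(8πD) + 3 Ma`, `Ma² ≤ 256000 π D` for every `l ≤ π` (`Van.long`).
Case `l > π`: apply the first case to `rf W`, `2π - l` (RF file: `FF_rf`, `Ma_rf`, `QQ_rf`, `E2_rf`,
`mn_rf`; `∫ rf W = -∫ W = 0`).  `mn l = l` for `l ≤ π`.  Any constants are allowed.
-/

set_option autoImplicit false
open Real Set MeasureTheory Filter Topology

namespace Pool.Agent.H51.DG

/-- a `C²` periodic function is Lipschitz -/
theorem SQ_lip {W : ℝ → ℝ} (hp : Function.Periodic W (2 * π)) (hs : ContDiff ℝ 2 W) :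
    ∃ K, Lip K W := by
  have hd : Differentiable ℝ W := hs.differentiable (by norm_num)
  have hc : Continuous (deriv W) := hs.continuous_deriv (by norm_num)
  have hper : Function.Periodic (deriv W) (2 * π) := by
    intro x
    have h1 : deriv (fun y => W (y + 2 * π)) x = deriv W (x + 2 * π) := by
      rw [deriv_comp_add_const]
    rw [← h1]
    congr 1
    funext y
    exact hp y
  obtain ⟨K, hK⟩ := (isCompact_Icc (a := (0:ℝ)) (b := 2 * π)).exists_bound_of_continuousOn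
    hc.continuousOn
  refine ⟨K, ?_⟩
  have hb : ∀ x, ‖deriv W x‖ ≤ K := by
    intro x
    obtain ⟨y, hy, hxy⟩ := hper.exists_mem_Ico₀ Real.two_pi_pos x
    rw [hxy]
    exact hK y ⟨hy.1, hy.2.le⟩
  intro x y
  have := Convex.norm_image_sub_le_of_norm_deriv_le (f := W) (s := univ) (C := K) (x := y) (y := x)
    (fun z _ => hd z) (fun z _ => hb z) convex_univ (mem_univ _) (mem_univ _)
  simpa [Real.norm_eq_abs] using this

theorem SQ_FF {W : ℝ → ℝ} {l K : ℝ} (h : Nrm W l) (hK : Lip K W) :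
    Tendsto (fun n => FF (Wn W n) l) atTop (𝓝 (FF W l)) :=
  FF_tendsto (fun n => Wn_nrm h n) (fun n => Wn_lip h hK n) (fun x => Wn_tendsto h x)

theorem SQ_EE {W : ℝ → ℝ} {l K : ℝ} (h : Nrm W l) (hl : l ≤ π) (hK : Lip K W)
    (h0 : ∫ x in (0:ℝ)..(2 * π), W x = 0) :
    Tendsto (fun n => EE (Wn W n) l) atTop (𝓝 (8 * π * (-FF W l))) := by
  have h1 := (SQ_FF h hK).add (mult_tendsto h hl hK h0).1
  have h2 := (h1.neg).const_mul (8 * π)
  rw [add_zero] at h2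
  exact h2

theorem SQ_nonneg {W : ℝ → ℝ} {l K : ℝ} (h : Nrm W l) (hl : l ≤ π) (hK : Lip K W)
    (h0 : ∫ x in (0:ℝ)..(2 * π), W x = 0) : 0 ≤ -FF W l := by
  have h1 : 0 ≤ 8 * π * (-FF W l) := by
    refine ge_of_tendsto (SQ_EE h hl hK h0) ?_
    filter_upwards [eventually_ge_atTop 1] with n hn
    exact (Wn_van h hK hn).EE_nonneg hl
  have h2 : 0 < 8 * π := by positivity
  exact nonneg_of_mul_nonneg_right h1 h2

theorem SQ_half {W : ℝ → ℝ} {l K : ℝ} (h : Nrm W l) (hl : l ≤ π) (hK : Lip K W)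
    (h0 : ∫ x in (0:ℝ)..(2 * π), W x = 0) :
    (∫ x in (0:ℝ)..π, bR W x) = Ma W / 2 ∧
    (∫ x in (0:ℝ)..π, bF W x) + (∫ x in (0:ℝ)..π, bN W x) = Ma W / 2 := by
  have hc := hK.continuous
  obtain ⟨c1, c2, c3, c4⟩ := continuous_parts hc
  have h1 := int_nu h hl hc
  have h2 := Ma_parts h hl hc
  have h3 : (∫ x in (0:ℝ)..π, nu W x) = (∫ x in (0:ℝ)..π, bF W x) + (∫ x in (0:ℝ)..π, bN W x)
      - ∫ x in (0:ℝ)..π, bR W x := by
    unfold nu
    have e1 : (∫ x in (0:ℝ)..π, bF W x + bN W x - bR W x) =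
        (∫ x in (0:ℝ)..π, bF W x + bN W x) - ∫ x in (0:ℝ)..π, bR W x :=
      intervalIntegral.integral_sub (f := fun x => bF W x + bN W x)
        ((c2.add c3).intervalIntegrable _ _) (c1.intervalIntegrable _ _)
    have e2 : (∫ x in (0:ℝ)..π, bF W x + bN W x) =
        (∫ x in (0:ℝ)..π, bF W x) + ∫ x in (0:ℝ)..π, bN W x :=
      intervalIntegral.integral_add (c2.intervalIntegrable _ _) (c3.intervalIntegrable _ _)
    rw [e1, e2]
  rw [h0] at h1
  constructor <;> linarith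

theorem SQ_short {W : ℝ → ℝ} {l K : ℝ} (h : Nrm W l) (hl : l ≤ π / 2) (hK : Lip K W)
    (h0 : ∫ x in (0:ℝ)..(2 * π), W x = 0) :
    (Ma W / 2) ^ 2 ≤ 8 * l ^ 3 * (8 * π * (-FF W l)) := by
  have hl' : l ≤ π := by linarith [Real.pi_pos]
  rw [← (SQ_half h hl' hK h0).1]
  refine le_of_tendsto_of_tendsto ((parts_tendsto h hK).1.pow 2)
    ((SQ_EE h hl' hK h0).const_mul (8 * l ^ 3)) ?_
  filter_upwards [eventually_ge_atTop 1] with n hn
  exact (Wn_van h hK hn).short hl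

theorem SQ_long {W : ℝ → ℝ} {l K : ℝ} (h : Nrm W l) (hl : l ≤ π) (hK : Lip K W)
    (h0 : ∫ x in (0:ℝ)..(2 * π), W x = 0) :
    (Ma W / 2) ^ 2 ≤ 8000 * (8 * π * (-FF W l)) := by
  have hh := SQ_half h hl hK h0
  have hp := parts_tendsto h hK
  have h1 : Tendsto (fun n => (min (∫ x in (0:ℝ)..π, bR (Wn W n) x)
      ((∫ x in (0:ℝ)..π, bF (Wn W n) x) + ∫ x in (0:ℝ)..π, bN (Wn W n) x)) ^ 2) atTop
      (𝓝 ((Ma W / 2) ^ 2)) := by
    have := (hp.1.min (hp.2.1.add hp.2.2)).pow 2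
    rw [hh.1, hh.2, min_self] at this
    exact this
  refine le_of_tendsto_of_tendsto h1 ((SQ_EE h hl hK h0).const_mul 8000) ?_
  filter_upwards [eventually_ge_atTop 1] with n hn
  exact (Wn_van h hK hn).long hl

theorem SQ_Q {W : ℝ → ℝ} {l K : ℝ} (h : Nrm W l) (hl : l ≤ π) (hK : Lip K W)
    (h0 : ∫ x in (0:ℝ)..(2 * π), W x = 0) :
    QQ W l ≤ 6 * Real.sqrt (8 * π * (-FF W l)) + 3 * Ma W := by
  refine le_of_tendsto_of_tendsto (QQ_tendsto h hK)
    ((((Real.continuous_sqrt.tendsto _).comp (SQ_EE h hl hK h0)).const_mul 6).add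
      ((Ma_tendsto h hK).const_mul 3)) ?_
  filter_upwards [eventually_ge_atTop 1] with n hn
  exact (Wn_van h hK hn).Qb hl

theorem SQ_B {W : ℝ → ℝ} {l K : ℝ} (h : Nrm W l) (hl : l ≤ π) (hK : Lip K W)
    (h0 : ∫ x in (0:ℝ)..(2 * π), W x = 0) :
    FF W l + (∫ z in Sq2, |W z.1| * |W z.2| * SE l z.1 z.2) ≤
      14 * (Ma W + QQ W l) * Ma W / l ^ 2 := by
  have h1 : Tendsto (fun n => FF (Wn W n) l
      + (∫ z in Sq2, |Wn W n z.1| * |Wn W n z.2| * SE l z.1 z.2)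
      + (∫ x in (0:ℝ)..(2 * π), Wn W n x) * (∫ x in (0:ℝ)..π, al0 (Wn W n) x)) atTop
      (𝓝 (FF W l + (∫ z in Sq2, |W z.1| * |W z.2| * SE l z.1 z.2))) := by
    have := ((SQ_FF h hK).add (SE_tendsto h hK)).add (mult_tendsto h hl hK h0).2
    rw [add_zero] at this
    exact this
  have h2 : Tendsto (fun n => 14 * (Ma (Wn W n) + QQ (Wn W n) l) * Ma (Wn W n) / l ^ 2) atTop
      (𝓝 (14 * (Ma W + QQ W l) * Ma W / l ^ 2)) :=
    ((((Ma_tendsto h hK).add (QQ_tendsto h hK)).const_mul 14).mul (Ma_tendsto h hK)).div_const _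
  refine le_of_tendsto_of_tendsto h1 h2 ?_
  filter_upwards [eventually_ge_atTop 1] with n hn
  exact asm_B (Wn_van h hK hn) hl

theorem SQ_rf0 {W : ℝ → ℝ} (hp : Function.Periodic W (2 * π))
    (h0 : ∫ x in (0:ℝ)..(2 * π), W x = 0) : ∫ x in (0:ℝ)..(2 * π), rf W x = 0 := by
  unfold rf
  rw [intervalIntegral.integral_neg, intervalIntegral.integral_comp_neg (fun x => W x)]
  have := hp.intervalIntegral_add_eq (-(2 * π)) 0
  simp only [neg_add_cancel, zero_add] at this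
  rw [neg_zero, this, h0, neg_zero]

theorem SQ_mn {l : ℝ} (hl : l ≤ π) : mn l = l := by
  unfold mn
  exact min_eq_left (by linarith)

theorem SQ_A {W : ℝ → ℝ} {l K : ℝ} (h : Nrm W l) (hl : l ≤ π) (hK : Lip K W)
    (h0 : ∫ x in (0:ℝ)..(2 * π), W x = 0) :
    1 / 20000000 * Ma W ^ 2 ≤ (-FF W l) * mn l ^ 3 ∧ 1 / 20000000 * QQ W l ^ 2 ≤ -FF W l := by
  have hn := SQ_nonneg h hl hK h0
  have hL := SQ_long h hl hK h0
  have hQ := SQ_Q h hl hK h0
  have hM : 0 ≤ Ma W := by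
    unfold Ma
    exact intervalIntegral.integral_nonneg Real.two_pi_pos.le (fun x _ => abs_nonneg _)
  have hQ0 : 0 ≤ QQ W l := by
    unfold QQ
    refine intervalIntegral.integral_nonneg Real.two_pi_pos.le (fun x hx => mul_nonneg (abs_nonneg _) ?_)
    unfold vp
    split_ifs with hc
    · have h1 : 0 ≤ dst l x := by
        unfold dst
        split_ifs
        · exact hx.1
        · linarith [hx.2]
      have := Real.sin_nonneg_of_nonneg_of_le_pi (x := dst l x / 2) (by linarith)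
        (by linarith [Real.pi_pos])
      positivity
    · norm_num
  set D := -FF W l with hD
  have hpi := Real.pi_lt_d2
  have hpi2 := Real.pi_gt_three
  have hpD : π * D ≤ 3.15 * D := mul_le_mul_of_nonneg_right hpi.le hn
  have hl0 := h.l0
  rw [SQ_mn hl]
  refine ⟨?_, ?_⟩
  · rcases le_or_gt l (π / 2) with h1 | h1
    · have hS := SQ_short h h1 hK h0
      rw [← hD] at hS
      have h3 : 0 ≤ l ^ 3 := by positivity
      have h4 : l ^ 3 * (π * D) ≤ l ^ 3 * (3.15 * D) := mul_le_mul_of_nonneg_left hpD h3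
      have h5 : 0 ≤ l ^ 3 * D := mul_nonneg h3 hn
      nlinarith
    · have h3 : 1 ≤ l ^ 3 := by
        have : 1 ≤ l := by linarith
        exact one_le_pow₀ this
      have h4 : D ≤ D * l ^ 3 := le_mul_of_one_le_right hn h3
      nlinarith
  · have hs : Real.sqrt (8 * π * D) ^ 2 = 8 * π * D := Real.sq_sqrt (by positivity)
    have h6 : QQ W l ^ 2 ≤ (6 * Real.sqrt (8 * π * D) + 3 * Ma W) ^ 2 :=
      pow_le_pow_left₀ hQ0 hQ 2
    have h7 : (6 * Real.sqrt (8 * π * D) + 3 * Ma W) ^ 2 ≤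
        72 * Real.sqrt (8 * π * D) ^ 2 + 18 * Ma W ^ 2 := by
      nlinarith [sq_nonneg (6 * Real.sqrt (8 * π * D) - 3 * Ma W)]
    rw [hs] at h7
    nlinarith

theorem statA : ∃ c : ℝ, 0 < c ∧ ∀ (W : ℝ → ℝ) (l K : ℝ), Nrm W l → Lip K W →
    (∫ x in (0:ℝ)..(2 * π), W x = 0) →
    c * Ma W ^ 2 ≤ (-FF W l) * mn l ^ 3 ∧ c * QQ W l ^ 2 ≤ -FF W l := by
  refine ⟨1 / 20000000, by norm_num, ?_⟩
  intro W l K h hK h0
  rcases le_or_gt l π with hl | hl
  · exact SQ_A h hl hK h0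
  · have h1 := SQ_A h.rf (by linarith) hK.rf (SQ_rf0 h.per h0)
    rw [Ma_rf h.per, FF_rf h hK, QQ_rf h, mn_rf] at h1
    exact h1

theorem SQ_B2 {W : ℝ → ℝ} {l : ℝ} (h : Nrm W l) (hl : l ≤ π) (hs : ContDiff ℝ 2 W)
    (h0 : ∫ x in (0:ℝ)..(2 * π), W x = 0) :
    (FF W l + E2 W l) * mn l ^ 2 ≤ 14 * (Ma W + QQ W l) * Ma W := by
  obtain ⟨K, hK⟩ := SQ_lip h.per hs
  have h1 := SQ_B h hl hK h0
  rw [← E2_kernel h hs] at h1
  rw [SQ_mn hl]
  have h2 : 0 < l ^ 2 := by have := h.l0; positivity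
  exact (le_div_iff₀ h2).1 h1

theorem statB : ∃ C : ℝ, 0 < C ∧ ∀ (W : ℝ → ℝ) (l : ℝ), Nrm W l → ContDiff ℝ 2 W →
    (∫ x in (0:ℝ)..(2 * π), W x = 0) →
    (FF W l + E2 W l) * mn l ^ 2 ≤ C * (Ma W + QQ W l) * Ma W := by
  refine ⟨14, by norm_num, ?_⟩
  intro W l h hs h0
  rcases le_or_gt l π with hl | hl
  · exact SQ_B2 h hl hs h0
  · have hs' : ContDiff ℝ 2 (rf W) := by
      unfold rf
      exact (hs.comp contDiff_neg).neg
    have h1 := SQ_B2 h.rf (by linarith) hs' (SQ_rf0 h.per h0)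
    obtain ⟨K, hK⟩ := SQ_lip h.per hs
    rw [Ma_rf h.per, FF_rf h hK, QQ_rf h, mn_rf, E2_rf h hs] at h1
    exact h1

end Pool.Agent.H51.DG
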