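import Mathlib

/-!
# DG2 job OA: three elementary lemmas for the closing argument

* `ode_G`: let `y = log(1 + e^G)`, so `max G 0 ≤ y ≤ 1 + max G 0`... (only `max G 0 ≤ y` is used),
  `y' = (e^G/(1+e^G)) G' ≤ K (δ + √δ (1+y))` (the factor is in `(0,1)` and the bound is `≥ 0`).
  `z(t) = (1+y) E - K J`, `E = exp(-(K/2)(κ t + J/κ)) ≤ 1` (`J ≥ 0` as `J' = δ ≥ 0`, `J 0 = 0`):
  `z' ≤ E (K δ + K √δ (1+y) - (K/2)(κ + δ/κ)(1+y)) - K δ ≤ 0` (`√δ ≤ (κ + δ/κ)/2`), so
  `z(t) ≤ z(0) = 1 + y(0)` (antitone: continuous on `[0,T]`, derivative `≤ 0` inside).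
* `growth`: `√(1+Λ)/Λ → 0` and `(1+Λ) exp(c √(1+Λ) - Λ/2) → 0` as `Λ → ∞`.
* `last_time`: intermediate value theorem and the supremum of `{t ∈ [0,t1] : f t ≤ m}`.
-/

set_option autoImplicit false
open Real Set MeasureTheory Filter Topology

namespace Pool.Agent.H51.DG

theorem ode_G {T K κ : ℝ} (hT : 0 ≤ T) (hK : 0 ≤ K) (hκ : 0 < κ) {J δ G G' : ℝ → ℝ}
    (cJ : ContinuousOn J (Icc 0 T)) (cG : ContinuousOn G (Icc 0 T))
    (dJ : ∀ t ∈ Ioo (0:ℝ) T, HasDerivAt J (δ t) t) (dG : ∀ t ∈ Ioo (0:ℝ) T, HasDerivAt G (G' t) t)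
    (h0 : J 0 = 0) (hδ : ∀ t ∈ Ioo (0:ℝ) T, 0 ≤ δ t)
    (hG : ∀ t ∈ Ioo (0:ℝ) T, G' t ≤ K * (δ t + Real.sqrt (δ t) * (1 + max (G t) 0))) :
    0 ≤ J T ∧ 1 + max (G T) 0 ≤
      (1 + Real.log (1 + Real.exp (G 0)) + K * J T) *
        Real.exp (K / 2 * (κ * T + J T / κ)) := by
  have hmono : MonotoneOn J (Icc 0 T) := by
    apply monotoneOn_of_deriv_nonneg (convex_Icc 0 T) cJ
    · rw [interior_Icc]
      intro t ht
      exact (dJ t ht).differentiableAt.differentiableWithinAt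
    · rw [interior_Icc]
      intro t ht
      rw [(dJ t ht).deriv]
      exact hδ t ht
  have hJ : ∀ t ∈ Icc (0:ℝ) T, 0 ≤ J t := by
    intro t ht
    have := hmono (left_mem_Icc.2 hT) ht ht.1
    rwa [h0] at this
  refine ⟨hJ T (right_mem_Icc.2 hT), ?_⟩
  have hmax : ∀ g : ℝ, max g 0 ≤ Real.log (1 + Real.exp g) := by
    intro g
    apply max_le
    · rw [Real.le_log_iff_exp_le (by positivity)]
      linarith
    · apply Real.log_nonneg
      linarith [Real.exp_pos g]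
  set y : ℝ → ℝ := fun t => Real.log (1 + Real.exp (G t)) with hy
  set Ef : ℝ → ℝ := fun t => Real.exp (-(K / 2 * (κ * t + J t / κ))) with hE
  set z : ℝ → ℝ := fun t => (1 + y t) * Ef t - K * J t with hz
  have hypos : ∀ g : ℝ, 0 < 1 + Real.exp g := fun g => by positivity
  have hanti : AntitoneOn z (Icc 0 T) := by
    have hdz : ∀ t ∈ Ioo (0:ℝ) T, HasDerivAt z
        ((Real.exp (G t) * G' t / (1 + Real.exp (G t))) * Ef t +
          (1 + y t) * (Ef t * (-(K / 2 * (κ * 1 + δ t / κ)))) - K * δ t) t := by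
      intro t ht
      have h1 : HasDerivAt y (Real.exp (G t) * G' t / (1 + Real.exp (G t))) t :=
        (((dG t ht).exp).const_add 1).log (hypos _).ne'
      have h2 : HasDerivAt Ef (Ef t * (-(K / 2 * (κ * 1 + δ t / κ)))) t := by
        have h3 : HasDerivAt (fun t => -(K / 2 * (κ * t + J t / κ)))
            (-(K / 2 * (κ * 1 + δ t / κ))) t :=
          ((((hasDerivAt_id t).const_mul κ).add ((dJ t ht).div_const κ)).const_mul (K / 2)).neg
        exact h3.exp
      have h4 := ((h1.const_add 1).mul h2).sub ((dJ t ht).const_mul K)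
      exact h4
    apply antitoneOn_of_deriv_nonpos (convex_Icc 0 T)
    · have c1 : ContinuousOn y (Icc 0 T) := by
        apply ContinuousOn.log
        · exact continuousOn_const.add cG.rexp
        · intro t _
          exact (hypos _).ne'
      have c2 : ContinuousOn Ef (Icc 0 T) := by
        apply ContinuousOn.rexp
        apply ContinuousOn.neg
        exact continuousOn_const.mul
          ((continuousOn_const.mul continuousOn_id).add (cJ.div_const κ))
      exact ((continuousOn_const.add c1).mul c2).sub (continuousOn_const.mul cJ)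
    · rw [interior_Icc]
      intro t ht
      exact (hdz t ht).differentiableAt.differentiableWithinAt
    · rw [interior_Icc]
      intro t ht
      rw [(hdz t ht).deriv]
      have hEpos : 0 < Ef t := Real.exp_pos _
      have hE1 : Ef t ≤ 1 := by
        rw [hE]
        apply Real.exp_le_one_iff.2
        have := hJ t (Ioo_subset_Icc_self ht)
        have h5 : 0 ≤ K / 2 * (κ * t + J t / κ) := by
          have := ht.1
          positivity
        linarith
      have hδt := hδ t ht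
      have hyt : max (G t) 0 ≤ y t := hmax (G t)
      have hy0 : 0 ≤ y t := le_trans (le_max_right _ _) hyt
      have hsq : Real.sqrt (δ t) ≤ (κ + δ t / κ) / 2 := by
        have h6 : Real.sqrt (δ t) ^ 2 = δ t := Real.sq_sqrt hδt
        have h7 : κ + δ t / κ = (κ ^ 2 + Real.sqrt (δ t) ^ 2) / κ := by
          rw [h6]
          field_simp
        rw [h7, div_div, le_div_iff₀ (by positivity)]
        nlinarith [sq_nonneg (κ - Real.sqrt (δ t))]
      set R : ℝ := K * (δ t + Real.sqrt (δ t) * (1 + y t)) with hR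
      have hR0 : 0 ≤ R := by positivity
      have hGR : G' t ≤ R := by
        refine (hG t ht).trans ?_
        rw [hR]
        apply mul_le_mul_of_nonneg_left _ hK
        have : Real.sqrt (δ t) * (1 + max (G t) 0) ≤ Real.sqrt (δ t) * (1 + y t) :=
          mul_le_mul_of_nonneg_left (by linarith) (Real.sqrt_nonneg _)
        linarith
      have h8 : Real.exp (G t) * G' t / (1 + Real.exp (G t)) ≤ R := by
        rw [div_le_iff₀ (hypos _)]
        have := Real.exp_pos (G t)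
        nlinarith
      have h9 : (Real.exp (G t) * G' t / (1 + Real.exp (G t))) * Ef t ≤ R * Ef t :=
        mul_le_mul_of_nonneg_right h8 hEpos.le
      have h10 : R * Ef t + (1 + y t) * (Ef t * (-(K / 2 * (κ * 1 + δ t / κ)))) - K * δ t
          = K * δ t * (Ef t - 1) +
            K * Ef t * (1 + y t) * (Real.sqrt (δ t) - (κ + δ t / κ) / 2) := by
        rw [hR]
        ring
      have h11 : K * δ t * (Ef t - 1) ≤ 0 :=
        mul_nonpos_of_nonneg_of_nonpos (by positivity) (by linarith)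
      have h12 : K * Ef t * (1 + y t) * (Real.sqrt (δ t) - (κ + δ t / κ) / 2) ≤ 0 :=
        mul_nonpos_of_nonneg_of_nonpos (by positivity) (by linarith)
      linarith
  have hfin := hanti (left_mem_Icc.2 hT) (right_mem_Icc.2 hT) hT
  have hz0 : z 0 = 1 + Real.log (1 + Real.exp (G 0)) := by
    simp [hz, hy, hE, h0]
  have hzT : z T = (1 + y T) * Ef T - K * J T := rfl
  rw [hz0, hzT] at hfin
  have hexp : Ef T * Real.exp (K / 2 * (κ * T + J T / κ)) = 1 := by
    rw [hE, ← Real.exp_add]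
    simp
  have hyT : max (G T) 0 ≤ y T := hmax (G T)
  have hpos : 0 < Real.exp (K / 2 * (κ * T + J T / κ)) := Real.exp_pos _
  calc 1 + max (G T) 0 ≤ 1 + y T := by linarith
    _ = (1 + y T) * (Ef T * Real.exp (K / 2 * (κ * T + J T / κ))) := by rw [hexp, mul_one]
    _ = ((1 + y T) * Ef T) * Real.exp (K / 2 * (κ * T + J T / κ)) := by ring
    _ ≤ (1 + Real.log (1 + Real.exp (G 0)) + K * J T) *
        Real.exp (K / 2 * (κ * T + J T / κ)) :=
      mul_le_mul_of_nonneg_right (by linarith) hpos.le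

theorem growth (a b c : ℝ) (ha : 0 ≤ a) (hb : 0 ≤ b) (hc : 0 ≤ c) : ∃ B : ℝ, ∀ Λ : ℝ, 0 ≤ Λ →
    Λ / 2 ≤ a * Real.sqrt (1 + Λ) + b * (1 + Λ) * Real.exp (c * Real.sqrt (1 + Λ) - Λ / 2) →
    Λ ≤ B := by
  refine ⟨4 * a ^ 2 + 4 * b * (2 * Real.exp ((c + 1) ^ 2 / 2 + 1 / 2)) + 1, fun Λ hΛ h => ?_⟩
  set s := Real.sqrt (1 + Λ) with hs
  have hs0 : 0 ≤ s := Real.sqrt_nonneg _
  have hs2 : s ^ 2 = 1 + Λ := Real.sq_sqrt (by linarith)
  have hL : Λ = s ^ 2 - 1 := by linarith
  have h1 : s ^ 2 ≤ 2 * Real.exp s := by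
    have := Real.quadratic_le_exp_of_nonneg hs0
    nlinarith
  have h2 : (1 + Λ) * Real.exp (c * s - Λ / 2) ≤ 2 * Real.exp ((c + 1) ^ 2 / 2 + 1 / 2) := by
    rw [← hs2]
    calc s ^ 2 * Real.exp (c * s - Λ / 2) ≤ 2 * Real.exp s * Real.exp (c * s - Λ / 2) :=
          mul_le_mul_of_nonneg_right h1 (Real.exp_pos _).le
      _ = 2 * Real.exp (s + (c * s - Λ / 2)) := by
          rw [mul_assoc, ← Real.exp_add]
      _ ≤ 2 * Real.exp ((c + 1) ^ 2 / 2 + 1 / 2) := by
          apply mul_le_mul_of_nonneg_left _ (by norm_num)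
          apply Real.exp_le_exp.2
          rw [hL]
          nlinarith [sq_nonneg (s - (c + 1))]
  have h3 : b * (1 + Λ) * Real.exp (c * s - Λ / 2) ≤ b * (2 * Real.exp ((c + 1) ^ 2 / 2 + 1 / 2)) := by
    rw [mul_assoc]
    exact mul_le_mul_of_nonneg_left h2 hb
  have h4 : Λ / 2 ≤ a * s + b * (2 * Real.exp ((c + 1) ^ 2 / 2 + 1 / 2)) := by linarith
  nlinarith [sq_nonneg (s - 2 * a)]

theorem last_time {f : ℝ → ℝ} {t1 m : ℝ} (h1 : 0 ≤ t1) (hf : ContinuousOn f (Icc 0 t1))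
    (h0 : f 0 ≤ m) (hm : m ≤ f t1) :
    ∃ t0 ∈ Icc (0:ℝ) t1, f t0 = m ∧ ∀ t ∈ Icc t0 t1, m ≤ f t := by
  set S : Set ℝ := {t | t ∈ Icc (0:ℝ) t1 ∧ f t ≤ m} with hS
  have hne : S.Nonempty := ⟨0, left_mem_Icc.2 h1, h0⟩
  have hbdd : BddAbove S := ⟨t1, fun t ht => ht.1.2⟩
  have hcl : IsClosed S := by
    have : S = Icc 0 t1 ∩ f ⁻¹' Iic m := rfl
    rw [this]
    exact hf.preimage_isClosed_of_isClosed isClosed_Icc isClosed_Iic
  have hmem : sSup S ∈ S := hcl.csSup_mem hne hbdd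
  have hmax : ∀ t ∈ S, t ≤ sSup S := fun t ht => le_csSup hbdd ht
  set t0 := sSup S with ht0
  have hsub : Icc t0 t1 ⊆ Icc 0 t1 := Icc_subset_Icc hmem.1.1 le_rfl
  have heq : f t0 = m := by
    have hiv := intermediate_value_Icc hmem.1.2 (hf.mono hsub)
    obtain ⟨t, ht, hft⟩ := hiv ⟨hmem.2, hm⟩
    have h2 : t ∈ S := ⟨hsub ht, hft.le⟩
    have h3 : t = t0 := le_antisymm (hmax t h2) ht.1
    rw [← h3]
    exact hft
  refine ⟨t0, hmem.1, heq, fun t ht => ?_⟩
  by_contra hlt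
  push Not at hlt
  have h2 : t ∈ S := ⟨hsub ht, hlt.le⟩
  have h3 : t = t0 := le_antisymm (hmax t h2) ht.1
  rw [h3, heq] at hlt
  exact lt_irrefl _ hlt

end Pool.Agent.H51.DG
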