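import Pool.Agent.H51.DG.St
import Pool.Agent.H51.DG.OA

/-!
# DG2 job OO: the closing argument, note 1390, section 4, as an abstract lemma

`J, G, L1, L2` are continuous on `[0,b)` and differentiable on `(0,b)`.
Let `s = √δ`, `l = exp(-max L1 L2) ≤ π`, `p = max G 0`.  Algebra (constants `K` depending on `C`):
`M ≤ √C s l^{3/2}`, `M ≤ K s` and `M/l ≤ √(Cπ) s`, `M²/l² ≤ π C δ`, `Q ≤ √C s`,
`A ≤ C((1+C) M/l + l (G + C)) ≤ K (s + l (1+p))` (note `l · C M/l² = C M/l`),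
`(M+A) M/l² ≤ M²/l² + C (1+C) M²/l³ + C (G+C) M/l ≤ K (δ + s (1+p))`, so
`G' ≤ K (δ + s (1+p))`, `Li' ≤ K (s + l (1+p))`.
Fix `t1 ∈ [0,b)`, `Λ ≥ 0` with `L1, L2 ≤ Λ` on `[0,t1]`.  Then `J ≤ C (1+Λ)` on `[0,t1]` and `ode_G` with
`κ = √(1+Λ)` (`≥ 1`) gives, for all `t ≤ t1`,
`1 + p(t) ≤ Γ(Λ) := (1 + y0 + K C (1+Λ)) exp((K/2)(T + C) √(1+Λ))`, `y0 = log(1 + e^C) ≥ log(1+e^{G 0})`.
Bound of `Λ`: let `Λ` be the maximum over `[0,t1]` of `L1, L2` (continuous functions), and assume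
`Λ > max(2C, 0)`; it is attained, say `Li(t*) = Λ`; let `t0 ≤ t*` be the last time with
`Li(t0) = Λ/2` (`last_time`, `Li 0 ≤ C ≤ Λ/2`).  On `[t0,t*]`: `l ≤ exp(-Li) ≤ exp(-Λ/2)`, `s ≤ (κ + δ/κ)/2`, so
`Li - K ((κ t + J/κ)/2 + exp(-Λ/2) Γ(Λ) t)` is nonincreasing on `[t0,t*]`, hence
`Λ/2 ≤ K ((κ T + C(1+Λ)/κ)/2 + T exp(-Λ/2) Γ(Λ)) = K (T+C)/2 √(1+Λ) + K T exp(-Λ/2) Γ(Λ)`, and `growth`
gives `Λ ≤ B0(T,C)`.  So `Λ ≤ B1 := max B0 (max (2C) 0)` for every `t1`, then `J ≤ C(1+B1)`,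
`G ≤ Γ(B1)`.
-/

set_option autoImplicit false
open Real Set MeasureTheory Filter Topology

namespace Pool.Agent.H51.DG

theorem OO_alg {C : ℝ} (hC : 0 < C) : ∃ K : ℝ, 0 ≤ K ∧ ∀ δ M Q A l G G' : ℝ, 0 ≤ δ → 0 ≤ M →
    0 ≤ Q → 0 < l → l ≤ π → M ^ 2 ≤ C * δ * l ^ 3 → Q ^ 2 ≤ C * δ →
    (G' - δ) * l ^ 2 ≤ C * (M + A) * M →
    A ≤ C * (M / l + l * (G + C + C * M / l ^ 2)) →
    G' ≤ K * (δ + Real.sqrt δ * (1 + max G 0)) ∧
    C * (Q + A + M) ≤ K * (Real.sqrt δ + l * (1 + max G 0)) := by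
  have hπ : 0 < π := Real.pi_pos
  obtain ⟨c1, hc1⟩ : ∃ c1, c1 = Real.sqrt (C * π) := ⟨_, rfl⟩
  have hc10 : 0 ≤ c1 := hc1 ▸ Real.sqrt_nonneg _
  obtain ⟨c2, hc2⟩ : ∃ c2, c2 = Real.sqrt C := ⟨_, rfl⟩
  have hc20 : 0 ≤ c2 := hc2 ▸ Real.sqrt_nonneg _
  have hKA : 0 ≤ C * ((1 + C) * c1 + (1 + C)) := by positivity
  refine ⟨(1 + C * (C * π) + C * (C * ((1 + C) * C)) + C * (C * ((1 + C) * c1))) +
    C * (c2 + C * ((1 + C) * c1 + (1 + C)) + π * c1), by positivity, ?_⟩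
  intro δ M Q A l G G' hδ hM hQ hl hlπ hM2 hQ2 hG' hA
  obtain ⟨s, hs⟩ : ∃ s, s = Real.sqrt δ := ⟨_, rfl⟩
  have hs0 : 0 ≤ s := hs ▸ Real.sqrt_nonneg _
  obtain ⟨p, hp⟩ : ∃ p, p = max G 0 := ⟨_, rfl⟩
  have hp0 : 0 ≤ p := hp ▸ le_max_right _ _
  have hGp : G ≤ p := hp ▸ le_max_left _ _
  rw [← hs, ← hp]
  obtain ⟨m, hm⟩ : ∃ m, m = M / l := ⟨_, rfl⟩
  have hm0 : 0 ≤ m := hm ▸ div_nonneg hM hl.le
  have hMm : M = m * l := by rw [hm, div_mul_cancel₀ _ hl.ne']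
  have hm2 : m ^ 2 ≤ C * δ * l := by
    have h1 : m ^ 2 * l ^ 2 ≤ C * δ * l * l ^ 2 := by
      calc m ^ 2 * l ^ 2 = M ^ 2 := by rw [hMm]; ring
        _ ≤ C * δ * l ^ 3 := hM2
        _ = C * δ * l * l ^ 2 := by ring
    exact le_of_mul_le_mul_right h1 (by positivity)
  have hm3 : m ^ 2 ≤ C * π * δ := by
    refine hm2.trans ?_
    calc C * δ * l ≤ C * δ * π := mul_le_mul_of_nonneg_left hlπ (by positivity)
      _ = C * π * δ := by ring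
  have hm4 : m ≤ c1 * s := by
    rw [hc1, hs, ← Real.sqrt_mul (by positivity), ← Real.sqrt_sq hm0]
    exact Real.sqrt_le_sqrt hm3
  have hQ4 : Q ≤ c2 * s := by
    rw [hc2, hs, ← Real.sqrt_mul hC.le, ← Real.sqrt_sq hQ]
    exact Real.sqrt_le_sqrt hQ2
  have hpC : p + C ≤ (1 + C) * (1 + p) := by nlinarith
  have hA3 : A ≤ C * ((1 + C) * m + l * (p + C)) := by
    refine hA.trans (mul_le_mul_of_nonneg_left ?_ hC.le)
    have h1 : C * M / l ^ 2 * l = C * m := by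
      rw [hm]
      field_simp
    calc M / l + l * (G + C + C * M / l ^ 2) = m + l * (G + C) + C * M / l ^ 2 * l := by
          rw [hm]; ring
      _ = m + l * (G + C) + C * m := by rw [h1]
      _ ≤ m + l * (p + C) + C * m := by
          have := mul_le_mul_of_nonneg_left (add_le_add hGp (le_refl C)) hl.le
          linarith
      _ = (1 + C) * m + l * (p + C) := by ring
  have hA4 : A ≤ C * ((1 + C) * (c1 * s) + l * ((1 + C) * (1 + p))) := by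
    refine hA3.trans (mul_le_mul_of_nonneg_left (add_le_add ?_ ?_) hC.le)
    · exact mul_le_mul_of_nonneg_left hm4 (by positivity)
    · exact mul_le_mul_of_nonneg_left hpC hl.le
  have hG1 : G' - δ ≤ C * m ^ 2 + C * (C * ((1 + C) * (C * δ))) + C * (C * ((p + C) * m)) := by
    have h1 : (G' - δ) * l * l ≤ C * (m * l + A) * m * l := by
      calc (G' - δ) * l * l = (G' - δ) * l ^ 2 := by ring
        _ ≤ C * (M + A) * M := hG'
        _ = C * (m * l + A) * m * l := by rw [hMm]; ring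
    have h2 : (G' - δ) * l ≤ C * (m * l + A) * m := le_of_mul_le_mul_right h1 hl
    have h3 : C * (m * l + A) * m ≤ C * (m * l + C * ((1 + C) * m + l * (p + C))) * m :=
      mul_le_mul_of_nonneg_right (mul_le_mul_of_nonneg_left (add_le_add le_rfl hA3) hC.le) hm0
    have h4 : C * (C * ((1 + C) * m ^ 2)) ≤ C * (C * ((1 + C) * (C * δ * l))) := by
      have : (1 + C) * m ^ 2 ≤ (1 + C) * (C * δ * l) :=
        mul_le_mul_of_nonneg_left hm2 (by positivity)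
      exact mul_le_mul_of_nonneg_left (mul_le_mul_of_nonneg_left this hC.le) hC.le
    have h5 : (G' - δ) * l ≤ (C * m ^ 2 + C * (C * ((1 + C) * (C * δ))) +
        C * (C * ((p + C) * m))) * l := by
      calc (G' - δ) * l ≤ C * (m * l + C * ((1 + C) * m + l * (p + C))) * m := h2.trans h3
        _ = C * m ^ 2 * l + C * (C * ((1 + C) * m ^ 2)) + C * (C * ((p + C) * m)) * l := by ring
        _ ≤ C * m ^ 2 * l + C * (C * ((1 + C) * (C * δ * l))) + C * (C * ((p + C) * m)) * l := by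
            linarith
        _ = _ := by ring
    exact le_of_mul_le_mul_right h5 hl
  have hspl : 0 ≤ s * (1 + p) := by positivity
  have hlp : 0 ≤ l * (1 + p) := by positivity
  have hpm : (p + C) * m ≤ (1 + C) * c1 * (s * (1 + p)) := by
    calc (p + C) * m ≤ ((1 + C) * (1 + p)) * (c1 * s) :=
          mul_le_mul hpC hm4 hm0 (by positivity)
      _ = _ := by ring
  constructor
  · have h1 : C * m ^ 2 ≤ C * (C * π) * δ := by
      calc C * m ^ 2 ≤ C * (C * π * δ) := mul_le_mul_of_nonneg_left hm3 hC.le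
        _ = _ := by ring
    have h2 : C * (C * ((p + C) * m)) ≤ C * (C * ((1 + C) * c1)) * (s * (1 + p)) := by
      calc C * (C * ((p + C) * m)) ≤ C * (C * ((1 + C) * c1 * (s * (1 + p)))) :=
            mul_le_mul_of_nonneg_left (mul_le_mul_of_nonneg_left hpm hC.le) hC.le
        _ = _ := by ring
    have e1 : 0 ≤ C * (C * π) := by positivity
    have e2 : 0 ≤ C * (C * ((1 + C) * C)) := by positivity
    have e3 : 0 ≤ C * (C * ((1 + C) * c1)) := by positivity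
    have e4 : 0 ≤ C * (c2 + C * ((1 + C) * c1 + (1 + C)) + π * c1) := by positivity
    have h3 : G' ≤ (1 + C * (C * π) + C * (C * ((1 + C) * C))) * δ +
        C * (C * ((1 + C) * c1)) * (s * (1 + p)) := by
      have : C * (C * ((1 + C) * (C * δ))) = C * (C * ((1 + C) * C)) * δ := by ring
      nlinarith
    generalize C * (C * π) = k1 at *
    generalize C * (C * ((1 + C) * C)) = k2 at *
    generalize C * (C * ((1 + C) * c1)) = k3 at *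
    generalize C * (c2 + C * ((1 + C) * c1 + (1 + C)) + π * c1) = k4 at *
    generalize s * (1 + p) = X at *
    nlinarith [mul_nonneg e3 hδ, mul_nonneg e4 hδ, mul_nonneg e1 hspl, mul_nonneg e2 hspl,
      mul_nonneg e4 hspl]
  · have h1 : Q + A + M ≤ c2 * s + C * ((1 + C) * (c1 * s) + l * ((1 + C) * (1 + p))) +
        π * c1 * s := by
      have h2 : M ≤ π * c1 * s := by
        rw [hMm]
        calc m * l ≤ (c1 * s) * π := mul_le_mul hm4 hlπ hl.le (by positivity)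
          _ = _ := by ring
      linarith
    have h3 : C * (Q + A + M) ≤ C * (c2 + C * ((1 + C) * c1 + (1 + C)) + π * c1) *
        (s + l * (1 + p)) := by
      rw [mul_assoc]
      refine mul_le_mul_of_nonneg_left (h1.trans ?_) hC.le
      have f1 : 0 ≤ c2 * (l * (1 + p)) := by positivity
      have f2 : 0 ≤ C * (1 + C) * c1 * (l * (1 + p)) := by positivity
      have f3 : 0 ≤ C * (1 + C) * s := by positivity
      have f4 : 0 ≤ π * c1 * (l * (1 + p)) := by positivity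
      nlinarith
    refine h3.trans (mul_le_mul_of_nonneg_right ?_ (by positivity))
    have e1 : 0 ≤ 1 + C * (C * π) + C * (C * ((1 + C) * C)) + C * (C * ((1 + C) * c1)) := by
      positivity
    linarith

theorem OO_Gam {T C K t Λ : ℝ} (hC : 0 < C) (hK : 0 ≤ K) (ht : 0 ≤ t) (htT : t ≤ T)
    (hΛ : 0 ≤ Λ) {J δ G G' : ℝ → ℝ} (cJ : ContinuousOn J (Icc 0 t))
    (cG : ContinuousOn G (Icc 0 t)) (dJ : ∀ r ∈ Ioo (0:ℝ) t, HasDerivAt J (δ r) r)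
    (dG : ∀ r ∈ Ioo (0:ℝ) t, HasDerivAt G (G' r) r) (h0 : J 0 = 0)
    (hδ : ∀ r ∈ Ioo (0:ℝ) t, 0 ≤ δ r)
    (hG : ∀ r ∈ Ioo (0:ℝ) t, G' r ≤ K * (δ r + Real.sqrt (δ r) * (1 + max (G r) 0)))
    (hG0 : G 0 ≤ C) (hJ : J t ≤ C * (1 + Λ)) :
    0 ≤ J t ∧ 1 + max (G t) 0 ≤
      (1 + Real.log (1 + Real.exp C) + K * C) * (1 + Λ) *
        Real.exp (K / 2 * (T + C) * Real.sqrt (1 + Λ)) := by
  have hκ : 0 < Real.sqrt (1 + Λ) := Real.sqrt_pos.2 (by linarith)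
  have hκ2 : Real.sqrt (1 + Λ) * Real.sqrt (1 + Λ) = 1 + Λ := Real.mul_self_sqrt (by linarith)
  obtain ⟨h1, h2⟩ := ode_G ht hK hκ cJ cG dJ dG h0 hδ hG
  refine ⟨h1, h2.trans ?_⟩
  have hy0 : 0 ≤ Real.log (1 + Real.exp C) :=
    Real.log_nonneg (by linarith [Real.exp_pos C])
  have hy1 : Real.log (1 + Real.exp (G 0)) ≤ Real.log (1 + Real.exp C) :=
    Real.log_le_log (by linarith [Real.exp_pos (G 0)]) (by linarith [Real.exp_le_exp.2 hG0])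
  have hJκ : J t / Real.sqrt (1 + Λ) ≤ C * Real.sqrt (1 + Λ) := by
    rw [div_le_iff₀ hκ, mul_assoc, hκ2]
    exact hJ
  have hA : 1 + Real.log (1 + Real.exp (G 0)) + K * J t ≤
      (1 + Real.log (1 + Real.exp C) + K * C) * (1 + Λ) := by
    have h3 : K * J t ≤ K * (C * (1 + Λ)) := mul_le_mul_of_nonneg_left hJ hK
    nlinarith [mul_nonneg hy0 hΛ]
  have hE : K / 2 * (Real.sqrt (1 + Λ) * t + J t / Real.sqrt (1 + Λ)) ≤
      K / 2 * (T + C) * Real.sqrt (1 + Λ) := by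
    have h3 : Real.sqrt (1 + Λ) * t ≤ Real.sqrt (1 + Λ) * T :=
      mul_le_mul_of_nonneg_left htT hκ.le
    calc K / 2 * (Real.sqrt (1 + Λ) * t + J t / Real.sqrt (1 + Λ)) ≤
        K / 2 * (Real.sqrt (1 + Λ) * T + C * Real.sqrt (1 + Λ)) :=
          mul_le_mul_of_nonneg_left (add_le_add h3 hJκ) (by positivity)
      _ = _ := by ring
  refine mul_le_mul hA (Real.exp_le_exp.2 hE) (Real.exp_pos _).le ?_
  have : 0 ≤ K * C := mul_nonneg hK hC.le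
  positivity

theorem OO_Lam {T C K Λ X t0 t1 : ℝ} (hK : 0 ≤ K) (hX : 0 ≤ X) (hΛ : 0 ≤ Λ)
    (h0 : 0 ≤ t0) (h01 : t0 ≤ t1) (h1T : t1 ≤ T) {J δ L L' : ℝ → ℝ}
    (cJ : ContinuousOn J (Icc 0 t1)) (cL : ContinuousOn L (Icc 0 t1))
    (dJ : ∀ r ∈ Ioo (0:ℝ) t1, HasDerivAt J (δ r) r)
    (dL : ∀ r ∈ Ioo (0:ℝ) t1, HasDerivAt L (L' r) r)
    (hδ : ∀ r ∈ Ioo (0:ℝ) t1, 0 ≤ δ r)
    (hL : ∀ r ∈ Ioo t0 t1, L' r ≤ K * (Real.sqrt (δ r) + X))
    (hJ0 : 0 ≤ J t0) (hJ : J t1 ≤ C * (1 + Λ)) :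
    L t1 - L t0 ≤ K * ((Real.sqrt (1 + Λ) * T + C * Real.sqrt (1 + Λ)) / 2 + T * X) := by
  obtain ⟨κ, hκdef⟩ : ∃ κ, κ = Real.sqrt (1 + Λ) := ⟨_, rfl⟩
  have hκ : 0 < κ := hκdef ▸ Real.sqrt_pos.2 (by linarith)
  have hκ2 : κ * κ = 1 + Λ := by rw [hκdef]; exact Real.mul_self_sqrt (by linarith)
  rw [← hκdef]
  set h : ℝ → ℝ := fun r => L r - K * ((κ * r + J r / κ) / 2 + X * r) with hh
  have hsub : Icc t0 t1 ⊆ Icc 0 t1 := Icc_subset_Icc_left h0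
  have hcont : ContinuousOn h (Icc t0 t1) := by
    refine (cL.mono hsub).sub (continuousOn_const.mul ?_)
    exact (((continuousOn_const.mul continuousOn_id).add ((cJ.mono hsub).div_const κ)).div_const
      2).add (continuousOn_const.mul continuousOn_id)
  have hder : ∀ r ∈ Ioo t0 t1, HasDerivAt h (L' r - K * ((κ * 1 + δ r / κ) / 2 + X * 1)) r := by
    intro r hr
    have hr' : r ∈ Ioo (0:ℝ) t1 := ⟨h0.trans_lt hr.1, hr.2⟩
    exact (dL r hr').sub (((((hasDerivAt_id r).const_mul κ).add ((dJ r hr').div_const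
      κ)).div_const 2 |>.add ((hasDerivAt_id r).const_mul X)).const_mul K)
  have hanti : AntitoneOn h (Icc t0 t1) := by
    refine antitoneOn_of_deriv_nonpos (convex_Icc _ _) hcont ?_ ?_
    · rw [interior_Icc]
      exact fun r hr => (hder r hr).differentiableAt.differentiableWithinAt
    · rw [interior_Icc]
      intro r hr
      rw [(hder r hr).deriv]
      have hr' : r ∈ Ioo (0:ℝ) t1 := ⟨h0.trans_lt hr.1, hr.2⟩
      have hs : Real.sqrt (δ r) ≤ (κ + δ r / κ) / 2 := by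
        have h2 : Real.sqrt (δ r) * Real.sqrt (δ r) = δ r := Real.mul_self_sqrt (hδ r hr')
        have h3 : κ * (2 * Real.sqrt (δ r)) ≤ κ * (κ + δ r / κ) := by
          rw [mul_add, mul_div_cancel₀ _ hκ.ne']
          nlinarith [sq_nonneg (κ - Real.sqrt (δ r))]
        have h4 := le_of_mul_le_mul_left h3 hκ
        linarith
      have h5 : K * (Real.sqrt (δ r) + X) ≤ K * ((κ * 1 + δ r / κ) / 2 + X * 1) := by
        refine mul_le_mul_of_nonneg_left ?_ hK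
        rw [mul_one, mul_one]
        linarith
      linarith [hL r hr]
  have h2 := hanti (left_mem_Icc.2 h01) (right_mem_Icc.2 h01) h01
  simp only [hh] at h2
  have hJκ : J t1 / κ ≤ C * κ := by
    rw [div_le_iff₀ hκ, mul_assoc, hκ2]
    exact hJ
  have hJ0κ : 0 ≤ J t0 / κ := div_nonneg hJ0 hκ.le
  have h3 : K * ((κ * t1 + J t1 / κ) / 2 + X * t1) - K * ((κ * t0 + J t0 / κ) / 2 + X * t0) ≤
      K * ((κ * T + C * κ) / 2 + T * X) := by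
    rw [← mul_sub]
    refine mul_le_mul_of_nonneg_left ?_ hK
    have e1 : κ * t1 ≤ κ * T := mul_le_mul_of_nonneg_left h1T hκ.le
    have e2 : 0 ≤ κ * t0 := mul_nonneg hκ.le h0
    have e3 : X * t1 ≤ X * T := mul_le_mul_of_nonneg_left h1T hX
    have e4 : 0 ≤ X * t0 := mul_nonneg hX h0
    linarith
  linarith

theorem closing (T C : ℝ) (hT : 0 < T) (hC : 0 < C) : ∃ B : ℝ, ∀ b : ℝ, 0 < b → b ≤ T →
    ∀ (J δ G G' L1 L1' L2 L2' M Q A l : ℝ → ℝ),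
    (∀ t ∈ Ioo (0:ℝ) b, HasDerivAt J (δ t) t ∧ HasDerivAt G (G' t) t ∧
      HasDerivAt L1 (L1' t) t ∧ HasDerivAt L2 (L2' t) t) →
    (ContinuousOn J (Ico (0:ℝ) b) ∧ ContinuousOn G (Ico (0:ℝ) b) ∧
      ContinuousOn L1 (Ico (0:ℝ) b) ∧ ContinuousOn L2 (Ico (0:ℝ) b)) →
    (∀ t ∈ Ico (0:ℝ) b, 0 ≤ δ t ∧ 0 ≤ M t ∧ 0 ≤ Q t ∧ 0 ≤ A t) →
    (∀ t ∈ Ico (0:ℝ) b, l t = Real.exp (-(max (L1 t) (L2 t))) ∧ l t ≤ π) →
    J 0 = 0 → G 0 ≤ C → L1 0 ≤ C → L2 0 ≤ C →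
    (∀ t ∈ Ico (0:ℝ) b, M t ^ 2 ≤ C * δ t * l t ^ 3 ∧ Q t ^ 2 ≤ C * δ t) →
    (∀ t ∈ Ico (0:ℝ) b, (G' t - δ t) * l t ^ 2 ≤ C * (M t + A t) * M t) →
    (∀ t ∈ Ico (0:ℝ) b, 0 ≤ G t + C + C * M t / l t ^ 2 ∧
      A t ≤ C * (M t / l t + l t * (G t + C + C * M t / l t ^ 2))) →
    (∀ t ∈ Ico (0:ℝ) b, L1' t ≤ C * (Q t + A t + M t) ∧ L2' t ≤ C * (Q t + A t + M t)) →
    (∀ t ∈ Ico (0:ℝ) b, ∀ Λ : ℝ, 0 ≤ Λ → (∀ s ∈ Icc (0:ℝ) t, L1 s ≤ Λ ∧ L2 s ≤ Λ) →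
      J t ≤ C * (1 + Λ)) →
    ∀ t ∈ Ico (0:ℝ) b, L1 t ≤ B ∧ L2 t ≤ B ∧ J t ≤ B ∧ G t ≤ B := by
  obtain ⟨K, hK, halg⟩ := OO_alg hC
  obtain ⟨N, hN⟩ : ∃ N, N = 1 + Real.log (1 + Real.exp C) + K * C := ⟨_, rfl⟩
  have hN0 : 0 ≤ N := by
    rw [hN]
    have : 0 ≤ Real.log (1 + Real.exp C) := Real.log_nonneg (by linarith [Real.exp_pos C])
    positivity
  obtain ⟨B0, hB0⟩ := growth (K * (T + C) / 2) (K * T * N) (K / 2 * (T + C)) (by positivity)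
    (by positivity) (by positivity)
  obtain ⟨B1, hB1⟩ : ∃ B1, B1 = max B0 (2 * C) := ⟨_, rfl⟩
  have hB10 : B0 ≤ B1 := hB1 ▸ le_max_left _ _
  have hB12 : 2 * C ≤ B1 := hB1 ▸ le_max_right _ _
  have hB1n : 0 ≤ B1 := by linarith
  refine ⟨max B1 (max (C * (1 + B1))
    (N * (1 + B1) * Real.exp (K / 2 * (T + C) * Real.sqrt (1 + B1)))), ?_⟩
  intro b hb hbT J δ G G' L1 L1' L2 L2' M Q A l hd hc hnn hl hJ0 hG0 hL10 hL20 hMQ hG' hA hL'
    hJ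
  have hkey : ∀ t ∈ Ico (0:ℝ) b,
      G' t ≤ K * (δ t + Real.sqrt (δ t) * (1 + max (G t) 0)) ∧
      C * (Q t + A t + M t) ≤ K * (Real.sqrt (δ t) + l t * (1 + max (G t) 0)) := fun t ht =>
    halg (δ t) (M t) (Q t) (A t) (l t) (G t) (G' t) (hnn t ht).1 (hnn t ht).2.1 (hnn t ht).2.2.1
      (by rw [(hl t ht).1]; exact Real.exp_pos _) (hl t ht).2 (hMQ t ht).1 (hMQ t ht).2
      (hG' t ht) (hA t ht).2
  have hIcc : ∀ t ∈ Ico (0:ℝ) b, Icc (0:ℝ) t ⊆ Ico 0 b := fun t ht s hs =>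
    ⟨hs.1, hs.2.trans_lt ht.2⟩
  have hIoo : ∀ t ∈ Ico (0:ℝ) b, Ioo (0:ℝ) t ⊆ Ioo 0 b := fun t ht s hs =>
    ⟨hs.1, hs.2.trans ht.2⟩
  have hGam : ∀ t ∈ Ico (0:ℝ) b, ∀ Λ : ℝ, 0 ≤ Λ → (∀ s ∈ Icc (0:ℝ) t, L1 s ≤ Λ ∧ L2 s ≤ Λ) →
      0 ≤ J t ∧ 1 + max (G t) 0 ≤
        N * (1 + Λ) * Real.exp (K / 2 * (T + C) * Real.sqrt (1 + Λ)) := by
    intro t ht Λ hΛ hs
    rw [hN]
    exact OO_Gam hC hK ht.1 (ht.2.le.trans hbT) hΛ (hc.1.mono (hIcc t ht))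
      (hc.2.1.mono (hIcc t ht)) (fun r hr => (hd r (hIoo t ht hr)).1)
      (fun r hr => (hd r (hIoo t ht hr)).2.1) hJ0
      (fun r hr => (hnn r ⟨hr.1.le, hr.2.trans ht.2⟩).1)
      (fun r hr => (hkey r ⟨hr.1.le, hr.2.trans ht.2⟩).1) hG0 (hJ t ht Λ hΛ hs)
  have claim : ∀ (L L' : ℝ → ℝ), (∀ t ∈ Ioo (0:ℝ) b, HasDerivAt L (L' t) t) →
      ContinuousOn L (Ico (0:ℝ) b) → L 0 ≤ C →
      (∀ t ∈ Ico (0:ℝ) b, L' t ≤ C * (Q t + A t + M t)) →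
      (∀ t ∈ Ico (0:ℝ) b, L t ≤ max (L1 t) (L2 t)) → ∀ t1 ∈ Ico (0:ℝ) b,
      (∀ s ∈ Icc (0:ℝ) t1, L1 s ≤ L t1 ∧ L2 s ≤ L t1) → L t1 ≤ B1 := by
    intro L L' hLd hLc hLC hLb hLm t1 ht1 hmax
    by_contra hlt
    push Not at hlt
    have hΛ : 0 ≤ L t1 := by linarith
    obtain ⟨t0, ht0, hLt0, hge⟩ := last_time ht1.1 (hLc.mono (hIcc t1 ht1))
      (show L 0 ≤ L t1 / 2 by linarith) (show L t1 / 2 ≤ L t1 by linarith)
    have ht0b : t0 ∈ Ico (0:ℝ) b := hIcc t1 ht1 ht0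
    set Γ : ℝ := N * (1 + L t1) * Real.exp (K / 2 * (T + C) * Real.sqrt (1 + L t1)) with hΓ
    have hΓ0 : 0 ≤ Γ := by positivity
    have h1 := OO_Lam (T := T) (C := C) (K := K) (Λ := L t1)
      (X := Real.exp (-(L t1 / 2)) * Γ) hK (mul_nonneg (Real.exp_pos _).le hΓ0) hΛ ht0.1 ht0.2
      (ht1.2.le.trans hbT) (hc.1.mono (hIcc t1 ht1)) (hLc.mono (hIcc t1 ht1))
      (fun r hr => (hd r (hIoo t1 ht1 hr)).1) (fun r hr => hLd r (hIoo t1 ht1 hr))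
      (fun r hr => (hnn r ⟨hr.1.le, hr.2.trans ht1.2⟩).1)
      (by
        intro r hr
        have hrb : r ∈ Ico (0:ℝ) b := ⟨ht0.1.trans hr.1.le, hr.2.trans ht1.2⟩
        refine (hLb r hrb).trans ((hkey r hrb).2.trans (mul_le_mul_of_nonneg_left ?_ hK))
        refine add_le_add le_rfl (mul_le_mul ?_ ?_ ?_ (Real.exp_pos _).le)
        · rw [(hl r hrb).1]
          refine Real.exp_le_exp.2 (neg_le_neg ?_)
          exact (hge r ⟨hr.1.le, hr.2.le⟩).trans (hLm r hrb)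
        · exact (hGam r hrb (L t1) hΛ (fun s hs => hmax s ⟨hs.1, hs.2.trans hr.2.le⟩)).2
        · have : 0 ≤ max (G r) 0 := le_max_right _ _
          linarith)
      (hGam t0 ht0b (L t1) hΛ (fun s hs => hmax s ⟨hs.1, hs.2.trans ht0.2⟩)).1
      (hJ t1 ht1 (L t1) hΛ hmax)
    rw [hLt0] at h1
    have h2 : L t1 ≤ B0 := by
      refine hB0 (L t1) hΛ ?_
      have h3 : Real.exp (-(L t1 / 2)) * Γ = N * (1 + L t1) *
          Real.exp (K / 2 * (T + C) * Real.sqrt (1 + L t1) - L t1 / 2) := by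
        rw [hΓ, sub_eq_add_neg, Real.exp_add]
        ring
      rw [h3] at h1
      calc L t1 / 2 = L t1 - L t1 / 2 := by ring
        _ ≤ _ := h1
        _ = _ := by ring
    linarith
  have hΛ : ∀ t1 ∈ Ico (0:ℝ) b, ∀ s ∈ Icc (0:ℝ) t1, L1 s ≤ B1 ∧ L2 s ≤ B1 := by
    intro t1 ht1
    have hm : ContinuousOn (fun t => max (L1 t) (L2 t)) (Icc (0:ℝ) t1) :=
      ContinuousOn.sup (hc.2.2.1.mono (hIcc t1 ht1)) (hc.2.2.2.mono (hIcc t1 ht1))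
    obtain ⟨ts, hts, hmax⟩ := isCompact_Icc.exists_isMaxOn ⟨0, left_mem_Icc.2 ht1.1⟩ hm
    have htsb : ts ∈ Ico (0:ℝ) b := hIcc t1 ht1 hts
    have hmax' : ∀ s ∈ Icc (0:ℝ) t1, max (L1 s) (L2 s) ≤ max (L1 ts) (L2 ts) :=
      fun s hs => hmax hs
    have hB : max (L1 ts) (L2 ts) ≤ B1 := by
      have hsub : ∀ s ∈ Icc (0:ℝ) ts, s ∈ Icc (0:ℝ) t1 := fun s hs => ⟨hs.1, hs.2.trans hts.2⟩
      rcases max_choice (L1 ts) (L2 ts) with h | h
      · rw [h]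
        refine claim L1 L1' (fun t ht => (hd t ht).2.2.1) hc.2.2.1 hL10
          (fun t ht => (hL' t ht).1) (fun t _ => le_max_left _ _) ts htsb (fun s hs => ?_)
        have := hmax' s (hsub s hs)
        rw [h] at this
        exact ⟨(le_max_left _ _).trans this, (le_max_right _ _).trans this⟩
      · rw [h]
        refine claim L2 L2' (fun t ht => (hd t ht).2.2.2) hc.2.2.2 hL20
          (fun t ht => (hL' t ht).2) (fun t _ => le_max_right _ _) ts htsb (fun s hs => ?_)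
        have := hmax' s (hsub s hs)
        rw [h] at this
        exact ⟨(le_max_left _ _).trans this, (le_max_right _ _).trans this⟩
    intro s hs
    have := (hmax' s hs).trans hB
    exact ⟨(le_max_left _ _).trans this, (le_max_right _ _).trans this⟩
  intro t ht
  have h1 := hΛ t ht t (right_mem_Icc.2 ht.1)
  have h2 := hJ t ht B1 hB1n (hΛ t ht)
  have h3 := (hGam t ht B1 hB1n (hΛ t ht)).2
  refine ⟨h1.1.trans (le_max_left _ _), h1.2.trans (le_max_left _ _),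
    h2.trans ((le_max_left _ _).trans (le_max_right _ _)), ?_⟩
  have h4 : G t ≤ max (G t) 0 := le_max_left _ _
  refine le_trans ?_ ((le_max_right _ _).trans (le_max_right _ _))
  linarith

end Pool.Agent.H51.DG
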