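import Pool.Agent.H45.DY.JL
import Pool.Agent.H51.DG.VT
import Pool.Agent.H45.DY.GGid
import Pool.Agent.H45.DY.EEid
import Pool.Agent.H45.DY.MMid
import Pool.Agent.H45.DY.Arcs
import Pool.Agent.H45.DY.Shift
import Pool.Agent.H51.DG.OO
import Pool.Agent.H51.DG.HH

/-!
# DG2 job FB: application of the closing lemma

For `Dyn w u X e c T'` with `0 < T' ≤ T`, `b := T'`; functions of `t`:
`J = Jt`, `δ = -FF (We) (el)`, `M = Ma (We)`, `Q = QQ (We) (el)`, `A = AA (We) (el)`, `l = mn (el)`,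
`L1 = -log el`, `L2 = -log (2π - el)` (`L1_hasDerivAt`, `L2_hasDerivAt`, `mn_exp`, `mn_le`),
`G t = GG (We 0) (el 0) + (EI c (e+2π) t - EI e c t) - (JI e e c t + JI (e+2π) c (e+2π) t)
  - (JI c e c t + JI c c (e+2π) t)` (`= GG (We t) (el t)` for `t ∈ [0,T']`, `GG_dyn`), and
`G' t = (ED c (e+2π) t - ED e c t) - (JD ..) - (JD ..)` (`EI_hasDerivAt`, `JI_hasDerivAt`), for `t ∈ [0,T']`
`G' t - δ t = E2 (Wc) (2π-el) + FF (Wc) (2π-el)` (`E2_Wc`, `FF_We`, `FF_Wc`).
Hypotheses of `closing`, `C` a large constant depending on `w0, e, c, T`: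
* signs: `statA`, integrals of nonnegative functions (`vp ≥ 0` where it matters:
  `vp ξ = 1/(2 sin(ξ/2))`, `0 < ξ ≤ π`, or `1/2`; at most one point is exceptional);
* `J 0 = 0`; `G 0 = GG (We 0) (el 0)`, `We 0 x = w0 (e + x)`, `el 0 = c - e` (`Flow.init`) depend on the
  data only, `L1 0 = -log (c-e)`, `L2 0 = -log (2π - (c-e))`;
* `statA` for `We` (`h.nrm_We`, `h.lip_We`, `mean_We`);
* `statB` for `Wc`, `2π - el` (`h.nrm_Wc`, `h.sm_Wc`, `mean_Wc`), with `Ma (Wc) = Ma (We)`,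
  `QQ (Wc) (2π-el) = AA (We) (el)`, `mn (2π-el) = mn (el)` (`Wc_eq`, `shift_Ma`, `shift_QQ`, `shift_mn`);
* `EG_bounds` for `We`: `EG = GG + 4 (|We' 0| + |We' (el)|) + π² Ma/mn²`, the slopes are conserved
  (`slope_e`, `slope_c`), so `EG ≤ G + C + C M/l²`;
* `UU_l_ge`, `UU_l_le`: `L1' ≤ QQ + AA`, `L2' ≤ QQ + AA`;
* `J_closing`.
Conclusion: `L1, L2 ≤ B`, so `mn (el) = exp (-max L1 L2) ≥ exp (-B)`.
-/

set_option autoImplicit false
open Real Set MeasureTheory Filter Topology

namespace Pool.Agent.H51.DG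
open Pool.Agent.H45.FL Pool.Agent.H45.DY

private theorem FB_vp {ξ : ℝ} (h0 : 0 ≤ ξ) : 0 ≤ vp ξ := by
  unfold vp
  split_ifs with h
  · have : 0 ≤ Real.sin (ξ / 2) :=
      Real.sin_nonneg_of_nonneg_of_le_pi (by linarith) (by linarith [Real.pi_pos])
    positivity
  · norm_num

private theorem FB_Ma (W : ℝ → ℝ) : 0 ≤ Ma W := by
  refine intervalIntegral.integral_nonneg ?_ fun x _ => abs_nonneg _
  have := Real.pi_pos
  positivity

private theorem FB_QQ (W : ℝ → ℝ) (l : ℝ) : 0 ≤ QQ W l := by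
  have hp := Real.pi_pos
  refine intervalIntegral.integral_nonneg (by positivity) fun x hx => ?_
  refine mul_nonneg (abs_nonneg _) (FB_vp ?_)
  unfold dst
  split_ifs
  · exact hx.1
  · linarith [hx.2]

private theorem FB_AA (W : ℝ → ℝ) (l : ℝ) : 0 ≤ AA W l := by
  have hp := Real.pi_pos
  refine intervalIntegral.integral_nonneg (by positivity) fun x hx => ?_
  refine mul_nonneg (abs_nonneg _) (FB_vp ?_)
  unfold ds2
  split_ifs with h
  · linarith
  · linarith

/-- the Lagrangian form of the energy -/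
private noncomputable def FB_G (w u : ℝ × ℝ → ℝ) (X : ℝ → ℝ → ℝ) (e c t : ℝ) : ℝ :=
  GG (We w X e 0) (el X e c 0) +
      (EI w u X c (e + 2 * π) t - EI w u X e c t) -
      (JI w u X e e c t + JI w u X (e + 2 * π) c (e + 2 * π) t) -
      (JI w u X c e c t + JI w u X c c (e + 2 * π) t)

/-- its derivative -/
private noncomputable def FB_D (w u : ℝ × ℝ → ℝ) (X : ℝ → ℝ → ℝ) (e c t : ℝ) : ℝ :=
  (ED w u X c (e + 2 * π) t - ED w u X e c t) -
      (JD w u X e e c t + JD w u X (e + 2 * π) c (e + 2 * π) t) -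
      (JD w u X c e c t + JD w u X c c (e + 2 * π) t)

private theorem FB_der {w u : ℝ × ℝ → ℝ} {X : ℝ → ℝ → ℝ} {e c T : ℝ} (h : Dyn w u X e c T)
    (t : ℝ) : HasDerivAt (FB_G w u X e c) (FB_D w u X e c t) t := by
  have h1 := (EI_hasDerivAt h.cs h.fl c (e + 2 * π) t).sub (EI_hasDerivAt h.cs h.fl e c t)
  have h2 := (JI_hasDerivAt h.cs h.fl h.arc_e_R t).add (JI_hasDerivAt h.cs h.fl h.arc_e_L t)
  have h3 := (JI_hasDerivAt h.cs h.fl h.arc_c_R t).add (JI_hasDerivAt h.cs h.fl h.arc_c_L t)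
  exact ((h1.const_add (GG (We w X e 0) (el X e c 0))).sub h2).sub h3

private theorem FB_Dδ {w u : ℝ × ℝ → ℝ} {X : ℝ → ℝ → ℝ} {e c T : ℝ} (h : Dyn w u X e c T)
    (t : ℝ) (ht : t ∈ Icc 0 T) :
    FB_D w u X e c t - -FF (We w X e t) (el X e c t) =
      FF (Wc w X c t) (2 * π - el X e c t) + E2 (Wc w X c t) (2 * π - el X e c t) := by
  rw [FF_We h t ht, FF_Wc h t ht, E2_Wc h t ht]
  unfold FB_D
  ring

theorem closed (w0 : ℝ → ℝ) (e c : ℝ) (hg : Good w0 e c) (T : ℝ) (hT : 0 < T) :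
    ∃ B : ℝ, ∀ (w u : ℝ × ℝ → ℝ) (X : ℝ → ℝ → ℝ) (T' : ℝ), Dyn w u X e c T' → T' ≤ T →
      (∀ x, w (0, x) = w0 x) → ∀ t ∈ Ico 0 T',
      Real.exp (-B) ≤ mn (el X e c t) ∧ Jt w u X e c t ≤ B ∧
        GG (We w X e t) (el X e c t) ≤ B := by
  obtain ⟨c1, hc1, hA⟩ := statA
  obtain ⟨C2, hC2, hB⟩ := statB
  obtain ⟨C3, hC3, hE⟩ := EG_bounds
  obtain ⟨C4, hC4, hJ⟩ := J_closing w0 e c hg.smooth hg.per hg.hec hg.hce hg.neg hg.pos hg.mean T hT
  obtain ⟨s1, hs1⟩ : ∃ s1 : ℝ, s1 = 4 * (|deriv (fun x => w0 (e + x)) 0| +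
    |deriv (fun x => w0 (e + x)) (c - e)|) := ⟨_, rfl⟩
  obtain ⟨g0, hg0⟩ : ∃ g0 : ℝ, g0 = GG (fun x => w0 (e + x)) (c - e) := ⟨_, rfl⟩
  obtain ⟨C, hC⟩ : ∃ C : ℝ, C = 1 / c1 + C2 + C3 + C4 + s1 + π ^ 2 + |g0| +
    |Real.log (c - e)| + |Real.log (2 * π - (c - e))| + 1 := ⟨_, rfl⟩
  have hs10 : 0 ≤ s1 := by rw [hs1]; positivity
  have k1 : 0 < 1 / c1 := by positivity
  have k2 : 0 < π ^ 2 := by have := Real.pi_pos; positivity
  have k3 := abs_nonneg g0
  have k4 := abs_nonneg (Real.log (c - e))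
  have k5 := abs_nonneg (Real.log (2 * π - (c - e)))
  have hCpos : 0 < C := by rw [hC]; linarith
  have hCa : 1 / c1 ≤ C := by rw [hC]; linarith
  have hCb : C2 ≤ C := by rw [hC]; linarith
  have hCc : C3 ≤ C := by rw [hC]; linarith
  have hCd : C4 ≤ C := by rw [hC]; linarith
  have hCe : s1 ≤ C := by rw [hC]; linarith
  have hCf : π ^ 2 ≤ C := by rw [hC]; linarith
  have hCg : g0 ≤ C := by
    have := le_abs_self g0
    rw [hC]; linarith
  have hCh : -Real.log (c - e) ≤ C := by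
    have := neg_le_abs (Real.log (c - e))
    rw [hC]; linarith
  have hCi : -Real.log (2 * π - (c - e)) ≤ C := by
    have := neg_le_abs (Real.log (2 * π - (c - e)))
    rw [hC]; linarith
  have hCj : 1 ≤ C := by rw [hC]; linarith
  obtain ⟨B, hBB⟩ := closing T C hT hCpos
  refine ⟨B, ?_⟩
  intro w u X T' h hT' hw0
  rcases h.hT.eq_or_lt with h0 | h0
  · intro t ht
    rw [← h0] at ht
    exact absurd (ht.1.trans_lt ht.2) (lt_irrefl _)
  have hsub : ∀ t ∈ Ico (0:ℝ) T', t ∈ Icc (0:ℝ) T' := fun t ht => ⟨ht.1, ht.2.le⟩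
  have hmean : ∫ x in (0:ℝ)..(2 * π), w (0, x) = 0 := by
    simp only [hw0]; exact hg.mean
  have hW0 : We w X e 0 = fun x => w0 (e + x) := by
    funext x
    unfold We
    rw [h.fl.init, hw0]
  have hel0 : el X e c 0 = c - e := by
    unfold el
    rw [h.fl.init, h.fl.init]
  have hGG : ∀ t ∈ Icc (0:ℝ) T', GG (We w X e t) (el X e c t) = FB_G w u X e c t :=
    fun t ht => GG_dyn h t ht
  have hmn : ∀ t, 0 < mn (el X e c t) := fun t =>
    lt_min (h.el_pos t) (by linarith [h.el_lt t])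
  have hstA : ∀ t ∈ Ico (0:ℝ) T', c1 * Ma (We w X e t) ^ 2 ≤
      (-FF (We w X e t) (el X e c t)) * mn (el X e c t) ^ 3 ∧
      c1 * QQ (We w X e t) (el X e c t) ^ 2 ≤ -FF (We w X e t) (el X e c t) := by
    intro t ht
    obtain ⟨K, hK⟩ := h.lip_We t
    exact hA _ _ K (h.nrm_We t) hK (mean_We h t (hsub t ht) hmean)
  have hδ0 : ∀ t ∈ Ico (0:ℝ) T', 0 ≤ -FF (We w X e t) (el X e c t) := fun t ht =>
    le_trans (by positivity) (hstA t ht).2
  have hinit : FB_G w u X e c 0 ≤ C := by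
    rw [← hGG 0 ⟨le_rfl, h0.le⟩, hW0, hel0, ← hg0]
    exact hCg
  have h2C : ∀ t, ContDiff ℝ 2 (We w X e t) := fun t =>
    (h.sm_We t).of_le (WithTop.coe_le_coe.2 (le_top : (2 : ℕ∞) ≤ ⊤))
  have h2Cc : ∀ t, ContDiff ℝ 2 (Wc w X c t) := fun t =>
    (h.sm_Wc t).of_le (WithTop.coe_le_coe.2 (le_top : (2 : ℕ∞) ≤ ⊤))
  have hEG : ∀ t ∈ Ico (0:ℝ) T', EG (We w X e t) (el X e c t) ≤
      FB_G w u X e c t + C + C * Ma (We w X e t) / mn (el X e c t) ^ 2 := by
    intro t ht
    unfold EG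
    rw [slope_e h t ht.1, slope_c h t ht.1, hW0, hel0, ← hs1, hGG t (hsub t ht)]
    have e1 : π ^ 2 * Ma (We w X e t) / mn (el X e c t) ^ 2 ≤
        C * Ma (We w X e t) / mn (el X e c t) ^ 2 := by
      have := hmn t
      have := FB_Ma (We w X e t)
      gcongr
    linarith
  have key := hBB T' h0 hT' (Jt w u X e c) (fun t => -FF (We w X e t) (el X e c t))
    (FB_G w u X e c) (FB_D w u X e c)
    (fun s => -Real.log (el X e c s)) (fun t => -(UU (We w X e t) (el X e c t) / el X e c t))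
    (fun s => -Real.log (2 * π - el X e c s))
    (fun t => UU (We w X e t) (el X e c t) / (2 * π - el X e c t))
    (fun t => Ma (We w X e t)) (fun t => QQ (We w X e t) (el X e c t))
    (fun t => AA (We w X e t) (el X e c t)) (fun t => mn (el X e c t))
    (fun t ht => ⟨Jt_hasDerivAt h t (Ioo_subset_Icc_self ht), FB_der h t,
      L1_hasDerivAt h t (Ioo_subset_Icc_self ht), L2_hasDerivAt h t (Ioo_subset_Icc_self ht)⟩)
    ⟨fun t ht => (Jt_hasDerivAt h t (hsub t ht)).continuousAt.continuousWithinAt,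
      fun t _ => (FB_der h t).continuousAt.continuousWithinAt,
      fun t ht => (L1_hasDerivAt h t (hsub t ht)).continuousAt.continuousWithinAt,
      fun t ht => (L2_hasDerivAt h t (hsub t ht)).continuousAt.continuousWithinAt⟩
    (fun t ht => ⟨hδ0 t ht, FB_Ma _, FB_QQ _ _, FB_AA _ _⟩)
    (fun t _ => ⟨mn_exp h t, mn_le _⟩)
    (Jt_zero w u X e c) hinit (by show -Real.log (el X e c 0) ≤ C; rw [hel0]; exact hCh)
    (by show -Real.log (2 * π - el X e c 0) ≤ C; rw [hel0]; exact hCi)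
    (by
      intro t ht
      have a1 := hstA t ht
      have a2 := hδ0 t ht
      have a3 := hmn t
      constructor
      · show Ma (We w X e t) ^ 2 ≤ C * -FF (We w X e t) (el X e c t) * mn (el X e c t) ^ 3
        have e1 : Ma (We w X e t) ^ 2 ≤
            1 / c1 * (-FF (We w X e t) (el X e c t) * mn (el X e c t) ^ 3) := by
          rw [one_div, ← div_eq_inv_mul, le_div_iff₀ hc1]
          linarith [a1.1]
        have e2 : 0 ≤ -FF (We w X e t) (el X e c t) * mn (el X e c t) ^ 3 := by positivity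
        rw [mul_assoc]
        exact e1.trans (mul_le_mul_of_nonneg_right hCa e2)
      · show QQ (We w X e t) (el X e c t) ^ 2 ≤ C * -FF (We w X e t) (el X e c t)
        have e1 : QQ (We w X e t) (el X e c t) ^ 2 ≤ 1 / c1 * (-FF (We w X e t) (el X e c t)) := by
          rw [one_div, ← div_eq_inv_mul, le_div_iff₀ hc1]
          linarith [a1.2]
        exact e1.trans (mul_le_mul_of_nonneg_right hCa a2))
    (by
      intro t ht
      show (FB_D w u X e c t - -FF (We w X e t) (el X e c t)) * mn (el X e c t) ^ 2 ≤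
        C * (Ma (We w X e t) + AA (We w X e t) (el X e c t)) * Ma (We w X e t)
      rw [FB_Dδ h t (hsub t ht)]
      have a1 := hB _ _ (h.nrm_Wc t) (h2Cc t) (mean_Wc h t (hsub t ht) hmean)
      have hcont : Continuous (We w X e t) := (h.sm_We t).continuous
      have b1 : Ma (Wc w X c t) = Ma (We w X e t) := by
        rw [Wc_eq w X e c t]
        exact shift_Ma _ _ (h.nrm_We t) hcont
      have b2 : QQ (Wc w X c t) (2 * π - el X e c t) = AA (We w X e t) (el X e c t) := by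
        rw [Wc_eq w X e c t]
        exact shift_QQ _ _ (h.nrm_We t) hcont
      rw [shift_mn, b1, b2] at a1
      refine a1.trans ?_
      refine mul_le_mul_of_nonneg_right (mul_le_mul_of_nonneg_right hCb ?_) (FB_Ma _)
      exact add_nonneg (FB_Ma _) (FB_AA _ _))
    (by
      intro t ht
      obtain ⟨a1, a2, -⟩ := hE _ _ (h.nrm_We t) (h2C t)
      have a3 := hEG t ht
      have a4 := hmn t
      have a5 := FB_Ma (We w X e t)
      refine ⟨a1.trans a3, a2.trans ?_⟩
      have b1 : Ma (We w X e t) / mn (el X e c t) +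
          mn (el X e c t) * EG (We w X e t) (el X e c t) ≤
          Ma (We w X e t) / mn (el X e c t) + mn (el X e c t) *
            (FB_G w u X e c t + C + C * Ma (We w X e t) / mn (el X e c t) ^ 2) := by
        have := mul_le_mul_of_nonneg_left a3 a4.le
        linarith
      have b2 : 0 ≤ Ma (We w X e t) / mn (el X e c t) +
          mn (el X e c t) * EG (We w X e t) (el X e c t) := by positivity
      calc C3 * (Ma (We w X e t) / mn (el X e c t) +
          mn (el X e c t) * EG (We w X e t) (el X e c t)) ≤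
          C * (Ma (We w X e t) / mn (el X e c t) +
          mn (el X e c t) * EG (We w X e t) (el X e c t)) :=
            mul_le_mul_of_nonneg_right hCc b2
        _ ≤ _ := mul_le_mul_of_nonneg_left b1 hCpos.le)
    (by
      intro t ht
      obtain ⟨K, hK⟩ := h.lip_We t
      have a1 := UU_l_ge (h.nrm_We t) hK
      have a2 := UU_l_le (h.nrm_We t) hK
      have a3 := FB_QQ (We w X e t) (el X e c t)
      have a4 := FB_AA (We w X e t) (el X e c t)
      have a5 := FB_Ma (We w X e t)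
      have a6 : QQ (We w X e t) (el X e c t) + AA (We w X e t) (el X e c t) ≤
          C * (QQ (We w X e t) (el X e c t) + AA (We w X e t) (el X e c t) +
            Ma (We w X e t)) := by nlinarith
      have hp := h.el_pos t
      have hp2 : 0 < 2 * π - el X e c t := by linarith [h.el_lt t]
      constructor
      · refine le_trans ?_ a6
        show -(UU (We w X e t) (el X e c t) / el X e c t) ≤ _
        rw [← neg_div, div_le_iff₀ hp]
        linarith
      · refine le_trans ?_ a6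
        show UU (We w X e t) (el X e c t) / (2 * π - el X e c t) ≤ _
        rw [div_le_iff₀ hp2]
        linarith)
    (by
      intro t ht Λ hΛ hL
      refine (hJ w u X T' hT' h hw0 t (hsub t ht) Λ hΛ hL).trans ?_
      exact mul_le_mul_of_nonneg_right hCd (by linarith))
  intro t ht
  obtain ⟨b1, b2, b3, b4⟩ := key t ht
  refine ⟨?_, b3, ?_⟩
  · rw [mn_exp h t]
    exact Real.exp_le_exp.2 (neg_le_neg (max_le b1 b2))
  · rw [hGG t (hsub t ht)]
    exact b4

end Pool.Agent.H51.DG
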