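import Pool.Agent.H51.DG.FB

/-!
# DG2 job FC: bound of the mass and of the `H^1` norm

`mass_le`: `Ma (We t) = MI e c t + MI c (e+2π) t =: m t` (`Ma_We`), `m' = MD + MD = 2 ∫ |We| HT We ≤ QQ Ma`
(`MI_hasDerivAt`, `MD_We`, `Ma_growth`), `QQ ≤ (1 + δ/c1)/2`, `δ = -FF (We) (el)` (`hK`, `2q ≤ 1 + q²`), `Ma ≥ 0`, so
`m exp(-(t + Jt t/c1)/2)` is antitone on `[0,t]` (`Jt_hasDerivAt`): `m t ≤ m 0 exp((t + Jt t/c1)/2)`, and
`m 0 = Ma (We 0) = ∫_0^{2π} |w0 (e + x)| dx`.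
`h1_le`: `closed`, `mass_le`, `EG_bounds`: with `mn (el) ≥ exp(-B)`, `EG ≤ B + 4 (|slopes|) + π² m exp(2B)`
(`slope_e`, `slope_c`; `We 0 = w0 (e + ·)`), `∫_0^{2π} (We')² ≤ C (m exp(2B) + EG)² exp(B)`.
`We 0 = 0`, so `We(x)² = (∫_0^x We')² ≤ 2π ∫_0^{2π} (We')²` for `x ∈ [0,2π]` and
`∫_0^{2π} We² ≤ 4π² ∫ (We')²`.  Finally `H1 (w(t,·)) = H1 (We t)` (translation of periodic integrands,
`deriv_We`, `w` periodic).
-/

set_option autoImplicit false
open Real Set MeasureTheory Filter Topology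

namespace Pool.Agent.H51.DG
open Pool.Agent.H45.FL Pool.Agent.H45.DY

variable {w u : ℝ × ℝ → ℝ} {X : ℝ → ℝ → ℝ} {e c T : ℝ}

theorem mass_le {c1 : ℝ} (hc1 : 0 < c1) (h : Dyn w u X e c T)
    (hK : ∀ t ∈ Icc 0 T, c1 * QQ (We w X e t) (el X e c t) ^ 2 ≤ -FF (We w X e t) (el X e c t))
    {t : ℝ} (ht : t ∈ Icc 0 T) :
    Ma (We w X e t) ≤ Ma (We w X e 0) * Real.exp ((t + Jt w u X e c t / c1) / 2) := by
  have h0T : (0:ℝ) ∈ Icc 0 T := ⟨le_rfl, h.hT⟩
  set m : ℝ → ℝ := fun s => MI w u X e c s + MI w u X c (e + 2 * π) s with hm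
  set m' : ℝ → ℝ := fun s => MD w u X e c s + MD w u X c (e + 2 * π) s with hm'
  set P : ℝ → ℝ := fun s => (s + Jt w u X e c s / c1) / 2 with hP
  set P' : ℝ → ℝ := fun s => (1 + -FF (We w X e s) (el X e c s) / c1) / 2 with hP'
  have hsub : ∀ s ∈ Icc 0 t, s ∈ Icc 0 T := fun s hs => ⟨hs.1, hs.2.trans ht.2⟩
  have dm : ∀ s, HasDerivAt m (m' s) s := fun s =>
    (MI_hasDerivAt h.cs h.fl e c s).add (MI_hasDerivAt h.cs h.fl c (e + 2 * π) s)
  have dP : ∀ s ∈ Icc 0 t, HasDerivAt P (P' s) s := fun s hs =>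
    ((hasDerivAt_id s).add ((Jt_hasDerivAt h s (hsub s hs)).div_const c1)).div_const 2
  have hMa : ∀ s ∈ Icc 0 T, Ma (We w X e s) = m s := fun s hs => Ma_We h s hs
  have hMa0 : ∀ s, 0 ≤ Ma (We w X e s) := by
    intro s
    unfold Ma
    exact intervalIntegral.integral_nonneg (by positivity) fun x _ => abs_nonneg _
  have hgr : ∀ s ∈ Icc 0 t, m' s ≤ m s * P' s := by
    intro s hs
    have hsT := hsub s hs
    obtain ⟨K, hLip⟩ := h.lip_We s
    have h1 : m' s ≤ QQ (We w X e s) (el X e c s) * Ma (We w X e s) := by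
      show MD w u X e c s + MD w u X c (e + 2 * π) s ≤ _
      rw [MD_We h s hsT]
      exact Ma_growth (h.nrm_We s) hLip
    have h2 : QQ (We w X e s) (el X e c s) ≤ P' s := by
      have h3 := sq_le_kappa (QQ (We w X e s) (el X e c s)) c1
        (-FF (We w X e s) (el X e c s)) 1 hc1 one_pos (hK s hsT)
      rw [mul_one] at h3
      exact h3
    rw [← hMa s hsT]
    calc m' s ≤ QQ (We w X e s) (el X e c s) * Ma (We w X e s) := h1
      _ ≤ P' s * Ma (We w X e s) := mul_le_mul_of_nonneg_right h2 (hMa0 s)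
      _ = _ := mul_comm _ _
  have key := le_of_deriv_nonneg (fun s => -(m s * Real.exp (-P s)))
    (fun s => -(m' s * Real.exp (-P s) + m s * (Real.exp (-P s) * (-P' s)))) t ht.1
    (fun s hs => ((dm s).mul ((dP s hs).neg.exp)).neg)
    (fun s hs => by
      have h1 := hgr s (Ioo_subset_Icc_self hs)
      have h2 := Real.exp_pos (-P s)
      show 0 ≤ -(m' s * Real.exp (-P s) + m s * (Real.exp (-P s) * (-P' s)))
      nlinarith)
  have hP0 : P 0 = 0 := by
    show (0 + Jt w u X e c 0 / c1) / 2 = 0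
    rw [Jt_zero]
    simp
  have key2 : m t * Real.exp (-P t) ≤ m 0 := by
    have h1 : -(m 0 * Real.exp (-P 0)) ≤ -(m t * Real.exp (-P t)) := key
    rw [hP0, neg_zero, Real.exp_zero, mul_one] at h1
    linarith
  rw [hMa t ht, hMa 0 h0T]
  have h3 : Real.exp (-P t) * Real.exp (P t) = 1 := by
    rw [← Real.exp_add, neg_add_cancel, Real.exp_zero]
  calc m t = m t * Real.exp (-P t) * Real.exp (P t) := by rw [mul_assoc, h3, mul_one]
    _ ≤ m 0 * Real.exp (P t) := mul_le_mul_of_nonneg_right key2 (Real.exp_pos _).le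

/-- Cauchy-Schwarz on `[0,x]`, `x ≤ 2π` -/
theorem FC_cs {g g' : ℝ → ℝ} (hd : ∀ x, HasDerivAt g (g' x) x) (hc : Continuous g') (h0 : g 0 = 0)
    {x : ℝ} (hx : x ∈ Icc 0 (2 * π)) :
    g x ^ 2 ≤ 2 * π * ∫ y in (0:ℝ)..(2 * π), g' y ^ 2 := by
  have hpi := Real.pi_pos
  have h1 : ∫ y in (0:ℝ)..x, g' y = g x := by
    rw [intervalIntegral.integral_eq_sub_of_hasDerivAt (fun y _ => hd y)
      (hc.intervalIntegrable _ _), h0, sub_zero]
  have h2 : 0 ≤ ∫ y in (0:ℝ)..x, (g' y - g x / (2 * π)) ^ 2 :=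
    intervalIntegral.integral_nonneg hx.1 fun y _ => sq_nonneg _
  have h3 : ∫ y in (0:ℝ)..x, (g' y - g x / (2 * π)) ^ 2 =
      (∫ y in (0:ℝ)..x, g' y ^ 2) - 2 * (g x / (2 * π)) * g x + (g x / (2 * π)) ^ 2 * x := by
    have e1 : ∀ y, (g' y - g x / (2 * π)) ^ 2 =
        g' y ^ 2 - 2 * (g x / (2 * π)) * g' y + (g x / (2 * π)) ^ 2 := fun y => by ring
    simp only [e1]
    rw [intervalIntegral.integral_add, intervalIntegral.integral_sub,
      intervalIntegral.integral_const_mul, h1, intervalIntegral.integral_const]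
    · rw [smul_eq_mul, sub_zero, mul_comm x]
    · exact (hc.pow 2).intervalIntegrable _ _
    · exact (hc.const_mul _).intervalIntegrable _ _
    · exact ((hc.pow 2).sub (hc.const_mul _)).intervalIntegrable _ _
    · exact continuous_const.intervalIntegrable _ _
  have h4 : ∫ y in (0:ℝ)..x, g' y ^ 2 ≤ ∫ y in (0:ℝ)..(2 * π), g' y ^ 2 := by
    refine intervalIntegral.integral_mono_interval le_rfl hx.1 hx.2 ?_
      ((hc.pow 2).intervalIntegrable _ _)
    exact Eventually.of_forall fun y => sq_nonneg _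
  rw [h3] at h2
  have h5 : (g x / (2 * π)) ^ 2 * x ≤ (g x / (2 * π)) ^ 2 * (2 * π) :=
    mul_le_mul_of_nonneg_left hx.2 (sq_nonneg _)
  have h6 : (g x / (2 * π)) ^ 2 * (2 * π) = g x ^ 2 / (2 * π) := by
    field_simp
  have h7 : 2 * (g x / (2 * π)) * g x = 2 * (g x ^ 2 / (2 * π)) := by
    field_simp
  rw [h6] at h5
  rw [h7] at h2
  have h8 : g x ^ 2 / (2 * π) ≤ ∫ y in (0:ℝ)..(2 * π), g' y ^ 2 := by linarith
  rw [div_le_iff₀ (by positivity)] at h8
  linarith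

theorem H1_We (h : Dyn w u X e c T) (t : ℝ) :
    H1 (fun x => w (t, x)) ≤ (4 * π ^ 2 + 1) * ∫ x in (0:ℝ)..(2 * π), (deriv (We w X e t) x) ^ 2 := by
  have hpi := Real.pi_pos
  have hsm := h.sm_We t
  have hdiff : Differentiable ℝ (We w X e t) := hsm.differentiable (by simp)
  have hcd : Continuous (deriv (We w X e t)) := hsm.continuous_deriv (by simp)
  have hcW : Continuous (We w X e t) := hsm.continuous
  have h0 : We w X e t 0 = 0 := by
    unfold We
    rw [add_zero]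
    exact h.wzero_e t
  have e1 : ∫ x in (0:ℝ)..(2 * π), (w (t, x)) ^ 2 = ∫ x in (0:ℝ)..(2 * π), (We w X e t x) ^ 2 := by
    have h1 := SC_shift (f := fun x => (w (t, x)) ^ 2)
      (fun x => by
        show (w (t, x + 2 * π)) ^ 2 = _
        rw [h.cs.per]) (X t e)
    rw [← h1]
    refine intervalIntegral.integral_congr fun x _ => ?_
    show (w (t, x + X t e)) ^ 2 = (w (t, X t e + x)) ^ 2
    rw [add_comm]
  have e2 : ∫ x in (0:ℝ)..(2 * π), (deriv (fun x => w (t, x)) x) ^ 2 =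
      ∫ x in (0:ℝ)..(2 * π), (deriv (We w X e t) x) ^ 2 := by
    have hp : ∀ x, deriv (fun x => w (t, x)) (x + 2 * π) = deriv (fun x => w (t, x)) x := by
      intro x
      have h1 : (fun y => (fun x => w (t, x)) (y + 2 * π)) = fun x => w (t, x) :=
        funext fun y => h.cs.per t y
      have h2 := deriv_comp_add_const (fun x => w (t, x)) (2 * π) x
      rw [h1] at h2
      exact h2.symm
    have h1 := SC_shift (f := fun x => (deriv (fun x => w (t, x)) x) ^ 2)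
      (fun x => by
        show (deriv (fun x => w (t, x)) (x + 2 * π)) ^ 2 = _
        rw [hp]) (X t e)
    rw [← h1]
    refine intervalIntegral.integral_congr fun x _ => ?_
    show (deriv (fun x => w (t, x)) (x + X t e)) ^ 2 = (deriv (We w X e t) x) ^ 2
    have h2 : deriv (We w X e t) x = deriv (fun x => w (t, x)) (X t e + x) :=
      deriv_comp_const_add (f := fun y => w (t, y)) (X t e) x
    rw [h2, add_comm]
  unfold H1
  rw [e1, e2]
  have h2 : ∫ x in (0:ℝ)..(2 * π), (We w X e t x) ^ 2 ≤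
      ∫ x in (0:ℝ)..(2 * π), (2 * π * ∫ y in (0:ℝ)..(2 * π), (deriv (We w X e t) y) ^ 2) := by
    refine intervalIntegral.integral_mono_on (by positivity) ((hcW.pow 2).intervalIntegrable _ _)
      (continuous_const.intervalIntegrable _ _) fun x hx => ?_
    exact FC_cs (fun y => (hdiff y).hasDerivAt) hcd h0 hx
  rw [intervalIntegral.integral_const, smul_eq_mul, sub_zero] at h2
  nlinarith [h2]

theorem h1_le (w0 : ℝ → ℝ) (e c : ℝ) (hg : Good w0 e c) (T : ℝ) (hT : 0 < T) :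
    ∃ N : ℝ, ∀ (w u : ℝ × ℝ → ℝ) (X : ℝ → ℝ → ℝ) (T' : ℝ), Dyn w u X e c T' → T' ≤ T →
      (∀ x, w (0, x) = w0 x) → ∀ t ∈ Ico 0 T', H1 (fun x => w (t, x)) ≤ N := by
  have hpi := Real.pi_pos
  obtain ⟨B, hB⟩ := closed w0 e c hg T hT
  obtain ⟨c1, hc1, hA⟩ := statA
  obtain ⟨C, hC, hE⟩ := EG_bounds
  obtain ⟨f0, hf0⟩ : ∃ f0 : ℝ → ℝ, f0 = fun x => w0 (e + x) := ⟨_, rfl⟩
  obtain ⟨s1, hs1⟩ : ∃ s1 : ℝ, s1 = deriv f0 0 := ⟨_, rfl⟩
  obtain ⟨s2, hs2⟩ : ∃ s2 : ℝ, s2 = deriv f0 (c - e) := ⟨_, rfl⟩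
  obtain ⟨M', hM'⟩ : ∃ M' : ℝ, M' = Ma f0 * Real.exp ((T + B / c1) / 2) := ⟨_, rfl⟩
  obtain ⟨R, hR⟩ : ∃ R : ℝ, R = M' * Real.exp (2 * B) +
    (B + 4 * (|s1| + |s2|) + π ^ 2 * (M' * Real.exp (2 * B))) := ⟨_, rfl⟩
  refine ⟨(4 * π ^ 2 + 1) * (C * R ^ 2 * Real.exp B), ?_⟩
  intro w u X T' h hT' hw0 t ht
  have htI : t ∈ Icc 0 T' := ⟨ht.1, ht.2.le⟩
  obtain ⟨b1, b2, b3⟩ := hB w u X T' h hT' hw0 t ht
  have hmean : ∫ x in (0:ℝ)..(2 * π), w (0, x) = 0 := by
    simp only [hw0]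
    exact hg.mean
  have hK : ∀ s ∈ Icc 0 T', c1 * QQ (We w X e s) (el X e c s) ^ 2 ≤
      -FF (We w X e s) (el X e c s) := by
    intro s hs
    obtain ⟨K, hK⟩ := h.lip_We s
    exact (hA _ _ K (h.nrm_We s) hK (mean_We h s hs hmean)).2
  have hmass := mass_le hc1 h hK htI
  have hWe0 : We w X e 0 = f0 := by
    funext x
    rw [hf0]
    show w (0, X 0 e + x) = w0 (e + x)
    rw [h.fl.init, hw0]
  have hel0 : el X e c 0 = c - e := by
    unfold el
    rw [h.fl.init, h.fl.init]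
  have hMf : 0 ≤ Ma f0 := by
    unfold Ma
    exact intervalIntegral.integral_nonneg (by positivity) fun x _ => abs_nonneg _
  have hMt : 0 ≤ Ma (We w X e t) := by
    unfold Ma
    exact intervalIntegral.integral_nonneg (by positivity) fun x _ => abs_nonneg _
  have hM1 : Ma (We w X e t) ≤ M' := by
    rw [hWe0] at hmass
    rw [hM']
    refine hmass.trans (mul_le_mul_of_nonneg_left ?_ hMf)
    apply Real.exp_le_exp.2
    have h1 : Jt w u X e c t / c1 ≤ B / c1 := div_le_div_of_nonneg_right b2 hc1.le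
    have h2 := ht.2
    linarith
  have hM'0 : 0 ≤ M' := hMt.trans hM1
  have hmn0 : 0 < mn (el X e c t) := (Real.exp_pos _).trans_le b1
  have hinv : 1 / mn (el X e c t) ≤ Real.exp B := by
    rw [div_le_iff₀ hmn0]
    have h1 : Real.exp B * Real.exp (-B) = 1 := by
      rw [← Real.exp_add, add_neg_cancel, Real.exp_zero]
    rw [← h1]
    exact mul_le_mul_of_nonneg_left b1 (Real.exp_pos _).le
  have hinv0 : 0 ≤ 1 / mn (el X e c t) := by positivity
  have hM2 : Ma (We w X e t) / mn (el X e c t) ^ 2 ≤ M' * Real.exp (2 * B) := by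
    have h1 : Ma (We w X e t) / mn (el X e c t) ^ 2 =
        Ma (We w X e t) * (1 / mn (el X e c t)) ^ 2 := by
      field_simp
    have h2 : Real.exp (2 * B) = Real.exp B ^ 2 := by
      rw [← Real.exp_nat_mul]
      norm_num
    rw [h1, h2]
    exact mul_le_mul hM1 (pow_le_pow_left₀ hinv0 hinv 2) (by positivity) hM'0
  obtain ⟨g1, _, g3⟩ := hE (We w X e t) (el X e c t) (h.nrm_We t)
    ((h.sm_We t).of_le (WithTop.coe_le_coe.2 le_top))
  have hEG : EG (We w X e t) (el X e c t) ≤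
      B + 4 * (|s1| + |s2|) + π ^ 2 * (M' * Real.exp (2 * B)) := by
    unfold EG
    rw [slope_e h t ht.1, slope_c h t ht.1, hWe0, hel0, ← hs1, ← hs2]
    have h1 : π ^ 2 * Ma (We w X e t) / mn (el X e c t) ^ 2 ≤
        π ^ 2 * (M' * Real.exp (2 * B)) := by
      rw [mul_div_assoc]
      exact mul_le_mul_of_nonneg_left hM2 (by positivity)
    linarith
  have hR1 : Ma (We w X e t) / mn (el X e c t) ^ 2 + EG (We w X e t) (el X e c t) ≤ R := by
    rw [hR]
    exact add_le_add hM2 hEG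
  have hR0 : 0 ≤ Ma (We w X e t) / mn (el X e c t) ^ 2 + EG (We w X e t) (el X e c t) := by
    have : 0 ≤ Ma (We w X e t) / mn (el X e c t) ^ 2 := by positivity
    linarith
  have hfin : ∫ x in (0:ℝ)..(2 * π), (deriv (We w X e t) x) ^ 2 ≤ C * R ^ 2 * Real.exp B := by
    refine g3.trans ?_
    rw [div_eq_mul_one_div]
    refine mul_le_mul ?_ hinv hinv0 (by positivity)
    exact mul_le_mul_of_nonneg_left (pow_le_pow_left₀ hR0 hR1 2) hC.le
  exact (H1_We h t).trans (mul_le_mul_of_nonneg_left hfin (by positivity))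

end Pool.Agent.H51.DG
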