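import Pool.Agent.H51.DG.KerN

/-!
# DG2: quadratic forms on `(0,π)²` and their logarithmic versions (definitions)
-/

set_option autoImplicit false
open Real Set MeasureTheory Filter Topology

namespace Pool.Agent.H51.DG

/-- `∫∫_{(0,π)²} p(x) q(y) K(cot(x/2), cot(y/2))` -/
noncomputable def form (p q : ℝ → ℝ) (K : ℝ → ℝ → ℝ) : ℝ :=
  ∫ z in (Ioo (0:ℝ) π ×ˢ Ioo (0:ℝ) π), p z.1 * q z.2 * K (ct z.1) (ct z.2)

/-- integrability of the integrand of `form` -/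
def FInt (p q : ℝ → ℝ) (K : ℝ → ℝ → ℝ) : Prop :=
  IntegrableOn (fun z : ℝ × ℝ => p z.1 * q z.2 * K (ct z.1) (ct z.2))
    (Ioo (0:ℝ) π ×ˢ Ioo (0:ℝ) π)

/-- functions on `(0,π)` used for the forms: continuous, nonnegative on `[0,π]`, zero near `0` -/
structure Bd (b : ℝ → ℝ) : Prop where
  c : Continuous b
  nn : ∀ x ∈ Icc (0:ℝ) π, 0 ≤ b x
  z : ∃ δ : ℝ, 0 < δ ∧ ∀ x, 0 ≤ x → x ≤ δ → b x = 0

/-- `θ r = 2 arctan (e^r)`, so that `cot (θ r / 2) = e^{-r}` -/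
noncomputable def th (r : ℝ) : ℝ := 2 * Real.arctan (Real.exp r)

/-- `θ' r` -/
noncomputable def thd (r : ℝ) : ℝ := 2 * Real.exp r / (1 + Real.exp r ^ 2)

/-- cumulative mass in the logarithmic variable -/
noncomputable def MMb (b : ℝ → ℝ) (r : ℝ) : ℝ := ∫ x in (0:ℝ)..(th r), b x

noncomputable def Am (m : ℝ) (b : ℝ → ℝ) (r : ℝ) : ℝ := Real.exp (-(m * r)) * MMb b r

noncomputable def Amd (m : ℝ) (b : ℝ → ℝ) (r : ℝ) : ℝ :=
  Real.exp (-(m * r)) * (b (th r) * thd r) - m * Am m b r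

/-- the dissipation of one side -/
noncomputable def N3 (b : ℝ → ℝ) : ℝ := 2 * ∫ τ in Ioi (0:ℝ), Lpp τ * DD (Am (3 / 2) b) τ

end Pool.Agent.H51.DG
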