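import Pool.Agent.H51.DG.St

/-!
# DG2 job HA: half arcs, boundedness of the deficit density

`qq a ξ = (a' - (a/2) ct ξ)^2 / a` (`0/0 = 0` at interior zeros of `a`, where `a' = 0`).
`qq_bounded`: let `K` bound `|a'|, |a''|` on `[0,2h]`.
* Glaeser, `ε ≤ x ≤ h`: `a(x ± t) ≥ 0` for `0 ≤ t ≤ ε ≤ h`, so `|a'(x)| t ≤ a(x) + K t²/2`, which gives
  `a'(x)² ≤ C_ε a(x)` (take `t = |a'|/K` if this is `≤ ε`, otherwise `t = ε`: `|a'| ≤ 2a/ε`); hence
  `qq ≤ 2 a'²/a + (a/2) ct² ≤ C_ε` on `[ε,h]` (`(x-y)² ≤ 2x² + 2y²`).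
* Near `0`, case `s = a'(0) > 0`: `a' - (a/2) ct ξ = O(ξ)` (Taylor: `|a' - s| ≤ Kξ`, `|a - sξ| ≤ Kξ²`,
  `|ct ξ - 2/ξ| ≤ ξ` on `(0,1]`), `a ≥ sξ/2`, so `qq → 0`.
* Near `0`, case `s = 0` (`s ≥ 0` since `a ≥ 0`): for `0 < x ≤ h`: if `a'(x) > 0`, then `a'(x) ≤ K x`, take
  `t = a'(x)/K ≤ x` on the left: `a'² ≤ 2 K a`; if `a'(x) < 0`, `t = |a'|/K ≤ x ≤ h` on the right; so
  `a'² ≤ 2 K a`, `a ≤ K ξ²/2`, `(a/4) ct² ≤ K/2`.
-/

set_option autoImplicit false
open Real Set MeasureTheory Filter Topology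

namespace Pool.Agent.H51.DG

/-- half arc of length `h`, starting at the zero `0`; the whole arc is `[0,2h]` -/
structure HArc (a : ℝ → ℝ) (h : ℝ) : Prop where
  sm : ContDiff ℝ 2 a
  z : a 0 = 0
  h0 : 0 < h
  h1 : h ≤ π
  nn : ∀ x ∈ Icc (0:ℝ) (2 * h), 0 ≤ a x

noncomputable def qq (a : ℝ → ℝ) (ξ : ℝ) : ℝ := (deriv a ξ - a ξ / 2 * ct ξ) ^ 2 / a ξ

noncomputable def kk (a : ℝ → ℝ) (ξ : ℝ) : ℝ := a ξ / (2 * Real.sin (ξ / 2))

private lemma HA_diff {a : ℝ → ℝ} {h : ℝ} (H : HArc a h) : Differentiable ℝ a :=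
  H.sm.differentiable (by norm_num)

private lemma HA_sm1 {a : ℝ → ℝ} {h : ℝ} (H : HArc a h) : ContDiff ℝ 1 (deriv a) := by
  have e : ContDiff ℝ (1 + 1) a := by
    have := H.sm
    norm_num
    exact this
  exact (contDiff_succ_iff_deriv.mp e).2.2

theorem HArc.deriv_zero {a : ℝ → ℝ} {h : ℝ} (H : HArc a h) {x : ℝ} (h0 : 0 < x) (h1 : x ≤ h)
    (hz : a x = 0) : deriv a x = 0 := by
  have hm : IsLocalMin a x := by
    have hx : Icc (0:ℝ) (2 * h) ∈ 𝓝 x := Icc_mem_nhds h0 (by linarith [H.h0])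
    filter_upwards [hx] with y hy
    rw [hz]
    exact H.nn y hy
  exact hm.deriv_eq_zero

theorem HArc.deriv_nonneg {a : ℝ → ℝ} {h : ℝ} (H : HArc a h) : 0 ≤ deriv a 0 := by
  have hd : HasDerivAt a (deriv a 0) 0 := (HA_diff H 0).hasDerivAt
  have ht := hd.tendsto_slope_zero_right
  refine ge_of_tendsto ht ?_
  have hm : Ioo (0:ℝ) (2 * h) ∈ 𝓝[>] (0:ℝ) := Ioo_mem_nhdsGT (by linarith [H.h0])
  filter_upwards [hm] with t ht
  have h3 : 0 ≤ a t := H.nn t ⟨ht.1.le, ht.2.le⟩
  simp only [zero_add, H.z, sub_zero, smul_eq_mul]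
  exact mul_nonneg (inv_nonneg.mpr ht.1.le) h3

theorem HArc.qq_nonneg {a : ℝ → ℝ} {h : ℝ} (H : HArc a h) {x : ℝ} (h0 : 0 ≤ x) (h1 : x ≤ h) :
    0 ≤ qq a x :=
  div_nonneg (sq_nonneg _) (H.nn x ⟨h0, by linarith [H.h0]⟩)

private lemma HA_K {a : ℝ → ℝ} {h : ℝ} (H : HArc a h) :
    ∃ K : ℝ, 0 < K ∧ (∀ x ∈ Icc (0:ℝ) (2 * h), |deriv a x| ≤ K) ∧
      (∀ x ∈ Icc (0:ℝ) (2 * h), ∀ y ∈ Icc (0:ℝ) (2 * h), |deriv a y - deriv a x| ≤ K * |y - x|) := by
  have c1 : Continuous (deriv a) := (HA_sm1 H).continuous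
  have d1 : Differentiable ℝ (deriv a) := (HA_sm1 H).differentiable (by norm_num)
  have c2 : Continuous (deriv (deriv a)) := (HA_sm1 H).continuous_deriv (by norm_num)
  obtain ⟨K1, hK1⟩ := (isCompact_Icc (a := (0:ℝ)) (b := 2 * h)).exists_bound_of_continuousOn
    c1.continuousOn
  obtain ⟨K2, hK2⟩ := (isCompact_Icc (a := (0:ℝ)) (b := 2 * h)).exists_bound_of_continuousOn
    c2.continuousOn
  refine ⟨max (max K1 K2) 1, lt_of_lt_of_le one_pos (le_max_right _ _), ?_, ?_⟩
  · intro x hx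
    exact (hK1 x hx).trans ((le_max_left _ _).trans (le_max_left _ _))
  · intro x hx y hy
    have := (convex_Icc (0:ℝ) (2 * h)).norm_image_sub_le_of_norm_deriv_le
      (f := deriv a) (C := max (max K1 K2) 1) (fun z _ => d1 z)
      (fun z hz => (hK2 z hz).trans ((le_max_right _ _).trans (le_max_left _ _))) hx hy
    simpa [Real.norm_eq_abs] using this

private lemma HA_taylor {a : ℝ → ℝ} {h K : ℝ} (H : HArc a h) (hK : 0 < K)
    (hL : ∀ x ∈ Icc (0:ℝ) (2 * h), ∀ y ∈ Icc (0:ℝ) (2 * h),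
      |deriv a y - deriv a x| ≤ K * |y - x|) {x y : ℝ} (hx : x ∈ Icc (0:ℝ) (2 * h))
    (hy : y ∈ Icc (0:ℝ) (2 * h)) :
    |a y - a x - deriv a x * (y - x)| ≤ K * (y - x) ^ 2 := by
  have key : ∀ z ∈ uIcc x y, ‖deriv (fun t => a t - deriv a x * t) z‖ ≤ K * |y - x| := by
    intro z hz
    have hz2 : z ∈ Icc (0:ℝ) (2 * h) := by
      rw [mem_uIcc] at hz
      rcases hz with hz | hz
      · exact ⟨hx.1.trans hz.1, hz.2.trans hy.2⟩
      · exact ⟨hy.1.trans hz.1, hz.2.trans hx.2⟩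
    have hd : HasDerivAt (fun t => a t - deriv a x * t) (deriv a z - deriv a x * 1) z :=
      (HA_diff H z).hasDerivAt.sub ((hasDerivAt_id z).const_mul (deriv a x))
    rw [hd.deriv, mul_one, Real.norm_eq_abs]
    have hzx : |z - x| ≤ |y - x| := by
      have := abs_sub_left_of_mem_uIcc hz
      simpa [abs_sub_comm] using this
    exact (hL x hx z hz2).trans (mul_le_mul_of_nonneg_left hzx hK.le)
  have hdif : ∀ z ∈ uIcc x y, DifferentiableAt ℝ (fun t => a t - deriv a x * t) z := by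
    intro z _
    exact (HA_diff H z).sub ((differentiableAt_id).const_mul (deriv a x))
  have := (convex_uIcc x y).norm_image_sub_le_of_norm_deriv_le hdif key left_mem_uIcc right_mem_uIcc
  rw [Real.norm_eq_abs, Real.norm_eq_abs] at this
  have e1 : (fun t => a t - deriv a x * t) y - (fun t => a t - deriv a x * t) x
      = a y - a x - deriv a x * (y - x) := by
    simp only
    ring
  rw [e1] at this
  calc |a y - a x - deriv a x * (y - x)| ≤ K * |y - x| * |y - x| := this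
    _ = K * (y - x) ^ 2 := by rw [mul_assoc, abs_mul_abs_self]; ring

/-- Glaeser alternative -/
private lemma HA_glaeser {a : ℝ → ℝ} {h K : ℝ} (H : HArc a h) (hK : 0 < K)
    (hL : ∀ x ∈ Icc (0:ℝ) (2 * h), ∀ y ∈ Icc (0:ℝ) (2 * h),
      |deriv a y - deriv a x| ≤ K * |y - x|) {x : ℝ} (h0 : 0 < x) (h1 : x ≤ h) :
    (deriv a x) ^ 2 ≤ 4 * K * a x ∨ (2 * K * x < |deriv a x| ∧ |deriv a x| * x ≤ 2 * a x) := by
  have hx : x ∈ Icc (0:ℝ) (2 * h) := ⟨h0.le, by linarith [H.h0]⟩
  have main : ∀ t : ℝ, 0 ≤ t → t ≤ x → |deriv a x| * t ≤ a x + K * t ^ 2 := by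
    intro t ht0 ht1
    have p1 : x + t ∈ Icc (0:ℝ) (2 * h) := ⟨by linarith, by linarith⟩
    have p2 : x - t ∈ Icc (0:ℝ) (2 * h) := ⟨by linarith, by linarith [H.h0]⟩
    have q1 := H.nn _ p1
    have q2 := H.nn _ p2
    have t1 := HA_taylor H hK hL hx p1
    have t2 := HA_taylor H hK hL hx p2
    have e1 : x + t - x = t := by ring
    have e2 : x - t - x = -t := by ring
    rw [e1] at t1
    rw [e2] at t2
    have t1' := (abs_le.mp t1).2
    have t2' := (abs_le.mp t2).2
    rcases abs_cases (deriv a x) with ⟨hc, _⟩ | ⟨hc, _⟩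
    · rw [hc]; nlinarith
    · rw [hc]; nlinarith
  rcases le_or_gt (|deriv a x|) (2 * K * x) with hc | hc
  · left
    have hK2 : (0:ℝ) < 2 * K := by linarith
    have := main (|deriv a x| / (2 * K)) (by positivity) (by
      rw [div_le_iff₀ hK2]; linarith)
    have e : |deriv a x| * (|deriv a x| / (2 * K)) = (deriv a x) ^ 2 / (2 * K) := by
      rw [← mul_div_assoc, abs_mul_abs_self]; ring
    have e2 : K * (|deriv a x| / (2 * K)) ^ 2 = (deriv a x) ^ 2 / (4 * K) := by
      rw [div_pow, sq_abs]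
      field_simp
      ring
    rw [e, e2] at this
    have e3 : (deriv a x) ^ 2 / (2 * K) = 2 * ((deriv a x) ^ 2 / (4 * K)) := by
      field_simp
      ring
    rw [e3] at this
    have h5 : (deriv a x) ^ 2 / (4 * K) ≤ a x := by linarith
    rw [div_le_iff₀ (by linarith)] at h5
    linarith
  · right
    refine ⟨hc, ?_⟩
    have := main x h0.le le_rfl
    nlinarith

private lemma HA_qq_le {a : ℝ → ℝ} {h : ℝ} (H : HArc a h) {x C : ℝ} (h0 : 0 < x) (h1 : x ≤ h)
    (hC0 : 0 ≤ C) (hC : (deriv a x) ^ 2 ≤ C * a x) :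
    qq a x ≤ 2 * C + a x / 2 * (ct x) ^ 2 := by
  have hn : 0 ≤ a x := H.nn x ⟨h0.le, by linarith [H.h0]⟩
  unfold qq
  rcases hn.eq_or_lt with hz | hp
  · rw [← hz]
    simp only [div_zero, zero_div, zero_mul, add_zero]
    linarith
  · rw [div_le_iff₀ hp]
    nlinarith [sq_nonneg (deriv a x + a x / 2 * ct x)]

private lemma HA_ct {x : ℝ} (h0 : 0 < x) (h1 : x ≤ π) : 0 ≤ ct x ∧ ct x * x ≤ π := by
  have hs : x / π ≤ Real.sin (x / 2) := by
    have := Real.mul_le_sin (x := x / 2) (by linarith) (by linarith)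
    calc x / π = 2 / π * (x / 2) := by ring
      _ ≤ _ := this
  have hpos : 0 < x / π := div_pos h0 Real.pi_pos
  have hsp : 0 < Real.sin (x / 2) := lt_of_lt_of_le hpos hs
  have hc0 : 0 ≤ Real.cos (x / 2) := Real.cos_nonneg_of_mem_Icc ⟨by linarith, by linarith⟩
  refine ⟨div_nonneg hc0 hsp.le, ?_⟩
  unfold ct
  rw [div_mul_eq_mul_div, div_le_iff₀ hsp]
  rw [div_le_iff₀ Real.pi_pos] at hs
  nlinarith [Real.cos_le_one (x / 2)]

private lemma HA_ct2 {x : ℝ} (h0 : 0 < x) (h1 : x ≤ π) : |1 - x / 2 * ct x| ≤ π * x ^ 2 / 16 := by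
  have hs : x / π ≤ Real.sin (x / 2) := by
    have := Real.mul_le_sin (x := x / 2) (by linarith) (by linarith)
    calc x / π = 2 / π * (x / 2) := by ring
      _ ≤ _ := this
  have hpos : 0 < x / π := div_pos h0 Real.pi_pos
  have hsp : 0 < Real.sin (x / 2) := lt_of_lt_of_le hpos hs
  have e : 1 - x / 2 * ct x = (Real.sin (x / 2) - x / 2 * Real.cos (x / 2)) / Real.sin (x / 2) := by
    unfold ct
    field_simp
  have hx2 : 0 ≤ x / 2 := by linarith
  have n1 : 0 ≤ Real.sin (x / 2) - x / 2 * Real.cos (x / 2) := by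
    rcases hx2.eq_or_lt with h2 | h2
    · linarith
    · rcases lt_or_ge (x / 2) (π / 2) with h3 | h3
      · have := Real.lt_tan h2 h3
        rw [Real.tan_eq_sin_div_cos] at this
        have hc : 0 < Real.cos (x / 2) := Real.cos_pos_of_mem_Ioo ⟨by linarith, h3⟩
        rw [lt_div_iff₀ hc] at this
        linarith
      · have : x / 2 = π / 2 := le_antisymm (by linarith) h3
        rw [this, Real.cos_pi_div_two, Real.sin_pi_div_two]
        norm_num
  have n2 : Real.sin (x / 2) - x / 2 * Real.cos (x / 2) ≤ (x / 2) ^ 3 / 2 := by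
    have s1 : Real.sin (x / 2) ≤ x / 2 := Real.sin_le hx2
    have s2 := Real.one_sub_sq_div_two_le_cos (x := x / 2)
    nlinarith
  rw [e, abs_of_nonneg (div_nonneg n1 hsp.le), div_le_iff₀ hsp]
  have hq : π * x ^ 2 / 16 * (x / π) ≤ π * x ^ 2 / 16 * Real.sin (x / 2) := by
    apply mul_le_mul_of_nonneg_left hs
    positivity
  have e4 : π * x ^ 2 / 16 * (x / π) = (x / 2) ^ 3 / 2 := by
    have := Real.pi_pos.ne'
    field_simp
    ring
  linarith

theorem HArc.qq_bounded {a : ℝ → ℝ} {h : ℝ} (H : HArc a h) :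
    ∃ C : ℝ, ∀ x ∈ Ioc (0:ℝ) h, qq a x ≤ C := by
  obtain ⟨K, hK, hb, hL⟩ := HA_K H
  have hp := Real.pi_pos
  have m0 : (0:ℝ) ∈ Icc (0:ℝ) (2 * h) := ⟨le_rfl, by linarith [H.h0]⟩
  have T0 : ∀ x ∈ Ioc (0:ℝ) h, |a x - deriv a 0 * x| ≤ K * x ^ 2 := by
    intro x hx
    have := HA_taylor H hK hL m0 (y := x) ⟨hx.1.le, by linarith [H.h0, hx.2]⟩
    simpa [H.z] using this
  have L0 : ∀ x ∈ Ioc (0:ℝ) h, |deriv a x - deriv a 0| ≤ K * x := by
    intro x hx
    have := hL 0 m0 x ⟨hx.1.le, by linarith [H.h0, hx.2]⟩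
    rwa [sub_zero, abs_of_pos hx.1] at this
  rcases H.deriv_nonneg.eq_or_lt with hs | hs
  · -- `a' 0 = 0`
    refine ⟨8 * K + K * π ^ 2 / 2, ?_⟩
    intro x hx
    have hxp : x ≤ π := hx.2.trans H.h1
    have t0 := T0 x hx
    have l0 := L0 x hx
    rw [← hs] at t0 l0
    rw [zero_mul, sub_zero] at t0
    rw [sub_zero] at l0
    have hq : (deriv a x) ^ 2 ≤ 4 * K * a x := by
      rcases HA_glaeser H hK hL hx.1 hx.2 with hg | ⟨hg, _⟩
      · exact hg
      · exfalso
        nlinarith [mul_pos hK hx.1]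
    have hle := HA_qq_le H hx.1 hx.2 (by positivity) hq
    obtain ⟨c0, c1⟩ := HA_ct hx.1 hxp
    have ha : a x ≤ K * x ^ 2 := (le_abs_self _).trans t0
    have hcc : (ct x * x) ^ 2 ≤ π ^ 2 := by
      apply pow_le_pow_left₀ (mul_nonneg c0 hx.1.le) c1
    have h6 : a x / 2 * (ct x) ^ 2 ≤ K * x ^ 2 / 2 * (ct x) ^ 2 := by
      apply mul_le_mul_of_nonneg_right (by linarith) (sq_nonneg _)
    have h7 : K * x ^ 2 / 2 * (ct x) ^ 2 = K / 2 * (ct x * x) ^ 2 := by ring
    have h8 : K / 2 * (ct x * x) ^ 2 ≤ K / 2 * π ^ 2 :=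
      mul_le_mul_of_nonneg_left hcc (by positivity)
    linarith
  · -- `s = a' 0 > 0`
    set s := deriv a 0 with hsd
    set x0 := s / (2 * K) with hx0
    have hx0p : 0 < x0 := by positivity
    set C1 := K + s * π * π / 16 + K * π / 2 with hC1
    have hC1p : 0 < C1 := by positivity
    refine ⟨max (2 * C1 ^ 2 * π / s) (2 * (4 * K + 2 * K / x0) + (s * π + K * π ^ 2) / 2 * (π / x0) ^ 2), ?_⟩
    intro x hx
    have hxp : x ≤ π := hx.2.trans H.h1
    have t0 := T0 x hx
    have l0 := L0 x hx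
    obtain ⟨c0, c1⟩ := HA_ct hx.1 hxp
    have hx00 := hx.1
    rcases le_or_gt x x0 with hc | hc
    · refine le_trans ?_ (le_max_left _ _)
      have h2 : K * x ≤ s / 2 := by
        have : x * (2 * K) ≤ s := by
          rw [hx0, le_div_iff₀ (by positivity)] at hc
          exact hc
        linarith
      have ha : s * x / 2 ≤ a x := by
        have := (abs_le.mp t0).1
        nlinarith
      have hap : 0 < a x := lt_of_lt_of_le (by positivity) ha
      have hb1 : |deriv a x - a x / 2 * ct x| ≤ C1 * x := by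
        have e : deriv a x - a x / 2 * ct x
            = (deriv a x - s) + s * (1 - x / 2 * ct x) - (a x - s * x) / 2 * ct x := by ring
        rw [e]
        have a1 : |s * (1 - x / 2 * ct x)| ≤ s * (π * x ^ 2 / 16) := by
          rw [abs_mul, abs_of_pos hs]
          exact mul_le_mul_of_nonneg_left (HA_ct2 hx.1 hxp) hs.le
        have a2 : |(a x - s * x) / 2 * ct x| ≤ K * π / 2 * x := by
          rw [abs_mul, abs_of_nonneg c0, abs_div, abs_of_pos (by norm_num : (0:ℝ) < 2)]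
          have : |a x - s * x| / 2 * ct x ≤ K * x ^ 2 / 2 * ct x :=
            mul_le_mul_of_nonneg_right (by linarith) c0
          have e9 : K * x ^ 2 / 2 * ct x = K / 2 * x * (ct x * x) := by ring
          have : K / 2 * x * (ct x * x) ≤ K / 2 * x * π :=
            mul_le_mul_of_nonneg_left c1 (by positivity)
          linarith
        have a3 : s * (π * x ^ 2 / 16) ≤ s * π * π / 16 * x := by
          have : s * (π * x ^ 2 / 16) = s * π * x / 16 * x := by ring
          rw [this]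
          apply mul_le_mul_of_nonneg_right _ hx00.le
          have : s * π * x ≤ s * π * π := mul_le_mul_of_nonneg_left hxp (by positivity)
          linarith
        calc |(deriv a x - s) + s * (1 - x / 2 * ct x) - (a x - s * x) / 2 * ct x|
            ≤ |(deriv a x - s) + s * (1 - x / 2 * ct x)| + |(a x - s * x) / 2 * ct x| := abs_sub _ _
          _ ≤ |deriv a x - s| + |s * (1 - x / 2 * ct x)| + |(a x - s * x) / 2 * ct x| := by
              gcongr
              exact abs_add_le _ _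
          _ ≤ K * x + s * π * π / 16 * x + K * π / 2 * x := by linarith
          _ = C1 * x := by rw [hC1]; ring
      unfold qq
      rw [div_le_div_iff₀ hap hs]
      have hsq : (deriv a x - a x / 2 * ct x) ^ 2 ≤ (C1 * x) ^ 2 := by
        rw [← sq_abs]
        exact pow_le_pow_left₀ (abs_nonneg _) hb1 2
      calc (deriv a x - a x / 2 * ct x) ^ 2 * s ≤ (C1 * x) ^ 2 * s :=
            mul_le_mul_of_nonneg_right hsq hs.le
        _ = 2 * C1 ^ 2 * x * (s * x / 2) := by ring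
        _ ≤ 2 * C1 ^ 2 * π * (s * x / 2) := by
            apply mul_le_mul_of_nonneg_right _ (by positivity)
            exact mul_le_mul_of_nonneg_left hxp (by positivity)
        _ ≤ 2 * C1 ^ 2 * π * a x := mul_le_mul_of_nonneg_left ha (by positivity)
    · refine le_trans ?_ (le_max_right _ _)
      have hn : 0 ≤ a x := H.nn x ⟨hx.1.le, by linarith [H.h0, hx.2]⟩
      have hd1 : |deriv a x| ≤ K := hb x ⟨hx.1.le, by linarith [H.h0, hx.2]⟩
      have hq : (deriv a x) ^ 2 ≤ (4 * K + 2 * K / x0) * a x := by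
        rcases HA_glaeser H hK hL hx.1 hx.2 with hg | ⟨_, hg⟩
        · have : 0 ≤ 2 * K / x0 * a x := by positivity
          linarith
        · have h10 : |deriv a x| ≤ 2 * a x / x0 := by
            rw [le_div_iff₀ hx0p]
            calc |deriv a x| * x0 ≤ |deriv a x| * x :=
                  mul_le_mul_of_nonneg_left hc.le (abs_nonneg _)
              _ ≤ _ := hg
          have h11 : (deriv a x) ^ 2 ≤ K * (2 * a x / x0) := by
            rw [← sq_abs, sq]
            exact mul_le_mul hd1 h10 (abs_nonneg _) hK.le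
          have h12 : K * (2 * a x / x0) = 2 * K / x0 * a x := by ring
          have h13 : 0 ≤ 4 * K * a x := by positivity
          linarith
      have hle := HA_qq_le H hx.1 hx.2 (by positivity) hq
      have hau : a x ≤ s * π + K * π ^ 2 := by
        have := (abs_le.mp t0).2
        have u1 : s * x ≤ s * π := mul_le_mul_of_nonneg_left hxp hs.le
        have u2 : K * x ^ 2 ≤ K * π ^ 2 :=
          mul_le_mul_of_nonneg_left (pow_le_pow_left₀ hx00.le hxp 2) hK.le
        linarith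
      have hcu : ct x ≤ π / x0 := by
        rw [le_div_iff₀ hx0p]
        calc ct x * x0 ≤ ct x * x := mul_le_mul_of_nonneg_left hc.le c0
          _ ≤ π := c1
      have hcu2 : (ct x) ^ 2 ≤ (π / x0) ^ 2 := pow_le_pow_left₀ c0 hcu 2
      have : a x / 2 * (ct x) ^ 2 ≤ (s * π + K * π ^ 2) / 2 * (π / x0) ^ 2 := by
        apply mul_le_mul (by linarith) hcu2 (sq_nonneg _) (by positivity)
      linarith

theorem HArc.qq_integrable {a : ℝ → ℝ} {h : ℝ} (H : HArc a h) :
    IntervalIntegrable (qq a) volume 0 h := by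
  obtain ⟨C, hC⟩ := H.qq_bounded
  have hmeas : Measurable (qq a) := by
    have m1 : Measurable (deriv a) := (HA_sm1 H).continuous.measurable
    have m2 : Measurable a := H.sm.continuous.measurable
    have m3 : Measurable ct := by
      unfold ct
      exact ((Real.measurable_cos.comp (measurable_id.div_const 2))).div
        (Real.measurable_sin.comp (measurable_id.div_const 2))
    unfold qq
    exact ((m1.sub ((m2.div_const 2).mul m3)).pow_const 2).div m2
  rw [intervalIntegrable_iff_integrableOn_Ioc_of_le H.h0.le]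
  refine Measure.integrableOn_of_bounded (M := C) (by simp) hmeas.aestronglyMeasurable ?_
  rw [ae_restrict_iff' measurableSet_Ioc]
  refine Eventually.of_forall ?_
  intro x hx
  rw [Real.norm_eq_abs, abs_of_nonneg (H.qq_nonneg hx.1.le hx.2)]
  exact hC x hx

end Pool.Agent.H51.DG
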