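import Pool.Agent.H51.DG.HA

/-!
# DG2 job HB: the Hardy identity on a half arc

For `0 < ξ ≤ h ≤ π` (`ph ξ = 1/(4 sin²(ξ/2))`):
`a'²/a - a ph ξ = qq a ξ + (a ct)' + a/4`, `(a ct)' = a' ct - a/(2 sin²(ξ/2))`
(if `a ξ ≠ 0` by `field_simp`, `sin² + cos² = 1`; if `a ξ = 0` then `a' = 0`, `HArc.deriv_zero`).
`a ct` is bounded near `0` with limit `2 a'(0)`, and `(a ct)'` is bounded on `(0,h]`
(`|a - s ξ - ...|`: `a = sξ + O(ξ²)`, `a' = s + O(ξ)`, `ct = 2/ξ + O(ξ)`, `1/(2 sin²) = 2/ξ² + O(1)`), so the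
left side is integrable, and integrating over `(ε,h)`, `ε → 0`:
`∫_0^h (a'²/a - a ph) = ∫_0^h qq + a(h) ct h - 2 a'(0) + (1/4) ∫_0^h a ≥ ∫_0^h qq - 2 a'(0)`.
-/

set_option autoImplicit false
open Real Set MeasureTheory Filter Topology

namespace Pool.Agent.H51.DG

/-- derivative of `a ct` -/
private noncomputable def HB_F (a : ℝ → ℝ) (x : ℝ) : ℝ :=
  deriv a x * ct x - a x / (2 * Real.sin (x / 2) ^ 2)

private lemma HB_sin_pos {x h : ℝ} (h0 : 0 < x) (h1 : x ≤ h) (h2 : h ≤ π) :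
    0 < Real.sin (x / 2) :=
  Real.sin_pos_of_pos_of_lt_pi (by linarith) (by linarith [Real.pi_pos])

private lemma HB_hasDerivAt_sin (x : ℝ) :
    HasDerivAt (fun y : ℝ => Real.sin (y / 2)) (Real.cos (x / 2) / 2) x := by
  have h1 := ((hasDerivAt_id x).div_const 2).sin
  simpa [div_eq_mul_inv] using h1

private lemma HB_hasDerivAt_cos (x : ℝ) :
    HasDerivAt (fun y : ℝ => Real.cos (y / 2)) (-(Real.sin (x / 2) / 2)) x := by
  have h1 := ((hasDerivAt_id x).div_const 2).cos
  simpa [div_eq_mul_inv] using h1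

private lemma HB_der {a : ℝ → ℝ} (ha : Differentiable ℝ a) {x : ℝ} (hs : Real.sin (x / 2) ≠ 0) :
    HasDerivAt (fun y => a y * ct y) (HB_F a x) x := by
  have h1 := (ha x).hasDerivAt.mul ((HB_hasDerivAt_cos x).div (HB_hasDerivAt_sin x) hs)
  refine h1.congr_deriv ?_
  have h2 : Real.sin (x / 2) ^ 2 + Real.cos (x / 2) ^ 2 = 1 := Real.sin_sq_add_cos_sq _
  unfold HB_F ct
  show deriv a x * (Real.cos (x / 2) / Real.sin (x / 2)) + a x *
    ((-(Real.sin (x / 2) / 2) * Real.sin (x / 2) - Real.cos (x / 2) * (Real.cos (x / 2) / 2)) /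
      Real.sin (x / 2) ^ 2) = _
  generalize Real.sin (x / 2) = s at *
  generalize Real.cos (x / 2) = c at *
  have h4 : -(s / 2) * s - c * (c / 2) = -(1 / 2) := by linear_combination (-1 / 2) * h2
  rw [h4]
  field_simp
  ring

private lemma HB_ident {a : ℝ → ℝ} {h : ℝ} (H : HArc a h) {x : ℝ} (h0 : 0 < x) (h1 : x ≤ h) :
    (deriv a x) ^ 2 / a x - a x * ph x = qq a x + HB_F a x + a x / 4 := by
  have hs := (HB_sin_pos h0 h1 H.h1).ne'
  have hph : ph x = 1 / (4 * Real.sin (x / 2) ^ 2) := by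
    unfold ph
    rw [if_pos (h1.trans H.h1)]
  rw [hph]
  unfold qq HB_F
  by_cases hz : a x = 0
  · rw [hz, H.deriv_zero h0 h1 hz]
    simp
  · unfold ct
    have h2 : Real.sin (x / 2) ^ 2 + Real.cos (x / 2) ^ 2 = 1 := Real.sin_sq_add_cos_sq _
    generalize Real.sin (x / 2) = s at *
    generalize Real.cos (x / 2) = c at *
    field_simp
    linear_combination (-4 * a x ^ 2) * h2

private lemma HB_diff {a : ℝ → ℝ} {h : ℝ} (H : HArc a h) : Differentiable ℝ a :=
  H.sm.differentiable (by norm_num)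

private lemma HB_sm1 {a : ℝ → ℝ} {h : ℝ} (H : HArc a h) : ContDiff ℝ 1 (deriv a) := by
  have h1 : ContDiff ℝ (1 + 1) a := by
    have : (1 : WithTop ℕ∞) + 1 = 2 := by norm_num
    rw [this]
    exact H.sm
  exact (contDiff_succ_iff_deriv.1 h1).2.2

private lemma HB_bdd {a : ℝ → ℝ} {h : ℝ} (H : HArc a h) :
    ∃ C : ℝ, ∀ x ∈ Ioc (0:ℝ) h, |HB_F a x| ≤ C := by
  have hd := HB_sm1 H
  have hc1 : Continuous (deriv a) := hd.continuous
  have hc2 : Continuous (deriv (deriv a)) := hd.continuous_deriv le_rfl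
  obtain ⟨A, hA⟩ := (isCompact_Icc (a := (0:ℝ)) (b := π)).exists_bound_of_continuousOn
    hc1.continuousOn
  obtain ⟨B, hB⟩ := (isCompact_Icc (a := (0:ℝ)) (b := π)).exists_bound_of_continuousOn
    hc2.continuousOn
  have hA0 : 0 ≤ A := (norm_nonneg _).trans (hA 0 ⟨le_rfl, Real.pi_pos.le⟩)
  have hB0 : 0 ≤ B := (norm_nonneg _).trans (hB 0 ⟨le_rfl, Real.pi_pos.le⟩)
  have hN : ∀ x ∈ Icc (0:ℝ) π, |deriv a x * Real.sin x - a x| ≤ (B + 2 * A) * x * x := by
    intro x hx
    have h1 : ∀ y ∈ Icc (0:ℝ) x, HasDerivWithinAt (fun y => deriv a y * Real.sin y - a y)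
        (deriv (deriv a) y * Real.sin y + deriv a y * Real.cos y - deriv a y) (Icc (0:ℝ) x) y := by
      intro y _
      exact ((((hd.differentiable (by norm_num)) y).hasDerivAt.mul (Real.hasDerivAt_sin y)).sub
        ((HB_diff H) y).hasDerivAt).hasDerivWithinAt
    have h2 : ∀ y ∈ Icc (0:ℝ) x,
        ‖deriv (deriv a) y * Real.sin y + deriv a y * Real.cos y - deriv a y‖ ≤
          (B + 2 * A) * x := by
      intro y hy
      have hy' : y ∈ Icc (0:ℝ) π := ⟨hy.1, hy.2.trans hx.2⟩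
      have e1 := hA y hy'
      have e2 := hB y hy'
      have e3 : |Real.sin y| ≤ y := by
        rw [abs_of_nonneg (Real.sin_nonneg_of_nonneg_of_le_pi hy'.1 hy'.2)]
        exact Real.sin_le hy'.1
      have e4 : |Real.cos y - 1| ≤ 2 * y := by
        have f1 := Real.one_sub_sq_div_two_le_cos (x := y)
        have f2 := Real.cos_le_one y
        rw [abs_of_nonpos (by linarith)]
        have f3 : y ^ 2 ≤ y * 4 := by
          have := Real.pi_le_four
          nlinarith [hy'.1, hy'.2]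
        linarith
      have e5 : deriv (deriv a) y * Real.sin y + deriv a y * Real.cos y - deriv a y =
          deriv (deriv a) y * Real.sin y + deriv a y * (Real.cos y - 1) := by ring
      rw [e5]
      refine (norm_add_le _ _).trans ?_
      rw [norm_mul, norm_mul, Real.norm_eq_abs (Real.sin y), Real.norm_eq_abs (Real.cos y - 1)]
      have e6 : ‖deriv (deriv a) y‖ * |Real.sin y| ≤ B * y :=
        mul_le_mul e2 e3 (abs_nonneg _) hB0
      have e7 : ‖deriv a y‖ * |Real.cos y - 1| ≤ A * (2 * y) :=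
        mul_le_mul e1 e4 (abs_nonneg _) hA0
      have e8 : B * y + A * (2 * y) = (B + 2 * A) * y := by ring
      have e9 : (B + 2 * A) * y ≤ (B + 2 * A) * x := by
        gcongr
        exact hy.2
      linarith
    have h3 := Convex.norm_image_sub_le_of_norm_hasDerivWithin_le h1 h2 (convex_Icc 0 x)
      (left_mem_Icc.2 hx.1) (right_mem_Icc.2 hx.1)
    simp only [Real.sin_zero, mul_zero, H.z, sub_zero, Real.norm_eq_abs] at h3
    rwa [abs_of_nonneg hx.1] at h3
  refine ⟨(B + 2 * A) * π ^ 2 / 2, fun x hx => ?_⟩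
  have hs := HB_sin_pos hx.1 hx.2 H.h1
  have hxπ : x ≤ π := hx.2.trans H.h1
  have e1 : HB_F a x = (deriv a x * Real.sin x - a x) / (2 * Real.sin (x / 2) ^ 2) := by
    unfold HB_F ct
    have h1 : Real.sin x = 2 * Real.sin (x / 2) * Real.cos (x / 2) := by
      rw [← Real.sin_two_mul]
      congr 1
      ring
    rw [h1]
    field_simp
  have e2 : x / π ≤ Real.sin (x / 2) := by
    have h1 := Real.mul_le_sin (x := x / 2) (by linarith [hx.1]) (by linarith)
    have h2 : 2 / π * (x / 2) = x / π := by ring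
    rwa [h2] at h1
  have e3 : (x / π) ^ 2 ≤ Real.sin (x / 2) ^ 2 := by
    have h0 : 0 ≤ x / π := div_nonneg hx.1.le Real.pi_pos.le
    gcongr
  rw [e1, abs_div, abs_of_pos (show (0:ℝ) < 2 * Real.sin (x / 2) ^ 2 by positivity),
    div_le_iff₀ (by positivity)]
  refine (hN x ⟨hx.1.le, hxπ⟩).trans ?_
  have e4 : (B + 2 * A) * x * x = (B + 2 * A) * π ^ 2 * (x / π) ^ 2 := by
    have := Real.pi_pos
    field_simp
  rw [e4]
  have e5 : (B + 2 * A) * π ^ 2 / 2 * (2 * Real.sin (x / 2) ^ 2) =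
      (B + 2 * A) * π ^ 2 * Real.sin (x / 2) ^ 2 := by ring
  rw [e5]
  gcongr

private lemma HB_meas {a : ℝ → ℝ} {h : ℝ} (H : HArc a h) : Measurable (HB_F a) := by
  have h1 : Measurable (deriv a) := (HB_sm1 H).continuous.measurable
  have h2 : Measurable a := (HB_diff H).continuous.measurable
  unfold HB_F ct
  fun_prop

private lemma HB_int {a : ℝ → ℝ} {h : ℝ} (H : HArc a h) :
    IntervalIntegrable (HB_F a) volume 0 h := by
  rw [intervalIntegrable_iff_integrableOn_Ioc_of_le H.h0.le]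
  obtain ⟨C, hC⟩ := HB_bdd H
  refine Integrable.mono' (g := fun _ => C) (integrableOn_const (by simp))
    (HB_meas H).aestronglyMeasurable ?_
  exact (ae_restrict_iff' measurableSet_Ioc).2 (Filter.Eventually.of_forall fun x hx => hC x hx)

private lemma HB_lim0 {a : ℝ → ℝ} {h : ℝ} (H : HArc a h) :
    Tendsto (fun y => a y * ct y) (𝓝[>] 0) (𝓝 (2 * deriv a 0)) := by
  have h1 := ((HB_diff H) 0).hasDerivAt
  rw [hasDerivAt_iff_tendsto_slope] at h1
  have h2 := HB_hasDerivAt_sin 0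
  rw [hasDerivAt_iff_tendsto_slope] at h2
  have h3 : Tendsto (fun y : ℝ => Real.cos (y / 2)) (𝓝[≠] 0) (𝓝 (Real.cos (0 / 2))) :=
    ((Real.continuous_cos.comp (continuous_id.div_const 2)).tendsto 0).mono_left
      nhdsWithin_le_nhds
  have h4 := (h1.div h2 (by norm_num)).mul h3
  have e0 : deriv a 0 / (Real.cos (0 / 2) / 2) * Real.cos (0 / 2) = 2 * deriv a 0 := by
    rw [zero_div, Real.cos_zero]
    ring
  rw [e0] at h4
  have h5 := h4.mono_left (nhdsWithin_mono 0 (fun y (hy : y ∈ Ioi (0:ℝ)) => ne_of_gt hy))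
  refine h5.congr' ?_
  filter_upwards [self_mem_nhdsWithin] with y hy
  have hy' : y ≠ 0 := ne_of_gt hy
  show slope a 0 y / slope (fun y : ℝ => Real.sin (y / 2)) 0 y * Real.cos (y / 2) = a y * ct y
  unfold ct
  rw [slope_def_field, slope_def_field, H.z, zero_div, Real.sin_zero, sub_zero, sub_zero,
    sub_zero, div_div_div_cancel_right₀ hy']
  ring

private lemma HB_ftc {a : ℝ → ℝ} {h : ℝ} (H : HArc a h) :
    ∫ x in (0:ℝ)..h, HB_F a x = a h * ct h - 2 * deriv a 0 := by
  have hs := (HB_sin_pos H.h0 le_rfl H.h1).ne'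
  refine intervalIntegral.integral_eq_sub_of_hasDerivAt_of_tendsto H.h0
    (f := fun y => a y * ct y) (fun x hx => ?_) (HB_int H) (HB_lim0 H) ?_
  · exact HB_der (HB_diff H) (HB_sin_pos hx.1 hx.2.le H.h1).ne'
  · exact ((HB_der (HB_diff H) hs).continuousAt.tendsto).mono_left nhdsWithin_le_nhds

theorem HArc.hardy {a : ℝ → ℝ} {h : ℝ} (H : HArc a h) :
    IntervalIntegrable (fun x => (deriv a x) ^ 2 / a x - a x * ph x) volume 0 h ∧
    ∫ x in (0:ℝ)..h, qq a x ≤
      (∫ x in (0:ℝ)..h, ((deriv a x) ^ 2 / a x - a x * ph x)) + 2 * deriv a 0 := by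
  have i1 := H.qq_integrable
  have i2 := HB_int H
  have i3 : IntervalIntegrable (fun x => a x / 4) volume 0 h :=
    ((HB_diff H).continuous.div_const 4).intervalIntegrable _ _
  have i4 : IntervalIntegrable (fun x => qq a x + HB_F a x + a x / 4) volume 0 h :=
    (i1.add i2).add i3
  have hcong : EqOn (fun x => qq a x + HB_F a x + a x / 4)
      (fun x => (deriv a x) ^ 2 / a x - a x * ph x) (Ioc 0 h) :=
    fun x hx => (HB_ident H hx.1 hx.2).symm
  refine ⟨?_, ?_⟩
  · rw [intervalIntegrable_iff_integrableOn_Ioc_of_le H.h0.le] at i4 ⊢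
    exact i4.congr_fun hcong measurableSet_Ioc
  · have e1 : ∫ x in (0:ℝ)..h, ((deriv a x) ^ 2 / a x - a x * ph x) =
        ∫ x in (0:ℝ)..h, (qq a x + HB_F a x + a x / 4) := by
      rw [intervalIntegral.integral_of_le H.h0.le, intervalIntegral.integral_of_le H.h0.le]
      exact (setIntegral_congr_fun measurableSet_Ioc hcong).symm
    rw [e1, intervalIntegral.integral_add (i1.add i2) i3, intervalIntegral.integral_add i1 i2,
      HB_ftc H]
    have h1 : 0 ≤ ∫ x in (0:ℝ)..h, a x / 4 := by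
      apply intervalIntegral.integral_nonneg H.h0.le
      intro x hx
      have := H.nn x ⟨hx.1, by linarith [hx.2, H.h0]⟩
      positivity
    have h2 : 0 ≤ a h * ct h := by
      have e2 := H.nn h ⟨H.h0.le, by linarith [H.h0]⟩
      have e3 := HB_sin_pos H.h0 le_rfl H.h1
      have e4 : 0 ≤ Real.cos (h / 2) :=
        Real.cos_nonneg_of_neg_pi_div_two_le_of_le (by linarith [H.h0, Real.pi_pos])
          (by linarith [H.h1])
      exact mul_nonneg e2 (div_nonneg e4 e3.le)
    linarith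

end Pool.Agent.H51.DG
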