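import Pool.Agent.H51.DG.HA

/-!
# DG2 job HC: oscillation of `√k` on a half arc, `k = kk a`

For `ε > 0`, `f = √(kk a + ε)` is `C^1` on `(0,h]`, `f' = kk'/(2√(kk+ε))`,
`kk' = (a' - (a/2) ct)/(2 sin(ξ/2))`; where `a > 0`: `|a' - (a/2) ct| = √(qq a)`, `a = 2 sin(ξ/2) kk`, so
`|f'| ≤ (1/2) √(qq) √(1/(2 sin(ξ/2)))`; where `a = 0`: `a' = 0`, `f' = 0`.  By Cauchy-Schwarz and
`1/(2 sin(ξ/2)) ≤ π/(2ξ)`:
`|f(ξ) - f(ξ1)| ≤ (1/2) √(∫_0^h qq) √((π/2)|log(ξ/ξ1)|)`.
Instead of Cauchy-Schwarz for integrals one may use `√(uv) ≤ (κ u + v/κ)/2` with a constant `κ > 0`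
and then optimise.  Square (`(x+y)² ≤ 2x² + 2y²`) and let `ε → 0`.
-/

set_option autoImplicit false
open Real Set MeasureTheory Filter Topology

namespace Pool.Agent.H51.DG

private theorem HC_sin_pos {x : ℝ} (h0 : 0 < x) (h1 : x ≤ π) : 0 < Real.sin (x / 2) :=
  Real.sin_pos_of_pos_of_lt_pi (by linarith) (by linarith [Real.pi_pos])

private theorem HC_sin_ge {x : ℝ} (h0 : 0 < x) (h1 : x ≤ π) : x / π ≤ Real.sin (x / 2) := by
  have h := Real.mul_le_sin (x := x / 2) (by linarith) (by linarith)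
  have e : 2 / π * (x / 2) = x / π := by ring
  rwa [e] at h

private theorem HC_deriv {a : ℝ → ℝ} {h : ℝ} (H : HArc a h) {x : ℝ} (h0 : 0 < x) (h1 : x ≤ π) :
    HasDerivAt (kk a) ((deriv a x - a x / 2 * ct x) / (2 * Real.sin (x / 2))) x := by
  have hs := HC_sin_pos h0 h1
  have ha : HasDerivAt a (deriv a x) x :=
    ((H.sm.differentiable (by norm_num)) x).hasDerivAt
  have h2 : HasDerivAt (fun y : ℝ => y / 2) (1 / 2) x := (hasDerivAt_id x).div_const 2
  have h3 : HasDerivAt (fun y : ℝ => 2 * Real.sin (y / 2)) (2 * (Real.cos (x / 2) * (1 / 2))) x :=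
    h2.sin.const_mul 2
  have h4 := ha.div h3 (by positivity)
  refine h4.congr_deriv ?_
  unfold ct
  have hs0 := hs.ne'
  field_simp

/-- pointwise bound of the derivative of the root -/
private theorem HC_bound {a : ℝ → ℝ} {h : ℝ} (H : HArc a h) {x κ ε : ℝ} (h0 : 0 < x) (h1 : x ≤ h)
    (hκ : 0 < κ) (hε : 0 < ε) :
    |(deriv a x - a x / 2 * ct x) / (2 * Real.sin (x / 2)) / (2 * √(kk a x + ε))| ≤
      (κ * qq a x + π / 2 / κ * (1 / x)) / 4 := by
  have hπ : x ≤ π := h1.trans H.h1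
  have hp := Real.pi_pos
  have hs := HC_sin_pos h0 hπ
  have hsg := HC_sin_ge h0 hπ
  have hq := H.qq_nonneg h0.le h1
  have hnn : 0 ≤ a x := H.nn x ⟨h0.le, by linarith [H.h0]⟩
  have hk : 0 ≤ kk a x := div_nonneg hnn (by positivity)
  have hr0 : 0 < √(kk a x + ε) := Real.sqrt_pos.2 (by linarith)
  have hr : √(kk a x + ε) ^ 2 = kk a x + ε := Real.sq_sqrt (by linarith)
  set s : ℝ := 2 * Real.sin (x / 2) with hsdef
  have hs2 : 0 < s := by positivity
  set N : ℝ := deriv a x - a x / 2 * ct x with hN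
  set r : ℝ := √(kk a x + ε) with hrdef
  -- the square identity
  have hNq : N ^ 2 = qq a x * a x := by
    by_cases hz : a x = 0
    · have : N = 0 := by rw [hN, H.deriv_zero h0 h1 hz, hz]; ring
      rw [this, hz]; ring
    · unfold qq
      rw [← hN]
      field_simp
  have hak : a x = s * kk a x := by
    unfold kk
    rw [← hsdef]
    field_simp
  have hinv : 1 / s ≤ π / 2 * (1 / x) := by
    have h5 : 2 * x / π ≤ s := by
      rw [hsdef]
      calc 2 * x / π = 2 * (x / π) := by ring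
        _ ≤ 2 * Real.sin (x / 2) := by linarith
    have h6 : π / 2 * (1 / x) = 1 / (2 * x / π) := by field_simp
    rw [h6]
    exact one_div_le_one_div_of_le (by positivity) h5
  set R : ℝ := κ * qq a x + 1 / (κ * s) with hR
  have hR0 : 0 ≤ R := by positivity
  have hRR : 4 * qq a x ≤ R ^ 2 * s := by
    have e : R ^ 2 * s - 4 * qq a x = (κ * qq a x - 1 / (κ * s)) ^ 2 * s := by
      rw [hR]
      field_simp
      ring
    have : 0 ≤ (κ * qq a x - 1 / (κ * s)) ^ 2 * s := by positivity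
    linarith
  have hsq : (2 * |N|) ^ 2 ≤ (R * s * r) ^ 2 := by
    have e1 : (2 * |N|) ^ 2 = 4 * (qq a x * a x) := by rw [mul_pow, sq_abs, hNq]; ring
    have e2 : (R * s * r) ^ 2 = (R ^ 2 * s) * (s * (kk a x + ε)) := by rw [← hr]; ring
    rw [e1, e2]
    calc 4 * (qq a x * a x) = (4 * qq a x) * (s * kk a x) := by rw [← hak]; ring
      _ ≤ (R ^ 2 * s) * (s * (kk a x + ε)) :=
        mul_le_mul hRR (mul_le_mul_of_nonneg_left (by linarith) hs2.le) (by positivity)
          (by positivity)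
  have hle : 2 * |N| ≤ R * s * r := by
    have h7 := abs_le_of_sq_le_sq hsq (by positivity)
    rwa [abs_of_nonneg (by positivity)] at h7
  have h8 : |N / s / (2 * r)| ≤ R / 4 := by
    rw [abs_div, abs_div, abs_of_pos hs2, abs_of_pos (show 0 < 2 * r by positivity), div_div,
      div_le_iff₀ (by positivity)]
    calc |N| = (2 * |N|) / 2 := by ring
      _ ≤ (R * s * r) / 2 := by linarith
      _ = R / 4 * (s * (2 * r)) := by ring
  refine h8.trans ?_
  have h9 : 1 / (κ * s) ≤ π / 2 / κ * (1 / x) := by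
    have e3 : 1 / (κ * s) = 1 / κ * (1 / s) := by field_simp
    have e4 : π / 2 / κ * (1 / x) = 1 / κ * (π / 2 * (1 / x)) := by field_simp
    rw [e3, e4]
    exact mul_le_mul_of_nonneg_left hinv (by positivity)
  rw [hR]
  linarith

/-- oscillation with a free parameter -/
private theorem HC_osc {a : ℝ → ℝ} {h : ℝ} (H : HArc a h) {m M κ ε : ℝ} (h0 : 0 < m)
    (hmM : m ≤ M) (h1 : M ≤ h) (hκ : 0 < κ) (hε : 0 < ε) :
    |√(kk a M + ε) - √(kk a m + ε)| ≤
      (κ * (∫ t in (0:ℝ)..h, qq a t) + π / 2 / κ * Real.log (M / m)) / 4 := by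
  have hM0 : 0 < M := h0.trans_le hmM
  have hcont : Continuous (deriv a) := H.sm.continuous_deriv (by norm_num)
  have hca : Continuous a := H.sm.continuous
  have hd : ∀ t ∈ uIcc m M, HasDerivAt (fun t => √(kk a t + ε))
      ((deriv a t - a t / 2 * ct t) / (2 * Real.sin (t / 2)) / (2 * √(kk a t + ε))) t := by
    intro t ht
    rw [uIcc_of_le hmM] at ht
    have ht0 : 0 < t := h0.trans_le ht.1
    have htπ : t ≤ π := (ht.2.trans h1).trans H.h1
    have hk : 0 ≤ kk a t := div_nonneg (H.nn t ⟨ht0.le, by linarith [ht.2, H.h0]⟩)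
      (by have := HC_sin_pos ht0 htπ; positivity)
    exact ((HC_deriv H ht0 htπ).add_const ε).sqrt (by positivity)
  have hkc : ContinuousOn (fun t => kk a t) (Icc m M) := by
    intro t ht
    exact (HC_deriv H (h0.trans_le ht.1) ((ht.2.trans h1).trans H.h1)).continuousAt.continuousWithinAt
  have hfi : ContinuousOn (fun t => (deriv a t - a t / 2 * ct t) / (2 * Real.sin (t / 2)) /
      (2 * √(kk a t + ε))) (Icc m M) := by
    have hsne : ∀ t ∈ Icc m M, Real.sin (t / 2) ≠ 0 := fun t ht =>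
      (HC_sin_pos (h0.trans_le ht.1) ((ht.2.trans h1).trans H.h1)).ne'
    have c1 : ContinuousOn (fun t => ct t) (Icc m M) := by
      unfold ct
      exact ContinuousOn.div (by fun_prop) (by fun_prop) hsne
    have c2 : ContinuousOn (fun t => deriv a t - a t / 2 * ct t) (Icc m M) :=
      hcont.continuousOn.sub ((hca.div_const 2).continuousOn.mul c1)
    have c3 : ContinuousOn (fun t => 2 * Real.sin (t / 2)) (Icc m M) := by fun_prop
    refine (c2.div c3 fun t ht => mul_ne_zero two_ne_zero (hsne t ht)).div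
      (continuousOn_const.mul (hkc.add continuousOn_const).sqrt) ?_
    intro t ht
    have ht0 : 0 < t := h0.trans_le ht.1
    have htπ : t ≤ π := (ht.2.trans h1).trans H.h1
    have hk : 0 ≤ kk a t := div_nonneg (H.nn t ⟨ht0.le, by linarith [ht.2, H.h0]⟩)
      (by have := HC_sin_pos ht0 htπ; positivity)
    have : 0 < √(kk a t + ε) := Real.sqrt_pos.2 (by linarith)
    positivity
  have hii : IntervalIntegrable (fun t => (deriv a t - a t / 2 * ct t) / (2 * Real.sin (t / 2)) /
      (2 * √(kk a t + ε))) volume m M := by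
    refine ContinuousOn.intervalIntegrable ?_
    rwa [uIcc_of_le hmM]
  have hftc := intervalIntegral.integral_eq_sub_of_hasDerivAt hd hii
  have hsub : Icc m M ⊆ Icc 0 h := Icc_subset_Icc h0.le h1
  have hq1 : IntervalIntegrable (qq a) volume m M := by
    refine H.qq_integrable.mono_set ?_
    rw [uIcc_of_le hmM, uIcc_of_le H.h0.le]
    exact hsub
  have hl1 : IntervalIntegrable (fun t : ℝ => 1 / t) volume m M := by
    refine ContinuousOn.intervalIntegrable ?_
    rw [uIcc_of_le hmM]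
    exact continuousOn_const.div continuousOn_id fun t ht => (h0.trans_le ht.1).ne'
  have hg : IntervalIntegrable (fun t => (κ * qq a t + π / 2 / κ * (1 / t)) / 4) volume m M :=
    ((hq1.const_mul κ).add (hl1.const_mul _)).div_const 4
  have hle := intervalIntegral.norm_integral_le_of_norm_le hmM
    (f := fun t => (deriv a t - a t / 2 * ct t) / (2 * Real.sin (t / 2)) / (2 * √(kk a t + ε)))
    (g := fun t => (κ * qq a t + π / 2 / κ * (1 / t)) / 4) (μ := volume)
    (Eventually.of_forall fun t ht => by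
      rw [Real.norm_eq_abs]
      exact HC_bound H (h0.trans ht.1) (ht.2.trans h1) hκ hε) hg
  rw [hftc, Real.norm_eq_abs] at hle
  refine hle.trans ?_
  rw [intervalIntegral.integral_div, intervalIntegral.integral_add (hq1.const_mul κ)
    (hl1.const_mul _), intervalIntegral.integral_const_mul, intervalIntegral.integral_const_mul,
    integral_one_div_of_pos h0 hM0]
  have hmono : ∫ t in m..M, qq a t ≤ ∫ t in (0:ℝ)..h, qq a t := by
    refine intervalIntegral.integral_mono_interval h0.le hmM h1 ?_ H.qq_integrable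
    refine (ae_restrict_iff' measurableSet_Ioc).2 (Eventually.of_forall fun t ht => ?_)
    exact H.qq_nonneg ht.1.le ht.2
  have := mul_le_mul_of_nonneg_left hmono hκ.le
  linarith

/-- optimisation of the parameter -/
private theorem HC_opt {d A B : ℝ} (hd : 0 ≤ d) (hA : 0 ≤ A) (hB : 0 ≤ B)
    (h : ∀ κ : ℝ, 0 < κ → d ≤ (κ * A + B / κ) / 4) : 4 * d ^ 2 ≤ A * B := by
  refine le_of_forall_pos_le_add ?_
  intro η hη
  -- use `A + δ`, `B + δ`
  obtain ⟨δ, hδ, hδ2⟩ : ∃ δ : ℝ, 0 < δ ∧ (A + δ) * (B + δ) ≤ A * B + η := by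
    refine ⟨min 1 (η / (A + B + 1)), by positivity, ?_⟩
    set δ := min 1 (η / (A + B + 1)) with hδ
    have h1 : δ ≤ 1 := min_le_left _ _
    have h2 : δ ≤ η / (A + B + 1) := min_le_right _ _
    have h3 : 0 < δ := by positivity
    rw [le_div_iff₀ (by positivity)] at h2
    nlinarith
  refine le_trans ?_ hδ2
  have hA' : 0 < A + δ := by linarith
  have hB' : 0 < B + δ := by linarith
  set κ : ℝ := √((B + δ) / (A + δ)) with hκ
  have hκ0 : 0 < κ := Real.sqrt_pos.2 (by positivity)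
  have hκ2 : κ ^ 2 = (B + δ) / (A + δ) := Real.sq_sqrt (by positivity)
  have h1 := h κ hκ0
  have h2 : κ * A + B / κ ≤ κ * (A + δ) + (B + δ) / κ := by
    have h3 : B / κ ≤ (B + δ) / κ := div_le_div_of_nonneg_right (by linarith) hκ0.le
    have h4 : κ * A ≤ κ * (A + δ) := mul_le_mul_of_nonneg_left (by linarith) hκ0.le
    linarith
  have h5 : (B + δ) / κ = κ * (A + δ) := by
    rw [div_eq_iff hκ0.ne']
    have : κ * (A + δ) * κ = κ ^ 2 * (A + δ) := by ring
    rw [this, hκ2]
    field_simp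
  have h6 : 2 * d ≤ κ * (A + δ) := by linarith
  calc 4 * d ^ 2 = (2 * d) ^ 2 := by ring
    _ ≤ (κ * (A + δ)) ^ 2 := pow_le_pow_left₀ (by linarith) h6 2
    _ = κ ^ 2 * (A + δ) ^ 2 := by ring
    _ = (A + δ) * (B + δ) := by rw [hκ2]; field_simp

theorem HArc.kk_le {a : ℝ → ℝ} {h : ℝ} (H : HArc a h) {x y : ℝ} (hx : x ∈ Ioc (0:ℝ) h)
    (hy : y ∈ Ioc (0:ℝ) h) :
    kk a x ≤ 2 * kk a y + π / 4 * (∫ t in (0:ℝ)..h, qq a t) * |Real.log (x / y)| := by
  have hD : 0 ≤ ∫ t in (0:ℝ)..h, qq a t :=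
    intervalIntegral.integral_nonneg H.h0.le fun t ht => H.qq_nonneg ht.1 ht.2
  have hnn : ∀ z ∈ Ioc (0:ℝ) h, 0 ≤ kk a z := fun z hz =>
    div_nonneg (H.nn z ⟨hz.1.le, by linarith [hz.2, H.h0]⟩)
      (by have := HC_sin_pos hz.1 (hz.2.trans H.h1); positivity)
  have key : ∀ κ ε : ℝ, 0 < κ → 0 < ε → |√(kk a x + ε) - √(kk a y + ε)| ≤
      (κ * (∫ t in (0:ℝ)..h, qq a t) + π / 2 * |Real.log (x / y)| / κ) / 4 := by
    intro κ ε hκ hε
    rcases le_total y x with hyx | hxy
    · have h1 := HC_osc H hy.1 hyx hx.2 hκ hε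
      have h2 : 0 ≤ Real.log (x / y) := Real.log_nonneg ((one_le_div hy.1).2 hyx)
      rw [abs_of_nonneg h2]
      refine h1.trans (le_of_eq ?_)
      ring
    · have h1 := HC_osc H hx.1 hxy hy.2 hκ hε
      have h2 : 0 ≤ Real.log (y / x) := Real.log_nonneg ((one_le_div hx.1).2 hxy)
      have h3 : Real.log (x / y) = -Real.log (y / x) := by
        rw [← Real.log_inv, inv_div]
      rw [abs_sub_comm, h3, abs_neg, abs_of_nonneg h2]
      refine h1.trans (le_of_eq ?_)
      ring
  have main : ∀ ε : ℝ, 0 < ε → kk a x + ε ≤ 2 * (kk a y + ε) +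
      π / 4 * (∫ t in (0:ℝ)..h, qq a t) * |Real.log (x / y)| := by
    intro ε hε
    have h1 := HC_opt (abs_nonneg (√(kk a x + ε) - √(kk a y + ε))) hD
      (show 0 ≤ π / 2 * |Real.log (x / y)| by have := Real.pi_pos; positivity)
      (fun κ hκ => key κ ε hκ hε)
    rw [sq_abs] at h1
    have hx1 : √(kk a x + ε) ^ 2 = kk a x + ε := Real.sq_sqrt (by have := hnn x hx; linarith)
    have hy1 : √(kk a y + ε) ^ 2 = kk a y + ε := Real.sq_sqrt (by have := hnn y hy; linarith)
    nlinarith [sq_nonneg (√(kk a x + ε) - 2 * √(kk a y + ε))]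
  refine le_of_forall_pos_le_add fun η hη => ?_
  have := main η hη
  linarith

end Pool.Agent.H51.DG
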