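import Pool.Agent.H51.DG.HC

/-!
# DG2 job HD: consequences on a half arc

`D = ∫_0^h qq a ≥ 0`, `Mh = ∫_0^h a`, `0 < m ≤ 2h`.
* `good_pt`: some `ξ1 ∈ [m/4, m/2]` has `a ξ1 ≤ 4 Mh/m` (mean value), and
  `kk = a/(2 sin(ξ/2)) ≤ a π/(2ξ) ≤ 8 π Mh/m²`.
* `half_Q`: on `(0,m/2]`: `kk ≤ 2 k1 + (π/4) D |log(ξ/ξ1)|` (`HArc.kk_le`),
  `∫_0^{m/2} |log(ξ/ξ1)| dξ = ξ1 ∫_0^{m/(2ξ1)} |log u| du ≤ 2 log 2 · ξ1 ≤ m`; on `[m/2,h]`:
  `kk ≤ a π/(2ξ) ≤ π a/m`.  Total `≤ m k1 + (π/4) D m + π Mh/m ≤ 9 π Mh/m + m D`.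
* `half_H1`: `a' = (a/2) ct + (a' - (a/2) ct)`, `a'² ≤ 2 ((a/2) ct)² + 2 (a' - (a/2) ct)²`, and
  `(a/2) ct = kk cos(ξ/2)`, `(a' - (a/2)ct)² = qq a · a` (also if `a = 0`, `a' = 0`), `a = 2 sin(ξ/2) kk ≤ ξ kk`.
  `|log u| ≤ 4 (u^{1/4} + u^{-1/4})`, `log² u ≤ 16 (u^{1/2} + u^{-1/2})`, `ξ ≤ h ≤ π`, `m/4 ≤ ξ1 ≤ π`:
  `∫_0^h log²(ξ/ξ1) ≤ C/m`, `ξ |log(ξ/ξ1)| ≤ C/m`.  So `∫ 2 kk² ≤ C (k1² + D²/m)`,
  `∫ 2 qq a ≤ 2 D sup a ≤ C D (k1 + D/m)`, and `k1 ≤ 8π Mh/m²`; `1 ≤ π/m`.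
-/

set_option autoImplicit false
open Real Set MeasureTheory Filter Topology

namespace Pool.Agent.H51.DG

theorem HD_sin {x : ℝ} (h0 : 0 < x) (h1 : x ≤ π) : x / π ≤ Real.sin (x / 2) := by
  have h2 := Real.mul_le_sin (x := x / 2) (by linarith) (by linarith)
  have e : 2 / π * (x / 2) = x / π := by
    field_simp
  rw [e] at h2
  exact h2

theorem HD_sin_pos {x : ℝ} (h0 : 0 < x) (h1 : x ≤ π) : 0 < Real.sin (x / 2) :=
  lt_of_lt_of_le (div_pos h0 Real.pi_pos) (HD_sin h0 h1)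

theorem HD_nn {a : ℝ → ℝ} {h : ℝ} (H : HArc a h) {x : ℝ} (h0 : 0 < x) (h1 : x ≤ h) : 0 ≤ a x :=
  H.nn x ⟨h0.le, by linarith [H.h0]⟩

theorem HD_kk_nonneg {a : ℝ → ℝ} {h : ℝ} (H : HArc a h) {x : ℝ} (h0 : 0 < x) (h1 : x ≤ h) :
    0 ≤ kk a x := by
  unfold kk
  exact div_nonneg (HD_nn H h0 h1) (by linarith [HD_sin_pos h0 (h1.trans H.h1)])

theorem HD_kk_le {a : ℝ → ℝ} {h : ℝ} (H : HArc a h) {x : ℝ} (h0 : 0 < x) (h1 : x ≤ h) :
    kk a x ≤ a x * π / (2 * x) := by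
  have h2 := HD_sin h0 (h1.trans H.h1)
  have h3 := HD_sin_pos h0 (h1.trans H.h1)
  have h4 := HD_nn H h0 h1
  have hpi := Real.pi_pos
  unfold kk
  rw [div_le_div_iff₀ (by linarith) (by linarith)]
  have h5 : x ≤ π * Real.sin (x / 2) := by
    rw [div_le_iff₀ hpi] at h2
    linarith
  nlinarith [mul_le_mul_of_nonneg_left h5 h4]

theorem HD_a_le {a : ℝ → ℝ} {h : ℝ} (H : HArc a h) {x : ℝ} (h0 : 0 < x) (h1 : x ≤ h) :
    a x ≤ x * kk a x := by
  have h3 := HD_sin_pos h0 (h1.trans H.h1)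
  have h4 := HD_kk_nonneg H h0 h1
  have h5 : a x = 2 * Real.sin (x / 2) * kk a x := by
    unfold kk
    field_simp
  have h6 : Real.sin (x / 2) ≤ x / 2 := Real.sin_le (by linarith)
  calc a x = 2 * Real.sin (x / 2) * kk a x := h5
    _ ≤ x * kk a x := mul_le_mul_of_nonneg_right (by linarith) h4

theorem HArc.kk_integrable {a : ℝ → ℝ} {h : ℝ} (H : HArc a h) :
    IntervalIntegrable (kk a) volume 0 h := by
  obtain ⟨K, hK⟩ := (isCompact_Icc (a := (0:ℝ)) (b := h)).exists_bound_of_continuousOn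
    (f := deriv a) ((H.sm.continuous_deriv (by norm_num)).continuousOn)
  have hax : ∀ x ∈ Icc (0:ℝ) h, |a x| ≤ K * x := by
    intro x hx
    have h1 := Convex.norm_image_sub_le_of_norm_deriv_le (f := a) (s := Icc (0:ℝ) h) (C := K)
      (fun y _ => (H.sm.differentiable (by norm_num)) y) hK (convex_Icc 0 h)
      (left_mem_Icc.2 H.h0.le) hx
    rw [H.z, sub_zero, sub_zero, Real.norm_eq_abs, Real.norm_eq_abs, abs_of_nonneg hx.1] at h1
    exact h1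
  have hpi := Real.pi_pos
  refine IntervalIntegrable.mono_fun (f := fun _ => K * π / 2) intervalIntegrable_const ?_ ?_
  · have hm : Measurable (kk a) := by
      unfold kk
      exact H.sm.continuous.measurable.div (by fun_prop)
    exact hm.aestronglyMeasurable
  · rw [uIoc_of_le H.h0.le]
    refine (ae_restrict_iff' measurableSet_Ioc).2 (Eventually.of_forall fun x hx => ?_)
    have h1 := HD_kk_nonneg H hx.1 hx.2
    have h2 := HD_kk_le H hx.1 hx.2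
    have h3 := hax x ⟨hx.1.le, hx.2⟩
    have h4 := HD_nn H hx.1 hx.2
    rw [abs_of_nonneg h4] at h3
    show ‖kk a x‖ ≤ ‖K * π / 2‖
    rw [Real.norm_eq_abs, Real.norm_eq_abs, abs_of_nonneg h1]
    refine le_trans (le_trans h2 ?_) (le_abs_self _)
    have hx0 := hx.1
    rw [div_le_div_iff₀ (by linarith) (by norm_num)]
    nlinarith [mul_le_mul_of_nonneg_right h3 hpi.le]

theorem HD_a_int {a : ℝ → ℝ} {h : ℝ} (H : HArc a h) (x y : ℝ) :
    IntervalIntegrable a volume x y := H.sm.continuous.intervalIntegrable x y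

theorem HD_sub_le {a : ℝ → ℝ} {h : ℝ} (H : HArc a h) {x y : ℝ} (h0 : 0 ≤ x) (hxy : x ≤ y)
    (h1 : y ≤ h) : ∫ t in x..y, a t ≤ ∫ t in (0:ℝ)..h, a t := by
  have e : ∫ t in (0:ℝ)..h, a t = (∫ t in (0:ℝ)..x, a t) + (∫ t in x..y, a t) +
      ∫ t in y..h, a t := by
    rw [intervalIntegral.integral_add_adjacent_intervals (HD_a_int H _ _) (HD_a_int H _ _),
      intervalIntegral.integral_add_adjacent_intervals (HD_a_int H _ _) (HD_a_int H _ _)]
  have h2 : 0 ≤ ∫ t in (0:ℝ)..x, a t :=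
    intervalIntegral.integral_nonneg h0 fun t ht => H.nn t ⟨ht.1, by linarith [ht.2, H.h0]⟩
  have h3 : 0 ≤ ∫ t in y..h, a t :=
    intervalIntegral.integral_nonneg h1 fun t ht => H.nn t ⟨by linarith [ht.1], by
      linarith [ht.2, H.h0]⟩
  linarith

theorem HArc.good_pt {a : ℝ → ℝ} {h : ℝ} (H : HArc a h) {m : ℝ} (hm : 0 < m) (hmh : m ≤ 2 * h) :
    ∃ y ∈ Icc (m / 4) (m / 2), kk a y ≤ 8 * π * (∫ t in (0:ℝ)..h, a t) / m ^ 2 := by
  have hpi := Real.pi_pos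
  have hle : m / 4 ≤ m / 2 := by linarith
  obtain ⟨y, hy, hmin⟩ := (isCompact_Icc (a := m / 4) (b := m / 2)).exists_isMinOn
    (nonempty_Icc.2 hle) H.sm.continuous.continuousOn
  refine ⟨y, hy, ?_⟩
  have h1 : (m / 4) * a y ≤ ∫ t in (m / 4)..(m / 2), a t := by
    have h2 : ∫ _t in (m / 4)..(m / 2), a y ≤ ∫ t in (m / 4)..(m / 2), a t :=
      intervalIntegral.integral_mono_on hle intervalIntegrable_const (HD_a_int H _ _)
        fun t ht => hmin ht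
    rw [intervalIntegral.integral_const, smul_eq_mul] at h2
    have e : (m / 2 - m / 4) * a y = m / 4 * a y := by ring
    rw [e] at h2
    exact h2
  have h2 := HD_sub_le H (x := m / 4) (y := m / 2) (by linarith) hle (by linarith)
  have hy0 : 0 < y := lt_of_lt_of_le (by linarith) hy.1
  have hyh : y ≤ h := hy.2.trans (by linarith)
  have h3 := HD_kk_le H hy0 hyh
  have h4 := HD_nn H hy0 hyh
  have hy1 := hy.1
  refine h3.trans ?_
  rw [div_le_div_iff₀ (by linarith) (by positivity)]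
  have h5 : m * a y ≤ 4 * ∫ t in (0:ℝ)..h, a t := by linarith
  have h6 : 0 ≤ m * a y := mul_nonneg hm.le h4
  calc a y * π * m ^ 2 = π * m * (m * a y) := by ring
    _ ≤ π * m * (4 * ∫ t in (0:ℝ)..h, a t) := mul_le_mul_of_nonneg_left h5 (by positivity)
    _ ≤ π * (4 * y) * (4 * ∫ t in (0:ℝ)..h, a t) := by
        refine mul_le_mul_of_nonneg_right ?_ (h6.trans h5)
        exact mul_le_mul_of_nonneg_left (by linarith) hpi.le
    _ = 8 * π * (∫ t in (0:ℝ)..h, a t) * (2 * y) := by ring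

theorem HD_log_int (y b c : ℝ) :
    IntervalIntegrable (fun t => |Real.log (t / y)|) volume b c := by
  have h1 : IntervalIntegrable (fun t => Real.log (t / y)) volume b c := by
    by_cases hy : y = 0
    · simp only [hy, div_zero]
      exact intervalIntegrable_const
    · have h2 : IntervalIntegrable (fun t => Real.log t - Real.log y) volume b c :=
        (intervalIntegral.intervalIntegrable_log').sub intervalIntegrable_const
      have h0 : ∀ᵐ t : ℝ ∂volume, t ≠ 0 := by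
        have := (Set.countable_singleton (0:ℝ)).ae_notMem (volume : Measure ℝ)
        simpa using this
      refine h2.congr_ae ?_
      refine (ae_restrict_of_ae h0).mono fun t ht => ?_
      exact (Real.log_div ht hy).symm
  exact h1.abs

theorem HD_log {y b : ℝ} (hy : 0 < y) (hyb : y ≤ b) (hb : b ≤ 2 * y) :
    ∫ t in (0:ℝ)..b, |Real.log (t / y)| ≤ 2 * b := by
  have hb0 : 0 < b := lt_of_lt_of_le hy hyb
  rw [← intervalIntegral.integral_add_adjacent_intervals (HD_log_int y 0 y) (HD_log_int y y b)]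
  have h1 : ∫ t in (0:ℝ)..y, |Real.log (t / y)| = ∫ t in (0:ℝ)..y, (Real.log y - Real.log t) := by
    refine intervalIntegral.integral_congr_ae ?_
    refine Eventually.of_forall fun t ht => ?_
    rw [uIoc_of_le hy.le] at ht
    rw [Real.log_div ht.1.ne' hy.ne', abs_of_nonpos]
    · ring
    · have := Real.log_le_log ht.1 ht.2
      linarith
  have h2 : ∫ t in y..b, |Real.log (t / y)| = ∫ t in y..b, (Real.log t - Real.log y) := by
    refine intervalIntegral.integral_congr_ae ?_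
    refine Eventually.of_forall fun t ht => ?_
    rw [uIoc_of_le hyb] at ht
    have ht0 : 0 < t := hy.trans ht.1
    rw [Real.log_div ht0.ne' hy.ne', abs_of_nonneg]
    have := Real.log_le_log hy ht.1.le
    linarith
  rw [h1, h2, intervalIntegral.integral_sub intervalIntegrable_const
    intervalIntegral.intervalIntegrable_log', intervalIntegral.integral_sub
    intervalIntegral.intervalIntegrable_log' intervalIntegrable_const,
    integral_log, integral_log, intervalIntegral.integral_const, intervalIntegral.integral_const,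
    smul_eq_mul, smul_eq_mul]
  have h3 : Real.log b - Real.log y ≤ 1 := by
    rw [← Real.log_div hb0.ne' hy.ne']
    have h4 := Real.log_le_sub_one_of_pos (div_pos hb0 hy)
    have h5 : b / y ≤ 2 := by
      rw [div_le_iff₀ hy]
      exact hb
    linarith
  nlinarith [mul_le_mul_of_nonneg_left h3 hb0.le]

theorem HD_qq_int_nonneg {a : ℝ → ℝ} {h : ℝ} (H : HArc a h) :
    0 ≤ ∫ t in (0:ℝ)..h, qq a t :=
  intervalIntegral.integral_nonneg H.h0.le fun _ ht => H.qq_nonneg ht.1 ht.2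

theorem HD_a_int_nonneg {a : ℝ → ℝ} {h : ℝ} (H : HArc a h) :
    0 ≤ ∫ t in (0:ℝ)..h, a t :=
  intervalIntegral.integral_nonneg H.h0.le fun t ht => H.nn t ⟨ht.1, by linarith [ht.2, H.h0]⟩

theorem HArc.half_Q {a : ℝ → ℝ} {h : ℝ} (H : HArc a h) {m : ℝ} (hm : 0 < m) (hmh : m ≤ 2 * h) :
    ∫ t in (0:ℝ)..h, kk a t ≤
      9 * π * (∫ t in (0:ℝ)..h, a t) / m + m * ∫ t in (0:ℝ)..h, qq a t := by
  obtain ⟨y, hy, hky⟩ := H.good_pt hm hmh
  have hpi := Real.pi_pos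
  have hpi4 : π ≤ 4 := Real.pi_le_four
  have hy0 : 0 < y := lt_of_lt_of_le (by linarith) hy.1
  have hyh : y ≤ h := hy.2.trans (by linarith)
  have hm2 : m / 2 ≤ h := by linarith
  have hm20 : 0 < m / 2 := by linarith
  have hD := HD_qq_int_nonneg H
  have hM := HD_a_int_nonneg H
  have i1 : IntervalIntegrable (kk a) volume 0 (m / 2) :=
    H.kk_integrable.mono_set (by
      rw [uIcc_of_le hm20.le, uIcc_of_le H.h0.le]
      exact Icc_subset_Icc le_rfl hm2)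
  have i2 : IntervalIntegrable (kk a) volume (m / 2) h :=
    H.kk_integrable.mono_set (by
      rw [uIcc_of_le hm2, uIcc_of_le H.h0.le]
      exact Icc_subset_Icc hm20.le le_rfl)
  rw [← intervalIntegral.integral_add_adjacent_intervals i1 i2]
  -- first part
  have h1 : ∫ t in (0:ℝ)..(m / 2), kk a t ≤ ∫ t in (0:ℝ)..(m / 2),
      (2 * kk a y + π / 4 * (∫ t in (0:ℝ)..h, qq a t) * |Real.log (t / y)|) := by
    refine intervalIntegral.integral_mono_on_of_le_Ioo hm20.le i1 ?_ ?_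
    · exact intervalIntegrable_const.add ((HD_log_int y _ _).const_mul _)
    · intro t ht
      exact H.kk_le ⟨ht.1, ht.2.le.trans hm2⟩ ⟨hy0, hyh⟩
  rw [intervalIntegral.integral_add intervalIntegrable_const ((HD_log_int y _ _).const_mul _),
    intervalIntegral.integral_const, intervalIntegral.integral_const_mul, smul_eq_mul,
    sub_zero] at h1
  have h2 := HD_log hy0 hy.2 (by linarith [hy.1])
  have h3 : π / 4 * (∫ t in (0:ℝ)..h, qq a t) * (∫ t in (0:ℝ)..(m / 2), |Real.log (t / y)|) ≤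
      m * ∫ t in (0:ℝ)..h, qq a t := by
    have h4 : 0 ≤ π / 4 * ∫ t in (0:ℝ)..h, qq a t := by positivity
    calc _ ≤ π / 4 * (∫ t in (0:ℝ)..h, qq a t) * (2 * (m / 2)) :=
          mul_le_mul_of_nonneg_left h2 h4
      _ = π / 4 * (m * ∫ t in (0:ℝ)..h, qq a t) := by ring
      _ ≤ 1 * (m * ∫ t in (0:ℝ)..h, qq a t) :=
          mul_le_mul_of_nonneg_right (by linarith) (by positivity)
      _ = _ := one_mul _
  -- second part
  have h5 : ∫ t in (m / 2)..h, kk a t ≤ ∫ t in (m / 2)..h, (π / m * a t) := by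
    refine intervalIntegral.integral_mono_on hm2 i2 ((HD_a_int H _ _).const_mul _) ?_
    intro t ht
    have ht0 : 0 < t := lt_of_lt_of_le hm20 ht.1
    refine (HD_kk_le H ht0 ht.2).trans ?_
    have h6 := HD_nn H ht0 ht.2
    have e : π / m * a t = a t * π / m := by ring
    rw [e]
    have h7 : 0 ≤ a t * π := by positivity
    exact div_le_div_of_nonneg_left h7 hm (by linarith [ht.1])
  rw [intervalIntegral.integral_const_mul] at h5
  have h8 := HD_sub_le H hm20.le hm2 le_rfl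
  have h9 : π / m * (∫ t in (m / 2)..h, a t) ≤ π / m * ∫ t in (0:ℝ)..h, a t :=
    mul_le_mul_of_nonneg_left h8 (by positivity)
  have h10 : m / 2 * (2 * kk a y) ≤ 8 * π * (∫ t in (0:ℝ)..h, a t) / m := by
    calc m / 2 * (2 * kk a y) = m * kk a y := by ring
      _ ≤ m * (8 * π * (∫ t in (0:ℝ)..h, a t) / m ^ 2) := mul_le_mul_of_nonneg_left hky hm.le
      _ = 8 * π * (∫ t in (0:ℝ)..h, a t) / m := by field_simp
  have e2 : 9 * π * (∫ t in (0:ℝ)..h, a t) / m = 8 * π * (∫ t in (0:ℝ)..h, a t) / m +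
      π / m * ∫ t in (0:ℝ)..h, a t := by ring
  rw [e2]
  linarith

theorem HD_abs_log {x t : ℝ} (h0 : 0 < x) (h1 : x ≤ π) (ht : 0 < t) :
    |Real.log x| ≤ 1 / t * x ^ (-t) + 3 := by
  have hpi4 : π ≤ 4 := Real.pi_le_four
  rcases le_total x 1 with h2 | h2
  · have h3 := (Real.abs_log_mul_self_rpow_lt x t h0 h2 ht).le
    have h4 : 0 < x ^ t := Real.rpow_pos_of_pos h0 t
    rw [abs_mul, abs_of_pos h4, ← le_div_iff₀ h4] at h3
    rw [Real.rpow_neg h0.le, ← div_eq_mul_inv]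
    linarith
  · rw [abs_of_nonneg (Real.log_nonneg h2)]
    have h3 := Real.log_le_sub_one_of_pos h0
    have h4 : 0 < x ^ (-t) := Real.rpow_pos_of_pos h0 _
    have h5 : 0 < 1 / t * x ^ (-t) := by positivity
    linarith

theorem HD_log2 {y m s : ℝ} (hm : 0 < m) (hmp : m ≤ π) (hy : y ∈ Icc (m / 4) (m / 2))
    (hs : s = (Real.sqrt m)⁻¹) : 0 < s ∧ s ^ 2 = 1 / m ∧ 1 ≤ 2 * s ∧ |Real.log y| ≤ 10 * s := by
  have hpi := Real.pi_pos
  have hpi4 : π ≤ 4 := Real.pi_le_four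
  have hy0 : 0 < y := lt_of_lt_of_le (by linarith) hy.1
  have hsm : 0 < Real.sqrt m := Real.sqrt_pos.2 hm
  have hs0 : 0 < s := by rw [hs]; positivity
  have hs2 : s ^ 2 = 1 / m := by
    rw [hs, inv_pow, Real.sq_sqrt hm.le, one_div]
  have hs1 : 1 ≤ 2 * s := by
    have h1 : Real.sqrt m ≤ 2 := by
      rw [Real.sqrt_le_left (by norm_num)]
      linarith
    rw [hs]
    have h2 : Real.sqrt m * (Real.sqrt m)⁻¹ = 1 := mul_inv_cancel₀ hsm.ne'
    have h3 : 0 < (Real.sqrt m)⁻¹ := by positivity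
    nlinarith [mul_le_mul_of_nonneg_right h1 h3.le]
  refine ⟨hs0, hs2, hs1, ?_⟩
  have h1 := HD_abs_log (t := 1 / 2) hy0 (by linarith [hy.2]) (by norm_num)
  have h2 : y ^ (-(1 / 2) : ℝ) ≤ 2 * s := by
    rw [Real.rpow_neg hy0.le, ← Real.sqrt_eq_rpow, hs]
    have h3 : Real.sqrt m ≤ 2 * Real.sqrt y := by
      rw [Real.sqrt_le_left (by positivity), mul_pow, Real.sq_sqrt hy0.le]
      linarith [hy.1]
    have h4 : 0 < Real.sqrt y := Real.sqrt_pos.2 hy0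
    rw [inv_le_comm₀ h4 (by positivity), mul_inv, inv_inv]
    linarith
  have e : (1 : ℝ) / (1 / 2) = 2 := by norm_num
  rw [e] at h1
  linarith

theorem HD_kk {a : ℝ → ℝ} {h m s P D : ℝ} (H : HArc a h) (hm : 0 < m) (hmh : m ≤ 2 * h)
    (hmp : m ≤ π) (hs : s = (Real.sqrt m)⁻¹) (hDd : D = ∫ t in (0:ℝ)..h, qq a t)
    (hP : P = (∫ t in (0:ℝ)..h, a t) / m ^ 2 + D) :
    ∀ x ∈ Ioc (0:ℝ) h, kk a x ≤ P * (4 * x ^ (-(1 / 4) : ℝ) + 144 * s) := by
  obtain ⟨y, hy, hky⟩ := H.good_pt hm hmh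
  obtain ⟨hs0, hs2, hs1, hly⟩ := HD_log2 hm hmp hy hs
  have hpi := Real.pi_pos
  have hpi4 : π ≤ 4 := Real.pi_le_four
  have hy0 : 0 < y := lt_of_lt_of_le (by linarith) hy.1
  have hyh : y ≤ h := hy.2.trans (by linarith)
  have hD := HD_qq_int_nonneg H
  have hM := HD_a_int_nonneg H
  rw [← hDd] at hD
  have hMm : 0 ≤ (∫ t in (0:ℝ)..h, a t) / m ^ 2 := by positivity
  have hP0 : 0 ≤ P := by rw [hP]; linarith
  have hDP : D ≤ P := by rw [hP]; linarith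
  have hk1 : kk a y ≤ 32 * P := by
    refine hky.trans ?_
    have e : 8 * π * (∫ t in (0:ℝ)..h, a t) / m ^ 2 = 8 * π * ((∫ t in (0:ℝ)..h, a t) / m ^ 2) := by
      ring
    rw [e]
    have h1 : (∫ t in (0:ℝ)..h, a t) / m ^ 2 ≤ P := by rw [hP]; linarith
    nlinarith [mul_le_mul h1 hpi4 hpi.le hP0]
  intro x hx
  have hlog : |Real.log (x / y)| ≤ 4 * x ^ (-(1 / 4) : ℝ) + 16 * s := by
    have h1 := HD_abs_log (t := 1 / 4) hx.1 (hx.2.trans H.h1) (by norm_num)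
    have e : (1 : ℝ) / (1 / 4) = 4 := by norm_num
    rw [e] at h1
    rw [Real.log_div hx.1.ne' hy0.ne']
    have h2 := abs_sub (Real.log x) (Real.log y)
    linarith
  have h1 := H.kk_le hx ⟨hy0, hyh⟩
  rw [← hDd] at h1
  have h3 : 0 ≤ |Real.log (x / y)| := abs_nonneg _
  have h4 : π / 4 * D * |Real.log (x / y)| ≤ P * (4 * x ^ (-(1 / 4) : ℝ) + 16 * s) := by
    have h5 : π / 4 * D ≤ P := by nlinarith
    exact mul_le_mul h5 hlog h3 hP0
  have h6 : 2 * kk a y ≤ P * (128 * s) := by nlinarith [mul_le_mul_of_nonneg_left hs1 hP0]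
  have e : P * (4 * x ^ (-(1 / 4) : ℝ) + 144 * s) =
      P * (128 * s) + P * (4 * x ^ (-(1 / 4) : ℝ) + 16 * s) := by ring
  rw [e]
  linarith

theorem HD_aa {a : ℝ → ℝ} {h s P x : ℝ} (H : HArc a h) (hs0 : 0 < s) (hs1 : 1 ≤ 2 * s)
    (hP0 : 0 ≤ P) (hx : x ∈ Ioc (0:ℝ) h)
    (hkk : kk a x ≤ P * (4 * x ^ (-(1 / 4) : ℝ) + 144 * s)) : a x ≤ 608 * P * s := by
  have hpi4 : π ≤ 4 := Real.pi_le_four
  have hroot : x * x ^ (-(1 / 4) : ℝ) ≤ 4 := by
    have h1 : x * x ^ (-(1 / 4) : ℝ) = x ^ (3 / 4 : ℝ) := by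
      nth_rw 1 [← Real.rpow_one x]
      rw [← Real.rpow_add hx.1]
      norm_num
    rw [h1]
    calc x ^ (3 / 4 : ℝ) ≤ 4 ^ (3 / 4 : ℝ) :=
          Real.rpow_le_rpow hx.1.le (by linarith [hx.2, H.h1]) (by norm_num)
      _ ≤ 4 ^ (1 : ℝ) := Real.rpow_le_rpow_of_exponent_le (by norm_num) (by norm_num)
      _ = 4 := Real.rpow_one 4
  have h1 := HD_a_le H hx.1 hx.2
  have hx4 : x ≤ 4 := by linarith [hx.2, H.h1]
  have h4 : x * kk a x ≤ x * (P * (4 * x ^ (-(1 / 4) : ℝ) + 144 * s)) :=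
    mul_le_mul_of_nonneg_left hkk hx.1.le
  have e : x * (P * (4 * x ^ (-(1 / 4) : ℝ) + 144 * s)) =
      P * (4 * (x * x ^ (-(1 / 4) : ℝ)) + 144 * (x * s)) := by ring
  rw [e] at h4
  have h5 : 4 * (x * x ^ (-(1 / 4) : ℝ)) + 144 * (x * s) ≤ 608 * s := by
    have h7 : x * s ≤ 4 * s := mul_le_mul_of_nonneg_right hx4 hs0.le
    linarith
  have h6 := mul_le_mul_of_nonneg_left h5 hP0
  linarith

theorem HD_pt {a : ℝ → ℝ} {h s P x : ℝ} (H : HArc a h) (hs0 : 0 < s) (hs1 : 1 ≤ 2 * s)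
    (hP0 : 0 ≤ P) (hx : x ∈ Ioc (0:ℝ) h)
    (hkk : kk a x ≤ P * (4 * x ^ (-(1 / 4) : ℝ) + 144 * s)) : (deriv a x) ^ 2 ≤
      2 * P ^ 2 * (32 * x ^ (-(1 / 2) : ℝ) + 41472 * s ^ 2) + 1216 * P * s * qq a x := by
  have ha := HD_aa H hs0 hs1 hP0 hx hkk
  have hq0 := H.qq_nonneg hx.1.le hx.2
  have hk0 := HD_kk_nonneg H hx.1 hx.2
  have ha0 := HD_nn H hx.1 hx.2
  have h1 : (deriv a x - a x / 2 * ct x) ^ 2 = qq a x * a x := by
    by_cases hz : a x = 0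
    · rw [H.deriv_zero hx.1 hx.2 hz, hz]
      ring
    · unfold qq
      field_simp
  have h2 : (a x / 2 * ct x) ^ 2 ≤ kk a x ^ 2 := by
    have h3 : a x / 2 * ct x = kk a x * Real.cos (x / 2) := by
      unfold kk ct
      have := HD_sin_pos hx.1 (hx.2.trans H.h1)
      field_simp
    rw [h3, mul_pow]
    have h4 : Real.cos (x / 2) ^ 2 ≤ 1 := Real.cos_sq_le_one _
    exact mul_le_of_le_one_right (sq_nonneg _) h4
  have h5 : (deriv a x) ^ 2 ≤ 2 * kk a x ^ 2 + 2 * (qq a x * a x) := by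
    rw [← h1]
    nlinarith [sq_nonneg (a x / 2 * ct x - (deriv a x - a x / 2 * ct x))]
  have h6 : kk a x ^ 2 ≤ P ^ 2 * (32 * x ^ (-(1 / 2) : ℝ) + 41472 * s ^ 2) := by
    have h8 : kk a x ^ 2 ≤ (P * (4 * x ^ (-(1 / 4) : ℝ) + 144 * s)) ^ 2 :=
      pow_le_pow_left₀ hk0 hkk 2
    have h9 : (4 * x ^ (-(1 / 4) : ℝ) + 144 * s) ^ 2 ≤
        32 * x ^ (-(1 / 2) : ℝ) + 41472 * s ^ 2 := by
      have e : x ^ (-(1 / 2) : ℝ) = (x ^ (-(1 / 4) : ℝ)) ^ 2 := by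
        rw [← Real.rpow_natCast, ← Real.rpow_mul hx.1.le]
        norm_num
      rw [e]
      nlinarith [sq_nonneg (4 * x ^ (-(1 / 4) : ℝ) - 144 * s)]
    rw [mul_pow] at h8
    exact h8.trans (mul_le_mul_of_nonneg_left h9 (sq_nonneg P))
  have h10 : qq a x * a x ≤ qq a x * (608 * P * s) :=
    mul_le_mul_of_nonneg_left ha hq0
  have e : 2 * P ^ 2 * (32 * x ^ (-(1 / 2) : ℝ) + 41472 * s ^ 2) + 1216 * P * s * qq a x =
      2 * (P ^ 2 * (32 * x ^ (-(1 / 2) : ℝ) + 41472 * s ^ 2)) +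
      2 * (qq a x * (608 * P * s)) := by ring
  rw [e]
  linarith

theorem HD_root {h : ℝ} (h0 : 0 < h) (h1 : h ≤ 4) :
    IntervalIntegrable (fun x : ℝ => x ^ (-(1 / 2) : ℝ)) volume 0 h ∧
    ∫ x in (0:ℝ)..h, x ^ (-(1 / 2) : ℝ) ≤ 8 := by
  refine ⟨intervalIntegral.intervalIntegrable_rpow' (by norm_num), ?_⟩
  rw [integral_rpow (Or.inl (by norm_num))]
  have e : ((-(1 / 2) : ℝ) + 1) = 1 / 2 := by norm_num
  rw [e, Real.zero_rpow (by norm_num), sub_zero, div_le_iff₀ (by norm_num)]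
  have h3 : h ^ (1 / 2 : ℝ) ≤ 4 ^ (1 / 2 : ℝ) := Real.rpow_le_rpow h0.le h1 (by norm_num)
  have h4 : (4 : ℝ) ^ (1 / 2 : ℝ) ≤ 4 ^ (1 : ℝ) :=
    Real.rpow_le_rpow_of_exponent_le (by norm_num) (by norm_num)
  rw [Real.rpow_one] at h4
  linarith

theorem half_H1 : ∃ C : ℝ, 0 < C ∧ ∀ (a : ℝ → ℝ) (h m : ℝ), HArc a h → 0 < m → m ≤ 2 * h → m ≤ π →
    ∫ t in (0:ℝ)..h, (deriv a t) ^ 2 ≤
      C * ((∫ t in (0:ℝ)..h, a t) / m ^ 2 + ∫ t in (0:ℝ)..h, qq a t) ^ 2 / m := by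
  refine ⟨1000000, by norm_num, fun a h m H hm hmh hmp => ?_⟩
  have hpi4 : π ≤ 4 := Real.pi_le_four
  have hD := HD_qq_int_nonneg H
  have hM := HD_a_int_nonneg H
  obtain ⟨D, hDd⟩ : ∃ D, D = ∫ t in (0:ℝ)..h, qq a t := ⟨_, rfl⟩
  obtain ⟨P, hP⟩ : ∃ P, P = (∫ t in (0:ℝ)..h, a t) / m ^ 2 + D := ⟨_, rfl⟩
  obtain ⟨s, hs⟩ : ∃ s, s = (Real.sqrt m)⁻¹ := ⟨_, rfl⟩
  obtain ⟨hs0, hs2, hs1, -⟩ := HD_log2 hm hmp
    (left_mem_Icc.2 (by linarith : m / 4 ≤ m / 2)) hs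
  have hkk := HD_kk H hm hmh hmp hs hDd hP
  rw [← hDd] at hD ⊢
  rw [← hP]
  have hMm : 0 ≤ (∫ t in (0:ℝ)..h, a t) / m ^ 2 := by positivity
  have hP0 : 0 ≤ P := by rw [hP]; linarith
  have hDP : D ≤ P := by rw [hP]; linarith
  have hh4 : h ≤ 4 := H.h1.trans hpi4
  obtain ⟨hr1, hr2⟩ := HD_root H.h0 hh4
  obtain ⟨R, hR⟩ : ∃ R, R = ∫ x in (0:ℝ)..h, x ^ (-(1 / 2) : ℝ) := ⟨_, rfl⟩
  have hi0 : IntervalIntegrable (fun x : ℝ => 32 * x ^ (-(1 / 2) : ℝ)) volume 0 h :=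
    hr1.const_mul _
  have hi4 : IntervalIntegrable (fun x : ℝ => 32 * x ^ (-(1 / 2) : ℝ) +
      41472 * s ^ 2) volume 0 h := hi0.add intervalIntegrable_const
  have hi1 : IntervalIntegrable (fun x : ℝ => 2 * P ^ 2 * (32 * x ^ (-(1 / 2) : ℝ) +
      41472 * s ^ 2)) volume 0 h := hi4.const_mul _
  have hi2 : IntervalIntegrable (fun x : ℝ => 1216 * P * s * qq a x) volume 0 h :=
    H.qq_integrable.const_mul _
  have hi3 : IntervalIntegrable (fun x : ℝ => (deriv a x) ^ 2) volume 0 h :=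
    ((H.sm.continuous_deriv (by norm_num)).pow 2).intervalIntegrable _ _
  have h1 : ∫ t in (0:ℝ)..h, (deriv a t) ^ 2 ≤ ∫ t in (0:ℝ)..h,
      (2 * P ^ 2 * (32 * t ^ (-(1 / 2) : ℝ) + 41472 * s ^ 2) + 1216 * P * s * qq a t) :=
    intervalIntegral.integral_mono_on_of_le_Ioo H.h0.le hi3 (hi1.add hi2)
      fun t ht => HD_pt H hs0 hs1 hP0 ⟨ht.1, ht.2.le⟩ (hkk t ⟨ht.1, ht.2.le⟩)
  rw [intervalIntegral.integral_add hi1 hi2, intervalIntegral.integral_const_mul,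
    intervalIntegral.integral_const_mul, intervalIntegral.integral_add hi0
    intervalIntegrable_const, intervalIntegral.integral_const_mul,
    intervalIntegral.integral_const, smul_eq_mul, sub_zero, ← hDd, ← hR] at h1
  rw [← hR] at hr2
  have hs4 : 1 ≤ 4 * s ^ 2 := by
    calc (1 : ℝ) = 1 * 1 := by norm_num
      _ ≤ (2 * s) * (2 * s) := mul_le_mul hs1 hs1 (by norm_num) (by linarith)
      _ = 4 * s ^ 2 := by ring
  have h3 : 32 * R + h * (41472 * s ^ 2) ≤ 167000 * s ^ 2 := by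
    have h6 : h * (41472 * s ^ 2) ≤ 4 * (41472 * s ^ 2) :=
      mul_le_mul_of_nonneg_right hh4 (by positivity)
    linarith
  have h4 : 2 * P ^ 2 * (32 * R + h * (41472 * s ^ 2)) ≤ 2 * P ^ 2 * (167000 * s ^ 2) :=
    mul_le_mul_of_nonneg_left h3 (by positivity)
  have h5 : 1216 * P * s * D ≤ 1216 * P * (2 * s ^ 2) * P := by
    have h6 : s ≤ 2 * s ^ 2 := by
      have h8 := mul_le_mul_of_nonneg_right hs1 hs0.le
      have e3 : 2 * s * s = 2 * s ^ 2 := by ring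
      linarith
    have h7 : 1216 * P * s ≤ 1216 * P * (2 * s ^ 2) :=
      mul_le_mul_of_nonneg_left h6 (by positivity)
    exact mul_le_mul h7 hDP hD (by positivity)
  have e : (1000000 : ℝ) * P ^ 2 / m = 1000000 * P ^ 2 * s ^ 2 := by
    rw [hs2]
    ring
  rw [e]
  have h9 : 0 ≤ P ^ 2 * s ^ 2 := by positivity
  have e4 : 1216 * P * (2 * s ^ 2) * P = 2432 * (P ^ 2 * s ^ 2) := by ring
  have e5 : 2 * P ^ 2 * (167000 * s ^ 2) = 334000 * (P ^ 2 * s ^ 2) := by ring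
  have e6 : 1000000 * P ^ 2 * s ^ 2 = 1000000 * (P ^ 2 * s ^ 2) := by ring
  rw [e6]
  linarith

end Pool.Agent.H51.DG
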