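import Pool.Agent.H51.DG.HB
import Pool.Agent.H51.DG.HD

/-!
# DG2 job HE: the four half arcs, decomposition of the functionals

`W` normalised and `C^2`.  Half arcs: `w1 ξ = -W ξ`, `w2 ξ = -W (l-ξ)` (`h = l/2`), `w3 ξ = W (l+ξ)`,
`w4 ξ = W (-ξ) = W (2π-ξ)` (`h = (2π-l)/2`).  `(0,2π) = (0,l/2) ∪ (l/2,l) ∪ (l,l+h) ∪ (l+h,2π)`, substitute
`x = ξ, l-ξ, l+ξ, 2π-ξ` (`W' (2π-ξ) = W'(-ξ)` by periodicity).
On `(0,l/2)`: `|W| = w1`, `dst = ξ`, `ds2 = l - ξ ∈ [l/2, l]`; on `(l/2,l)`: `|W| = w2`, `ds2 = ξ`,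
`dst = l - ξ`; on `(l,l+h)`: `|W| = w3`, `ds2 = ξ`, `dst = 2h - ξ`; on `(l+h,2π)`: `|W| = w4`, `dst = ξ`,
`ds2 = 2h - ξ` (`2h = 2π - l`; at the single point `x = l` anything).
`ph η ≤ π²/mn²` and `vp η ≤ π/mn` if `η ≥ Λ/2`, `mn ≤ Λ ≤ 2π` (`sin t ≥ 2t/π`).
* `GG_integrable`: `HArc.hardy` on each half arc, the far Hardy term is bounded.
* `D_le`: `∑ ∫ qq ≤ ∑ (∫ (a'²/a - a ph ξ) + 2 a'(0)) = GG + ∑ ∫ a ph(far) + 2(w1'+w2'+w3'+w4')(0)`,
  `w1'(0) = w4'(0) = -W'(0)`, `w2'(0) = w3'(0) = W'(l)`.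
* `Ma_split`, `AA_le_split`: `AA ≤ ∫_0^{l/2} kk w2 + ∫_0^{h} kk w3 + (π/mn) (∫ w1 + ∫ w4)`.
-/

set_option autoImplicit false
open Real Set MeasureTheory Filter Topology

namespace Pool.Agent.H51.DG

noncomputable def w1 (W : ℝ → ℝ) (x : ℝ) : ℝ := -W x
noncomputable def w2 (W : ℝ → ℝ) (l x : ℝ) : ℝ := -W (l - x)
noncomputable def w3 (W : ℝ → ℝ) (l x : ℝ) : ℝ := W (l + x)
noncomputable def w4 (W : ℝ → ℝ) (x : ℝ) : ℝ := W (-x)

/-- `EG W l = GG W l + 4(|W'(0)|+|W'(l)|) + π² Ma/mn²` -/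
noncomputable def EG (W : ℝ → ℝ) (l : ℝ) : ℝ :=
  GG W l + 4 * (|deriv W 0| + |deriv W l|) + π ^ 2 * Ma W / mn l ^ 2

theorem HE_zero {W : ℝ → ℝ} {l : ℝ} (h : Nrm W l) : W 0 = 0 ∧ W l = 0 := by
  have h1 := h.neg 0 ⟨le_rfl, h.l0.le⟩
  have h2 := h.pos (2 * π) ⟨h.l1.le, le_rfl⟩
  have h3 : W (2 * π) = W 0 := by
    have := h.per 0
    rwa [zero_add] at this
  have h4 := h.neg l ⟨h.l0.le, le_rfl⟩
  have h5 := h.pos l ⟨le_rfl, h.l1.le⟩
  exact ⟨by linarith, by linarith⟩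

theorem HE_per {W : ℝ → ℝ} {l : ℝ} (h : Nrm W l) (t : ℝ) : W (2 * π - t) = W (-t) := by
  have h1 := h.per (-t)
  rwa [show -t + 2 * π = 2 * π - t by ring] at h1

theorem HE_per_deriv {W : ℝ → ℝ} {l : ℝ} (h : Nrm W l) (t : ℝ) :
    deriv W (2 * π - t) = deriv W (-t) := by
  have h1 : (fun y => W (y + 2 * π)) = W := funext h.per
  have h2 := deriv_comp_add_const W (2 * π) (-t)
  rw [h1, show -t + 2 * π = 2 * π - t by ring] at h2
  exact h2.symm

theorem HE_d1 (W : ℝ → ℝ) (t : ℝ) : deriv (w1 W) t = -deriv W t := by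
  show deriv (fun x => -W x) t = _
  exact deriv.fun_neg

theorem HE_d2 (W : ℝ → ℝ) (l t : ℝ) : deriv (w2 W l) t = deriv W (l - t) := by
  show deriv (fun x => -W (l - x)) t = _
  rw [deriv.fun_neg, deriv_comp_const_sub, neg_neg]

theorem HE_d3 (W : ℝ → ℝ) (l t : ℝ) : deriv (w3 W l) t = deriv W (l + t) := by
  show deriv (fun x => W (l + x)) t = _
  exact deriv_comp_const_add (f := W) l t

theorem HE_d4 (W : ℝ → ℝ) (t : ℝ) : deriv (w4 W) t = -deriv W (-t) := by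
  show deriv (fun x => W (-x)) t = _
  exact deriv_comp_neg W t

theorem harcs {W : ℝ → ℝ} {l : ℝ} (h : Nrm W l) (hs : ContDiff ℝ 2 W) :
    HArc (w1 W) (l / 2) ∧ HArc (w2 W l) (l / 2) ∧ HArc (w3 W l) ((2 * π - l) / 2) ∧
      HArc (w4 W) ((2 * π - l) / 2) := by
  have h0 := h.l0
  have h1 := h.l1
  obtain ⟨z0, zl⟩ := HE_zero h
  refine ⟨⟨hs.neg, ?_, by linarith, by linarith, fun x hx => ?_⟩,
    ⟨(hs.comp (contDiff_const.sub contDiff_id)).neg, ?_, by linarith, by linarith,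
      fun x hx => ?_⟩,
    ⟨hs.comp (contDiff_const.add contDiff_id), ?_, by linarith, by linarith, fun x hx => ?_⟩,
    ⟨hs.comp contDiff_neg, ?_, by linarith, by linarith, fun x hx => ?_⟩⟩
  · show -W 0 = 0
    rw [z0, neg_zero]
  · have h2 := hx.2
    exact neg_nonneg.2 (h.neg x ⟨hx.1, by linarith⟩)
  · show -W (l - 0) = 0
    rw [sub_zero, zl, neg_zero]
  · have h2 := hx.1
    have h3 := hx.2
    exact neg_nonneg.2 (h.neg (l - x) ⟨by linarith, by linarith⟩)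
  · show W (l + 0) = 0
    rw [add_zero, zl]
  · have h2 := hx.1
    have h3 := hx.2
    exact h.pos (l + x) ⟨by linarith, by linarith⟩
  · show W (-0) = 0
    rw [neg_zero, z0]
  · have h2 := hx.1
    have h3 := hx.2
    show 0 ≤ W (-x)
    rw [← HE_per h]
    exact h.pos (2 * π - x) ⟨by linarith, by linarith⟩

theorem HE_congr {f g : ℝ → ℝ} {h : ℝ} (h0 : 0 ≤ h) (hfg : ∀ t ∈ Ioo (0:ℝ) h, f t = g t)
    (hf : IntervalIntegrable f volume 0 h) : IntervalIntegrable g volume 0 h ∧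
      ∫ t in (0:ℝ)..h, g t = ∫ t in (0:ℝ)..h, f t := by
  constructor
  · rw [intervalIntegrable_iff_integrableOn_Ioo_of_le h0] at hf ⊢
    exact hf.congr_fun hfg measurableSet_Ioo
  · rw [intervalIntegral.integral_of_le h0, intervalIntegral.integral_of_le h0,
      integral_Ioc_eq_integral_Ioo, integral_Ioc_eq_integral_Ioo]
    exact setIntegral_congr_fun measurableSet_Ioo fun t ht => (hfg t ht).symm

/-- splitting of the circle into the four half arcs -/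
theorem HE_split {F f1 f2 f3 f4 : ℝ → ℝ} {l : ℝ} (h0 : 0 < l) (h1 : l < 2 * π)
    (i1 : IntervalIntegrable f1 volume 0 (l / 2)) (i2 : IntervalIntegrable f2 volume 0 (l / 2))
    (i3 : IntervalIntegrable f3 volume 0 ((2 * π - l) / 2))
    (i4 : IntervalIntegrable f4 volume 0 ((2 * π - l) / 2))
    (e1 : ∀ t ∈ Ioo (0:ℝ) (l / 2), f1 t = F t)
    (e2 : ∀ t ∈ Ioo (0:ℝ) (l / 2), f2 t = F (l - t))
    (e3 : ∀ t ∈ Ioo (0:ℝ) ((2 * π - l) / 2), f3 t = F (l + t))
    (e4 : ∀ t ∈ Ioo (0:ℝ) ((2 * π - l) / 2), f4 t = F (2 * π - t)) :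
    IntervalIntegrable F volume 0 (2 * π) ∧
    ∫ x in (0:ℝ)..(2 * π), F x = (∫ t in (0:ℝ)..(l / 2), f1 t) + (∫ t in (0:ℝ)..(l / 2), f2 t)
      + (∫ t in (0:ℝ)..((2 * π - l) / 2), f3 t) + ∫ t in (0:ℝ)..((2 * π - l) / 2), f4 t := by
  obtain ⟨j1, k1⟩ := HE_congr (by linarith) e1 i1
  obtain ⟨j2, k2⟩ := HE_congr (by linarith) e2 i2
  obtain ⟨j3, k3⟩ := HE_congr (by linarith) e3 i3
  obtain ⟨j4, k4⟩ := HE_congr (by linarith) e4 i4
  have m2 : IntervalIntegrable F volume (l / 2) l := by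
    have := j2.comp_sub_left l
    simp only [sub_sub_cancel, sub_zero] at this
    rw [show l - l / 2 = l / 2 by ring] at this
    exact this.symm
  have m3 : IntervalIntegrable F volume l (l + (2 * π - l) / 2) := by
    have := j3.comp_sub_right l
    simp only [add_sub_cancel, zero_add] at this
    rw [show (2 * π - l) / 2 + l = l + (2 * π - l) / 2 by ring] at this
    exact this
  have m4 : IntervalIntegrable F volume (l + (2 * π - l) / 2) (2 * π) := by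
    have := j4.comp_sub_left (2 * π)
    simp only [sub_sub_cancel, sub_zero] at this
    rw [show 2 * π - (2 * π - l) / 2 = l + (2 * π - l) / 2 by ring] at this
    exact this.symm
  refine ⟨((j1.trans m2).trans m3).trans m4, ?_⟩
  have n2 : ∫ t in (0:ℝ)..(l / 2), F (l - t) = ∫ x in (l / 2)..l, F x := by
    rw [intervalIntegral.integral_comp_sub_left, sub_zero, show l - l / 2 = l / 2 by ring]
  have n3 : ∫ t in (0:ℝ)..((2 * π - l) / 2), F (l + t) =
      ∫ x in l..(l + (2 * π - l) / 2), F x := by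
    rw [intervalIntegral.integral_comp_add_left, add_zero]
  have n4 : ∫ t in (0:ℝ)..((2 * π - l) / 2), F (2 * π - t) =
      ∫ x in (l + (2 * π - l) / 2)..(2 * π), F x := by
    rw [intervalIntegral.integral_comp_sub_left, sub_zero,
      show 2 * π - (2 * π - l) / 2 = l + (2 * π - l) / 2 by ring]
  rw [← intervalIntegral.integral_add_adjacent_intervals ((j1.trans m2).trans m3) m4,
    ← intervalIntegral.integral_add_adjacent_intervals (j1.trans m2) m3,
    ← intervalIntegral.integral_add_adjacent_intervals j1 m2, ← n2, ← n3, ← n4, k1, k2, k3, k4]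

theorem HE_meas_ph : Measurable ph := by
  unfold ph
  exact Measurable.ite measurableSet_Iic (by fun_prop) measurable_const

theorem HE_meas_vp : Measurable vp := by
  unfold vp
  exact Measurable.ite measurableSet_Iic (by fun_prop) measurable_const

theorem HE_sin {m η : ℝ} (hm : 0 < m) (h : m / 2 ≤ η) (hη : η ≤ π) :
    m / (2 * π) ≤ Real.sin (η / 2) := by
  have hpi := Real.pi_pos
  have h1 := Real.mul_le_sin (x := η / 2) (by linarith) (by linarith)
  have h2 : m / (2 * π) ≤ 2 / π * (η / 2) := by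
    rw [div_mul_div_comm, div_le_div_iff₀ (by positivity) (by positivity)]
    nlinarith
  exact h2.trans h1

theorem HE_ph_le {m η : ℝ} (hm : 0 < m) (hmp : m ≤ π) (h : m / 2 ≤ η) :
    0 ≤ ph η ∧ ph η ≤ π ^ 2 / m ^ 2 := by
  have hpi := Real.pi_pos
  unfold ph
  split_ifs with hη
  · have h1 := HE_sin hm h hη
    have h0 : 0 < m / (2 * π) := by positivity
    have h2 : 0 < Real.sin (η / 2) := h0.trans_le h1
    have h3 : (m / (2 * π)) ^ 2 ≤ Real.sin (η / 2) ^ 2 := pow_le_pow_left₀ h0.le h1 2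
    refine ⟨by positivity, ?_⟩
    rw [div_le_div_iff₀ (by positivity) (by positivity)]
    have h4 : (m / (2 * π)) ^ 2 * (4 * π ^ 2) = m ^ 2 := by
      field_simp
      ring
    nlinarith [sq_nonneg π]
  · refine ⟨by norm_num, ?_⟩
    rw [div_le_div_iff₀ (by norm_num) (by positivity)]
    nlinarith

theorem HE_vp_le {m η : ℝ} (hm : 0 < m) (hmp : m ≤ π) (h : m / 2 ≤ η) :
    0 ≤ vp η ∧ vp η ≤ π / m := by
  have hpi := Real.pi_pos
  unfold vp
  split_ifs with hη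
  · have h1 := HE_sin hm h hη
    have h0 : 0 < m / (2 * π) := by positivity
    have h2 : 0 < Real.sin (η / 2) := h0.trans_le h1
    refine ⟨by positivity, ?_⟩
    rw [div_le_div_iff₀ (by positivity) hm]
    have h4 : m / (2 * π) * (2 * π) = m := by
      field_simp
    nlinarith
  · refine ⟨by norm_num, ?_⟩
    rw [div_le_div_iff₀ (by norm_num) hm]
    linarith

/-- a bounded weight of the far distance -/
theorem HE_far {a g : ℝ → ℝ} {h B : ℝ} (H : HArc a h) (hg : Measurable g)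
    (hB : ∀ η, h ≤ η → 0 ≤ g η ∧ g η ≤ B) :
    IntervalIntegrable (fun t => a t * g (2 * h - t)) volume 0 h ∧
    ∫ t in (0:ℝ)..h, a t * g (2 * h - t) ≤ B * ∫ t in (0:ℝ)..h, a t := by
  have h0 := H.h0
  have hac : Continuous a := H.sm.continuous
  have hI : IntervalIntegrable (fun t => a t * g (2 * h - t)) volume 0 h := by
    rw [intervalIntegrable_iff_integrableOn_Ioo_of_le h0.le]
    have h1 : IntegrableOn a (Ioo 0 h) := (hac.integrableOn_Icc).mono_set Ioo_subset_Icc_self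
    have h2 : Integrable (fun t => g (2 * h - t) * a t) (volume.restrict (Ioo 0 h)) := by
      refine Integrable.bdd_mul (c := B) h1
        (hg.comp (measurable_const.sub measurable_id)).aestronglyMeasurable ?_
      refine ae_restrict_of_forall_mem measurableSet_Ioo fun t ht => ?_
      have h3 := hB (2 * h - t) (by linarith [ht.2])
      rw [Real.norm_eq_abs]
      exact abs_le.2 ⟨by show -B ≤ g (2 * h - t); linarith [h3.1, h3.2], h3.2⟩
    have e : (fun t => a t * g (2 * h - t)) = fun t => g (2 * h - t) * a t :=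
      funext fun t => mul_comm _ _
    rw [e]
    exact h2
  refine ⟨hI, ?_⟩
  rw [← intervalIntegral.integral_const_mul]
  refine intervalIntegral.integral_mono_on h0.le hI
    ((hac.intervalIntegrable _ _).const_mul B) fun t ht => ?_
  have h3 := hB (2 * h - t) (by linarith [ht.2])
  have h4 := H.nn t ⟨ht.1, by linarith [ht.2]⟩
  rw [mul_comm]
  exact mul_le_mul_of_nonneg_right h3.2 h4

theorem HE_mn {W : ℝ → ℝ} {l : ℝ} (h : Nrm W l) :
    0 < mn l ∧ mn l ≤ π ∧ mn l / 2 ≤ l / 2 ∧ mn l / 2 ≤ (2 * π - l) / 2 := by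
  have h0 := h.l0
  have h1 := h.l1
  unfold mn
  have h2 := min_le_left l (2 * π - l)
  have h3 := min_le_right l (2 * π - l)
  exact ⟨lt_min h0 (by linarith), by linarith, by linarith, by linarith⟩

theorem HE_abs {W : ℝ → ℝ} {l : ℝ} (h : Nrm W l) {t : ℝ} :
    (t ∈ Ioo (0:ℝ) (l / 2) → |W t| = w1 W t ∧ |W (l - t)| = w2 W l t) ∧
    (t ∈ Ioo (0:ℝ) ((2 * π - l) / 2) → |W (l + t)| = w3 W l t ∧ |W (2 * π - t)| = w4 W t) := by
  have h0 := h.l0
  have h1 := h.l1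
  refine ⟨fun ht => ⟨?_, ?_⟩, fun ht => ⟨?_, ?_⟩⟩
  · have h2 := ht.1
    have h3 := ht.2
    exact abs_of_nonpos (h.neg t ⟨by linarith, by linarith⟩)
  · have h2 := ht.1
    have h3 := ht.2
    exact abs_of_nonpos (h.neg (l - t) ⟨by linarith, by linarith⟩)
  · have h2 := ht.1
    have h3 := ht.2
    exact abs_of_nonneg (h.pos (l + t) ⟨by linarith, by linarith⟩)
  · have h2 := ht.1
    have h3 := ht.2
    rw [abs_of_nonneg (h.pos (2 * π - t) ⟨by linarith, by linarith⟩), HE_per h]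
    rfl

theorem HE_GG {W : ℝ → ℝ} {l : ℝ} (h : Nrm W l) (hs : ContDiff ℝ 2 W) :
    IntervalIntegrable
      (fun x => (deriv W x) ^ 2 / |W x| - |W x| * (ph (dst l x) + ph (ds2 l x))) volume 0 (2 * π) ∧
    ∫ x in (0:ℝ)..(2 * π),
        ((deriv W x) ^ 2 / |W x| - |W x| * (ph (dst l x) + ph (ds2 l x))) =
      (∫ t in (0:ℝ)..(l / 2), (((deriv (w1 W) t) ^ 2 / w1 W t - w1 W t * ph t)
          - w1 W t * ph (2 * (l / 2) - t)))
      + (∫ t in (0:ℝ)..(l / 2), (((deriv (w2 W l) t) ^ 2 / w2 W l t - w2 W l t * ph t)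
          - w2 W l t * ph (2 * (l / 2) - t)))
      + (∫ t in (0:ℝ)..((2 * π - l) / 2), (((deriv (w3 W l) t) ^ 2 / w3 W l t
          - w3 W l t * ph t) - w3 W l t * ph (2 * ((2 * π - l) / 2) - t)))
      + ∫ t in (0:ℝ)..((2 * π - l) / 2), (((deriv (w4 W) t) ^ 2 / w4 W t - w4 W t * ph t)
          - w4 W t * ph (2 * ((2 * π - l) / 2) - t)) := by
  obtain ⟨H1, H2, H3, H4⟩ := harcs h hs
  obtain ⟨hm, hmp, hm1, hm2⟩ := HE_mn h
  have h0 := h.l0
  have h1 := h.l1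
  have b1 : ∀ η, l / 2 ≤ η → 0 ≤ ph η ∧ ph η ≤ π ^ 2 / mn l ^ 2 := fun η hη =>
    HE_ph_le hm hmp (hm1.trans hη)
  have b2 : ∀ η, (2 * π - l) / 2 ≤ η → 0 ≤ ph η ∧ ph η ≤ π ^ 2 / mn l ^ 2 := fun η hη =>
    HE_ph_le hm hmp (hm2.trans hη)
  refine HE_split h0 h1 (H1.hardy.1.sub (HE_far H1 HE_meas_ph b1).1)
    (H2.hardy.1.sub (HE_far H2 HE_meas_ph b1).1) (H3.hardy.1.sub (HE_far H3 HE_meas_ph b2).1)
    (H4.hardy.1.sub (HE_far H4 HE_meas_ph b2).1) ?_ ?_ ?_ ?_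
  · intro t ht
    have h2 := ht.1
    have h3 := ht.2
    have hd : dst l t = t := if_pos (by linarith)
    have hd2 : ds2 l t = 2 * (l / 2) - t := (if_pos (by linarith)).trans (by ring)
    show _ = (deriv W t) ^ 2 / |W t| - |W t| * (ph (dst l t) + ph (ds2 l t))
    rw [((HE_abs h).1 ht).1, HE_d1, hd, hd2]
    ring
  · intro t ht
    have h2 := ht.1
    have h3 := ht.2
    have hd : dst l (l - t) = 2 * (l / 2) - t := (if_pos (by linarith)).trans (by ring)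
    have hd2 : ds2 l (l - t) = t := (if_pos (by linarith)).trans (by ring)
    show _ = (deriv W (l - t)) ^ 2 / |W (l - t)| -
      |W (l - t)| * (ph (dst l (l - t)) + ph (ds2 l (l - t)))
    rw [((HE_abs h).1 ht).2, HE_d2, hd, hd2]
    ring
  · intro t ht
    have h2 := ht.1
    have h3 := ht.2
    have hd : dst l (l + t) = 2 * ((2 * π - l) / 2) - t :=
      (if_neg (by linarith)).trans (by ring)
    have hd2 : ds2 l (l + t) = t := (if_neg (by linarith)).trans (by ring)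
    show _ = (deriv W (l + t)) ^ 2 / |W (l + t)| -
      |W (l + t)| * (ph (dst l (l + t)) + ph (ds2 l (l + t)))
    rw [((HE_abs h).2 ht).1, HE_d3, hd, hd2]
    ring
  · intro t ht
    have h2 := ht.1
    have h3 := ht.2
    have hd : dst l (2 * π - t) = t := (if_neg (by linarith)).trans (by ring)
    have hd2 : ds2 l (2 * π - t) = 2 * ((2 * π - l) / 2) - t :=
      (if_neg (by linarith)).trans (by ring)
    show _ = (deriv W (2 * π - t)) ^ 2 / |W (2 * π - t)| -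
      |W (2 * π - t)| * (ph (dst l (2 * π - t)) + ph (ds2 l (2 * π - t)))
    rw [((HE_abs h).2 ht).2, HE_d4, HE_per_deriv h, hd, hd2]
    ring

theorem GG_integrable {W : ℝ → ℝ} {l : ℝ} (h : Nrm W l) (hs : ContDiff ℝ 2 W) :
    IntervalIntegrable
      (fun x => (deriv W x) ^ 2 / |W x| - |W x| * (ph (dst l x) + ph (ds2 l x))) volume 0 (2 * π) :=
  (HE_GG h hs).1

theorem Ma_split {W : ℝ → ℝ} {l : ℝ} (h : Nrm W l) (hc : Continuous W) :
    Ma W = (∫ t in (0:ℝ)..(l / 2), w1 W t) + (∫ t in (0:ℝ)..(l / 2), w2 W l t)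
      + (∫ t in (0:ℝ)..((2 * π - l) / 2), w3 W l t) + ∫ t in (0:ℝ)..((2 * π - l) / 2), w4 W t := by
  have c1 : Continuous (w1 W) := hc.neg
  have c2 : Continuous (w2 W l) := (hc.comp (continuous_const.sub continuous_id)).neg
  have c3 : Continuous (w3 W l) := hc.comp (continuous_const.add continuous_id)
  have c4 : Continuous (w4 W) := hc.comp continuous_neg
  exact (HE_split (F := fun x => |W x|) h.l0 h.l1 (c1.intervalIntegrable _ _)
    (c2.intervalIntegrable _ _) (c3.intervalIntegrable _ _) (c4.intervalIntegrable _ _)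
    (fun t ht => (((HE_abs h).1 ht).1).symm) (fun t ht => (((HE_abs h).1 ht).2).symm)
    (fun t ht => (((HE_abs h).2 ht).1).symm) (fun t ht => (((HE_abs h).2 ht).2).symm)).2

theorem D_le {W : ℝ → ℝ} {l : ℝ} (h : Nrm W l) (hs : ContDiff ℝ 2 W) :
    (∫ t in (0:ℝ)..(l / 2), qq (w1 W) t) + (∫ t in (0:ℝ)..(l / 2), qq (w2 W l) t)
      + (∫ t in (0:ℝ)..((2 * π - l) / 2), qq (w3 W l) t)
      + (∫ t in (0:ℝ)..((2 * π - l) / 2), qq (w4 W) t) ≤ EG W l := by
  obtain ⟨H1, H2, H3, H4⟩ := harcs h hs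
  obtain ⟨hm, hmp, hm1, hm2⟩ := HE_mn h
  have b1 : ∀ η, l / 2 ≤ η → 0 ≤ ph η ∧ ph η ≤ π ^ 2 / mn l ^ 2 := fun η hη =>
    HE_ph_le hm hmp (hm1.trans hη)
  have b2 : ∀ η, (2 * π - l) / 2 ≤ η → 0 ≤ ph η ∧ ph η ≤ π ^ 2 / mn l ^ 2 := fun η hη =>
    HE_ph_le hm hmp (hm2.trans hη)
  obtain ⟨f1, g1⟩ := HE_far H1 HE_meas_ph b1
  obtain ⟨f2, g2⟩ := HE_far H2 HE_meas_ph b1
  obtain ⟨f3, g3⟩ := HE_far H3 HE_meas_ph b2
  obtain ⟨f4, g4⟩ := HE_far H4 HE_meas_ph b2
  obtain ⟨p1, q1⟩ := H1.hardy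
  obtain ⟨p2, q2⟩ := H2.hardy
  obtain ⟨p3, q3⟩ := H3.hardy
  obtain ⟨p4, q4⟩ := H4.hardy
  have hG := (HE_GG h hs).2
  rw [intervalIntegral.integral_sub p1 f1, intervalIntegral.integral_sub p2 f2,
    intervalIntegral.integral_sub p3 f3, intervalIntegral.integral_sub p4 f4] at hG
  have hM := Ma_split h hs.continuous
  have e1 : deriv (w1 W) 0 = -deriv W 0 := HE_d1 W 0
  have e2 : deriv (w2 W l) 0 = deriv W l := by rw [HE_d2, sub_zero]
  have e3 : deriv (w3 W l) 0 = deriv W l := by rw [HE_d3, add_zero]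
  have e4 : deriv (w4 W) 0 = -deriv W 0 := by rw [HE_d4, neg_zero]
  rw [e1] at q1
  rw [e2] at q2
  rw [e3] at q3
  rw [e4] at q4
  have a1 := neg_le_abs (deriv W 0)
  have a2 := le_abs_self (deriv W l)
  have hE : EG W l = GG W l + 4 * (|deriv W 0| + |deriv W l|) + π ^ 2 / mn l ^ 2 * Ma W := by
    unfold EG
    ring
  have hGG : GG W l = ∫ x in (0:ℝ)..(2 * π),
      ((deriv W x) ^ 2 / |W x| - |W x| * (ph (dst l x) + ph (ds2 l x))) := rfl
  rw [hE, hGG, hG, hM, mul_add, mul_add, mul_add]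
  linarith

theorem H1_split {W : ℝ → ℝ} {l : ℝ} (h : Nrm W l) (hs : ContDiff ℝ 2 W) :
    ∫ x in (0:ℝ)..(2 * π), (deriv W x) ^ 2 =
      (∫ t in (0:ℝ)..(l / 2), (deriv (w1 W) t) ^ 2) + (∫ t in (0:ℝ)..(l / 2), (deriv (w2 W l) t) ^ 2)
      + (∫ t in (0:ℝ)..((2 * π - l) / 2), (deriv (w3 W l) t) ^ 2)
      + ∫ t in (0:ℝ)..((2 * π - l) / 2), (deriv (w4 W) t) ^ 2 := by
  obtain ⟨H1, H2, H3, H4⟩ := harcs h hs
  have hc : ∀ {a : ℝ → ℝ} {k : ℝ}, HArc a k → ∀ p q : ℝ,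
      IntervalIntegrable (fun t => (deriv a t) ^ 2) volume p q := fun H p q =>
    ((H.sm.continuous_deriv (by norm_num)).pow 2).intervalIntegrable _ _
  refine (HE_split (F := fun x => (deriv W x) ^ 2) h.l0 h.l1 (hc H1 _ _) (hc H2 _ _) (hc H3 _ _)
    (hc H4 _ _) ?_ ?_ ?_ ?_).2
  · intro t _
    show (deriv (w1 W) t) ^ 2 = (deriv W t) ^ 2
    rw [HE_d1, neg_sq]
  · intro t _
    show (deriv (w2 W l) t) ^ 2 = (deriv W (l - t)) ^ 2
    rw [HE_d2]
  · intro t _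
    show (deriv (w3 W l) t) ^ 2 = (deriv W (l + t)) ^ 2
    rw [HE_d3]
  · intro t _
    show (deriv (w4 W) t) ^ 2 = (deriv W (2 * π - t)) ^ 2
    rw [HE_d4, HE_per_deriv h, neg_sq]

theorem AA_le_split {W : ℝ → ℝ} {l : ℝ} (h : Nrm W l) (hs : ContDiff ℝ 2 W) :
    AA W l ≤ (∫ t in (0:ℝ)..(l / 2), kk (w2 W l) t) + (∫ t in (0:ℝ)..((2 * π - l) / 2), kk (w3 W l) t)
      + π / mn l * ((∫ t in (0:ℝ)..(l / 2), w1 W t) + ∫ t in (0:ℝ)..((2 * π - l) / 2), w4 W t) := by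
  obtain ⟨H1, H2, H3, H4⟩ := harcs h hs
  obtain ⟨hm, hmp, hm1, hm2⟩ := HE_mn h
  have h0 := h.l0
  have h1 := h.l1
  obtain ⟨f1, g1⟩ := HE_far H1 HE_meas_vp fun η hη => HE_vp_le hm hmp (hm1.trans hη)
  obtain ⟨f4, g4⟩ := HE_far H4 HE_meas_vp fun η hη => HE_vp_le hm hmp (hm2.trans hη)
  have hkey := (HE_split (F := fun x => |W x| * vp (ds2 l x)) h0 h1 f1 H2.kk_integrable
    H3.kk_integrable f4 ?_ ?_ ?_ ?_).2
  · have hA : AA W l = ∫ x in (0:ℝ)..(2 * π), |W x| * vp (ds2 l x) := rfl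
    rw [hA, hkey, mul_add]
    linarith
  · intro t ht
    have h2 := ht.1
    have h3 := ht.2
    have hd2 : ds2 l t = 2 * (l / 2) - t := (if_pos (by linarith)).trans (by ring)
    show _ = |W t| * vp (ds2 l t)
    rw [((HE_abs h).1 ht).1, hd2]
  · intro t ht
    have h2 := ht.1
    have h3 := ht.2
    have hd2 : ds2 l (l - t) = t := (if_pos (by linarith)).trans (by ring)
    have hv : vp t = 1 / (2 * Real.sin (t / 2)) := if_pos (by linarith)
    show _ = |W (l - t)| * vp (ds2 l (l - t))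
    rw [((HE_abs h).1 ht).2, hd2, hv]
    unfold kk
    ring
  · intro t ht
    have h2 := ht.1
    have h3 := ht.2
    have hd2 : ds2 l (l + t) = t := (if_neg (by linarith)).trans (by ring)
    have hv : vp t = 1 / (2 * Real.sin (t / 2)) := if_pos (by linarith)
    show _ = |W (l + t)| * vp (ds2 l (l + t))
    rw [((HE_abs h).2 ht).1, hd2, hv]
    unfold kk
    ring
  · intro t ht
    have h2 := ht.1
    have h3 := ht.2
    have hd2 : ds2 l (2 * π - t) = 2 * ((2 * π - l) / 2) - t :=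
      (if_neg (by linarith)).trans (by ring)
    show _ = |W (2 * π - t)| * vp (ds2 l (2 * π - t))
    rw [((HE_abs h).2 ht).2, hd2]

end Pool.Agent.H51.DG
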