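import Pool.Agent.H51.DG.Ker

/-!
# DG2 job KA: positivity of `Gk`

With `t = z/Y > 0`, `v = Y^2 > 0`, `Λ = (1+t) log(1+t) - t > 0`:
`(Y+z) * Gk Y z = 2 + v (Λ - 2t) + v^2 Λ` (since `log(1+z/Y) = log(1+t)`, `Y z = v t`,
`(Y+Y^3)(Y+z) = v (1+v)(1+t)`).  If `2t ≤ Λ` it is positive.  Otherwise the discriminant
`(2t-Λ)^2 - 8Λ` is negative: `Λ + 2√2 √Λ > 2t` iff `√Λ > √2 (w - 1)`, `w = √(1+t) > 1`, iff
`Λ > 2 (w-1)^2`, i.e. `2 w^2 log w - (w^2-1) > 2 (w-1)^2`, i.e. `2 w^2 log w > (3w-1)(w-1)`, which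
follows from monotonicity: `H(w) = 2w^2 log w - 3w^2 + 4w - 1`, `H(1) = 0`,
`H'(w) = 4 (w log w - w + 1) ≥ 0`.  (Or: complete the square without square roots:
`4Λ (2 + v(Λ-2t) + v^2Λ) = (2Λv + Λ - 2t)^2 + 8Λ - (2t-Λ)^2` and
`8Λ ≥ (2t-Λ)^2` if `Λ ≤ 2t`, because `Λ ≥ 2(w-1)^2 =: m`, `2t = 2(w²-1)`, the function
`x ↦ 8x - (2t-x)^2` is increasing for `x ≤ 2t` and at `x = m` equals
`16(w-1)^2 - (2(w²-1) - 2(w-1)^2)^2 = 16 (w-1)^2 - (4(w-1))^2 = 0`.)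
`Gk_ge` uses only `log(1+t) ≥ t/(1+t)`, i.e. `log(1+z/Y) ≥ z/(Y+z)`.
-/

set_option autoImplicit false
open Real Set MeasureTheory

namespace Pool.Agent.H51.DG

/-- `-log (1-s) ≥ s + s²/2` -/
theorem KA_log {s : ℝ} (h0 : 0 ≤ s) (h1 : s < 1) : s + s ^ 2 / 2 ≤ -Real.log (1 - s) := by
  have h := Real.hasSum_pow_div_log_of_abs_lt_one (x := s) (by rw [abs_of_nonneg h0]; exact h1)
  have h2 := sum_le_hasSum (Finset.range 2) (fun i _ => by positivity) h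
  rw [Finset.sum_range_succ, Finset.sum_range_one] at h2
  norm_num at h2
  linarith

theorem KA_key {w : ℝ} (hw : 1 ≤ w) : (w - 1) * (3 * w - 1) ≤ 2 * w ^ 2 * Real.log w := by
  have hw0 : 0 < w := by linarith
  have h1 := KA_log (s := 1 - 1 / w) (by
    have : 1 / w ≤ 1 := by
      rw [div_le_one hw0]
      exact hw
    linarith) (by
    have : 0 < 1 / w := by positivity
    linarith)
  have h2 : 1 - (1 - 1 / w) = w⁻¹ := by
    rw [one_div]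
    ring
  rw [h2, Real.log_inv, neg_neg] at h1
  have h3 : 2 * w ^ 2 * ((1 - 1 / w) + (1 - 1 / w) ^ 2 / 2) = (w - 1) * (3 * w - 1) := by
    field_simp
    ring
  have h4 := mul_le_mul_of_nonneg_left h1 (by positivity : 0 ≤ 2 * w ^ 2)
  rw [h3] at h4
  exact h4

theorem Gk_nonneg {Y z : ℝ} (hY : 0 < Y) (hz : 0 < z) : 0 ≤ Gk Y z := by
  have ht : 0 < 1 + z / Y := by positivity
  have ht1 : 1 ≤ 1 + z / Y := by
    have : 0 < z / Y := by positivity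
    linarith
  set w := Real.sqrt (1 + z / Y) with hwdef
  have hw2 : w ^ 2 = 1 + z / Y := Real.sq_sqrt ht.le
  have hw1 : 1 ≤ w := by
    rw [hwdef]
    exact Real.one_le_sqrt.2 ht1
  have hlog : Real.log (1 + z / Y) = 2 * Real.log w := by
    rw [← hw2, Real.log_pow]
    norm_num
  have hk := KA_key hw1
  have hz' : z = Y * (w ^ 2 - 1) := by
    rw [hw2]
    field_simp
    ring
  have hYz : Y + z = Y * w ^ 2 := by
    rw [hz']
    ring
  have hpos : 0 < Y + z := by linarith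
  have hmul : 0 ≤ (Y + z) * Gk Y z := by
    have e1 : (Y + z) * Gk Y z = 2 + (Y + Y ^ 3) * (Y + z) * Real.log (1 + z / Y)
        - Y * z * (3 + Y ^ 2) := by
      unfold Gk
      field_simp
    have e2 : (Y + z) * Gk Y z = 2 + Y ^ 2 * (1 + Y ^ 2) * (2 * w ^ 2 * Real.log w)
        - Y ^ 2 * (w ^ 2 - 1) * (3 + Y ^ 2) := by
      rw [e1, hlog, hYz]
      rw [hz']
      ring
    rw [e2]
    have h5 := mul_le_mul_of_nonneg_left hk (by positivity : 0 ≤ Y ^ 2 * (1 + Y ^ 2))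
    nlinarith [sq_nonneg (1 - Y ^ 2 * (w - 1))]
  exact (mul_nonneg_iff_of_pos_left hpos).1 hmul

theorem Gk_ge {Y z : ℝ} (hY : 0 < Y) (hz : 0 < z) : (2 - 2 * (Y * z)) / (Y + z) ≤ Gk Y z := by
  have hpos : 0 < Y + z := by linarith
  have ht : 0 < 1 + z / Y := by positivity
  have h1 := Real.one_sub_inv_le_log_of_pos ht
  have h2 : 1 - (1 + z / Y)⁻¹ = z / (Y + z) := by
    field_simp
    ring
  rw [h2] at h1
  have h3 := mul_le_mul_of_nonneg_left h1 (by positivity : 0 ≤ Y + Y ^ 3)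
  have h4 : (2 - 2 * (Y * z)) / (Y + z) = 2 / (Y + z) + (Y + Y ^ 3) * (z / (Y + z))
      - Y * z * (3 + Y ^ 2) / (Y + z) := by
    field_simp
    ring
  rw [h4]
  unfold Gk
  linarith

end Pool.Agent.H51.DG
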