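import Pool.Agent.H51.DG.KB

/-!
# DG2 job KC: pointwise certificate inequalities

`rfk_le`: `-log(1 - y/Y) ≤ (y/Y)/(1 - y/Y) = y/(Y-y)`, hence
`rfk Y y + Y ≤ Y - (2+Y²)(1+Yy)/(Y-y) + Y(1+Y²) y/(Y-y) = (-2-2Yy)/(Y-y)` (algebra).

`rnk_le`: `gk yc z ≤ gk Y z` (`gk_mono`) and the identity
`rnk Y z + Y + z + gk Y z = -Gk Y z` (the logarithms `log(1+Y/z)` cancel, the rest is `field_simp;
ring`: `(2+Y²+z²)(Yz-1) + (Y+z)² - (z+z³)Y = 3Yz + Y³z - 2`).
-/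

set_option autoImplicit false
open Real Set MeasureTheory

namespace Pool.Agent.H51.DG

theorem rfk_le {Y y : ℝ} (hy : 0 < y) (hyY : y < Y) :
    rfk Y y + Y ≤ -((2 + 2 * (Y * y)) / (Y - y)) := by
  have hY : 0 < Y := hy.trans hyY
  have hd : 0 < Y - y := sub_pos.2 hyY
  have hu : 0 < 1 - y / Y := by
    rw [sub_pos, div_lt_one hY]
    exact hyY
  have h1 : -Real.log (1 - y / Y) ≤ y / (Y - y) := by
    have h2 := Real.one_sub_inv_le_log_of_pos hu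
    have h3 : (1 - y / Y)⁻¹ - 1 = y / (Y - y) := by
      field_simp
      ring
    linarith
  have h4 : 0 ≤ Y * (1 + Y ^ 2) := by positivity
  have h5 := mul_le_mul_of_nonneg_left h1 h4
  have h6 : -((2 + Y ^ 2) * (1 + Y * y) / (Y - y)) + Y * (1 + Y ^ 2) * (y / (Y - y)) + Y =
      -((2 + 2 * (Y * y)) / (Y - y)) := by
    field_simp
    ring
  unfold rfk
  linarith

theorem KC_id {Y z : ℝ} (hY : 0 < Y) (hz : 0 < z) :
    rnk Y z + Y + z + gk Y z = - Gk Y z := by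
  unfold rnk gk Gk
  have h : Y + z ≠ 0 := by positivity
  field_simp
  ring

theorem rnk_le {Y z yc : ℝ} (hY : 0 < Y) (hz : 0 < z) (h0 : 0 ≤ yc) (h1 : yc ≤ Y) :
    rnk Y z + Y + z + gk yc z ≤ - Gk Y z := by
  have h2 := gk_mono h0 h1 hz
  have h3 := KC_id hY hz
  linarith

end Pool.Agent.H51.DG
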