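import Pool.Agent.H51.DG.Ker

/-!
# DG2 job KE: the pointwise inequality `|ps τ| ≤ 2 Lpp τ`

Put `c = 2 cosh(τ/2) > 2`; `4 sinh(τ/2)² = c² - 4 > 0`, so `2 Lpp τ = c/(c²-4)`.
`ps τ = 48/c⁵ - 4/c³ - (5/8)/c`.
Lower bound: `4/c³ + (5/8)/c ≤ c/(c²-4)` since `c/(c²-4) ≥ 1/c + 4/c³`
(`c⁴ ≥ (c²+4)(c²-4) = c⁴ - 16`).
Upper bound: `48 ≤ c⁶/(c²-4)`, with `w = c² > 4`: `w³ ≥ 48 (w-4)` (indeed `w³/(w-4) ≥ 108`;
`w³ - 48 w + 192 > 0` for `w > 0`: minimum at `w = 4` equals `64`).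
-/

set_option autoImplicit false
open Real Set MeasureTheory

namespace Pool.Agent.H51.DG

theorem KE_sinh_sq (τ : ℝ) : 4 * Real.sinh (τ / 2) ^ 2 = (2 * Real.cosh (τ / 2)) ^ 2 - 4 := by
  have h := Real.cosh_sq (τ / 2)
  nlinarith [h]

theorem KE_c_ge (τ : ℝ) : 2 ≤ 2 * Real.cosh (τ / 2) := by
  have h := Real.one_le_cosh (τ / 2)
  linarith

theorem KE_sinh_pos {τ : ℝ} (h : τ ≠ 0) : 0 < Real.sinh (τ / 2) ^ 2 := by
  have h1 : Real.sinh (τ / 2) ≠ 0 := by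
    intro h2
    rw [Real.sinh_eq_zero] at h2
    exact h (by linarith)
  positivity

theorem KE_two_Lpp {τ : ℝ} (h : τ ≠ 0) :
    2 * Lpp τ = (2 * Real.cosh (τ / 2)) / ((2 * Real.cosh (τ / 2)) ^ 2 - 4) := by
  have h1 := KE_sinh_pos h
  rw [← KE_sinh_sq]
  unfold Lpp
  ring

theorem abs_ps_le {τ : ℝ} (h : τ ≠ 0) : |ps τ| ≤ 2 * Lpp τ := by
  have h1 := KE_sinh_pos h
  have h2 := KE_sinh_sq τ
  have h3 := KE_c_ge τ
  rw [KE_two_Lpp h]
  unfold ps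
  generalize 2 * Real.cosh (τ / 2) = c at h2 h3 ⊢
  have hw : 0 < c ^ 2 - 4 := by rw [← h2]; positivity
  have hc : 0 < c := by linarith
  have e1 : 48 / c ^ 5 - 4 / c ^ 3 - 5 / 8 / c = (48 - 4 * c ^ 2 - 5 / 8 * c ^ 4) / c ^ 5 := by
    field_simp
  rw [e1, abs_le]
  constructor
  · rw [neg_le_iff_add_nonneg, div_add_div _ _ (by positivity) (by positivity)]
    apply div_nonneg _ (by positivity)
    have h5 : 0 ≤ c ^ 5 * c + (48 - 4 * c ^ 2 - 5 / 8 * c ^ 4) * (c ^ 2 - 4) := by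
      have h6 : 0 ≤ c ^ 2 * (3 / 8 * c ^ 4 - 3 / 2 * c ^ 2 + 16) := by
        apply mul_nonneg (by positivity)
        nlinarith [sq_nonneg (c ^ 2 - 2)]
      nlinarith [h6, hw]
    nlinarith [h5]
  · rw [div_le_div_iff₀ (by positivity) hw]
    have h5 : 0 ≤ (c ^ 2 - 4) ^ 2 * (c ^ 2 + 8) := by positivity
    have h6 : 0 ≤ (4 * c ^ 2 + 5 / 8 * c ^ 4) * (c ^ 2 - 4) := by positivity
    nlinarith [h5, h6]

theorem ell_le_ps (τ : ℝ) : ell τ ≤ ps τ := by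
  have h3 := KE_c_ge τ
  unfold ell ps
  generalize 2 * Real.cosh (τ / 2) = c at h3 ⊢
  have h4 : 5 / 8 / c ≤ 1 / c := by
    apply div_le_div_of_nonneg_right (by norm_num) (by linarith)
  linarith

theorem Lpp_pos {τ : ℝ} (h : τ ≠ 0) : 0 < Lpp τ := by
  have h1 := KE_sinh_pos h
  have h2 := Real.cosh_pos (τ / 2)
  unfold Lpp
  positivity

theorem Lpp_neg (τ : ℝ) : Lpp (-τ) = Lpp τ := by
  unfold Lpp
  rw [neg_div, Real.cosh_neg, Real.sinh_neg, neg_sq]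

theorem ps_neg (τ : ℝ) : ps (-τ) = ps τ := by
  unfold ps
  rw [neg_div, Real.cosh_neg]

theorem ell_neg (τ : ℝ) : ell (-τ) = ell τ := by
  unfold ell
  rw [neg_div, Real.cosh_neg]

theorem KE_exp_le (τ : ℝ) : Real.exp (|τ| / 2) ≤ 2 * Real.cosh (τ / 2) := by
  have h1 : Real.cosh (τ / 2) = Real.cosh (|τ| / 2) := by
    rw [← Real.cosh_abs (τ / 2), abs_div, abs_two]
  rw [h1, Real.cosh_eq]
  have h2 := Real.exp_pos (-(|τ| / 2))
  linarith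

theorem KE_gen {c a : ℝ} (ha : 0 ≤ a) (ha1 : a ≤ 1) (hc : 2 ≤ c) :
    |48 / c ^ 5 - 4 / c ^ 3 - a / c| ≤ 5 / c := by
  have hc0 : 0 < c := by linarith
  have h1 : 48 / c ^ 5 ≤ 3 / c := by
    rw [div_le_div_iff₀ (by positivity) hc0]
    have h : 16 ≤ c ^ 4 := by nlinarith [sq_nonneg (c ^ 2 - 4), mul_self_nonneg (c - 2)]
    nlinarith [mul_le_mul_of_nonneg_right h hc0.le]
  have h2 : 4 / c ^ 3 ≤ 1 / c := by
    rw [div_le_div_iff₀ (by positivity) hc0]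
    have h : 4 ≤ c ^ 2 := by nlinarith
    nlinarith [mul_le_mul_of_nonneg_right h hc0.le]
  have h3 : a / c ≤ 1 / c := div_le_div_of_nonneg_right ha1 hc0.le
  have h4 : 0 ≤ 48 / c ^ 5 := by positivity
  have h5 : 0 ≤ 4 / c ^ 3 := by positivity
  have h6 : 0 ≤ a / c := by positivity
  have h7 : 5 / c = 3 / c + 1 / c + 1 / c := by ring
  have h8 : 0 ≤ 1 / c := by positivity
  have h9 : 0 ≤ 3 / c := by positivity
  rw [h7, abs_le]
  constructor <;> linarith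

theorem KE_five_div (τ : ℝ) : 5 / (2 * Real.cosh (τ / 2)) ≤ 60 * Real.exp (-|τ| / 2) := by
  have h1 := KE_exp_le τ
  have h2 : Real.exp (-|τ| / 2) = (Real.exp (|τ| / 2))⁻¹ := by
    rw [← Real.exp_neg, neg_div]
  rw [h2]
  have h3 := Real.exp_pos (|τ| / 2)
  have h4 : (2 * Real.cosh (τ / 2))⁻¹ ≤ (Real.exp (|τ| / 2))⁻¹ := inv_anti₀ h3 h1
  have h5 : 0 < (Real.exp (|τ| / 2))⁻¹ := by positivity
  rw [div_eq_mul_inv]
  linarith

/-- `ps` and `ell` are bounded by `K exp(-|τ|/2)` -/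
theorem abs_ps_le_exp (τ : ℝ) : |ps τ| ≤ 60 * Real.exp (-|τ| / 2) := by
  refine le_trans ?_ (KE_five_div τ)
  exact KE_gen (by norm_num) (by norm_num) (KE_c_ge τ)

theorem abs_ell_le_exp (τ : ℝ) : |ell τ| ≤ 60 * Real.exp (-|τ| / 2) := by
  refine le_trans ?_ (KE_five_div τ)
  exact KE_gen (by norm_num) (by norm_num) (KE_c_ge τ)

theorem KE_cosh_one : Real.cosh 1 ≤ 2 := by
  rw [Real.cosh_eq]
  have h1 := Real.exp_one_lt_d9
  have h2 : Real.exp (-1) ≤ 1 := Real.exp_le_one_iff.2 (by norm_num)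
  norm_num at h1 ⊢
  linarith

theorem KE_sinh_one : Real.sinh 1 ≤ 1.36 := by
  rw [Real.sinh_eq]
  have h1 := Real.exp_one_lt_d9
  have h2 := Real.exp_pos (-1)
  norm_num at h1 ⊢
  linarith

/-- `Lpp τ ≤ 1/τ²·const` near `0` and exponential decay: `Lpp τ ≤ 2/τ²` for `0 < τ ≤ 2`
and `Lpp τ ≤ 2 exp(-τ/2)` for `τ ≥ 1`. (`sinh x ≥ x`, `cosh 1 ≤ 2`;
`sinh(τ/2) ≥ (1 - e^{-1}) e^{τ/2}/2`, `cosh(τ/2) ≤ (1+e^{-1}) e^{τ/2}/2`,
`(1.37)*2/(4*0.39) = 1.76`.) -/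
theorem Lpp_le_near {τ : ℝ} (h : 0 < τ) (h2 : τ ≤ 2) : Lpp τ ≤ 2 / τ ^ 2 := by
  have h3 : Real.cosh (τ / 2) ≤ 2 := by
    refine le_trans ?_ KE_cosh_one
    rw [Real.cosh_le_cosh, abs_of_pos (by positivity), abs_one]
    linarith
  have h4 : τ / 2 ≤ Real.sinh (τ / 2) := Real.self_le_sinh_iff.2 (by positivity)
  have h5 : (τ / 2) ^ 2 ≤ Real.sinh (τ / 2) ^ 2 := pow_le_pow_left₀ (by positivity) h4 2
  unfold Lpp
  apply div_le_div₀ (by norm_num) h3 (by positivity)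
  nlinarith [h5]

theorem Lpp_le_far {τ : ℝ} (h : 1 ≤ τ) : Lpp τ ≤ 2 * Real.exp (-τ / 2) := by
  have hx0 := Real.exp_pos (τ / 2)
  have h1 : Real.exp (-τ / 2) = (Real.exp (τ / 2))⁻¹ := by
    rw [← Real.exp_neg, neg_div]
  have h1' : Real.exp (-(τ / 2)) = (Real.exp (τ / 2))⁻¹ := by
    rw [← Real.exp_neg]
  have h2 : Real.exp 1 ≤ Real.exp (τ / 2) ^ 2 := by
    rw [← Real.exp_nat_mul]
    apply Real.exp_le_exp.2
    push_cast
    linarith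
  have h3 := Real.exp_one_gt_d9
  unfold Lpp
  rw [Real.cosh_eq, Real.sinh_eq, h1, h1']
  generalize Real.exp (τ / 2) = x at hx0 h2 ⊢
  have hv : 2.7 ≤ x ^ 2 := by
    norm_num at h3 ⊢
    linarith
  have e1 : (x + x⁻¹) / 2 / (4 * ((x - x⁻¹) / 2) ^ 2) = x * (x ^ 2 + 1) / (2 * (x ^ 2 - 1) ^ 2) := by
    have h5 : x ^ 2 - 1 ≠ 0 := by
      intro h6
      norm_num at hv
      linarith
    have h7 : x - x⁻¹ ≠ 0 := by
      intro h8
      apply h5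
      field_simp at h8
      linarith
    field_simp
    norm_num
  rw [e1]
  have h6 : (0:ℝ) < x ^ 2 - 1 := by
    norm_num at hv
    linarith
  rw [← div_eq_mul_inv, div_le_div_iff₀ (by positivity) hx0]
  have h7 : 0 ≤ 3 * (x ^ 2) ^ 2 - 9 * x ^ 2 + 4 := by
    norm_num at hv
    nlinarith [hv]
  nlinarith [h7]

/-- on `[1,2]` (used for coercivity): `Lpp τ ≥ 1/8`; `cosh ≥ 1`, `sinh 1 ≤ 1.2`,
`1/(4*1.44) = 0.17` -/
theorem Lpp_ge {τ : ℝ} (h : 0 < τ) (h2 : τ ≤ 2) : 1 / 8 ≤ Lpp τ := by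
  have h3 : Real.sinh (τ / 2) ≤ 1.36 := by
    refine le_trans ?_ KE_sinh_one
    rw [Real.sinh_le_sinh]
    linarith
  have h4 : 0 < Real.sinh (τ / 2) := Real.sinh_pos_iff.2 (by positivity)
  have h5 : Real.sinh (τ / 2) ^ 2 ≤ 1.36 ^ 2 := pow_le_pow_left₀ h4.le h3 2
  have h6 := Real.one_le_cosh (τ / 2)
  unfold Lpp
  rw [div_le_div_iff₀ (by norm_num) (by positivity)]
  norm_num at h5
  linarith

theorem continuousOn_Lpp : ContinuousOn Lpp (Ioi 0) := by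
  unfold Lpp
  apply ContinuousOn.div
  · exact (Real.continuous_cosh.comp (continuous_id.div_const 2)).continuousOn
  · exact ((Real.continuous_sinh.comp (continuous_id.div_const 2)).pow 2 |>.const_mul
      4).continuousOn
  · intro τ hτ
    have h1 := KE_sinh_pos (ne_of_gt (mem_Ioi.1 hτ))
    exact (by positivity : (0:ℝ) < 4 * Real.sinh (τ / 2) ^ 2).ne'

theorem KE_cont_c : Continuous fun τ : ℝ => 2 * Real.cosh (τ / 2) :=
  (Real.continuous_cosh.comp (continuous_id.div_const 2)).const_mul 2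

theorem KE_c_ne (τ : ℝ) : 2 * Real.cosh (τ / 2) ≠ 0 := by
  have h := KE_c_ge τ
  linarith

theorem continuous_ps : Continuous ps := by
  unfold ps
  have h := KE_cont_c
  refine ((continuous_const.div (h.pow 5) ?_).sub (continuous_const.div (h.pow 3) ?_)).sub
    (continuous_const.div h ?_)
  · exact fun τ => pow_ne_zero _ (KE_c_ne τ)
  · exact fun τ => pow_ne_zero _ (KE_c_ne τ)
  · exact fun τ => KE_c_ne τ

theorem continuous_ell : Continuous ell := by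
  unfold ell
  have h := KE_cont_c
  refine ((continuous_const.div (h.pow 5) ?_).sub (continuous_const.div (h.pow 3) ?_)).sub
    (continuous_const.div h ?_)
  · exact fun τ => pow_ne_zero _ (KE_c_ne τ)
  · exact fun τ => pow_ne_zero _ (KE_c_ne τ)
  · exact fun τ => KE_c_ne τ

end Pool.Agent.H51.DG
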