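import Pool.Agent.H51.DG.Defs

/-!
# Project DG2: kernels in the cotangent variables

`Y = cot(x/2)`.  All definitions are elementary functions of two real variables.  `Real.log` of a
negative number is `log` of its absolute value, so `log (1 - Z/Y)` means `log |1 - Z/Y|`.
-/

set_option autoImplicit false
open Real Set MeasureTheory

namespace Pool.Agent.H51.DG

/-- half-angle cotangent -/
noncomputable def ct (x : ℝ) : ℝ := Real.cos (x / 2) / Real.sin (x / 2)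

noncomputable def psi (Y : ℝ) : ℝ := Y * (1 + Y ^ 2) * Real.log (1 + 1 / Y ^ 2) / 2

noncomputable def gk (y z : ℝ) : ℝ := (z + z ^ 3) * (Real.log (1 + y / z) - y / (y + z))

noncomputable def k3 (Y Z : ℝ) : ℝ :=
  Y * Z * (Y + Z) + Y ^ 3 * Real.log (1 - Z / Y) + Z ^ 3 * Real.log (1 - Y / Z)

noncomputable def l1k (Y Z : ℝ) : ℝ :=
  Y * Real.log (1 - Z / Y) + Z * Real.log (1 - Y / Z)

/-- R-near kernel (without the psi terms) -/
noncomputable def rnk (Y z : ℝ) : ℝ :=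
  (2 + Y ^ 2 + z ^ 2) * (Y * z - 1) / (Y + z) - Y * (1 + Y ^ 2) * Real.log (1 + z / Y)
    - z * (1 + z ^ 2) * Real.log (1 + Y / z)

/-- R-flat kernel (without the psi term), `y < Y` -/
noncomputable def rfk (Y y : ℝ) : ℝ :=
  -((2 + Y ^ 2) * (1 + Y * y) / (Y - y)) - Y * (1 + Y ^ 2) * Real.log (1 - y / Y)

noncomputable def Gk (Y z : ℝ) : ℝ :=
  2 / (Y + z) + (Y + Y ^ 3) * Real.log (1 + z / Y) - Y * z * (3 + Y ^ 2) / (Y + z)

noncomputable def rl0 (Y z : ℝ) : ℝ :=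
  (Y ^ 2 + z ^ 2) * (Y * z) / (Y + z) - Y ^ 3 * Real.log (1 + z / Y)
    - z ^ 3 * Real.log (1 + Y / z) + 4 * (Y ^ 3 * z ^ 3) / (Y + z) ^ 3

/-- `8π` times the symmetric energy kernel, R-near -/
noncomputable def ek (Y z : ℝ) : ℝ := 4 * ((Y * z - 1) * (1 + Y ^ 2) * (1 + z ^ 2)) / (Y + z) ^ 3

/-- second derivative of `log coth (τ/4)` -/
noncomputable def Lpp (τ : ℝ) : ℝ := Real.cosh (τ / 2) / (4 * Real.sinh (τ / 2) ^ 2)

noncomputable def ell (τ : ℝ) : ℝ :=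
  48 / (2 * Real.cosh (τ / 2)) ^ 5 - 4 / (2 * Real.cosh (τ / 2)) ^ 3 - 1 / (2 * Real.cosh (τ / 2))

noncomputable def ps (τ : ℝ) : ℝ :=
  48 / (2 * Real.cosh (τ / 2)) ^ 5 - 4 / (2 * Real.cosh (τ / 2)) ^ 3
    - (5 / 8) / (2 * Real.cosh (τ / 2))

/-- `k3 (e^{-r}) (e^{-s}) = e^{-3(r+s)/2} n3 |r-s|`, for `τ > 0` -/
noncomputable def n3 (τ : ℝ) : ℝ :=
  Real.exp (τ / 2) + Real.exp (-τ / 2) + Real.exp (3 * τ / 2) * Real.log (1 - Real.exp (-τ))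
    + Real.exp (-3 * τ / 2) * Real.log (Real.exp τ - 1)

/-- `l1k (e^{-r}) (e^{-s}) = e^{-(r+s)/2} n1 |r-s|`, for `τ > 0` -/
noncomputable def n1 (τ : ℝ) : ℝ :=
  Real.exp (τ / 2) * Real.log (1 - Real.exp (-τ)) + Real.exp (-τ / 2) * Real.log (Real.exp τ - 1)

/-- `rl0 (e^{-r}) (e^{-s}) = e^{-3(r+s)/2} pp (r-s)` (even) -/
noncomputable def pp (τ : ℝ) : ℝ :=
  (Real.exp τ + Real.exp (-τ)) / (2 * Real.cosh (τ / 2))
    - Real.exp (-3 * τ / 2) * Real.log (1 + Real.exp τ)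
    - Real.exp (3 * τ / 2) * Real.log (1 + Real.exp (-τ)) + 4 / (2 * Real.cosh (τ / 2)) ^ 3

end Pool.Agent.H51.DG
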