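import Pool.Agent.H51.DG.Defs

/-! LOCAL THEORY, interface (helper45, helper58). See the header of `Defs.lean`.

Sketch: Galerkin in Fourier coefficients `c_k(t)`, `c_{-k} = conj c_k`,
`c_k' = Σ_{j+l=k} (-u_j (i l) c_l + c_l (-i sgn j) c_j)`, `u_j = -c_j/|j|`, truncated to `|k| ≤ N`.
With `d_k = |k|^s c_k`: `|k|^s - |l|^s ≤ C_s |j| (|l|^(s-1) + |j|^(s-1))` (`k = j + l`) and
`|j|^(s-1) |l| ≤ |j|^s + |l|^s` give, for every `s ≥ 1`,
`d/dt Σ |k|^(2s) |c_k|² ≤ C_s (Σ |c_k|) Σ |k|^(2s) |c_k|²`, and `Σ |c_k| ≤ C ‖w‖_{H^1}`; so the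
existence time depends on the `H^1` norm only and all `H^s` norms propagate. Differences in `ℓ²`:
Cauchy as `N → ∞` and uniqueness. Backward in time: `(t,x) ↦ -w(-t,x)` is again a solution. -/

set_option autoImplicit false
open Real Set MeasureTheory

namespace Pool.Agent.H51.DG

theorem global_of_apriori (w0 : ℝ → ℝ) (hs : ContDiff ℝ ((⊤ : ℕ∞) : WithTop ℕ∞) w0)
    (hp : Function.Periodic w0 (2 * π)) (H : ∀ T : ℝ, 0 < T → APriori w0 T) :
    GlobalSmooth w0 := by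
  sorry

end Pool.Agent.H51.DG
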