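import Pool.Agent.H51.DG.KerN

/-!
# DG2 job NA: correlation functions of exponentially decaying `C^1` functions

`corr A B τ = ∫ A(r) B(r+τ) dr`.  Differentiate under the integral sign
(`hasDerivAt_integral_of_dominated_loc_of_deriv_le`, dominated by `K² e^{-κ|r|}`);
`corr A B' τ = ∫ A(r-τ) B'(r) dr` (translation), so its derivative is `-∫ A'(r-τ) B'(r) dr`.
Decay: `|r| + |r+τ| ≥ |τ|`, so `e^{-κ|r|-κ|r+τ|} ≤ e^{-κ|τ|/2} e^{-κ|r|/2}` for the minimum `κ` of
the two rates.
-/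

set_option autoImplicit false
open Real Set MeasureTheory Filter Topology

namespace Pool.Agent.H51.DG

theorem NA_int_exp {κ : ℝ} (hκ : 0 < κ) : Integrable (fun r : ℝ => Real.exp (-(κ * |r|))) := by
  have h1 : IntegrableOn (fun r : ℝ => Real.exp (-(κ * |r|))) (Iic 0) := by
    have h2 := integrableOn_exp_mul_Iic hκ 0
    refine h2.congr_fun (fun r hr => ?_) measurableSet_Iic
    have h3 : |r| = -r := abs_of_nonpos hr
    show Real.exp (κ * r) = Real.exp (-(κ * |r|))
    rw [h3]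
    congr 1
    ring
  have h2 : IntegrableOn (fun r : ℝ => Real.exp (-(κ * |r|))) (Ioi 0) := by
    have h2 := integrableOn_exp_mul_Ioi (neg_lt_zero.2 hκ) 0
    refine h2.congr_fun (fun r hr => ?_) measurableSet_Ioi
    have h3 : |r| = r := abs_of_pos hr
    show Real.exp (-κ * r) = Real.exp (-(κ * |r|))
    rw [h3]
    congr 1
    ring
  have h3 := h1.union h2
  rwa [Iic_union_Ioi, integrableOn_univ] at h3

/-- continuous with exponential bound -/
def NA_E (K κ : ℝ) (f : ℝ → ℝ) : Prop :=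
  Continuous f ∧ ∀ r, |f r| ≤ K * Real.exp (-(κ * |r|))

theorem NA_exp_le_one {κ : ℝ} (hκ : 0 < κ) (r : ℝ) : Real.exp (-(κ * |r|)) ≤ 1 := by
  rw [Real.exp_le_one_iff]
  have := mul_nonneg hκ.le (abs_nonneg r)
  linarith

theorem NA_E_nonneg {K κ : ℝ} {f : ℝ → ℝ} (hf : NA_E K κ f) : 0 ≤ K := by
  have h := (abs_nonneg _).trans (hf.2 0)
  rw [abs_zero, mul_zero, neg_zero, Real.exp_zero, mul_one] at h
  exact h

theorem NA_E_le {K κ : ℝ} {f : ℝ → ℝ} (hκ : 0 < κ) (hf : NA_E K κ f) (r : ℝ) : |f r| ≤ K := by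
  have h1 := hf.2 r
  have h2 := mul_le_mul_of_nonneg_left (NA_exp_le_one hκ r) (NA_E_nonneg hf)
  linarith

/-- common constants -/
theorem NA_common {A A' B B' : ℝ → ℝ} (hA : Adm A A') (hB : Adm B B') :
    ∃ K κ : ℝ, 0 < κ ∧ NA_E K κ A ∧ NA_E K κ A' ∧ NA_E K κ B ∧ NA_E K κ B' := by
  obtain ⟨K1, κ1, h1, hA'⟩ := hA.dec
  obtain ⟨K2, κ2, h2, hB'⟩ := hB.dec
  have hcA : Continuous A := continuous_iff_continuousAt.2 fun r => (hA.d r).continuousAt
  have hcB : Continuous B := continuous_iff_continuousAt.2 fun r => (hB.d r).continuousAt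
  have key : ∀ (K κ : ℝ) (f : ℝ → ℝ), K ≤ |K1| + |K2| → min κ1 κ2 ≤ κ →
      (∀ r, |f r| ≤ K * Real.exp (-(κ * |r|))) →
      ∀ r, |f r| ≤ (|K1| + |K2|) * Real.exp (-(min κ1 κ2 * |r|)) := by
    intro K κ f hK hκ hf r
    refine (hf r).trans ?_
    have h3 : Real.exp (-(κ * |r|)) ≤ Real.exp (-(min κ1 κ2 * |r|)) := by
      apply Real.exp_le_exp.2
      have := mul_le_mul_of_nonneg_right hκ (abs_nonneg r)
      linarith
    have h4 : 0 ≤ |K1| + |K2| := by positivity
    calc K * Real.exp (-(κ * |r|)) ≤ (|K1| + |K2|) * Real.exp (-(κ * |r|)) :=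
          mul_le_mul_of_nonneg_right hK (Real.exp_pos _).le
      _ ≤ _ := mul_le_mul_of_nonneg_left h3 h4
  have hK1 : K1 ≤ |K1| + |K2| := by
    have := le_abs_self K1
    have := abs_nonneg K2
    linarith
  have hK2 : K2 ≤ |K1| + |K2| := by
    have := le_abs_self K2
    have := abs_nonneg K1
    linarith
  refine ⟨|K1| + |K2|, min κ1 κ2, lt_min h1 h2, ⟨hcA, ?_⟩, ⟨hA.c, ?_⟩, ⟨hcB, ?_⟩, ⟨hB.c, ?_⟩⟩
  · exact key K1 κ1 A hK1 (min_le_left _ _) fun r => (hA' r).1
  · exact key K1 κ1 A' hK1 (min_le_left _ _) fun r => (hA' r).2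
  · exact key K2 κ2 B hK2 (min_le_right _ _) fun r => (hB' r).1
  · exact key K2 κ2 B' hK2 (min_le_right _ _) fun r => (hB' r).2

/-- the product bound -/
theorem NA_mul_le {K κ : ℝ} {f g : ℝ → ℝ} (hκ : 0 < κ) (hf : NA_E K κ f) (hg : NA_E K κ g)
    (r s : ℝ) : |f r * g s| ≤ K ^ 2 * Real.exp (-(κ * |r|)) := by
  rw [abs_mul]
  have h1 := hf.2 r
  have h2 := NA_E_le hκ hg s
  have h3 := NA_E_nonneg hf
  calc |f r| * |g s| ≤ (K * Real.exp (-(κ * |r|))) * K :=
        mul_le_mul h1 h2 (abs_nonneg _) (mul_nonneg h3 (Real.exp_pos _).le)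
    _ = K ^ 2 * Real.exp (-(κ * |r|)) := by ring

theorem NA_int {K κ : ℝ} {f g : ℝ → ℝ} (hκ : 0 < κ) (hf : NA_E K κ f) (hg : NA_E K κ g)
    (τ : ℝ) : Integrable (fun r => f r * g (r + τ)) := by
  refine ((NA_int_exp hκ).const_mul (K ^ 2)).mono' ?_ ?_
  · exact (hf.1.mul (hg.1.comp (continuous_id.add continuous_const))).aestronglyMeasurable
  · refine Eventually.of_forall fun r => ?_
    rw [Real.norm_eq_abs]
    exact NA_mul_le hκ hf hg r (r + τ)

theorem NA_int_prod {K κ : ℝ} {f g : ℝ → ℝ} (hκ : 0 < κ) (hf : NA_E K κ f) (hg : NA_E K κ g) :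
    Integrable (fun r => f r * g r) := by
  have h := NA_int hκ hf hg 0
  simpa only [add_zero] using h

theorem Adm.integrable_mul {A A' B B' : ℝ → ℝ} (hA : Adm A A') (hB : Adm B B') (τ : ℝ) :
    Integrable (fun r => A r * B (r + τ)) ∧ Integrable (fun r => A r * B' (r + τ)) ∧
    Integrable (fun r => A' r * B (r + τ)) ∧ Integrable (fun r => A' r * B' (r + τ)) := by
  obtain ⟨K, κ, hκ, h1, h2, h3, h4⟩ := NA_common hA hB
  exact ⟨NA_int hκ h1 h3 τ, NA_int hκ h1 h4 τ, NA_int hκ h2 h3 τ, NA_int hκ h2 h4 τ⟩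

theorem hasDerivAt_corr {A A' B B' : ℝ → ℝ} (hA : Adm A A') (hB : Adm B B') (τ : ℝ) :
    HasDerivAt (corr A B) (corr A B' τ) τ := by
  obtain ⟨K, κ, hκ, h1, h2, h3, h4⟩ := NA_common hA hB
  have key := hasDerivAt_integral_of_dominated_loc_of_deriv_le (μ := volume)
    (F := fun x r => A r * B (r + x)) (F' := fun x r => A r * B' (r + x)) (x₀ := τ)
    (s := univ) (bound := fun r => K ^ 2 * Real.exp (-(κ * |r|))) Filter.univ_mem
    (Eventually.of_forall fun x => (NA_int hκ h1 h3 x).aestronglyMeasurable)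
    (NA_int hκ h1 h3 τ) (NA_int hκ h1 h4 τ).aestronglyMeasurable
    (Eventually.of_forall fun r x _ => by
      rw [Real.norm_eq_abs]
      exact NA_mul_le hκ h1 h4 r (r + x))
    ((NA_int_exp hκ).const_mul (K ^ 2))
    (Eventually.of_forall fun r x _ => by
      have h5 : HasDerivAt (fun x : ℝ => r + x) 1 x := by
        simpa using (hasDerivAt_id x).const_add r
      have h6 := ((hB.d (r + x)).comp x h5).const_mul (A r)
      simpa only [Function.comp_def, mul_one] using h6)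
  exact key.2

theorem NA_shift (f g : ℝ → ℝ) (τ : ℝ) : corr f g τ = ∫ r, f (r - τ) * g r := by
  have h := integral_sub_right_eq_self (μ := volume) (fun r : ℝ => f r * g (r + τ)) τ
  unfold corr
  rw [← h]
  refine integral_congr_ae (Eventually.of_forall fun r => ?_)
  show f (r - τ) * g (r - τ + τ) = f (r - τ) * g r
  rw [sub_add_cancel]

theorem hasDerivAt_corr' {A A' B B' : ℝ → ℝ} (hA : Adm A A') (hB : Adm B B') (τ : ℝ) :
    HasDerivAt (corr A B') (-corr A' B' τ) τ := by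
  obtain ⟨K, κ, hκ, h1, h2, h3, h4⟩ := NA_common hA hB
  have hint : ∀ (f : ℝ → ℝ), NA_E K κ f → ∀ x, Integrable (fun r => B' r * f (r - x)) := by
    intro f hf x
    have := NA_int hκ h4 hf (-x)
    simpa only [← sub_eq_add_neg] using this
  have key := hasDerivAt_integral_of_dominated_loc_of_deriv_le (μ := volume)
    (F := fun x r => B' r * A (r - x)) (F' := fun x r => -(B' r * A' (r - x))) (x₀ := τ)
    (s := univ) (bound := fun r => K ^ 2 * Real.exp (-(κ * |r|))) Filter.univ_mem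
    (Eventually.of_forall fun x => (hint A h1 x).aestronglyMeasurable)
    (hint A h1 τ) (hint A' h2 τ).neg.aestronglyMeasurable
    (Eventually.of_forall fun r x _ => by
      rw [Real.norm_eq_abs, abs_neg]
      exact NA_mul_le hκ h4 h2 r (r - x))
    ((NA_int_exp hκ).const_mul (K ^ 2))
    (Eventually.of_forall fun r x _ => by
      have h5 : HasDerivAt (fun x : ℝ => r - x) (-1) x := by
        simpa using (hasDerivAt_id x).const_sub r
      have h6 := ((hA.d (r - x)).comp x h5).const_mul (B' r)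
      simpa only [Function.comp_def, mul_neg, mul_one] using h6)
  have e1 : corr A B' = fun x => ∫ r, B' r * A (r - x) := by
    funext x
    rw [NA_shift]
    refine integral_congr_ae (Eventually.of_forall fun r => ?_)
    exact mul_comm _ _
  have e2 : -corr A' B' τ = ∫ r, -(B' r * A' (r - τ)) := by
    rw [integral_neg, NA_shift]
    congr 1
    refine integral_congr_ae (Eventually.of_forall fun r => ?_)
    exact mul_comm _ _
  rw [e1, e2]
  exact key.2

theorem continuous_corr'' {A A' B B' : ℝ → ℝ} (hA : Adm A A') (hB : Adm B B') :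
    Continuous (corr A' B') := by
  obtain ⟨K, κ, hκ, h1, h2, h3, h4⟩ := NA_common hA hB
  refine continuous_of_dominated (F := fun τ r => A' r * B' (r + τ))
    (bound := fun r => K ^ 2 * Real.exp (-(κ * |r|))) ?_ ?_ ((NA_int_exp hκ).const_mul (K ^ 2)) ?_
  · intro τ
    exact (NA_int hκ h2 h4 τ).aestronglyMeasurable
  · intro τ
    refine Eventually.of_forall fun r => ?_
    rw [Real.norm_eq_abs]
    exact NA_mul_le hκ h2 h4 r (r + τ)
  · refine Eventually.of_forall fun r => ?_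
    exact continuous_const.mul (h4.1.comp (continuous_const.add continuous_id))

theorem corr_swap (A B : ℝ → ℝ) (τ : ℝ) : corr A B (-τ) = corr B A τ := by
  rw [NA_shift A B (-τ)]
  unfold corr
  refine integral_congr_ae (Eventually.of_forall fun r => ?_)
  show A (r - -τ) * B r = B r * A (r + τ)
  rw [sub_neg_eq_add, mul_comm]

/-- integration by parts: `∫ A'(r) B(r+τ) = -∫ A(r) B'(r+τ)` -/
theorem corr_parts {A A' B B' : ℝ → ℝ} (hA : Adm A A') (hB : Adm B B') (τ : ℝ) :
    corr A' B τ = -corr A B' τ := by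
  obtain ⟨h1, h2, h3, h4⟩ := Adm.integrable_mul hA hB τ
  have key := integral_mul_deriv_eq_deriv_mul_of_integrable (u := A) (u' := A')
    (v := fun r => B (r + τ)) (v' := fun r => B' (r + τ)) (fun x _ => hA.d x)
    (fun x _ => by
      have h5 : HasDerivAt (fun x : ℝ => x + τ) 1 x := by
        simpa using (hasDerivAt_id x).add_const τ
      have h6 := (hB.d (x + τ)).comp x h5
      simpa only [Function.comp_def, mul_one] using h6) h2 h3 h1
  unfold corr
  rw [key, neg_neg]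

theorem NA_decay {K κ : ℝ} {f g : ℝ → ℝ} (hκ : 0 < κ) (hf : NA_E K κ f) (hg : NA_E K κ g)
    (τ : ℝ) : |corr f g τ| ≤
      (K ^ 2 * ∫ r : ℝ, Real.exp (-((κ / 2) * |r|))) * Real.exp (-((κ / 2) * |τ|)) := by
  have hK := NA_E_nonneg hf
  have h1 : ∀ r : ℝ, ‖f r * g (r + τ)‖ ≤
      (K ^ 2 * Real.exp (-((κ / 2) * |τ|))) * Real.exp (-((κ / 2) * |r|)) := by
    intro r
    rw [Real.norm_eq_abs, abs_mul]
    have h2 := hf.2 r
    have h3 := hg.2 (r + τ)
    have h4 : |τ| ≤ |r| + |r + τ| := by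
      have h5 := abs_sub (r + τ) r
      have h6 : r + τ - r = τ := by ring
      rw [h6] at h5
      linarith
    have h5 : Real.exp (-(κ * |r|)) * Real.exp (-(κ * |r + τ|)) ≤
        Real.exp (-((κ / 2) * |τ|)) * Real.exp (-((κ / 2) * |r|)) := by
      rw [← Real.exp_add, ← Real.exp_add]
      apply Real.exp_le_exp.2
      have h6 := mul_le_mul_of_nonneg_left h4 hκ.le
      have h7 := mul_nonneg hκ.le (abs_nonneg (r + τ))
      nlinarith
    calc |f r| * |g (r + τ)| ≤ (K * Real.exp (-(κ * |r|))) * (K * Real.exp (-(κ * |r + τ|))) :=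
          mul_le_mul h2 h3 (abs_nonneg _) (mul_nonneg hK (Real.exp_pos _).le)
      _ = K ^ 2 * (Real.exp (-(κ * |r|)) * Real.exp (-(κ * |r + τ|))) := by ring
      _ ≤ K ^ 2 * (Real.exp (-((κ / 2) * |τ|)) * Real.exp (-((κ / 2) * |r|))) :=
          mul_le_mul_of_nonneg_left h5 (by positivity)
      _ = _ := by ring
  have h2 := norm_integral_le_of_norm_le
    ((NA_int_exp (half_pos hκ)).const_mul (K ^ 2 * Real.exp (-((κ / 2) * |τ|))))
    (Eventually.of_forall h1)
  rw [integral_const_mul, Real.norm_eq_abs] at h2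
  unfold corr
  calc |∫ r, f r * g (r + τ)| ≤ _ := h2
    _ = _ := by ring

/-- exponential decay of all correlations -/
theorem corr_decay {A A' B B' : ℝ → ℝ} (hA : Adm A A') (hB : Adm B B') :
    ∃ K κ : ℝ, 0 < κ ∧ ∀ τ, |corr A B τ| ≤ K * Real.exp (-(κ * |τ|)) ∧
      |corr A B' τ| ≤ K * Real.exp (-(κ * |τ|)) ∧
      |corr A' B' τ| ≤ K * Real.exp (-(κ * |τ|)) := by
  obtain ⟨K, κ, hκ, h1, h2, h3, h4⟩ := NA_common hA hB
  exact ⟨K ^ 2 * ∫ r : ℝ, Real.exp (-((κ / 2) * |r|)), κ / 2, half_pos hκ, fun τ =>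
    ⟨NA_decay hκ h1 h3 τ, NA_decay hκ h1 h4 τ, NA_decay hκ h2 h4 τ⟩⟩

/-- the shifted product -/
theorem NA_shift2 (f g : ℝ → ℝ) (τ : ℝ) : ∫ r, f (r + τ) * g (r + τ) = corr f g 0 := by
  have h := integral_add_right_eq_self (μ := volume) (fun r : ℝ => f r * g r) τ
  unfold corr
  rw [h]
  refine integral_congr_ae (Eventually.of_forall fun r => ?_)
  show f r * g r = f r * g (r + 0)
  rw [add_zero]

theorem NA_diff {A A' B B' : ℝ → ℝ} (hA : Adm A A') (hB : Adm B B') (τ : ℝ) :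
    Integrable (fun r => (A (r + τ) - A r) * (B (r + τ) - B r)) ∧
    ∫ r, (A (r + τ) - A r) * (B (r + τ) - B r) =
      2 * corr A B 0 - corr A B τ - corr A B (-τ) := by
  obtain ⟨K, κ, hκ, h1, h2, h3, h4⟩ := NA_common hA hB
  have i1 : Integrable (fun r => A r * B (r + τ)) := NA_int hκ h1 h3 τ
  have i2 : Integrable (fun r => B r * A (r + τ)) := NA_int hκ h3 h1 τ
  have i0 : Integrable (fun r => A r * B r) := NA_int_prod hκ h1 h3
  have i3 : Integrable (fun r => A (r + τ) * B (r + τ)) := i0.comp_add_right τ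
  have e : (fun r => (A (r + τ) - A r) * (B (r + τ) - B r)) =
      fun r => ((A (r + τ) * B (r + τ) + A r * B r) - A r * B (r + τ)) - B r * A (r + τ) := by
    funext r
    ring
  have i5 : Integrable (fun r => A (r + τ) * B (r + τ) + A r * B r) := i3.add i0
  have i6 : Integrable (fun r => (A (r + τ) * B (r + τ) + A r * B r) - A r * B (r + τ)) :=
    i5.sub i1
  have i4 : Integrable (fun r => ((A (r + τ) * B (r + τ) + A r * B r) - A r * B (r + τ)) -
    B r * A (r + τ)) := i6.sub i2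
  refine ⟨by rw [e]; exact i4, ?_⟩
  rw [e, integral_sub i6 i2, integral_sub i5 i1, integral_add i3 i0, NA_shift2, corr_swap]
  have e0 : ∫ r, A r * B r = corr A B 0 := by
    unfold corr
    refine integral_congr_ae (Eventually.of_forall fun r => ?_)
    show A r * B r = A r * B (r + 0)
    rw [add_zero]
  rw [e0]
  unfold corr
  ring

theorem NA_DD (A : ℝ → ℝ) (τ : ℝ) : DD A τ = ∫ r, (A (r + τ) - A r) * (A (r + τ) - A r) := by
  unfold DD
  refine integral_congr_ae (Eventually.of_forall fun r => ?_)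
  exact sq _

/-- `‖A(·+τ) - A‖² = 2 (C(0) - C(τ))` -/
theorem DD_eq {A A' : ℝ → ℝ} (hA : Adm A A') (τ : ℝ) :
    DD A τ = 2 * (corr A A 0 - corr A A τ) := by
  rw [NA_DD, (NA_diff hA hA τ).2, corr_swap]
  ring

theorem DD_nonneg (A : ℝ → ℝ) (τ : ℝ) : 0 ≤ DD A τ :=
  integral_nonneg fun _ => sq_nonneg _

/-- `DD A τ ≤ K τ²` and bounded -/
theorem DD_le {A A' : ℝ → ℝ} (hA : Adm A A') : ∃ K : ℝ, ∀ τ, DD A τ ≤ K * τ ^ 2 ∧ DD A τ ≤ K := by
  obtain ⟨K, κ, hκ, h1, h2, -, -⟩ := NA_common hA hA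
  obtain ⟨M, hM⟩ : ∃ M : ℝ, M = K ^ 2 * ∫ r : ℝ, Real.exp (-((κ / 2) * |r|)) := ⟨_, rfl⟩
  have hM0 : 0 ≤ M := by
    rw [hM]
    exact mul_nonneg (by positivity) (integral_nonneg fun r => (Real.exp_pos _).le)
  have hb : ∀ f g : ℝ → ℝ, NA_E K κ f → NA_E K κ g → ∀ τ, |corr f g τ| ≤ M := by
    intro f g hf hg τ
    refine (NA_decay hκ hf hg τ).trans ?_
    rw [← hM]
    have h3 := mul_le_mul_of_nonneg_left (NA_exp_le_one (half_pos hκ) τ) hM0
    linarith
  have hd0 : corr A A' 0 = 0 := by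
    have h3 := corr_parts hA hA 0
    have h4 := corr_swap A A' 0
    rw [neg_zero] at h4
    linarith
  have hf1 : ∀ s, |corr A A' s| ≤ M * |s| := by
    intro s
    have h3 := Convex.norm_image_sub_le_of_norm_hasDerivWithin_le (s := univ) (C := M)
      (f := corr A A') (f' := fun τ => -corr A' A' τ) (x := 0) (y := s)
      (fun x _ => (hasDerivAt_corr' hA hA x).hasDerivWithinAt)
      (fun x _ => by
        rw [Real.norm_eq_abs, abs_neg]
        exact hb A' A' h2 h2 x) convex_univ (mem_univ _) (mem_univ _)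
    rw [hd0, sub_zero, sub_zero, Real.norm_eq_abs, Real.norm_eq_abs] at h3
    exact h3
  have hf0 : ∀ τ, |corr A A τ - corr A A 0| ≤ M * τ ^ 2 := by
    intro τ
    have h3 := Convex.norm_image_sub_le_of_norm_hasDerivWithin_le (s := Icc (-|τ|) |τ|)
      (C := M * |τ|) (f := corr A A) (f' := fun τ => corr A A' τ) (x := 0) (y := τ)
      (fun x _ => (hasDerivAt_corr hA hA x).hasDerivWithinAt)
      (fun x hx => by
        rw [Real.norm_eq_abs]
        exact (hf1 x).trans (mul_le_mul_of_nonneg_left (abs_le.2 hx) hM0)) (convex_Icc _ _)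
      ⟨neg_nonpos.2 (abs_nonneg τ), abs_nonneg τ⟩ ⟨neg_abs_le τ, le_abs_self τ⟩
    rw [sub_zero, Real.norm_eq_abs, Real.norm_eq_abs, mul_assoc, abs_mul_abs_self, ← sq] at h3
    exact h3
  refine ⟨4 * M, fun τ => ?_⟩
  rw [DD_eq hA]
  constructor
  · have h3 := (abs_le.1 (hf0 τ)).1
    have h4 : 0 ≤ M * τ ^ 2 := mul_nonneg hM0 (sq_nonneg _)
    nlinarith
  · have h3 := (abs_le.1 (hb A A h1 h1 0)).2
    have h4 := (abs_le.1 (hb A A h1 h1 τ)).1
    linarith

theorem continuous_DD {A A' : ℝ → ℝ} (hA : Adm A A') : Continuous (DD A) := by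
  have h1 : DD A = fun τ => 2 * (corr A A 0 - corr A A τ) := funext fun τ => DD_eq hA τ
  have h2 : Continuous (corr A A) :=
    continuous_iff_continuousAt.2 fun τ => (hasDerivAt_corr hA hA τ).continuousAt
  rw [h1]
  exact continuous_const.mul (continuous_const.sub h2)

/-- `⟨A(·+τ)-A, B(·+τ)-B⟩ = 2C(0) - C(τ) - C(-τ)`, `C = corr A B`, and Cauchy-Schwarz -/
theorem corr_second_diff {A A' B B' : ℝ → ℝ} (hA : Adm A A') (hB : Adm B B') (τ : ℝ) :
    |corr A B τ + corr A B (-τ) - 2 * corr A B 0| ≤ (DD A τ + DD B τ) / 2 := by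
  have h1 : corr A B τ + corr A B (-τ) - 2 * corr A B 0 =
      -∫ r, (A (r + τ) - A r) * (B (r + τ) - B r) := by
    rw [(NA_diff hA hB τ).2]
    ring
  have iA := (NA_diff hA hA τ).1
  have iB := (NA_diff hB hB τ).1
  rw [h1, abs_neg, NA_DD, NA_DD, ← integral_add iA iB, ← integral_div]
  have key := norm_integral_le_of_norm_le (f := fun r => (A (r + τ) - A r) * (B (r + τ) - B r))
    ((iA.add iB).div_const 2) (Eventually.of_forall fun r => ?_)
  · rw [Real.norm_eq_abs] at key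
    exact key
  rw [Real.norm_eq_abs, abs_mul]
  show |A (r + τ) - A r| * |B (r + τ) - B r| ≤
    ((A (r + τ) - A r) * (A (r + τ) - A r) + (B (r + τ) - B r) * (B (r + τ) - B r)) / 2
  rw [← abs_mul_abs_self (A (r + τ) - A r), ← abs_mul_abs_self (B (r + τ) - B r)]
  nlinarith [sq_nonneg (|A (r + τ) - A r| - |B (r + τ) - B r|)]

end Pool.Agent.H51.DG
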