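import Pool.Agent.H51.DG.SEv
import Pool.Agent.H51.DG.KA

/-!
# DG2 job SEw: evaluation of the energy kernel, parts of a normalised function

`0 < x, y < π`, `Y = ct x`, `Z = ct y`; formulas for `sin((x-y)/2)` etc. as in `SEv`.
`SE_RF`: `x < l < y`, `sg y - sg x = 2`, `cos/sin^3 = (1+YZ)(1+Y²)(1+Z²)/(Z-Y)^3`, `Z < Y`.
`SE_NR`: `sg y - sg (2π-x) = -2`, `cos((2π-x-y)/2)/sin^3 = (1-YZ)(1+Y²)(1+Z²)/(Y+Z)^3 · ...`; the result
is `8π SE = 4 (YZ-1)(1+Y²)(1+Z²)/(Y+Z)^3` (checked numerically).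
`SE = 0` when both points are on the same arc.
-/

set_option autoImplicit false
open Real Set MeasureTheory Filter Topology

namespace Pool.Agent.H51.DG

theorem SE_symm (l x y : ℝ) : SE l x y = SE l y x := by
  unfold SE
  have e : (y - x) / 2 = -((x - y) / 2) := by ring
  rw [e, Real.cos_neg, Real.sin_neg, Odd.neg_pow (by decide), div_neg]
  ring

theorem SE_same {l x y : ℝ} (h : (x < l ∧ y < l) ∨ (l ≤ x ∧ l ≤ y)) : SE l x y = 0 := by
  unfold SE sg
  rcases h with ⟨h1, h2⟩ | ⟨h1, h2⟩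
  · rw [if_pos h1, if_pos h2]
    ring
  · rw [if_neg (not_lt.2 h1), if_neg (not_lt.2 h2)]
    ring

/-- R-flat -/
theorem SE_RF {l x y : ℝ} (hx : 0 < x) (hxl : x < l) (hy : l < y) (hyp : y < π) :
    SE l x y ≤ 0 := by
  have e5 : sg l x = -1 := if_pos hxl
  have e6 : sg l y = 1 := if_neg (by linarith)
  have hc : 0 ≤ Real.cos ((x - y) / 2) :=
    (Real.cos_pos_of_mem_Ioo ⟨by linarith, by linarith [Real.pi_pos]⟩).le
  have hs : Real.sin ((x - y) / 2) < 0 :=
    Real.sin_neg_of_neg_of_neg_pi_lt (by linarith) (by linarith [Real.pi_pos])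
  have hs3 : Real.sin ((x - y) / 2) ^ 3 ≤ 0 := Odd.pow_nonpos (by decide) hs.le
  have hq : Real.cos ((x - y) / 2) / Real.sin ((x - y) / 2) ^ 3 ≤ 0 :=
    div_nonpos_of_nonneg_of_nonpos hc hs3
  unfold SE
  rw [e5, e6]
  have hp : 0 ≤ 1 / (4 * π) * (1 - -1) := by positivity
  exact mul_nonpos_of_nonneg_of_nonpos hp hq

/-- near-R (`2π - x` near, `y` in R) -/
theorem SE_NR {l x y : ℝ} (hl : l ≤ π) (hx : 0 < x) (hxp : x < π) (hy : 0 < y) (hyl : y < l) :
    8 * π * SE l (2 * π - x) y = ek (ct y) (ct x) := by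
  have hyp : y < π := by linarith
  have hsx := SEv_sin hx (by linarith)
  have hsy := SEv_sin hy (by linarith)
  have hcx := ct_pos hx hxp
  have hcy := ct_pos hy hyp
  have hp := Real.pi_pos
  have e5 : sg l (2 * π - x) = 1 := if_neg (by linarith)
  have e6 : sg l y = -1 := if_pos hyl
  have h1 : Real.cos ((2 * π - x - y) / 2) =
      Real.sin (x / 2) * Real.sin (y / 2) * (1 - ct x * ct y) := by
    have e : (2 * π - x - y) / 2 = π - (x / 2 + y / 2) := by ring
    have hsx' := hsx.ne'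
    have hsy' := hsy.ne'
    rw [e, Real.cos_pi_sub, Real.cos_add]
    unfold ct
    field_simp
    ring
  have h2 := SEv_sq hsx.ne'
  have h3 := SEv_sq hsy.ne'
  have h4 : ct x + ct y ≠ 0 := by positivity
  unfold SE
  rw [e5, e6, h1, SEv_sin_add hsx.ne' hsy.ne']
  unfold ek
  rw [← h2, ← h3]
  have hsx' := hsx.ne'
  have hsy' := hsy.ne'
  have h4' : ct y + ct x ≠ 0 := by positivity
  generalize Real.sin (x / 2) = u at *
  generalize Real.sin (y / 2) = v at *
  generalize ct x = a at *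
  generalize ct y = b at *
  rw [show b + a = a + b by ring]
  field_simp
  ring

theorem bR_nonneg (W : ℝ → ℝ) (x : ℝ) : 0 ≤ bR W x := by
  exact le_max_right _ _

theorem bF_nonneg (W : ℝ → ℝ) (x : ℝ) : 0 ≤ bF W x := by
  exact le_max_right _ _

theorem bN_nonneg {W : ℝ → ℝ} {l x : ℝ} (h : Nrm W l) (hl : l ≤ π) (h0 : 0 ≤ x) (h1 : x ≤ π) :
    0 ≤ bN W x := by
  have e : bN W x = W (2 * π - x) := by
    unfold bN
    rw [← h.per (-x)]
    congr 1
    ring
  rw [e]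
  exact h.pos _ ⟨by linarith, by linarith⟩

theorem bR_zero {W : ℝ → ℝ} {l x : ℝ} (h : Nrm W l) (h0 : l ≤ x) (h1 : x ≤ 2 * π) :
    bR W x = 0 := by
  unfold bR
  exact max_eq_right (by linarith [h.pos x ⟨h0, h1⟩])

theorem bF_zero {W : ℝ → ℝ} {l x : ℝ} (h : Nrm W l) (h0 : 0 ≤ x) (h1 : x ≤ l) :
    bF W x = 0 := by
  unfold bF
  exact max_eq_right (h.neg x ⟨h0, h1⟩)

theorem abs_parts (W : ℝ → ℝ) (x : ℝ) : |W x| = bR W x + bF W x := by
  unfold bR bF
  rcases le_total 0 (W x) with h | h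
  · rw [abs_of_nonneg h, max_eq_right (by linarith), max_eq_left h, zero_add]
  · rw [abs_of_nonpos h, max_eq_left (by linarith), max_eq_right h, add_zero]

theorem eq_parts (W : ℝ → ℝ) (x : ℝ) : W x = bF W x - bR W x := by
  unfold bR bF
  rcases le_total 0 (W x) with h | h
  · rw [max_eq_left h, max_eq_right (show -W x ≤ 0 by linarith), sub_zero]
  · rw [max_eq_right h, max_eq_left (show 0 ≤ -W x by linarith)]
    ring

theorem refl_parts {W : ℝ → ℝ} {l x : ℝ} (h : Nrm W l) (hl : l ≤ π) (h0 : 0 ≤ x) (h1 : x ≤ π) :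
    W (2 * π - x) = bN W x ∧ |W (2 * π - x)| = bN W x := by
  have e : W (2 * π - x) = bN W x := by
    unfold bN
    rw [← h.per (-x)]
    congr 1
    ring
  exact ⟨e, by rw [e, abs_of_nonneg (bN_nonneg h hl h0 h1)]⟩

/-- `gA ≤ Gk` on positive arguments -/
theorem gA_le {Y z : ℝ} (hY : 0 < Y) (hz : 0 < z) : gA Y z ≤ Gk Y z := by
  unfold gA
  split_ifs with h
  · refine le_trans ?_ (Gk_ge hY hz)
    rw [le_div_iff₀ (by linarith)]
    nlinarith [h.1, h.2]
  · exact Gk_nonneg hY hz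

theorem fA_le {Y y : ℝ} (hy : 0 < y) (hyY : y < Y) : fA Y y ≤ (2 + 2 * (Y * y)) / (Y - y) := by
  have hd : 0 < Y - y := by linarith
  have hY : 0 < Y := by linarith
  unfold fA
  split_ifs with h
  · rw [le_div_iff₀ hd]
    nlinarith [mul_pos hY hy]
  · positivity

end Pool.Agent.H51.DG
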