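import Pool.Agent.H51.DG.SEw
import Pool.Agent.H51.DG.KB
import Pool.Agent.H51.DG.KC
import Pool.Agent.H51.DG.KD
import Pool.Agent.H51.DG.KG

/-!
# DG2 job SH: the two pointwise certificates

`x, y ∈ (0,π)`, `x ≠ y`, `x, y ≠ l`.  By `abs_parts`, `refl_parts`
`fold4 (|W||W|SS) x y = |W x||W y| SS l x y + bN x |W y| SS l (2π-x) y + |W x| bN y SS l x (2π-y)
   + bN x bN y SS l (2π-x) (2π-y)`, `|W x| = bR x` if `x < l`, `= bF x` if `x > l`, and
`SS l x (2π-y) = SS l (2π-y) x`.  Distinguish the four cases `x < l` or `x > l`, `y < l` or `y > l` and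
use `SS_RR, SS_RF, SS_FF, SS_NR, SS_NF, SS_NN` (with `Y - psi Y = chi Y`).
Coefficients of the products in `8π ·` (left hand side), certificate (A), with
`alA x = (bR x chi x - bN x (chi x + gl x))/4π`, `gl x = gk (ct l) (ct x) ≥ 0`,
`nu y = bF y + bN y - bR y`:
* `bR x bR y`: `k3 + l1k`; `bN x bN y`: `k3 + l1k - gl x - gl y ≤ k3 + l1k`;
* `bR x bN y`: `rnk (ct x) (ct y) + ct x + ct y + gl y ≤ -Gk (ct x) (ct y) ≤ -gA` (`rnk_le`, as `x < l`
  implies `ct l < ct x`; if `x > l` then `bR x = 0`);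
* `bR x bF y` (`x < l < y`): `rfk (ct x) (ct y) + ct x ≤ -(2+2Yy)/(Y-y) ≤ -fA`;
* `bF x bN y` (`x > l`): `gk (ct x) (ct y) - gk (ct l) (ct y) ≤ 0` (`gk_mono`);
* `bF x bF y`: `0`.
Certificate (B), `al0 x = (bR x - bN x) chi x / 4π`: `bR x bR y`, `bN x bN y`: `k3 + l1k`;
`bR x bN y`: `rnk + ct x + ct y + ek (ct x) (ct y) ≤ rl0 + 8 Yz/(Y+z)` (`rnk_ek_le`);
`bR x bF y`: `rfk + ct x + 8π SE ≤ 0`; `bF x bN y`: `gk (ct x) (ct y)`; `bF x bF y`: `0`.
`k3`, `l1k` are symmetric (`KG_k3_comm`, `KG_l1k_comm`).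
-/

set_option autoImplicit false
open Real Set MeasureTheory Filter Topology

namespace Pool.Agent.H51.DG

/-- `ct l ≥ 0` -/
theorem SH_ctl {l : ℝ} (h0 : 0 < l) (h1 : l ≤ π) : 0 ≤ ct l := by
  rcases h1.eq_or_lt with h | h
  · subst h
    simp [ct]
  · exact (ct_pos h0 h).le

/-- expansion of the left hand side -/
theorem SH_exp {W : ℝ → ℝ} {l x y : ℝ} (K : ℝ → ℝ → ℝ) (A1 A2 : ℝ) (h : Nrm W l) (hl : l ≤ π)
    (hx : x ∈ Ioo (0:ℝ) π) (hy : y ∈ Ioo (0:ℝ) π) :
    8 * π * (fold4 (fun s t => |W s| * |W t| * K s t) x y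
        + (1 / (4 * π) * A1 * nu W y + 1 / (4 * π) * A2 * nu W x) / 2) =
      (bR W x + bF W x) * (bR W y + bF W y) * (8 * π * K x y)
        + bN W x * (bR W y + bF W y) * (8 * π * K (2 * π - x) y)
        + (bR W x + bF W x) * bN W y * (8 * π * K x (2 * π - y))
        + bN W x * bN W y * (8 * π * K (2 * π - x) (2 * π - y))
        + A1 * (bF W y + bN W y - bR W y) + A2 * (bF W x + bN W x - bR W x) := by
  have hpi : π ≠ 0 := Real.pi_ne_zero
  have e1 := abs_parts W x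
  have e2 := abs_parts W y
  have e3 := (refl_parts h hl hx.1.le hx.2.le).2
  have e4 := (refl_parts h hl hy.1.le hy.2.le).2
  have e5 : ∀ A B : ℝ, 8 * π * ((1 / (4 * π) * A * B) / 2) = A * B := by
    intro A B
    field_simp
    ring
  unfold fold4
  simp only [e1, e2, e3, e4]
  have e6 := e5 A1 (nu W y)
  have e7 := e5 A2 (nu W x)
  unfold nu at e6 e7 ⊢
  linear_combination e6 + e7

/-- the final linear arithmetic for (A) -/
theorem SH_fin_A {a b f g m n S1 S2 S3 S4 cx cy gX gY k GA GA' FA FA' : ℝ}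
    (hm : 0 ≤ m) (hn : 0 ≤ n) (hgX : 0 ≤ gX) (hgY : 0 ≤ gY)
    (h1 : a * b * (S1 - cx - cy) ≤ a * b * k)
    (h2 : a * g * (S1 + cx) ≤ a * g * (- FA))
    (h3 : f * b * (S1 + cy) ≤ f * b * (- FA'))
    (h4 : f * g * S1 ≤ 0)
    (h5 : m * b * (S2 + cx + gX + cy) ≤ m * b * (- GA'))
    (h6 : m * g * (S2 - cx - gX) ≤ 0)
    (h7 : a * n * (S3 + cx + cy + gY) ≤ a * n * (- GA))
    (h8 : f * n * (S3 - cy - gY) ≤ 0)
    (h9 : m * n * (S4 - cx - cy) ≤ m * n * k) :
    (a + f) * (b + g) * S1 + m * (b + g) * S2 + (a + f) * n * S3 + m * n * S4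
      + (a * cx - m * (cx + gX)) * (g + n - b) + (b * cy - n * (cy + gY)) * (f + m - a) ≤
    (a * b + m * n) * k - (a * n * GA + b * m * GA') - (a * g * FA + b * f * FA') := by
  have h10 : 0 ≤ m * n * gX := mul_nonneg (mul_nonneg hm hn) hgX
  have h11 : 0 ≤ m * n * gY := mul_nonneg (mul_nonneg hm hn) hgY
  nlinarith [h1, h2, h3, h4, h5, h6, h7, h8, h9, h10, h11]

/-- the final linear arithmetic for (B) -/
theorem SH_fin_B {a b f g m n S1 S2 S3 S4 cx cy k RA RA' G1 G2 : ℝ}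
    (h1 : a * b * (S1 - cx - cy) ≤ a * b * k)
    (h2 : a * g * (S1 + cx) ≤ 0)
    (h3 : f * b * (S1 + cy) ≤ 0)
    (h4 : f * g * S1 ≤ 0)
    (h5 : m * b * (S2 + cx + cy) ≤ m * b * RA')
    (h6 : m * g * (S2 - cx) ≤ m * g * G2)
    (h7 : a * n * (S3 + cx + cy) ≤ a * n * RA)
    (h8 : f * n * (S3 - cy) ≤ f * n * G1)
    (h9 : m * n * (S4 - cx - cy) ≤ m * n * k) :
    (a + f) * (b + g) * S1 + m * (b + g) * S2 + (a + f) * n * S3 + m * n * S4
      + (a - m) * cx * (g + n - b) + (b - n) * cy * (f + m - a) ≤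
    (a * b + m * n) * k + (a * n * RA + b * m * RA') + (f * n * G1 + g * m * G2) := by
  nlinarith [h1, h2, h3, h4, h5, h6, h7, h8, h9]

theorem cert_A {W : ℝ → ℝ} {l x y : ℝ} (h : Nrm W l) (hl : l ≤ π) (hx : x ∈ Ioo (0:ℝ) π)
    (hy : y ∈ Ioo (0:ℝ) π) (hxy : x ≠ y) (hxl : x ≠ l) (hyl : y ≠ l) :
    8 * π * (fold4 (fun s t => |W s| * |W t| * SS l s t) x y
        + (alA W l x * nu W y + alA W l y * nu W x) / 2) ≤
      (bR W x * bR W y + bN W x * bN W y) * (k3 (ct x) (ct y) + l1k (ct x) (ct y))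
        - (bR W x * bN W y * gA (ct x) (ct y) + bR W y * bN W x * gA (ct y) (ct x))
        - (bR W x * bF W y * fA (ct x) (ct y) + bR W y * bF W x * fA (ct y) (ct x)) := by
  unfold alA
  rw [SH_exp (SS l) _ _ h hl hx hy]
  have hl2 : l < 2 * π := h.l1
  have hX := ct_pos hx.1 hx.2
  have hY := ct_pos hy.1 hy.2
  have hc := SH_ctl h.l0 hl
  have ha := bR_nonneg W x
  have hb := bR_nonneg W y
  have hf := bF_nonneg W x
  have hg := bF_nonneg W y
  have hm := bN_nonneg h hl hx.1.le hx.2.le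
  have hn := bN_nonneg h hl hy.1.le hy.2.le
  have hNN := SS_NN (x := x) (y := y) h.l0 hl hx.1 hx.2 hy.1 hy.2 hxy
  have px : psi (ct x) = ct x - chi (ct x) := by unfold chi; ring
  have py : psi (ct y) = ct y - chi (ct y) := by unfold chi; ring
  have gx0 := gk_nonneg hc hX
  have gy0 := gk_nonneg hc hY
  have gAx := gA_le hX hY
  have gAy := gA_le hY hX
  have hax : l < x → bR W x = 0 := fun hh => bR_zero h hh.le (by linarith [hx.2, Real.pi_pos])
  have hay : l < y → bR W y = 0 := fun hh => bR_zero h hh.le (by linarith [hy.2, Real.pi_pos])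
  have hfx : x < l → bF W x = 0 := fun hh => bF_zero h hx.1.le hh.le
  have hfy : y < l → bF W y = 0 := fun hh => bF_zero h hy.1.le hh.le
  have hclx : x < l → ct l < ct x := fun hh => ct_lt hx.1 hh hl2
  have hcly : y < l → ct l < ct y := fun hh => ct_lt hy.1 hh hl2
  have hcxl : l < x → ct x < ct l := fun hh => ct_lt h.l0 hh (by linarith [hx.2, Real.pi_pos])
  have hcyl : l < y → ct y < ct l := fun hh => ct_lt h.l0 hh (by linarith [hy.2, Real.pi_pos])
  apply SH_fin_A hm hn gx0 gy0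
  · -- R-R
    rcases lt_or_gt_of_ne hxl with h1 | h1
    · rcases lt_or_gt_of_ne hyl with h2 | h2
      · rw [SS_RR hl hx.1 hy.1 h1 h2 hxy]
        apply le_of_eq
        ring
      · rw [hay h2]; simp
    · rw [hax h1]; simp
  · -- R-F
    rcases lt_or_gt_of_ne hxl with h1 | h1
    · rcases lt_or_gt_of_ne hyl with h2 | h2
      · rw [hfy h2]; simp
      · have hlt : ct y < ct x := (hcyl h2).trans (hclx h1)
        have r1 := rfk_le hY hlt
        have r2 := fA_le hY hlt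
        apply mul_le_mul_of_nonneg_left _ (mul_nonneg ha hg)
        rw [SS_RF hl hx.1 h1 h2 hy.2, px]
        linarith
    · rw [hax h1]; simp
  · -- F-R
    rcases lt_or_gt_of_ne hyl with h1 | h1
    · rcases lt_or_gt_of_ne hxl with h2 | h2
      · rw [hfx h2]; simp
      · have hlt : ct x < ct y := (hcxl h2).trans (hcly h1)
        have r1 := rfk_le hX hlt
        have r2 := fA_le hX hlt
        apply mul_le_mul_of_nonneg_left _ (mul_nonneg hf hb)
        rw [SS_symm, SS_RF hl hy.1 h1 h2 hx.2, py]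
        linarith
    · rw [hay h1]; simp
  · -- F-F
    rcases lt_or_gt_of_ne hxl with h1 | h1
    · rw [hfx h1]; simp
    · rcases lt_or_gt_of_ne hyl with h2 | h2
      · rw [hfy h2]; simp
      · rw [SS_FF h.l0 h1 h2 hx.2 hy.2]; simp
  · -- N-R
    rcases lt_or_gt_of_ne hyl with h1 | h1
    · apply mul_le_mul_of_nonneg_left _ (mul_nonneg hm hb)
      have r1 := rnk_le hY hX hc (hcly h1).le
      rw [SS_NR hl hx.1 hx.2 hy.1 h1, px, py]
      linarith
    · rw [hay h1]; simp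
  · -- N-F
    rcases lt_or_gt_of_ne hyl with h1 | h1
    · rw [hfy h1]; simp
    · apply mul_nonpos_of_nonneg_of_nonpos (mul_nonneg hm hg)
      have r1 := gk_mono hY.le (hcyl h1).le hX
      rw [SS_NF h.l0 hl hx.1 hx.2 h1 hy.2]
      linarith
  · -- R-N
    rcases lt_or_gt_of_ne hxl with h1 | h1
    · apply mul_le_mul_of_nonneg_left _ (mul_nonneg ha hn)
      have r1 := rnk_le hX hY hc (hclx h1).le
      rw [SS_symm, SS_NR hl hy.1 hy.2 hx.1 h1, px, py]
      linarith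
    · rw [hax h1]; simp
  · -- F-N
    rcases lt_or_gt_of_ne hxl with h1 | h1
    · rw [hfx h1]; simp
    · apply mul_nonpos_of_nonneg_of_nonpos (mul_nonneg hf hn)
      have r1 := gk_mono hX.le (hcxl h1).le hY
      rw [SS_symm, SS_NF h.l0 hl hy.1 hy.2 h1 hx.2]
      linarith
  · -- N-N
    rw [hNN]
    apply le_of_eq
    ring

theorem cert_B {W : ℝ → ℝ} {l x y : ℝ} (h : Nrm W l) (hl : l ≤ π) (hx : x ∈ Ioo (0:ℝ) π)
    (hy : y ∈ Ioo (0:ℝ) π) (hxy : x ≠ y) (hxl : x ≠ l) (hyl : y ≠ l) :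
    8 * π * (fold4 (fun s t => |W s| * |W t| * (SS l s t + SE l s t)) x y
        + (al0 W x * nu W y + al0 W y * nu W x) / 2) ≤
      (bR W x * bR W y + bN W x * bN W y) * (k3 (ct x) (ct y) + l1k (ct x) (ct y))
        + (bR W x * bN W y * (rl0 (ct x) (ct y) + 8 * (ct x * ct y / (ct x + ct y)))
          + bR W y * bN W x * (rl0 (ct y) (ct x) + 8 * (ct y * ct x / (ct y + ct x))))
        + (bF W x * bN W y * gk (ct x) (ct y) + bF W y * bN W x * gk (ct y) (ct x)) := by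
  unfold al0
  rw [SH_exp (fun s t => SS l s t + SE l s t) _ _ h hl hx hy]
  have hl2 : l < 2 * π := h.l1
  have hX := ct_pos hx.1 hx.2
  have hY := ct_pos hy.1 hy.2
  have ha := bR_nonneg W x
  have hb := bR_nonneg W y
  have hf := bF_nonneg W x
  have hg := bF_nonneg W y
  have hm := bN_nonneg h hl hx.1.le hx.2.le
  have hn := bN_nonneg h hl hy.1.le hy.2.le
  have hNN := SS_NN (x := x) (y := y) h.l0 hl hx.1 hx.2 hy.1 hy.2 hxy
  have px : psi (ct x) = ct x - chi (ct x) := by unfold chi; ring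
  have py : psi (ct y) = ct y - chi (ct y) := by unfold chi; ring
  have hlx : l ≤ 2 * π - x := by linarith [hx.2]
  have hly : l ≤ 2 * π - y := by linarith [hy.2]
  have hax : l < x → bR W x = 0 := fun hh => bR_zero h hh.le (by linarith [hx.2, Real.pi_pos])
  have hay : l < y → bR W y = 0 := fun hh => bR_zero h hh.le (by linarith [hy.2, Real.pi_pos])
  have hfx : x < l → bF W x = 0 := fun hh => bF_zero h hx.1.le hh.le
  have hfy : y < l → bF W y = 0 := fun hh => bF_zero h hy.1.le hh.le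
  have hclx : x < l → ct l < ct x := fun hh => ct_lt hx.1 hh hl2
  have hcly : y < l → ct l < ct y := fun hh => ct_lt hy.1 hh hl2
  have hcxl : l < x → ct x < ct l := fun hh => ct_lt h.l0 hh (by linarith [hx.2, Real.pi_pos])
  have hcyl : l < y → ct y < ct l := fun hh => ct_lt h.l0 hh (by linarith [hy.2, Real.pi_pos])
  have hp8 : (0:ℝ) ≤ 8 * π := by positivity
  simp only [mul_add (8 * π)]
  apply SH_fin_B
  · -- R-R
    rcases lt_or_gt_of_ne hxl with h1 | h1
    · rcases lt_or_gt_of_ne hyl with h2 | h2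
      · rw [SS_RR hl hx.1 hy.1 h1 h2 hxy, SE_same (Or.inl ⟨h1, h2⟩)]
        apply le_of_eq
        ring
      · rw [hay h2]; simp
    · rw [hax h1]; simp
  · -- R-F
    rcases lt_or_gt_of_ne hxl with h1 | h1
    · rcases lt_or_gt_of_ne hyl with h2 | h2
      · rw [hfy h2]; simp
      · have hlt : ct y < ct x := (hcyl h2).trans (hclx h1)
        have r1 := rfk_le hY hlt
        have r2 : 0 ≤ (2 + 2 * (ct x * ct y)) / (ct x - ct y) :=
          div_nonneg (by positivity) (sub_nonneg.2 hlt.le)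
        have r3 := mul_nonpos_of_nonneg_of_nonpos hp8 (SE_RF hx.1 h1 h2 hy.2)
        apply mul_nonpos_of_nonneg_of_nonpos (mul_nonneg ha hg)
        rw [SS_RF hl hx.1 h1 h2 hy.2, px]
        linarith
    · rw [hax h1]; simp
  · -- F-R
    rcases lt_or_gt_of_ne hyl with h1 | h1
    · rcases lt_or_gt_of_ne hxl with h2 | h2
      · rw [hfx h2]; simp
      · have hlt : ct x < ct y := (hcxl h2).trans (hcly h1)
        have r1 := rfk_le hX hlt
        have r2 : 0 ≤ (2 + 2 * (ct y * ct x)) / (ct y - ct x) :=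
          div_nonneg (by positivity) (sub_nonneg.2 hlt.le)
        have r3 := mul_nonpos_of_nonneg_of_nonpos hp8 (SE_RF hy.1 h1 h2 hx.2)
        apply mul_nonpos_of_nonneg_of_nonpos (mul_nonneg hf hb)
        rw [SS_symm, SE_symm, SS_RF hl hy.1 h1 h2 hx.2, py]
        linarith
    · rw [hay h1]; simp
  · -- F-F
    rcases lt_or_gt_of_ne hxl with h1 | h1
    · rw [hfx h1]; simp
    · rcases lt_or_gt_of_ne hyl with h2 | h2
      · rw [hfy h2]; simp
      · rw [SS_FF h.l0 h1 h2 hx.2 hy.2, SE_same (Or.inr ⟨h1.le, h2.le⟩)]; simp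
  · -- N-R
    rcases lt_or_gt_of_ne hyl with h1 | h1
    · apply mul_le_mul_of_nonneg_left _ (mul_nonneg hm hb)
      have r1 := rnk_ek_le hY hX
      rw [SS_NR hl hx.1 hx.2 hy.1 h1, SE_NR hl hx.1 hx.2 hy.1 h1, px, py]
      linarith
    · rw [hay h1]; simp
  · -- N-F
    rcases lt_or_gt_of_ne hyl with h1 | h1
    · rw [hfy h1]; simp
    · rw [SS_NF h.l0 hl hx.1 hx.2 h1 hy.2, SE_same (Or.inr ⟨hlx, h1.le⟩)]
      apply le_of_eq
      ring
  · -- R-N
    rcases lt_or_gt_of_ne hxl with h1 | h1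
    · apply mul_le_mul_of_nonneg_left _ (mul_nonneg ha hn)
      have r1 := rnk_ek_le hX hY
      rw [SS_symm, SE_symm, SS_NR hl hy.1 hy.2 hx.1 h1, SE_NR hl hy.1 hy.2 hx.1 h1, px, py]
      linarith
    · rw [hax h1]; simp
  · -- F-N
    rcases lt_or_gt_of_ne hxl with h1 | h1
    · rw [hfx h1]; simp
    · rw [SS_symm, SS_NF h.l0 hl hy.1 hy.2 h1 hx.2, SE_same (Or.inr ⟨h1.le, hly⟩)]
      apply le_of_eq
      ring
  · -- N-N
    rw [hNN, SE_same (Or.inr ⟨hlx, hly⟩)]
    apply le_of_eq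
    ring

end Pool.Agent.H51.DG
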