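import Pool.Agent.H51.DG.SH
import Pool.Agent.H51.DG.SJ
import Pool.Agent.H51.DG.SD
import Pool.Agent.H51.DG.NG

/-!
# DG2 job SK: assembly of certificate (A)

`FF W l = ∫_{Sq2} |W||W| SS = ∫_{Sq1} fold4 (...)` (`FF_kernel`, `fold_integral`),
`(∫_0^{2π} W) ∫_0^π alA = ∫_{Sq1} (alA x nu y + alA y nu x)/2` (`int_nu`, `prod_Sq1`).  Integrate
`cert_A` (valid a.e. by `ae_off`) over `Sq1`; the right hand side is integrable: `form_k3`, `form_l1k`
for `bR W`, `bN W` (`FInt`), and for the remaining terms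
`gA (ct x) (ct y) = 1_{x > x0} 1_{y > x0}` and `fA (ct x) (ct y) = 1_{x > x0}` on `(0,π)²` with
`x0 = th (log 2)` (`ct x0 = 1/2` by `ct_th`, `ct` is strictly decreasing, `ct_lt`), so
`∫_{Sq1} bR x bN y gA = (∫_{x0}^π bR)(∫_{x0}^π bN)`, `∫_{Sq1} bR x bF y fA = (∫_{x0}^π bR)(∫_0^π bF)`
(`prod_Sq1` with indicator functions), and the same for the symmetric terms.
`form b b k3 = -N3 b`, `form b b l1k ≤ 0`.
-/

set_option autoImplicit false
open Real Set MeasureTheory Filter Topology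

namespace Pool.Agent.H51.DG

/-- `x0 = th (log 2)` is the point with `ct x0 = 1/2` -/
theorem SK_ct_lt_iff {x : ℝ} (hx : x ∈ Ioo (0:ℝ) π) :
    ct x < 1 / 2 ↔ th (Real.log 2) < x := by
  have h1 : ct (th (Real.log 2)) = 1 / 2 := by
    rw [ct_th, Real.exp_neg, Real.exp_log (by norm_num)]
    norm_num
  have h2 := th_mem (Real.log 2)
  have hpi := Real.pi_pos
  constructor
  · intro h
    by_contra hcon
    rcases (not_lt.1 hcon).eq_or_lt with h3 | h3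
    · rw [h3, h1] at h
      exact lt_irrefl _ h
    · have h4 := ct_lt hx.1 h3 (by linarith [h2.2])
      rw [h1] at h4
      linarith
  · intro h
    have h4 := ct_lt h2.1 h (by linarith [hx.2])
    rwa [h1] at h4

/-- the restriction to `(x0, π)` -/
noncomputable def SK_cut (b : ℝ → ℝ) (x : ℝ) : ℝ := (Ioi (th (Real.log 2))).indicator b x

theorem SK_cut_integrable {b : ℝ → ℝ} (hb : Continuous b) :
    IntegrableOn b (Ioo (0:ℝ) π) ∧ IntegrableOn (SK_cut b) (Ioo (0:ℝ) π) := by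
  have h1 : IntegrableOn b (Ioo (0:ℝ) π) :=
    (hb.integrableOn_Icc (a := 0) (b := π)).mono_set Ioo_subset_Icc_self
  exact ⟨h1, Integrable.indicator h1 measurableSet_Ioi⟩

theorem SK_cut_integral (b : ℝ → ℝ) :
    ∫ x in (0:ℝ)..π, SK_cut b x = ∫ x in (th (Real.log 2))..π, b x := by
  have h2 := th_mem (Real.log 2)
  rw [intervalIntegral.integral_of_le Real.pi_pos.le, intervalIntegral.integral_of_le h2.2.le]
  show ∫ x in Ioc (0:ℝ) π, (Ioi (th (Real.log 2))).indicator b x = _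
  rw [setIntegral_indicator measurableSet_Ioi, Ioc_inter_Ioi, max_eq_right h2.1.le]

theorem SK_gA {p q : ℝ → ℝ} {x y : ℝ} (hx : x ∈ Ioo (0:ℝ) π) (hy : y ∈ Ioo (0:ℝ) π) :
    p x * q y * gA (ct x) (ct y) = SK_cut p x * SK_cut q y := by
  unfold gA SK_cut indicator
  simp only [SK_ct_lt_iff hx, SK_ct_lt_iff hy, mem_Ioi]
  by_cases h1 : th (Real.log 2) < x
  · by_cases h2 : th (Real.log 2) < y
    · simp [h1, h2]
    · simp [h1, h2]
  · simp [h1]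

theorem SK_fA {p q : ℝ → ℝ} {x y : ℝ} (hx : x ∈ Ioo (0:ℝ) π) :
    p x * q y * fA (ct x) (ct y) = SK_cut p x * q y := by
  unfold fA SK_cut indicator
  simp only [SK_ct_lt_iff hx, mem_Ioi]
  by_cases h1 : th (Real.log 2) < x
  · simp [h1]
  · simp [h1]

theorem asm_A {W : ℝ → ℝ} {l : ℝ} (h : Van W l) (hl : l ≤ π) :
    N3 (bR W) + N3 (bN W)
      + 2 * ((∫ x in (th (Real.log 2))..π, bR W x)
        * ((∫ x in (th (Real.log 2))..π, bN W x) + ∫ x in (0:ℝ)..π, bF W x)) ≤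
    8 * π * (-(FF W l + (∫ x in (0:ℝ)..(2 * π), W x) * ∫ x in (0:ℝ)..π, alA W l x)) := by
  have hN : Nrm W l := h.toNrm
  obtain ⟨K, hK⟩ := h.lip
  have hWc := h.continuous
  obtain ⟨cR, cF, cN, cnu⟩ := continuous_parts hWc
  have dR := h.bd_bR
  have dN := h.bd_bN hl
  obtain ⟨hI, hFF⟩ := FF_kernel h hl
  obtain ⟨hfi, hfe⟩ := fold_integral (h := fun s t => |W s| * |W t| * SS l s t) hI
  have hfe' : FF W l = ∫ z in Sq1, fold4 (fun s t => |W s| * |W t| * SS l s t) z.1 z.2 :=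
    hFF.trans hfe
  have hal := (alA_integrable hN hl hK).1
  have hnu : IntegrableOn (nu W) (Ioo (0:ℝ) π) := (SK_cut_integrable cnu).1
  obtain ⟨p1, q1⟩ := prod_Sq1 hal hnu
  obtain ⟨p2, q2⟩ := prod_Sq1 hnu hal
  obtain ⟨iR, jR⟩ := SK_cut_integrable cR
  obtain ⟨iN, jN⟩ := SK_cut_integrable cN
  obtain ⟨iF, jF⟩ := SK_cut_integrable cF
  obtain ⟨p3, q3⟩ := prod_Sq1 jR jN
  obtain ⟨p4, q4⟩ := prod_Sq1 jN jR
  obtain ⟨p5, q5⟩ := prod_Sq1 jR iF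
  obtain ⟨p6, q6⟩ := prod_Sq1 iF jR
  obtain ⟨f1, g1⟩ := form_k3 dR
  obtain ⟨f2, g2⟩ := form_l1k dR
  obtain ⟨f3, g3⟩ := form_k3 dN
  obtain ⟨f4, g4⟩ := form_l1k dN
  have f1' : IntegrableOn (fun z : ℝ × ℝ => bR W z.1 * bR W z.2 * k3 (ct z.1) (ct z.2)) Sq1 := f1
  have f2' : IntegrableOn (fun z : ℝ × ℝ => bR W z.1 * bR W z.2 * l1k (ct z.1) (ct z.2)) Sq1 := f2
  have f3' : IntegrableOn (fun z : ℝ × ℝ => bN W z.1 * bN W z.2 * k3 (ct z.1) (ct z.2)) Sq1 := f3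
  have f4' : IntegrableOn (fun z : ℝ × ℝ => bN W z.1 * bN W z.2 * l1k (ct z.1) (ct z.2)) Sq1 := f4
  have g1' : ∫ z in Sq1, bR W z.1 * bR W z.2 * k3 (ct z.1) (ct z.2) = -N3 (bR W) := g1
  have g2' : ∫ z in Sq1, bR W z.1 * bR W z.2 * l1k (ct z.1) (ct z.2) ≤ 0 := g2
  have g3' : ∫ z in Sq1, bN W z.1 * bN W z.2 * k3 (ct z.1) (ct z.2) = -N3 (bN W) := g3
  have g4' : ∫ z in Sq1, bN W z.1 * bN W z.2 * l1k (ct z.1) (ct z.2) ≤ 0 := g4
  have hadd : ∀ f g : ℝ × ℝ → ℝ, IntegrableOn f Sq1 → IntegrableOn g Sq1 →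
      IntegrableOn (fun z => f z + g z) Sq1 ∧
        ∫ z in Sq1, (f z + g z) = (∫ z in Sq1, f z) + ∫ z in Sq1, g z :=
    fun f g hf hg => ⟨hf.add hg, integral_add hf hg⟩
  have hsub : ∀ f g : ℝ × ℝ → ℝ, IntegrableOn f Sq1 → IntegrableOn g Sq1 →
      IntegrableOn (fun z => f z - g z) Sq1 ∧
        ∫ z in Sq1, (f z - g z) = (∫ z in Sq1, f z) - ∫ z in Sq1, g z :=
    fun f g hf hg => ⟨hf.sub hg, integral_sub hf hg⟩
  obtain ⟨a1, b1⟩ := hadd _ _ p1 p2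
  obtain ⟨a2, b2⟩ := hadd _ _ hfi (a1.div_const 2)
  obtain ⟨a3, b3⟩ := hadd _ _ f1' f2'
  obtain ⟨a4, b4⟩ := hadd _ _ f3' f4'
  obtain ⟨a5, b5⟩ := hadd _ _ a3 a4
  obtain ⟨a6, b6⟩ := hadd _ _ p3 p4
  obtain ⟨a7, b7⟩ := hadd _ _ p5 p6
  obtain ⟨a8, b8⟩ := hadd _ _ a6 a7
  obtain ⟨a9, b9⟩ := hsub _ _ a5 a8
  -- the integrated inequality
  have hL : IntegrableOn (fun z : ℝ × ℝ => 8 * π *
      (fold4 (fun s t => |W s| * |W t| * SS l s t) z.1 z.2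
        + (alA W l z.1 * nu W z.2 + nu W z.1 * alA W l z.2) / 2)) Sq1 :=
    a2.const_mul _
  have hR : IntegrableOn (fun z : ℝ × ℝ =>
      ((bR W z.1 * bR W z.2 * k3 (ct z.1) (ct z.2) + bR W z.1 * bR W z.2 * l1k (ct z.1) (ct z.2))
        + (bN W z.1 * bN W z.2 * k3 (ct z.1) (ct z.2)
          + bN W z.1 * bN W z.2 * l1k (ct z.1) (ct z.2)))
        - ((SK_cut (bR W) z.1 * SK_cut (bN W) z.2 + SK_cut (bN W) z.1 * SK_cut (bR W) z.2)
          + (SK_cut (bR W) z.1 * bF W z.2 + bF W z.1 * SK_cut (bR W) z.2))) Sq1 :=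
    a9
  have hmono := setIntegral_mono_ae_restrict hL hR (by
    filter_upwards [ae_off l] with z hz
    obtain ⟨hz0, hz1, hz2, hz3⟩ := hz
    have hc := cert_A hN hl hz0.1 hz0.2 hz1 hz2 hz3
    rw [SK_gA hz0.1 hz0.2, SK_gA (p := bR W) (q := bN W) hz0.2 hz0.1, SK_fA hz0.1,
      SK_fA (p := bR W) (q := bF W) hz0.2] at hc
    show 8 * π * (fold4 (fun s t => |W s| * |W t| * SS l s t) z.1 z.2
        + (alA W l z.1 * nu W z.2 + nu W z.1 * alA W l z.2) / 2) ≤ _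
    linarith)
  have hdiv : ∫ z in Sq1, (alA W l z.1 * nu W z.2 + nu W z.1 * alA W l z.2) / 2 =
      (∫ z in Sq1, (alA W l z.1 * nu W z.2 + nu W z.1 * alA W l z.2)) / 2 := integral_div _ _
  rw [integral_const_mul, b2, hdiv, b1, q1, q2, b9, b5, b3, b4, b8, b6, b7,
    q3, q4, q5, q6, g1', g3', SK_cut_integral, SK_cut_integral, ← hfe', ← int_nu hN hl hWc]
    at hmono
  linarith

end Pool.Agent.H51.DG
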