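import Pool.Agent.H51.DG.St

/-!
# DG2: static kernels on `(0,2π)²` and the three parts of a normalised function (definitions)
-/

set_option autoImplicit false
open Real Set MeasureTheory Filter Topology

namespace Pool.Agent.H51.DG

/-- the square `(0,2π)²` -/
def Sq2 : Set (ℝ × ℝ) := Ioo (0:ℝ) (2 * π) ×ˢ Ioo (0:ℝ) (2 * π)

/-- the square `(0,π)²` -/
def Sq1 : Set (ℝ × ℝ) := Ioo (0:ℝ) π ×ˢ Ioo (0:ℝ) π

/-- symmetric kernel of `FF` (`Real.log` of a negative number is `log` of its modulus) -/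
noncomputable def SS (l x y : ℝ) : ℝ :=
  1 / (2 * π) * ((Phi l x * sg l y - Phi l y * sg l x) * ct (x - y)
    + dPhi l x * sg l y * (Real.log (Real.sin ((x - y) / 2)) - Real.log (Real.sin (y / 2)))
    + dPhi l y * sg l x * (Real.log (Real.sin ((x - y) / 2)) - Real.log (Real.sin (x / 2))))

/-- symmetric kernel of `E2` -/
noncomputable def SE (l x y : ℝ) : ℝ :=
  1 / (4 * π) * (sg l y - sg l x) * (Real.cos ((x - y) / 2) / Real.sin ((x - y) / 2) ^ 3)

/-- parts of `W` on `(0,π)`: `W = bF - bR`, and the reflected part `bN` -/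
noncomputable def bR (W : ℝ → ℝ) (x : ℝ) : ℝ := max (-W x) 0
noncomputable def bF (W : ℝ → ℝ) (x : ℝ) : ℝ := max (W x) 0
noncomputable def bN (W : ℝ → ℝ) (x : ℝ) : ℝ := W (-x)

noncomputable def nu (W : ℝ → ℝ) (x : ℝ) : ℝ := bF W x + bN W x - bR W x

noncomputable def chi (Y : ℝ) : ℝ := Y - psi Y

/-- multiplier density of the certificate (A) -/
noncomputable def alA (W : ℝ → ℝ) (l x : ℝ) : ℝ :=
  1 / (4 * π) * (bR W x * chi (ct x) - bN W x * (chi (ct x) + gk (ct l) (ct x)))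

/-- multiplier density of the certificate (B) -/
noncomputable def al0 (W : ℝ → ℝ) (x : ℝ) : ℝ :=
  1 / (4 * π) * ((bR W x - bN W x) * chi (ct x))

/-- the sum of the four reflections of a function on `(0,2π)²` -/
noncomputable def fold4 (h : ℝ → ℝ → ℝ) (x y : ℝ) : ℝ :=
  h x y + h (2 * π - x) y + h x (2 * π - y) + h (2 * π - x) (2 * π - y)

/-- bounded kernels used for coercivity -/
noncomputable def gA (Y z : ℝ) : ℝ := if Y < 1 / 2 ∧ z < 1 / 2 then 1 else 0
noncomputable def fA (Y _y : ℝ) : ℝ := if Y < 1 / 2 then 1 else 0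

/-- cut-off at `0` -/
noncomputable def cut (n : ℕ) (x : ℝ) : ℝ := max 0 (min 1 (n * |2 * Real.sin (x / 2)| - 1))
noncomputable def Wn (W : ℝ → ℝ) (n : ℕ) (x : ℝ) : ℝ := cut n x * W x

end Pool.Agent.H51.DG
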