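import Pool.Agent.H51.DG.SC
import Pool.Agent.H51.DG.SF
import Pool.Agent.H51.DG.SJ
import Pool.Agent.H51.DG.SO

/-!
# DG2 job VA: `HT W 0` and the growth of the mass

`HT_zero_le`: `HT W 0 = (1/2π) ∫_0^π (W(-s) - W(s)) cot(s/2) ds`, `W(-s) = W(2π-s)`.  For `0 < s < π`:
`cot(s/2) ≤ 1/sin(s/2) = 2 vp s`; `W(2π-s) cot(s/2) ≤ 2 |W(2π-s)| vp (dst l (2π-s))` (if `2π-s ≥ l` then
`dst l (2π-s) = s`; if `2π-s < l` then `W(2π-s) ≤ 0`), and `-W(s) cot(s/2) ≤ 2 |W s| vp (dst l s)` (if
`s < l` then `dst l s = s`; if `s ≥ l` then `-W s ≤ 0`).  Integrate, `fold_interval`, `QQ_integrable`.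

`Ma_growth`: `HT_fubini`, `HT_fubini_lip` with `F = |W|` (Lipschitz), `V = W`:
`∫ |W| HT W = (1/4π) ∫_{Sq2} (|W x| W y - |W y| W x) ct(x-y)`, and for a.e. `(x,y) ∈ Sq2`
`|W x| W y - |W y| W x = |W x||W y| (sg l y - sg l x)`,
`(sg l y - sg l x) ct(x-y) ≤ 4 vp (dst l x)`: it is `0` on the same arc; if `x < l < y`:
`ct(x-y) = -cot((y-x)/2) = cot((2π - (y-x))/2)`, `2π - (y-x) = x + (2π-y) =: x + η`; if `x + η ≥ π` the
cotangent is `≤ 0`; otherwise `cot((x+η)/2) ≤ 1/sin((x+η)/2) ≤ 1/sin(x/2) = 2 vp x` (`x < π`).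
If `y < l < x`: symmetric with `2π - x = dst l x` and `η = y`.  Hence
`2 ∫ |W| HT W ≤ (2/4π) · 4 · QQ · Ma = (2/π) QQ Ma` (`prod` integral over `Sq2`, `setIntegral_prod_mul`).
-/

set_option autoImplicit false
open Real Set MeasureTheory Filter Topology

namespace Pool.Agent.H51.DG

theorem VA_vp_nonneg {ξ : ℝ} (h0 : 0 ≤ ξ) : 0 ≤ vp ξ := by
  unfold vp
  split_ifs with h
  · have : 0 ≤ Real.sin (ξ / 2) := Real.sin_nonneg_of_nonneg_of_le_pi (by linarith)
      (by linarith [Real.pi_pos])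
    positivity
  · norm_num

theorem VA_dst_nonneg {l x : ℝ} (h0 : 0 ≤ x) (h1 : x ≤ 2 * π) : 0 ≤ dst l x := by
  unfold dst
  split_ifs <;> linarith

theorem VA_cot {s : ℝ} (h0 : 0 < s) (h1 : s ≤ π) :
    Real.cos (s / 2) / Real.sin (s / 2) ≤ 2 * vp s := by
  have hs : 0 < Real.sin (s / 2) := Real.sin_pos_of_pos_of_lt_pi (by linarith)
    (by linarith [Real.pi_pos])
  unfold vp
  rw [if_pos h1]
  have e : 2 * (1 / (2 * Real.sin (s / 2))) = 1 / Real.sin (s / 2) := by
    field_simp
  rw [e]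
  exact div_le_div_of_nonneg_right (Real.cos_le_one _) hs.le

theorem VA_core {a b : ℝ} (ha : 0 < a) (hb : 0 < b) (hab : a + b < 2 * π) :
    ct (a + b) ≤ 2 * vp a := by
  have hpi := Real.pi_pos
  have hs : 0 < Real.sin ((a + b) / 2) := Real.sin_pos_of_pos_of_lt_pi (by linarith)
    (by linarith)
  rcases le_or_gt π (a + b) with h | h
  · have hc : Real.cos ((a + b) / 2) ≤ 0 :=
      Real.cos_nonpos_of_pi_div_two_le_of_le (by linarith) (by linarith)
    have h1 : ct (a + b) ≤ 0 := by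
      unfold ct
      exact div_nonpos_of_nonpos_of_nonneg hc hs.le
    have h2 := VA_vp_nonneg ha.le
    linarith
  · have hsa : 0 < Real.sin (a / 2) := Real.sin_pos_of_pos_of_lt_pi (by linarith)
      (by linarith)
    have hle : Real.sin (a / 2) ≤ Real.sin ((a + b) / 2) :=
      Real.sin_le_sin_of_le_of_le_pi_div_two (by linarith) (by linarith) (by linarith)
    unfold vp ct
    rw [if_pos (by linarith)]
    have e : 2 * (1 / (2 * Real.sin (a / 2))) = 1 / Real.sin (a / 2) := by
      field_simp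
    rw [e]
    calc Real.cos ((a + b) / 2) / Real.sin ((a + b) / 2) ≤ 1 / Real.sin ((a + b) / 2) :=
          div_le_div_of_nonneg_right (Real.cos_le_one _) hs.le
      _ ≤ 1 / Real.sin (a / 2) := one_div_le_one_div_of_le hsa hle

/-- value of `W` in terms of `sg` -/
theorem VA_sg {W : ℝ → ℝ} {l : ℝ} (h : Nrm W l) {x : ℝ} (h0 : 0 ≤ x) (h1 : x ≤ 2 * π) :
    W x = sg l x * |W x| := by
  unfold sg
  split_ifs with hx
  · have := h.neg x ⟨h0, hx.le⟩
    rw [abs_of_nonpos this]
    ring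
  · have := h.pos x ⟨not_lt.1 hx, h1⟩
    rw [abs_of_nonneg this]
    ring

theorem VA_pt {W : ℝ → ℝ} {l : ℝ} (h : Nrm W l) {s : ℝ} (h0 : 0 < s) (h1 : s ≤ π) :
    (W (0 - s) - W (0 + s)) * (Real.cos (s / 2) / Real.sin (s / 2)) ≤
      2 * (|W s| * vp (dst l s) + |W (2 * π - s)| * vp (dst l (2 * π - s))) := by
  have hpi := Real.pi_pos
  have hc0 := (cot_le h0 h1).1
  have hc1 := VA_cot h0 h1
  have e1 : W (0 - s) = W (2 * π - s) := by
    have := h.per (0 - s)
    rw [← this]
    congr 1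
    ring
  have e2 : W (0 + s) = W s := by rw [zero_add]
  rw [e1, e2]
  set c := Real.cos (s / 2) / Real.sin (s / 2) with hcdef
  have a1 : W (2 * π - s) * c ≤ 2 * (|W (2 * π - s)| * vp (dst l (2 * π - s))) := by
    have hn : 0 ≤ vp (dst l (2 * π - s)) :=
      VA_vp_nonneg (VA_dst_nonneg (by linarith) (by linarith))
    rcases lt_or_ge (2 * π - s) l with hl | hl
    · have hW := h.neg (2 * π - s) ⟨by linarith, hl.le⟩
      have : W (2 * π - s) * c ≤ 0 := mul_nonpos_of_nonpos_of_nonneg hW hc0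
      have : 0 ≤ |W (2 * π - s)| * vp (dst l (2 * π - s)) := mul_nonneg (abs_nonneg _) hn
      linarith
    · have hd : dst l (2 * π - s) = s := by
        unfold dst
        rw [if_neg (not_lt.2 hl)]
        ring
      rw [hd]
      calc W (2 * π - s) * c ≤ |W (2 * π - s)| * c :=
            mul_le_mul_of_nonneg_right (le_abs_self _) hc0
        _ ≤ |W (2 * π - s)| * (2 * vp s) := mul_le_mul_of_nonneg_left hc1 (abs_nonneg _)
        _ = _ := by ring
  have a2 : -W s * c ≤ 2 * (|W s| * vp (dst l s)) := by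
    have hn : 0 ≤ vp (dst l s) := VA_vp_nonneg (VA_dst_nonneg (by linarith) (by linarith))
    rcases lt_or_ge s l with hl | hl
    · have hd : dst l s = s := by
        unfold dst
        rw [if_pos hl]
      rw [hd]
      calc -W s * c ≤ |W s| * c := mul_le_mul_of_nonneg_right (neg_le_abs _) hc0
        _ ≤ |W s| * (2 * vp s) := mul_le_mul_of_nonneg_left hc1 (abs_nonneg _)
        _ = _ := by ring
    · have hW := h.pos s ⟨hl, by linarith⟩
      have : -W s * c ≤ 0 := mul_nonpos_of_nonpos_of_nonneg (by linarith) hc0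
      have : 0 ≤ |W s| * vp (dst l s) := mul_nonneg (abs_nonneg _) hn
      linarith
  nlinarith [a1, a2]

theorem HT_zero_le {W : ℝ → ℝ} {l K : ℝ} (h : Nrm W l) (hK : Lip K W) :
    HT W 0 ≤ QQ W l / π := by
  have hpi := Real.pi_pos
  obtain ⟨i1, e1⟩ := fold_interval (QQ_integrable h hK)
  have hle : ∫ s in (0:ℝ)..π, (W (0 - s) - W (0 + s)) * (Real.cos (s / 2) / Real.sin (s / 2)) ≤
      ∫ s in (0:ℝ)..π, 2 * (|W s| * vp (dst l s) + |W (2 * π - s)| * vp (dst l (2 * π - s))) := by
    apply intervalIntegral.integral_mono_on_of_le_Ioo hpi.le (HT_integrable hK 0) (i1.const_mul 2)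
    intro s hs
    exact VA_pt h hs.1 hs.2.le
  rw [intervalIntegral.integral_const_mul, ← e1] at hle
  have e2 : (∫ x in (0:ℝ)..(2 * π), |W x| * vp (dst l x)) = QQ W l := rfl
  rw [e2] at hle
  unfold HT
  calc 1 / (2 * π) * ∫ s in (0:ℝ)..π,
        (W (0 - s) - W (0 + s)) * (Real.cos (s / 2) / Real.sin (s / 2))
      ≤ 1 / (2 * π) * (2 * QQ W l) := mul_le_mul_of_nonneg_left hle (by positivity)
    _ = QQ W l / π := by field_simp

theorem VA_pt2 {W : ℝ → ℝ} {l : ℝ} (h : Nrm W l) {x y : ℝ} (hx0 : 0 < x) (hx1 : x < 2 * π)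
    (hy0 : 0 < y) (hy1 : y < 2 * π) :
    (|W x| * W y - |W y| * W x) * ct (x - y) ≤ 4 * (|W x| * vp (dst l x)) * |W y| := by
  have hpi := Real.pi_pos
  have e : |W x| * W y - |W y| * W x = |W x| * |W y| * (sg l y - sg l x) := by
    have h1 := VA_sg h hy0.le hy1.le
    have h2 := VA_sg h hx0.le hx1.le
    calc |W x| * W y - |W y| * W x = |W x| * (sg l y * |W y|) - |W y| * (sg l x * |W x|) := by
          rw [← h1, ← h2]
      _ = _ := by ring
  have hn : 0 ≤ vp (dst l x) := VA_vp_nonneg (VA_dst_nonneg hx0.le hx1.le)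
  have key : (sg l y - sg l x) * ct (x - y) ≤ 4 * vp (dst l x) := by
    unfold sg
    by_cases hx : x < l
    · by_cases hy : y < l
      · rw [if_pos hx, if_pos hy]
        simp only [sub_self, zero_mul]
        linarith
      · rw [if_pos hx, if_neg hy]
        have hy' : l ≤ y := not_lt.1 hy
        have hd : dst l x = x := by
          unfold dst
          rw [if_pos hx]
        rw [hd]
        have hp : ct (x - y) = ct (x + (2 * π - y)) := by
          have := SC_ct_per (x - y)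
          rw [← this]
          congr 1
          ring
        have := VA_core hx0 (show 0 < 2 * π - y by linarith) (by linarith)
        rw [hp]
        linarith
    · by_cases hy : y < l
      · rw [if_neg hx, if_pos hy]
        have hx' : l ≤ x := not_lt.1 hx
        have hd : dst l x = 2 * π - x := by
          unfold dst
          rw [if_neg hx]
        rw [hd]
        have hp : -ct (x - y) = ct ((2 * π - x) + y) := by
          have h1 := SC_ct_per (-(x - y))
          rw [← SC_ct_neg, ← h1]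
          congr 1
          ring
        have := VA_core (show 0 < 2 * π - x by linarith) hy0 (by linarith)
        linarith
      · rw [if_neg hx, if_neg hy]
        simp only [sub_self, zero_mul]
        linarith
  rw [e]
  calc |W x| * |W y| * (sg l y - sg l x) * ct (x - y)
      = |W x| * |W y| * ((sg l y - sg l x) * ct (x - y)) := by ring
    _ ≤ |W x| * |W y| * (4 * vp (dst l x)) := mul_le_mul_of_nonneg_left key (by positivity)
    _ = _ := by ring

theorem Ma_growth {W : ℝ → ℝ} {l K : ℝ} (h : Nrm W l) (hK : Lip K W) :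
    2 * ∫ x in (0:ℝ)..(2 * π), |W x| * HT W x ≤ QQ W l * Ma W := by
  have hpi := Real.pi_pos
  have hcW : Continuous W := hK.continuous
  obtain ⟨B, hB⟩ := SC_bdd h.per hcW
  have hLF : Lip K (fun x => |W x|) := by
    intro x y
    exact (abs_abs_sub_abs_le_abs_sub (W x) (W y)).trans (hK x y)
  have hpF : Function.Periodic (fun x => |W x|) (2 * π) := by
    intro x
    show |W (x + 2 * π)| = |W x|
    rw [h.per x]
  have hint := HT_fubini_lip hLF hpF h.per hK
  have hfub := HT_fubini (F := fun x => |W x|) (V := W) (K := K) (B := B)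
    hcW.abs.measurable (fun x => by
      show |(|W x|)| ≤ B
      rw [abs_abs]
      exact hB x) hpF h.per hK hint
  have iQ : Integrable (fun x => |W x| * vp (dst l x)) (volume.restrict (Ioc (0:ℝ) (2 * π))) :=
    SC_ii_iff.2 (QQ_integrable h hK)
  have iW : Integrable (fun x => |W x|) (volume.restrict (Ioc (0:ℝ) (2 * π))) :=
    SC_ii_iff.2 (hcW.abs.intervalIntegrable _ _)
  have iP : IntegrableOn (fun z : ℝ × ℝ => 4 * (|W z.1| * vp (dst l z.1)) * |W z.2|) Sq2 := by
    unfold IntegrableOn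
    rw [SC_restrict]
    exact (iQ.const_mul 4).mul_prod iW
  have eP : ∫ z in Sq2, 4 * (|W z.1| * vp (dst l z.1)) * |W z.2| = 4 * QQ W l * Ma W := by
    rw [SC_restrict]
    have := integral_prod_mul (μ := volume.restrict (Ioc (0:ℝ) (2 * π)))
      (ν := volume.restrict (Ioc (0:ℝ) (2 * π)))
      (fun x : ℝ => 4 * (|W x| * vp (dst l x))) (fun y : ℝ => |W y|)
    rw [this, SC_int_eq, SC_int_eq, intervalIntegral.integral_const_mul]
    rfl
  have hmS : MeasurableSet Sq2 := measurableSet_Ioo.prod measurableSet_Ioo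
  have hle : ∫ z in Sq2, (|W z.1| * W z.2 - |W z.2| * W z.1) * ct (z.1 - z.2) ≤
      ∫ z in Sq2, 4 * (|W z.1| * vp (dst l z.1)) * |W z.2| := by
    apply setIntegral_mono_on hint iP hmS
    intro z hz
    exact VA_pt2 h hz.1.1 hz.1.2 hz.2.1 hz.2.2
  rw [eP] at hle
  have hQ0 : 0 ≤ QQ W l := by
    unfold QQ
    apply intervalIntegral.integral_nonneg SC_two_pi_pos.le
    intro x hx
    exact mul_nonneg (abs_nonneg _) (VA_vp_nonneg (VA_dst_nonneg hx.1 hx.2))
  have hM0 : 0 ≤ Ma W := by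
    unfold Ma
    apply intervalIntegral.integral_nonneg SC_two_pi_pos.le
    intro x hx
    exact abs_nonneg _
  have e1 : ∫ x in (0:ℝ)..(2 * π), |W x| * HT W x = 1 / (4 * π) *
      ∫ z in Sq2, (|W z.1| * W z.2 - |W z.2| * W z.1) * ct (z.1 - z.2) := hfub
  rw [e1]
  have hQM : 0 ≤ QQ W l * Ma W := mul_nonneg hQ0 hM0
  calc 2 * (1 / (4 * π) * ∫ z in Sq2, (|W z.1| * W z.2 - |W z.2| * W z.1) * ct (z.1 - z.2))
      ≤ 2 * (1 / (4 * π) * (4 * QQ W l * Ma W)) := by
        apply mul_le_mul_of_nonneg_left _ (by norm_num)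
        exact mul_le_mul_of_nonneg_left hle (by positivity)
    _ = (2 / π) * (QQ W l * Ma W) := by
        field_simp
    _ ≤ 1 * (QQ W l * Ma W) := by
        apply mul_le_mul_of_nonneg_right _ hQM
        rw [div_le_one hpi]
        exact Real.two_le_pi
    _ = QQ W l * Ma W := one_mul _

end Pool.Agent.H51.DG
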